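import Pool.Agent.Lib.HS.C.Spec
import Pool.Agent.Lib.HS.C.Mc
import Pool.Agent.Lib.HS.Cel3
import Pool.Agent.Lib.HS.Am9
import Pool.Agent.Lib.MP_a54f13_nt.Hp.Main

/-!
# Package `HS`, bands: the primitive amplifier inequality at every level `K`, for every set of cells

helper83. In the bad case, for `w^(-1/4) ≤ K ≤ w^(-1)` and every set `W` of cells of mass between `A` and `2A` with
`A #W ≥ K^(-1/2 + e)`, there are at least `K^(2-e) A (#W)²` primitive returns of level about `K` between cells of `W`.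
-/

set_option autoImplicit false

namespace Pool.Agent.A54.HS

open MeasureTheory Filter Topology Set
open scoped ContDiff ComplexConjugate UpperHalfPlane MatrixGroups ENNReal
open Pool.Agent.A54.Dyn (G fl base ze io mk4 dom)
open Pool.Agent.A54.Av (Mat NonSc)
open Pool.Agent.A54.Hp Pool.Agent.A54.Hp.Hk Pool.Agent.A54.Hp.A2M

noncomputable section

/-- the cells of `V` have mass between `A` and `2 A` -/
def CelM (Φ : G → ℂ) (R w A : ℝ) (V : Finset (Fin 3 → ℤ)) : Prop :=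
  ∀ z ∈ V, ENNReal.ofReal A ≤ ms Φ (cel R w z) ∧ ms Φ (cel R w z) ≤ ENNReal.ofReal (2 * A)

/-- **AIb** the primitive amplifier inequality at every level `K` in `[w^(-1/4), w^(-1)]` -/
def StmtAIb : Prop := ∀ R : ℝ, 1 ≤ R → ∃ C : ℝ, 1 ≤ C ∧ ∀ e : ℝ, 0 < e → ∃ B w₁ : ℝ, 1 ≤ B ∧ 0 < w₁ ∧ w₁ ≤ 1 ∧
  ∀ (l : ℕ → ℝ) (Φ : G → ℂ), HE l Φ → ∀ w : ℝ, 0 < w → w ≤ w₁ → ¬ GdK 4 l w → ∀ K A : ℝ, w ^ (-(1 / 4) : ℝ) ≤ K → K ≤ w⁻¹ →
  0 < A → ∀ W : Finset (Fin 3 → ℤ), CelM Φ R w A W → K ^ (-(1 / 2) + e : ℝ) ≤ A * W.card →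
  ∃ T : Finset ((Fin 3 → ℤ) × (Fin 3 → ℤ) × HSL.MZ),
    (∀ t ∈ T, t.1 ∈ W ∧ t.2.1 ∈ W ∧ HSL.Prim t.2.2 ∧ ∃ m : ℕ, K ≤ m ∧ (m : ℝ) ≤ B * K ∧
      HSL.Ret C w (rp R w t.1).1 (rp R w t.2.1).1 m t.2.2) ∧
    K ^ (2 - e : ℝ) * A * (W.card : ℝ) ^ 2 ≤ T.card

namespace AibM

lemma GdK_mono {K K' : ℝ} {l : ℕ → ℝ} {w : ℝ} (hw : 0 < w) (hw1 : w ≤ 1) (hK : 0 < K) (h : K ≤ K') (hG : GdK K l w) :
    GdK K' l w := by
  obtain ⟨M, h1, h2, h3⟩ := hG
  refine ⟨M, le_trans ?_ h1, h2, h3⟩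
  refine Real.rpow_le_rpow_of_exponent_ge hw hw1 ?_
  rw [neg_le_neg_iff]
  exact one_div_le_one_div_of_le (by positivity) (by linarith)

/-- the size of a product of `j` primes of the block -/
lemma sm_bd {M : ℝ} (hM : 0 < M) {Q : Finset ℕ} (hQ : Q ⊆ Pm M) : ∀ (j n : ℕ), sm Q j n → M ^ j ≤ (n : ℝ) ∧ (n : ℝ) ≤ (2 * M) ^ j := by
  intro j
  induction j with
  | zero =>
    intro n hn
    rw [sm_zero hn]
    simp
  | succ j ih =>
    intro n hn
    obtain ⟨hn0, hnQ, hnc⟩ := hn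
    have hn1 : n ≠ 1 := by
      rintro rfl
      rw [ArithmeticFunction.cardFactors_one] at hnc
      omega
    obtain ⟨p, hp, m, rfl⟩ := Nat.exists_prime_and_dvd hn1
    have hm0 : m ≠ 0 := by
      rintro rfl
      exact hn0 (by simp)
    have hpQ : p ∈ Q := hnQ p hp (Dvd.intro _ rfl)
    have h1 := hQ hpQ
    unfold Pm at h1
    rw [Finset.mem_filter, Finset.mem_Ioc] at h1
    have h2 : M < (p : ℝ) := (Nat.floor_lt hM.le).1 h1.1.1
    have h3 : (p : ℝ) ≤ 2 * M := (Nat.le_floor_iff (by linarith)).1 h1.1.2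
    rw [ArithmeticFunction.cardFactors_mul hp.ne_zero hm0, ArithmeticFunction.cardFactors_apply_prime hp] at hnc
    have hm : sm Q j m := ⟨hm0, fun q hq hd => hnQ q hq (dvd_mul_of_dvd_right hd p), by omega⟩
    obtain ⟨i1, i2⟩ := ih m hm
    have hMj : 0 < M ^ j := pow_pos hM j
    push_cast
    constructor
    · rw [pow_succ, mul_comm]
      exact mul_le_mul h2.le i1 hMj.le (by linarith)
    · rw [pow_succ, mul_comm ((2 * M) ^ j)]
      exact mul_le_mul h3 i2 (by linarith) (by linarith)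

end AibM

/-- **the primitive amplifier inequality at every level** -/
theorem stmtAIb : StmtAIb := by
  classical
  intro R hR
  obtain ⟨C, hC1, hMc⟩ := stmtMc R hR
  refine ⟨C, hC1, ?_⟩
  intro e he
  obtain ⟨Ca, hCa1, hCa⟩ := ai3c stmtNuL (stmtAI3 stmtNuL pUnf stmtNm pDds pTot) 500 R (by norm_num) hR
  obtain ⟨κ, hκ⟩ : ∃ κ : ℝ, κ = e / 4 := ⟨_, rfl⟩
  have hκ0 : 0 < κ := by rw [hκ]; positivity
  obtain ⟨M₀, hM₀1, hBd⟩ := stmtBd κ hκ0
  have hCa0 : 0 < Ca := by linarith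
  have hM₀0 : 0 < M₀ := by linarith
  refine ⟨2 ^ 1000, min (Ca ^ (-(8 / e) : ℝ)) (M₀ ^ (-4000 : ℝ)), one_le_pow₀ (by norm_num), lt_min (Real.rpow_pos_of_pos hCa0 _)
    (Real.rpow_pos_of_pos hM₀0 _), (min_le_right _ _).trans (Real.rpow_le_one_of_one_le_of_nonpos hM₀1 (by norm_num)), ?_⟩
  intro l Φ hE w hw hww hG K A hK1 hK2 hA W hW hmass
  have hw1 : w ≤ 1 := hww.trans ((min_le_right _ _).trans (Real.rpow_le_one_of_one_le_of_nonpos hM₀1 (by norm_num)))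
  have hwC : w ≤ Ca ^ (-(8 / e) : ℝ) := hww.trans (min_le_left _ _)
  have hwM : w ≤ M₀ ^ (-4000 : ℝ) := hww.trans (min_le_right _ _)
  have hKone : 1 ≤ K := (Real.one_le_rpow_of_pos_of_le_one_of_nonpos hw hw1 (by norm_num)).trans hK1
  have hK0 : 0 < K := by linarith
  -- `K^(e/2) ≥ Ca`
  have hKC : Ca ≤ K ^ (e / 2) := by
    have h1 : (Ca ^ (-(8 / e) : ℝ)) ^ (-(e / 8) : ℝ) ≤ w ^ (-(e / 8) : ℝ) :=
      Real.rpow_le_rpow_of_nonpos hw hwC (by have := he; linarith)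
    rw [← Real.rpow_mul hCa0.le] at h1
    have h2 : (-(8 / e)) * (-(e / 8)) = 1 := by field_simp
    rw [h2, Real.rpow_one] at h1
    have h3 : w ^ (-(e / 8) : ℝ) = (w ^ (-(1 / 4) : ℝ)) ^ (e / 2) := by
      rw [← Real.rpow_mul hw.le]
      congr 1
      ring
    rw [h3] at h1
    exact h1.trans (Real.rpow_le_rpow (Real.rpow_pos_of_pos hw _).le hK1 (by linarith))
  obtain ⟨M, hM⟩ : ∃ M : ℝ, M = K ^ (1 / 1000 : ℝ) := ⟨_, rfl⟩
  have hM0 : 0 < M := by rw [hM]; exact Real.rpow_pos_of_pos hK0 _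
  have hMone : 1 ≤ M := by rw [hM]; exact Real.one_le_rpow hKone (by norm_num)
  have hMK : M ^ 1000 = K := by
    rw [hM, ← Real.rpow_natCast, ← Real.rpow_mul hK0.le]
    norm_num
  have hMlo : w ^ (-(1 / (1000 * 4)) : ℝ) ≤ M := by
    rw [hM]
    have h1 := Real.rpow_le_rpow (Real.rpow_pos_of_pos hw _).le hK1 (by norm_num : (0 : ℝ) ≤ 1 / 1000)
    rw [← Real.rpow_mul hw.le] at h1
    refine le_trans (le_of_eq ?_) h1
    norm_num
  have hMhi : M ≤ w ^ (-(1 / 1000) : ℝ) := by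
    rw [hM]
    have h1 := Real.rpow_le_rpow hK0.le hK2 (by norm_num : (0 : ℝ) ≤ 1 / 1000)
    rw [← Real.rpow_neg_one, ← Real.rpow_mul hw.le] at h1
    refine h1.trans (le_of_eq ?_)
    norm_num
  have hbad : ¬ GdC (1 / 10000) l M := fun h => hG ⟨M, hMlo, hMhi, h⟩
  have hMM₀ : M₀ ≤ M := by
    have h1 : (M₀ ^ (-4000 : ℝ)) ^ (-(1 / 4000) : ℝ) ≤ w ^ (-(1 / 4000) : ℝ) :=
      Real.rpow_le_rpow_of_nonpos hw hwM (by norm_num)
    rw [← Real.rpow_mul hM₀0.le] at h1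
    have h2 : (-4000 : ℝ) * (-(1 / 4000)) = 1 := by norm_num
    rw [h2, Real.rpow_one] at h1
    refine h1.trans (le_trans (le_of_eq ?_) hMlo)
    norm_num
  obtain ⟨hcard, hsmall⟩ := hBd l M hMM₀ hbad
  have hQM : Bad l M ⊆ Pm M := Finset.filter_subset _ _
  -- the powers of the number of primes
  have hpow : ∀ j : ℕ, K ^ ((1 - κ) * (j / 1000)) ≤ ((Bad l M).card : ℝ) ^ j := by
    intro j
    have h1 := pow_le_pow_left₀ (Real.rpow_pos_of_pos hM0 _).le hcard j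
    refine le_trans (le_of_eq ?_) h1
    rw [hM, ← Real.rpow_natCast, ← Real.rpow_mul hK0.le, ← Real.rpow_mul hK0.le]
    congr 1
    ring
  have hcel : CelF Φ R A (cel R w) W :=
    ⟨fun z hz => ⟨meas_cel R w z, cel_sub R w z, (hW z hz).1, (hW z hz).2⟩, fun z _ z' _ h => cel_disj R w h⟩
  have hcond : Ca ≤ ((Bad l M).card : ℝ) ^ 500 * (A * W.card) := by
    have h1 := hpow 500
    have h2 : K ^ ((1 - κ) * ((500 : ℕ) / 1000)) * K ^ (-(1 / 2) + e : ℝ) ≤ ((Bad l M).card : ℝ) ^ 500 * (A * W.card) :=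
      mul_le_mul h1 hmass (Real.rpow_pos_of_pos hK0 _).le (pow_nonneg (Nat.cast_nonneg _) _)
    refine le_trans (hKC.trans ?_) h2
    rw [← Real.rpow_add hK0]
    refine Real.rpow_le_rpow_of_exponent_le hKone ?_
    rw [hκ]
    push_cast
    linarith
  -- the set of returns
  have hfin : (Trp (cel R w) W (Lv2 (Bad l M) (2 * 500))).Finite := by
    refine Trp_finite stmtNm (by linarith : (0 : ℝ) ≤ R) (fun z _ => cel_sub R w z) (D := ((2 * M) ^ 1000) ^ 2) ?_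
    rintro s ⟨-, n, hn, hdet⟩
    have hb := AibM.sm_bd hM0 hQM _ _ hn
    have hn0 : 0 < n := Nat.pos_of_ne_zero hn.1
    constructor
    · rw [hdet]
      positivity
    · rw [hdet]
      push_cast
      rw [← sq]
      exact pow_le_pow_left₀ (Nat.cast_nonneg _) hb.2 2
  have hmain := hCa l Φ hE (Fin 3 → ℤ) (cel R w) W A hA hcel M hMone (Bad l M) hQM hsmall hcond hfin.toFinset
    (by rw [hfin.coe_toFinset])
  refine ⟨hfin.toFinset, ?_, ?_⟩
  · intro t ht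
    rw [hfin.mem_toFinset] at ht
    obtain ⟨h1, h2, ⟨hPr, n, hn, hdet⟩, hx⟩ := ht
    have hb := AibM.sm_bd hM0 hQM _ _ hn
    refine ⟨h1, h2, Prim_of_Pr hPr, n, ?_, ?_, ?_⟩
    · rw [← hMK]
      exact hb.1
    · rw [← hMK]
      refine hb.2.trans (le_of_eq ?_)
      rw [mul_pow]
    · exact hMc w hw hw1 t.1 t.2.1 t.2.2 n (Nat.pos_of_ne_zero hn.1) (by rw [hdet]; ring) hx
  · have h1 := hpow 1000
    have h2 : K * K ^ ((1 - κ) * ((1000 : ℕ) / 1000)) * A * (W.card : ℝ) ^ 2 ≤ Ca * (hfin.toFinset.card : ℝ) := by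
      refine le_trans ?_ hmain
      rw [show (2 * 500 : ℕ) = 1000 from rfl, hMK]
      gcongr
    have h3 : K ^ (2 - e : ℝ) * Ca ≤ K * K ^ ((1 - κ) * ((1000 : ℕ) / 1000)) := by
      have h4 : K ^ (2 - e : ℝ) * Ca ≤ K ^ (2 - e : ℝ) * K ^ (e / 2) :=
        mul_le_mul_of_nonneg_left hKC (Real.rpow_pos_of_pos hK0 _).le
      refine h4.trans ?_
      rw [← Real.rpow_add hK0]
      nth_rw 2 [← Real.rpow_one K]
      rw [← Real.rpow_add hK0]
      refine Real.rpow_le_rpow_of_exponent_le hKone ?_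
      rw [hκ]
      push_cast
      linarith
    have h5 : K ^ (2 - e : ℝ) * Ca * A * (W.card : ℝ) ^ 2 ≤ Ca * (hfin.toFinset.card : ℝ) := by
      refine le_trans ?_ h2
      gcongr
    have h6 : Ca * (K ^ (2 - e : ℝ) * A * (W.card : ℝ) ^ 2) ≤ Ca * (hfin.toFinset.card : ℝ) := by
      refine le_trans (le_of_eq ?_) h5
      ring
    exact le_of_mul_le_mul_left h6 hCa0

end

end Pool.Agent.A54.HS
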