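import Pool.Agent.Lib.HS.Bd.SpecFlip

/-!
PROJECT H* (MP_a54f13_nt), FLIP LEMMA, module Frm (helper56).
-/

set_option autoImplicit false

namespace HSL.Flp

open HSL Matrix

namespace FFrmAux

lemma toR_mul (r s : MZ) : toR (r * s) = toR r * toR s := by
  ext i j
  simp [toR, Matrix.mul_apply]

lemma det_toR (u : MZ) : (toR u).det = ((u.det : ℤ) : ℝ) := by
  simp [toR, Matrix.det_fin_two]

lemma p1 (a b : MR) (u : MZ) : fr (a * J) b u 0 0 = - fr a b u 0 1 ∧
    fr (a * J) b u 0 1 = fr a b u 0 0 ∧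
    fr (a * J) b u 1 0 = - fr a b u 1 1 ∧ fr (a * J) b u 1 1 = fr a b u 1 0 := by
  have h : fr (a * J) b u = fr a b u * J := by
    simp only [fr, Matrix.mul_assoc]
  rw [h]
  simp [J, Matrix.mul_apply, Fin.sum_univ_two]

lemma p7 (a b c : MR) (r s : MZ) (hc : c.det = 1) : fr a b (r * s) = fr c b r * fr a c s := by
  have h : c * c.adjugate = 1 := by rw [Matrix.mul_adjugate, hc, one_smul]
  calc fr a b (r * s) = b.adjugate * toR r * (1 : MR) * toR s * a := by
        simp only [fr, toR_mul, Matrix.mul_assoc, Matrix.one_mul]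
    _ = b.adjugate * toR r * (c * c.adjugate) * toR s * a := by rw [h]
    _ = fr c b r * fr a c s := by simp only [fr, Matrix.mul_assoc]

lemma p8 (a b : MR) (u : MZ) (ha : a.det = 1) (hb : b.det = 1) :
    toR u = b * fr a b u * a.adjugate := by
  have h1 : b * b.adjugate = 1 := by rw [Matrix.mul_adjugate, hb, one_smul]
  have h2 : a * a.adjugate = 1 := by rw [Matrix.mul_adjugate, ha, one_smul]
  calc toR u = (1 : MR) * toR u * (1 : MR) := by rw [Matrix.one_mul, Matrix.mul_one]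
    _ = (b * b.adjugate) * toR u * (a * a.adjugate) := by rw [h1, h2]
    _ = b * fr a b u * a.adjugate := by simp only [fr, Matrix.mul_assoc]

lemma p6 (a b : MR) (u : MZ) (ha : a.det = 1) (hb : b.det = 1) :
    (fr a b u).det = ((u.det : ℤ) : ℝ) := by
  have hb' : (b.adjugate).det = 1 := by
    rw [Matrix.det_adjugate, hb, one_pow]
  rw [fr, Matrix.det_mul, Matrix.det_mul, ha, hb', det_toR, one_mul, mul_one]

lemma p4 (a b : MR) (r : MZ) : fr b a r.adjugate 0 0 = fr a b r 1 1 ∧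
    fr b a r.adjugate 0 1 = - fr a b r 0 1 ∧ fr b a r.adjugate 1 0 = - fr a b r 1 0 ∧
    fr b a r.adjugate 1 1 = fr a b r 0 0 := by
  simp only [fr, toR, Matrix.adjugate_fin_two, Matrix.mul_apply, Fin.sum_univ_two, Matrix.map_apply,
    Matrix.of_apply, Matrix.cons_val', Matrix.cons_val_zero, Matrix.cons_val_one,
    Matrix.cons_val_fin_one, Int.cast_neg]
  refine ⟨?_, ?_, ?_, ?_⟩ <;> ring

lemma sum2 {p q r s P Q R S : ℝ} (hp : |p| ≤ P) (hq : |q| ≤ Q) (hr : |r| ≤ R) (hs : |s| ≤ S) :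
    |p * q + r * s| ≤ P * Q + R * S := by
  have hP : 0 ≤ P := le_trans (abs_nonneg _) hp
  have hR : 0 ≤ R := le_trans (abs_nonneg _) hr
  calc |p * q + r * s| ≤ |p * q| + |r * s| := abs_add_le _ _
    _ = |p| * |q| + |r| * |s| := by rw [abs_mul, abs_mul]
    _ ≤ P * Q + R * S :=
        add_le_add (mul_le_mul hp hq (abs_nonneg _) hP) (mul_le_mul hr hs (abs_nonneg _) hR)

lemma adj_bd (a : MR) (R : ℝ) (h : ∀ i j, |a i j| ≤ R) : ∀ i j, |a.adjugate i j| ≤ R := by
  intro i j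
  rw [Matrix.adjugate_fin_two]
  fin_cases i <;> fin_cases j <;> simp [h]

lemma mul_bd (a b : MR) (R S : ℝ) (ha : ∀ i j, |a i j| ≤ R) (hb : ∀ i j, |b i j| ≤ S) :
    ∀ i j, |(a * b) i j| ≤ 2 * R * S := by
  intro i j
  rw [Matrix.mul_apply, Fin.sum_univ_two]
  have h := sum2 (ha i 0) (hb 0 j) (ha i 1) (hb 1 j)
  linarith

lemma p5 (R lam w : ℝ) (a b : MR) (u : MZ) (_hR : 1 ≤ R) (_hw : 0 < w) (hw1 : w ≤ 1)
    (ha : a.det = 1) (hb : b.det = 1) (haR : ∀ i j, |a i j| ≤ R) (hbR : ∀ i j, |b i j| ≤ R)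
    (hu : u ≠ 0) (hl : 4 * R ^ 2 * lam < 1) : ¬ Dg lam w a b u := by
  intro hD
  obtain ⟨h00, h11, h01, h10⟩ := hD
  have hlam : 0 ≤ lam := le_trans (abs_nonneg _) h00
  have hwl : w * lam ≤ lam := by nlinarith
  have hA : ∀ i j, |fr a b u i j| ≤ lam := by
    intro i j
    fin_cases i <;> fin_cases j
    · exact h00
    · exact le_trans h01 hwl
    · exact le_trans h10 hwl
    · exact h11
  have h1 := mul_bd _ _ _ _ (mul_bd _ _ _ _ hbR hA) (adj_bd a R haR)
  rw [← p8 a b u ha hb] at h1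
  apply hu
  ext i j
  have h2 := h1 i j
  have h3 : |((u i j : ℤ) : ℝ)| < 1 := by
    have : |((u i j : ℤ) : ℝ)| ≤ 2 * (2 * R * lam) * R := h2
    nlinarith
  have h4 : |u i j| < 1 := by exact_mod_cast h3
  simpa using Int.abs_lt_one_iff.mp h4

end FFrmAux

open FFrmAux in
theorem tFrm : S_Frm := by
  refine ⟨p1, ?_, ?_, ?_, ?_, ?_, ?_, ?_⟩
  · intro Z w a b r h
    obtain ⟨_, h00, h11, h01, h10⟩ := h
    obtain ⟨e00, e01, e10, e11⟩ := p1 a b r
    refine ⟨?_, ?_, ?_, ?_⟩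
    · rw [e00, abs_neg]; exact h01
    · rw [e11]; exact h10
    · rw [e01]; exact h00
    · rw [e10, abs_neg]; exact h11
  · intro Z w a b c r1 r2 hb hw hw1 hZ h1 h2
    obtain ⟨d1, a00, a11, a01, a10⟩ := h1
    obtain ⟨d2, b00, b11, b01, b10⟩ := h2
    refine ⟨?_, ?_⟩
    · rw [Matrix.det_mul]; exact mul_ne_zero d2 d1
    · rw [Dg, p7 a c b r2 r1 hb]
      have hww : w ^ 2 ≤ 1 := by nlinarith
      have hZZ : 0 ≤ Z ^ 2 := by positivity
      have hwz : w ^ 2 * Z ^ 2 ≤ Z ^ 2 := by nlinarith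
      simp only [Matrix.mul_apply, Fin.sum_univ_two]
      refine ⟨?_, ?_, ?_, ?_⟩
      · have := sum2 b00 a00 b01 a10
        nlinarith
      · have := sum2 b10 a01 b11 a11
        nlinarith
      · have := sum2 b00 a01 b01 a11
        nlinarith
      · have := sum2 b10 a00 b11 a10
        nlinarith
  · intro Z w a b r h
    obtain ⟨d, h00, h11, h01, h10⟩ := h
    obtain ⟨e00, e01, e10, e11⟩ := p4 a b r
    refine ⟨⟨?_, ?_, ?_, ?_, ?_⟩, ?_, ?_⟩
    · rw [Matrix.det_adjugate]; simpa using d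
    · rw [e00]; exact h11
    · rw [e11]; exact h00
    · rw [e01, abs_neg]; exact h01
    · rw [e10, abs_neg]; exact h10
    · rw [e01, abs_neg]
    · rw [e10, abs_neg]
  · exact p5
  · exact p6
  · exact p7
  · exact p8

end HSL.Flp
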