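import Pool.Agent.Lib.HS.L.Defs
import Pool.Agent.Lib.MP_640417_ag.All.Divisor

/-!
PROJECT H* (MP_a54f13_nt), bands, part HS/Bd: the degenerate lines (helper1).

`nil_card`: non-zero integral nilpotent matrices with entries at most `X`: at most `C X^(1+ε)`.
`dsz`: primitive elements `c` of the box of gauge `K` with `b(c,e)^2 = 4 det c det e`, for a
primitive `e` with `det e ≠ 0` and gauge `l`: at most `B (1 + (w K l)^(1+ε) (1 + K / l))`.
The trace zero part of `adj(e) c` is nilpotent, it determines the line `c + Z e`.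
-/

set_option autoImplicit false

namespace HSBd

open Matrix HSL

private theorem card_int_le (X : ℝ) (hX : 0 ≤ X) (T : Finset ℤ) (hT : ∀ t ∈ T, |(t : ℝ)| ≤ X) :
    (T.card : ℝ) ≤ 2 * X + 1 := by
  have h1 : T ⊆ Finset.Icc (-⌊X⌋) ⌊X⌋ := by
    intro t ht
    have h2 := abs_le.1 (hT t ht)
    rw [Finset.mem_Icc]
    constructor
    · have : -t ≤ ⌊X⌋ := Int.le_floor.2 (by push_cast; linarith)
      linarith
    · exact Int.le_floor.2 h2.2
  have h3 := Finset.card_le_card h1
  rw [Int.card_Icc] at h3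
  have h4 : (0 : ℤ) ≤ ⌊X⌋ := Int.floor_nonneg.2 hX
  have h5 : ((⌊X⌋ + 1 - -⌊X⌋).toNat : ℤ) = ⌊X⌋ + 1 - -⌊X⌋ := Int.toNat_of_nonneg (by linarith)
  have h6 : (T.card : ℤ) ≤ 2 * ⌊X⌋ + 1 := by
    have : (T.card : ℤ) ≤ ((⌊X⌋ + 1 - -⌊X⌋).toNat : ℤ) := by exact_mod_cast h3
    rw [h5] at this
    linarith
  have h7 : (T.card : ℝ) ≤ 2 * (⌊X⌋ : ℝ) + 1 := by exact_mod_cast h6
  have h8 := Int.floor_le X
  linarith

/-- non-zero integral nilpotent matrices `(p, q; r, -p)` -/
theorem nil_card (ε : ℝ) (hε : 0 < ε) : ∃ C : ℝ, 1 ≤ C ∧ ∀ X : ℝ, 1 ≤ X →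
    ∀ T : Finset (ℤ × ℤ × ℤ),
    (∀ t ∈ T, t.1 ^ 2 = - (t.2.1 * t.2.2) ∧ |(t.1 : ℝ)| ≤ X ∧ |(t.2.1 : ℝ)| ≤ X ∧
      |(t.2.2 : ℝ)| ≤ X) →
    (T.card : ℝ) ≤ C * X ^ (1 + ε) := by
  obtain ⟨C1, hC1, hdiv⟩ := Pool.Agent.Lib.MP_640417_ag.All.divisor_bound (ε / 2) (by positivity)
  refine ⟨max 1 (6 + 6 * C1), le_max_left _ _, ?_⟩
  intro X hX T hT
  have hX0 : (0 : ℝ) < X := by linarith
  have hXe : (1 : ℝ) ≤ X ^ ε := Real.one_le_rpow hX hε.le
  have hX1 : X ^ (1 + ε) = X * X ^ ε := by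
    rw [Real.rpow_add hX0, Real.rpow_one]
  -- the part with `p = 0`
  have h0 : ((T.filter (fun t => t.1 = 0)).card : ℝ) ≤ 6 * X := by
    have hA : (T.filter (fun t => t.1 = 0)) ⊆
        (((T.filter (fun t => t.1 = 0)).image (fun t => t.2.1)).image
          (fun q : ℤ => ((0 : ℤ), q, (0 : ℤ)))) ∪
        (((T.filter (fun t => t.1 = 0)).image (fun t => t.2.2)).image
          (fun r : ℤ => ((0 : ℤ), (0 : ℤ), r))) := by
      intro t ht
      have ht' := Finset.mem_filter.1 ht
      have h1 := (hT t ht'.1).1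
      rw [ht'.2] at h1
      have h2 : t.2.1 * t.2.2 = 0 := by linarith
      rw [Finset.mem_union]
      rcases mul_eq_zero.1 h2 with h3 | h3
      · right
        refine Finset.mem_image.2 ⟨t.2.2, Finset.mem_image_of_mem _ ht, ?_⟩
        ext
        · exact ht'.2.symm
        · exact h3.symm
        · rfl
      · left
        refine Finset.mem_image.2 ⟨t.2.1, Finset.mem_image_of_mem _ ht, ?_⟩
        ext
        · exact ht'.2.symm
        · rfl
        · exact h3.symm
    have hB := Finset.card_le_card hA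
    have hC := hB.trans (Finset.card_union_le _ _)
    have hD : ((((T.filter (fun t => t.1 = 0)).image (fun t => t.2.1)).image
          (fun q : ℤ => ((0 : ℤ), q, (0 : ℤ)))).card : ℝ) ≤ 2 * X + 1 := by
      refine le_trans (by exact_mod_cast Finset.card_image_le) (card_int_le X hX0.le
        ((T.filter (fun t => t.1 = 0)).image (fun t => t.2.1)) ?_)
      intro z hz
      obtain ⟨t, ht, rfl⟩ := Finset.mem_image.1 hz
      exact (hT t (Finset.mem_filter.1 ht).1).2.2.1
    have hE : ((((T.filter (fun t => t.1 = 0)).image (fun t => t.2.2)).image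
          (fun r : ℤ => ((0 : ℤ), (0 : ℤ), r))).card : ℝ) ≤ 2 * X + 1 := by
      refine le_trans (by exact_mod_cast Finset.card_image_le) (card_int_le X hX0.le
        ((T.filter (fun t => t.1 = 0)).image (fun t => t.2.2)) ?_)
      intro z hz
      obtain ⟨t, ht, rfl⟩ := Finset.mem_image.1 hz
      exact (hT t (Finset.mem_filter.1 ht).1).2.2.2
    have hF : ((T.filter (fun t => t.1 = 0)).card : ℝ) ≤
        ((((T.filter (fun t => t.1 = 0)).image (fun t => t.2.1)).image
          (fun q : ℤ => ((0 : ℤ), q, (0 : ℤ)))).card : ℝ) +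
        ((((T.filter (fun t => t.1 = 0)).image (fun t => t.2.2)).image
          (fun r : ℤ => ((0 : ℤ), (0 : ℤ), r))).card : ℝ) := by exact_mod_cast hC
    linarith
  -- the part with `p ≠ 0`
  have h1 : ((T.filter (fun t => ¬ t.1 = 0)).card : ℝ) ≤ 6 * C1 * X ^ (1 + ε) := by
    set U := T.filter (fun t => ¬ t.1 = 0) with hU
    have hfib : ∀ a ∈ U.image (fun t => t.1),
        (U.filter (fun t => t.1 = a)).card ≤ ⌊2 * (C1 * X ^ ε)⌋₊ := by
      intro a ha
      obtain ⟨t0, ht0, rfl⟩ := Finset.mem_image.1 ha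
      have ht0' := Finset.mem_filter.1 ht0
      have hne : t0.1 ≠ 0 := ht0'.2
      set n : ℕ := t0.1.natAbs ^ 2 with hn
      have hnpos : 0 < n := by
        have := Int.natAbs_pos.2 hne
        positivity
      have hinj : Set.InjOn (fun t : ℤ × ℤ × ℤ => t.2.1)
          (U.filter (fun t => t.1 = t0.1) : Finset (ℤ × ℤ × ℤ)) := by
        intro t ht s hs hts
        have ht1 := Finset.mem_filter.1 (Finset.mem_coe.1 ht)
        have hs1 := Finset.mem_filter.1 (Finset.mem_coe.1 hs)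
        have ht2 := Finset.mem_filter.1 ht1.1
        have hs2 := Finset.mem_filter.1 hs1.1
        have e1 := (hT t ht2.1).1
        have e2 := (hT s hs2.1).1
        have hts' : t.2.1 = s.2.1 := hts
        have e3 : t.1 = s.1 := ht1.2.trans hs1.2.symm
        have hq : s.2.1 ≠ 0 := by
          intro h
          rw [h] at e2
          apply hs2.2
          exact pow_eq_zero_iff (two_ne_zero) |>.1 (by rw [e2]; ring)
        have e4 : s.2.1 * (t.2.2 - s.2.2) = 0 := by
          rw [hts', e3] at e1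
          linear_combination e1 - e2
        have e5 : t.2.2 = s.2.2 := by
          rcases mul_eq_zero.1 e4 with h | h
          · exact absurd h hq
          · linarith
        ext
        · exact e3
        · exact hts'
        · exact e5
      rw [← Finset.card_image_of_injOn hinj]
      have hsub : (U.filter (fun t => t.1 = t0.1)).image (fun t => t.2.1) ⊆
          (n.divisors.image (fun d : ℕ => (d : ℤ))) ∪
          (n.divisors.image (fun d : ℕ => -(d : ℤ))) := by
        intro q hq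
        obtain ⟨t, ht, rfl⟩ := Finset.mem_image.1 hq
        have ht1 := Finset.mem_filter.1 ht
        have ht2 := Finset.mem_filter.1 ht1.1
        have e1 := (hT t ht2.1).1
        rw [ht1.2] at e1
        have hd : t.2.1 ∣ (n : ℤ) := by
          refine ⟨-t.2.2, ?_⟩
          rw [hn]
          push_cast
          rw [sq_abs, e1]
          ring
        have hd2 : t.2.1.natAbs ∣ n := Int.natCast_dvd_natCast.1 (by
          rw [Int.natCast_natAbs]
          exact (abs_dvd _ _).2 hd)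
        have hm : t.2.1.natAbs ∈ n.divisors := Nat.mem_divisors.2 ⟨hd2, hnpos.ne'⟩
        rw [Finset.mem_union]
        rcases Int.natAbs_eq t.2.1 with h | h
        · left
          exact Finset.mem_image.2 ⟨_, hm, h.symm⟩
        · right
          exact Finset.mem_image.2 ⟨_, hm, h.symm⟩
      have hc1 := (Finset.card_le_card hsub).trans (Finset.card_union_le _ _)
      have hc2 : (((U.filter (fun t => t.1 = t0.1)).image (fun t => t.2.1)).card) ≤
          2 * n.divisors.card := by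
        refine hc1.trans ?_
        have a1 : (n.divisors.image (fun d : ℕ => (d : ℤ))).card ≤ n.divisors.card :=
          Finset.card_image_le
        have a2 : (n.divisors.image (fun d : ℕ => -(d : ℤ))).card ≤ n.divisors.card :=
          Finset.card_image_le
        omega
      apply Nat.le_floor
      have hc3 : ((((U.filter (fun t => t.1 = t0.1)).image (fun t => t.2.1)).card : ℕ) : ℝ) ≤
          2 * (n.divisors.card : ℝ) := by exact_mod_cast hc2
      refine hc3.trans ?_
      have hc4 := hdiv n hnpos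
      have hnX : (n : ℝ) ≤ X ^ 2 := by
        rw [hn]
        push_cast
        rw [Nat.cast_natAbs, Int.cast_abs]
        exact pow_le_pow_left₀ (abs_nonneg _) (hT t0 ht0'.1).2.1 2
      have hc5 : (n : ℝ) ^ (ε / 2) ≤ X ^ ε := by
        calc (n : ℝ) ^ (ε / 2) ≤ (X ^ 2) ^ (ε / 2) :=
              Real.rpow_le_rpow (by positivity) hnX (by positivity)
          _ = X ^ ε := by
              rw [← Real.rpow_natCast, ← Real.rpow_mul hX0.le]
              congr 1
              push_cast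
              ring
      nlinarith [mul_le_mul_of_nonneg_left hc5 hC1.le]
    have hcard := Finset.card_le_mul_card_image (f := fun t : ℤ × ℤ × ℤ => t.1) U _ hfib
    have him : ((U.image (fun t => t.1)).card : ℝ) ≤ 2 * X + 1 := by
      refine card_int_le X hX0.le _ ?_
      intro z hz
      obtain ⟨t, ht, rfl⟩ := Finset.mem_image.1 hz
      exact (hT t (Finset.mem_filter.1 ht).1).2.1
    have hfl : ((⌊2 * (C1 * X ^ ε)⌋₊ : ℕ) : ℝ) ≤ 2 * (C1 * X ^ ε) :=
      Nat.floor_le (by positivity)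
    calc (U.card : ℝ) ≤ ((⌊2 * (C1 * X ^ ε)⌋₊ * (U.image (fun t => t.1)).card : ℕ) : ℝ) := by
          exact_mod_cast hcard
      _ = ((⌊2 * (C1 * X ^ ε)⌋₊ : ℕ) : ℝ) * ((U.image (fun t => t.1)).card : ℝ) := by
          push_cast; ring
      _ ≤ (2 * (C1 * X ^ ε)) * (2 * X + 1) := by gcongr
      _ ≤ (2 * (C1 * X ^ ε)) * (3 * X) := by
          apply mul_le_mul_of_nonneg_left _ (by positivity)
          linarith
      _ = 6 * C1 * X ^ (1 + ε) := by rw [hX1]; ring
  have h2 := Finset.card_filter_add_card_filter_not (s := T) (fun t => t.1 = 0)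
  have h3 : (T.card : ℝ) = ((T.filter (fun t => t.1 = 0)).card : ℝ) +
      ((T.filter (fun t => ¬ t.1 = 0)).card : ℝ) := by exact_mod_cast h2.symm
  rw [h3]
  have h4 : 6 * X ≤ 6 * X ^ (1 + ε) := by
    rw [hX1]
    nlinarith
  calc _ ≤ 6 * X + 6 * C1 * X ^ (1 + ε) := add_le_add h0 h1
    _ ≤ (6 + 6 * C1) * X ^ (1 + ε) := by linarith
    _ ≤ _ := mul_le_mul_of_nonneg_right (le_max_right _ _) (by positivity)

/-- gauge at most `T`: diagonal entries at most `T`, the others at most `w T` -/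
def Gle (w T : ℝ) (M : MR) : Prop :=
  |M 0 0| ≤ T ∧ |M 1 1| ≤ T ∧ |M 0 1| ≤ w * T ∧ |M 1 0| ≤ w * T

/-- gauge at least `T` -/
def Gge (w T : ℝ) (M : MR) : Prop :=
  T ≤ |M 0 0| ∨ T ≤ |M 1 1| ∨ w * T ≤ |M 0 1| ∨ w * T ≤ |M 1 0|

/-- mixed determinant -/
def mx (s r : MZ) : ℤ := s 0 0 * r 1 1 + s 1 1 * r 0 0 - s 0 1 * r 1 0 - s 1 0 * r 0 1

theorem prim_bez (e : MZ) (he : Prim e) : ∃ a b c d : ℤ,
    e 0 0 * a + e 0 1 * b + e 1 0 * c + e 1 1 * d = 1 := by
  have h1 := Int.gcd_eq_gcd_ab (e 0 0) (e 0 1)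
  have h2 := Int.gcd_eq_gcd_ab (e 1 0) (e 1 1)
  have h3 := Int.gcd_eq_gcd_ab (Int.gcd (e 0 0) (e 0 1) : ℤ) (Int.gcd (e 1 0) (e 1 1) : ℤ)
  have k1 : (Int.gcd (Int.gcd (e 0 0) (e 0 1) : ℤ) (Int.gcd (e 1 0) (e 1 1) : ℤ) : ℤ) ∣
      (Int.gcd (e 0 0) (e 0 1) : ℤ) := Int.gcd_dvd_left ..
  have k2 : (Int.gcd (Int.gcd (e 0 0) (e 0 1) : ℤ) (Int.gcd (e 1 0) (e 1 1) : ℤ) : ℤ) ∣
      (Int.gcd (e 1 0) (e 1 1) : ℤ) := Int.gcd_dvd_right ..
  have hu : IsUnit ((Int.gcd (Int.gcd (e 0 0) (e 0 1) : ℤ) (Int.gcd (e 1 0) (e 1 1) : ℤ) : ℤ)) := by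
    apply he
    intro i j
    fin_cases i <;> fin_cases j
    · exact k1.trans (Int.gcd_dvd_left ..)
    · exact k1.trans (Int.gcd_dvd_right ..)
    · exact k2.trans (Int.gcd_dvd_left ..)
    · exact k2.trans (Int.gcd_dvd_right ..)
  obtain ⟨v, hv⟩ := hu.exists_right_inv
  rw [h3] at hv
  nth_rewrite 1 [h1] at hv
  nth_rewrite 2 [h2] at hv
  refine ⟨(e 0 0).gcdA (e 0 1) * ((e 0 0).gcd (e 0 1) : ℤ).gcdA ((e 1 0).gcd (e 1 1) : ℤ) * v,
    (e 0 0).gcdB (e 0 1) * ((e 0 0).gcd (e 0 1) : ℤ).gcdA ((e 1 0).gcd (e 1 1) : ℤ) * v,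
    (e 1 0).gcdA (e 1 1) * ((e 0 0).gcd (e 0 1) : ℤ).gcdB ((e 1 0).gcd (e 1 1) : ℤ) * v,
    (e 1 0).gcdB (e 1 1) * ((e 0 0).gcd (e 0 1) : ℤ).gcdB ((e 1 0).gcd (e 1 1) : ℤ) * v, ?_⟩
  linear_combination hv

/-- if `adj(e) d` is scalar, then `d` is an integral multiple of the primitive matrix `e` -/
theorem line_eq (e d : MZ) (he : Prim e) (hdet : e.det ≠ 0) (h : tf (e.adjugate * d) = 0) :
    ∃ t : ℤ, d = t • e := by
  obtain ⟨a, b, c, f, hb⟩ := prim_bez e he
  have h00 := congrFun (congrFun h 0) 0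
  have h01 := congrFun (congrFun h 0) 1
  have h10 := congrFun (congrFun h 1) 0
  have h11 := congrFun (congrFun h 1) 1
  simp only [tf, Matrix.adjugate_fin_two, Matrix.trace_fin_two, Matrix.sub_apply,
    Matrix.smul_apply, Matrix.mul_apply, Fin.sum_univ_two, Matrix.one_apply, Matrix.of_apply,
    Matrix.cons_val', Matrix.cons_val_zero, Matrix.cons_val_one, Matrix.zero_apply,
    smul_eq_mul, Matrix.cons_val_fin_one, Fin.isValue, one_ne_zero,
    zero_ne_one, mul_one, mul_zero, sub_zero, ↓reduceIte] at h00 h01 h10 h11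
  rw [Matrix.det_fin_two] at hdet
  have g00 : e 1 1 * d 0 0 - e 0 1 * d 1 0 = -(e 1 0 * d 0 1) + e 0 0 * d 1 1 := by
    linear_combination h00
  have g01 : e 1 1 * d 0 1 = e 0 1 * d 1 1 := by linarith
  have g10 : e 0 0 * d 1 0 = e 1 0 * d 0 0 := by linarith
  set τ : ℤ := e 1 1 * d 0 0 - e 0 1 * d 1 0 with hτ
  set D : ℤ := e 0 0 * e 1 1 - e 0 1 * e 1 0 with hD
  have f00 : D * d 0 0 = τ * e 0 0 := by rw [hD, hτ]; linear_combination e 0 1 * g10
  have f10 : D * d 1 0 = τ * e 1 0 := by rw [hD, hτ]; linear_combination e 1 1 * g10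
  have f01 : D * d 0 1 = τ * e 0 1 := by rw [hD, g00]; linear_combination e 0 0 * g01
  have f11 : D * d 1 1 = τ * e 1 1 := by rw [hD, g00]; linear_combination e 1 0 * g01
  set k : ℤ := d 0 0 * a + d 0 1 * b + d 1 0 * c + d 1 1 * f with hk
  have hk1 : τ = D * k := by
    rw [hk]
    linear_combination -a * f00 - b * f01 - c * f10 - f * f11 - τ * hb
  refine ⟨k, ?_⟩
  ext i j
  rw [Matrix.smul_apply, smul_eq_mul]
  have key : ∀ u v : ℤ, D * u = τ * v → u = k * v := by
    intro u v huv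
    rw [hk1] at huv
    exact mul_left_cancel₀ hdet (by linear_combination huv)
  fin_cases i <;> fin_cases j
  · exact key _ _ f00
  · exact key _ _ f01
  · exact key _ _ f10
  · exact key _ _ f11

theorem fr_adj_mul (x y : MR) (hy : y.det = 1) (e c : MZ) :
    fr x x (e.adjugate * c) = (fr x y e).adjugate * fr x y c := by
  have h1 : toR (e.adjugate * c) = (toR e).adjugate * toR c := by
    have ha : toR (e.adjugate) = (toR e).adjugate := by
      ext i j
      fin_cases i <;> fin_cases j <;> simp [toR, Matrix.adjugate_fin_two]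
    rw [← ha]
    ext i j
    simp only [toR, Matrix.map_apply, Matrix.mul_apply, Fin.sum_univ_two]
    push_cast
    ring
  have h2 : y * y.adjugate = 1 := by rw [Matrix.mul_adjugate, hy, one_smul]
  have h3 : (fr x y e).adjugate = x.adjugate * (toR e).adjugate * y := by
    rw [fr, Matrix.adjugate_mul_distrib, Matrix.adjugate_mul_distrib]
    have : y.adjugate.adjugate = y := by
      ext i j
      fin_cases i <;> fin_cases j <;> simp [Matrix.adjugate_fin_two]
    rw [this, Matrix.mul_assoc]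
  rw [h3, fr, fr, h1]
  calc x.adjugate * ((toR e).adjugate * toR c) * x
      = x.adjugate * (toR e).adjugate * 1 * toR c * x := by
        simp only [Matrix.mul_assoc, Matrix.one_mul]
    _ = x.adjugate * (toR e).adjugate * (y * y.adjugate) * toR c * x := by rw [h2]
    _ = _ := by simp only [Matrix.mul_assoc]

theorem toR_tf (s : MZ) : toR (tf s) = (2 : ℝ) • toR s - (toR s).trace • (1 : MR) := by
  ext i j
  simp only [tf, toR, Matrix.map_apply, Matrix.sub_apply, Matrix.smul_apply, Matrix.one_apply,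
    Matrix.trace_fin_two, smul_eq_mul]
  split_ifs <;> push_cast <;> ring

/-- the entries of the trace zero part of `adj(e) c` -/
theorem tf_bound (R w l K : ℝ) (hw : 0 < w) (hl : 0 < l) (hK : 0 < K) (x y : MR)
    (hx : x.det = 1) (hy : y.det = 1) (hxR : ∀ i j, |x i j| ≤ R) (e c : MZ)
    (he : Gle w l (fr x y e)) (hc : Gle w K (fr x y c))
    (hd : (tf (e.adjugate * c)).det = 0) :
    ∀ i j, |((tf (e.adjugate * c) i j : ℤ) : ℝ)| ≤ 16 * R ^ 2 * (w * l * K) := by
  have hfr := fr_adj_mul x y hy e c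
  set E : MR := fr x y e with hE
  set F : MR := fr x y c with hF
  set n : MZ := tf (e.adjugate * c) with hn
  set N : MR := fr x x n with hN
  have hxx : x * x.adjugate = 1 := by rw [Matrix.mul_adjugate, hx, one_smul]
  have hxx' : x.adjugate * x = 1 := by rw [Matrix.adjugate_mul, hx, one_smul]
  -- `N = 2 M - tr M`
  set M : MR := E.adjugate * F with hM
  have htoRn : toR n = (2 : ℝ) • toR (e.adjugate * c) - (toR (e.adjugate * c)).trace • (1 : MR) :=
    toR_tf _
  have htr : (toR (e.adjugate * c)).trace = M.trace := by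
    rw [← hfr, fr, Matrix.trace_mul_comm, ← Matrix.mul_assoc, hxx, Matrix.one_mul]
  have hN2 : N = (2 : ℝ) • M - M.trace • (1 : MR) := by
    rw [hN, fr, htoRn, Matrix.mul_sub, Matrix.sub_mul, Matrix.mul_smul, Matrix.smul_mul,
      Matrix.mul_smul, Matrix.smul_mul, Matrix.mul_one, hxx', htr]
    congr 1
    rw [← hfr, fr]
  have hdetN : N.det = 0 := by
    rw [hN, fr, Matrix.det_mul, Matrix.det_mul, Matrix.det_adjugate, hx]
    have : (toR n).det = ((n.det : ℤ) : ℝ) := by
      simp only [toR, Matrix.det_fin_two, Matrix.map_apply]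
      push_cast
      ring
    rw [this, hd]
    simp
  have hM01 : M 0 1 = E 1 1 * F 0 1 - E 0 1 * F 1 1 := by
    rw [hM]
    simp only [Matrix.adjugate_fin_two, Matrix.mul_apply, Fin.sum_univ_two, Matrix.of_apply,
      Matrix.cons_val', Matrix.cons_val_zero, Matrix.cons_val_one, Matrix.cons_val_fin_one]
    ring
  have hM10 : M 1 0 = E 0 0 * F 1 0 - E 1 0 * F 0 0 := by
    rw [hM]
    simp only [Matrix.adjugate_fin_two, Matrix.mul_apply, Fin.sum_univ_two, Matrix.of_apply,
      Matrix.cons_val', Matrix.cons_val_zero, Matrix.cons_val_one, Matrix.cons_val_fin_one]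
    ring
  obtain ⟨e1, e2, e3, e4⟩ := he
  obtain ⟨c1, c2, c3, c4⟩ := hc
  have hprod : ∀ a b A B : ℝ, |a| ≤ A → |b| ≤ B → 0 ≤ A → |a * b| ≤ A * B := by
    intro a b A B h1 h2 h3
    rw [abs_mul]
    exact mul_le_mul h1 h2 (abs_nonneg _) h3
  have b01 : |M 0 1| ≤ 2 * (w * l * K) := by
    rw [hM01]
    refine (abs_sub _ _).trans ?_
    have h1 := hprod _ _ _ _ e2 c3 hl.le
    have h2 := hprod _ _ _ _ e3 c2 (by positivity)
    nlinarith
  have b10 : |M 1 0| ≤ 2 * (w * l * K) := by
    rw [hM10]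
    refine (abs_sub _ _).trans ?_
    have h1 := hprod _ _ _ _ e1 c4 hl.le
    have h2 := hprod _ _ _ _ e4 c1 (by positivity)
    nlinarith
  have n01 : N 0 1 = 2 * M 0 1 := by rw [hN2]; simp
  have n10 : N 1 0 = 2 * M 1 0 := by rw [hN2]; simp
  have n00 : N 0 0 = M 0 0 - M 1 1 := by rw [hN2]; simp [Matrix.trace_fin_two]; ring
  have n11 : N 1 1 = -N 0 0 := by rw [n00, hN2]; simp [Matrix.trace_fin_two]; ring
  have hX : 0 < w * l * K := by positivity
  have B01 : |N 0 1| ≤ 4 * (w * l * K) := by rw [n01, abs_mul, abs_two]; linarith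
  have B10 : |N 1 0| ≤ 4 * (w * l * K) := by rw [n10, abs_mul, abs_two]; linarith
  have B00 : |N 0 0| ≤ 4 * (w * l * K) := by
    rw [Matrix.det_fin_two, n11] at hdetN
    have h1 : N 0 0 ^ 2 = -(N 0 1 * N 1 0) := by linarith
    have h2 := hprod _ _ _ _ B01 B10 (by positivity)
    have h3 : N 0 0 ^ 2 ≤ (4 * (w * l * K)) ^ 2 := by
      rw [h1, sq]
      exact (neg_le_abs _).trans h2
    exact abs_le_of_sq_le_sq h3 (by positivity)
  have B11 : |N 1 1| ≤ 4 * (w * l * K) := by rw [n11, abs_neg]; exact B00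
  -- back to `n`
  have hback : toR n = x * N * x.adjugate := by
    rw [hN, fr]
    calc toR n = 1 * toR n * 1 := by rw [Matrix.one_mul, Matrix.mul_one]
      _ = (x * x.adjugate) * toR n * (x * x.adjugate) := by rw [hxx]
      _ = _ := by simp only [Matrix.mul_assoc]
  have hR : 0 ≤ R := (abs_nonneg _).trans (hxR 0 0)
  have hNall : ∀ i j, |N i j| ≤ 4 * (w * l * K) := by
    intro i j
    fin_cases i <;> fin_cases j
    · exact B00
    · exact B01
    · exact B10
    · exact B11
  have hadj : ∀ i j, |x.adjugate i j| ≤ R := by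
    intro i j
    rw [Matrix.adjugate_fin_two]
    fin_cases i <;> fin_cases j
    · exact hxR 1 1
    · show |-x 0 1| ≤ R
      rw [abs_neg]; exact hxR 0 1
    · show |-x 1 0| ≤ R
      rw [abs_neg]; exact hxR 1 0
    · exact hxR 0 0
  intro i j
  have h1 : ((n i j : ℤ) : ℝ) = (toR n) i j := rfl
  rw [h1, hback]
  simp only [Matrix.mul_apply, Fin.sum_univ_two]
  have t3 : ∀ a b c : ℝ, |a| ≤ R → |b| ≤ 4 * (w * l * K) → |c| ≤ R →
      |a * b * c| ≤ 4 * R ^ 2 * (w * l * K) := by
    intro a b c ha hb hc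
    have h2 := hprod _ _ _ _ ha hb hR
    have h3 := hprod _ _ _ _ h2 hc (by positivity)
    calc |a * b * c| ≤ R * (4 * (w * l * K)) * R := h3
      _ = _ := by ring
  have q1 := t3 _ _ _ (hxR i 0) (hNall 0 0) (hadj 0 j)
  have q2 := t3 _ _ _ (hxR i 1) (hNall 1 0) (hadj 0 j)
  have q3 := t3 _ _ _ (hxR i 0) (hNall 0 1) (hadj 1 j)
  have q4 := t3 _ _ _ (hxR i 1) (hNall 1 1) (hadj 1 j)
  calc |(x i 0 * N 0 0 + x i 1 * N 1 0) * x.adjugate 0 j +
        (x i 0 * N 0 1 + x i 1 * N 1 1) * x.adjugate 1 j|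
      = |(x i 0 * N 0 0 * x.adjugate 0 j + x i 1 * N 1 0 * x.adjugate 0 j) +
        (x i 0 * N 0 1 * x.adjugate 1 j + x i 1 * N 1 1 * x.adjugate 1 j)| := by
        congr 1; ring
    _ ≤ |x i 0 * N 0 0 * x.adjugate 0 j + x i 1 * N 1 0 * x.adjugate 0 j| +
        |x i 0 * N 0 1 * x.adjugate 1 j + x i 1 * N 1 1 * x.adjugate 1 j| := abs_add_le _ _
    _ ≤ (|x i 0 * N 0 0 * x.adjugate 0 j| + |x i 1 * N 1 0 * x.adjugate 0 j|) +
        (|x i 0 * N 0 1 * x.adjugate 1 j| + |x i 1 * N 1 1 * x.adjugate 1 j|) :=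
        add_le_add (abs_add_le _ _) (abs_add_le _ _)
    _ ≤ 16 * R ^ 2 * (w * l * K) := by linarith

theorem fr_smul (x y : MR) (t : ℤ) (e : MZ) : fr x y (t • e) = (t : ℝ) • fr x y e := by
  have : toR (t • e) = (t : ℝ) • toR e := by
    ext i j
    simp only [toR, Matrix.map_apply, Matrix.smul_apply, smul_eq_mul]
    push_cast
    ring
  rw [fr, this, Matrix.mul_smul, Matrix.smul_mul, fr]

theorem fr_sub (x y : MR) (c d : MZ) : fr x y (c - d) = fr x y c - fr x y d := by
  have : toR (c - d) = toR c - toR d := by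
    ext i j
    simp only [toR, Matrix.map_apply, Matrix.sub_apply]
    push_cast
    ring
  rw [fr, this, Matrix.mul_sub, Matrix.sub_mul, fr, fr]

theorem tf_sub (e c d : MZ) :
    tf (e.adjugate * (c - d)) = tf (e.adjugate * c) - tf (e.adjugate * d) := by
  rw [Matrix.mul_sub]
  ext i j
  simp only [tf, Matrix.sub_apply, Matrix.smul_apply, Matrix.trace_fin_two, smul_eq_mul]
  ring

/-- the difference of two box elements on a line in the direction `e` -/
theorem step_le (w l K : ℝ) (hw : 0 < w) (hl : 0 < l) (x y : MR) (e c c0 : MZ) (t : ℤ)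
    (hge : Gge w l (fr x y e)) (hc : Gle w K (fr x y c)) (hc0 : Gle w K (fr x y c0))
    (h : c - c0 = t • e) : |(t : ℝ)| ≤ 2 * K / l := by
  have h1 : fr x y c - fr x y c0 = (t : ℝ) • fr x y e := by
    rw [← fr_sub, h, fr_smul]
  rw [le_div_iff₀ hl]
  have h2 : ∀ i j, |fr x y c i j - fr x y c0 i j| = |(t : ℝ)| * |fr x y e i j| := by
    intro i j
    have := congrFun (congrFun h1 i) j
    rw [Matrix.sub_apply, Matrix.smul_apply, smul_eq_mul] at this
    rw [this, abs_mul]
  have ht := abs_nonneg (t : ℝ)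
  obtain ⟨a1, a2, a3, a4⟩ := hc
  obtain ⟨b1, b2, b3, b4⟩ := hc0
  rcases hge with g | g | g | g
  · have h3 := h2 0 0
    have h4 := abs_sub (fr x y c 0 0) (fr x y c0 0 0)
    have h5 := mul_le_mul_of_nonneg_left g ht
    linarith
  · have h3 := h2 1 1
    have h4 := abs_sub (fr x y c 1 1) (fr x y c0 1 1)
    have h5 := mul_le_mul_of_nonneg_left g ht
    linarith
  · have h3 := h2 0 1
    have h4 := abs_sub (fr x y c 0 1) (fr x y c0 0 1)
    have h5 := mul_le_mul_of_nonneg_left g ht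
    have h6 : w * (|(t : ℝ)| * l) ≤ w * (2 * K) := by linarith
    exact le_of_mul_le_mul_left h6 hw
  · have h3 := h2 1 0
    have h4 := abs_sub (fr x y c 1 0) (fr x y c0 1 0)
    have h5 := mul_le_mul_of_nonneg_left g ht
    have h6 : w * (|(t : ℝ)| * l) ≤ w * (2 * K) := by linarith
    exact le_of_mul_le_mul_left h6 hw

/-- **Degenerate lines.** -/
theorem dsz (ε R : ℝ) (hε : 0 < ε) : ∃ B : ℝ, 1 ≤ B ∧ ∀ w l K : ℝ, 0 < w → 0 < l → 0 < K →
    ∀ x y : MR, x.det = 1 → y.det = 1 → (∀ i j, |x i j| ≤ R) →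
    ∀ e : MZ, Prim e → e.det ≠ 0 → Gle w l (fr x y e) → Gge w l (fr x y e) →
    ∀ S : Finset MZ,
    (∀ c ∈ S, Prim c ∧ Gle w K (fr x y c) ∧ mx c e ^ 2 = 4 * e.det * c.det) →
    (S.card : ℝ) ≤ B * (1 + (w * l * K) ^ (1 + ε) * (1 + K / l)) := by
  obtain ⟨C, hC, hnil⟩ := nil_card ε hε
  refine ⟨max 2 (4 * C * (16 * R ^ 2) ^ (1 + ε)), by
    exact (by norm_num : (1 : ℝ) ≤ 2).trans (le_max_left _ _), ?_⟩
  intro w l K hw hl hK x y hx hy hxR e he hdet hle hge S hS
  have hY : 0 < w * l * K := by positivity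
  set Y : ℝ := w * l * K with hYdef
  have hdz : ∀ c ∈ S, (tf (e.adjugate * c)).det = 0 := by
    intro c hc
    have h1 := (hS c hc).2.2
    have h2 : (tf (e.adjugate * c)).det = 4 * (e.adjugate * c).det - (e.adjugate * c).trace ^ 2 := by
      simp only [tf, Matrix.det_fin_two, Matrix.sub_apply, Matrix.smul_apply, Matrix.one_apply,
        Matrix.trace_fin_two, smul_eq_mul]
      simp only [Fin.isValue, ↓reduceIte, one_ne_zero, zero_ne_one]
      ring
    have h3 : (e.adjugate * c).trace = mx c e := by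
      simp only [mx, Matrix.trace_fin_two, Matrix.adjugate_fin_two, Matrix.mul_apply,
        Fin.sum_univ_two, Matrix.of_apply, Matrix.cons_val', Matrix.cons_val_zero,
        Matrix.cons_val_one, Matrix.cons_val_fin_one]
      ring
    rw [h2, h3, Matrix.det_mul, Matrix.det_adjugate, h1]
    simp
    ring
  -- the trivial part
  have hS0 : ((S.filter (fun c => tf (e.adjugate * c) = 0)).card : ℝ) ≤ 2 := by
    have hsub : S.filter (fun c => tf (e.adjugate * c) = 0) ⊆ {e, -e} := by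
      intro c hc
      have hc' := Finset.mem_filter.1 hc
      obtain ⟨t, ht⟩ := line_eq e c he hdet hc'.2
      have hu : IsUnit t := by
        apply (hS c hc'.1).1
        intro i j
        rw [ht, Matrix.smul_apply, smul_eq_mul]
        exact Dvd.intro _ rfl
      rcases Int.isUnit_iff.1 hu with h | h
      · rw [ht, h, one_smul]
        simp
      · rw [ht, h]
        simp
    have h1 := (Finset.card_le_card hsub).trans Finset.card_le_two
    exact_mod_cast h1
  -- the other part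
  have hS1 : ((S.filter (fun c => ¬ tf (e.adjugate * c) = 0)).card : ℝ) ≤
      4 * C * (16 * R ^ 2) ^ (1 + ε) * (Y ^ (1 + ε) * (1 + K / l)) := by
    set U := S.filter (fun c => ¬ tf (e.adjugate * c) = 0) with hU
    rcases U.eq_empty_or_nonempty with h0 | ⟨c1, hc1⟩
    · rw [h0]
      have : 0 ≤ R ^ 2 := sq_nonneg R
      simp only [Finset.card_empty, Nat.cast_zero]
      positivity
    have hbd : ∀ c ∈ U, ∀ i j, |((tf (e.adjugate * c) i j : ℤ) : ℝ)| ≤ 16 * R ^ 2 * Y := by
      intro c hc i j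
      have hc' := (Finset.mem_filter.1 hc).1
      exact tf_bound R w l K hw hl hK x y hx hy hxR e c hle (hS c hc').2.1 (hdz c hc') i j
    have hX : (1 : ℝ) ≤ 16 * R ^ 2 * Y := by
      by_contra hlt
      push Not at hlt
      apply (Finset.mem_filter.1 hc1).2
      ext i j
      have h1 := (hbd c1 hc1 i j).trans_lt hlt
      have h2 : |(tf (e.adjugate * c1) i j : ℤ)| < 1 := by exact_mod_cast h1
      rw [Matrix.zero_apply]
      exact Int.abs_lt_one_iff.1 h2
    set φ : MZ → ℤ × ℤ × ℤ := fun c =>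
      (tf (e.adjugate * c) 0 0, tf (e.adjugate * c) 0 1, tf (e.adjugate * c) 1 0) with hφ
    have h11 : ∀ s : MZ, tf s 1 1 = - tf s 0 0 := by
      intro s
      simp only [tf, Matrix.sub_apply, Matrix.smul_apply, Matrix.one_apply,
        Matrix.trace_fin_two, smul_eq_mul, ↓reduceIte]
      ring
    have himg : ((U.image φ).card : ℝ) ≤ C * (16 * R ^ 2 * Y) ^ (1 + ε) := by
      apply hnil _ hX
      intro t ht
      obtain ⟨c, hc, rfl⟩ := Finset.mem_image.1 ht
      refine ⟨?_, hbd c hc 0 0, hbd c hc 0 1, hbd c hc 1 0⟩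
      have h1 := hdz c (Finset.mem_filter.1 hc).1
      rw [Matrix.det_fin_two, h11] at h1
      show (tf (e.adjugate * c) 0 0) ^ 2 = -(tf (e.adjugate * c) 0 1 * tf (e.adjugate * c) 1 0)
      linear_combination -h1
    have hfib : ∀ a ∈ U.image φ, (U.filter (fun c => φ c = a)).card ≤ ⌊4 * K / l + 1⌋₊ := by
      intro a ha
      obtain ⟨c0, hc0, rfl⟩ := Finset.mem_image.1 ha
      have hc0S := (Finset.mem_filter.1 hc0).1
      have hsub : U.filter (fun c => φ c = φ c0) ⊆
          (Finset.Icc (-⌊2 * K / l⌋) ⌊2 * K / l⌋).image (fun t : ℤ => c0 + t • e) := by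
        intro c hc
        have hc1 := Finset.mem_filter.1 hc
        have hcS := (Finset.mem_filter.1 hc1.1).1
        have heq : tf (e.adjugate * (c - c0)) = 0 := by
          rw [tf_sub]
          have hp := hc1.2
          simp only [hφ, Prod.mk.injEq] at hp
          obtain ⟨p1, p2, p3⟩ := hp
          have p4 : tf (e.adjugate * c) 1 1 = tf (e.adjugate * c0) 1 1 := by
            rw [h11, h11, p1]
          ext i j
          rw [Matrix.sub_apply, Matrix.zero_apply, sub_eq_zero]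
          fin_cases i <;> fin_cases j
          · exact p1
          · exact p2
          · exact p3
          · exact p4
        obtain ⟨t, ht⟩ := line_eq e (c - c0) he hdet heq
        have hst := step_le w l K hw hl x y e c c0 t hge (hS c hcS).2.1 (hS c0 hc0S).2.1 ht
        refine Finset.mem_image.2 ⟨t, ?_, ?_⟩
        · have h2 := abs_le.1 hst
          rw [Finset.mem_Icc]
          constructor
          · have : -t ≤ ⌊2 * K / l⌋ := Int.le_floor.2 (by push_cast; linarith)
            linarith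
          · exact Int.le_floor.2 h2.2
        · show c0 + t • e = c
          rw [← ht]
          abel
      have h2 := (Finset.card_le_card hsub).trans Finset.card_image_le
      have h3 : (0 : ℝ) ≤ 2 * K / l := by positivity
      have h4 := card_int_le (2 * K / l) h3 (Finset.Icc (-⌊2 * K / l⌋) ⌊2 * K / l⌋) (by
        intro t ht
        rw [Finset.mem_Icc] at ht
        have h5 := Int.floor_le (2 * K / l)
        have h6 : (t : ℝ) ≤ (⌊2 * K / l⌋ : ℝ) := by exact_mod_cast ht.2
        have h7 : -(⌊2 * K / l⌋ : ℝ) ≤ (t : ℝ) := by exact_mod_cast ht.1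
        rw [abs_le]
        constructor <;> linarith)
      apply Nat.le_floor
      have h5 : ((U.filter (fun c => φ c = φ c0)).card : ℝ) ≤
          ((Finset.Icc (-⌊2 * K / l⌋) ⌊2 * K / l⌋).card : ℝ) := by exact_mod_cast h2
      calc ((U.filter (fun c => φ c = φ c0)).card : ℝ) ≤ _ := h5
        _ ≤ 2 * (2 * K / l) + 1 := h4
        _ = 4 * K / l + 1 := by ring
    have hcard := Finset.card_le_mul_card_image (f := φ) U _ hfib
    have hfl : ((⌊4 * K / l + 1⌋₊ : ℕ) : ℝ) ≤ 4 * K / l + 1 := Nat.floor_le (by positivity)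
    have hR2 : 0 ≤ 16 * R ^ 2 := by positivity
    have hKl : 0 < K / l := by positivity
    calc (U.card : ℝ) ≤ ((⌊4 * K / l + 1⌋₊ * (U.image φ).card : ℕ) : ℝ) := by
          exact_mod_cast hcard
      _ = ((⌊4 * K / l + 1⌋₊ : ℕ) : ℝ) * ((U.image φ).card : ℝ) := by push_cast; ring
      _ ≤ (4 * K / l + 1) * (C * (16 * R ^ 2 * Y) ^ (1 + ε)) := by gcongr
      _ ≤ (4 * (1 + K / l)) * (C * (16 * R ^ 2 * Y) ^ (1 + ε)) := by
          apply mul_le_mul_of_nonneg_right _ (by positivity)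
          rw [mul_div_assoc]
          linarith
      _ = 4 * C * (16 * R ^ 2) ^ (1 + ε) * (Y ^ (1 + ε) * (1 + K / l)) := by
          rw [Real.mul_rpow hR2 hY.le]
          ring
  have h2 := Finset.card_filter_add_card_filter_not (s := S)
    (fun c => tf (e.adjugate * c) = 0)
  have h3 : (S.card : ℝ) = ((S.filter (fun c => tf (e.adjugate * c) = 0)).card : ℝ) +
      ((S.filter (fun c => ¬ tf (e.adjugate * c) = 0)).card : ℝ) := by exact_mod_cast h2.symm
  rw [h3]
  set M : ℝ := max 2 (4 * C * (16 * R ^ 2) ^ (1 + ε)) with hM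
  have hM2 : 2 ≤ M := le_max_left _ _
  have hM3 : 4 * C * (16 * R ^ 2) ^ (1 + ε) ≤ M := le_max_right _ _
  have hKl : 0 < K / l := by positivity
  have hZ : 0 ≤ Y ^ (1 + ε) * (1 + K / l) := by positivity
  calc _ ≤ 2 + 4 * C * (16 * R ^ 2) ^ (1 + ε) * (Y ^ (1 + ε) * (1 + K / l)) := add_le_add hS0 hS1
    _ ≤ M + M * (Y ^ (1 + ε) * (1 + K / l)) :=
        add_le_add hM2 (mul_le_mul_of_nonneg_right hM3 hZ)
    _ = _ := by ring

end HSBd
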