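import Mathlib
import Pool.Agent.Lib.MP_640417_ag.All.Divisor

/-!
# The Pell lemma and squares on a line (PROJECT H*, bands)

Complete proof text.

`pell_card`: for `d ≠ 0`, `N ≠ 0`, `|N| ≤ Z`, the number of `(X, Y)` with `|X|, |Y| ≤ Z` and
`X² - d Y² = N` is `≤ C Z^ε` (every `d`, also a square, no bound on `d`).

(1) Reduction: if `p² ∣ d` and `p² ∣ N` then `p ∣ X` and `(X, Y) ↦ (X/p, Y)` is injective into the
solutions for `(d/p², N/p²)`; induction on `|N|`.  (2) `e = gcd(X, Y)`, `e² ∣ N`: sum over `e ∣ N`,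
primitive solutions of `(d, N/e²)`.  (3) Primitive solutions: `gcd(Y, N) = 1`.  Fix one, `(X₀, Y₀)`.
Label `g = gcd(X Y₀ - X₀ Y, N)`, a divisor of `N`.  As `N ∣ (X Y₀ - X₀ Y)(X Y₀ + X₀ Y)`, the number
`g' = N/g` divides `X Y₀ + X₀ Y`.  The number `h = gcd(g, g')` divides `2 X Y₀`, so `h ∣ 2 X`,
`h² ∣ N`, `h² ∣ 4 d Y²`, `h² ∣ 4 d`, and (reduced) `h ∣ 2`.  For two solutions with the same label,
`g` and `g'` divide `Y₀ (X Y' - X' Y)`, so `N ∣ 2 V`, `V = X Y' - X' Y`, and `N ∣ 2 U`,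
`U = X X' - d Y Y'`.  So `u = 2U/N`, `v = 2V/N` are integers, `u² - d v² = 4`, and `(X', Y')` is
determined by `(u, v)`.  (4) `u² - d v² = 4`: for `d < 0`, `|u|, |v| ≤ 2`; for `d > 0`,
two solutions with `0 < v < v'` satisfy `(u v' - u' v)(u v' + u' v) = 4 (v'² - v²)`, so
`4 (v'² - v²) ≥ u v' + u' v ≥ 2 v v'`, `2 v'² ≥ 3 v²`, `v'⁴ ≥ 2 v⁴`: at most `log₂ (B⁴) + 1` values.

`line_card`: `4 a (a t² + b t + c) = (2 a t + b)² - (b² - 4 a c)`.
-/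

namespace Pool.Agent.A54.HSBd

theorem unit_growth {d u v u' v' : ℤ} (hd : 1 ≤ d) (hu : 0 < u) (hv : 0 < v) (hu' : 0 < u')
    (hv' : v < v') (h : u ^ 2 - d * v ^ 2 = 4) (h' : u' ^ 2 - d * v' ^ 2 = 4) :
    2 * v ^ 4 ≤ v' ^ 4 := by
  have hv'0 : 0 < v' := by omega
  have h1 : v < u := by
    by_contra hc
    push Not at hc
    nlinarith [mul_pos hv hv]
  have h1' : v' < u' := by
    by_contra hc
    push Not at hc
    nlinarith [mul_pos hv'0 hv'0]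
  have hid : (u * v' - u' * v) * (u * v' + u' * v) = 4 * (v' ^ 2 - v ^ 2) := by
    linear_combination v' ^ 2 * h - v ^ 2 * h'
  have hpos : 0 < u * v' + u' * v := by positivity
  have hr : 0 < 4 * (v' ^ 2 - v ^ 2) := by nlinarith
  have h2 : 0 < u * v' - u' * v := by
    by_contra hc
    push Not at hc
    nlinarith
  have h3 : u * v' + u' * v ≤ 4 * (v' ^ 2 - v ^ 2) := by
    rw [← hid]; nlinarith
  have h4 : v * v' ≤ u * v' := by nlinarith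
  have h5 : v' * v ≤ u' * v := by nlinarith
  have h6 : v * v ≤ v * v' := by nlinarith
  have h7 : 3 * v ^ 2 ≤ 2 * v' ^ 2 := by nlinarith
  have h8 : (3 * v ^ 2) * (3 * v ^ 2) ≤ (2 * v' ^ 2) * (2 * v' ^ 2) :=
    mul_le_mul h7 h7 (by positivity) (by positivity)
  nlinarith [pow_pos hv 4]

theorem unit_log {d u v u' v' : ℤ} (hd : 1 ≤ d) (hv : v ≠ 0)
    (hv' : v.natAbs < v'.natAbs) (h : u ^ 2 - d * v ^ 2 = 4) (h' : u' ^ 2 - d * v' ^ 2 = 4) :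
    Nat.log 2 (v.natAbs ^ 4) < Nat.log 2 (v'.natAbs ^ 4) := by
  have hu0 : u ≠ 0 := by
    rintro rfl
    have : 0 < v ^ 2 := by positivity
    nlinarith
  have hv'0 : v' ≠ 0 := by
    rintro rfl
    simp at hv'
  have hu'0 : u' ≠ 0 := by
    rintro rfl
    have : 0 < v' ^ 2 := by positivity
    nlinarith
  have key := unit_growth (d := d) (u := |u|) (v := |v|) (u' := |u'|) (v' := |v'|) hd
    (abs_pos.2 hu0) (abs_pos.2 hv) (abs_pos.2 hu'0)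
    (by rw [Int.abs_eq_natAbs, Int.abs_eq_natAbs]; exact_mod_cast hv')
    (by rw [sq_abs, sq_abs]; exact h) (by rw [sq_abs, sq_abs]; exact h')
  rw [Int.abs_eq_natAbs, Int.abs_eq_natAbs] at key
  have key2 : 2 * v.natAbs ^ 4 ≤ v'.natAbs ^ 4 := by exact_mod_cast key
  have hpos : v.natAbs ^ 4 ≠ 0 := pow_ne_zero _ (Int.natAbs_ne_zero.2 hv)
  have h3 : Nat.log 2 (v.natAbs ^ 4 * 2) = Nat.log 2 (v.natAbs ^ 4) + 1 :=
    Nat.log_mul_base (by norm_num) hpos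
  have h4 : Nat.log 2 (v.natAbs ^ 4 * 2) ≤ Nat.log 2 (v'.natAbs ^ 4) :=
    Nat.log_mono_right (by linarith)
  omega

theorem unit_card {d : ℤ} (hd : d ≠ 0) (B : ℕ) (S : Finset (ℤ × ℤ))
    (hS : ∀ q ∈ S, q.1 ^ 2 - d * q.2 ^ 2 = 4 ∧ q.2.natAbs ≤ B) :
    S.card ≤ 25 * (Nat.log 2 (B ^ 4) + 1) := by
  rcases lt_or_gt_of_ne hd with hneg | hpos
  · have hsub : S ⊆ Finset.Icc (-2 : ℤ) 2 ×ˢ Finset.Icc (-2 : ℤ) 2 := by
      intro q hq
      have h1 := (hS q hq).1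
      have h2 : q.1 ^ 2 ≤ 4 := by nlinarith [sq_nonneg q.2]
      have h3 : q.2 ^ 2 ≤ 4 := by nlinarith [sq_nonneg q.2, sq_nonneg q.1]
      simp only [Finset.mem_product, Finset.mem_Icc]
      refine ⟨⟨?_, ?_⟩, ?_, ?_⟩ <;> nlinarith
    have hcc := Finset.card_le_card hsub
    have h25 : (Finset.Icc (-2 : ℤ) 2 ×ˢ Finset.Icc (-2 : ℤ) 2).card = 25 := by decide
    rw [h25] at hcc
    omega
  · have hmaps : Set.MapsTo (fun q : ℤ × ℤ => ((q.1.sign, q.2.sign), Nat.log 2 (q.2.natAbs ^ 4)))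
        (S : Set (ℤ × ℤ)) (((Finset.Icc (-1 : ℤ) 1 ×ˢ Finset.Icc (-1 : ℤ) 1) ×ˢ
          Finset.range (Nat.log 2 (B ^ 4) + 1) : Finset ((ℤ × ℤ) × ℕ)) : Set ((ℤ × ℤ) × ℕ)) := by
      intro q hq
      have h1 := hS q hq
      simp only [Finset.coe_product, Finset.coe_Icc, Finset.coe_range, Set.mem_prod, Set.mem_Icc,
        Set.mem_Iio]
      have hs : ∀ z : ℤ, -1 ≤ z.sign ∧ z.sign ≤ 1 := by
        intro z
        rcases lt_trichotomy z 0 with h | h | h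
        · rw [Int.sign_eq_neg_one_of_neg h]; norm_num
        · rw [h]; norm_num
        · rw [Int.sign_eq_one_of_pos h]; norm_num
      refine ⟨⟨hs _, hs _⟩, ?_⟩
      have : Nat.log 2 (q.2.natAbs ^ 4) ≤ Nat.log 2 (B ^ 4) :=
        Nat.log_mono_right (Nat.pow_le_pow_left h1.2 4)
      omega
    have hinj : Set.InjOn (fun q : ℤ × ℤ => ((q.1.sign, q.2.sign), Nat.log 2 (q.2.natAbs ^ 4)))
        (S : Set (ℤ × ℤ)) := by
      rintro ⟨u, v⟩ hq ⟨u', v'⟩ hq' heq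
      have h1 := (hS _ hq).1
      have h1' := (hS _ hq').1
      simp only [Prod.mk.injEq] at heq h1 h1'
      obtain ⟨⟨e1, e2⟩, e3⟩ := heq
      have hvabs : v.natAbs = v'.natAbs := by
        by_cases hv : v = 0
        · subst hv
          have : v'.sign = 0 := by rw [← e2]; rfl
          rw [Int.sign_eq_zero_iff_zero.1 this]
        · have hv' : v' ≠ 0 := by
            rintro rfl
            apply hv
            exact Int.sign_eq_zero_iff_zero.1 (by rw [e2]; rfl)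
          rcases lt_trichotomy v.natAbs v'.natAbs with h | h | h
          · have := unit_log hpos hv h h1 h1'
            omega
          · exact h
          · have := unit_log hpos hv' h h1' h1
            omega
      have hvv : v = v' := by
        rw [← Int.sign_mul_natAbs v, ← Int.sign_mul_natAbs v', e2, hvabs]
      have huu : u ^ 2 = u' ^ 2 := by rw [hvv] at h1; linarith
      have huabs : u.natAbs = u'.natAbs := by
        have := Int.natAbs_eq_iff_sq_eq.2 huu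
        exact this
      have : u = u' := by
        rw [← Int.sign_mul_natAbs u, ← Int.sign_mul_natAbs u', e1, huabs]
      rw [hvv, this]
    have hc := Finset.card_le_card_of_injOn _ hmaps hinj
    have h9 : (Finset.Icc (-1 : ℤ) 1 ×ˢ Finset.Icc (-1 : ℤ) 1).card = 9 := by decide
    rw [Finset.card_product, h9, Finset.card_range] at hc
    omega

theorem dvd_gcd_mul {A N B : ℤ} (h : N ∣ A * B) : N ∣ (Int.gcd A N : ℤ) * B := by
  rw [Int.gcd_eq_gcd_ab]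
  have h1 : (A * Int.gcdA A N + N * Int.gcdB A N) * B =
      Int.gcdA A N * (A * B) + N * (Int.gcdB A N * B) := by ring
  rw [h1]
  exact dvd_add (Dvd.dvd.mul_left h _) (Dvd.intro _ rfl)

theorem mul_dvd_gcd_mul {a b V : ℤ} (h1 : a ∣ V) (h2 : b ∣ V) :
    a * b ∣ (Int.gcd a b : ℤ) * V := by
  rw [Int.gcd_eq_gcd_ab]
  obtain ⟨x, hx⟩ := h1
  obtain ⟨y, hy⟩ := h2
  refine ⟨Int.gcdA a b * y + Int.gcdB a b * x, ?_⟩
  linear_combination (a * Int.gcdA a b) * hy + (b * Int.gcdB a b) * hx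

theorem two_of_sq {h : ℕ} {d N : ℤ}
    (hred : ∀ p : ℕ, p.Prime → ¬ ((p : ℤ) ^ 2 ∣ d ∧ (p : ℤ) ^ 2 ∣ N))
    (h1 : (h : ℤ) ^ 2 ∣ 4 * d) (h2 : (h : ℤ) ^ 2 ∣ N) : (h : ℤ) ∣ 2 := by
  rcases Nat.even_or_odd' h with ⟨m, hm | hm⟩
  · have hm1 : m = 1 := by
      by_contra hne
      obtain ⟨p, hp, hpm⟩ := Nat.exists_prime_and_dvd hne
      have hpm' : (p : ℤ) ^ 2 ∣ (m : ℤ) ^ 2 := pow_dvd_pow_of_dvd (by exact_mod_cast hpm) 2
      apply hred p hp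
      constructor
      · refine hpm'.trans ?_
        have : (4 : ℤ) * (m : ℤ) ^ 2 ∣ 4 * d := by
          refine dvd_trans (dvd_of_eq ?_) h1
          rw [hm]; push_cast; ring
        exact (mul_dvd_mul_iff_left (by norm_num)).1 this
      · refine hpm'.trans (dvd_trans ?_ h2)
        rw [hm]; push_cast
        exact pow_dvd_pow_of_dvd (Dvd.intro_left _ rfl) 2
    rw [hm, hm1]; norm_num
  · have hm1 : h = 1 := by
      by_contra hne
      obtain ⟨p, hp, hpm⟩ := Nat.exists_prime_and_dvd hne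
      have hpm' : (p : ℤ) ^ 2 ∣ (h : ℤ) ^ 2 := pow_dvd_pow_of_dvd (by exact_mod_cast hpm) 2
      apply hred p hp
      refine ⟨?_, hpm'.trans h2⟩
      have hc : IsCoprime (h : ℤ) 2 := ⟨1, -(m : ℤ), by rw [hm]; push_cast; ring⟩
      have hc2 : IsCoprime ((h : ℤ) ^ 2) 4 := by
        have := (hc.pow_left (m := 2)).pow_right (n := 2)
        norm_num at this
        exact this
      exact hpm'.trans (hc2.dvd_of_dvd_mul_left h1)
    rw [hm1]; norm_num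

theorem class_dvd {d N X0 Y0 X Y X' Y' : ℤ} (hN : N ≠ 0)
    (hred : ∀ p : ℕ, p.Prime → ¬ ((p : ℤ) ^ 2 ∣ d ∧ (p : ℤ) ^ 2 ∣ N))
    (h0 : X0 ^ 2 - d * Y0 ^ 2 = N) (h : X ^ 2 - d * Y ^ 2 = N) (h' : X' ^ 2 - d * Y' ^ 2 = N)
    (c0 : IsCoprime Y0 N) (c : IsCoprime Y N)
    (hg : Int.gcd (X * Y0 - X0 * Y) N = Int.gcd (X' * Y0 - X0 * Y') N) :
    N ∣ 2 * (X * Y' - X' * Y) ∧ N ∣ 2 * (X * X' - d * Y * Y') := by
  have hgA : (Int.gcd (X * Y0 - X0 * Y) N : ℤ) ∣ X * Y0 - X0 * Y := Int.gcd_dvd_left _ _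
  have hgA' : (Int.gcd (X * Y0 - X0 * Y) N : ℤ) ∣ X' * Y0 - X0 * Y' := by
    rw [hg]; exact Int.gcd_dvd_left _ _
  have hgN : (Int.gcd (X * Y0 - X0 * Y) N : ℤ) ∣ N := Int.gcd_dvd_right _ _
  have hAB : N ∣ (X * Y0 - X0 * Y) * (X * Y0 + X0 * Y) :=
    ⟨Y0 ^ 2 - Y ^ 2, by linear_combination Y0 ^ 2 * h - Y ^ 2 * h0⟩
  have hAB' : N ∣ (X' * Y0 - X0 * Y') * (X' * Y0 + X0 * Y') :=
    ⟨Y0 ^ 2 - Y' ^ 2, by linear_combination Y0 ^ 2 * h' - Y' ^ 2 * h0⟩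
  have hB := dvd_gcd_mul hAB
  have hB' := dvd_gcd_mul hAB'
  rw [← hg] at hB'
  set g : ℕ := Int.gcd (X * Y0 - X0 * Y) N with hgdef
  obtain ⟨g', hg'⟩ := hgN
  have hg0 : (g : ℤ) ≠ 0 := by
    intro h00
    rw [h00, zero_mul] at hg'
    exact hN hg'
  have hB2 : g' ∣ X * Y0 + X0 * Y := by
    have : (g : ℤ) * g' ∣ g * (X * Y0 + X0 * Y) := by rw [← hg']; exact hB
    exact (mul_dvd_mul_iff_left hg0).1 this
  have hB2' : g' ∣ X' * Y0 + X0 * Y' := by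
    have : (g : ℤ) * g' ∣ g * (X' * Y0 + X0 * Y') := by rw [← hg']; exact hB'
    exact (mul_dvd_mul_iff_left hg0).1 this
  have hgN : (g : ℤ) ∣ N := ⟨g', hg'⟩
  have hg'N : g' ∣ N := ⟨g, by rw [hg']; ring⟩
  have hgV : (g : ℤ) ∣ X * Y' - X' * Y := by
    have h1 : (g : ℤ) ∣ Y0 * (X * Y' - X' * Y) := by
      have : Y0 * (X * Y' - X' * Y) = Y' * (X * Y0 - X0 * Y) - Y * (X' * Y0 - X0 * Y') := by ring
      rw [this]
      exact dvd_sub (Dvd.dvd.mul_left hgA _) (Dvd.dvd.mul_left hgA' _)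
    exact ((c0.of_isCoprime_of_dvd_right hgN).symm).dvd_of_dvd_mul_left h1
  have hg'V : g' ∣ X * Y' - X' * Y := by
    have h1 : g' ∣ Y0 * (X * Y' - X' * Y) := by
      have : Y0 * (X * Y' - X' * Y) = Y' * (X * Y0 + X0 * Y) - Y * (X' * Y0 + X0 * Y') := by ring
      rw [this]
      exact dvd_sub (Dvd.dvd.mul_left hB2 _) (Dvd.dvd.mul_left hB2' _)
    exact ((c0.of_isCoprime_of_dvd_right hg'N).symm).dvd_of_dvd_mul_left h1
  have hgg := mul_dvd_gcd_mul hgV hg'V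
  rw [← hg'] at hgg
  -- h divides two
  have hh : (Int.gcd (g : ℤ) g' : ℤ) ∣ 2 := by
    have a1 : (Int.gcd (g : ℤ) g' : ℤ) ∣ g := Int.gcd_dvd_left _ _
    have a2 : (Int.gcd (g : ℤ) g' : ℤ) ∣ g' := Int.gcd_dvd_right _ _
    have a3 : (Int.gcd (g : ℤ) g' : ℤ) ^ 2 ∣ N := by
      rw [hg', sq]; exact mul_dvd_mul a1 a2
    have a4 : (Int.gcd (g : ℤ) g' : ℤ) ∣ Y0 * (2 * X) := by
      have : Y0 * (2 * X) = (X * Y0 - X0 * Y) + (X * Y0 + X0 * Y) := by ring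
      rw [this]
      exact dvd_add (a1.trans hgA) (a2.trans hB2)
    have a5 : (Int.gcd (g : ℤ) g' : ℤ) ∣ 2 * X :=
      ((c0.of_isCoprime_of_dvd_right (a1.trans hgN)).symm).dvd_of_dvd_mul_left a4
    have a6 : (Int.gcd (g : ℤ) g' : ℤ) ^ 2 ∣ Y ^ 2 * (4 * d) := by
      have : Y ^ 2 * (4 * d) = (2 * X) ^ 2 - 4 * N := by rw [← h]; ring
      rw [this]
      exact dvd_sub (pow_dvd_pow_of_dvd a5 2) (Dvd.dvd.mul_left a3 _)
    have a7 : IsCoprime ((Int.gcd (g : ℤ) g' : ℤ) ^ 2) (Y ^ 2) :=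
      ((c.of_isCoprime_of_dvd_right (a1.trans hgN)).symm).pow
    exact two_of_sq hred (a7.dvd_of_dvd_mul_left a6) a3
  have hNV : N ∣ 2 * (X * Y' - X' * Y) := hgg.trans (mul_dvd_mul_right hh _)
  refine ⟨hNV, ?_⟩
  have h1 : N ∣ Y * (2 * (X * X' - d * Y * Y')) := by
    have : Y * (2 * (X * X' - d * Y * Y')) = N * (2 * Y') - X * (2 * (X * Y' - X' * Y)) := by
      linear_combination (2 * Y') * h
    rw [this]
    exact dvd_sub (Dvd.intro _ rfl) (Dvd.dvd.mul_left hNV _)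
  exact (c.symm).dvd_of_dvd_mul_left h1

theorem label_card {d N X0 Y0 : ℤ} (hd : d ≠ 0) (hN : N ≠ 0)
    (hred : ∀ p : ℕ, p.Prime → ¬ ((p : ℤ) ^ 2 ∣ d ∧ (p : ℤ) ^ 2 ∣ N))
    (h0 : X0 ^ 2 - d * Y0 ^ 2 = N) (c0 : IsCoprime Y0 N) (Z g : ℕ) (S : Finset (ℤ × ℤ))
    (hS : ∀ q ∈ S, q.1 ^ 2 - d * q.2 ^ 2 = N ∧ IsCoprime q.2 N ∧ q.1.natAbs ≤ Z ∧
      q.2.natAbs ≤ Z ∧ Int.gcd (q.1 * Y0 - X0 * q.2) N = g) :
    S.card ≤ 25 * (Nat.log 2 ((4 * Z ^ 2) ^ 4) + 1) := by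
  rcases S.eq_empty_or_nonempty with he | ⟨⟨X, Y⟩, hq⟩
  · rw [he]; simp
  obtain ⟨h, c, hX, hY, hg⟩ := hS _ hq
  simp only at h c hX hY hg
  -- the map to the units
  have key : ∀ q ∈ S, ∃ r : ℤ × ℤ, 2 * (X * q.1 - d * Y * q.2) = N * r.1 ∧
      2 * (X * q.2 - q.1 * Y) = N * r.2 := by
    intro q hq'
    obtain ⟨h', c', hX', hY', hg'⟩ := hS _ hq'
    obtain ⟨⟨v, hv⟩, ⟨u, hu⟩⟩ := class_dvd hN hred h0 h h' c0 c (hg.trans hg'.symm)
    exact ⟨(u, v), hu, hv⟩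
  classical
  choose! f hf using key
  have hinj : Set.InjOn f (S : Set (ℤ × ℤ)) := by
    intro q hq1 q' hq1' he
    obtain ⟨a1, a2⟩ := hf q hq1
    obtain ⟨b1, b2⟩ := hf q' hq1'
    rw [← he] at b1 b2
    have e1 : X * q.1 - d * Y * q.2 = X * q'.1 - d * Y * q'.2 := by linarith
    have e2 : X * q.2 - q.1 * Y = X * q'.2 - q'.1 * Y := by linarith
    have e3 : N * (q.1 - q'.1) = 0 := by
      rw [← h]; linear_combination X * e1 + d * Y * e2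
    have e4 : N * (q.2 - q'.2) = 0 := by
      rw [← h]; linear_combination Y * e1 + X * e2
    have e5 : q.1 = q'.1 := by
      rcases mul_eq_zero.1 e3 with h5 | h5
      · exact absurd h5 hN
      · linarith
    have e6 : q.2 = q'.2 := by
      rcases mul_eq_zero.1 e4 with h5 | h5
      · exact absurd h5 hN
      · linarith
    exact Prod.ext e5 e6
  rw [← Finset.card_image_of_injOn hinj]
  apply unit_card hd
  intro r hr
  obtain ⟨q, hq1, rfl⟩ := Finset.mem_image.1 hr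
  obtain ⟨a1, a2⟩ := hf q hq1
  obtain ⟨h', c', hX', hY', hg'⟩ := hS _ hq1
  constructor
  · have e1 : N ^ 2 * ((f q).1 ^ 2 - d * (f q).2 ^ 2 - 4) = 0 := by
      have : N ^ 2 * ((f q).1 ^ 2 - d * (f q).2 ^ 2 - 4) =
          (N * (f q).1) ^ 2 - d * (N * (f q).2) ^ 2 - 4 * N ^ 2 := by ring
      rw [this, ← a1, ← a2]
      have : 4 * N ^ 2 = 4 * (X ^ 2 - d * Y ^ 2) * (q.1 ^ 2 - d * q.2 ^ 2) := by
        rw [h, h']; ring
      rw [this]; ring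
    rcases mul_eq_zero.1 e1 with h5 | h5
    · exact absurd h5 (pow_ne_zero 2 hN)
    · linarith
  · have e1 : (2 * (X * q.2 - q.1 * Y)).natAbs ≤ 4 * Z ^ 2 := by
      rw [Int.natAbs_mul]
      have e2 : (X * q.2 - q.1 * Y).natAbs ≤ X.natAbs * q.2.natAbs + q.1.natAbs * Y.natAbs := by
        rw [← Int.natAbs_mul, ← Int.natAbs_mul]
        exact Int.natAbs_sub_le _ _
      have e3 : X.natAbs * q.2.natAbs ≤ Z * Z := Nat.mul_le_mul hX hY'
      have e4 : q.1.natAbs * Y.natAbs ≤ Z * Z := Nat.mul_le_mul hX' hY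
      have e5 : (2 : ℤ).natAbs = 2 := rfl
      rw [e5]
      nlinarith
    rw [a2, Int.natAbs_mul] at e1
    have e6 : 1 ≤ N.natAbs := Int.natAbs_pos.2 hN
    calc (f q).2.natAbs = 1 * (f q).2.natAbs := by ring
      _ ≤ N.natAbs * (f q).2.natAbs := Nat.mul_le_mul_right _ e6
      _ ≤ _ := e1

theorem prim_card {d N : ℤ} (hd : d ≠ 0) (hN : N ≠ 0)
    (hred : ∀ p : ℕ, p.Prime → ¬ ((p : ℤ) ^ 2 ∣ d ∧ (p : ℤ) ^ 2 ∣ N))
    (Z : ℕ) (S : Finset (ℤ × ℤ))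
    (hS : ∀ q ∈ S, q.1 ^ 2 - d * q.2 ^ 2 = N ∧ IsCoprime q.1 q.2 ∧ q.1.natAbs ≤ Z ∧
      q.2.natAbs ≤ Z) :
    S.card ≤ 25 * (Nat.log 2 ((4 * Z ^ 2) ^ 4) + 1) * N.natAbs.divisors.card := by
  rcases S.eq_empty_or_nonempty with he | ⟨⟨X0, Y0⟩, hq⟩
  · rw [he]; simp
  have hco : ∀ q ∈ S, IsCoprime q.2 N := by
    intro q hq
    obtain ⟨h, c, -, -⟩ := hS q hq
    have h1 : IsCoprime q.2 (q.1 ^ 2) := c.symm.pow_right
    have h2 := h1.add_mul_left_right (-(d * q.2))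
    have h3 : q.1 ^ 2 + q.2 * -(d * q.2) = N := by rw [← h]; ring
    rw [h3] at h2
    exact h2
  classical
  apply Finset.card_le_mul_card_image_of_maps_to
    (f := fun q : ℤ × ℤ => Int.gcd (q.1 * Y0 - X0 * q.2) N)
  · intro q hq'
    rw [Nat.mem_divisors]
    exact ⟨Int.natAbs_dvd_natAbs.2 (Int.gcd_dvd_right _ _), Int.natAbs_ne_zero.2 hN⟩
  · intro g _
    apply label_card hd hN hred (hS _ hq).1 (hco _ hq) Z g
    intro q hq'
    rw [Finset.mem_filter] at hq'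
    obtain ⟨h, c, hX, hY⟩ := hS q hq'.1
    exact ⟨h, hco q hq'.1, hX, hY, hq'.2⟩

theorem red_card {d N : ℤ} (hd : d ≠ 0) (hN : N ≠ 0)
    (hred : ∀ p : ℕ, p.Prime → ¬ ((p : ℤ) ^ 2 ∣ d ∧ (p : ℤ) ^ 2 ∣ N))
    (Z : ℕ) (S : Finset (ℤ × ℤ))
    (hS : ∀ q ∈ S, q.1 ^ 2 - d * q.2 ^ 2 = N ∧ q.1.natAbs ≤ Z ∧ q.2.natAbs ≤ Z) :
    S.card ≤ 25 * (Nat.log 2 ((4 * Z ^ 2) ^ 4) + 1) * N.natAbs.divisors.card *
      N.natAbs.divisors.card := by
  classical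
  have hsq : ∀ q ∈ S, (Int.gcd q.1 q.2 : ℤ) ^ 2 ∣ N := by
    intro q hq
    obtain ⟨h, -, -⟩ := hS q hq
    rw [← h]
    exact dvd_sub (pow_dvd_pow_of_dvd (Int.gcd_dvd_left _ _) 2)
      (Dvd.dvd.mul_left (pow_dvd_pow_of_dvd (Int.gcd_dvd_right _ _) 2) _)
  apply Finset.card_le_mul_card_image_of_maps_to
    (f := fun q : ℤ × ℤ => Int.gcd q.1 q.2)
  · intro q hq
    rw [Nat.mem_divisors]
    refine ⟨?_, Int.natAbs_ne_zero.2 hN⟩
    have h1 : (Int.gcd q.1 q.2 : ℤ) ∣ N := (Dvd.intro_left _ (by ring)).trans (hsq q hq)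
    have := Int.natAbs_dvd_natAbs.2 h1
    rwa [Int.natAbs_natCast] at this
  · intro e _
    rcases (S.filter (fun q : ℤ × ℤ => Int.gcd q.1 q.2 = e)).eq_empty_or_nonempty with
      he | ⟨q0, hq0⟩
    · rw [he]; simp
    rw [Finset.mem_filter] at hq0
    have he2 : (e : ℤ) ^ 2 ∣ N := by rw [← hq0.2]; exact hsq q0 hq0.1
    obtain ⟨N', hN'⟩ := he2
    have he0 : e ≠ 0 := by
      rintro rfl
      apply hN; rw [hN']; norm_num
    have he0' : (e : ℤ) ≠ 0 := by exact_mod_cast he0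
    have hN'0 : N' ≠ 0 := by
      rintro rfl
      apply hN; rw [hN']; norm_num
    have key : ∀ q ∈ S.filter (fun q : ℤ × ℤ => Int.gcd q.1 q.2 = e), ∃ r : ℤ × ℤ,
        q.1 = e * r.1 ∧ q.2 = e * r.2 ∧ IsCoprime r.1 r.2 := by
      intro q hq
      rw [Finset.mem_filter] at hq
      have h1 : (e : ℤ) ∣ q.1 := by rw [← hq.2]; exact Int.gcd_dvd_left _ _
      have h2 : (e : ℤ) ∣ q.2 := by rw [← hq.2]; exact Int.gcd_dvd_right _ _
      obtain ⟨x, hx⟩ := h1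
      obtain ⟨y, hy⟩ := h2
      refine ⟨(x, y), hx, hy, ?_⟩
      have h3 := Int.gcd_eq_gcd_ab q.1 q.2
      rw [hq.2] at h3
      refine ⟨Int.gcdA q.1 q.2, Int.gcdB q.1 q.2, ?_⟩
      have h4 : (e : ℤ) * (Int.gcdA q.1 q.2 * x + Int.gcdB q.1 q.2 * y) = e * 1 := by
        rw [mul_one]
        conv_rhs => rw [h3]
        conv_rhs => rw [show q.1 * Int.gcdA q.1 q.2 + q.2 * Int.gcdB q.1 q.2 =
          (Int.gcdA q.1 q.2) * q.1 + (Int.gcdB q.1 q.2) * q.2 by ring]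
        generalize Int.gcdA q.1 q.2 = A
        generalize Int.gcdB q.1 q.2 = B
        rw [hx, hy]; ring
      exact mul_left_cancel₀ he0' h4
    choose! f hf using key
    have hinj : Set.InjOn f
        ((S.filter (fun q : ℤ × ℤ => Int.gcd q.1 q.2 = e) : Finset (ℤ × ℤ)) : Set (ℤ × ℤ)) := by
      intro q hq q' hq' hee
      obtain ⟨a1, a2, -⟩ := hf q hq
      obtain ⟨b1, b2, -⟩ := hf q' hq'
      rw [← hee] at b1 b2
      exact Prod.ext (a1.trans b1.symm) (a2.trans b2.symm)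
    rw [← Finset.card_image_of_injOn hinj]
    have hp := prim_card (d := d) (N := N') hd hN'0 (fun p hp hh => hred p hp
      ⟨hh.1, hh.2.trans ⟨(e : ℤ) ^ 2, by rw [hN']; ring⟩⟩) Z
      ((S.filter (fun q : ℤ × ℤ => Int.gcd q.1 q.2 = e)).image f) ?_
    · refine hp.trans (Nat.mul_le_mul_left _ (Finset.card_le_card
        (Nat.divisors_subset_of_dvd (Int.natAbs_ne_zero.2 hN) ?_)))
      exact Int.natAbs_dvd_natAbs.2 ⟨(e : ℤ) ^ 2, by rw [hN']; ring⟩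
    · intro r hr
      obtain ⟨q, hq, rfl⟩ := Finset.mem_image.1 hr
      obtain ⟨a1, a2, a3⟩ := hf q hq
      rw [Finset.mem_filter] at hq
      obtain ⟨h, hX, hY⟩ := hS q hq.1
      have hle : ∀ z w : ℤ, w = e * z → w.natAbs ≤ Z → z.natAbs ≤ Z := by
        intro z w hw hwZ
        rw [hw, Int.natAbs_mul, Int.natAbs_natCast] at hwZ
        calc z.natAbs = 1 * z.natAbs := by ring
          _ ≤ e * z.natAbs := Nat.mul_le_mul_right _ (Nat.one_le_iff_ne_zero.2 he0)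
          _ ≤ Z := hwZ
      refine ⟨?_, a3, hle _ _ a1 hX, hle _ _ a2 hY⟩
      have : (e : ℤ) ^ 2 * ((f q).1 ^ 2 - d * (f q).2 ^ 2) = (e : ℤ) ^ 2 * N' := by
        rw [← hN', ← h]
        conv_rhs => rw [a1, a2]
        ring
      exact mul_left_cancel₀ (pow_ne_zero 2 he0') this

theorem all_card (n : ℕ) : ∀ d N : ℤ, N.natAbs ≤ n → d ≠ 0 → N ≠ 0 → ∀ (Z : ℕ)
    (S : Finset (ℤ × ℤ)),
    (∀ q ∈ S, q.1 ^ 2 - d * q.2 ^ 2 = N ∧ q.1.natAbs ≤ Z ∧ q.2.natAbs ≤ Z) →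
    S.card ≤ 25 * (Nat.log 2 ((4 * Z ^ 2) ^ 4) + 1) * N.natAbs.divisors.card *
      N.natAbs.divisors.card := by
  induction n with
  | zero =>
    intro d N hn hd hN
    exact absurd (Int.natAbs_eq_zero.1 (Nat.le_zero.1 hn)) hN
  | succ n ih =>
    intro d N hn hd hN Z S hS
    by_cases hred : ∀ p : ℕ, p.Prime → ¬ ((p : ℤ) ^ 2 ∣ d ∧ (p : ℤ) ^ 2 ∣ N)
    · exact red_card hd hN hred Z S hS
    · push Not at hred
      obtain ⟨p, hp, ⟨d', hd'⟩, ⟨N', hN'⟩⟩ := hred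
      have hp0 : (p : ℤ) ≠ 0 := by exact_mod_cast hp.ne_zero
      have hd'0 : d' ≠ 0 := by rintro rfl; apply hd; rw [hd']; ring
      have hN'0 : N' ≠ 0 := by rintro rfl; apply hN; rw [hN']; ring
      have key : ∀ q ∈ S, ∃ x : ℤ, q.1 = p * x := by
        intro q hq
        obtain ⟨h, -, -⟩ := hS q hq
        have h1 : (p : ℤ) ^ 2 ∣ q.1 ^ 2 := by
          refine ⟨N' + d' * q.2 ^ 2, ?_⟩
          linear_combination h + hN' + q.2 ^ 2 * hd'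
        exact (Int.pow_dvd_pow_iff (by norm_num)).1 h1
      choose! f hf using key
      have hinj : Set.InjOn (fun q : ℤ × ℤ => (f q, q.2)) (S : Set (ℤ × ℤ)) := by
        intro q hq q' hq' hee
        simp only [Prod.mk.injEq] at hee
        have h1 := hf q hq
        rw [hee.1, ← hf q' hq'] at h1
        exact Prod.ext h1 hee.2
      classical
      rw [← Finset.card_image_of_injOn hinj]
      have hnat : N.natAbs = p ^ 2 * N'.natAbs := by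
        rw [hN', Int.natAbs_mul, Int.natAbs_pow, Int.natAbs_natCast]
      have hlt : N'.natAbs ≤ n := by
        have h1 : 1 ≤ N'.natAbs := Int.natAbs_pos.2 hN'0
        have h2 : 4 ≤ p ^ 2 := by nlinarith [hp.two_le]
        nlinarith
      have hp2 := ih d' N' hlt hd'0 hN'0 Z (S.image (fun q : ℤ × ℤ => (f q, q.2))) ?_
      · have hsub : N'.natAbs.divisors.card ≤ N.natAbs.divisors.card :=
          Finset.card_le_card (Nat.divisors_subset_of_dvd (Int.natAbs_ne_zero.2 hN)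
            ⟨p ^ 2, by rw [hnat]; ring⟩)
        exact hp2.trans (Nat.mul_le_mul (Nat.mul_le_mul_left _ hsub) hsub)
      · intro r hr
        obtain ⟨q, hq, rfl⟩ := Finset.mem_image.1 hr
        obtain ⟨h, hX, hY⟩ := hS q hq
        have h1 := hf q hq
        refine ⟨?_, ?_, hY⟩
        · have : (p : ℤ) ^ 2 * (f q ^ 2 - d' * q.2 ^ 2) = (p : ℤ) ^ 2 * N' := by
            rw [← hN', ← h, hd']
            conv_rhs => rw [h1]
            ring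
          exact mul_left_cancel₀ (pow_ne_zero 2 hp0) this
        · rw [h1, Int.natAbs_mul, Int.natAbs_natCast] at hX
          calc (f q).natAbs = 1 * (f q).natAbs := by ring
            _ ≤ p * (f q).natAbs := Nat.mul_le_mul_right _ hp.one_le
            _ ≤ Z := hX

theorem log_bound (δ : ℝ) (hδ : 0 < δ) (Z : ℝ) (hZ : 1 ≤ Z) :
    ((25 * (Nat.log 2 ((4 * ⌊Z⌋₊ ^ 2) ^ 4) + 1) : ℕ) : ℝ) ≤ (225 + 400 / δ) * Z ^ δ := by
  have hZ0 : (0 : ℝ) < Z := by linarith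
  have hf1 : 1 ≤ ⌊Z⌋₊ := Nat.le_floor (by exact_mod_cast hZ)
  have hfl : (⌊Z⌋₊ : ℝ) ≤ Z := Nat.floor_le hZ0.le
  have hm : ((4 * ⌊Z⌋₊ ^ 2) ^ 4 : ℕ) ≠ 0 := by positivity
  have h1 : ((2 ^ Nat.log 2 ((4 * ⌊Z⌋₊ ^ 2) ^ 4) : ℕ) : ℝ) ≤ (((4 * ⌊Z⌋₊ ^ 2) ^ 4 : ℕ) : ℝ) := by
    exact_mod_cast Nat.pow_log_le_self 2 hm
  have h2 : (Nat.log 2 ((4 * ⌊Z⌋₊ ^ 2) ^ 4) : ℝ) * Real.log 2 ≤ 8 * Real.log 2 + 8 * Real.log Z := by
    have h3 := Real.log_le_log (by positivity) h1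
    push_cast at h3
    rw [Real.log_pow, Real.log_pow] at h3
    have h4 : Real.log (4 * (⌊Z⌋₊ : ℝ) ^ 2) ≤ 2 * Real.log 2 + 2 * Real.log Z := by
      rw [Real.log_mul (by norm_num) (by positivity), Real.log_pow,
        show (4 : ℝ) = 2 ^ 2 by norm_num, Real.log_pow]
      push_cast
      have : Real.log (⌊Z⌋₊ : ℝ) ≤ Real.log Z :=
        Real.log_le_log (by exact_mod_cast hf1) hfl
      linarith
    push_cast at h3
    linarith
  have hl2 : (1 / 2 : ℝ) ≤ Real.log 2 := by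
    have := Real.log_two_gt_d9
    linarith
  have hlZ : Real.log Z ≤ Z ^ δ / δ := Real.log_le_rpow_div hZ0.le hδ
  have hlZ0 : 0 ≤ Real.log Z := Real.log_nonneg hZ
  have h5 : (Nat.log 2 ((4 * ⌊Z⌋₊ ^ 2) ^ 4) : ℝ) ≤ 8 + 16 * Real.log Z := by
    have hl0 : 0 < Real.log 2 := by linarith
    have : (Nat.log 2 ((4 * ⌊Z⌋₊ ^ 2) ^ 4) : ℝ) * Real.log 2 ≤
        (8 + 16 * Real.log Z) * Real.log 2 := by nlinarith
    exact le_of_mul_le_mul_right this hl0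
  have hZd : 1 ≤ Z ^ δ := Real.one_le_rpow hZ hδ.le
  push_cast
  have h6 : (225 + 400 / δ) * Z ^ δ = 225 * Z ^ δ + 400 * (Z ^ δ / δ) := by ring
  rw [h6]
  nlinarith

/-- **The Pell lemma**: for `d ≠ 0`, `0 < |N| ≤ Z` the equation `X² - d Y² = N` has at most
`C Z^ε` solutions with `|X|, |Y| ≤ Z`. -/
theorem pell_card (ε : ℝ) (hε : 0 < ε) : ∃ C : ℝ, 1 ≤ C ∧ ∀ Z : ℝ, 1 ≤ Z → ∀ d N : ℤ, d ≠ 0 →
    N ≠ 0 → |(N : ℝ)| ≤ Z → ∀ S : Finset (ℤ × ℤ),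
    (∀ q ∈ S, q.1 ^ 2 - d * q.2 ^ 2 = N ∧ |(q.1 : ℝ)| ≤ Z ∧ |(q.2 : ℝ)| ≤ Z) →
    (S.card : ℝ) ≤ C * Z ^ ε := by
  obtain ⟨C1, hC1, hdiv⟩ := Pool.Agent.Lib.MP_640417_ag.All.divisor_bound (ε / 3) (by positivity)
  refine ⟨max 1 ((225 + 400 / (ε / 3)) * C1 * C1), le_max_left _ _, ?_⟩
  intro Z hZ d N hd hN hNZ S hS
  have hZ0 : (0 : ℝ) < Z := by linarith
  have hfl : ∀ z : ℤ, |(z : ℝ)| ≤ Z → z.natAbs ≤ ⌊Z⌋₊ := by
    intro z hz
    apply Nat.le_floor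
    rw [Nat.cast_natAbs, Int.cast_abs]
    exact hz
  have h1 := all_card N.natAbs d N le_rfl hd hN ⌊Z⌋₊ S
    (fun q hq => ⟨(hS q hq).1, hfl _ (hS q hq).2.1, hfl _ (hS q hq).2.2⟩)
  have h2 : (N.natAbs.divisors.card : ℝ) ≤ C1 * Z ^ (ε / 3) := by
    refine (hdiv N.natAbs (Int.natAbs_pos.2 hN)).trans ?_
    apply mul_le_mul_of_nonneg_left _ hC1.le
    apply Real.rpow_le_rpow (by positivity) _ (by positivity)
    rw [Nat.cast_natAbs, Int.cast_abs]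
    exact hNZ
  have h3 := log_bound (ε / 3) (by positivity) Z hZ
  have h4 : (S.card : ℝ) ≤ ((225 + 400 / (ε / 3)) * Z ^ (ε / 3)) * (C1 * Z ^ (ε / 3)) *
      (C1 * Z ^ (ε / 3)) := by
    calc (S.card : ℝ) ≤ ((25 * (Nat.log 2 ((4 * ⌊Z⌋₊ ^ 2) ^ 4) + 1) * N.natAbs.divisors.card *
          N.natAbs.divisors.card : ℕ) : ℝ) := by exact_mod_cast h1
      _ = ((25 * (Nat.log 2 ((4 * ⌊Z⌋₊ ^ 2) ^ 4) + 1) : ℕ) : ℝ) *
          (N.natAbs.divisors.card : ℝ) * (N.natAbs.divisors.card : ℝ) := by push_cast; ring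
      _ ≤ _ := by gcongr
  have h5 : ((225 + 400 / (ε / 3)) * Z ^ (ε / 3)) * (C1 * Z ^ (ε / 3)) * (C1 * Z ^ (ε / 3)) =
      ((225 + 400 / (ε / 3)) * C1 * C1) * Z ^ ε := by
    have : Z ^ ε = Z ^ (ε / 3) * Z ^ (ε / 3) * Z ^ (ε / 3) := by
      rw [← Real.rpow_add hZ0, ← Real.rpow_add hZ0]
      congr 1; ring
    rw [this]; ring
  rw [h5] at h4
  exact h4.trans (mul_le_mul_of_nonneg_right (le_max_right _ _) (by positivity))

/-- **Squares on a line**: `a t² + b t + c` with `a ≠ 0`, `b² - 4 a c ≠ 0`, `|a|, |b|, |c| ≤ Z`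
is a square for at most `C Z^ε` integers `|t| ≤ Z`. -/
theorem line_card (ε : ℝ) (hε : 0 < ε) : ∃ C : ℝ, 1 ≤ C ∧ ∀ Z : ℝ, 1 ≤ Z → ∀ a b c : ℤ, a ≠ 0 →
    b ^ 2 - 4 * a * c ≠ 0 → |(a : ℝ)| ≤ Z → |(b : ℝ)| ≤ Z → |(c : ℝ)| ≤ Z → ∀ S : Finset ℤ,
    (∀ t ∈ S, |(t : ℝ)| ≤ Z ∧ IsSquare (a * t ^ 2 + b * t + c)) →
    (S.card : ℝ) ≤ C * Z ^ ε := by
  obtain ⟨C, hC, hpell⟩ := pell_card (ε / 3) (by positivity)
  refine ⟨C * 5 ^ (ε / 3), ?_, ?_⟩
  · have : (1 : ℝ) ≤ 5 ^ (ε / 3) := Real.one_le_rpow (by norm_num) (by positivity)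
    nlinarith
  intro Z hZ a b c ha hN haZ hbZ hcZ S hS
  have hZ0 : (0 : ℝ) < Z := by linarith
  have hZ2 : Z ≤ Z ^ 2 := by nlinarith
  have hZ3 : Z ^ 2 ≤ Z ^ 3 := by nlinarith [sq_nonneg Z]
  choose! n hn using (fun t (ht : t ∈ S) => (hS t ht).2)
  have hinj : Set.InjOn (fun t : ℤ => (2 * a * t + b, n t)) (S : Set ℤ) := by
    intro t _ t' _ h
    simp only [Prod.mk.injEq] at h
    have h1 : (2 * a) * (t - t') = 0 := by linarith [h.1]
    rcases mul_eq_zero.1 h1 with h2 | h2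
    · exact absurd h2 (mul_ne_zero (by norm_num) ha)
    · linarith
  rw [← Finset.card_image_of_injOn hinj]
  have h1 := hpell (5 * Z ^ 3) (by nlinarith) (4 * a) (b ^ 2 - 4 * a * c)
    (mul_ne_zero (by norm_num) ha) hN ?_ (S.image (fun t : ℤ => (2 * a * t + b, n t))) ?_
  · refine h1.trans (le_of_eq ?_)
    rw [Real.mul_rpow (by norm_num) (by positivity), ← Real.rpow_natCast Z 3,
      ← Real.rpow_mul hZ0.le]
    have : ((3 : ℕ) : ℝ) * (ε / 3) = ε := by push_cast; ring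
    rw [this]; ring
  · push_cast
    rw [abs_le] at haZ hbZ hcZ ⊢
    constructor <;> nlinarith [mul_self_nonneg (b : ℝ), mul_self_nonneg Z]
  · intro q hq
    obtain ⟨t, ht, rfl⟩ := Finset.mem_image.1 hq
    have hnt := hn t ht
    obtain ⟨htZ, -⟩ := hS t ht
    refine ⟨?_, ?_, ?_⟩
    · simp only
      linear_combination (4 * a) * hnt
    · push_cast
      calc |2 * (a : ℝ) * t + b| ≤ |2 * (a : ℝ) * t| + |(b : ℝ)| := abs_add_le _ _
        _ = 2 * (|(a : ℝ)| * |(t : ℝ)|) + |(b : ℝ)| := by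
            rw [abs_mul, abs_mul, abs_two]; ring
        _ ≤ 2 * (Z * Z) + Z := by
            have := mul_le_mul haZ htZ (abs_nonneg _) hZ0.le
            linarith
        _ ≤ 5 * Z ^ 3 := by nlinarith
    · have h2 : (n t : ℝ) * (n t : ℝ) = a * (t : ℝ) ^ 2 + b * t + c := by
        exact_mod_cast hnt.symm
      have h3 : |(n t : ℝ)| * |(n t : ℝ)| ≤ 3 * Z ^ 3 := by
        rw [← abs_mul, h2]
        calc |(a : ℝ) * (t : ℝ) ^ 2 + b * t + c|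
            ≤ |(a : ℝ) * (t : ℝ) ^ 2| + |(b : ℝ) * t| + |(c : ℝ)| :=
              (abs_add_le _ _).trans (add_le_add_left (abs_add_le _ _) _)
          _ = |(a : ℝ)| * |(t : ℝ)| ^ 2 + |(b : ℝ)| * |(t : ℝ)| + |(c : ℝ)| := by
              rw [abs_mul, abs_mul, abs_pow]
          _ ≤ Z * Z ^ 2 + Z * Z + Z := by gcongr
          _ ≤ 3 * Z ^ 3 := by nlinarith
      by_contra hc
      push Not at hc
      nlinarith [abs_nonneg (n t : ℝ)]

/-- squares on a line, the case of a non-square leading coefficient -/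
theorem line_card_nonsq (ε : ℝ) (hε : 0 < ε) : ∃ C : ℝ, 1 ≤ C ∧ ∀ Z : ℝ, 1 ≤ Z → ∀ a b c : ℤ,
    a ≠ 0 → (b ^ 2 - 4 * a * c ≠ 0 ∨ ¬ IsSquare a) → |(a : ℝ)| ≤ Z → |(b : ℝ)| ≤ Z →
    |(c : ℝ)| ≤ Z → ∀ S : Finset ℤ,
    (∀ t ∈ S, |(t : ℝ)| ≤ Z ∧ IsSquare (a * t ^ 2 + b * t + c)) →
    (S.card : ℝ) ≤ C * Z ^ ε := by
  obtain ⟨C, hC, hline⟩ := line_card ε hε
  refine ⟨C, hC, ?_⟩
  intro Z hZ a b c ha hN haZ hbZ hcZ S hS
  by_cases hN0 : b ^ 2 - 4 * a * c = 0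
  · have hns : ¬ IsSquare a := by
      rcases hN with h | h
      · exact absurd hN0 h
      · exact h
    have hone : S.card ≤ 1 := by
      rw [Finset.card_le_one]
      have key : ∀ t ∈ S, 2 * a * t + b = 0 := by
        intro t ht
        obtain ⟨n, hn⟩ := (hS t ht).2
        by_contra hne
        have h1 : (2 * a * t + b) ^ 2 = a * (2 * n) ^ 2 := by
          linear_combination hN0 + 4 * a * hn
        have hn0 : (2 * n) ≠ 0 := by
          intro h0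
          rw [h0] at h1
          apply hne
          exact pow_eq_zero_iff (two_ne_zero) |>.1 (by rw [h1]; ring)
        have hdv : (2 * n) ^ 2 ∣ (2 * a * t + b) ^ 2 := ⟨a, by rw [h1]; ring⟩
        rw [Int.pow_dvd_pow_iff (by norm_num)] at hdv
        obtain ⟨r, hr⟩ := hdv
        apply hns
        refine ⟨r, ?_⟩
        have h2 : (2 * n) ^ 2 * a = (2 * n) ^ 2 * (r * r) := by
          rw [hr] at h1
          linear_combination -h1
        exact mul_left_cancel₀ (pow_ne_zero 2 hn0) h2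
      intro t ht t' ht'
      have h1 := key t ht
      have h2 := key t' ht'
      have h3 : (2 * a) * (t - t') = 0 := by linarith
      rcases mul_eq_zero.1 h3 with h4 | h4
      · exact absurd h4 (mul_ne_zero (by norm_num) ha)
      · linarith
    have h1 : (1 : ℝ) ≤ Z ^ ε := Real.one_le_rpow hZ hε.le
    have h2 : (S.card : ℝ) ≤ 1 := by exact_mod_cast hone
    nlinarith
  · exact hline Z hZ a b c ha hN0 haZ hbZ hcZ S hS

/-- the mixed determinant of two matrices -/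
def mixd (s r : Matrix (Fin 2) (Fin 2) ℤ) : ℤ :=
  s 0 0 * r 1 1 + s 1 1 * r 0 0 - s 0 1 * r 1 0 - s 1 0 * r 0 1

theorem det_line (s r : Matrix (Fin 2) (Fin 2) ℤ) (t : ℤ) :
    (s + t • r).det = r.det * t ^ 2 + mixd s r * t + s.det := by
  simp only [Matrix.det_fin_two, Matrix.add_apply, Matrix.smul_apply, smul_eq_mul, mixd]
  ring

/-- **Square determinants on a line of matrices.** -/
theorem mat_card (ε : ℝ) (hε : 0 < ε) : ∃ C : ℝ, 1 ≤ C ∧ ∀ Z : ℝ, 1 ≤ Z →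
    ∀ s r : Matrix (Fin 2) (Fin 2) ℤ, r.det ≠ 0 →
    (mixd s r ^ 2 - 4 * r.det * s.det ≠ 0 ∨ ¬ IsSquare r.det) →
    |(r.det : ℝ)| ≤ Z → |(mixd s r : ℝ)| ≤ Z → |(s.det : ℝ)| ≤ Z → ∀ S : Finset ℤ,
    (∀ t ∈ S, |(t : ℝ)| ≤ Z ∧ IsSquare (s + t • r).det) →
    (S.card : ℝ) ≤ C * Z ^ ε := by
  obtain ⟨C, hC, h⟩ := line_card_nonsq ε hε
  refine ⟨C, hC, fun Z hZ s r h1 h2 h3 h4 h5 S hS => h Z hZ _ _ _ h1 h2 h3 h4 h5 S ?_⟩
  intro t ht
  refine ⟨(hS t ht).1, ?_⟩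
  rw [← det_line]
  exact (hS t ht).2

end Pool.Agent.A54.HSBd
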