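import Pool.Agent.Lib.HS.Bd.SpecFlip

/-! PROJECT H* (MP_a54f13_nt), flip lemma, module FPck: packing in rank two. -/

set_option autoImplicit false

namespace HSL.Flp

open HSL Matrix

namespace FPckAux

theorem nm_left {A : Type*} [CommRing A] (g u v t : Matrix (Fin 2) (Fin 2) A) :
    nm (g * u) (g * v) (g * t) = g.det • (g * nm u v t) := by
  ext i j
  fin_cases i <;> fin_cases j <;>
    simp [nm, dt3, Matrix.mul_apply, Fin.sum_univ_two, Matrix.det_fin_two, Matrix.vecMul, dotProduct,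
      Matrix.vecHead, Matrix.vecTail] <;> ring

theorem nm_right {A : Type*} [CommRing A] (g u v t : Matrix (Fin 2) (Fin 2) A) :
    nm (u * g) (v * g) (t * g) = g.det • (nm u v t * g) := by
  ext i j
  fin_cases i <;> fin_cases j <;>
    simp [nm, dt3, Matrix.mul_apply, Fin.sum_univ_two, Matrix.det_fin_two, Matrix.vecMul, dotProduct,
      Matrix.vecHead, Matrix.vecTail] <;> ring

theorem nm_toR (u v t : MZ) : nm (toR u) (toR v) (toR t) = toR (nm u v t) := by
  ext i j
  fin_cases i <;> fin_cases j <;> simp [nm, dt3, toR]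

theorem nm_fr {a b : MR} {u v t : MZ} (h : nm u v t = 0) : nm (fr a b u) (fr a b v) (fr a b t) = 0 := by
  have h0 : nm (toR u) (toR v) (toR t) = 0 := by
    rw [nm_toR, h]
    ext i j
    simp [toR]
  unfold fr
  rw [nm_right, nm_left, h0]
  simp

theorem fr_sub (a b : MR) (u v : MZ) : fr a b (u - v) = fr a b u - fr a b v := by
  have h0 : toR (u - v) = toR u - toR v := by
    ext i j
    simp [toR]
  unfold fr
  rw [h0, Matrix.mul_sub, Matrix.sub_mul]

/-- the four entries of a real matrix -/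
def en (A : MR) : Fin 4 → ℝ := ![A 0 0, A 1 1, A 0 1, A 1 0]

/-- the scaled entries -/
noncomputable def xx (w : ℝ) (a b : MR) (u : MZ) : Fin 4 → ℝ :=
  fun k => (![1, 1, w⁻¹, w⁻¹] : Fin 4 → ℝ) k * en (fr a b u) k

theorem xx_sub (w : ℝ) (a b : MR) (u v : MZ) (k : Fin 4) :
    xx w a b (u - v) k = xx w a b u k - xx w a b v k := by
  unfold xx
  rw [fr_sub]
  fin_cases k <;> simp [en] <;> ring

/-- all minors of the entries vanish -/
theorem en_minor {A B C : MR} (h : nm A B C = 0) (i j k : Fin 4) :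
    dt3 (en A i) (en A j) (en A k) (en B i) (en B j) (en B k) (en C i) (en C j) (en C k) = 0 := by
  have h1 := congrFun (congrFun h 0) 0
  have h2 := congrFun (congrFun h 0) 1
  have h3 := congrFun (congrFun h 1) 0
  have h4 := congrFun (congrFun h 1) 1
  simp only [nm, Matrix.of_apply, Matrix.cons_val', Matrix.cons_val_zero, Matrix.cons_val_one,
    Matrix.zero_apply, Matrix.cons_val_fin_one, dt3] at h1 h2 h3 h4
  fin_cases i <;> fin_cases j <;> fin_cases k <;>
    simp only [en, dt3, Fin.zero_eta, Fin.mk_one, Fin.reduceFinMk, Matrix.cons_val_zero,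
      Matrix.cons_val_one, Matrix.cons_val] <;>
    first
      | ring1
      | linear_combination h1
      | linear_combination -h1
      | linear_combination h2
      | linear_combination -h2
      | linear_combination h3
      | linear_combination -h3
      | linear_combination h4
      | linear_combination -h4

theorem xx_minor {w : ℝ} {a b : MR} {u v t : MZ} (h : nm u v t = 0) (i j k : Fin 4) :
    dt3 (xx w a b u i) (xx w a b u j) (xx w a b u k) (xx w a b v i) (xx w a b v j) (xx w a b v k)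
      (xx w a b t i) (xx w a b t j) (xx w a b t k) = 0 := by
  have h1 := en_minor (nm_fr (a := a) (b := b) h) i j k
  have h2 : dt3 (xx w a b u i) (xx w a b u j) (xx w a b u k) (xx w a b v i) (xx w a b v j) (xx w a b v k)
      (xx w a b t i) (xx w a b t j) (xx w a b t k) =
      (![1, 1, w⁻¹, w⁻¹] : Fin 4 → ℝ) i * (![1, 1, w⁻¹, w⁻¹] : Fin 4 → ℝ) j *
        (![1, 1, w⁻¹, w⁻¹] : Fin 4 → ℝ) k *
      dt3 (en (fr a b u) i) (en (fr a b u) j) (en (fr a b u) k)
        (en (fr a b v) i) (en (fr a b v) j) (en (fr a b v) k)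
        (en (fr a b t) i) (en (fr a b t) j) (en (fr a b t) k) := by
    unfold xx dt3
    ring
  rw [h2, h1, mul_zero]

/-- the two controlling coordinates -/
theorem claim {α : Type*} (U : Finset α) (x : α → Fin 4 → ℝ)
    (h : ∀ u ∈ U, ∀ v ∈ U, ∀ t ∈ U, ∀ i j k : Fin 4,
      dt3 (x u i) (x u j) (x u k) (x v i) (x v j) (x v k) (x t i) (x t j) (x t k) = 0) :
    ∃ i j : Fin 4, ∀ u ∈ U, ∀ v ∈ U, ∀ k, |x u k - x v k| ≤ |x u i - x v i| + |x u j - x v j| := by
  classical
  rcases U.eq_empty_or_nonempty with hU | hU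
  · subst hU
    exact ⟨0, 0, by simp⟩
  by_cases h2 : ∃ u0 ∈ U, ∃ v0 ∈ U, ∃ i j : Fin 4, x u0 i * x v0 j - x u0 j * x v0 i ≠ 0
  · obtain ⟨u1, hu1, v1, hv1, i1, j1, hne⟩ := h2
    obtain ⟨p, hp, hmax⟩ := Finset.exists_max_image
      ((U ×ˢ U) ×ˢ (Finset.univ : Finset (Fin 4 × Fin 4)))
      (fun p => |x p.1.1 p.2.1 * x p.1.2 p.2.2 - x p.1.1 p.2.2 * x p.1.2 p.2.1|)
      ⟨((u1, v1), (i1, j1)), by simp [hu1, hv1]⟩
    obtain ⟨⟨u0, v0⟩, ⟨i, j⟩⟩ := p
    have hp' : u0 ∈ U ∧ v0 ∈ U := by simpa using hp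
    have hm : ∀ k l : Fin 4, |x u0 k * x v0 l - x u0 l * x v0 k| ≤
        |x u0 i * x v0 j - x u0 j * x v0 i| := by
      intro k l
      exact hmax ((u0, v0), (k, l)) (by simp [hp'.1, hp'.2])
    have hpos : 0 < |x u0 i * x v0 j - x u0 j * x v0 i| := by
      have h3 := hmax ((u1, v1), (i1, j1)) (by simp [hu1, hv1])
      exact lt_of_lt_of_le (abs_pos.mpr hne) h3
    refine ⟨i, j, fun u hu v hv k => ?_⟩
    have e1 := h u hu u0 hp'.1 v0 hp'.2 k i j
    have e2 := h v hv u0 hp'.1 v0 hp'.2 k i j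
    unfold dt3 at e1 e2
    have e3 : (x u k - x v k) * (x u0 i * x v0 j - x u0 j * x v0 i) =
        (x u i - x v i) * (x u0 k * x v0 j - x u0 j * x v0 k) +
        (x u j - x v j) * (x u0 i * x v0 k - x u0 k * x v0 i) := by
      linear_combination e1 - e2
    have e4 : |x u k - x v k| * |x u0 i * x v0 j - x u0 j * x v0 i| ≤
        (|x u i - x v i| + |x u j - x v j|) * |x u0 i * x v0 j - x u0 j * x v0 i| := by
      rw [← abs_mul, e3]
      calc |(x u i - x v i) * (x u0 k * x v0 j - x u0 j * x v0 k) +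
          (x u j - x v j) * (x u0 i * x v0 k - x u0 k * x v0 i)|
          ≤ |x u i - x v i| * |x u0 k * x v0 j - x u0 j * x v0 k| +
            |x u j - x v j| * |x u0 i * x v0 k - x u0 k * x v0 i| := by
            rw [← abs_mul, ← abs_mul]
            exact abs_add_le _ _
        _ ≤ |x u i - x v i| * |x u0 i * x v0 j - x u0 j * x v0 i| +
            |x u j - x v j| * |x u0 i * x v0 j - x u0 j * x v0 i| :=
            add_le_add (mul_le_mul_of_nonneg_left (hm k j) (abs_nonneg _))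
              (mul_le_mul_of_nonneg_left (hm i k) (abs_nonneg _))
        _ = _ := by ring
    exact le_of_mul_le_mul_right e4 hpos
  · push Not at h2
    obtain ⟨p, hp, hmax⟩ := Finset.exists_max_image
      (U ×ˢ (Finset.univ : Finset (Fin 4))) (fun p => |x p.1 p.2|)
      ⟨(hU.choose, 0), by simp [hU.choose_spec]⟩
    obtain ⟨u0, i⟩ := p
    have hu0 : u0 ∈ U := by simpa using hp
    refine ⟨i, i, fun u hu v hv k => ?_⟩
    have hb : ∀ v ∈ U, ∀ l, |x v l| ≤ |x u0 i| := fun v hv l => hmax (v, l) (by simp [hv])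
    rcases eq_or_ne (x u0 i) 0 with h0 | h0
    · have h1 : ∀ v ∈ U, ∀ l, x v l = 0 := by
        intro v hv l
        have h3 := hb v hv l
        rw [h0, abs_zero] at h3
        exact abs_nonpos_iff.mp h3
      rw [h1 u hu k, h1 v hv k, h1 u hu i, h1 v hv i]
      simp
    · have hpos : 0 < |x u0 i| := abs_pos.mpr h0
      have e1 := h2 u hu u0 hu0 k i
      have e2 := h2 v hv u0 hu0 k i
      have e3 : (x u k - x v k) * x u0 i = (x u i - x v i) * x u0 k := by
        linear_combination e1 - e2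
      have e4 : |x u k - x v k| * |x u0 i| ≤ |x u i - x v i| * |x u0 i| := by
        rw [← abs_mul, e3, abs_mul]
        exact mul_le_mul_of_nonneg_left (hb u0 hu0 k) (abs_nonneg _)
      have e5 := le_of_mul_le_mul_right e4 hpos
      have e6 := abs_nonneg (x u i - x v i)
      linarith

theorem floor_mem {M z : ℝ} (hz : |z| ≤ M) : ⌊z⌋ ∈ Finset.Icc ⌊-M⌋ ⌊M⌋ := by
  rw [Finset.mem_Icc]
  rw [abs_le] at hz
  exact ⟨Int.floor_le_floor hz.1, Int.floor_le_floor hz.2⟩

theorem card_Icc_le {M : ℝ} (hM : 0 ≤ M) : ((Finset.Icc ⌊-M⌋ ⌊M⌋).card : ℝ) ≤ 2 * M + 2 := by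
  rw [Int.card_Icc]
  have h1 : ⌊-M⌋ ≤ ⌊M⌋ := Int.floor_le_floor (by linarith)
  have h2 : ((⌊M⌋ + 1 - ⌊-M⌋).toNat : ℝ) = ((⌊M⌋ + 1 - ⌊-M⌋ : ℤ) : ℝ) := by
    have h3 : ((⌊M⌋ + 1 - ⌊-M⌋).toNat : ℤ) = ⌊M⌋ + 1 - ⌊-M⌋ := Int.toNat_of_nonneg (by omega)
    exact_mod_cast h3
  rw [h2]
  push_cast
  have h4 := Int.floor_le M
  have h5 := Int.lt_floor_add_one (-M)
  linarith

theorem floor_eq_lt {y z : ℝ} (h : ⌊y⌋ = ⌊z⌋) : |y - z| < 1 := by
  have h1 := Int.floor_le y
  have h2 := Int.lt_floor_add_one y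
  have h3 := Int.floor_le z
  have h4 := Int.lt_floor_add_one z
  rw [h] at h1 h2
  rw [abs_lt]
  constructor <;> linarith

end FPckAux

open FPckAux

theorem tPck : S_Pck := by
  classical
  intro a b w Y lam U _ _ hw hlam hlY hU hnm hne
  obtain ⟨i, j, hij⟩ := claim U (xx w a b)
    (fun u hu v hv t ht i j k => xx_minor (hnm u hu v hv t ht) i j k)
  have hY : 0 < Y := lt_of_lt_of_le hlam hlY
  -- bounds
  have hbd : ∀ u ∈ U, ∀ k, |xx w a b u k| ≤ Y := by
    intro u hu k
    obtain ⟨h1, h2, h3, h4⟩ := hU u hu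
    have hoff : ∀ z : ℝ, |z| ≤ w * Y → |w⁻¹ * z| ≤ Y := by
      intro z hz
      rw [abs_mul, abs_of_pos (inv_pos.mpr hw)]
      calc w⁻¹ * |z| ≤ w⁻¹ * (w * Y) := mul_le_mul_of_nonneg_left hz (inv_pos.mpr hw).le
        _ = Y := by field_simp
    fin_cases k
    · simpa [xx, en] using h1
    · simpa [xx, en] using h2
    · have := hoff _ h3
      simpa [xx, en] using this
    · have := hoff _ h4
      simpa [xx, en] using this
  -- the map
  set M : ℝ := 2 * Y / lam with hM
  have hM0 : 0 ≤ M := by positivity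
  have hmaps : Set.MapsTo (fun u => (⌊2 * xx w a b u i / lam⌋, ⌊2 * xx w a b u j / lam⌋)) (U : Set MZ)
      ((Finset.Icc ⌊-M⌋ ⌊M⌋ ×ˢ Finset.Icc ⌊-M⌋ ⌊M⌋ : Finset (ℤ × ℤ)) : Set (ℤ × ℤ)) := by
    intro u hu
    have hb : ∀ k, |2 * xx w a b u k / lam| ≤ M := by
      intro k
      rw [abs_div, abs_mul, abs_of_pos hlam, abs_of_pos (by norm_num : (0 : ℝ) < 2), hM]
      have := hbd u hu k
      gcongr
    rw [Finset.mem_coe, Finset.mem_product]
    exact ⟨floor_mem (hb i), floor_mem (hb j)⟩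
  have hinj : Set.InjOn (fun u => (⌊2 * xx w a b u i / lam⌋, ⌊2 * xx w a b u j / lam⌋)) (U : Set MZ) := by
    intro u hu v hv huv
    have huv' := Prod.mk.inj huv
    have hclose : ∀ k, ⌊2 * xx w a b u k / lam⌋ = ⌊2 * xx w a b v k / lam⌋ →
        |xx w a b u k - xx w a b v k| < lam / 2 := by
      intro k hk
      have h1 := floor_eq_lt hk
      have h2 : 2 * xx w a b u k / lam - 2 * xx w a b v k / lam =
          (2 / lam) * (xx w a b u k - xx w a b v k) := by ring
      rw [h2, abs_mul, abs_of_pos (by positivity : (0 : ℝ) < 2 / lam)] at h1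
      have h3 : 2 / lam * |xx w a b u k - xx w a b v k| * (lam / 2) < 1 * (lam / 2) :=
        mul_lt_mul_of_pos_right h1 (by positivity)
      have h4 : 2 / lam * |xx w a b u k - xx w a b v k| * (lam / 2) = |xx w a b u k - xx w a b v k| := by
        field_simp
      rw [h4, one_mul] at h3
      exact h3
    have hi := hclose i huv'.1
    have hj := hclose j huv'.2
    have hall : ∀ k, |xx w a b (u - v) k| < lam := by
      intro k
      rw [xx_sub]
      have := hij u hu v hv k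
      linarith
    by_contra hcon
    apply hne (u - v) (sub_ne_zero.mpr hcon)
    have hoff : ∀ z : ℝ, |w⁻¹ * z| < lam → |z| ≤ w * lam := by
      intro z hz
      rw [abs_mul, abs_of_pos (inv_pos.mpr hw)] at hz
      have h5 : w * (w⁻¹ * |z|) ≤ w * lam := mul_le_mul_of_nonneg_left hz.le hw.le
      have h6 : w * (w⁻¹ * |z|) = |z| := by field_simp
      rw [h6] at h5
      exact h5
    refine ⟨?_, ?_, ?_, ?_⟩
    · have := hall 0
      simp only [xx, en, Matrix.cons_val_zero, one_mul] at this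
      exact this.le
    · have := hall 1
      simp only [xx, en, Matrix.cons_val_one, one_mul, Matrix.cons_val_zero] at this
      exact this.le
    · apply hoff
      have := hall 2
      simpa [xx, en] using this
    · apply hoff
      have := hall 3
      simpa [xx, en] using this
  have hcard := Finset.card_le_card_of_injOn _ hmaps hinj
  rw [Finset.card_product] at hcard
  have hcardR : (U.card : ℝ) ≤ ((Finset.Icc ⌊-M⌋ ⌊M⌋).card : ℝ) * ((Finset.Icc ⌊-M⌋ ⌊M⌋).card : ℝ) := by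
    exact_mod_cast hcard
  have hc := card_Icc_le hM0
  have h1 : 1 ≤ Y / lam := by
    rw [le_div_iff₀ hlam]
    linarith
  have h2 : 2 * M + 2 ≤ 6 * (Y / lam) := by
    have : 2 * M = 4 * (Y / lam) := by
      rw [hM]
      ring
    linarith
  calc (U.card : ℝ) ≤ ((Finset.Icc ⌊-M⌋ ⌊M⌋).card : ℝ) * ((Finset.Icc ⌊-M⌋ ⌊M⌋).card : ℝ) := hcardR
    _ ≤ (6 * (Y / lam)) * (6 * (Y / lam)) := by
        have h3 := hc.trans h2
        have h4 : (0 : ℝ) ≤ ((Finset.Icc ⌊-M⌋ ⌊M⌋).card : ℝ) := Nat.cast_nonneg _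
        exact mul_le_mul h3 h3 h4 (by linarith)
    _ = 36 * (Y / lam) ^ 2 := by ring

end HSL.Flp
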