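import Pool.Agent.Lib.HS.L.Mult

/-!
# HS/Bd: packing and content counts for integral matrices in a small box (helper84)

`gv w a b u`: the four coordinates of the frame of `u` (diagonal, off-diagonal over `w`), `gg` its sup norm (gauge).
* `card_sep`: separated points in a ball.
* `box_rank`: integral matrices of gauge at most `T`, `24 R^2 w T^3 < 1`, lie in a space of dimension at most two.
* `card_box`, `sum_content`: their number and the sum of their contents.
* `rdiv`: number of classes of right divisors.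
-/

set_option autoImplicit false

namespace Pool.Agent.A54.HSBd

open Matrix HSL MeasureTheory Metric Module
open scoped ENNReal

noncomputable section

/-! ### Separated points -/

theorem card_sep {E : Type} [NormedAddCommGroup E] [NormedSpace ℝ E] [FiniteDimensional ℝ E]
    (s : Finset E) (l T : ℝ) (hl : 0 < l) (hT : 0 ≤ T) (hs : ∀ x ∈ s, ‖x‖ ≤ T)
    (h : ∀ x ∈ s, ∀ y ∈ s, x ≠ y → l ≤ ‖x - y‖) :
    (s.card : ℝ) ≤ (1 + 2 * T / l) ^ finrank ℝ E := by
  borelize E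
  let μ : Measure E := Measure.addHaar
  let δ : ℝ := l / 2
  let ρ : ℝ := T + l / 2
  have δpos : 0 < δ := by positivity
  have ρpos : 0 < ρ := by positivity
  set A := ⋃ c ∈ s, ball (c : E) δ with hA
  have D : Set.Pairwise (s : Set E) (Function.onFun Disjoint fun c => ball (c : E) δ) := by
    rintro c hc d hd hcd
    apply ball_disjoint_ball
    rw [dist_eq_norm]
    have h1 := h c hc d hd hcd
    have h2 : δ + δ = l := by
      show l / 2 + l / 2 = l
      ring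
    rw [h2]
    exact h1
  have A_subset : A ⊆ ball (0 : E) ρ := by
    refine Set.iUnion₂_subset fun x hx => ?_
    apply ball_subset_ball'
    rw [dist_zero_right]
    have := hs x hx
    show l / 2 + ‖x‖ ≤ T + l / 2
    linarith
  have I : (s.card : ℝ≥0∞) * ENNReal.ofReal (δ ^ finrank ℝ E) * μ (ball 0 1) ≤
      ENNReal.ofReal (ρ ^ finrank ℝ E) * μ (ball 0 1) :=
    calc
      (s.card : ℝ≥0∞) * ENNReal.ofReal (δ ^ finrank ℝ E) * μ (ball 0 1) = μ A := by
        rw [hA, measure_biUnion_finset D fun c _ => measurableSet_ball]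
        simp only [μ.addHaar_ball_of_pos _ δpos]
        simp only [Finset.sum_const, nsmul_eq_mul, mul_assoc]
      _ ≤ μ (ball (0 : E) ρ) := measure_mono A_subset
      _ = ENNReal.ofReal (ρ ^ finrank ℝ E) * μ (ball 0 1) := by
        simp only [μ.addHaar_ball_of_pos _ ρpos]
  have J : (s.card : ℝ≥0∞) * ENNReal.ofReal (δ ^ finrank ℝ E) ≤ ENNReal.ofReal (ρ ^ finrank ℝ E) :=
    (ENNReal.mul_le_mul_iff_left (measure_ball_pos _ _ zero_lt_one).ne' measure_ball_lt_top.ne).1 I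
  have K : (s.card : ℝ) * δ ^ finrank ℝ E ≤ ρ ^ finrank ℝ E := by
    have := ENNReal.toReal_le_of_le_ofReal (pow_nonneg ρpos.le _) J
    rw [ENNReal.toReal_mul, ENNReal.toReal_natCast, ENNReal.toReal_ofReal (pow_nonneg δpos.le _)] at this
    exact this
  have h3 : (1 + 2 * T / l) ^ finrank ℝ E * δ ^ finrank ℝ E = ρ ^ finrank ℝ E := by
    rw [← mul_pow]
    congr 1
    show (1 + 2 * T / l) * (l / 2) = T + l / 2
    field_simp
    ring
  rw [← h3] at K
  exact le_of_mul_le_mul_right K (pow_pos δpos _)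

/-! ### The gauge -/

/-- coordinates of the frame -/
def gv (w : ℝ) (a b : MR) (u : MZ) : Fin 4 → ℝ :=
  ![fr a b u 0 0, fr a b u 1 1, fr a b u 0 1 / w, fr a b u 1 0 / w]

/-- gauge -/
def gg (w : ℝ) (a b : MR) (u : MZ) : ℝ := ‖gv w a b u‖

theorem toR_sub (u v : MZ) : toR (u - v) = toR u - toR v := by
  ext i j
  simp [toR]

theorem toR_smul (c : ℤ) (u : MZ) : toR (c • u) = (c : ℝ) • toR u := by
  ext i j
  show ((c • u i j : ℤ) : ℝ) = (c : ℝ) * (u i j : ℝ)
  rw [smul_eq_mul, Int.cast_mul]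

theorem fr_sub (a b : MR) (u v : MZ) : fr a b (u - v) = fr a b u - fr a b v := by
  unfold fr
  rw [toR_sub, Matrix.mul_sub, Matrix.sub_mul]

theorem fr_smul (a b : MR) (c : ℤ) (u : MZ) : fr a b (c • u) = (c : ℝ) • fr a b u := by
  unfold fr
  rw [toR_smul, Matrix.mul_smul, Matrix.smul_mul]

theorem gv_sub (w : ℝ) (a b : MR) (u v : MZ) : gv w a b (u - v) = gv w a b u - gv w a b v := by
  unfold gv
  rw [fr_sub]
  ext i
  fin_cases i <;> simp [sub_div]

theorem gv_smul (w : ℝ) (a b : MR) (c : ℤ) (u : MZ) : gv w a b (c • u) = (c : ℝ) • gv w a b u := by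
  unfold gv
  rw [fr_smul]
  ext i
  fin_cases i <;> simp [mul_div_assoc]

theorem gg_smul (w : ℝ) (a b : MR) (c : ℤ) (u : MZ) : gg w a b (c • u) = |(c : ℝ)| * gg w a b u := by
  unfold gg
  rw [gv_smul, norm_smul, Real.norm_eq_abs]

theorem gg_nonneg (w : ℝ) (a b : MR) (u : MZ) : 0 ≤ gg w a b u := norm_nonneg _

theorem gg_le_iff {w : ℝ} (hw : 0 < w) (a b : MR) (u : MZ) {T : ℝ} (hT : 0 ≤ T) :
    gg w a b u ≤ T ↔ |fr a b u 0 0| ≤ T ∧ |fr a b u 1 1| ≤ T ∧ |fr a b u 0 1| ≤ w * T ∧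
      |fr a b u 1 0| ≤ w * T := by
  unfold gg
  rw [pi_norm_le_iff_of_nonneg hT, Fin.forall_fin_succ, Fin.forall_fin_succ, Fin.forall_fin_succ,
    Fin.forall_fin_one]
  simp only [gv, Real.norm_eq_abs, Matrix.cons_val_zero, Matrix.cons_val_succ, abs_div, abs_of_pos hw]
  rw [div_le_iff₀ hw, div_le_iff₀ hw, mul_comm T w]

/-! ### The normal of three matrices -/

section Nrm

variable {F : Type} [CommRing F]

/-- determinant of three columns -/
def dd (x y z : Fin 3 → F) : F :=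
  x 0 * (y 1 * z 2 - y 2 * z 1) - x 1 * (y 0 * z 2 - y 2 * z 0) + x 2 * (y 0 * z 1 - y 1 * z 0)

/-- the normal (with respect to the polarisation of the determinant) -/
def nrm (u : Fin 3 → Matrix (Fin 2) (Fin 2) F) : Matrix (Fin 2) (Fin 2) F :=
  !![-dd (fun i => u i 0 0) (fun i => u i 0 1) (fun i => u i 1 0),
     -dd (fun i => u i 0 0) (fun i => u i 0 1) (fun i => u i 1 1);
     dd (fun i => u i 0 0) (fun i => u i 1 0) (fun i => u i 1 1),
     dd (fun i => u i 0 1) (fun i => u i 1 0) (fun i => u i 1 1)]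

theorem nrm_left (b : Matrix (Fin 2) (Fin 2) F) (u : Fin 3 → Matrix (Fin 2) (Fin 2) F) :
    nrm (fun i => b * u i) = b.det • (b * nrm u) := by
  ext i j
  rw [Matrix.smul_apply, Matrix.mul_apply, Fin.sum_univ_two, Matrix.det_fin_two, smul_eq_mul]
  fin_cases i <;> fin_cases j <;>
    simp only [nrm, dd, Matrix.mul_apply, Fin.sum_univ_two, Matrix.of_apply, Matrix.cons_val',
      Matrix.cons_val_zero, Matrix.cons_val_one, Fin.zero_eta, Fin.mk_one, Matrix.cons_val_fin_one] <;>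
    ring

theorem nrm_right (a : Matrix (Fin 2) (Fin 2) F) (u : Fin 3 → Matrix (Fin 2) (Fin 2) F) :
    nrm (fun i => u i * a) = a.det • (nrm u * a) := by
  ext i j
  rw [Matrix.smul_apply, Matrix.mul_apply, Fin.sum_univ_two, Matrix.det_fin_two, smul_eq_mul]
  fin_cases i <;> fin_cases j <;>
    simp only [nrm, dd, Matrix.mul_apply, Fin.sum_univ_two, Matrix.of_apply, Matrix.cons_val',
      Matrix.cons_val_zero, Matrix.cons_val_one, Fin.zero_eta, Fin.mk_one, Matrix.cons_val_fin_one] <;>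
    ring

end Nrm

/-! ### Three matrices of small gauge are dependent -/

theorem dd_bound {x y z : Fin 3 → ℝ} {A B C : ℝ} (hx : ∀ i, |x i| ≤ A) (hy : ∀ i, |y i| ≤ B)
    (hz : ∀ i, |z i| ≤ C) : |dd x y z| ≤ 6 * (A * B * C) := by
  have hA : 0 ≤ A := (abs_nonneg _).trans (hx 0)
  have hB : 0 ≤ B := (abs_nonneg _).trans (hy 0)
  have key : ∀ i j k : Fin 3, |x i * y j * z k| ≤ A * B * C := by
    intro i j k
    rw [abs_mul, abs_mul]
    exact mul_le_mul (mul_le_mul (hx i) (hy j) (abs_nonneg _) hA) (hz k) (abs_nonneg _)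
      (mul_nonneg hA hB)
  have e : dd x y z = x 0 * y 1 * z 2 - x 0 * y 2 * z 1 - x 1 * y 0 * z 2 + x 1 * y 2 * z 0 +
      x 2 * y 0 * z 1 - x 2 * y 1 * z 0 := by
    unfold dd
    ring
  rw [e, abs_le]
  have h1 := abs_le.1 (key 0 1 2)
  have h2 := abs_le.1 (key 0 2 1)
  have h3 := abs_le.1 (key 1 0 2)
  have h4 := abs_le.1 (key 1 2 0)
  have h5 := abs_le.1 (key 2 0 1)
  have h6 := abs_le.1 (key 2 1 0)
  constructor <;> linarith [h1.1, h1.2, h2.1, h2.2, h3.1, h3.2, h4.1, h4.2, h5.1, h5.2, h6.1, h6.2]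

theorem dd_cast (x y z : Fin 3 → ℤ) :
    ((dd x y z : ℤ) : ℝ) = dd (fun i => (x i : ℝ)) (fun i => (y i : ℝ)) (fun i => (z i : ℝ)) := by
  unfold dd
  push_cast
  ring

theorem nrm_cast (u : Fin 3 → MZ) : toR (nrm u) = nrm (fun i => toR (u i)) := by
  ext i j
  fin_cases i <;> fin_cases j <;>
    simp only [nrm, toR, Matrix.map_apply, Matrix.of_apply, Matrix.cons_val', Matrix.cons_val_zero,
      Matrix.cons_val_one, Fin.zero_eta, Fin.mk_one, Matrix.cons_val_fin_one, Int.cast_neg, dd_cast]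

/-- frame of the normal -/
theorem nrm_fr {a b : MR} (ha : a.det = 1) (hb : b.det = 1) (u : Fin 3 → MZ) :
    nrm (fun i => fr a b (u i)) = fr a b (nrm u) := by
  unfold fr
  rw [nrm_right (F := ℝ) a (fun i => b.adjugate * toR (u i)), nrm_left, ha, one_smul,
    Matrix.det_adjugate, hb, nrm_cast]
  simp

theorem fr_inv {a b : MR} (ha : a.det = 1) (hb : b.det = 1) (u : MZ) :
    toR u = b * fr a b u * a.adjugate := by
  unfold fr
  rw [← Matrix.mul_assoc, ← Matrix.mul_assoc, Matrix.mul_adjugate, hb, one_smul, Matrix.one_mul,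
    Matrix.mul_assoc, Matrix.mul_adjugate, ha, one_smul, Matrix.mul_one]

/-- an integral matrix with a tiny frame is zero -/
theorem eq_zero_of_fr {a b : MR} (ha : a.det = 1) (hb : b.det = 1) {R : ℝ} (hRa : ∀ i j, |a i j| ≤ R)
    (hRb : ∀ i j, |b i j| ≤ R) {e : ℝ} (u : MZ) (hu : ∀ i j, |fr a b u i j| ≤ e)
    (he : 4 * R ^ 2 * e < 1) : u = 0 := by
  have hR : 0 ≤ R := (abs_nonneg _).trans (hRa 0 0)
  have he0 : 0 ≤ e := (abs_nonneg _).trans (hu 0 0)
  have hadj : ∀ i j, |a.adjugate i j| ≤ R := by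
    intro i j
    rw [Matrix.adjugate_fin_two]
    fin_cases i <;> fin_cases j
    · exact hRa 1 1
    · show |-a 0 1| ≤ R
      rw [abs_neg]
      exact hRa 0 1
    · show |-a 1 0| ≤ R
      rw [abs_neg]
      exact hRa 1 0
    · exact hRa 0 0
  ext i j
  have h1 : ((u i j : ℤ) : ℝ) = ∑ k, ∑ l, b i k * fr a b u k l * a.adjugate l j := by
    have h2 := congrFun (congrFun (fr_inv ha hb u) i) j
    have h3 : toR u i j = ((u i j : ℤ) : ℝ) := rfl
    rw [← h3, h2, Matrix.mul_apply]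
    simp only [Matrix.mul_apply, Fin.sum_univ_two]
    ring
  have h4 : |((u i j : ℤ) : ℝ)| < 1 := by
    rw [h1]
    have key : ∀ k l, |b i k * fr a b u k l * a.adjugate l j| ≤ R * e * R := by
      intro k l
      rw [abs_mul, abs_mul]
      exact mul_le_mul (mul_le_mul (hRb i k) (hu k l) (abs_nonneg _) hR) (hadj l j) (abs_nonneg _)
        (mul_nonneg hR he0)
    rw [Fin.sum_univ_two, Fin.sum_univ_two, Fin.sum_univ_two]
    have k1 := abs_le.1 (key 0 0)
    have k2 := abs_le.1 (key 0 1)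
    have k3 := abs_le.1 (key 1 0)
    have k4 := abs_le.1 (key 1 1)
    rw [abs_lt]
    have e1 : R * e * R = R ^ 2 * e := by ring
    rw [e1] at k1 k2 k3 k4
    constructor <;> linarith [k1.1, k1.2, k2.1, k2.2, k3.1, k3.2, k4.1, k4.2]
  have h5 : |u i j| < 1 := by exact_mod_cast h4
  have h6 := abs_lt.1 h5
  show u i j = 0
  omega

/-- the normal of three matrices of small gauge is zero -/
theorem nrm_eq_zero {a b : MR} (ha : a.det = 1) (hb : b.det = 1) {R w T : ℝ} (hRa : ∀ i j, |a i j| ≤ R)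
    (hRb : ∀ i j, |b i j| ≤ R) (hw : 0 < w) (hw1 : w ≤ 1) (hT : 0 ≤ T) (hsm : 24 * R ^ 2 * (w * T ^ 3) < 1)
    (u : Fin 3 → MZ) (hu : ∀ i, gg w a b (u i) ≤ T) : nrm u = 0 := by
  have h1 : ∀ i, |fr a b (u i) 0 0| ≤ T ∧ |fr a b (u i) 1 1| ≤ T ∧ |fr a b (u i) 0 1| ≤ w * T ∧
      |fr a b (u i) 1 0| ≤ w * T := fun i => (gg_le_iff hw a b (u i) hT).1 (hu i)
  refine eq_zero_of_fr ha hb hRa hRb (e := 6 * (w * T ^ 3)) (nrm u) ?_ (by linarith)
  have hw2 : w * T ≤ T := by
    have := mul_le_mul_of_nonneg_right hw1 hT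
    linarith
  have hwT : 0 ≤ w * T := mul_nonneg hw.le hT
  have hsmall : T * (w * T) * (w * T) ≤ w * T ^ 3 := by
    have : T * (w * T) * (w * T) ≤ T * (w * T) * T := mul_le_mul_of_nonneg_left hw2 (mul_nonneg hT hwT)
    calc _ ≤ T * (w * T) * T := this
      _ = _ := by ring
  intro i j
  rw [← nrm_fr ha hb u]
  fin_cases i <;> fin_cases j
  · show |-dd (fun i => fr a b (u i) 0 0) (fun i => fr a b (u i) 0 1) (fun i => fr a b (u i) 1 0)| ≤ _
    rw [abs_neg]
    refine (dd_bound (fun i => (h1 i).1) (fun i => (h1 i).2.2.1) (fun i => (h1 i).2.2.2)).trans ?_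
    linarith
  · show |-dd (fun i => fr a b (u i) 0 0) (fun i => fr a b (u i) 0 1) (fun i => fr a b (u i) 1 1)| ≤ _
    rw [abs_neg]
    refine (dd_bound (fun i => (h1 i).1) (fun i => (h1 i).2.2.1) (fun i => (h1 i).2.1)).trans ?_
    have : T * (w * T) * T = w * T ^ 3 := by ring
    linarith
  · show |dd (fun i => fr a b (u i) 0 0) (fun i => fr a b (u i) 1 0) (fun i => fr a b (u i) 1 1)| ≤ _
    refine (dd_bound (fun i => (h1 i).1) (fun i => (h1 i).2.2.2) (fun i => (h1 i).2.1)).trans ?_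
    have : T * (w * T) * T = w * T ^ 3 := by ring
    linarith
  · show |dd (fun i => fr a b (u i) 0 1) (fun i => fr a b (u i) 1 0) (fun i => fr a b (u i) 1 1)| ≤ _
    refine (dd_bound (fun i => (h1 i).2.2.1) (fun i => (h1 i).2.2.2) (fun i => (h1 i).2.1)).trans ?_
    have : w * T * (w * T) * T = T * (w * T) * (w * T) := by ring
    linarith

/-- vectors with vanishing minors are dependent -/
theorem not_indep (v : Fin 3 → Fin 4 → ℝ) (h012 : dd (fun i => v i 0) (fun i => v i 1) (fun i => v i 2) = 0)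
    (h013 : dd (fun i => v i 0) (fun i => v i 1) (fun i => v i 3) = 0)
    (h023 : dd (fun i => v i 0) (fun i => v i 2) (fun i => v i 3) = 0)
    (h123 : dd (fun i => v i 1) (fun i => v i 2) (fun i => v i 3) = 0) : ¬ LinearIndependent ℝ v := by
  intro hv
  obtain ⟨x, hx⟩ := exists_linearIndependent_cons_of_lt_finrank (R := ℝ) (M := Fin 4 → ℝ) (n := 3)
    hv (by rw [finrank_fin_fun]; norm_num)
  have h1 : (Matrix.of (Fin.cons x v : Fin 4 → Fin 4 → ℝ)).det ≠ 0 := by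
    have h2 := (Matrix.linearIndependent_rows_iff_isUnit (A := Matrix.of (Fin.cons x v : Fin 4 → Fin 4 → ℝ))).1 hx
    exact ((Matrix.isUnit_iff_isUnit_det _).1 h2).ne_zero
  apply h1
  rw [Matrix.det_succ_row_zero, Fin.sum_univ_four]
  simp only [Matrix.det_fin_three, Matrix.submatrix_apply, Matrix.of_apply, Fin.cons_zero, Fin.cons_succ]
  unfold dd at h012 h013 h023 h123
  have s0 : (Fin.succAbove (0 : Fin 4) : Fin 3 → Fin 4) 0 = 1 := rfl
  have s1 : (Fin.succAbove (0 : Fin 4) : Fin 3 → Fin 4) 1 = 2 := rfl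
  have s2 : (Fin.succAbove (0 : Fin 4) : Fin 3 → Fin 4) 2 = 3 := rfl
  have t0 : (Fin.succAbove (1 : Fin 4) : Fin 3 → Fin 4) 0 = 0 := rfl
  have t1 : (Fin.succAbove (1 : Fin 4) : Fin 3 → Fin 4) 1 = 2 := rfl
  have t2 : (Fin.succAbove (1 : Fin 4) : Fin 3 → Fin 4) 2 = 3 := rfl
  have r0 : (Fin.succAbove (2 : Fin 4) : Fin 3 → Fin 4) 0 = 0 := rfl
  have r1 : (Fin.succAbove (2 : Fin 4) : Fin 3 → Fin 4) 1 = 1 := rfl
  have r2 : (Fin.succAbove (2 : Fin 4) : Fin 3 → Fin 4) 2 = 3 := rfl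
  have q0 : (Fin.succAbove (3 : Fin 4) : Fin 3 → Fin 4) 0 = 0 := rfl
  have q1 : (Fin.succAbove (3 : Fin 4) : Fin 3 → Fin 4) 1 = 1 := rfl
  have q2 : (Fin.succAbove (3 : Fin 4) : Fin 3 → Fin 4) 2 = 2 := rfl
  rw [s0, s1, s2, t0, t1, t2, r0, r1, r2, q0, q1, q2]
  have z0 : ((0 : Fin 4) : ℕ) = 0 := rfl
  have z1 : ((1 : Fin 4) : ℕ) = 1 := rfl
  have z2 : ((2 : Fin 4) : ℕ) = 2 := rfl
  have z3 : ((3 : Fin 4) : ℕ) = 3 := rfl
  rw [z0, z1, z2, z3]
  linear_combination x 0 * h123 - x 1 * h023 + x 2 * h013 - x 3 * h012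

/-- **rank**: the matrices of gauge at most `T` lie in a space of dimension at most two -/
theorem box_rank {a b : MR} (ha : a.det = 1) (hb : b.det = 1) {R w T : ℝ} (hRa : ∀ i j, |a i j| ≤ R)
    (hRb : ∀ i j, |b i j| ≤ R) (hw : 0 < w) (hw1 : w ≤ 1) (hT : 0 ≤ T) (hsm : 24 * R ^ 2 * (w * T ^ 3) < 1) :
    finrank ℝ (Submodule.span ℝ {x | ∃ u : MZ, gg w a b u ≤ T ∧ x = gv w a b u}) ≤ 2 := by
  by_contra hcon
  rw [not_le] at hcon
  obtain ⟨f, hf1, -, hf2⟩ := Submodule.exists_fun_fin_finrank_span_eq ℝ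
    {x | ∃ u : MZ, gg w a b u ≤ T ∧ x = gv w a b u}
  set g : Fin 3 → Fin 4 → ℝ := fun i => f (Fin.castLE hcon i) with hg
  have hg1 : LinearIndependent ℝ g := hf2.comp _ (Fin.castLE_injective _)
  have hg2 : ∀ i, ∃ u : MZ, gg w a b u ≤ T ∧ g i = gv w a b u := fun i => hf1 _
  choose u hu1 hu2 using hg2
  have hn := nrm_eq_zero ha hb hRa hRb hw hw1 hT hsm u hu1
  have hN : nrm (fun i => fr a b (u i)) = 0 := by
    rw [nrm_fr ha hb, hn]
    unfold fr
    have : toR (0 : MZ) = 0 := by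
      ext i j
      simp [toR]
    rw [this, Matrix.mul_zero, Matrix.zero_mul]
  have n00 : dd (fun i => fr a b (u i) 0 0) (fun i => fr a b (u i) 0 1) (fun i => fr a b (u i) 1 0) = 0 :=
    neg_eq_zero.1 (congrFun (congrFun hN 0) 0)
  have n01 : dd (fun i => fr a b (u i) 0 0) (fun i => fr a b (u i) 0 1) (fun i => fr a b (u i) 1 1) = 0 :=
    neg_eq_zero.1 (congrFun (congrFun hN 0) 1)
  have n10 : dd (fun i => fr a b (u i) 0 0) (fun i => fr a b (u i) 1 0) (fun i => fr a b (u i) 1 1) = 0 :=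
    congrFun (congrFun hN 1) 0
  have n11 : dd (fun i => fr a b (u i) 0 1) (fun i => fr a b (u i) 1 0) (fun i => fr a b (u i) 1 1) = 0 :=
    congrFun (congrFun hN 1) 1
  refine not_indep g ?_ ?_ ?_ ?_ hg1
  · simp only [hu2, gv, Matrix.cons_val_zero, Matrix.cons_val_one, Matrix.cons_val]
    unfold dd at n01 ⊢
    linear_combination (-1 / w) * n01
  · simp only [hu2, gv, Matrix.cons_val_zero, Matrix.cons_val]
    unfold dd at n10 ⊢
    linear_combination (-1 / w) * n10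
  · simp only [hu2, gv, Matrix.cons_val_zero, Matrix.cons_val]
    unfold dd at n00 ⊢
    linear_combination (1 / w / w) * n00
  · simp only [hu2, gv, Matrix.cons_val_zero, Matrix.cons_val_one, Matrix.cons_val]
    unfold dd at n11 ⊢
    linear_combination (1 / w / w) * n11

/-! ### Counting -/

/-- separated matrices of small gauge in a subspace -/
theorem card_pack {w : ℝ} {a b : MR} (W : Submodule ℝ (Fin 4 → ℝ)) {l T : ℝ} (hl : 0 < l) (hT : 0 ≤ T)
    (U : Finset MZ) (hU : ∀ u ∈ U, gv w a b u ∈ W ∧ gg w a b u ≤ T)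
    (hs : ∀ u ∈ U, ∀ u' ∈ U, u ≠ u' → l ≤ gg w a b (u - u')) :
    (U.card : ℝ) ≤ (1 + 2 * T / l) ^ finrank ℝ W := by
  classical
  set φ : MZ → W := fun u => if h : gv w a b u ∈ W then ⟨gv w a b u, h⟩ else 0 with hφ
  have hφ1 : ∀ u ∈ U, ((φ u : W) : Fin 4 → ℝ) = gv w a b u := by
    intro u hu
    rw [hφ]
    simp only [dif_pos (hU u hu).1]
  have hφ2 : ∀ u ∈ U, ∀ u' ∈ U, u ≠ u' → l ≤ ‖φ u - φ u'‖ := by
    intro u hu u' hu' hne
    have h1 := hs u hu u' hu' hne
    unfold gg at h1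
    rw [gv_sub, ← hφ1 u hu, ← hφ1 u' hu'] at h1
    exact h1
  have hinj : Set.InjOn φ (U : Set MZ) := by
    intro u hu u' hu' he
    by_contra hne
    have h1 := hφ2 u hu u' hu' hne
    rw [he, sub_self, norm_zero] at h1
    linarith
  have h3 : (U.image φ).card = U.card := Finset.card_image_of_injOn hinj
  have h4 := card_sep (U.image φ) l T hl hT (by
      intro x hx
      obtain ⟨u, hu, rfl⟩ := Finset.mem_image.1 hx
      have h5 : ‖φ u‖ = gg w a b u := by
        unfold gg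
        rw [← hφ1 u hu]
        rfl
      rw [h5]
      exact (hU u hu).2) (by
      intro x hx y hy hne
      obtain ⟨u, hu, rfl⟩ := Finset.mem_image.1 hx
      obtain ⟨u', hu', rfl⟩ := Finset.mem_image.1 hy
      exact hφ2 u hu u' hu' (fun h => hne (by rw [h])))
  rw [h3] at h4
  exact h4

/-- divisibility enlarges the gauge -/
theorem gg_dvd {w : ℝ} {a b : MR} {l T : ℝ}
    (hl : ∀ u : MZ, u ≠ 0 → gg w a b u ≤ T → l ≤ gg w a b u) {u : MZ} (hu : u ≠ 0)
    (huT : gg w a b u ≤ T) {c : ℕ} (hc : 0 < c) (hcu : ∀ i j, (c : ℤ) ∣ u i j) : c * l ≤ gg w a b u := by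
  choose v hv using hcu
  have h1 : u = (c : ℤ) • (Matrix.of v : MZ) := by
    ext i j
    rw [hv i j]
    rfl
  have h2 : (Matrix.of v : MZ) ≠ 0 := by
    intro h
    apply hu
    rw [h1, h, smul_zero]
  have hc1 : (1 : ℝ) ≤ c := by exact_mod_cast hc
  have h3 : gg w a b u = c * gg w a b (Matrix.of v) := by
    conv_lhs => rw [h1]
    rw [gg_smul]
    simp
  have h4 : gg w a b (Matrix.of v) ≤ T := by
    have h5 : gg w a b (Matrix.of v) ≤ c * gg w a b (Matrix.of v) :=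
      le_mul_of_one_le_left (gg_nonneg _ _ _ _) hc1
    linarith
  rw [h3]
  exact mul_le_mul_of_nonneg_left (hl _ h2 h4) (by positivity)

/-- a power with exponent at most two -/
theorem pow_le_two {x : ℝ} (hx : 1 ≤ x) {d : ℕ} (hd : d ≤ 2) : (1 + 2 * x) ^ d ≤ 9 * x ^ 2 := by
  have h1 : (1 + 2 * x) ^ d ≤ (1 + 2 * x) ^ 2 := pow_le_pow_right₀ (by linarith) hd
  have h2 : (1 + 2 * x) ^ 2 ≤ (3 * x) ^ 2 := pow_le_pow_left₀ (by linarith) (by linarith) 2
  calc (1 + 2 * x) ^ d ≤ (3 * x) ^ 2 := h1.trans h2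
    _ = 9 * x ^ 2 := by ring

/-- **number of multiples of `c`** in the box -/
theorem card_dvd {a b : MR} (ha : a.det = 1) (hb : b.det = 1) {R w T : ℝ} (hRa : ∀ i j, |a i j| ≤ R)
    (hRb : ∀ i j, |b i j| ≤ R) (hw : 0 < w) (hw1 : w ≤ 1) (hT : 0 ≤ T) (hsm : 24 * R ^ 2 * (w * T ^ 3) < 1)
    {l : ℝ} (hl0 : 0 < l) (hl : ∀ u : MZ, u ≠ 0 → gg w a b u ≤ 2 * T → l ≤ gg w a b u) {c : ℕ} (hc : 0 < c)
    (U : Finset MZ) (hU : ∀ u ∈ U, u ≠ 0 ∧ gg w a b u ≤ T ∧ ∀ i j, (c : ℤ) ∣ u i j) :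
    (U.card : ℝ) ≤ 9 * (T / (c * l)) ^ 2 := by
  rcases U.eq_empty_or_nonempty with rfl | ⟨u₀, hu₀⟩
  · rw [Finset.card_empty]
    push_cast
    positivity
  have hc0 : (0 : ℝ) < c := by exact_mod_cast hc
  have hcl : 0 < c * l := mul_pos hc0 hl0
  have h0 := gg_dvd hl (hU u₀ hu₀).1 (by linarith [(hU u₀ hu₀).2.1]) hc
    (hU u₀ hu₀).2.2
  have h1 : 1 ≤ T / (c * l) := by
    rw [le_div_iff₀ hcl, one_mul]
    exact h0.trans (hU u₀ hu₀).2.1
  have h2 := card_pack (w := w) (a := a) (b := b)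
    (Submodule.span ℝ {x | ∃ u : MZ, gg w a b u ≤ T ∧ x = gv w a b u}) hcl hT U
    (fun u hu => ⟨Submodule.subset_span ⟨u, (hU u hu).2.1, rfl⟩, (hU u hu).2.1⟩) (by
      intro u hu u' hu' hne
      refine gg_dvd hl (sub_ne_zero.2 hne) ?_ hc ?_
      · unfold gg
        rw [gv_sub]
        refine (norm_sub_le _ _).trans ?_
        have h3 := (hU u hu).2.1
        have h4 := (hU u' hu').2.1
        unfold gg at h3 h4
        linarith
      · intro i j
        exact Int.dvd_sub ((hU u hu).2.2 i j) ((hU u' hu').2.2 i j))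
  refine h2.trans ?_
  have h5 : 1 + 2 * T / (c * l) = 1 + 2 * (T / (c * l)) := by
    rw [mul_div_assoc]
  rw [h5]
  exact pow_le_two h1 (box_rank ha hb hRa hRb hw hw1 hT hsm)

/-- **number of matrices** of gauge at most `T` -/
theorem card_box {a b : MR} (ha : a.det = 1) (hb : b.det = 1) {R w T : ℝ} (hRa : ∀ i j, |a i j| ≤ R)
    (hRb : ∀ i j, |b i j| ≤ R) (hw : 0 < w) (hw1 : w ≤ 1) (hT : 0 ≤ T) (hsm : 24 * R ^ 2 * (w * T ^ 3) < 1)
    {l : ℝ} (hl0 : 0 < l) (hl : ∀ u : MZ, u ≠ 0 → gg w a b u ≤ 2 * T → l ≤ gg w a b u)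
    (U : Finset MZ) (hU : ∀ u ∈ U, u ≠ 0 ∧ gg w a b u ≤ T) :
    (U.card : ℝ) ≤ 9 * (T / l) ^ 2 := by
  have h1 := card_dvd ha hb hRa hRb hw hw1 hT hsm hl0 hl (c := 1) one_pos U
    (fun u hu => ⟨(hU u hu).1, (hU u hu).2, fun i j => by rw [Nat.cast_one]; exact one_dvd _⟩)
  rwa [Nat.cast_one, one_mul] at h1

/-- **sum of the contents** of the matrices of gauge at most `T` -/
theorem sum_content {a b : MR} (ha : a.det = 1) (hb : b.det = 1) {R w T : ℝ} (hRa : ∀ i j, |a i j| ≤ R)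
    (hRb : ∀ i j, |b i j| ≤ R) (hw : 0 < w) (hw1 : w ≤ 1) (hT : 0 ≤ T) (hsm : 24 * R ^ 2 * (w * T ^ 3) < 1)
    {l : ℝ} (hl0 : 0 < l) (hlT : l ≤ T) (hl : ∀ u : MZ, u ≠ 0 → gg w a b u ≤ 2 * T → l ≤ gg w a b u)
    (U : Finset MZ) (hU : ∀ u ∈ U, u ≠ 0 ∧ gg w a b u ≤ T) :
    ∑ u ∈ U, (ct u : ℝ) ≤ 9 * (T / l) ^ 2 * (1 + Real.log (T / l)) := by
  classical
  have hTl : 1 ≤ T / l := by
    rw [le_div_iff₀ hl0, one_mul]
    exact hlT
  set N : ℕ := ⌊T / l⌋₊ with hN
  have h1 : ∀ u ∈ U, (ct u : ℝ) ≤ ∑ c ∈ Finset.Icc 1 N, if c ∣ ct u then (c : ℝ) else 0 := by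
    intro u hu
    have e1 : ((∑ c ∈ (ct u).divisors, c.totient : ℕ) : ℝ) = ct u := by
      rw [Nat.sum_totient]
    have hsub : (ct u).divisors ⊆ Finset.Icc 1 N := by
      intro c hc
      rw [Nat.mem_divisors] at hc
      have hc0 : 0 < c := Nat.pos_of_dvd_of_pos hc.1 (ct_pos (hU u hu).1)
      have h2 := gg_dvd hl (hU u hu).1 (by linarith [(hU u hu).2]) hc0
        (fun i j => (Int.natCast_dvd_natCast.2 hc.1).trans (ct_dvd u i j))
      rw [Finset.mem_Icc]
      refine ⟨hc0, Nat.le_floor ?_⟩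
      rw [le_div_iff₀ hl0]
      exact h2.trans (hU u hu).2
    rw [← e1]
    push_cast
    calc ∑ c ∈ (ct u).divisors, ((c.totient : ℕ) : ℝ)
        ≤ ∑ c ∈ (ct u).divisors, if c ∣ ct u then (c : ℝ) else 0 := by
          refine Finset.sum_le_sum fun c hc => ?_
          rw [if_pos (Nat.mem_divisors.1 hc).1]
          exact_mod_cast Nat.totient_le c
      _ ≤ ∑ c ∈ Finset.Icc 1 N, if c ∣ ct u then (c : ℝ) else 0 := by
          refine Finset.sum_le_sum_of_subset_of_nonneg hsub fun c _ _ => ?_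
          split_ifs <;> positivity
  have h2 : ∑ u ∈ U, (ct u : ℝ) ≤ ∑ c ∈ Finset.Icc 1 N, (c : ℝ) * (U.filter fun u => c ∣ ct u).card := by
    refine (Finset.sum_le_sum h1).trans (le_of_eq ?_)
    rw [Finset.sum_comm]
    refine Finset.sum_congr rfl fun c _ => ?_
    rw [← Finset.sum_filter, Finset.sum_const, nsmul_eq_mul, mul_comm]
  have h3 : ∀ c ∈ Finset.Icc 1 N, (c : ℝ) * (U.filter fun u => c ∣ ct u).card ≤
      9 * (T / l) ^ 2 * (c : ℝ)⁻¹ := by
    intro c hc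
    have hc0 : 0 < c := (Finset.mem_Icc.1 hc).1
    have hc1 : (0 : ℝ) < c := by exact_mod_cast hc0
    have h4 := card_dvd ha hb hRa hRb hw hw1 hT hsm hl0 hl hc0 (U.filter fun u => c ∣ ct u) (by
      intro u hu
      rw [Finset.mem_filter] at hu
      exact ⟨(hU u hu.1).1, (hU u hu.1).2, fun i j =>
        (Int.natCast_dvd_natCast.2 hu.2).trans (ct_dvd u i j)⟩)
    refine (mul_le_mul_of_nonneg_left h4 hc1.le).trans (le_of_eq ?_)
    field_simp
  have h5 : ∑ c ∈ Finset.Icc 1 N, ((c : ℝ))⁻¹ ≤ 1 + Real.log (T / l) := by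
    have h6 := harmonic_floor_le_one_add_log (T / l) hTl
    rw [harmonic_eq_sum_Icc] at h6
    push_cast at h6
    exact h6
  calc ∑ u ∈ U, (ct u : ℝ) ≤ ∑ c ∈ Finset.Icc 1 N, 9 * (T / l) ^ 2 * (c : ℝ)⁻¹ :=
        h2.trans (Finset.sum_le_sum h3)
    _ = 9 * (T / l) ^ 2 * ∑ c ∈ Finset.Icc 1 N, ((c : ℝ))⁻¹ := by rw [Finset.mul_sum]
    _ ≤ _ := mul_le_mul_of_nonneg_left h5 (by positivity)

/-! ### Right divisors -/

/-- right divisors of positive determinant -/
theorem rdiv_pos {u : MZ} (hu : u.det ≠ 0) (T : Finset MZ)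
    (hT : ∀ h ∈ T, 0 < h.det ∧ ∃ g : MZ, u = g * h)
    (hinj : ∀ h ∈ T, ∀ h' ∈ T, ∀ γ : MZ, γ.det = 1 → h' = γ * h → h = h') :
    T.card ≤ (u.det.natAbs).divisors.card ^ 2 * ct u := by
  classical
  have hu0 : u ≠ 0 := by
    rintro rfl
    apply hu
    simp
  have hN : u.det.natAbs ≠ 0 := Int.natAbs_ne_zero.2 hu
  have h1 : ∀ h ∈ T, h.det.natAbs ∈ (u.det.natAbs).divisors := by
    intro h hh
    obtain ⟨-, g, hg⟩ := hT h hh
    rw [Nat.mem_divisors]
    refine ⟨Int.natAbs_dvd_natAbs.2 ⟨g.det, ?_⟩, hN⟩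
    rw [hg, Matrix.det_mul, mul_comm]
  have h2 : T.card = ∑ M ∈ (u.det.natAbs).divisors, (T.filter fun h => h.det.natAbs = M).card :=
    Finset.card_eq_sum_card_fiberwise h1
  have h3 : ∀ M ∈ (u.det.natAbs).divisors, (T.filter fun h => h.det.natAbs = M).card ≤
      (u.det.natAbs).divisors.card * ct u := by
    intro M hM
    have hM0 : 0 < M := Nat.pos_of_mem_divisors hM
    have h4 := hermite u hu0 M hM0 (T.filter fun h => h.det.natAbs = M) (by
      intro h hh
      rw [Finset.mem_filter] at hh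
      have h5 := hT h hh.1
      refine ⟨?_, h5.2⟩
      rw [← hh.2, Int.natAbs_of_nonneg h5.1.le]) (by
      intro h hh h' hh' γ hγ he
      exact hinj h (Finset.mem_filter.1 hh).1 h' (Finset.mem_filter.1 hh').1 γ hγ he)
    refine h4.trans (Nat.mul_le_mul_right _ ?_)
    exact Finset.card_le_card (Nat.divisors_subset_of_dvd hN (Nat.dvd_of_mem_divisors hM))
  rw [h2]
  refine (Finset.sum_le_sum h3).trans ?_
  rw [Finset.sum_const, smul_eq_mul, ← mul_assoc, ← sq]

/-- **right divisors** of a nonsingular integral matrix, up to `SL(2,Z)` on the left -/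
theorem rdiv {u : MZ} (hu : u.det ≠ 0) (T : Finset MZ)
    (hT : ∀ h ∈ T, ∃ g : MZ, u = g * h)
    (hinj : ∀ h ∈ T, ∀ h' ∈ T, ∀ γ : MZ, γ.det = 1 → h' = γ * h → h = h') :
    T.card ≤ 2 * ((u.det.natAbs).divisors.card ^ 2 * ct u) := by
  classical
  have hne : ∀ h ∈ T, h.det ≠ 0 := by
    intro h hh h0
    obtain ⟨g, hg⟩ := hT h hh
    apply hu
    rw [hg, Matrix.det_mul, h0, mul_zero]
  have h1 : T.card = (T.filter fun h => 0 < h.det).card + (T.filter fun h => ¬ 0 < h.det).card :=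
    (Finset.card_filter_add_card_filter_not (fun h : MZ => 0 < h.det)).symm
  have h2 := rdiv_pos hu (T.filter fun h => 0 < h.det) (by
      intro h hh
      rw [Finset.mem_filter] at hh
      exact ⟨hh.2, hT h hh.1⟩) (by
      intro h hh h' hh' γ hγ he
      exact hinj h (Finset.mem_filter.1 hh).1 h' (Finset.mem_filter.1 hh').1 γ hγ he)
  set D : MZ := !![-1, 0; 0, 1] with hD
  have hDD : D * D = 1 := by
    rw [hD]
    ext i j
    fin_cases i <;> fin_cases j <;> simp [Matrix.mul_apply, Fin.sum_univ_two]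
  have hDdet : D.det = -1 := by
    rw [hD, Matrix.det_fin_two]
    simp
  have hDinj : Function.Injective fun h : MZ => D * h := by
    intro h h' he
    have he' : D * h = D * h' := he
    have : D * (D * h) = D * (D * h') := by rw [he']
    rwa [← Matrix.mul_assoc, ← Matrix.mul_assoc, hDD, Matrix.one_mul, Matrix.one_mul] at this
  have h3 := rdiv_pos hu ((T.filter fun h => ¬ 0 < h.det).image fun h => D * h) (by
      intro h hh
      obtain ⟨k, hk, rfl⟩ := Finset.mem_image.1 hh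
      rw [Finset.mem_filter] at hk
      have hk0 := hne k hk.1
      obtain ⟨g, hg⟩ := hT k hk.1
      refine ⟨?_, g * D, ?_⟩
      · show 0 < (D * k).det
        rw [Matrix.det_mul, hDdet]
        have : k.det < 0 := lt_of_le_of_ne (not_lt.1 hk.2) hk0
        linarith
      · show u = g * D * (D * k)
        rw [Matrix.mul_assoc, ← Matrix.mul_assoc D D k, hDD, Matrix.one_mul]
        exact hg) (by
      intro h hh h' hh' γ hγ he
      obtain ⟨k, hk, rfl⟩ := Finset.mem_image.1 hh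
      obtain ⟨k', hk', rfl⟩ := Finset.mem_image.1 hh'
      rw [Finset.mem_filter] at hk hk'
      have he' : D * k' = γ * (D * k) := he
      have h4 : k' = (D * γ * D) * k := by
        have : D * (D * k') = D * (γ * (D * k)) := by rw [he']
        rw [← Matrix.mul_assoc, hDD, Matrix.one_mul] at this
        rw [this]
        simp only [Matrix.mul_assoc]
      have h5 := hinj k hk.1 k' hk'.1 (D * γ * D) (by
        rw [Matrix.det_mul, Matrix.det_mul, hDdet, hγ]
        norm_num) h4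
      show D * k = D * k'
      rw [h5])
  rw [Finset.card_image_of_injective _ hDinj] at h3
  rw [h1]
  linarith

end

end Pool.Agent.A54.HSBd
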