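import Pool.Agent.Lib.HS.L.Defs

/-!
PROJECT H* (MP_a54f13_nt), high bands, FLIP LEMMA (helper5, note 4726; helper66 (H6), (H7)).

Every `S_...` is a statement with a COMPLETE proof in its docstring; the module for `S_X` is
`Pool/Agent/Lib/HS/Bd/F<X>.lean` with `theorem tX : ... → S_X` in namespace `HSL.Flp`.
`MR`, `MZ`, `toR`, `fr`, `Near` are in `HS/L/Defs.lean`: `fr a b h = adj b * toR h * a` (`= b^-1 h a` for
`det b = 1`). All real matrices have determinant one, so `c * adj c = adj c * c = 1`, hence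
`fr a b (r * s) = fr c b r * fr a c s` and `b * fr a b h * adj a = toR h`; `det (fr a b h) = det h`.
-/

set_option autoImplicit false

namespace HSL.Flp

open HSL Matrix

/-- gauge at most `Y`: diagonal entries at most `Y`, off-diagonal entries at most `w Y` -/
def Dg (Y w : ℝ) (a b : MR) (u : MZ) : Prop :=
  |fr a b u 0 0| ≤ Y ∧ |fr a b u 1 1| ≤ Y ∧ |fr a b u 0 1| ≤ w * Y ∧ |fr a b u 1 0| ≤ w * Y

/-- flip from `a` to `b` of height at most `Z`: non-singular, the entries 01 and 10 at most `Z`, the diagonal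
entries at most `w Z` -/
def Fl (Z w : ℝ) (a b : MR) (r : MZ) : Prop :=
  r.det ≠ 0 ∧ |fr a b r 0 0| ≤ w * Z ∧ |fr a b r 1 1| ≤ w * Z ∧ |fr a b r 0 1| ≤ Z ∧ |fr a b r 1 0| ≤ Z

/-- the matrix which exchanges the two ends -/
def J : MR := !![0, 1; -1, 0]

/-- unimodular and bounded representatives -/
def Uni {ι : Type} (R : ℝ) (V : Finset ι) (g : ι → MR) : Prop :=
  ∀ i ∈ V, (g i).det = 1 ∧ ∀ a b, |g i a b| ≤ R

/-- bounded overlap at scale `w`: at most `B` pairs (cell, element of SL2(Z)) near a given cell -/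
def Ov {ι : Type} (w B : ℝ) (V : Finset ι) (g : ι → MR) : Prop :=
  ∀ i ∈ V, ∀ T : Finset (ι × MZ),
    (∀ t ∈ T, t.1 ∈ V ∧ t.2.det = 1 ∧ Near 16 w 1 (fr (g i) (g t.1) t.2)) → (T.card : ℝ) ≤ B

/-- content: greatest common divisor of the four entries -/
def cont (u : MZ) : ℕ :=
  Nat.gcd (Nat.gcd (u 0 0).natAbs (u 0 1).natAbs) (Nat.gcd (u 1 0).natAbs (u 1 1).natAbs)

/-- reduced upper triangular matrix (Hermite form) -/
def Red (H : MZ) : Prop := H 1 0 = 0 ∧ 0 < H 0 0 ∧ H 1 1 ≠ 0 ∧ 0 ≤ H 0 1 ∧ H 0 1 < |H 1 1|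

/-- the determinant of three vectors of length three -/
def dt3 {A : Type*} [CommRing A] (a1 a2 a3 b1 b2 b3 c1 c2 c3 : A) : A :=
  a1 * (b2 * c3 - b3 * c2) - a2 * (b1 * c3 - b3 * c1) + a3 * (b1 * c2 - b2 * c1)

/-- the normal of three matrices: the four 3x3 minors, arranged such that
`nm (g u) (g v) (g t) = det g • (g * nm u v t)` and `nm (u g) (v g) (t g) = det g • (nm u v t * g)`.
(CHECKED: `ext i j; fin_cases i <;> fin_cases j <;> simp [nm, dt3, Matrix.mul_apply, Fin.sum_univ_two,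
Matrix.det_fin_two, Matrix.vecMul, dotProduct, Matrix.vecHead, Matrix.vecTail] <;> ring` proves both, in 15 s.) -/
def nm {A : Type*} [CommRing A] (u v t : Matrix (Fin 2) (Fin 2) A) : Matrix (Fin 2) (Fin 2) A :=
  !![dt3 (u 0 0) (u 0 1) (u 1 0) (v 0 0) (v 0 1) (v 1 0) (t 0 0) (t 0 1) (t 1 0),
     dt3 (u 0 0) (u 0 1) (u 1 1) (v 0 0) (v 0 1) (v 1 1) (t 0 0) (t 0 1) (t 1 1);
     - dt3 (u 0 0) (u 1 0) (u 1 1) (v 0 0) (v 1 0) (v 1 1) (t 0 0) (t 1 0) (t 1 1),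
     - dt3 (u 0 1) (u 1 0) (u 1 1) (v 0 1) (v 1 0) (v 1 1) (t 0 1) (t 1 0) (t 1 1)]

/-- Frm. Frames. PROOF. (1) `fr (a * J) b u = fr a b u * J = !![-A01, A00; -A11, A10]` with `A = fr a b u`.
(2) from (1). (3) `A = fr a c (r2 * r1) = A2 * A1`, `A1 = fr a b r1`, `A2 = fr b c r2` (`b * adj b = 1`): the
diagonal entries are sums of two products, at most `w^2 Z^2 + Z^2 <= 2 Z^2`, the off-diagonal ones at most
`2 w Z^2`. (4) `fr b a (adj r) = adj (fr a b r)` (adjugate is anti-multiplicative, `adj (adj b) = b`), whose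
entries are `A11, -A01, -A10, A00`. (5) `toR u = b * fr a b u * adj a` has entries at most `4 R^2 lam < 1`
(`w <= 1`), so `u = 0`. (6) `det (fr a b u) = det (adj b) det (toR u) det a`. (7) `(c * adj c = 1)`. -/
def S_Frm : Prop :=
  (∀ (a b : MR) (u : MZ), fr (a * J) b u 0 0 = - fr a b u 0 1 ∧ fr (a * J) b u 0 1 = fr a b u 0 0 ∧
    fr (a * J) b u 1 0 = - fr a b u 1 1 ∧ fr (a * J) b u 1 1 = fr a b u 1 0) ∧
  (∀ (Z w : ℝ) (a b : MR) (r : MZ), Fl Z w a b r → Dg Z w (a * J) b r) ∧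
  (∀ (Z w : ℝ) (a b c : MR) (r1 r2 : MZ), b.det = 1 → 0 ≤ w → w ≤ 1 → 0 ≤ Z → Fl Z w a b r1 →
    Fl Z w b c r2 → (r2 * r1).det ≠ 0 ∧ Dg (2 * Z ^ 2) w a c (r2 * r1)) ∧
  (∀ (Z w : ℝ) (a b : MR) (r : MZ), Fl Z w a b r → Fl Z w b a r.adjugate ∧
    |fr b a r.adjugate 0 1| = |fr a b r 0 1| ∧ |fr b a r.adjugate 1 0| = |fr a b r 1 0|) ∧
  (∀ (R lam w : ℝ) (a b : MR) (u : MZ), 1 ≤ R → 0 < w → w ≤ 1 → a.det = 1 → b.det = 1 →
    (∀ i j, |a i j| ≤ R) → (∀ i j, |b i j| ≤ R) → u ≠ 0 → 4 * R ^ 2 * lam < 1 → ¬ Dg lam w a b u) ∧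
  (∀ (a b : MR) (u : MZ), a.det = 1 → b.det = 1 → (fr a b u).det = ((u.det : ℤ) : ℝ)) ∧
  (∀ (a b c : MR) (r s : MZ), c.det = 1 → fr a b (r * s) = fr c b r * fr a c s) ∧
  (∀ (a b : MR) (u : MZ), a.det = 1 → b.det = 1 → toR u = b * fr a b u * a.adjugate)

/-- Row. Lattice points in a rectangle which contains two independent ones. PROOF. Choose `u, v ∈ S` with
maximal `|D|`, `D = u0 v1 - u1 v0 <> 0`. For `s ∈ S` put `x = s ∧ v`, `y = u ∧ s` (`u ∧ v = u0 v1 - u1 v0`):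
`D s = x u + y v`, `|x|, |y| <= |D|`. So `S` has at most 9 points in each class of `Z^2` modulo `<u, v>`
(`x/D`, `y/D` lie in `[-1,1]` and their differences inside one class are integral), and there are `|D|` classes
(exactly as `card27`, `index_eq` in HS/L/Lat.lean, dimension 2 instead of 3): `card S <= 9 |D|`. As `det a = 1`,
`D` is the determinant of the real coordinates of `u`, `v`: `|D| <= 2 p q`. -/
def S_Row : Prop :=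
  ∀ (a : MR) (p q : ℝ) (S : Finset (Fin 2 → ℤ)), a.det = 1 → 0 < p → 0 < q →
    (∀ v ∈ S, |(v 0 : ℝ) * a 0 0 + (v 1 : ℝ) * a 1 0| ≤ p ∧ |(v 0 : ℝ) * a 0 1 + (v 1 : ℝ) * a 1 1| ≤ q) →
    (∃ u ∈ S, ∃ v ∈ S, u 0 * v 1 - u 1 * v 0 ≠ 0) → (S.card : ℝ) ≤ 18 * p * q

/-- Mat. Matrices with rows in a rectangle. PROOF. `S` = the set of all rows of all `r ∈ T`. If `T` is
non-empty the two rows of one `r` are independent (`det r <> 0`), so `card S <= 18 p q` by S_Row, and `T`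
injects into `S × S`. -/
def S_Mat : Prop :=
  ∀ (a : MR) (p q : ℝ) (T : Finset MZ), a.det = 1 → 0 < p → 0 < q →
    (∀ r ∈ T, r.det ≠ 0 ∧ ∀ i, |(toR r * a) i 0| ≤ p ∧ |(toR r * a) i 1| ≤ q) →
    (T.card : ℝ) ≤ (18 * p * q) ^ 2

/-- Cov. Cells reached by one class. PROOF. For `t ∈ T` let `A_t = fr a (g t.1) (t.2 * u0)`, `D = det u0 =
det A_t` (real). `|D| >= |A00 A11| - |A01 A10| >= A0 D0 - w^2 Y^2 >= (3/4) A0 D0` (as `2 w Y <= A0, D0`). For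
`t, t' ∈ T` put `M = fr (g t'.1) (g t.1) (t.2 * adj t'.2)`; `adj t'.2 * t'.2 = 1`, so `M * A_t' = A_t` and
`M = A_t * adj(A_t') / D`. So (`A = A_t`, `A' = A_t'`) `|M00| = |A00 A'11 - A01 A'10|/|D| <=
(4 A0 D0 + w^2 Y^2)/((3/4) A0 D0) <= 16`, the same for `M11`; `M01 = A00 A'00 (A01/A00 - A'01/A'00)/D` up to sign,
`|M01| <= (16/3) (A0/D0) |ρ1 - ρ1'|`, `ρ1 = A01/A00`, and `|M10| <= (16/3) (D0/A0) |ρ2 - ρ2'|`, `ρ2 = A10/A11`.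
Put `f t = (⌊ρ1/(3 w D0/A0)⌋, ⌊ρ2/(3 w A0/D0)⌋)`. `|ρ1| <= w Y/A0`, so the first coordinate takes at most
`2 Y/(3 D0) + 2 <= (8/3) Y/D0` values (`D0 <= Y`), the second at most `(8/3) Y/A0`. If `f t = f t'` then
`|ρ1 - ρ1'| <= 3 w D0/A0`, so `|M01| <= 16 w`, and `|M10| <= 16 w`: `Near 16 w 1 M`. For fixed `t'` the map
`t -> (t.1, t.2 * adj t'.2)` is injective on the fibre, so every fibre of `f` has at most `B` elements (Ov with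
`i = t'.1`). Total `<= (64/9) B (Y/A0)(Y/D0)`. -/
def S_Cov : Prop :=
  ∀ (ι : Type) (V : Finset ι) (g : ι → MR) (w B Y A0 D0 : ℝ) (a : MR) (u0 : MZ) (T : Finset (ι × MZ)),
    0 < w → 0 ≤ B → (∀ i ∈ V, (g i).det = 1) → Ov w B V g → a.det = 1 → u0.det ≠ 0 → 0 < A0 → 0 < D0 →
    A0 ≤ Y → D0 ≤ Y → 2 * w * Y ≤ A0 → 2 * w * Y ≤ D0 →
    (∀ t ∈ T, t.1 ∈ V ∧ t.2.det = 1 ∧
      A0 ≤ |fr a (g t.1) (t.2 * u0) 0 0| ∧ |fr a (g t.1) (t.2 * u0) 0 0| ≤ 2 * A0 ∧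
      D0 ≤ |fr a (g t.1) (t.2 * u0) 1 1| ∧ |fr a (g t.1) (t.2 * u0) 1 1| ≤ 2 * D0 ∧
      |fr a (g t.1) (t.2 * u0) 0 1| ≤ w * Y ∧ |fr a (g t.1) (t.2 * u0) 1 0| ≤ w * Y) →
    (T.card : ℝ) ≤ 8 * B * (Y / A0) * (Y / D0)

/-- Deg. Number of cells reached by short non-singular matrices. PROOF. Choose `u_y` for `y ∈ W`,
`A = fr a (g y) u_y`. `|A00 A11| >= |det u_y| - w^2 Y^2 >= 1 - 1/256 >= 1/2` and `|A00|, |A11| <= Y`, so
`|A00|, |A11| >= 1/(2Y)`. Dyadic classes `(i,j)`, `i, j` integers: `2^i <= |A00| < 2^(i+1)`,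
`2^j <= |A11| < 2^(j+1)`; `-2 - log2 Y <= i <= log2 Y`: at most `2 log2 Y + 3 <= 3 (1 + log Y)` values. Fix a
class, `A0 = 2^i`, `D0 = 2^j`: `A0 >= 1/(4Y) >= 2 w Y` (`16 w Y^2 <= 1`), the same for `D0`; `A0, D0 <= Y`.
(a) the different matrices `u_y` in the class: `toR u_y * a = g y * A` (S_Frm), row `k`: entries at most
`R (2 A0 + w Y) <= 3 R A0` and `3 R D0`, so by S_Mat at most `(162 R^2 A0 D0)^2` matrices. (b) for one matrix `u`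
apply S_Cov with `u0 = u`, `T = {(y, 1) : u_y = u, class (i,j)}`: at most `8 B Y^2/(A0 D0)` cells. Total of the
class: `8 * 162^2 R^4 B A0 D0 Y^2 <= 8 * 162^2 R^4 B d Y^2` (`A0 D0 <= |A00 A11| <= d`). Times the number
`9 (1 + log Y)^2` of classes. -/
def S_Deg : Prop :=
  ∃ C : ℝ, 1 ≤ C ∧ ∀ (ι : Type) (V : Finset ι) (g : ι → MR) (R w B Y d : ℝ) (a : MR) (W : Finset ι),
    1 ≤ R → 0 < w → 0 ≤ B → 1 ≤ Y → 0 ≤ d → 16 * w * Y ^ 2 ≤ 1 → Uni R V g → Ov w B V g → a.det = 1 → W ⊆ V →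
    (∀ y ∈ W, ∃ u : MZ, u.det ≠ 0 ∧ Dg Y w a (g y) u ∧
      |fr a (g y) u 0 0| * |fr a (g y) u 1 1| ≤ d) →
    (W.card : ℝ) ≤ C * B * R ^ 4 * d * Y ^ 2 * (1 + Real.log Y) ^ 2

/-- Div. Hermite form and number of right divisors. PROOF. (1) Bezout: there is `γ` with
`(γ r) 1 0 = 0`, `(γ r) 0 0 = gcd > 0` (the first column of `r` is not zero); then subtract a multiple of the
second row (`γ` times `!![1, k; 0, 1]`) to get `0 <= (γ r) 0 1 < |(γ r) 1 1|`, `(γ r) 1 1 <> 0` as `det r <> 0`.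
(2) `H = !![a, b; 0, d]`, `a > 0`: `a` and `|d|` divide `det u` (`det u = det r2 * a * d`): at most
`2 tau(|det u|)^2` pairs `(a, d)`. Fix `(a, d)`. `u = r2 H` gives `u00 = a p`, `u10 = a s`, `u01 = p b + q d`,
`u11 = s b + t d` with `r2 = !![p, q; s, t]`; `p = u00/a`, `s = u10/a` are fixed. For two solutions `b, b'`:
`d | p (b - b')`, `d | s (b - b')`. Let `e = gcd (gcd p s) d` (natural, `> 0`): `(|d|/e) | b - b'`. So the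
`b ∈ [0, |d|)` lie in one class modulo `|d|/e`: at most `e` values. `e` divides `u00, u10` and, because it divides
`p, s, d`, also `u01, u11`: `e` divides `cont u`, `cont u > 0` as `u <> 0`: `e <= cont u`. -/
def S_Div : Prop :=
  (∀ r : MZ, r.det ≠ 0 → ∃ γ : MZ, γ.det = 1 ∧ Red (γ * r)) ∧
  (∀ (u : MZ) (S : Finset MZ), u.det ≠ 0 → (∀ H ∈ S, Red H ∧ ∃ r2 : MZ, u = r2 * H) →
    S.card ≤ 2 * (u.det.natAbs.divisors.card) ^ 2 * cont u)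

/-- Wdg. Short vectors span at most rank two. PROOF. Over the reals, with `A_u = fr a b u` etc.:
`nm A_u A_v A_t = adj b * toR (nm u v t) * a = fr a b (nm u v t)` by the two identities in the docstring of `nm`
(`det a = det (adj b) = 1`; `toR (nm u v t) = nm (toR u) (toR v) (toR t)`, cast). Every entry of `nm A_u A_v A_t`
is a 3x3 determinant whose rows are three of the four entries; one of the three columns is off-diagonal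
(entries at most `w Y`), the others at most `Y`: at most `6 w Y^3`. `toR (nm u v t) = b * fr a b (nm u v t) * adj a`
has entries at most `4 R^2 * 6 w Y^3 < 1`: the integral matrix is zero. -/
def S_Wdg : Prop :=
  ∀ (a b : MR) (R w Y : ℝ) (u v t : MZ), 1 ≤ R → 0 < w → w ≤ 1 → 0 < Y → a.det = 1 → b.det = 1 →
    (∀ i j, |a i j| ≤ R) → (∀ i j, |b i j| ≤ R) → 24 * R ^ 2 * w * Y ^ 3 < 1 →
    Dg Y w a b u → Dg Y w a b v → Dg Y w a b t → nm u v t = 0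

/-- Pck. Packing in rank two. PROOF. `x(u) = (A00, A11, A01/w, A10/w)`, `A = fr a b u`: additive in `u`,
injective, `Dg Y` iff all `|x_k| <= Y`. For `u, v, t ∈ U` all 3x3 minors of `x(u), x(v), x(t)` vanish (`nm` of the
frames is `fr a b (nm u v t) = 0`, see S_Wdg; scaling by `w`). CLAIM: there are indices `i, j` with
`|x_k(u) - x_k(v)| <= |x_i(u) - x_i(v)| + |x_j(u) - x_j(v)|` for all `u, v ∈ U` and all `k`. Case 1: some 2x2 minor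
`m_ij(u0,v0) = x_i(u0) x_j(v0) - x_j(u0) x_i(v0)`, `u0, v0 ∈ U`, is not zero: choose `(u0, v0, i, j)` with `|m_ij|`
maximal. For `s = u - v` the vanishing 3x3 minors (linear in the first vector) give
`x_k(s) m_ij = x_i(s) m_kj + x_j(s) m_ik`, and `|m_kj|, |m_ik| <= |m_ij|`. Case 2: all 2x2 minors vanish. If
`x = 0` on `U` trivial; otherwise choose `(u0, i)` with `|x_i(u0)|` maximal: `x_k(s) x_i(u0) = x_i(s) x_k(u0)` gives
`|x_k(s)| <= |x_i(s)|` (any `j`). Now the map `u -> (⌊2 x_i(u)/lam⌋, ⌊2 x_j(u)/lam⌋)` is injective on `U`: equal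
values give `|x_i(u-v)|, |x_j(u-v)| < lam/2`, so all `|x_k(u-v)| < lam`, `Dg lam (u - v)`, `u = v`. Each coordinate takes
at most `4Y/lam + 2 <= 6 Y/lam` values. -/
def S_Pck : Prop :=
  ∀ (a b : MR) (w Y lam : ℝ) (U : Finset MZ), a.det = 1 → b.det = 1 → 0 < w → 0 < lam → lam ≤ Y →
    (∀ u ∈ U, Dg Y w a b u) → (∀ u ∈ U, ∀ v ∈ U, ∀ t ∈ U, nm u v t = 0) →
    (∀ u : MZ, u ≠ 0 → ¬ Dg lam w a b u) → (U.card : ℝ) ≤ 36 * (Y / lam) ^ 2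

/-- Sum. Sum of the contents. PROOF. For `c >= 1` let `U_c = {u ∈ U : cont u = c}` (`cont u >= 1` as `u <> 0`):
`u = c • u'`, `u' <> 0`, `Dg (Y/c) w a b u'`; so `Y/c > lam` if `U_c` is non-empty (else `u'` contradicts the last
hypothesis, monotonicity of `Dg` in `Y`), and S_Pck for the set of the `u'` with `Y/c` instead of `Y` (the third
hypothesis, `Dg (Y/c) -> Dg Y`) gives `card U_c <= 36 (Y/(c lam))^2`. So the sum is at most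
`sum_(1 <= c <= Y/lam) c * 36 (Y/lam)^2/c^2 <= 36 (Y/lam)^2 (1 + log (Y/lam))` (harmonic sum,
`harmonic_le_one_add_log`). -/
def S_Sum : Prop :=
  ∀ (a b : MR) (w Y lam : ℝ) (U : Finset MZ), a.det = 1 → b.det = 1 → 0 < w → 0 < lam → lam ≤ Y →
    (∀ u ∈ U, u ≠ 0 ∧ Dg Y w a b u) →
    (∀ u v t : MZ, Dg Y w a b u → Dg Y w a b v → Dg Y w a b t → nm u v t = 0) →
    (∀ u : MZ, u ≠ 0 → ¬ Dg lam w a b u) →
    ∑ u ∈ U, (cont u : ℝ) ≤ 36 * (Y / lam) ^ 2 * (1 + Real.log (Y / lam))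

/-- the divisor bound (used as a hypothesis; the same statement as `S_Tau` in HS/E/Spec.lean) -/
def S_Tau : Prop := ∀ ε : ℝ, 0 < ε → ∃ C : ℝ, 1 ≤ C ∧ ∀ n : ℕ, 1 ≤ n →
  (n.divisors.card : ℝ) ≤ C * (n : ℝ) ^ ε

/-- Two. Two steps. PROOF. `C` large in terms of `R`, `ε`. (0) We may assume `lam >= 1/(8 R^2)`: otherwise replace
`lam` by `1/(8 R^2)` (`<= 2 Z^2`; the last hypothesis holds for it by S_Frm (5); `Z^4/lam^2` becomes smaller).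
(1) Choose `r1(y), r2(y)` and `u(y) = r2 r1`: `det u(y) <> 0`, `Dg (2 Z^2) w (g x) (g z) (u(y))` (S_Frm (3)), so
`|det u(y)| <= 4 Z^4 + 4 Z^4 = 8 Z^4`. Choose `γ_y` with `H(y) = γ_y r1(y)` reduced (S_Div (1)), so
`r1(y) = adj(γ_y) H(y)` and `H(y)` is a right divisor of `u(y)`. Let `(i,j)` be the dyadic class of
`(|B|, |C'|)`, `B = fr (g x) (g y) (r1) 0 1`, `C' = ... 1 0`: `2^i <= |B| < 2^(i+1)` etc. As
`|B C'| >= 1 - w^2 Z^2 >= 1/2` and `|B|, |C'| <= Z` there are at most `9 (1 + log Z)^2` classes (see S_Deg).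
(2) For given `(u, H, i, j)` the set `T = {(y, adj γ_y)}` satisfies S_Cov with `a = g x * J` (S_Frm (1), (2):
`fr (g x * J) (g y) r1` has diagonal `-B, C'` and off-diagonal entries at most `w Z`), `u0 = H`, `Y = Z`,
`A0 = 2^i`, `D0 = 2^j` (`2 w Z <= 1/(4Z) <= A0, D0` as `16 w Z^2 <= 1`): at most
`8 B Z^2/(A0 D0) <= 32 B Z^2/d` cells `y` (`A0 D0 >= |B C'|/4 >= d/4`). (3) For given `u` there are at most
`2 tau(|det u|)^2 cont u` matrices `H` (S_Div (2)), `tau(|det u|) <= C_ε' (8 Z^4)^ε'` (S_Tau, `ε' = ε/16`).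
(4) `sum cont u` over the set of all `u(y)`: S_Sum with `Y = 2 Z^2`; its third hypothesis is S_Wdg
(`24 R^2 w (2 Z^2)^3 = 192 R^2 w Z^6 < 1` if `C >= 200 R^2`): at most `36 (4 Z^4/lam^2) (1 + log (2 Z^2/lam))`,
`log (2 Z^2/lam) <= log (16 R^2 Z^2)`. (5) Total: `card W <= 9 (1+log Z)^2 * 32 B (Z^2/d) * 2 C_ε'^2 (8 Z^4)^(2ε') *
144 (Z^4/lam^2) (1 + log (16 R^2 Z^2)) <= C B Z^ε (Z^2/d) (Z^4/lam^2)` (`1 + log t <= C_δ t^δ`). -/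
def S_Two : Prop :=
  ∀ (R ε : ℝ), 1 ≤ R → 0 < ε → ∃ C : ℝ, 1 ≤ C ∧
    ∀ (ι : Type) (V : Finset ι) (g : ι → MR) (w B Z d lam : ℝ) (x z : ι) (W : Finset ι),
      0 < w → w ≤ 1 → 0 ≤ B → 1 ≤ Z → 1 / 2 ≤ d → C * w * Z ^ 6 ≤ 1 → Uni R V g → Ov w B V g →
      x ∈ V → z ∈ V → W ⊆ V →
      (∀ y ∈ W, ∃ r1 r2 : MZ, Fl Z w (g x) (g y) r1 ∧ Fl Z w (g y) (g z) r2 ∧
        d ≤ |fr (g x) (g y) r1 0 1| * |fr (g x) (g y) r1 1 0|) →
      0 < lam → lam ≤ 2 * Z ^ 2 → (∀ u : MZ, u ≠ 0 → ¬ Dg lam w (g x) (g z) u) →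
      (W.card : ℝ) ≤ C * B * Z ^ ε * (Z ^ 2 / d) * (Z ^ 4 / lam ^ 2)

/-- Cmb. Graphs. PROOF. `deg y = card {x : (x,y) ∈ E}` (`= card {z : (y,z) ∈ E}` by symmetry). (1) the average of
the out-degree is at least `ρ card V`. (2) `N(x,z) = card {y : (x,y), (y,z) ∈ E}`: `sum_(x,z) N(x,z) =
sum_y (deg y)^2 >= (card E)^2/card V >= ρ^2 (card V)^3`. So some `x ∈ V` has `sum_z N(x,z) >= ρ^2 (card V)^2`.
`Zx = {z : ρ^2 card V <= 2 N(x,z)}`: as `N <= card V`, `ρ^2 (card V)^2 <= card Zx * card V + card V * (ρ^2 card V)/2`,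
so `ρ^2 card V <= 2 card Zx`. -/
def S_Cmb : Prop :=
  ∀ (ι : Type) (V : Finset ι) (E : Finset (ι × ι)) (ρ : ℝ), 0 < ρ → V.Nonempty →
    (∀ t ∈ E, t.1 ∈ V ∧ t.2 ∈ V) → (∀ t ∈ E, (t.2, t.1) ∈ E) → ρ * (V.card : ℝ) ^ 2 ≤ (E.card : ℝ) →
    (∃ x ∈ V, ∃ W : Finset ι, W ⊆ V ∧ ρ * (V.card : ℝ) ≤ (W.card : ℝ) ∧ ∀ y ∈ W, (x, y) ∈ E) ∧
    ∃ x ∈ V, ∃ Zx : Finset ι, Zx ⊆ V ∧ ρ ^ 2 * (V.card : ℝ) ≤ 2 * (Zx.card : ℝ) ∧
      ∀ z ∈ Zx, ∃ W : Finset ι, W ⊆ V ∧ ρ ^ 2 * (V.card : ℝ) ≤ 2 * (W.card : ℝ) ∧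
        ∀ y ∈ W, (x, y) ∈ E ∧ (y, z) ∈ E

/-- Dyd. A popular size of the flips. PROOF. For `(i,j) ∈ E` let `r` be a flip, `b = |fr .. r 0 1|`,
`c = |fr .. r 1 0|`: `b c <= Z^2` and `b c >= |det r| - w^2 Z^2 >= 1/2`. So `2^k <= b c <= 2^(k+1)` for an integer
`k` with `-1 <= k <= 2 log2 Z`: at most `2 log2 Z + 2 <= 4 (1 + log Z)` values. `E_k` = all pairs of `V × V` which
have a flip of size `k`: symmetric by S_Frm (4); `E` is contained in the union of the `E_k`. Take `E'` = the largest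
`E_k`, `d = 2^k`. -/
def S_Dyd : Prop :=
  ∀ (ι : Type) (V : Finset ι) (g : ι → MR) (w Z : ℝ) (E : Finset (ι × ι)),
    0 < w → w ≤ 1 → 1 ≤ Z → 2 * w * Z ≤ 1 → (∀ i ∈ V, (g i).det = 1) → E.Nonempty →
    (∀ t ∈ E, t.1 ∈ V ∧ t.2 ∈ V ∧ ∃ r : MZ, Fl Z w (g t.1) (g t.2) r) →
    ∃ (d : ℝ) (E' : Finset (ι × ι)), 1 / 2 ≤ d ∧
      (∀ t ∈ E', t.1 ∈ V ∧ t.2 ∈ V ∧ ∃ r : MZ, Fl Z w (g t.1) (g t.2) r ∧
        d ≤ |fr (g t.1) (g t.2) r 0 1| * |fr (g t.1) (g t.2) r 1 0| ∧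
        |fr (g t.1) (g t.2) r 0 1| * |fr (g t.1) (g t.2) r 1 0| ≤ 2 * d) ∧
      (∀ t ∈ E', (t.2, t.1) ∈ E') ∧ (E.card : ℝ) ≤ 4 * (1 + Real.log Z) * (E'.card : ℝ)

/-- **FLIP LEMMA**. PROOF. `V` non-empty, `E` non-empty (otherwise `V` is empty and both sides are 0).
`L = 1 + log Z`, `ρ' = ρ/(4L)`, `(d, E')` from S_Dyd: `card E' >= ρ' (card V)^2`. Write `v = card V`.
(i) S_Cmb (1) and S_Deg with `a = g x * J`, `Y = Z`, `2d` (S_Frm (1), (2)): `ρ' v <= 2 C1 B R^4 d Z^2 L^2`.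
(ii) S_Cmb (2): `x`, `Zx`, `W_z`. Put `Lam^2 = 4 C2 B Z^(6+ε')/(d ρ'^2 v)`, so that the bound of S_Two with
`lam = Lam` is `ρ'^2 v/4 < card W_z` (`ρ'^2 v > 0`).
CASE A, `Lam > 2 Z^2`: `d ρ'^2 v < C2 B Z^(2+ε')`, with (i): `ρ'^3 v^2 <= C B^2 Z^(4+ε') L^2`. Every `z ∈ Zx` has a
non-singular `u = r2 r1`, `Dg (2 Z^2)` (`W_z` is non-empty, S_Frm (3)), so S_Deg with `a = g x`, `Y = 2 Z^2`, `d = 4 Z^4`
gives `ρ'^2 v <= C B Z^8 L^2`. Hence `ρ'^8 v^5 = (ρ'^3 v^2)^2 ρ'^2 v <= C B^5 Z^(16+2ε') L^6`.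
CASE B, `Lam <= 2 Z^2`: by S_Two every `z ∈ Zx` has `u_z <> 0` with `Dg Lam w (g x) (g z) u_z`. B1: one `u_z` is
singular: then `Lam > lam0` (hypothesis), so `lam0^2 ρ'^3 v^2 <= 4 C2 B Z^(6+ε') ρ' v/d <= C B^2 Z^(8+ε') L^2` by (i).
B2: all `u_z` are non-singular. `4 R^2 Lam >= 1` (S_Frm (5), `Zx` non-empty); `Y = max 1 Lam <= 4 R^2 Lam`, `Y <= 2 Z^2`;
S_Deg with `a = g x`, `d = Y^2`: `ρ'^2 v <= 2 card Zx <= C B Lam^4 L^2 <= C B^3 Z^(12+2ε') L^2/(d^2 ρ'^4 v^2)`, and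
`d >= ρ' v/(2 C1 B R^4 Z^2 L^2)`: `ρ'^8 v^5 <= C B^5 Z^(16+2ε') L^6`. Finally `ρ = 4 L ρ'`, `L <= C Z^(ε/40)`,
`ε' = ε/4`, `16 w (2 Z^2)^2 = 64 w Z^4 <= 1`. -/
def StmtFlip : Prop :=
  ∀ (R ε : ℝ), 1 ≤ R → 0 < ε → ∃ C : ℝ, 1 ≤ C ∧
    ∀ (ι : Type) (V : Finset ι) (g : ι → MR) (w Z B lam0 ρ : ℝ) (E : Finset (ι × ι)),
      0 < w → w ≤ 1 → 1 ≤ Z → 1 ≤ B → 0 < lam0 → 0 < ρ → C * w * Z ^ 6 ≤ 1 → Uni R V g → Ov w B V g →
      (∀ i ∈ V, ∀ j ∈ V, ∀ u : MZ, u ≠ 0 → u.det = 0 → ¬ Dg lam0 w (g i) (g j) u) →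
      (∀ t ∈ E, t.1 ∈ V ∧ t.2 ∈ V ∧ ∃ r : MZ, Fl Z w (g t.1) (g t.2) r) →
      ρ * (V.card : ℝ) ^ 2 ≤ (E.card : ℝ) →
      ρ ^ 8 * (V.card : ℝ) ^ 5 ≤ C * B ^ 5 * Z ^ (16 + ε) ∨
      ρ ^ 3 * (V.card : ℝ) ^ 2 * lam0 ^ 2 ≤ C * B ^ 2 * Z ^ (8 + ε)

end HSL.Flp
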