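import Pool.Agent.Lib.HS.L.Defs

/-!
# Package `HS`, the bands: common definitions of the counting part (helper66)

`a`, `b` are real matrices of determinant one with bounded entries (representatives of the cells), `w` is the width
of the cells, `fr a b h = b⁻¹ h a` the frame of the integral matrix `h` from `a` to `b`.
-/

set_option autoImplicit false

namespace HSB

open HSL Matrix

/-- unimodular with bounded entries -/
def Um (R : ℝ) (a : MR) : Prop := a.det = 1 ∧ ∀ i j, |a i j| ≤ R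

/-- the gauge box: diagonal of the frame at most `T`, off-diagonal entries at most `w T` -/
def Bx (w T : ℝ) (a b : MR) : Set MZ :=
  {u | |fr a b u 0 0| ≤ T ∧ |fr a b u 1 1| ≤ T ∧ |fr a b u 0 1| ≤ w * T ∧ |fr a b u 1 0| ≤ w * T}

/-- the antidiagonal box: diagonal of the frame at most `w Z`, off-diagonal entries at most `Z` -/
def Ab (w Z : ℝ) (a b : MR) : Set MZ :=
  {r | |fr a b r 0 0| ≤ w * Z ∧ |fr a b r 1 1| ≤ w * Z ∧ |fr a b r 0 1| ≤ Z ∧ |fr a b r 1 0| ≤ Z}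

/-- the polar form of the determinant: `det (h + r) = det h + pl h r + det r` -/
def pl (h r : MZ) : ℤ := h 0 0 * r 1 1 + h 1 1 * r 0 0 - h 0 1 * r 1 0 - h 1 0 * r 0 1

/-- square returns of size `K` from `a` to `b`: primitive, `det h = m²`, `K ≤ m ≤ B K` -/
def SqR (C B w K : ℝ) (a b : MR) (h : MZ) : Prop :=
  Prim h ∧ ∃ m : ℕ, K ≤ (m : ℝ) ∧ (m : ℝ) ≤ B * K ∧ Ret C w a b m h

/-- short vectors may be taken nonsingular, up to the factor `ρ` -/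
def Ty (w ρ T₀ : ℝ) (a b : MR) : Prop :=
  ∀ T : ℝ, 0 ≤ T → T ≤ T₀ → (∃ u : MZ, u ≠ 0 ∧ u ∈ Bx w T a b) →
    ∃ u' : MZ, u'.det ≠ 0 ∧ u' ∈ Bx w (ρ * T) a b

/-- the frame coordinates `a⁻¹ q` of an integral vector -/
def co (a : MR) (q : Fin 2 → ℤ) : Fin 2 → ℝ := a.adjugate *ᵥ (fun k => (q k : ℝ))

/-- there is a rational direction `q` with `|(a⁻¹ q)₀| ≤ ρ`, `|(a⁻¹ q)₁| ≤ e` -/
def Cu (ρ e : ℝ) (a : MR) : Prop := ∃ q : Fin 2 → ℤ, q ≠ 0 ∧ |co a q 0| ≤ ρ ∧ |co a q 1| ≤ e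

/-- there is a rational direction `q` with `|(a⁻¹ q)₁| ≤ ρ`, `|(a⁻¹ q)₀| ≤ e` -/
def Cu' (ρ e : ℝ) (a : MR) : Prop := ∃ q : Fin 2 → ℤ, q ≠ 0 ∧ |co a q 1| ≤ ρ ∧ |co a q 0| ≤ e

lemma Bx_mono {w T T' : ℝ} {a b : MR} (hw : 0 ≤ w) (h : T ≤ T') : Bx w T a b ⊆ Bx w T' a b := by
  have h1 := mul_le_mul_of_nonneg_left h hw
  exact fun u hu => ⟨hu.1.trans h, hu.2.1.trans h, hu.2.2.1.trans h1, hu.2.2.2.trans h1⟩

lemma Ab_mono {w Z Z' : ℝ} {a b : MR} (hw : 0 ≤ w) (h : Z ≤ Z') : Ab w Z a b ⊆ Ab w Z' a b := by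
  have h1 := mul_le_mul_of_nonneg_left h hw
  exact fun u hu => ⟨hu.1.trans h1, hu.2.1.trans h1, hu.2.2.1.trans h, hu.2.2.2.trans h⟩

lemma det_add_pl (h r : MZ) : (h + r).det = h.det + pl h r + r.det := by
  rw [Matrix.det_fin_two, Matrix.det_fin_two, Matrix.det_fin_two]
  simp only [pl, Matrix.add_apply]
  ring

lemma pl_self (h : MZ) : pl h h = 2 * h.det := by
  rw [Matrix.det_fin_two]
  simp only [pl]
  ring

end HSB
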