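import Pool.Agent.Lib.HS.Bd.SpecFlip

set_option autoImplicit false

/-!
PROJECT H* (MP_a54f13_nt), high bands, FLIP LEMMA, module FCmb: paths of length two in a dense graph.
-/

namespace HSL.Flp

open HSL Matrix

namespace FCmbAux

open Classical in
/-- indicator of `E` -/
noncomputable def e {ι : Type} (E : Finset (ι × ι)) (x y : ι) : ℝ := if (x, y) ∈ E then 1 else 0

open Classical in
theorem card_out {ι : Type} (V : Finset ι) (E : Finset (ι × ι)) (x : ι) :
    ∑ y ∈ V, e E x y = ((V.filter (fun y => (x, y) ∈ E)).card : ℝ) := by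
  unfold e
  rw [Finset.sum_boole]

theorem card_E {ι : Type} (V : Finset ι) (E : Finset (ι × ι)) (hE : ∀ t ∈ E, t.1 ∈ V ∧ t.2 ∈ V) :
    (E.card : ℝ) = ∑ x ∈ V, ∑ y ∈ V, e E x y := by
  classical
  rw [← Finset.sum_product']
  unfold e
  rw [Finset.sum_boole]
  congr 2
  ext t
  rw [Finset.mem_filter, Finset.mem_product]
  constructor
  · intro h
    exact ⟨hE t h, h⟩
  · intro h
    exact h.2

end FCmbAux

open FCmbAux in
theorem tCmb : S_Cmb := by
  classical
  intro ι V E ρ hρ hV hE hsym hcard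
  have hv : 0 < (V.card : ℝ) := by exact_mod_cast Finset.card_pos.2 hV
  obtain ⟨v, hvd⟩ : ∃ v : ℝ, v = (V.card : ℝ) := ⟨_, rfl⟩
  rw [← hvd] at hv hcard ⊢
  have hsum := card_E V E hE
  rw [hsum] at hcard
  constructor
  · have h1 : ∑ x ∈ V, ρ * v ≤ ∑ x ∈ V, ∑ y ∈ V, e E x y := by
      rw [Finset.sum_const, nsmul_eq_mul, ← hvd]
      calc v * (ρ * v) = ρ * v ^ 2 := by ring
        _ ≤ _ := hcard
    obtain ⟨x, hx, hx2⟩ := Finset.exists_le_of_sum_le hV h1
    refine ⟨x, hx, V.filter (fun y => (x, y) ∈ E), Finset.filter_subset _ _, ?_, ?_⟩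
    · rw [card_out] at hx2
      exact hx2
    · intro y hy
      exact (Finset.mem_filter.1 hy).2
  · have hse : ∀ x y, e E x y = e E y x := by
      intro x y
      unfold e
      by_cases h : (x, y) ∈ E
      · rw [if_pos h, if_pos (hsym _ h)]
      · rw [if_neg h, if_neg (fun h2 => h (hsym _ h2))]
    have hN : ∀ x z, ∑ y ∈ V, e E x y * e E y z =
        ((V.filter (fun y => (x, y) ∈ E ∧ (y, z) ∈ E)).card : ℝ) := by
      intro x z
      rw [← Finset.sum_boole]
      apply Finset.sum_congr rfl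
      intro y _
      unfold e
      by_cases h1 : (x, y) ∈ E
      · by_cases h2 : (y, z) ∈ E
        · rw [if_pos h1, if_pos h2, if_pos ⟨h1, h2⟩, one_mul]
        · rw [if_pos h1, if_neg h2, if_neg (fun h => h2 h.2), mul_zero]
      · have h3 : ¬ ((x, y) ∈ E ∧ (y, z) ∈ E) := fun h => h1 h.1
        rw [if_neg h1, if_neg h3, zero_mul]
    have htot : ρ ^ 2 * v ^ 3 ≤ ∑ x ∈ V, ∑ z ∈ V, ∑ y ∈ V, e E x y * e E y z := by
      have h1 : ∑ x ∈ V, ∑ z ∈ V, ∑ y ∈ V, e E x y * e E y z = ∑ y ∈ V, (∑ z ∈ V, e E y z) ^ 2 := by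
        have h2 : ∀ x ∈ V, ∑ z ∈ V, ∑ y ∈ V, e E x y * e E y z =
            ∑ y ∈ V, e E x y * ∑ z ∈ V, e E y z := by
          intro x _
          rw [Finset.sum_comm]
          exact Finset.sum_congr rfl fun y _ => by rw [Finset.mul_sum]
        rw [Finset.sum_congr rfl h2, Finset.sum_comm]
        apply Finset.sum_congr rfl
        intro y _
        rw [← Finset.sum_mul, sq]
        congr 1
        exact Finset.sum_congr rfl fun x _ => hse x y
      rw [h1]
      have h3 := sq_sum_le_card_mul_sum_sq (s := V) (f := fun y => ∑ z ∈ V, e E y z)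
      rw [← hvd] at h3
      have h4 : (ρ * v ^ 2) ^ 2 ≤ (∑ x ∈ V, ∑ y ∈ V, e E x y) ^ 2 :=
        pow_le_pow_left₀ (by positivity) hcard 2
      have h5 : v * (ρ ^ 2 * v ^ 3) ≤ v * ∑ y ∈ V, (∑ z ∈ V, e E y z) ^ 2 := by
        calc v * (ρ ^ 2 * v ^ 3) = (ρ * v ^ 2) ^ 2 := by ring
          _ ≤ (∑ x ∈ V, ∑ y ∈ V, e E x y) ^ 2 := h4
          _ ≤ _ := h3
      exact le_of_mul_le_mul_left h5 hv
    have h1 : ∑ x ∈ V, ρ ^ 2 * v ^ 2 ≤ ∑ x ∈ V, ∑ z ∈ V, ∑ y ∈ V, e E x y * e E y z := by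
      rw [Finset.sum_const, nsmul_eq_mul, ← hvd]
      calc v * (ρ ^ 2 * v ^ 2) = ρ ^ 2 * v ^ 3 := by ring
        _ ≤ _ := htot
    obtain ⟨x, hx, hx2⟩ := Finset.exists_le_of_sum_le hV h1
    obtain ⟨n, hn⟩ : ∃ n : ι → ℝ, n = fun z => ∑ y ∈ V, e E x y * e E y z := ⟨_, rfl⟩
    have hn' : ∀ z, n z = ((V.filter (fun y => (x, y) ∈ E ∧ (y, z) ∈ E)).card : ℝ) := by
      intro z
      rw [hn]
      exact hN x z
    have hnv : ∀ z, n z ≤ v := by
      intro z
      rw [hn', hvd]
      exact_mod_cast Finset.card_le_card (Finset.filter_subset _ _)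
    have hx3 : ρ ^ 2 * v ^ 2 ≤ ∑ z ∈ V, n z := by
      rw [hn]
      exact hx2
    refine ⟨x, hx, V.filter (fun z => ρ ^ 2 * v ≤ 2 * n z), Finset.filter_subset _ _, ?_, ?_⟩
    · have h2 : ∑ z ∈ V, n z ≤
          ((V.filter (fun z => ρ ^ 2 * v ≤ 2 * n z)).card : ℝ) * v + v * (ρ ^ 2 * v / 2) := by
        rw [← Finset.sum_filter_add_sum_filter_not V (fun z => ρ ^ 2 * v ≤ 2 * n z)]
        apply add_le_add
        · calc ∑ z ∈ V.filter (fun z => ρ ^ 2 * v ≤ 2 * n z), n z
              ≤ ∑ z ∈ V.filter (fun z => ρ ^ 2 * v ≤ 2 * n z), v :=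
                Finset.sum_le_sum fun z _ => hnv z
            _ = _ := by rw [Finset.sum_const, nsmul_eq_mul]
        · calc ∑ z ∈ V.filter (fun z => ¬ ρ ^ 2 * v ≤ 2 * n z), n z
              ≤ ∑ z ∈ V.filter (fun z => ¬ ρ ^ 2 * v ≤ 2 * n z), (ρ ^ 2 * v / 2) := by
                apply Finset.sum_le_sum
                intro z hz
                have := (Finset.mem_filter.1 hz).2
                push Not at this
                linarith
            _ = ((V.filter (fun z => ¬ ρ ^ 2 * v ≤ 2 * n z)).card : ℝ) * (ρ ^ 2 * v / 2) := by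
                rw [Finset.sum_const, nsmul_eq_mul]
            _ ≤ v * (ρ ^ 2 * v / 2) := by
                apply mul_le_mul_of_nonneg_right _ (by positivity)
                rw [hvd]
                exact_mod_cast Finset.card_le_card (Finset.filter_subset _ _)
      have h3 : (ρ ^ 2 * v) * v ≤
          (2 * ((V.filter (fun z => ρ ^ 2 * v ≤ 2 * n z)).card : ℝ)) * v := by
        have h4 := hx3.trans h2
        nlinarith
      exact le_of_mul_le_mul_right h3 hv
    · intro z hz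
      have hz2 := (Finset.mem_filter.1 hz).2
      refine ⟨V.filter (fun y => (x, y) ∈ E ∧ (y, z) ∈ E), Finset.filter_subset _ _, ?_, ?_⟩
      · rw [← hn']
        exact hz2
      · intro y hy
        exact (Finset.mem_filter.1 hy).2

end HSL.Flp
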