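import Pool.Agent.Lib.HS.Bd.SpecFlip

/-!
PROJECT H* (MP_a54f13_nt), FLIP LEMMA, module Cov (helper40).
-/

set_option autoImplicit false

namespace HSL.Flp

open HSL Matrix

namespace FCovAux

lemma toR_mul (r s : MZ) : toR (r * s) = toR r * toR s := by
  ext i j
  simp [toR, Matrix.mul_apply]

lemma det_toR (u : MZ) : (toR u).det = ((u.det : ℤ) : ℝ) := by
  simp [toR, Matrix.det_fin_two]

lemma fr_mul (a b c : MR) (r s : MZ) (hc : c.det = 1) : fr a b (r * s) = fr c b r * fr a c s := by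
  have h : c * c.adjugate = 1 := by rw [Matrix.mul_adjugate, hc, one_smul]
  calc fr a b (r * s) = b.adjugate * toR r * (1 : MR) * toR s * a := by
        simp only [fr, toR_mul, Matrix.mul_assoc, Matrix.one_mul]
    _ = b.adjugate * toR r * (c * c.adjugate) * toR s * a := by rw [h]
    _ = fr c b r * fr a c s := by simp only [fr, Matrix.mul_assoc]

lemma fr_det (a b : MR) (u : MZ) (ha : a.det = 1) (hb : b.det = 1) :
    (fr a b u).det = ((u.det : ℤ) : ℝ) := by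
  have hb' : (b.adjugate).det = 1 := by
    rw [Matrix.det_adjugate, hb, one_pow]
  rw [fr, Matrix.det_mul, Matrix.det_mul, ha, hb', det_toR, one_mul, mul_one]

lemma entries (M A A' : MR) (hM : M * A' = A) :
    A'.det * M 0 0 = A 0 0 * A' 1 1 - A 0 1 * A' 1 0 ∧
    A'.det * M 1 1 = A 1 1 * A' 0 0 - A 1 0 * A' 0 1 ∧
    A'.det * M 0 1 = A 0 1 * A' 0 0 - A 0 0 * A' 0 1 ∧
    A'.det * M 1 0 = A 1 0 * A' 1 1 - A 1 1 * A' 1 0 := by
  subst hM
  simp only [Matrix.det_fin_two, Matrix.mul_apply, Fin.sum_univ_two]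
  refine ⟨?_, ?_, ?_, ?_⟩ <;> ring

/-- difference of two products -/
lemma sub2 {p q r s P Q R S : ℝ} (hp : |p| ≤ P) (hq : |q| ≤ Q) (hr : |r| ≤ R) (hs : |s| ≤ S) :
    |p * q - r * s| ≤ P * Q + R * S := by
  have h1 : |p * q| ≤ P * Q := by
    rw [abs_mul]
    exact mul_le_mul hp hq (abs_nonneg _) (le_trans (abs_nonneg _) hp)
  have h2 : |r * s| ≤ R * S := by
    rw [abs_mul]
    exact mul_le_mul hr hs (abs_nonneg _) (le_trans (abs_nonneg _) hr)
  exact le_trans (abs_sub _ _) (add_le_add h1 h2)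

/-- from `|D m| ≤ K * (A0 D0)`, `|D| ≥ 3/4 A0 D0` -/
lemma fin {D m K E : ℝ} (hE : 0 < E) (hD : 3 / 4 * E ≤ |D|) (h : |D * m| ≤ K * E) :
    |m| ≤ 4 / 3 * K := by
  rw [abs_mul] at h
  have h1 : 3 / 4 * E * |m| ≤ |D| * |m| := mul_le_mul_of_nonneg_right hD (abs_nonneg _)
  have h2 : E * |m| ≤ E * (4 / 3 * K) := by nlinarith
  exact le_of_mul_le_mul_left h2 hE

/-- off-diagonal entry -/
lemma off {x y x' y' X δ : ℝ} (hX : 0 < X) (hy : X ≤ |y|) (hy2 : |y| ≤ 2 * X) (hy' : X ≤ |y'|)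
    (hy2' : |y'| ≤ 2 * X) (h : |x / y - x' / y'| ≤ δ) :
    |x * y' - y * x'| ≤ 4 * X ^ 2 * δ := by
  have hy0 : y ≠ 0 := by
    intro h0
    rw [h0, abs_zero] at hy
    linarith
  have hy0' : y' ≠ 0 := by
    intro h0
    rw [h0, abs_zero] at hy'
    linarith
  have e : x * y' - y * x' = (y * y') * (x / y - x' / y') := by
    field_simp
  rw [e, abs_mul, abs_mul]
  have h1 : |y| * |y'| ≤ (2 * X) * (2 * X) :=
    mul_le_mul hy2 hy2' (abs_nonneg _) (by linarith)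
  have h2 : |y| * |y'| * |x / y - x' / y'| ≤ ((2 * X) * (2 * X)) * δ :=
    mul_le_mul h1 h (abs_nonneg _) (by positivity)
  calc |y| * |y'| * |x / y - x' / y'| ≤ ((2 * X) * (2 * X)) * δ := h2
    _ = 4 * X ^ 2 * δ := by ring

lemma near (w Y A0 D0 D : ℝ) (M A A' : MR) (hw : 0 < w) (hA0 : 0 < A0) (hD0 : 0 < D0)
    (hwA : 2 * w * Y ≤ A0) (hwD : 2 * w * Y ≤ D0) (hY : 0 < Y) (hM : M * A' = A)
    (hdet : A'.det = D) (a1 : A0 ≤ |A 0 0|) (a2 : |A 0 0| ≤ 2 * A0) (a3 : D0 ≤ |A 1 1|)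
    (a4 : |A 1 1| ≤ 2 * D0) (a5 : |A 0 1| ≤ w * Y) (a6 : |A 1 0| ≤ w * Y)
    (b1 : A0 ≤ |A' 0 0|) (b2 : |A' 0 0| ≤ 2 * A0) (b3 : D0 ≤ |A' 1 1|)
    (b4 : |A' 1 1| ≤ 2 * D0) (b5 : |A' 0 1| ≤ w * Y) (b6 : |A' 1 0| ≤ w * Y)
    (h1 : |A 0 1 / A 0 0 - A' 0 1 / A' 0 0| ≤ 3 * w * D0 / A0)
    (h2 : |A 1 0 / A 1 1 - A' 1 0 / A' 1 1| ≤ 3 * w * A0 / D0) :
    Near 16 w 1 M := by
  obtain ⟨e1, e2, e3, e4⟩ := entries M A A' hM
  rw [hdet] at e1 e2 e3 e4
  have hE : 0 < A0 * D0 := mul_pos hA0 hD0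
  have hwY : 0 < w * Y := mul_pos hw hY
  have hsq : (w * Y) * (w * Y) ≤ 1 / 4 * (A0 * D0) := by
    have := mul_le_mul (show w * Y ≤ A0 / 2 by linarith) (show w * Y ≤ D0 / 2 by linarith)
      hwY.le (by linarith)
    linarith
  have hD : 3 / 4 * (A0 * D0) ≤ |D| := by
    have e5 : D = A' 0 0 * A' 1 1 - A' 0 1 * A' 1 0 := by
      rw [← hdet, Matrix.det_fin_two]
    have h3 : A0 * D0 ≤ |A' 0 0 * A' 1 1| := by
      rw [abs_mul]
      exact mul_le_mul b1 b3 hD0.le (abs_nonneg _)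
    have h4 : |A' 0 1 * A' 1 0| ≤ (w * Y) * (w * Y) := by
      rw [abs_mul]
      exact mul_le_mul b5 b6 (abs_nonneg _) hwY.le
    have h5 : |A' 0 0 * A' 1 1| - |A' 0 1 * A' 1 0| ≤ |D| := by
      rw [e5]
      exact abs_sub_abs_le_abs_sub _ _
    linarith
  refine ⟨?_, ?_, ?_, ?_⟩
  · have h3 : |D * M 0 0| ≤ 17 / 4 * (A0 * D0) := by
      rw [e1]
      have := sub2 a2 b4 a5 b6
      nlinarith
    have := fin hE hD h3
    linarith
  · have h3 : |D * M 1 1| ≤ 17 / 4 * (A0 * D0) := by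
      rw [e2]
      have := sub2 a4 b2 a6 b5
      nlinarith
    have := fin hE hD h3
    linarith
  · have h3 : |D * M 0 1| ≤ (12 * w) * (A0 * D0) := by
      rw [e3]
      have h4 := off hA0 a1 a2 b1 b2 h1
      have h5 : 4 * A0 ^ 2 * (3 * w * D0 / A0) = (12 * w) * (A0 * D0) := by
        field_simp
        ring
      rw [← h5]
      exact h4
    have := fin hE hD h3
    linarith
  · have h3 : |D * M 1 0| ≤ (12 * w) * (A0 * D0) := by
      rw [e4]
      have h4 := off hD0 a3 a4 b3 b4 h2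
      have h5 : 4 * D0 ^ 2 * (3 * w * A0 / D0) = (12 * w) * (A0 * D0) := by
        field_simp
        ring
      rw [← h5]
      exact h4
    have := fin hE hD h3
    linarith

/-- number of values of the floor of a real in `[-x, x]` -/
lemma card_Icc (x : ℝ) (hx : 0 ≤ x) : ((Finset.Icc ⌊-x⌋ ⌊x⌋).card : ℝ) ≤ 2 * x + 2 := by
  have h1 : (⌊x⌋ : ℝ) ≤ x := Int.floor_le x
  have h2 : -x < (⌊-x⌋ : ℝ) + 1 := Int.lt_floor_add_one (-x)
  have h3 : ⌊-x⌋ ≤ ⌊x⌋ := Int.floor_mono (by linarith)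
  rw [Int.card_Icc]
  have h4 : (((⌊x⌋ + 1 - ⌊-x⌋).toNat : ℕ) : ℤ) = ⌊x⌋ + 1 - ⌊-x⌋ := Int.toNat_of_nonneg (by linarith)
  have h5 : (((⌊x⌋ + 1 - ⌊-x⌋).toNat : ℕ) : ℝ) = (⌊x⌋ : ℝ) + 1 - (⌊-x⌋ : ℝ) := by
    have := congrArg (fun z : ℤ => (z : ℝ)) h4
    push_cast at this
    exact this
  rw [h5]
  linarith

lemma mem_Icc {x v : ℝ} (h : |v| ≤ x) : ⌊v⌋ ∈ Finset.Icc ⌊-x⌋ ⌊x⌋ := by
  rw [Finset.mem_Icc]
  exact ⟨Int.floor_mono (abs_le.mp h).1, Int.floor_mono (abs_le.mp h).2⟩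

lemma floor_eq {u v c : ℝ} (hc : 0 < c) (h : ⌊u / c⌋ = ⌊v / c⌋) : |u - v| ≤ c := by
  have h1 := Int.abs_sub_lt_one_of_floor_eq_floor h
  rw [← sub_div, abs_div, abs_of_pos hc, div_lt_one hc] at h1
  exact h1.le

/-- `|x / y| / c ≤ z` -/
lemma quo {x y c X W : ℝ} (hX : 0 < X) (hy : X ≤ |y|) (hx : |x| ≤ W) (hc : 0 < c) :
    |x / y / c| ≤ W / X / c := by
  rw [abs_div, abs_div, abs_of_pos hc]
  apply div_le_div_of_nonneg_right _ hc.le
  exact div_le_div₀ (le_trans (abs_nonneg _) hx) hx hX hy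

end FCovAux

open FCovAux

theorem tCov : S_Cov := by
  classical
  intro ι V g w B Y A0 D0 a u0 T hw hB hg hOv ha hu0 hA0 hD0 hAY hDY hwA hwD hT
  have hY : 0 < Y := lt_of_lt_of_le hA0 hAY
  set c1 : ℝ := 3 * w * D0 / A0 with hc1
  set c2 : ℝ := 3 * w * A0 / D0 with hc2
  have hc1p : 0 < c1 := by positivity
  have hc2p : 0 < c2 := by positivity
  let Am : ι × MZ → MR := fun t => fr a (g t.1) (t.2 * u0)
  let f : ι × MZ → ℤ × ℤ := fun t => (⌊Am t 0 1 / Am t 0 0 / c1⌋, ⌊Am t 1 0 / Am t 1 1 / c2⌋)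
  set x1 : ℝ := Y / (3 * D0) with hx1
  set x2 : ℝ := Y / (3 * A0) with hx2
  have hx1p : 0 < x1 := by positivity
  have hx2p : 0 < x2 := by positivity
  let S : Finset (ℤ × ℤ) := (Finset.Icc ⌊-x1⌋ ⌊x1⌋) ×ˢ (Finset.Icc ⌊-x2⌋ ⌊x2⌋)
  have hmaps : ∀ t ∈ T, f t ∈ S := by
    intro t ht
    obtain ⟨_, _, p1, p2, p3, p4, p5, p6⟩ := hT t ht
    rw [Finset.mem_product]
    constructor
    · apply mem_Icc
      have h := quo hA0 p1 p5 hc1p
      have e : w * Y / A0 / c1 = x1 := by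
        rw [hc1, hx1]
        field_simp
      rw [e] at h
      exact h
    · apply mem_Icc
      have h := quo hD0 p3 p6 hc2p
      have e : w * Y / D0 / c2 = x2 := by
        rw [hc2, hx2]
        field_simp
      rw [e] at h
      exact h
  have hfib : ∀ s ∈ S, ((T.filter (fun t => f t = s)).card : ℝ) ≤ B := by
    intro s _
    rcases (T.filter (fun t => f t = s)).eq_empty_or_nonempty with he | ⟨t', ht'⟩
    · rw [he]
      simpa using hB
    · obtain ⟨ht'T, hft'⟩ := Finset.mem_filter.mp ht'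
      obtain ⟨q1, q2, b1, b2, b3, b4, b5, b6⟩ := hT t' ht'T
      have hinv : t'.2.adjugate * t'.2 = 1 := by
        rw [Matrix.adjugate_mul, q2, one_smul]
      let φ : ι × MZ → ι × MZ := fun t => (t.1, t.2 * t'.2.adjugate)
      have hinj : Function.Injective φ := by
        intro s1 s2 h12
        have h12' : (s1.1, s1.2 * t'.2.adjugate) = (s2.1, s2.2 * t'.2.adjugate) := h12
        have h3 : s1.1 = s2.1 := (Prod.mk.inj h12').1
        have h4 : s1.2 * t'.2.adjugate = s2.2 * t'.2.adjugate := (Prod.mk.inj h12').2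
        have h5 : s1.2 = s2.2 := by
          have h6 := congrArg (fun m : MZ => m * t'.2) h4
          simp only [Matrix.mul_assoc, hinv, Matrix.mul_one] at h6
          exact h6
        exact Prod.ext h3 h5
      have hcard : ((T.filter (fun t => f t = s)).image φ).card
          = (T.filter (fun t => f t = s)).card := Finset.card_image_of_injective _ hinj
      rw [← hcard]
      apply hOv t'.1 q1
      intro τ hτ
      obtain ⟨t, ht, rfl⟩ := Finset.mem_image.mp hτ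
      obtain ⟨htT, hft⟩ := Finset.mem_filter.mp ht
      obtain ⟨r1, r2, a1, a2, a3, a4, a5, a6⟩ := hT t htT
      refine ⟨r1, ?_, ?_⟩
      · change (t.2 * t'.2.adjugate).det = 1
        rw [Matrix.det_mul, r2, Matrix.det_adjugate, q2]
        simp
      · have hM : fr (g t'.1) (g t.1) (t.2 * t'.2.adjugate) * Am t' = Am t := by
          change fr (g t'.1) (g t.1) (t.2 * t'.2.adjugate) * fr a (g t'.1) (t'.2 * u0)
            = fr a (g t.1) (t.2 * u0)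
          rw [← fr_mul a (g t.1) (g t'.1) (t.2 * t'.2.adjugate) (t'.2 * u0) (hg _ q1)]
          congr 1
          rw [Matrix.mul_assoc, ← Matrix.mul_assoc t'.2.adjugate, hinv, Matrix.one_mul]
        have hff : f t = f t' := by rw [hft, hft']
        have g1 : |Am t 0 1 / Am t 0 0 - Am t' 0 1 / Am t' 0 0| ≤ 3 * w * D0 / A0 :=
          floor_eq hc1p (congrArg Prod.fst hff)
        have g2 : |Am t 1 0 / Am t 1 1 - Am t' 1 0 / Am t' 1 1| ≤ 3 * w * A0 / D0 :=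
          floor_eq hc2p (congrArg Prod.snd hff)
        exact near w Y A0 D0 (Am t').det _ (Am t) (Am t') hw hA0 hD0 hwA hwD hY hM rfl
          a1 a2 a3 a4 a5 a6 b1 b2 b3 b4 b5 b6 g1 g2
  have hsum : (T.card : ℝ) ≤ (S.card : ℝ) * B := by
    have h := Finset.card_eq_sum_card_fiberwise hmaps
    rw [h]
    push_cast
    calc ∑ s ∈ S, ((T.filter (fun t => f t = s)).card : ℝ) ≤ ∑ _s ∈ S, B :=
          Finset.sum_le_sum hfib
      _ = (S.card : ℝ) * B := by rw [Finset.sum_const, nsmul_eq_mul]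
  have hS : (S.card : ℝ) ≤ (2 * x1 + 2) * (2 * x2 + 2) := by
    change (((Finset.Icc ⌊-x1⌋ ⌊x1⌋) ×ˢ (Finset.Icc ⌊-x2⌋ ⌊x2⌋) : Finset (ℤ × ℤ)).card : ℝ) ≤ _
    rw [Finset.card_product]
    push_cast
    exact mul_le_mul (card_Icc x1 hx1p.le) (card_Icc x2 hx2p.le) (Nat.cast_nonneg _)
      (by positivity)
  have k1 : 2 * x1 + 2 ≤ 8 / 3 * (Y / D0) := by
    have h1 : 1 ≤ Y / D0 := by rw [one_le_div hD0]; exact hDY
    have h2 : x1 = 1 / 3 * (Y / D0) := by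
      rw [hx1]
      field_simp
    rw [h2]
    linarith
  have k2 : 2 * x2 + 2 ≤ 8 / 3 * (Y / A0) := by
    have h1 : 1 ≤ Y / A0 := by rw [one_le_div hA0]; exact hAY
    have h2 : x2 = 1 / 3 * (Y / A0) := by
      rw [hx2]
      field_simp
    rw [h2]
    linarith
  have k3 : (S.card : ℝ) ≤ (8 / 3 * (Y / D0)) * (8 / 3 * (Y / A0)) :=
    le_trans hS (mul_le_mul k1 k2 (by positivity) (by positivity))
  have k4 : (S.card : ℝ) * B ≤ (8 / 3 * (Y / D0)) * (8 / 3 * (Y / A0)) * B :=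
    mul_le_mul_of_nonneg_right k3 hB
  have k5 : 0 ≤ B * (Y / A0) * (Y / D0) := by positivity
  nlinarith

end HSL.Flp
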