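import Pool.Agent.Lib.HS.Bd.SpecFlip

/-!
PROJECT H*, high bands, FLIP LEMMA, module Deg: number of cells reached by short non-singular matrices.
-/

set_option autoImplicit false

namespace HSL.Flp

open HSL Matrix

namespace FDegAux

/-- counting by fibres -/
theorem fib {α β : Type} [DecidableEq β] (s : Finset α) (t : Finset β) (f : α → β) (n : ℝ)
    (h : ∀ a ∈ s, f a ∈ t) (hn : ∀ b ∈ t, ((s.filter (fun a => f a = b)).card : ℝ) ≤ n) :
    (s.card : ℝ) ≤ t.card * n := by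
  have h1 := Finset.card_eq_sum_card_fiberwise (f := f) (s := s) (t := t) (fun a ha => h a ha)
  rw [h1, Nat.cast_sum]
  refine (Finset.sum_le_sum hn).trans (le_of_eq ?_)
  rw [Finset.sum_const, nsmul_eq_mul]

/-- the size of `w Y` -/
theorem wY {w Y : ℝ} (hY : 1 ≤ Y) (hwY : 16 * w * Y ^ 2 ≤ 1) : w * Y ≤ 1 / (16 * Y) := by
  rw [le_div_iff₀ (by positivity)]
  nlinarith

/-- one class -/
theorem cls (hF : S_Frm) (hM : S_Mat) (hC : S_Cov) (ι : Type) (V : Finset ι) (g : ι → MR)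
    (R w B Y A0 D0 : ℝ) (a : MR) (W : Finset ι) (u : ι → MZ) (hR : 1 ≤ R) (hw : 0 < w)
    (hB : 0 ≤ B) (hY : 1 ≤ Y) (hwY : 16 * w * Y ^ 2 ≤ 1) (hU : Uni R V g) (hO : Ov w B V g)
    (ha : a.det = 1) (hWV : W ⊆ V) (hA0 : 1 / (4 * Y) ≤ A0) (hD0 : 1 / (4 * Y) ≤ D0)
    (hA0Y : A0 ≤ Y) (hD0Y : D0 ≤ Y)
    (hu : ∀ y ∈ W, (u y).det ≠ 0 ∧ A0 ≤ |fr a (g y) (u y) 0 0| ∧
      |fr a (g y) (u y) 0 0| ≤ 2 * A0 ∧ D0 ≤ |fr a (g y) (u y) 1 1| ∧
      |fr a (g y) (u y) 1 1| ≤ 2 * D0 ∧ |fr a (g y) (u y) 0 1| ≤ w * Y ∧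
      |fr a (g y) (u y) 1 0| ≤ w * Y) :
    (W.card : ℝ) ≤ (18 * (3 * R * A0) * (3 * R * D0)) ^ 2 * (8 * B * (Y / A0) * (Y / D0)) := by
  classical
  have hY0 : 0 < Y := by linarith
  have h4Y : 0 < 1 / (4 * Y) := by positivity
  have hA00 : 0 < A0 := lt_of_lt_of_le h4Y hA0
  have hD00 : 0 < D0 := lt_of_lt_of_le h4Y hD0
  have hR0 : 0 < R := by linarith
  have hwYb := wY hY hwY
  have h16 : 1 / (16 * Y) = 1 / (4 * Y) / 4 := by field_simp; norm_num
  rw [h16] at hwYb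
  have hcard : ((W.image u).card : ℝ) ≤ (18 * (3 * R * A0) * (3 * R * D0)) ^ 2 := by
    refine hM a (3 * R * A0) (3 * R * D0) (W.image u) ha (by positivity) (by positivity) ?_
    intro r hr
    obtain ⟨y, hy, rfl⟩ := Finset.mem_image.1 hr
    obtain ⟨h1, h2, h3, h4, h5, h6, h7⟩ := hu y hy
    obtain ⟨hg1, hg2⟩ := hU y (hWV hy)
    refine ⟨h1, fun i => ?_⟩
    have e1 : toR (u y) * a = g y * fr a (g y) (u y) := by
      have e2 := hF.2.2.2.2.2.2.2 a (g y) (u y) ha hg1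
      conv_lhs => rw [e2]
      rw [Matrix.mul_assoc, Matrix.adjugate_mul, ha, one_smul, Matrix.mul_one]
    have e3 : ∀ j, (g y * fr a (g y) (u y)) i j =
        g y i 0 * fr a (g y) (u y) 0 j + g y i 1 * fr a (g y) (u y) 1 j := by
      intro j
      rw [Matrix.mul_apply, Fin.sum_univ_two]
    have e4 : ∀ j, |(g y * fr a (g y) (u y)) i j| ≤
        R * (|fr a (g y) (u y) 0 j| + |fr a (g y) (u y) 1 j|) := by
      intro j
      rw [e3]
      refine (abs_add_le _ _).trans ?_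
      rw [abs_mul, abs_mul, mul_add]
      exact add_le_add (mul_le_mul_of_nonneg_right (hg2 i 0) (abs_nonneg _))
        (mul_le_mul_of_nonneg_right (hg2 i 1) (abs_nonneg _))
    rw [e1]
    constructor
    · refine (e4 0).trans ?_
      have : |fr a (g y) (u y) 0 0| + |fr a (g y) (u y) 1 0| ≤ 3 * A0 := by linarith
      calc R * (|fr a (g y) (u y) 0 0| + |fr a (g y) (u y) 1 0|) ≤ R * (3 * A0) :=
            mul_le_mul_of_nonneg_left this hR0.le
        _ = 3 * R * A0 := by ring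
    · refine (e4 1).trans ?_
      have : |fr a (g y) (u y) 0 1| + |fr a (g y) (u y) 1 1| ≤ 3 * D0 := by linarith
      calc R * (|fr a (g y) (u y) 0 1| + |fr a (g y) (u y) 1 1|) ≤ R * (3 * D0) :=
            mul_le_mul_of_nonneg_left this hR0.le
        _ = 3 * R * D0 := by ring
  have hfib : ∀ v ∈ W.image u, ((W.filter (fun y => u y = v)).card : ℝ) ≤
      8 * B * (Y / A0) * (Y / D0) := by
    intro v hv
    have hv0 : v.det ≠ 0 := by
      obtain ⟨y, hy, rfl⟩ := Finset.mem_image.1 hv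
      exact (hu y hy).1
    have hinj : Function.Injective (fun y : ι => ((y, 1) : ι × MZ)) := fun y y' h =>
      (Prod.mk.inj h).1
    have hc := hC ι V g w B Y A0 D0 a v ((W.filter (fun y => u y = v)).image
      (fun y : ι => ((y, 1) : ι × MZ))) hw hB (fun i hi => (hU i hi).1) hO ha hv0 hA00 hD00
      hA0Y hD0Y (by linarith) (by linarith) ?_
    · rw [Finset.card_image_of_injective _ hinj] at hc
      exact hc
    · intro t ht
      obtain ⟨y, hy, rfl⟩ := Finset.mem_image.1 ht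
      obtain ⟨hy1, hy2⟩ := Finset.mem_filter.1 hy
      obtain ⟨h1, h2, h3, h4, h5, h6, h7⟩ := hu y hy1
      rw [hy2] at h2 h3 h4 h5 h6 h7
      refine ⟨hWV hy1, Matrix.det_one, ?_⟩
      rw [Matrix.one_mul]
      exact ⟨h2, h3, h4, h5, h6, h7⟩
  have h1 := fib W (W.image u) u (8 * B * (Y / A0) * (Y / D0))
    (fun y hy => Finset.mem_image_of_mem u hy) hfib
  refine h1.trans (mul_le_mul_of_nonneg_right hcard ?_)
  positivity

/-- the range of the dyadic exponent -/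
theorem rng {Y x : ℝ} (hY : 1 ≤ Y) (h1 : 1 / (2 * Y) ≤ x) (h2 : x ≤ Y) :
    Int.log 2 x ∈ Finset.Icc (-(Int.log 2 Y + 2)) (Int.log 2 Y) := by
  have hY0 : 0 < Y := by linarith
  have hx0 : 0 < x := lt_of_lt_of_le (by positivity) h1
  rw [Finset.mem_Icc]
  refine ⟨?_, Int.log_mono_right hx0 h2⟩
  rw [← Int.zpow_le_iff_le_log (by norm_num) hx0]
  refine le_trans ?_ h1
  have h3 := Int.lt_zpow_succ_log_self (b := 2) (by norm_num) Y
  rw [_root_.zpow_neg, one_div]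
  refine inv_anti₀ (by positivity) ?_
  have h4 : ((2 : ℕ) : ℝ) ^ (Int.log 2 Y + 2) = 2 * ((2 : ℕ) : ℝ) ^ (Int.log 2 Y + 1) := by
    have : Int.log 2 Y + 2 = (Int.log 2 Y + 1) + 1 := by ring
    rw [this, zpow_add_one₀ (by norm_num)]
    push_cast
    ring
  rw [h4]
  linarith

theorem crd {Y : ℝ} (hY : 1 ≤ Y) :
    ((Finset.Icc (-(Int.log 2 Y + 2)) (Int.log 2 Y)).card : ℝ) ≤ 3 * (1 + Real.log Y) := by
  have hY0 : 0 < Y := by linarith
  have hk : 0 ≤ Int.log 2 Y := by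
    rw [← Int.zpow_le_iff_le_log (by norm_num) hY0, zpow_zero]
    exact hY
  have h1 : ((Finset.Icc (-(Int.log 2 Y + 2)) (Int.log 2 Y)).card : ℝ) =
      2 * (Int.log 2 Y : ℝ) + 3 := by
    rw [Int.card_Icc]
    have h2 : (((Int.log 2 Y + 1 - -(Int.log 2 Y + 2)).toNat : ℤ) : ℝ) =
        2 * (Int.log 2 Y : ℝ) + 3 := by
      rw [Int.toNat_of_nonneg (by omega)]
      push_cast
      ring
    exact_mod_cast h2
  rw [h1]
  have h3 := Int.zpow_log_le_self (b := 2) (by norm_num) hY0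
  have h4 := Real.log_le_log (by positivity) h3
  rw [Real.log_zpow] at h4
  push_cast at h4
  have h5 : (2 : ℝ) / 3 ≤ Real.log 2 := by linarith [Real.log_two_gt_d9]
  have h6 : (0 : ℝ) ≤ (Int.log 2 Y : ℝ) := by exact_mod_cast hk
  have h7 := mul_le_mul_of_nonneg_left h5 h6
  linarith

/-- the dyadic value -/
theorem dya {x : ℝ} (hx : 0 < x) : (2 : ℝ) ^ Int.log 2 x ≤ x ∧ x ≤ 2 * (2 : ℝ) ^ Int.log 2 x := by
  have h1 := Int.zpow_log_le_self (b := 2) (by norm_num) hx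
  have h2 := Int.lt_zpow_succ_log_self (b := 2) (by norm_num) x
  rw [zpow_add_one₀ (by norm_num)] at h2
  push_cast at h1 h2
  exact ⟨h1, by linarith⟩

end FDegAux

open FDegAux in
theorem tDeg : S_Frm → S_Mat → S_Cov → S_Deg := by
  intro hF hM hC
  refine ⟨72 * 162 ^ 2, by norm_num, ?_⟩
  intro ι V g R w B Y d a W hR hw hB hY hd hwY hU hO ha hWV hW
  classical
  choose! u hu using hW
  have hY0 : 0 < Y := by linarith
  have hwYb := wY hY hwY
  have hlow : ∀ y ∈ W, 1 / 2 ≤ |fr a (g y) (u y) 0 0| * |fr a (g y) (u y) 1 1| := by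
    intro y hy
    obtain ⟨h1, ⟨h2, h3, h4, h5⟩, h6⟩ := hu y hy
    obtain ⟨hg1, -⟩ := hU y (hWV hy)
    have e1 := hF.2.2.2.2.2.1 a (g y) (u y) ha hg1
    rw [Matrix.det_fin_two] at e1
    have e2 : (1 : ℝ) ≤ |(((u y).det : ℤ) : ℝ)| := by
      rw [← Int.cast_abs]
      exact_mod_cast Int.one_le_abs h1
    rw [← e1] at e2
    have e3 : |fr a (g y) (u y) 0 0 * fr a (g y) (u y) 1 1 -
        fr a (g y) (u y) 0 1 * fr a (g y) (u y) 1 0| ≤
        |fr a (g y) (u y) 0 0| * |fr a (g y) (u y) 1 1| +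
          |fr a (g y) (u y) 0 1| * |fr a (g y) (u y) 1 0| := by
      rw [← abs_mul, ← abs_mul]
      exact abs_sub _ _
    have e4 : w * Y ≤ 1 / 16 := by
      refine hwYb.trans ?_
      rw [div_le_div_iff₀ (by positivity) (by norm_num)]
      linarith
    have e5 : |fr a (g y) (u y) 0 1| * |fr a (g y) (u y) 1 0| ≤ (1 / 16) * (1 / 16) :=
      mul_le_mul (h4.trans e4) (h5.trans e4) (abs_nonneg _) (by norm_num)
    linarith
  have hA : ∀ y ∈ W, 1 / (2 * Y) ≤ |fr a (g y) (u y) 0 0| ∧ 1 / (2 * Y) ≤ |fr a (g y) (u y) 1 1| := by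
    intro y hy
    have h0 := hlow y hy
    obtain ⟨h1, ⟨h2, h3, h4, h5⟩, h6⟩ := hu y hy
    have e1 : |fr a (g y) (u y) 0 0| * |fr a (g y) (u y) 1 1| ≤ |fr a (g y) (u y) 0 0| * Y :=
      mul_le_mul_of_nonneg_left h3 (abs_nonneg _)
    have e2 : |fr a (g y) (u y) 0 0| * |fr a (g y) (u y) 1 1| ≤ Y * |fr a (g y) (u y) 1 1| :=
      mul_le_mul_of_nonneg_right h2 (abs_nonneg _)
    constructor
    · rw [div_le_iff₀ (by positivity)]
      linarith
    · rw [div_le_iff₀ (by positivity)]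
      linarith
  set I := Finset.Icc (-(Int.log 2 Y + 2)) (Int.log 2 Y) with hI
  set f : ι → ℤ × ℤ := fun y =>
    (Int.log 2 |fr a (g y) (u y) 0 0|, Int.log 2 |fr a (g y) (u y) 1 1|) with hf
  have hmaps : ∀ y ∈ W, f y ∈ I ×ˢ I := by
    intro y hy
    obtain ⟨h1, ⟨h2, h3, h4, h5⟩, h6⟩ := hu y hy
    exact Finset.mem_product.2 ⟨rng hY (hA y hy).1 h2, rng hY (hA y hy).2 h3⟩
  have hclass : ∀ b ∈ I ×ˢ I, ((W.filter (fun y => f y = b)).card : ℝ) ≤
      8 * 162 ^ 2 * B * R ^ 4 * d * Y ^ 2 := by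
    intro b _
    rcases Finset.eq_empty_or_nonempty (W.filter (fun y => f y = b)) with he | ⟨y0, hy0⟩
    · rw [he, Finset.card_empty, Nat.cast_zero]
      positivity
    · have hbd : ∀ y ∈ W.filter (fun y => f y = b),
          (2 : ℝ) ^ b.1 ≤ |fr a (g y) (u y) 0 0| ∧ |fr a (g y) (u y) 0 0| ≤ 2 * (2 : ℝ) ^ b.1 ∧
          (2 : ℝ) ^ b.2 ≤ |fr a (g y) (u y) 1 1| ∧ |fr a (g y) (u y) 1 1| ≤ 2 * (2 : ℝ) ^ b.2 := by
        intro y hy
        obtain ⟨hy1, hy2⟩ := Finset.mem_filter.1 hy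
        have h1 : Int.log 2 |fr a (g y) (u y) 0 0| = b.1 := congrArg Prod.fst hy2
        have h2 : Int.log 2 |fr a (g y) (u y) 1 1| = b.2 := congrArg Prod.snd hy2
        have h3 := dya (lt_of_lt_of_le (by positivity) (hA y hy1).1)
        have h4 := dya (lt_of_lt_of_le (by positivity) (hA y hy1).2)
        rw [h1] at h3
        rw [h2] at h4
        exact ⟨h3.1, h3.2, h4.1, h4.2⟩
      obtain ⟨k1, k2, k3, k4⟩ := hbd y0 hy0
      have hy0W := (Finset.mem_filter.1 hy0).1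
      obtain ⟨-, ⟨l2, l3, -, -⟩, l6⟩ := hu y0 hy0W
      obtain ⟨a1, a2⟩ := hA y0 hy0W
      set A0 : ℝ := (2 : ℝ) ^ b.1 with hA0d
      set D0 : ℝ := (2 : ℝ) ^ b.2 with hD0d
      have hA00 : 0 < A0 := by positivity
      have hD00 : 0 < D0 := by positivity
      have h24 : 1 / (2 * Y) = 2 * (1 / (4 * Y)) := by field_simp; norm_num
      have hA0 : 1 / (4 * Y) ≤ A0 := by linarith
      have hD0 : 1 / (4 * Y) ≤ D0 := by linarith
      have h1 := cls hF hM hC ι V g R w B Y A0 D0 a (W.filter (fun y => f y = b)) u hR hw hB hY hwY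
        hU hO ha ((Finset.filter_subset _ _).trans hWV) hA0 hD0 (k1.trans l2) (k3.trans l3) ?_
      · refine h1.trans ?_
        have h2 : (18 * (3 * R * A0) * (3 * R * D0)) ^ 2 * (8 * B * (Y / A0) * (Y / D0)) =
            8 * 162 ^ 2 * B * R ^ 4 * (A0 * D0) * Y ^ 2 := by
          field_simp
          ring
        rw [h2]
        have h3 : A0 * D0 ≤ d := (mul_le_mul k1 k3 hD00.le (abs_nonneg _)).trans l6
        have h4 : 0 ≤ 8 * 162 ^ 2 * B * R ^ 4 := by positivity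
        have h5 := mul_le_mul_of_nonneg_left h3 h4
        exact mul_le_mul_of_nonneg_right h5 (by positivity)
      · intro y hy
        obtain ⟨m1, m2, m3, m4⟩ := hbd y hy
        obtain ⟨n1, ⟨n2, n3, n4, n5⟩, n6⟩ := hu y (Finset.mem_filter.1 hy).1
        exact ⟨n1, m1, m2, m3, m4, n4, n5⟩
  have h1 := fib W (I ×ˢ I) f _ hmaps hclass
  refine h1.trans ?_
  rw [Finset.card_product]
  push_cast
  have h2 := crd hY
  rw [← hI] at h2
  have h3 : 0 ≤ Real.log Y := Real.log_nonneg hY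
  have h4 : (I.card : ℝ) * (I.card : ℝ) ≤ (3 * (1 + Real.log Y)) * (3 * (1 + Real.log Y)) :=
    mul_le_mul h2 h2 (Nat.cast_nonneg _) (by positivity)
  have h5 : 0 ≤ 8 * 162 ^ 2 * B * R ^ 4 * d * Y ^ 2 := by positivity
  refine (mul_le_mul_of_nonneg_right h4 h5).trans (le_of_eq ?_)
  ring

end HSL.Flp
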