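import Pool.Agent.Lib.HS.Bd.SpecFlip

/-!
PROJECT H* (MP_a54f13_nt), FLIP LEMMA, module FDiv (helper61): the Hermite form and the number of
right divisors.
-/

set_option autoImplicit false

namespace HSL.Flp

open HSL Matrix

namespace FDivAux

theorem hermite (r : MZ) (hr : r.det ≠ 0) : ∃ γ : MZ, γ.det = 1 ∧ Red (γ * r) := by
  rw [Matrix.det_fin_two] at hr
  set a := r 0 0 with ha
  set b := r 0 1 with hb
  set c := r 1 0 with hc
  set d := r 1 1 with hd
  set g : ℤ := (Int.gcd a c : ℤ) with hg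
  have hg0 : 0 < g := by
    have h1 : Int.gcd a c ≠ 0 := by
      intro h
      obtain ⟨h2, h3⟩ := Int.gcd_eq_zero_iff.1 h
      apply hr
      rw [h2, h3]
      ring
    have h2 : 0 < Int.gcd a c := Nat.pos_of_ne_zero h1
    rw [hg]
    exact_mod_cast h2
  obtain ⟨a', ha'⟩ : g ∣ a := Int.gcd_dvd_left a c
  obtain ⟨c', hc'⟩ : g ∣ c := Int.gcd_dvd_right a c
  obtain ⟨x, y, hxy⟩ : ∃ x y : ℤ, x * a + y * c = g :=
    ⟨Int.gcdA a c, Int.gcdB a c, by rw [hg, Int.gcd_eq_gcd_ab]; ring⟩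
  have hxy' : x * a' + y * c' = 1 := by
    have h1 : g * (x * a' + y * c') = g * 1 := by
      linear_combination hxy - x * ha' - y * hc'
    exact mul_left_cancel₀ hg0.ne' h1
  set B : ℤ := x * b + y * d with hB
  set D : ℤ := a' * d - c' * b with hD
  have hD0 : D ≠ 0 := by
    intro h
    apply hr
    have h1 : a * d - b * c = g * D := by
      rw [hD, ha', hc']
      ring
    rw [h1, h, mul_zero]
  refine ⟨!![x + (B / D) * c', y - (B / D) * a'; -c', a'], ?_, ?_⟩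
  · rw [Matrix.det_fin_two_of]
    linear_combination hxy'
  · have e00 : (!![x + (B / D) * c', y - (B / D) * a'; -c', a'] * r) 0 0 = g := by
      simp only [Matrix.mul_apply, Fin.sum_univ_two, Matrix.of_apply, Matrix.cons_val', Matrix.cons_val_zero,
        Matrix.cons_val_one, Matrix.cons_val_fin_one]
      rw [← ha, ← hc]
      linear_combination hxy + (B / D) * (c' * ha' - a' * hc')
    have e10 : (!![x + (B / D) * c', y - (B / D) * a'; -c', a'] * r) 1 0 = 0 := by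
      simp only [Matrix.mul_apply, Fin.sum_univ_two, Matrix.of_apply, Matrix.cons_val', Matrix.cons_val_zero,
        Matrix.cons_val_one, Matrix.cons_val_fin_one]
      rw [← ha, ← hc]
      linear_combination -c' * ha' + a' * hc'
    have e11 : (!![x + (B / D) * c', y - (B / D) * a'; -c', a'] * r) 1 1 = D := by
      simp only [Matrix.mul_apply, Fin.sum_univ_two, Matrix.of_apply, Matrix.cons_val', Matrix.cons_val_zero,
        Matrix.cons_val_one, Matrix.cons_val_fin_one]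
      rw [← hb, ← hd, hD]
      ring
    have e01 : (!![x + (B / D) * c', y - (B / D) * a'; -c', a'] * r) 0 1 = B % D := by
      simp only [Matrix.mul_apply, Fin.sum_univ_two, Matrix.of_apply, Matrix.cons_val', Matrix.cons_val_zero,
        Matrix.cons_val_one, Matrix.cons_val_fin_one]
      rw [← hb, ← hd, Int.emod_def]
      have h1 : D = a' * d - c' * b := hD
      have h2 : B = x * b + y * d := hB
      linear_combination -h2 + (B / D) * h1
    refine ⟨e10, ?_, ?_, ?_, ?_⟩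
    · rw [e00]; exact hg0
    · rw [e11]; exact hD0
    · rw [e01]; exact Int.emod_nonneg _ hD0
    · rw [e01, e11]; exact Int.emod_lt_abs _ hD0

theorem cont_pos (u : MZ) (hu : u.det ≠ 0) : 0 < cont u := by
  refine Nat.pos_of_ne_zero fun h => hu ?_
  unfold cont at h
  obtain ⟨h1, h2⟩ := Nat.gcd_eq_zero_iff.1 h
  obtain ⟨h3, h4⟩ := Nat.gcd_eq_zero_iff.1 h1
  rw [Int.natAbs_eq_zero] at h3 h4
  rw [Matrix.det_fin_two, h3, h4]
  ring

/-- the fibre over a pair of diagonal entries -/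
theorem fib (u : MZ) (S : Finset MZ) (hu : u.det ≠ 0)
    (hS : ∀ H ∈ S, Red H ∧ ∃ r2 : MZ, u = r2 * H) (a d : ℤ)
    (hS' : ∀ H ∈ S, H 0 0 = a ∧ H 1 1 = d) : S.card ≤ cont u := by
  rcases S.eq_empty_or_nonempty with rfl | ⟨H0, hH0⟩
  · simp
  obtain ⟨⟨h10, h00, h11, h01, h01'⟩, r2, hr2⟩ := hS H0 hH0
  obtain ⟨ha, hd⟩ := hS' H0 hH0
  rw [ha] at h00
  rw [hd] at h11
  set p := r2 0 0 with hp
  set s := r2 1 0 with hs
  have ent : ∀ H r : MZ, H 1 0 = 0 → u = r * H → u 0 0 = r 0 0 * H 0 0 ∧ u 1 0 = r 1 0 * H 0 0 ∧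
      u 0 1 = r 0 0 * H 0 1 + r 0 1 * H 1 1 ∧ u 1 1 = r 1 0 * H 0 1 + r 1 1 * H 1 1 := by
    intro H r h hr
    rw [hr]
    simp only [Matrix.mul_apply, Fin.sum_univ_two, h, mul_zero, add_zero, and_self]
  obtain ⟨u00, u10, u01, u11⟩ := ent H0 r2 h10 hr2
  rw [ha] at u00 u10
  rw [hd] at u01 u11
  set e : ℕ := Nat.gcd (Nat.gcd p.natAbs s.natAbs) d.natAbs with he
  have hep : (e : ℤ) ∣ p := Int.natCast_dvd.2
    ((Nat.gcd_dvd_left _ _).trans (Nat.gcd_dvd_left _ _))
  have hes : (e : ℤ) ∣ s := Int.natCast_dvd.2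
    ((Nat.gcd_dvd_left _ _).trans (Nat.gcd_dvd_right _ _))
  have hed' : e ∣ d.natAbs := Nat.gcd_dvd_right _ _
  have hed : (e : ℤ) ∣ d := Int.natCast_dvd.2 hed'
  have hdpos : 0 < d.natAbs := Int.natAbs_pos.2 h11
  have hepos : 0 < e := Nat.pos_of_dvd_of_pos hed' hdpos
  have hec : e ≤ cont u := by
    refine Nat.le_of_dvd (cont_pos u hu) ?_
    unfold cont
    refine Nat.dvd_gcd (Nat.dvd_gcd ?_ ?_) (Nat.dvd_gcd ?_ ?_)
    · rw [← Int.natCast_dvd, u00]; exact hep.mul_right _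
    · rw [← Int.natCast_dvd, u01]; exact dvd_add (hep.mul_right _) (hed.mul_left _)
    · rw [← Int.natCast_dvd, u10]; exact hes.mul_right _
    · rw [← Int.natCast_dvd, u11]; exact dvd_add (hes.mul_right _) (hed.mul_left _)
  obtain ⟨m, hm⟩ := hed'
  have hmpos : 0 < m := by
    rcases Nat.eq_zero_or_pos m with h | h
    · rw [h, mul_zero] at hm
      exact absurd hm hdpos.ne'
    · exact h
  have key : ∀ H ∈ S, ∀ H' ∈ S, (m : ℤ) ∣ H 0 1 - H' 0 1 := by
    intro H hH H' hH'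
    obtain ⟨⟨k10, -⟩, r, hr⟩ := hS H hH
    obtain ⟨⟨k10', -⟩, r', hr'⟩ := hS H' hH'
    obtain ⟨v00, v10, v01, v11⟩ := ent H r k10 hr
    obtain ⟨w00, w10, w01, w11⟩ := ent H' r' k10' hr'
    obtain ⟨q1, q2⟩ := hS' H hH
    obtain ⟨q1', q2'⟩ := hS' H' hH'
    rw [q1] at v00 v10
    rw [q2] at v01 v11
    rw [q1'] at w00 w10
    rw [q2'] at w01 w11
    have e1 : r 0 0 = p := mul_right_cancel₀ h00.ne' (v00.symm.trans u00)
    have e2 : r 1 0 = s := mul_right_cancel₀ h00.ne' (v10.symm.trans u10)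
    have e3 : r' 0 0 = p := mul_right_cancel₀ h00.ne' (w00.symm.trans u00)
    have e4 : r' 1 0 = s := mul_right_cancel₀ h00.ne' (w10.symm.trans u10)
    rw [e1] at v01
    rw [e2] at v11
    rw [e3] at w01
    rw [e4] at w11
    have d1 : d ∣ p * (H 0 1 - H' 0 1) := ⟨r' 0 1 - r 0 1, by linear_combination w01 - v01⟩
    have d2 : d ∣ s * (H 0 1 - H' 0 1) := ⟨r' 1 1 - r 1 1, by linear_combination w11 - v11⟩
    set δ := H 0 1 - H' 0 1 with hδ
    rw [Int.natCast_dvd]
    have d1' : d.natAbs ∣ p.natAbs * δ.natAbs := by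
      rw [← Int.natAbs_mul]; exact Int.natAbs_dvd_natAbs.2 d1
    have d2' : d.natAbs ∣ s.natAbs * δ.natAbs := by
      rw [← Int.natAbs_mul]; exact Int.natAbs_dvd_natAbs.2 d2
    have d3 : d.natAbs ∣ e * δ.natAbs := by
      rw [he, ← Nat.gcd_mul_right, ← Nat.gcd_mul_right]
      exact Nat.dvd_gcd (Nat.dvd_gcd d1' d2') (Dvd.intro _ rfl)
    rw [hm] at d3
    exact Nat.dvd_of_mul_dvd_mul_left hepos d3
  refine le_trans ?_ hec
  rw [← Finset.card_range e]
  refine Finset.card_le_card_of_injOn (fun H => (H 0 1).natAbs / m) ?_ ?_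
  · intro H hH
    have hH' : H ∈ S := hH
    obtain ⟨⟨k10, k00, k11, k01, k01'⟩, -⟩ := hS H hH'
    rw [(hS' H hH').2] at k01'
    have h1 : (H 0 1).natAbs < e * m := by
      rw [← hm]
      have h0 : ((H 0 1).natAbs : ℤ) < (d.natAbs : ℤ) := by
        rw [Int.natCast_natAbs, Int.natCast_natAbs, abs_of_nonneg k01]
        exact k01'
      exact_mod_cast h0
    have h2 : (H 0 1).natAbs / m < e := Nat.div_lt_of_lt_mul (by rwa [mul_comm])
    exact Finset.mem_coe.2 (Finset.mem_range.2 h2)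
  · intro H hH H' hH' hEq
    have gH : H ∈ S := hH
    have gH' : H' ∈ S := hH'
    obtain ⟨⟨k10, k00, k11, k01, k01'⟩, -⟩ := hS H gH
    obtain ⟨⟨l10, l00, l11, l01, l01'⟩, -⟩ := hS H' gH'
    obtain ⟨q1, q2⟩ := hS' H gH
    obtain ⟨q1', q2'⟩ := hS' H' gH'
    have hk := key H gH H' gH'
    have c1 : ((H 0 1).natAbs : ℤ) = H 0 1 := Int.natAbs_of_nonneg k01
    have c2 : ((H' 0 1).natAbs : ℤ) = H' 0 1 := Int.natAbs_of_nonneg l01
    rw [← c1, ← c2] at hk
    have hmod : (H 0 1).natAbs % m = (H' 0 1).natAbs % m :=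
      ((Nat.modEq_iff_dvd.2 hk).symm : (H 0 1).natAbs ≡ (H' 0 1).natAbs [MOD m])
    have hEq' : (H 0 1).natAbs / m = (H' 0 1).natAbs / m := hEq
    have hfin : (H 0 1).natAbs = (H' 0 1).natAbs := by
      rw [← Nat.div_add_mod (H 0 1).natAbs m, ← Nat.div_add_mod (H' 0 1).natAbs m, hEq', hmod]
    have hb : H 0 1 = H' 0 1 := by rw [← c1, ← c2, hfin]
    ext i j
    fin_cases i <;> fin_cases j
    · exact q1.trans q1'.symm
    · exact hb
    · exact k10.trans l10.symm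
    · exact q2.trans q2'.symm

end FDivAux

open FDivAux in
/-- Div. Hermite form and number of right divisors. -/
theorem tDiv : S_Div := by
  classical
  refine ⟨hermite, ?_⟩
  intro u S hu hS
  have hdet : ∀ H ∈ S, H 0 0 ∣ u.det ∧ H 1 1 ∣ u.det := by
    intro H hH
    obtain ⟨⟨h10, -⟩, r2, hr2⟩ := hS H hH
    have h1 : u.det = r2.det * (H 0 0 * H 1 1) := by
      rw [hr2, Matrix.det_mul, Matrix.det_fin_two H, h10]
      ring
    rw [h1]
    exact ⟨⟨r2.det * H 1 1, by ring⟩, ⟨r2.det * H 0 0, by ring⟩⟩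
  set t := u.det.natAbs.divisors with ht
  set f : MZ → (ℕ × ℕ) × Bool := fun H => (((H 0 0).natAbs, (H 1 1).natAbs), decide (0 < H 1 1)) with hf
  have hmaps : ∀ H ∈ S, f H ∈ (t ×ˢ t) ×ˢ (Finset.univ : Finset Bool) := by
    intro H hH
    obtain ⟨h1, h2⟩ := hdet H hH
    have hne : u.det.natAbs ≠ 0 := Int.natAbs_ne_zero.2 hu
    rw [Finset.mem_product, Finset.mem_product]
    exact ⟨⟨Nat.mem_divisors.2 ⟨Int.natAbs_dvd_natAbs.2 h1, hne⟩,
      Nat.mem_divisors.2 ⟨Int.natAbs_dvd_natAbs.2 h2, hne⟩⟩, Finset.mem_univ _⟩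
  have hfib : ∀ y ∈ (t ×ˢ t) ×ˢ (Finset.univ : Finset Bool),
      (S.filter fun H => f H = y).card ≤ cont u := by
    intro y _
    rcases (S.filter fun H => f H = y).eq_empty_or_nonempty with h | ⟨H0, hH0⟩
    · rw [h, Finset.card_empty]; exact Nat.zero_le _
    · obtain ⟨hS0, hy0⟩ := Finset.mem_filter.1 hH0
      refine fib u _ hu (fun H hH => hS H (Finset.mem_filter.1 hH).1) (H0 0 0) (H0 1 1) ?_
      intro H hH
      obtain ⟨hS1, hy1⟩ := Finset.mem_filter.1 hH
      have hEq : f H = f H0 := hy1.trans hy0.symm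
      obtain ⟨⟨-, a1, -⟩, -⟩ := hS H hS1
      obtain ⟨⟨-, a2, -⟩, -⟩ := hS H0 hS0
      have e1 : (H 0 0).natAbs = (H0 0 0).natAbs := congrArg (fun z => z.1.1) hEq
      have e2 : (H 1 1).natAbs = (H0 1 1).natAbs := congrArg (fun z => z.1.2) hEq
      have e3 : decide (0 < H 1 1) = decide (0 < H0 1 1) := congrArg (fun z => z.2) hEq
      have e3' : 0 < H 1 1 ↔ 0 < H0 1 1 := by
        rw [← decide_eq_true_iff (p := 0 < H 1 1), e3, decide_eq_true_iff]
      constructor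
      · omega
      · rcases Int.natAbs_eq_natAbs_iff.1 e2 with h | h
        · exact h
        · omega
  have h1 := Finset.card_le_mul_card_image_of_maps_to hmaps (cont u) hfib
  refine h1.trans (le_of_eq ?_)
  rw [Finset.card_product, Finset.card_product, Finset.card_univ, Fintype.card_bool]
  ring

end HSL.Flp
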