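import Pool.Agent.Lib.HS.Bd.SpecFlip

/-!
PROJECT H* (MP_a54f13_nt), FLIP LEMMA, module Dyd: a popular size of the flips.
-/

set_option autoImplicit false

namespace HSL.Flp

open HSL Matrix

namespace FDydAux

/-- a pair with a flip of size between `2^n/2` and `2^n` -/
def P {ι : Type} (g : ι → MR) (w Z : ℝ) (n : ℕ) (t : ι × ι) : Prop :=
  ∃ r : MZ, Fl Z w (g t.1) (g t.2) r ∧
    (2 : ℝ) ^ n / 2 ≤ |fr (g t.1) (g t.2) r 0 1| * |fr (g t.1) (g t.2) r 1 0| ∧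
    |fr (g t.1) (g t.2) r 0 1| * |fr (g t.1) (g t.2) r 1 0| ≤ 2 * ((2 : ℝ) ^ n / 2)

theorem low {ι : Type} (hF : S_Frm) (g : ι → MR) (w Z : ℝ) (i j : ι) (r : MZ) (hw : 0 < w)
    (hZ : 1 ≤ Z) (hwZ : 2 * w * Z ≤ 1) (hi : (g i).det = 1) (hj : (g j).det = 1)
    (h : Fl Z w (g i) (g j) r) :
    1 / 2 ≤ |fr (g i) (g j) r 0 1| * |fr (g i) (g j) r 1 0| ∧
    |fr (g i) (g j) r 0 1| * |fr (g i) (g j) r 1 0| ≤ Z ^ 2 := by
  obtain ⟨h0, h1, h2, h3, h4⟩ := h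
  have hdet := hF.2.2.2.2.2.1 (g i) (g j) r hi hj
  rw [Matrix.det_fin_two] at hdet
  have hd1 : (1 : ℝ) ≤ |((r.det : ℤ) : ℝ)| := by
    have : (1 : ℤ) ≤ |r.det| := Int.one_le_abs h0
    exact_mod_cast this
  have hZ0 : 0 < Z := by linarith
  have hwZ0 : 0 ≤ w * Z := by positivity
  have e1 : |fr (g i) (g j) r 0 0 * fr (g i) (g j) r 1 1| ≤ 1 / 4 := by
    rw [abs_mul]
    calc |fr (g i) (g j) r 0 0| * |fr (g i) (g j) r 1 1| ≤ (w * Z) * (w * Z) :=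
          mul_le_mul h1 h2 (abs_nonneg _) hwZ0
      _ ≤ 1 / 4 := by nlinarith
  have e2 : |((r.det : ℤ) : ℝ)| ≤ |fr (g i) (g j) r 0 0 * fr (g i) (g j) r 1 1| +
      |fr (g i) (g j) r 0 1 * fr (g i) (g j) r 1 0| := by
    rw [← hdet]
    exact abs_sub _ _
  rw [← abs_mul]
  refine ⟨by linarith, ?_⟩
  rw [abs_mul]
  calc |fr (g i) (g j) r 0 1| * |fr (g i) (g j) r 1 0| ≤ Z * Z :=
        mul_le_mul h3 h4 (abs_nonneg _) hZ0.le
    _ = Z ^ 2 := by ring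

theorem dyadic (x : ℝ) (hx : 1 / 2 ≤ x) :
    ∃ n : ℕ, (2 : ℝ) ^ n / 2 ≤ x ∧ x ≤ 2 * ((2 : ℝ) ^ n / 2) := by
  obtain ⟨n, h1, h2⟩ := exists_nat_pow_near (by linarith : (1 : ℝ) ≤ 2 * x) (by norm_num : (1 : ℝ) < 2)
  refine ⟨n, by linarith, ?_⟩
  rw [pow_succ] at h2
  linarith

theorem bound (Z x : ℝ) (n N : ℕ) (hZ : 1 ≤ Z) (hx : x ≤ Z ^ 2) (h1 : (2 : ℝ) ^ n / 2 ≤ x)
    (hN : 2 * Real.log Z / Real.log 2 < N) : n ≤ N := by
  have hZ0 : 0 < Z := by linarith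
  have hl2 : 0 < Real.log 2 := Real.log_pos (by norm_num)
  have h2 : (2 : ℝ) ^ n ≤ 2 * Z ^ 2 := by linarith
  have h3 := Real.log_le_log (by positivity) h2
  rw [Real.log_pow, Real.log_mul (by norm_num) (by positivity), Real.log_pow] at h3
  rw [div_lt_iff₀ hl2] at hN
  push_cast at h3
  have h4 : ((n : ℝ) - 1) * Real.log 2 < N * Real.log 2 := by nlinarith
  have h5 : (n : ℝ) - 1 < N := lt_of_mul_lt_mul_right h4 hl2.le
  have h6 : (n : ℝ) < ((N + 1 : ℕ) : ℝ) := by push_cast; linarith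
  have h7 : n < N + 1 := by exact_mod_cast h6
  omega

end FDydAux

open FDydAux

theorem tDyd : S_Frm → S_Dyd := by
  classical
  intro hF ι V g w Z E hw hw1 hZ hwZ hdet hE hEf
  have hZ0 : 0 < Z := by linarith
  have hlZ : 0 ≤ Real.log Z := Real.log_nonneg hZ
  have hl2 : 0 < Real.log 2 := Real.log_pos (by norm_num)
  set N : ℕ := ⌊2 * Real.log Z / Real.log 2⌋₊ + 1 with hN
  have hNlt : 2 * Real.log Z / Real.log 2 < N := by
    rw [hN]; push_cast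
    exact Nat.lt_floor_add_one _
  let F : ℕ → Finset (ι × ι) := fun n => (V ×ˢ V).filter (fun t => P g w Z n t)
  have hsub : E ⊆ (Finset.range (N + 1)).biUnion F := by
    intro t ht
    obtain ⟨hi, hj, r, hr⟩ := hEf t ht
    obtain ⟨l1, l2⟩ := low hF g w Z t.1 t.2 r hw hZ hwZ (hdet _ hi) (hdet _ hj) hr
    obtain ⟨n, n1, n2⟩ := dyadic _ l1
    have hn := bound Z _ n N hZ l2 n1 hNlt
    rw [Finset.mem_biUnion]
    refine ⟨n, Finset.mem_range.2 (by omega), ?_⟩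
    simp only [F, Finset.mem_filter, Finset.mem_product]
    exact ⟨⟨hi, hj⟩, r, hr, n1, n2⟩
  obtain ⟨n, hn, hmax⟩ := Finset.exists_max_image (Finset.range (N + 1)) (fun n => (F n).card)
    ⟨0, Finset.mem_range.2 (by omega)⟩
  have hcard : E.card ≤ (N + 1) * (F n).card := by
    calc E.card ≤ ((Finset.range (N + 1)).biUnion F).card := Finset.card_le_card hsub
      _ ≤ ∑ k ∈ Finset.range (N + 1), (F k).card := Finset.card_biUnion_le
      _ ≤ ∑ _k ∈ Finset.range (N + 1), (F n).card := Finset.sum_le_sum hmax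
      _ = (N + 1) * (F n).card := by rw [Finset.sum_const, Finset.card_range, smul_eq_mul]
  refine ⟨(2 : ℝ) ^ n / 2, F n, ?_, ?_, ?_, ?_⟩
  · have : (1 : ℝ) ≤ 2 ^ n := one_le_pow₀ (by norm_num)
    linarith
  · intro t ht
    simp only [F, Finset.mem_filter, Finset.mem_product] at ht
    exact ⟨ht.1.1, ht.1.2, ht.2⟩
  · intro t ht
    simp only [F, Finset.mem_filter, Finset.mem_product] at ht ⊢
    obtain ⟨⟨hi, hj⟩, r, hr, r1, r2⟩ := ht
    obtain ⟨a1, a2, a3⟩ := hF.2.2.2.1 Z w (g t.1) (g t.2) r hr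
    refine ⟨⟨hj, hi⟩, r.adjugate, a1, ?_, ?_⟩
    · simp only [a2, a3]; exact r1
    · simp only [a2, a3]; exact r2
  · have h1 : (E.card : ℝ) ≤ ((N : ℝ) + 1) * ((F n).card : ℝ) := by exact_mod_cast hcard
    have h2 : (N : ℝ) + 1 ≤ 4 * (1 + Real.log Z) := by
      have h3 : (N : ℝ) ≤ 2 * Real.log Z / Real.log 2 + 1 := by
        rw [hN]; push_cast
        have := Nat.floor_le (by positivity : 0 ≤ 2 * Real.log Z / Real.log 2)
        linarith
      have h4 : 2 * Real.log Z / Real.log 2 ≤ 4 * Real.log Z := by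
        rw [div_le_iff₀ hl2]
        have := Real.log_two_gt_d9
        nlinarith
      linarith
    have h5 : ((N : ℝ) + 1) * ((F n).card : ℝ) ≤ 4 * (1 + Real.log Z) * ((F n).card : ℝ) :=
      mul_le_mul_of_nonneg_right h2 (by positivity)
    linarith

end HSL.Flp
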