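import Pool.Agent.Lib.HS.Bd.SpecFlip

/-!
PROJECT H* (MP_a54f13_nt), high bands: assembly of the FLIP LEMMA (helper5).
-/

set_option autoImplicit false

namespace HSL.Flp

open HSL Matrix

namespace FFlipAux

lemma J_det : J.det = 1 := by
  simp [J, Matrix.det_fin_two]

lemma Dg_mono {Y Y' w : ℝ} {a b : MR} {u : MZ} (hw : 0 < w) (h : Y ≤ Y') (hu : Dg Y w a b u) :
    Dg Y' w a b u := by
  obtain ⟨h1, h2, h3, h4⟩ := hu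
  have h5 : w * Y ≤ w * Y' := mul_le_mul_of_nonneg_left h hw.le
  exact ⟨h1.trans h, h2.trans h, h3.trans h5, h4.trans h5⟩

/-- logarithm against a power -/
lemma log_le {δ Z : ℝ} (hδ : 0 < δ) (hZ : 1 ≤ Z) : 1 + Real.log Z ≤ (1 + 1 / δ) * Z ^ δ := by
  have h1 : Real.log Z ≤ Z ^ δ / δ := Real.log_le_rpow_div (by linarith) hδ
  have h2 : 1 ≤ Z ^ δ := Real.one_le_rpow hZ hδ.le
  have h3 : Z ^ δ / δ = 1 / δ * Z ^ δ := by ring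
  rw [h3] at h1
  nlinarith

lemma log_two_sq {Z : ℝ} (hZ : 1 ≤ Z) : 1 + Real.log (2 * Z ^ 2) ≤ 2 * (1 + Real.log Z) := by
  have h0 : 0 < Z := by linarith
  rw [Real.log_mul (by norm_num) (by positivity), Real.log_pow]
  have h1 : Real.log 2 ≤ 1 := by
    have := Real.log_two_lt_d9
    linarith
  push_cast
  linarith

/-- case A -/
lemma numA {v ρ d B R Z z L C1 C2 : ℝ} (hv : 0 < v) (hρ : 0 < ρ) (hd : 0 < d) (hB : 1 ≤ B)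
    (hR : 1 ≤ R) (hZ : 1 ≤ Z) (hz : 1 ≤ z) (hL : 1 ≤ L) (hC1 : 1 ≤ C1) (hC2 : 1 ≤ C2)
    (h1 : ρ * v ≤ C1 * B * R ^ 4 * (2 * d) * Z ^ 2 * L ^ 2)
    (h2 : 4 * Z ^ 4 < 4 * C2 * B * Z ^ 6 * z / (d * ρ ^ 2 * v))
    (h3 : ρ ^ 2 * v ≤ 128 * C1 * B * R ^ 4 * Z ^ 8 * L ^ 2) :
    ρ ^ 8 * v ^ 5 ≤ 131072 * C1 ^ 3 * C2 ^ 2 * R ^ 20 * B ^ 5 * Z ^ 16 * z ^ 2 * L ^ 6 := by
  have hZ0 : 0 < Z := by linarith
  have hB0 : 0 < B := by linarith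
  have hR0 : 0 < R := by linarith
  have hz0 : 0 < z := by linarith
  have hL0 : 0 < L := by linarith
  have hC10 : 0 < C1 := by linarith
  have hC20 : 0 < C2 := by linarith
  have h4 : d * ρ ^ 2 * v ≤ C2 * B * Z ^ 2 * z := by
    rw [lt_div_iff₀ (by positivity)] at h2
    have h5 : 4 * Z ^ 4 * (d * ρ ^ 2 * v) < 4 * Z ^ 4 * (C2 * B * Z ^ 2 * z) := by
      calc 4 * Z ^ 4 * (d * ρ ^ 2 * v) < 4 * C2 * B * Z ^ 6 * z := h2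
        _ = _ := by ring
    exact (lt_of_mul_lt_mul_left h5 (by positivity)).le
  have h5 : ρ ^ 3 * v ^ 2 ≤ 2 * C1 * C2 * R ^ 4 * B ^ 2 * Z ^ 4 * z * L ^ 2 := by
    calc ρ ^ 3 * v ^ 2 = (ρ * v) * (ρ ^ 2 * v) := by ring
      _ ≤ (C1 * B * R ^ 4 * (2 * d) * Z ^ 2 * L ^ 2) * (ρ ^ 2 * v) :=
          mul_le_mul_of_nonneg_right h1 (by positivity)
      _ = (2 * C1 * B * R ^ 4 * Z ^ 2 * L ^ 2) * (d * ρ ^ 2 * v) := by ring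
      _ ≤ (2 * C1 * B * R ^ 4 * Z ^ 2 * L ^ 2) * (C2 * B * Z ^ 2 * z) :=
          mul_le_mul_of_nonneg_left h4 (by positivity)
      _ = _ := by ring
  have h6 : (1 : ℝ) ≤ R ^ 8 := one_le_pow₀ hR
  calc ρ ^ 8 * v ^ 5 = (ρ ^ 3 * v ^ 2) ^ 2 * (ρ ^ 2 * v) := by ring
    _ ≤ (2 * C1 * C2 * R ^ 4 * B ^ 2 * Z ^ 4 * z * L ^ 2) ^ 2 *
          (128 * C1 * B * R ^ 4 * Z ^ 8 * L ^ 2) := by
        gcongr
    _ = 512 * (C1 ^ 3 * C2 ^ 2 * R ^ 12 * B ^ 5 * Z ^ 16 * z ^ 2 * L ^ 6) * 1 := by ring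
    _ ≤ 131072 * (C1 ^ 3 * C2 ^ 2 * R ^ 12 * B ^ 5 * Z ^ 16 * z ^ 2 * L ^ 6) * R ^ 8 := by
        gcongr
        norm_num
    _ = _ := by ring

/-- case B2 -/
lemma numB {v ρ d B R Z z L C1 C2 Λ2 : ℝ} (hv : 0 < v) (hρ : 0 < ρ) (hd : 0 < d) (hB : 1 ≤ B)
    (hR : 1 ≤ R) (hZ : 1 ≤ Z) (hz : 1 ≤ z) (hL : 1 ≤ L) (hC1 : 1 ≤ C1) (hC2 : 1 ≤ C2)
    (h1 : ρ * v ≤ C1 * B * R ^ 4 * (2 * d) * Z ^ 2 * L ^ 2)
    (hΛ : Λ2 = 4 * C2 * B * Z ^ 6 * z / (d * ρ ^ 2 * v))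
    (h3 : ρ ^ 2 * v ≤ 2048 * C1 * B * R ^ 12 * Λ2 ^ 2 * L ^ 2) :
    ρ ^ 8 * v ^ 5 ≤ 131072 * C1 ^ 3 * C2 ^ 2 * R ^ 20 * B ^ 5 * Z ^ 16 * z ^ 2 * L ^ 6 := by
  have hZ0 : 0 < Z := by linarith
  have hB0 : 0 < B := by linarith
  have hR0 : 0 < R := by linarith
  have hz0 : 0 < z := by linarith
  have hL0 : 0 < L := by linarith
  have hC10 : 0 < C1 := by linarith
  have hC20 : 0 < C2 := by linarith
  have h4 : Λ2 * (d * ρ ^ 2 * v) = 4 * C2 * B * Z ^ 6 * z := by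
    rw [hΛ]; field_simp
  have h5 : (ρ ^ 2 * v) * (d * ρ ^ 2 * v) ^ 2 ≤
      32768 * C1 * C2 ^ 2 * B ^ 3 * R ^ 12 * Z ^ 12 * z ^ 2 * L ^ 2 := by
    calc (ρ ^ 2 * v) * (d * ρ ^ 2 * v) ^ 2
        ≤ (2048 * C1 * B * R ^ 12 * Λ2 ^ 2 * L ^ 2) * (d * ρ ^ 2 * v) ^ 2 :=
          mul_le_mul_of_nonneg_right h3 (by positivity)
      _ = 2048 * C1 * B * R ^ 12 * L ^ 2 * (Λ2 * (d * ρ ^ 2 * v)) ^ 2 := by ring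
      _ = 2048 * C1 * B * R ^ 12 * L ^ 2 * (4 * C2 * B * Z ^ 6 * z) ^ 2 := by rw [h4]
      _ = _ := by ring
  have h6 : (ρ * v) ^ 2 ≤ (C1 * B * R ^ 4 * (2 * d) * Z ^ 2 * L ^ 2) ^ 2 :=
    pow_le_pow_left₀ (by positivity) h1 2
  have h7 : d ^ 2 * (ρ ^ 8 * v ^ 5) ≤
      d ^ 2 * (131072 * C1 ^ 3 * C2 ^ 2 * R ^ 20 * B ^ 5 * Z ^ 16 * z ^ 2 * L ^ 6) := by
    calc d ^ 2 * (ρ ^ 8 * v ^ 5) = (ρ * v) ^ 2 * ((ρ ^ 2 * v) * (d * ρ ^ 2 * v) ^ 2) := by ring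
      _ ≤ (C1 * B * R ^ 4 * (2 * d) * Z ^ 2 * L ^ 2) ^ 2 *
          (32768 * C1 * C2 ^ 2 * B ^ 3 * R ^ 12 * Z ^ 12 * z ^ 2 * L ^ 2) := by
          apply mul_le_mul h6 h5 (by positivity) (by positivity)
      _ = _ := by ring
  exact le_of_mul_le_mul_left h7 (by positivity)

/-- case B1 -/
lemma numS {v ρ d B R Z z L C1 C2 l0 : ℝ} (hv : 0 < v) (hρ : 0 < ρ) (hd : 0 < d) (hB : 1 ≤ B)
    (hR : 1 ≤ R) (hZ : 1 ≤ Z) (hz : 1 ≤ z) (hL : 1 ≤ L) (hC1 : 1 ≤ C1) (hC2 : 1 ≤ C2)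
    (h1 : ρ * v ≤ C1 * B * R ^ 4 * (2 * d) * Z ^ 2 * L ^ 2)
    (h2 : l0 ^ 2 ≤ 4 * C2 * B * Z ^ 6 * z / (d * ρ ^ 2 * v)) :
    ρ ^ 3 * v ^ 2 * l0 ^ 2 ≤ 8 * C1 * C2 * R ^ 4 * B ^ 2 * Z ^ 8 * z * L ^ 2 := by
  have hZ0 : 0 < Z := by linarith
  have hB0 : 0 < B := by linarith
  have hR0 : 0 < R := by linarith
  have hz0 : 0 < z := by linarith
  have hL0 : 0 < L := by linarith
  have hC10 : 0 < C1 := by linarith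
  have hC20 : 0 < C2 := by linarith
  rw [le_div_iff₀ (by positivity)] at h2
  calc ρ ^ 3 * v ^ 2 * l0 ^ 2 = (ρ * v) * (ρ ^ 2 * v * l0 ^ 2) := by ring
    _ ≤ (C1 * B * R ^ 4 * (2 * d) * Z ^ 2 * L ^ 2) * (ρ ^ 2 * v * l0 ^ 2) :=
        mul_le_mul_of_nonneg_right h1 (by positivity)
    _ = (2 * C1 * B * R ^ 4 * Z ^ 2 * L ^ 2) * (l0 ^ 2 * (d * ρ ^ 2 * v)) := by ring
    _ ≤ (2 * C1 * B * R ^ 4 * Z ^ 2 * L ^ 2) * (4 * C2 * B * Z ^ 6 * z) :=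
        mul_le_mul_of_nonneg_left h2 (by positivity)
    _ = _ := by ring

/-- the statement of S_Deg for a given constant -/
def DegC (C1 : ℝ) : Prop :=
  ∀ (ι : Type) (V : Finset ι) (g : ι → MR) (R w B Y d : ℝ) (a : MR) (W : Finset ι),
    1 ≤ R → 0 < w → 0 ≤ B → 1 ≤ Y → 0 ≤ d → 16 * w * Y ^ 2 ≤ 1 → Uni R V g → Ov w B V g → a.det = 1 → W ⊆ V →
    (∀ y ∈ W, ∃ u : MZ, u.det ≠ 0 ∧ Dg Y w a (g y) u ∧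
      |fr a (g y) u 0 0| * |fr a (g y) u 1 1| ≤ d) →
    (W.card : ℝ) ≤ C1 * B * R ^ 4 * d * Y ^ 2 * (1 + Real.log Y) ^ 2

/-- the statement of S_Two for a given constant -/
def TwoC (C2 R ε : ℝ) : Prop :=
    ∀ (ι : Type) (V : Finset ι) (g : ι → MR) (w B Z d lam : ℝ) (x z : ι) (W : Finset ι),
      0 < w → w ≤ 1 → 0 ≤ B → 1 ≤ Z → 1 / 2 ≤ d → C2 * w * Z ^ 6 ≤ 1 → Uni R V g → Ov w B V g →
      x ∈ V → z ∈ V → W ⊆ V →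
      (∀ y ∈ W, ∃ r1 r2 : MZ, Fl Z w (g x) (g y) r1 ∧ Fl Z w (g y) (g z) r2 ∧
        d ≤ |fr (g x) (g y) r1 0 1| * |fr (g x) (g y) r1 1 0|) →
      0 < lam → lam ≤ 2 * Z ^ 2 → (∀ u : MZ, u ≠ 0 → ¬ Dg lam w (g x) (g z) u) →
      (W.card : ℝ) ≤ C2 * B * Z ^ ε * (Z ^ 2 / d) * (Z ^ 4 / lam ^ 2)

lemma nonempty_of {ι : Type} {W : Finset ι} {t : ℝ} (ht : 0 < t) (h : t ≤ 2 * (W.card : ℝ)) : W.Nonempty := by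
  rw [← Finset.card_pos]
  have h1 : (0 : ℝ) < (W.card : ℝ) := by linarith
  exact_mod_cast h1

/-- non-singular step of length two -/
lemma step (hF : S_Frm) {ι : Type} {R w Z : ℝ} {V : Finset ι} {g : ι → MR} (hw : 0 < w) (hw1 : w ≤ 1)
    (hZ : 1 ≤ Z) (hUni : Uni R V g) {E : Finset (ι × ι)}
    (hE : ∀ t ∈ E, t.1 ∈ V ∧ t.2 ∈ V ∧ ∃ r : MZ, Fl Z w (g t.1) (g t.2) r) {x y z : ι}
    (h1 : (x, y) ∈ E) (h2 : (y, z) ∈ E) : ∃ u : MZ, u.det ≠ 0 ∧ Dg (2 * Z ^ 2) w (g x) (g z) u := by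
  obtain ⟨-, -, hF3, -, -, -, -, -⟩ := hF
  obtain ⟨-, hyV, r1, hr1⟩ := hE _ h1
  obtain ⟨-, -, r2, hr2⟩ := hE _ h2
  obtain ⟨h3, h4⟩ := hF3 Z w (g x) (g y) (g z) r1 r2 (hUni y hyV).1 hw.le hw1 (by linarith) hr1 hr2
  exact ⟨_, h3, h4⟩

lemma caseA (hF : S_Frm) {C1 : ℝ} (hC1 : 1 ≤ C1) (hDeg : DegC C1) {ι : Type} {R w Z B : ℝ} {V : Finset ι}
    {g : ι → MR} (hR : 1 ≤ R) (hw : 0 < w) (hw1 : w ≤ 1) (hZ : 1 ≤ Z) (hB : 1 ≤ B)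
    (hA3 : 64 * w * Z ^ 4 ≤ 1) (hUni : Uni R V g) (hOv : Ov w B V g) {E : Finset (ι × ι)}
    (hE : ∀ t ∈ E, t.1 ∈ V ∧ t.2 ∈ V ∧ ∃ r : MZ, Fl Z w (g t.1) (g t.2) r) {x : ι} (hx : x ∈ V)
    {Zx : Finset ι} (hZxV : Zx ⊆ V) {ρ v L : ℝ} (hρ : 0 < ρ) (hv : 0 < v) (hL : L = 1 + Real.log Z)
    (hZxc : ρ ^ 2 * v ≤ 2 * (Zx.card : ℝ))
    (hZx : ∀ z ∈ Zx, ∃ W : Finset ι, W ⊆ V ∧ ρ ^ 2 * v ≤ 2 * (W.card : ℝ) ∧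
        ∀ y ∈ W, (x, y) ∈ E ∧ (y, z) ∈ E) :
    ρ ^ 2 * v ≤ 128 * C1 * B * R ^ 4 * Z ^ 8 * L ^ 2 := by
  have hZ0 : 0 < Z := by linarith
  have hZ2 : 1 ≤ 2 * Z ^ 2 := by
    have := one_le_pow₀ hZ (n := 2)
    linarith
  have hL1 : 1 ≤ L := by
    have := Real.log_nonneg hZ
    linarith
  have hlog2 : 1 + Real.log (2 * Z ^ 2) ≤ 2 * L := by
    rw [hL]
    exact log_two_sq hZ
  have hl0 : 0 ≤ 1 + Real.log (2 * Z ^ 2) := by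
    have := Real.log_nonneg hZ2
    linarith
  have hC10 : 0 < C1 := by linarith
  have hB0 : 0 < B := by linarith
  have hR0 : 0 < R := by linarith
  have h1 : (Zx.card : ℝ) ≤ C1 * B * R ^ 4 * (4 * Z ^ 4) * (2 * Z ^ 2) ^ 2 *
      (1 + Real.log (2 * Z ^ 2)) ^ 2 := by
    refine hDeg ι V g R w B (2 * Z ^ 2) (4 * Z ^ 4) (g x) Zx hR hw hB0.le hZ2 (by positivity) ?_
      hUni hOv (hUni x hx).1 hZxV ?_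
    · calc 16 * w * (2 * Z ^ 2) ^ 2 = 64 * w * Z ^ 4 := by ring
        _ ≤ 1 := hA3
    · intro zz hzz
      obtain ⟨W, -, hWc, hWE⟩ := hZx zz hzz
      obtain ⟨y, hy⟩ := nonempty_of (by positivity) hWc
      obtain ⟨u, hu, hud⟩ := step hF hw hw1 hZ hUni hE (hWE y hy).1 (hWE y hy).2
      refine ⟨u, hu, hud, ?_⟩
      calc |fr (g x) (g zz) u 0 0| * |fr (g x) (g zz) u 1 1| ≤ (2 * Z ^ 2) * (2 * Z ^ 2) :=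
            mul_le_mul hud.1 hud.2.1 (abs_nonneg _) (by positivity)
        _ = _ := by ring
  calc ρ ^ 2 * v ≤ 2 * (Zx.card : ℝ) := hZxc
    _ ≤ 2 * (C1 * B * R ^ 4 * (4 * Z ^ 4) * (2 * Z ^ 2) ^ 2 *
        (1 + Real.log (2 * Z ^ 2)) ^ 2) := by linarith
    _ ≤ 2 * (C1 * B * R ^ 4 * (4 * Z ^ 4) * (2 * Z ^ 2) ^ 2 * (2 * L) ^ 2) := by gcongr
    _ = _ := by ring

lemma caseB (hF : S_Frm) {C1 : ℝ} (hC1 : 1 ≤ C1) (hDeg : DegC C1) {ι : Type} {R w Z B : ℝ} {V : Finset ι}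
    {g : ι → MR} (hR : 1 ≤ R) (hw : 0 < w) (hw1 : w ≤ 1) (hZ : 1 ≤ Z) (hB : 1 ≤ B)
    (hA3 : 64 * w * Z ^ 4 ≤ 1) (hUni : Uni R V g) (hOv : Ov w B V g) {x : ι} (hx : x ∈ V)
    {Zx : Finset ι} (hZxV : Zx ⊆ V) {ρ v L Λ : ℝ} (hρ : 0 < ρ) (hv : 0 < v) (hL : L = 1 + Real.log Z)
    (hZxc : ρ ^ 2 * v ≤ 2 * (Zx.card : ℝ)) (hΛ : 0 < Λ) (hΛZ : Λ ≤ 2 * Z ^ 2)
    (hu : ∀ zz ∈ Zx, ∃ u : MZ, u.det ≠ 0 ∧ Dg Λ w (g x) (g zz) u) :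
    ρ ^ 2 * v ≤ 2048 * C1 * B * R ^ 12 * (Λ ^ 2) ^ 2 * L ^ 2 := by
  have hZ0 : 0 < Z := by linarith
  have hZ2 : 1 ≤ 2 * Z ^ 2 := by
    have := one_le_pow₀ hZ (n := 2)
    linarith
  have hL1 : 1 ≤ L := by
    have := Real.log_nonneg hZ
    linarith
  have hlog2 : 1 + Real.log (2 * Z ^ 2) ≤ 2 * L := by
    rw [hL]
    exact log_two_sq hZ
  have hC10 : 0 < C1 := by linarith
  have hB0 : 0 < B := by linarith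
  have hR0 : 0 < R := by linarith
  obtain ⟨-, -, -, -, hF5, -, -, -⟩ := hF
  obtain ⟨z0, hz0'⟩ := nonempty_of (by positivity) hZxc
  have h4R : 1 ≤ 4 * R ^ 2 * Λ := by
    obtain ⟨u0, hu0, huD⟩ := hu z0 hz0'
    by_contra hcon
    push Not at hcon
    refine hF5 R Λ w (g x) (g z0) u0 hR hw hw1 (hUni x hx).1 (hUni z0 (hZxV hz0')).1
      (hUni x hx).2 (hUni z0 (hZxV hz0')).2 ?_ hcon huD
    intro h
    apply hu0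
    rw [h]
    simp
  obtain ⟨Y, hY1, hYΛ, hYZ, hYR⟩ : ∃ Y : ℝ, 1 ≤ Y ∧ Λ ≤ Y ∧ Y ≤ 2 * Z ^ 2 ∧ Y ≤ 4 * R ^ 2 * Λ := by
    refine ⟨max 1 Λ, le_max_left _ _, le_max_right _ _, max_le hZ2 hΛZ, max_le h4R ?_⟩
    have h1 : 1 ≤ R ^ 2 := one_le_pow₀ hR
    nlinarith
  have hY0 : 0 < Y := by linarith
  have h1 : (Zx.card : ℝ) ≤ C1 * B * R ^ 4 * (Y ^ 2) * Y ^ 2 * (1 + Real.log Y) ^ 2 := by
    refine hDeg ι V g R w B Y (Y ^ 2) (g x) Zx hR hw hB0.le hY1 (by positivity) ?_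
      hUni hOv (hUni x hx).1 hZxV ?_
    · calc 16 * w * Y ^ 2 ≤ 16 * w * (2 * Z ^ 2) ^ 2 := by gcongr
        _ = 64 * w * Z ^ 4 := by ring
        _ ≤ 1 := hA3
    · intro zz hzz
      obtain ⟨u, hu0, huD⟩ := hu zz hzz
      have huY := Dg_mono hw hYΛ huD
      refine ⟨u, hu0, huY, ?_⟩
      calc |fr (g x) (g zz) u 0 0| * |fr (g x) (g zz) u 1 1| ≤ Y * Y :=
            mul_le_mul huY.1 huY.2.1 (abs_nonneg _) hY0.le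
        _ = _ := by ring
  have hlY : 1 + Real.log Y ≤ 2 * L := by
    have : Real.log Y ≤ Real.log (2 * Z ^ 2) := Real.log_le_log hY0 hYZ
    linarith
  have hlY0 : 0 ≤ 1 + Real.log Y := by
    have := Real.log_nonneg hY1
    linarith
  calc ρ ^ 2 * v ≤ 2 * (Zx.card : ℝ) := hZxc
    _ ≤ 2 * (C1 * B * R ^ 4 * (Y ^ 2) * Y ^ 2 * (1 + Real.log Y) ^ 2) := by linarith
    _ = 2 * C1 * B * R ^ 4 * Y ^ 4 * (1 + Real.log Y) ^ 2 := by ring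
    _ ≤ 2 * C1 * B * R ^ 4 * (4 * R ^ 2 * Λ) ^ 4 * (2 * L) ^ 2 := by gcongr
    _ = 2048 * C1 * B * R ^ 12 * (Λ ^ 2) ^ 2 * L ^ 2 := by ring

/-- the dichotomy, before the logarithms are absorbed -/
lemma core (hF : S_Frm) {C1 C2 R ε : ℝ} (hC1 : 1 ≤ C1) (hDeg : DegC C1) (hC2 : 1 ≤ C2)
    (hTwo : TwoC C2 R ε) (hCmb : S_Cmb) (hR : 1 ≤ R) (hε : 0 < ε) {ι : Type} {V : Finset ι} {g : ι → MR}
    {w Z B lam0 ρ d v L z : ℝ} {E : Finset (ι × ι)} (hw : 0 < w) (hw1 : w ≤ 1) (hZ : 1 ≤ Z) (hB : 1 ≤ B)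
    (hl0 : 0 < lam0) (hρ : 0 < ρ) (hA1 : C2 * w * Z ^ 6 ≤ 1) (hA3 : 64 * w * Z ^ 4 ≤ 1)
    (hUni : Uni R V g) (hOv : Ov w B V g)
    (hsing : ∀ i ∈ V, ∀ j ∈ V, ∀ u : MZ, u ≠ 0 → u.det = 0 → ¬ Dg lam0 w (g i) (g j) u)
    (hd : 1 / 2 ≤ d)
    (hE : ∀ t ∈ E, t.1 ∈ V ∧ t.2 ∈ V ∧ ∃ r : MZ, Fl Z w (g t.1) (g t.2) r ∧
        d ≤ |fr (g t.1) (g t.2) r 0 1| * |fr (g t.1) (g t.2) r 1 0| ∧
        |fr (g t.1) (g t.2) r 0 1| * |fr (g t.1) (g t.2) r 1 0| ≤ 2 * d)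
    (hsym : ∀ t ∈ E, (t.2, t.1) ∈ E) (hv : v = (V.card : ℝ)) (hVne : V.Nonempty)
    (hL : L = 1 + Real.log Z) (hz : z = Z ^ ε) (hEc : ρ * v ^ 2 ≤ (E.card : ℝ)) :
    ρ ^ 8 * v ^ 5 ≤ 131072 * C1 ^ 3 * C2 ^ 2 * R ^ 20 * B ^ 5 * Z ^ 16 * z ^ 2 * L ^ 6 ∨
      ρ ^ 3 * v ^ 2 * lam0 ^ 2 ≤ 8 * C1 * C2 * R ^ 4 * B ^ 2 * Z ^ 8 * z * L ^ 2 := by
  have hF' := hF
  obtain ⟨hF1, hF2, -, -, -, -, -, -⟩ := hF'
  have hZ0 : 0 < Z := by linarith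
  have hv0 : 0 < v := by
    rw [hv]
    exact_mod_cast hVne.card_pos
  have hz1 : 1 ≤ z := by
    rw [hz]
    exact Real.one_le_rpow hZ hε.le
  have hL1 : 1 ≤ L := by
    have := Real.log_nonneg hZ
    linarith
  have hd0 : 0 < d := by linarith
  have hB0 : 0 < B := by linarith
  have hz0 : 0 < z := by linarith
  have hC20 : 0 < C2 := by linarith
  have hE1 : ∀ t ∈ E, t.1 ∈ V ∧ t.2 ∈ V ∧ ∃ r : MZ, Fl Z w (g t.1) (g t.2) r := by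
    intro t ht
    obtain ⟨h1, h2, r, hr, -⟩ := hE t ht
    exact ⟨h1, h2, r, hr⟩
  rw [hv] at hEc
  obtain ⟨⟨x1, hx1, W1, hW1V, hW1c, hW1E⟩, ⟨x, hx, Zx, hZxV, hZxc, hZx⟩⟩ :=
    hCmb ι V E ρ hρ hVne (fun t ht => ⟨(hE t ht).1, (hE t ht).2.1⟩) hsym hEc
  rw [← hv] at hW1c hZxc hZx
  have hA4 : 16 * w * Z ^ 2 ≤ 1 := by
    have h1 : Z ^ 2 ≤ Z ^ 4 := pow_le_pow_right₀ hZ (by norm_num)
    have h2 : w * Z ^ 2 ≤ w * Z ^ 4 := mul_le_mul_of_nonneg_left h1 hw.le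
    have h3 : 0 ≤ w * Z ^ 4 := by positivity
    linarith
  -- (i)
  have hi : ρ * v ≤ C1 * B * R ^ 4 * (2 * d) * Z ^ 2 * L ^ 2 := by
    rw [hL]
    refine hW1c.trans ?_
    refine hDeg ι V g R w B Z (2 * d) (g x1 * J) W1 hR hw hB0.le hZ (by linarith) hA4 hUni
      hOv ?_ hW1V ?_
    · rw [Matrix.det_mul, (hUni x1 hx1).1, J_det, one_mul]
    · intro y hy
      obtain ⟨-, -, r, hr, -, hr2⟩ := hE _ (hW1E y hy)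
      refine ⟨r, hr.1, hF2 Z w (g x1) (g y) r hr, ?_⟩
      obtain ⟨e1, -, -, e4⟩ := hF1 (g x1) (g y) r
      rw [e1, e4, abs_neg]
      exact hr2
  obtain ⟨Λ2, hΛ2def⟩ : ∃ Λ2 : ℝ, Λ2 = 4 * C2 * B * Z ^ 6 * z / (d * ρ ^ 2 * v) := ⟨_, rfl⟩
  have hΛ2 : 0 < Λ2 := by
    rw [hΛ2def]
    positivity
  rcases lt_or_ge (4 * Z ^ 4) Λ2 with hcase | hcase
  · -- case A
    left
    have h2 := caseA hF hC1 hDeg hR hw hw1 hZ hB hA3 hUni hOv hE1 hx hZxV hρ hv0 hL hZxc hZx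
    rw [hΛ2def] at hcase
    exact numA hv0 hρ hd0 hB hR hZ hz1 hL1 hC1 hC2 hi hcase h2
  · -- case B
    obtain ⟨Λ, hΛ, hΛsq⟩ : ∃ Λ : ℝ, 0 < Λ ∧ Λ ^ 2 = Λ2 :=
      ⟨Real.sqrt Λ2, Real.sqrt_pos.mpr hΛ2, Real.sq_sqrt hΛ2.le⟩
    have hΛZ : Λ ≤ 2 * Z ^ 2 := by
      refine le_of_sq_le_sq ?_ (by positivity)
      rw [hΛsq]
      calc Λ2 ≤ 4 * Z ^ 4 := hcase
        _ = (2 * Z ^ 2) ^ 2 := by ring
    have hu : ∀ zz ∈ Zx, ∃ u : MZ, u ≠ 0 ∧ Dg Λ w (g x) (g zz) u := by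
      intro zz hzz
      by_contra hcon
      push Not at hcon
      obtain ⟨W, hWV, hWc, hWE⟩ := hZx zz hzz
      have h1 := hTwo ι V g w B Z d Λ x zz W hw hw1 hB0.le hZ hd hA1 hUni hOv hx (hZxV hzz) hWV
        (by
          intro y hy
          obtain ⟨h1, h2⟩ := hWE y hy
          obtain ⟨-, -, r1, hr1, hr1d, -⟩ := hE _ h1
          obtain ⟨-, -, r2, hr2, -, -⟩ := hE _ h2
          exact ⟨r1, r2, hr1, hr2, hr1d⟩) hΛ hΛZ hcon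
      have h2 : C2 * B * Z ^ ε * (Z ^ 2 / d) * (Z ^ 4 / Λ ^ 2) = ρ ^ 2 * v / 4 := by
        rw [← hz, hΛsq, hΛ2def]
        field_simp
      rw [h2] at h1
      have h3 : 0 < ρ ^ 2 * v := by positivity
      linarith
    by_cases hB1 : ∃ zz ∈ Zx, ∃ u : MZ, u ≠ 0 ∧ u.det = 0 ∧ Dg Λ w (g x) (g zz) u
    · right
      obtain ⟨zz, hzz, u, hu0, hud, huD⟩ := hB1
      have h1 : lam0 ≤ Λ := by
        by_contra hcon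
        push Not at hcon
        exact hsing x hx zz (hZxV hzz) u hu0 hud (Dg_mono hw hcon.le huD)
      have h2 : lam0 ^ 2 ≤ Λ2 := by
        rw [← hΛsq]
        exact pow_le_pow_left₀ hl0.le h1 2
      rw [hΛ2def] at h2
      exact numS hv0 hρ hd0 hB hR hZ hz1 hL1 hC1 hC2 hi h2
    · left
      push Not at hB1
      have hu' : ∀ zz ∈ Zx, ∃ u : MZ, u.det ≠ 0 ∧ Dg Λ w (g x) (g zz) u := by
        intro zz hzz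
        obtain ⟨u, hu0, huD⟩ := hu zz hzz
        exact ⟨u, fun h => hB1 zz hzz u hu0 h huD, huD⟩
      have h2 := caseB hF hC1 hDeg hR hw hw1 hZ hB hA3 hUni hOv hx hZxV hρ hv0 hL hZxc hΛ hΛZ hu'
      rw [hΛsq] at h2
      exact numB hv0 hρ hd0 hB hR hZ hz1 hL1 hC1 hC2 hi hΛ2def h2

lemma absorb {k : ℕ} {c δ Z L : ℝ} (hZ : 1 ≤ Z) (hL0 : 0 < L) (hLc : L ≤ c * Z ^ δ) :
    L ^ k ≤ c ^ k * Z ^ ((k : ℝ) * δ) := by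
  have hZ0 : 0 < Z := by linarith
  calc L ^ k ≤ (c * Z ^ δ) ^ k := pow_le_pow_left₀ hL0.le hLc k
    _ = c ^ k * (Z ^ δ) ^ k := by rw [mul_pow]
    _ = c ^ k * Z ^ ((k : ℝ) * δ) := by
        rw [← Real.rpow_natCast (Z ^ δ) k, ← Real.rpow_mul hZ0.le, mul_comm δ]

lemma fin1 {v ρ ρ' B Z z L c ε δ C3 : ℝ} (hB : 1 ≤ B) (hZ : 1 ≤ Z) (hz : z = Z ^ (ε / 4))
    (hδ : δ = ε / 64) (hε : 0 < ε) (hL0 : 0 < L) (hLc : L ≤ c * Z ^ δ) (hC3 : 0 ≤ C3)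
    (hρρ : ρ = 4 * L * ρ') (h : ρ' ^ 8 * v ^ 5 ≤ C3 * B ^ 5 * Z ^ 16 * z ^ 2 * L ^ 6) (hc : 1 ≤ c) :
    ρ ^ 8 * v ^ 5 ≤ 65536 * C3 * c ^ 14 * B ^ 5 * Z ^ (16 + ε) := by
  have hZ0 : 0 < Z := by linarith
  have hB0 : 0 < B := by linarith
  have hc0 : 0 < c := by linarith
  have hz0 : 0 < z := by
    rw [hz]
    positivity
  have hL14 : L ^ 14 ≤ c ^ 14 * Z ^ (((14 : ℕ) : ℝ) * δ) := absorb hZ hL0 hLc
  have hexp : Z ^ 16 * z ^ 2 * Z ^ (((14 : ℕ) : ℝ) * δ) ≤ Z ^ (16 + ε) := by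
    rw [hz, ← Real.rpow_natCast Z 16, ← Real.rpow_natCast (Z ^ (ε / 4)) 2,
      ← Real.rpow_mul hZ0.le, ← Real.rpow_add hZ0, ← Real.rpow_add hZ0]
    refine Real.rpow_le_rpow_of_exponent_le hZ ?_
    rw [hδ]
    push_cast
    linarith
  calc ρ ^ 8 * v ^ 5 = 65536 * L ^ 8 * (ρ' ^ 8 * v ^ 5) := by rw [hρρ]; ring
    _ ≤ 65536 * L ^ 8 * (C3 * B ^ 5 * Z ^ 16 * z ^ 2 * L ^ 6) :=
        mul_le_mul_of_nonneg_left h (by positivity)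
    _ = 65536 * C3 * B ^ 5 * (Z ^ 16 * z ^ 2) * L ^ 14 := by ring
    _ ≤ 65536 * C3 * B ^ 5 * (Z ^ 16 * z ^ 2) * (c ^ 14 * Z ^ (((14 : ℕ) : ℝ) * δ)) :=
        mul_le_mul_of_nonneg_left hL14 (by positivity)
    _ = 65536 * C3 * c ^ 14 * B ^ 5 * (Z ^ 16 * z ^ 2 * Z ^ (((14 : ℕ) : ℝ) * δ)) := by ring
    _ ≤ 65536 * C3 * c ^ 14 * B ^ 5 * Z ^ (16 + ε) :=
        mul_le_mul_of_nonneg_left hexp (by positivity)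

lemma fin2 {v ρ ρ' B Z z L c ε δ C4 lam0 : ℝ} (hB : 1 ≤ B) (hZ : 1 ≤ Z) (hz : z = Z ^ (ε / 4))
    (hδ : δ = ε / 64) (hε : 0 < ε) (hL0 : 0 < L) (hLc : L ≤ c * Z ^ δ) (hC4 : 0 ≤ C4)
    (hρρ : ρ = 4 * L * ρ') (h : ρ' ^ 3 * v ^ 2 * lam0 ^ 2 ≤ C4 * B ^ 2 * Z ^ 8 * z * L ^ 2) (hc : 1 ≤ c) :
    ρ ^ 3 * v ^ 2 * lam0 ^ 2 ≤ 64 * C4 * c ^ 5 * B ^ 2 * Z ^ (8 + ε) := by
  have hZ0 : 0 < Z := by linarith
  have hB0 : 0 < B := by linarith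
  have hc0 : 0 < c := by linarith
  have hz0 : 0 < z := by
    rw [hz]
    positivity
  have hL5 : L ^ 5 ≤ c ^ 5 * Z ^ (((5 : ℕ) : ℝ) * δ) := absorb hZ hL0 hLc
  have hexp : Z ^ 8 * z * Z ^ (((5 : ℕ) : ℝ) * δ) ≤ Z ^ (8 + ε) := by
    rw [hz, ← Real.rpow_natCast Z 8, ← Real.rpow_add hZ0, ← Real.rpow_add hZ0]
    refine Real.rpow_le_rpow_of_exponent_le hZ ?_
    rw [hδ]
    push_cast
    linarith
  calc ρ ^ 3 * v ^ 2 * lam0 ^ 2 = 64 * L ^ 3 * (ρ' ^ 3 * v ^ 2 * lam0 ^ 2) := by rw [hρρ]; ring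
    _ ≤ 64 * L ^ 3 * (C4 * B ^ 2 * Z ^ 8 * z * L ^ 2) :=
        mul_le_mul_of_nonneg_left h (by positivity)
    _ = 64 * C4 * B ^ 2 * (Z ^ 8 * z) * L ^ 5 := by ring
    _ ≤ 64 * C4 * B ^ 2 * (Z ^ 8 * z) * (c ^ 5 * Z ^ (((5 : ℕ) : ℝ) * δ)) :=
        mul_le_mul_of_nonneg_left hL5 (by positivity)
    _ = 64 * C4 * c ^ 5 * B ^ 2 * (Z ^ 8 * z * Z ^ (((5 : ℕ) : ℝ) * δ)) := by ring
    _ ≤ 64 * C4 * c ^ 5 * B ^ 2 * Z ^ (8 + ε) :=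
        mul_le_mul_of_nonneg_left hexp (by positivity)

lemma small {C C2 w Z : ℝ} (hw : 0 < w) (hZ : 1 ≤ Z) (h : C * w * Z ^ 6 ≤ 1) (hC : C2 + 64 ≤ C) (hC2 : 1 ≤ C2) :
    C2 * w * Z ^ 6 ≤ 1 ∧ 64 * w * Z ^ 4 ≤ 1 ∧ 2 * w * Z ≤ 1 := by
  have h0 : 0 < w * Z ^ 6 := by positivity
  have h1 : (C2 + 64) * (w * Z ^ 6) ≤ C * (w * Z ^ 6) := mul_le_mul_of_nonneg_right hC h0.le
  have h2 : C * (w * Z ^ 6) ≤ 1 := by linarith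
  have h3 : 0 ≤ C2 * (w * Z ^ 6) := by positivity
  have hZp : ∀ k : ℕ, k ≤ 6 → w * Z ^ k ≤ w * Z ^ 6 := fun k hk =>
    mul_le_mul_of_nonneg_left (pow_le_pow_right₀ hZ hk) hw.le
  have h4 := hZp 4 (by norm_num)
  have h5 := hZp 1 (by norm_num)
  rw [pow_one] at h5
  refine ⟨by linarith, by linarith, by linarith⟩

end FFlipAux

open FFlipAux

theorem tFlip (hFrm : S_Frm) (hDeg : S_Deg) (hTwo : S_Two) (hCmb : S_Cmb) (hDyd : S_Dyd) :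
    StmtFlip := by
  intro R ε hR hε
  obtain ⟨C1, hC1, hDeg⟩ := hDeg
  have hε4 : 0 < ε / 4 := by positivity
  obtain ⟨C2, hC2, hTwo⟩ := hTwo R (ε / 4) hR hε4
  obtain ⟨δ, hδ⟩ : ∃ δ : ℝ, δ = ε / 64 := ⟨_, rfl⟩
  have hδ0 : 0 < δ := by rw [hδ]; positivity
  obtain ⟨c, hcdef⟩ : ∃ c : ℝ, c = 1 + 1 / δ := ⟨_, rfl⟩
  have hc : 1 ≤ c := by
    have : 0 < 1 / δ := by positivity
    linarith
  obtain ⟨C3, hC3def⟩ : ∃ C3 : ℝ, C3 = 131072 * C1 ^ 3 * C2 ^ 2 * R ^ 20 := ⟨_, rfl⟩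
  obtain ⟨C4, hC4def⟩ : ∃ C4 : ℝ, C4 = 8 * C1 * C2 * R ^ 4 := ⟨_, rfl⟩
  have hC10 : 0 < C1 := by linarith
  have hC20 : 0 < C2 := by linarith
  have hR0 : 0 < R := by linarith
  have hc0 : 0 < c := by linarith
  have hC3 : 0 ≤ C3 := by rw [hC3def]; positivity
  have hC4 : 0 ≤ C4 := by rw [hC4def]; positivity
  obtain ⟨D3, hD3⟩ : ∃ D3 : ℝ, D3 = 65536 * C3 * c ^ 14 := ⟨_, rfl⟩
  obtain ⟨D4, hD4⟩ : ∃ D4 : ℝ, D4 = 64 * C4 * c ^ 5 := ⟨_, rfl⟩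
  have hD30 : 0 ≤ D3 := by rw [hD3]; positivity
  have hD40 : 0 ≤ D4 := by rw [hD4]; positivity
  refine ⟨D3 + D4 + (C2 + 64), by linarith, ?_⟩
  intro ι V g w Z B lam0 ρ E hw hw1 hZ hB hl0 hρ hCw hUni hOv hsing hE hEc
  have hZ0 : 0 < Z := by linarith
  have hB0 : 0 < B := by linarith
  obtain ⟨z, hz⟩ : ∃ z : ℝ, z = Z ^ (ε / 4) := ⟨_, rfl⟩
  obtain ⟨L, hL⟩ : ∃ L : ℝ, L = 1 + Real.log Z := ⟨_, rfl⟩
  have hL1 : 1 ≤ L := by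
    have := Real.log_nonneg hZ
    linarith
  have hL0 : 0 < L := by linarith
  have hLc : L ≤ c * Z ^ δ := by
    rw [hL, hcdef]
    exact log_le hδ0 hZ
  obtain ⟨hA1, hA3, hA5⟩ := small hw hZ hCw (by linarith) hC2
  have hX1 : 0 ≤ B ^ 5 * Z ^ (16 + ε) := by positivity
  have hX2 : 0 ≤ B ^ 2 * Z ^ (8 + ε) := by positivity
  rcases V.eq_empty_or_nonempty with hV | hV
  · left
    rw [hV]
    simp only [Finset.card_empty, Nat.cast_zero]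
    rw [zero_pow (by norm_num), mul_zero]
    positivity
  obtain ⟨v, hv⟩ : ∃ v : ℝ, v = (V.card : ℝ) := ⟨_, rfl⟩
  have hv0 : 0 < v := by
    rw [hv]
    exact_mod_cast hV.card_pos
  rw [← hv] at hEc ⊢
  have hEne : E.Nonempty := by
    rw [← Finset.card_pos]
    have h1 : (0 : ℝ) < (E.card : ℝ) := lt_of_lt_of_le (by positivity) hEc
    exact_mod_cast h1
  obtain ⟨d, E', hd, hE', hsym, hcard⟩ := hDyd ι V g w Z E hw hw1 hZ hA5 (fun i hi => (hUni i hi).1)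
    hEne hE
  rw [← hL] at hcard
  obtain ⟨ρ', hρ'def⟩ : ∃ ρ' : ℝ, ρ' = ρ / (4 * L) := ⟨_, rfl⟩
  have hρ' : 0 < ρ' := by rw [hρ'def]; positivity
  have hρρ : ρ = 4 * L * ρ' := by
    rw [hρ'def]; field_simp
  have hE'c : ρ' * v ^ 2 ≤ (E'.card : ℝ) := by
    have h1 : 4 * L * (ρ' * v ^ 2) ≤ 4 * L * (E'.card : ℝ) := by
      calc 4 * L * (ρ' * v ^ 2) = ρ * v ^ 2 := by rw [hρρ]; ring
        _ ≤ (E.card : ℝ) := hEc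
        _ ≤ _ := hcard
    exact le_of_mul_le_mul_left h1 (by positivity)
  have main := core hFrm hC1 hDeg hC2 hTwo hCmb hR hε4 hw hw1 hZ hB hl0 hρ' hA1 hA3 hUni hOv hsing hd
    hE' hsym hv hV hL hz hE'c
  rw [← hC3def, ← hC4def] at main
  rcases main with h | h
  · left
    have h1 := fin1 hB hZ hz hδ hε hL0 hLc hC3 hρρ h hc
    rw [← hD3] at h1
    have h2 : 0 ≤ (D4 + (C2 + 64)) * (B ^ 5 * Z ^ (16 + ε)) := by positivity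
    linarith
  · right
    have h1 := fin2 hB hZ hz hδ hε hL0 hLc hC4 hρρ h hc
    rw [← hD4] at h1
    have h2 : 0 ≤ (D3 + (C2 + 64)) * (B ^ 2 * Z ^ (8 + ε)) := by positivity
    linarith

end HSL.Flp
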