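import Pool.Agent.Lib.HS.Bd.SpecFlip

/-!
PROJECT H*, FLIP LEMMA, modules S_Row and S_Mat: lattice points of `ℤ²` in a rectangle with two independent ones,
and integral matrices with rows in a rectangle.
-/

set_option autoImplicit false

namespace HSL.Flp

open HSL Matrix Finset

namespace FRowAux

/-- the determinant of two integer vectors -/
private def d2 (u v : Fin 2 → ℤ) : ℤ := u 0 * v 1 - u 1 * v 0

private lemma index_eq {u v : Fin 2 → ℤ} (hD : d2 u v ≠ 0) :
    Nat.card ((Fin 2 → ℤ) ⧸ Submodule.span ℤ (Set.range ![u, v])) = (d2 u v).natAbs := by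
  have hdet : Matrix.det (Matrix.of ![u, v]) = d2 u v := by
    rw [Matrix.det_fin_two]
    simp [d2]
  have hli : LinearIndependent ℤ ![u, v] := by
    have h1 := Matrix.linearIndependent_rows_of_det_ne_zero (A := Matrix.of ![u, v])
      (by rw [hdet]; exact hD)
    exact h1
  have h2 := Submodule.natAbs_det_basis_change (Pi.basisFun ℤ (Fin 2))
    (Submodule.span ℤ (Set.range ![u, v])) (Module.Basis.span hli)
  rw [← h2]
  congr 1
  have h3 : ((fun x : Submodule.span ℤ (Set.range ![u, v]) => (x : Fin 2 → ℤ)) ∘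
      (Module.Basis.span hli)) = ![u, v] := by
    funext i
    simp [Module.Basis.span_apply]
  rw [h3, Pi.basisFun_det_apply]
  exact hdet

private lemma card9 (S : Finset (Fin 2 → ℤ)) (u v : Fin 2 → ℤ) (hD : d2 u v ≠ 0)
    (h1 : ∀ s ∈ S, |d2 s v| ≤ |d2 u v|) (h2 : ∀ s ∈ S, |d2 u s| ≤ |d2 u v|) :
    (S.card : ℤ) ≤ 9 * |d2 u v| := by
  classical
  set D := d2 u v with hDdef
  set N := Submodule.span ℤ (Set.range ![u, v]) with hN
  have hcard : Nat.card ((Fin 2 → ℤ) ⧸ N) = D.natAbs := index_eq hD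
  have hDpos : 0 < |D| := abs_pos.mpr hD
  have hfin : Finite ((Fin 2 → ℤ) ⧸ N) := by
    apply Nat.finite_of_card_ne_zero
    rw [hcard]
    exact Int.natAbs_ne_zero.mpr hD
  let hft : Fintype ((Fin 2 → ℤ) ⧸ N) := Fintype.ofFinite _
  have key : S.card ≤ 9 * (Finset.univ : Finset ((Fin 2 → ℤ) ⧸ N)).card := by
    apply Finset.card_le_mul_card_image_of_maps_to (f := fun w => Submodule.Quotient.mk (p := N) w)
    · intro a _; exact Finset.mem_univ _
    · intro b _
      have hT : (Finset.Icc (-1 : ℤ) 1 ×ˢ Finset.Icc (-1 : ℤ) 1).card = 9 := by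
        decide
      rw [← hT]
      apply Finset.card_le_card_of_injOn (fun w => ((d2 w v) / |D|, (d2 u w) / |D|))
      · intro w hw
        have hwS : w ∈ S := (Finset.mem_filter.mp hw).1
        have aux : ∀ p : ℤ, |p| ≤ |D| → p / |D| ∈ Finset.Icc (-1 : ℤ) 1 := by
          intro p hp
          rw [Finset.mem_Icc]
          obtain ⟨ha, hb⟩ := abs_le.mp hp
          constructor
          · rw [Int.le_ediv_iff_mul_le hDpos]; linarith
          · have h5 : p / |D| < 2 := by
              rw [Int.ediv_lt_iff_lt_mul hDpos]; linarith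
            omega
        exact Finset.mem_product.mpr ⟨aux _ (h1 w hwS), aux _ (h2 w hwS)⟩
      · intro w hw w' hw' he
        have hq : Submodule.Quotient.mk (p := N) w = Submodule.Quotient.mk (p := N) w' := by
          rw [(Finset.mem_filter.mp hw).2, (Finset.mem_filter.mp hw').2]
        rw [Submodule.Quotient.eq, hN, Submodule.mem_span_range_iff_exists_fun] at hq
        obtain ⟨c, hc⟩ := hq
        have hc' : w - w' = c 0 • u + c 1 • v := by
          rw [← hc, Fin.sum_univ_two]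
          simp
        have hv0 : ∀ i, w i = w' i + (c 0 * u i + c 1 * v i) := by
          intro i
          have := congrFun hc' i
          simp only [Pi.sub_apply, Pi.add_apply, Pi.smul_apply, smul_eq_mul] at this
          linarith
        simp only [Prod.mk.injEq] at he
        obtain ⟨e1, e2⟩ := he
        have small : ∀ p q k : ℤ, p / |D| = q / |D| → p - q = k * D → k = 0 := by
          intro p q k hpq hk
          have ha := Int.emod_add_mul_ediv p |D|
          have hb := Int.emod_add_mul_ediv q |D|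
          have hm1 := Int.emod_nonneg p hDpos.ne'
          have hm2 := Int.emod_lt_of_pos p hDpos
          have hm3 := Int.emod_nonneg q hDpos.ne'
          have hm4 := Int.emod_lt_of_pos q hDpos
          have hpq' : |p - q| < |D| := by
            rw [abs_lt]
            rw [hpq] at ha
            constructor <;> linarith
          rw [hk, abs_mul] at hpq'
          by_contra hk0
          have : 1 ≤ |k| := Int.one_le_abs hk0
          nlinarith
        have k0 : c 0 = 0 := by
          apply small _ _ _ e1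
          rw [hDdef]
          simp only [d2, hv0]
          ring
        have k1 : c 1 = 0 := by
          apply small _ _ _ e2
          rw [hDdef]
          simp only [d2, hv0]
          ring
        funext i
        rw [hv0 i, k0, k1]
        ring
  have hu : (Finset.univ : Finset ((Fin 2 → ℤ) ⧸ N)).card = D.natAbs := by
    rw [← hcard, Nat.card_eq_fintype_card, Finset.card_univ]
  rw [hu] at key
  have : (S.card : ℤ) ≤ ((9 * D.natAbs : ℕ) : ℤ) := by exact_mod_cast key
  rw [Nat.cast_mul, Int.natCast_natAbs] at this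
  exact_mod_cast this

end FRowAux

open FRowAux in
theorem tRow : S_Row := by
  classical
  intro a p q S ha hp hq hS hex
  obtain ⟨u0, hu0, v0, hv0, hD0⟩ := hex
  obtain ⟨t, ht, hmax⟩ := Finset.exists_max_image (S ×ˢ S) (fun t => |d2 t.1 t.2|)
    ⟨(u0, v0), Finset.mem_product.mpr ⟨hu0, hv0⟩⟩
  obtain ⟨u, v⟩ := t
  obtain ⟨hu, hv⟩ := Finset.mem_product.mp ht
  simp only at hu hv
  have hle0 : |d2 u0 v0| ≤ |d2 u v| := hmax (u0, v0) (Finset.mem_product.mpr ⟨hu0, hv0⟩)
  have hD : d2 u v ≠ 0 := by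
    intro h
    rw [h, abs_zero] at hle0
    exact hD0 (abs_nonpos_iff.mp hle0)
  have hc := card9 S u v hD (fun s hs => hmax (s, v) (Finset.mem_product.mpr ⟨hs, hv⟩))
    (fun s hs => hmax (u, s) (Finset.mem_product.mpr ⟨hu, hs⟩))
  have hc' : (S.card : ℝ) ≤ 9 * |((d2 u v : ℤ) : ℝ)| := by
    have h1 : ((S.card : ℤ) : ℝ) ≤ ((9 * |d2 u v| : ℤ) : ℝ) := by exact_mod_cast hc
    push_cast at h1
    exact h1
  obtain ⟨hu1, hu2⟩ := hS u hu
  obtain ⟨hv1, hv2⟩ := hS v hv
  set x1 := (u 0 : ℝ) * a 0 0 + (u 1 : ℝ) * a 1 0 with hx1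
  set x2 := (u 0 : ℝ) * a 0 1 + (u 1 : ℝ) * a 1 1 with hx2
  set y1 := (v 0 : ℝ) * a 0 0 + (v 1 : ℝ) * a 1 0 with hy1
  set y2 := (v 0 : ℝ) * a 0 1 + (v 1 : ℝ) * a 1 1 with hy2
  have hdet : a 0 0 * a 1 1 - a 0 1 * a 1 0 = 1 := by
    rw [← Matrix.det_fin_two]; exact ha
  have hE : ((d2 u v : ℤ) : ℝ) = x1 * y2 - x2 * y1 := by
    have h1 : ((d2 u v : ℤ) : ℝ) = (u 0 : ℝ) * v 1 - (u 1 : ℝ) * v 0 := by
      unfold d2; push_cast; ring
    rw [h1, hx1, hx2, hy1, hy2]
    have h2 : ((u 0 : ℝ) * a 0 0 + (u 1 : ℝ) * a 1 0) * ((v 0 : ℝ) * a 0 1 + (v 1 : ℝ) * a 1 1) -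
        ((u 0 : ℝ) * a 0 1 + (u 1 : ℝ) * a 1 1) * ((v 0 : ℝ) * a 0 0 + (v 1 : ℝ) * a 1 0) =
        ((u 0 : ℝ) * v 1 - (u 1 : ℝ) * v 0) * (a 0 0 * a 1 1 - a 0 1 * a 1 0) := by ring
    rw [h2, hdet, mul_one]
  have hb : |((d2 u v : ℤ) : ℝ)| ≤ 2 * p * q := by
    rw [hE]
    have h1 : |x1 * y2| ≤ p * q := by
      rw [abs_mul]; exact mul_le_mul hu1 hv2 (abs_nonneg _) hp.le
    have h2 : |x2 * y1| ≤ q * p := by
      rw [abs_mul]; exact mul_le_mul hu2 hv1 (abs_nonneg _) hq.le
    have h3 := abs_sub (x1 * y2) (x2 * y1)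
    linarith
  linarith

theorem tMat : S_Row → S_Mat := by
  classical
  intro hRow a p q T ha hp hq hT
  rcases T.eq_empty_or_nonempty with h0 | ⟨r0, hr0⟩
  · rw [h0, Finset.card_empty, Nat.cast_zero]
    positivity
  · set S : Finset (Fin 2 → ℤ) := T.image (fun r => r 0) ∪ T.image (fun r => r 1) with hSdef
    have h0S : ∀ r ∈ T, r 0 ∈ S := fun r hr =>
      Finset.mem_union_left _ (Finset.mem_image_of_mem (fun r : MZ => r 0) hr)
    have h1S : ∀ r ∈ T, r 1 ∈ S := fun r hr =>
      Finset.mem_union_right _ (Finset.mem_image_of_mem (fun r : MZ => r 1) hr)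
    have hrow : ∀ (r : MZ) (i : Fin 2), (toR r * a) i 0 = (r i 0 : ℝ) * a 0 0 + (r i 1 : ℝ) * a 1 0 ∧
        (toR r * a) i 1 = (r i 0 : ℝ) * a 0 1 + (r i 1 : ℝ) * a 1 1 := by
      intro r i
      constructor <;> simp [toR, Matrix.mul_apply, Fin.sum_univ_two]
    have hSb : ∀ v ∈ S, |(v 0 : ℝ) * a 0 0 + (v 1 : ℝ) * a 1 0| ≤ p ∧
        |(v 0 : ℝ) * a 0 1 + (v 1 : ℝ) * a 1 1| ≤ q := by
      intro v hv
      rcases Finset.mem_union.mp hv with h | h
      · obtain ⟨r, hr, rfl⟩ := Finset.mem_image.mp h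
        have h3 := (hT r hr).2 0
        rw [(hrow r 0).1, (hrow r 0).2] at h3
        exact h3
      · obtain ⟨r, hr, rfl⟩ := Finset.mem_image.mp h
        have h3 := (hT r hr).2 1
        rw [(hrow r 1).1, (hrow r 1).2] at h3
        exact h3
    have hcS : (S.card : ℝ) ≤ 18 * p * q := by
      refine hRow a p q S ha hp hq hSb ⟨r0 0, h0S r0 hr0, r0 1, h1S r0 hr0, ?_⟩
      have h3 := (hT r0 hr0).1
      rw [Matrix.det_fin_two] at h3
      exact h3
    have hcT : T.card ≤ (S ×ˢ S).card := by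
      apply Finset.card_le_card_of_injOn (fun r : MZ => (r 0, r 1))
      · intro r hr
        exact Finset.mem_product.mpr ⟨h0S r hr, h1S r hr⟩
      · intro r _ r' _ he
        simp only [Prod.mk.injEq] at he
        funext i
        fin_cases i
        · exact he.1
        · exact he.2
    rw [Finset.card_product] at hcT
    have hcT' : (T.card : ℝ) ≤ (S.card : ℝ) * (S.card : ℝ) := by exact_mod_cast hcT
    have h5 : (S.card : ℝ) * (S.card : ℝ) ≤ (18 * p * q) * (18 * p * q) :=
      mul_le_mul hcS hcS (Nat.cast_nonneg _) (le_trans (Nat.cast_nonneg _) hcS)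
    rw [pow_two]
    linarith

end HSL.Flp
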