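import Pool.Agent.Lib.HS.Bd.SpecFlip
import Mathlib.NumberTheory.Harmonic.Bounds

/-!
PROJECT H*, high bands, FLIP LEMMA: the sum of the contents (S_Sum of SpecFlip.lean).
-/

set_option autoImplicit false

namespace HSL.Flp

open HSL Matrix

namespace FSumAux

/-- the matrix with all entries divided by `c` -/
def dv (c : ℕ) (u : MZ) : MZ := fun i j => u i j / (c : ℤ)

theorem cont_dvd (u : MZ) (i j : Fin 2) : ((cont u : ℕ) : ℤ) ∣ u i j := by
  rw [Int.natCast_dvd]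
  have h1 : cont u ∣ Nat.gcd (u 0 0).natAbs (u 0 1).natAbs := Nat.gcd_dvd_left _ _
  have h2 : cont u ∣ Nat.gcd (u 1 0).natAbs (u 1 1).natAbs := Nat.gcd_dvd_right _ _
  fin_cases i <;> fin_cases j
  · exact h1.trans (Nat.gcd_dvd_left _ _)
  · exact h1.trans (Nat.gcd_dvd_right _ _)
  · exact h2.trans (Nat.gcd_dvd_left _ _)
  · exact h2.trans (Nat.gcd_dvd_right _ _)

theorem cont_pos (u : MZ) (hu : u ≠ 0) : 0 < cont u := by
  rcases Nat.eq_zero_or_pos (cont u) with h | h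
  · exfalso
    apply hu
    ext i j
    have := cont_dvd u i j
    rw [h] at this
    simpa using this
  · exact h

theorem dv_spec (c : ℕ) (u : MZ) (h : cont u = c) : u = (c : ℤ) • dv c u := by
  ext i j
  have := cont_dvd u i j
  rw [h] at this
  simp only [Matrix.smul_apply, smul_eq_mul, dv]
  exact (Int.mul_ediv_cancel' this).symm

theorem dv_ne (c : ℕ) (u : MZ) (h : cont u = c) (hu : u ≠ 0) : dv c u ≠ 0 := by
  intro h0
  apply hu
  rw [dv_spec c u h, h0, smul_zero]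

theorem fr_smul' (a b : MR) (c : ℤ) (u : MZ) (i j : Fin 2) :
    fr a b (c • u) i j = (c : ℝ) * fr a b u i j := by
  have h1 : toR (c • u) = (c : ℝ) • toR u := by
    ext i j
    simp only [toR, Matrix.map_apply, Matrix.smul_apply, smul_eq_mul, Int.cast_mul]
  unfold fr
  rw [h1, Matrix.mul_smul, Matrix.smul_mul, Matrix.smul_apply, smul_eq_mul]

theorem Dg_dv (Y w : ℝ) (a b : MR) (c : ℕ) (hc : 0 < c) (u : MZ) (h : cont u = c)
    (hu : Dg Y w a b u) : Dg (Y / c) w a b (dv c u) := by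
  have hc' : (0 : ℝ) < (c : ℝ) := by exact_mod_cast hc
  have key : ∀ i j : Fin 2, |fr a b u i j| = (c : ℝ) * |fr a b (dv c u) i j| := by
    intro i j
    conv_lhs => rw [dv_spec c u h]
    rw [fr_smul', abs_mul]
    congr 1
    push_cast
    exact abs_of_pos hc'
  obtain ⟨h1, h2, h3, h4⟩ := hu
  rw [key] at h1 h2 h3 h4
  refine ⟨?_, ?_, ?_, ?_⟩
  · rw [le_div_iff₀ hc']; linarith
  · rw [le_div_iff₀ hc']; linarith
  · rw [← mul_div_assoc, le_div_iff₀ hc']; linarith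
  · rw [← mul_div_assoc, le_div_iff₀ hc']; linarith

theorem Dg_mono (Y Y' w : ℝ) (a b : MR) (u : MZ) (hw : 0 < w) (hY : Y ≤ Y') (hu : Dg Y w a b u) :
    Dg Y' w a b u := by
  obtain ⟨h1, h2, h3, h4⟩ := hu
  have h5 : w * Y ≤ w * Y' := mul_le_mul_of_nonneg_left hY hw.le
  exact ⟨h1.trans hY, h2.trans hY, h3.trans h5, h4.trans h5⟩

end FSumAux

open FSumAux

theorem tSum (hP : S_Pck) : S_Sum := by
  classical
  intro a b w Y lam U ha hb hw hlam hlamY hU h3 h4
  have hY : 0 < Y := lt_of_lt_of_le hlam hlamY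
  -- the bound for one content
  have one : ∀ c ∈ U.image cont, (1 ≤ c ∧ (c : ℝ) ≤ Y / lam) ∧
      ((U.filter (fun u => cont u = c)).card : ℝ) ≤ 36 * (Y / lam) ^ 2 / (c : ℝ) ^ 2 := by
    intro c hc
    obtain ⟨u, hu, huc⟩ := Finset.mem_image.mp hc
    have hc1 : 0 < c := huc ▸ cont_pos u (hU u hu).1
    have hc' : (0 : ℝ) < (c : ℝ) := by exact_mod_cast hc1
    have hc1' : (1 : ℝ) ≤ (c : ℝ) := by exact_mod_cast hc1
    have hlt : lam < Y / c := by
      by_contra hcon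
      push Not at hcon
      exact h4 (dv c u) (dv_ne c u huc (hU u hu).1)
        (Dg_mono _ _ w a b _ hw hcon (Dg_dv Y w a b c hc1 u huc (hU u hu).2))
    have hYc : Y / c ≤ Y := div_le_self hY.le hc1'
    refine ⟨⟨hc1, ?_⟩, ?_⟩
    · rw [le_div_iff₀ hlam]
      rw [lt_div_iff₀ hc'] at hlt
      linarith
    · set V := U.filter (fun u => cont u = c) with hV
      have hinj : Set.InjOn (dv c) (V : Set MZ) := by
        intro x hx y hy hxy
        have hx' := (Finset.mem_filter.mp (Finset.mem_coe.mp hx)).2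
        have hy' := (Finset.mem_filter.mp (Finset.mem_coe.mp hy)).2
        rw [dv_spec c x hx', dv_spec c y hy', hxy]
      have hD : ∀ u ∈ V.image (dv c), Dg (Y / c) w a b u := by
        intro v hv
        obtain ⟨x, hx, rfl⟩ := Finset.mem_image.mp hv
        obtain ⟨hx1, hx2⟩ := Finset.mem_filter.mp hx
        exact Dg_dv Y w a b c hc1 x hx2 (hU x hx1).2
      have hres := hP a b w (Y / c) lam (V.image (dv c)) ha hb hw hlam hlt.le hD
        (fun u hu v hv t ht => h3 u v t (Dg_mono _ _ w a b _ hw hYc (hD u hu))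
          (Dg_mono _ _ w a b _ hw hYc (hD v hv)) (Dg_mono _ _ w a b _ hw hYc (hD t ht))) h4
      rw [Finset.card_image_of_injOn hinj] at hres
      refine hres.trans (le_of_eq ?_)
      field_simp
  -- the sum
  have hsum : ∑ u ∈ U, (cont u : ℝ) =
      ∑ c ∈ U.image cont, ((U.filter (fun u => cont u = c)).card : ℝ) * (c : ℝ) := by
    rw [Finset.sum_comp (fun c : ℕ => (c : ℝ)) cont]
    refine Finset.sum_congr rfl ?_
    intro c _
    rw [nsmul_eq_mul]
  have h1Y : 1 ≤ Y / lam := by rw [le_div_iff₀ hlam]; linarith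
  have hsub : U.image cont ⊆ Finset.Icc 1 ⌊Y / lam⌋₊ := by
    intro c hc
    obtain ⟨⟨hc1, hc2⟩, -⟩ := one c hc
    rw [Finset.mem_Icc]
    exact ⟨hc1, Nat.le_floor hc2⟩
  have hterm : ∀ c ∈ U.image cont,
      ((U.filter (fun u => cont u = c)).card : ℝ) * (c : ℝ) ≤ 36 * (Y / lam) ^ 2 * (c : ℝ)⁻¹ := by
    intro c hc
    obtain ⟨⟨hc1, -⟩, h⟩ := one c hc
    have hc' : (0 : ℝ) < (c : ℝ) := by exact_mod_cast hc1
    calc ((U.filter (fun u => cont u = c)).card : ℝ) * (c : ℝ)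
        ≤ 36 * (Y / lam) ^ 2 / (c : ℝ) ^ 2 * (c : ℝ) := mul_le_mul_of_nonneg_right h hc'.le
      _ = 36 * (Y / lam) ^ 2 * (c : ℝ)⁻¹ := by field_simp
  have hharm : ∑ c ∈ Finset.Icc 1 ⌊Y / lam⌋₊, ((c : ℝ))⁻¹ ≤ 1 + Real.log (Y / lam) := by
    have h := harmonic_floor_le_one_add_log (Y / lam) h1Y
    rw [harmonic_eq_sum_Icc] at h
    push_cast at h
    exact h
  rw [hsum]
  calc ∑ c ∈ U.image cont, ((U.filter (fun u => cont u = c)).card : ℝ) * (c : ℝ)
      ≤ ∑ c ∈ U.image cont, 36 * (Y / lam) ^ 2 * (c : ℝ)⁻¹ := Finset.sum_le_sum hterm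
    _ ≤ ∑ c ∈ Finset.Icc 1 ⌊Y / lam⌋₊, 36 * (Y / lam) ^ 2 * (c : ℝ)⁻¹ := by
        refine Finset.sum_le_sum_of_subset_of_nonneg hsub ?_
        intro c _ _
        positivity
    _ = 36 * (Y / lam) ^ 2 * ∑ c ∈ Finset.Icc 1 ⌊Y / lam⌋₊, ((c : ℝ))⁻¹ := by
        rw [Finset.mul_sum]
    _ ≤ 36 * (Y / lam) ^ 2 * (1 + Real.log (Y / lam)) :=
        mul_le_mul_of_nonneg_left hharm (by positivity)

end HSL.Flp
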