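import Pool.Agent.Lib.HS.Bd.SpecFlip
import Pool.Agent.Lib.MP_640417_ag.All.Divisor

/-!
PROJECT H* (MP_a54f13_nt), high bands, FLIP LEMMA: the divisor bound (helper5).
-/

set_option autoImplicit false

namespace HSL.Flp

theorem tTau : S_Tau := by
  intro ε hε
  obtain ⟨C, hC, h⟩ := Pool.Agent.Lib.MP_640417_ag.All.divisor_bound ε hε
  refine ⟨max C 1, le_max_right _ _, fun n hn => ?_⟩
  refine (h n (by omega)).trans ?_
  exact mul_le_mul_of_nonneg_right (le_max_left _ _) (by positivity)

end HSL.Flp
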