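import Pool.Agent.Lib.HS.Bd.SpecFlip

/-! PROJECT H* (MP_a54f13_nt), high bands, FLIP LEMMA: module Two (two steps). -/

set_option autoImplicit false

namespace HSL.Flp

open HSL Matrix Finset

namespace FTwoAux

/-- number of dyadic classes -/
lemma nI (Z δ : ℝ) (hZ : 1 ≤ Z) (hδ : 0 < δ) :
    ((Finset.Icc (Int.log 2 (1 / (2 * Z))) (Int.log 2 Z)).card : ℝ) ≤ 2 * ((8 * Z ^ 2) ^ δ / δ) := by
  have hZ0 : 0 < Z := by linarith
  have hq : 0 < 1 / (2 * Z) := by positivity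
  have hqZ : 1 / (2 * Z) ≤ Z := by
    rw [div_le_iff₀ (by positivity)]
    nlinarith
  set a : ℤ := Int.log 2 Z with ha
  set b : ℤ := Int.log 2 (1 / (2 * Z)) with hb
  have hab : b ≤ a := Int.log_mono_right hq hqZ
  have h1 : (2 : ℝ) ^ a ≤ Z := by
    have := Int.zpow_log_le_self (b := 2) (r := Z) (by norm_num) hZ0
    simpa using this
  have h2 : 1 / (2 * Z) < (2 : ℝ) ^ (b + 1) := by
    have := Int.lt_zpow_succ_log_self (b := 2) (by norm_num) (1 / (2 * Z))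
    exact_mod_cast this
  have h3 : (2 : ℝ) ^ (a + 1 - b) ≤ 8 * Z ^ 2 := by
    have e1 : (2 : ℝ) ^ (a + 1 - b) * (2 : ℝ) ^ (b + 1) = 4 * (2 : ℝ) ^ a := by
      rw [← zpow_add₀ (by norm_num : (2 : ℝ) ≠ 0), show a + 1 - b + (b + 1) = a + 2 by ring,
        zpow_add₀ (by norm_num : (2 : ℝ) ≠ 0)]
      norm_num
      ring
    have hp : (0 : ℝ) < (2 : ℝ) ^ (a + 1 - b) := by positivity
    have h4 : (2 : ℝ) ^ (a + 1 - b) * (1 / (2 * Z)) ≤ 4 * Z := by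
      calc (2 : ℝ) ^ (a + 1 - b) * (1 / (2 * Z)) ≤ (2 : ℝ) ^ (a + 1 - b) * (2 : ℝ) ^ (b + 1) :=
            mul_le_mul_of_nonneg_left h2.le hp.le
        _ = 4 * (2 : ℝ) ^ a := e1
        _ ≤ 4 * Z := by linarith
    have h5 : (2 : ℝ) ^ (a + 1 - b) = (2 : ℝ) ^ (a + 1 - b) * (1 / (2 * Z)) * (2 * Z) := by
      field_simp
    rw [h5]
    nlinarith
  have h6 : ((a : ℝ) + 1 - b) * Real.log 2 ≤ Real.log (8 * Z ^ 2) := by
    have h7 := Real.log_le_log (by positivity) h3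
    rw [Real.log_zpow] at h7
    push_cast at h7
    exact h7
  have h8 : Real.log (8 * Z ^ 2) ≤ (8 * Z ^ 2) ^ δ / δ :=
    Real.log_le_rpow_div (by positivity) hδ
  have h9 : (0.5 : ℝ) ≤ Real.log 2 := by
    have := Real.log_two_gt_d9
    linarith
  have h10 : ((Finset.Icc b a).card : ℝ) = (a : ℝ) + 1 - b := by
    rw [Int.card_Icc]
    have : ((a + 1 - b).toNat : ℤ) = a + 1 - b := Int.toNat_of_nonneg (by omega)
    have h11 : (((a + 1 - b).toNat : ℤ) : ℝ) = ((a + 1 - b : ℤ) : ℝ) := by rw [this]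
    push_cast at h11
    exact_mod_cast h11
  rw [h10]
  have h12 : (0 : ℝ) ≤ (a : ℝ) + 1 - b := by
    have : (b : ℝ) ≤ a := by exact_mod_cast hab
    linarith
  nlinarith

/-- counting by fibres -/
lemma fib {α β : Type*} [DecidableEq β] (s : Finset α) (f : α → β) (T : Finset β)
    (hT : ∀ a ∈ s, f a ∈ T) (K : ℝ)
    (h : ∀ b ∈ T, ((s.filter (fun a => f a = b)).card : ℝ) ≤ K) :
    (s.card : ℝ) ≤ (T.card : ℝ) * K := by
  rw [Finset.card_eq_sum_card_fiberwise (f := f) (t := T) (fun a ha => hT a ha)]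
  push_cast
  calc ∑ b ∈ T, ((s.filter (fun a => f a = b)).card : ℝ) ≤ ∑ _b ∈ T, K := Finset.sum_le_sum h
    _ = (T.card : ℝ) * K := by rw [Finset.sum_const, nsmul_eq_mul]

lemma fibS {α β : Type*} [DecidableEq β] (s : Finset α) (f : α → β) (T : Finset β)
    (hT : ∀ a ∈ s, f a ∈ T) (K : β → ℝ)
    (h : ∀ b ∈ T, ((s.filter (fun a => f a = b)).card : ℝ) ≤ K b) :
    (s.card : ℝ) ≤ ∑ b ∈ T, K b := by
  rw [Finset.card_eq_sum_card_fiberwise (f := f) (t := T) (fun a ha => hT a ha)]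
  push_cast
  exact Finset.sum_le_sum h

lemma adj_mul (γ : MZ) (h : γ.det = 1) : γ.adjugate * γ = 1 := by
  rw [Matrix.adjugate_mul, h, one_smul]

/-- the entries of a flip are not small -/
lemma big {Z w : ℝ} {a b : MR} {r : MZ} (hF : S_Frm) (ha : a.det = 1) (hb : b.det = 1) (hw : 0 ≤ w)
    (hZ : 0 ≤ Z) (hwZ : 2 * (w * Z) ^ 2 ≤ 1) (h : Fl Z w a b r) :
    1 / 2 ≤ |fr a b r 0 1| * |fr a b r 1 0| := by
  obtain ⟨h0, h1, h2, h3, h4⟩ := h
  have h5 := hF.2.2.2.2.2.1 a b r ha hb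
  rw [Matrix.det_fin_two] at h5
  have h6 : (1 : ℝ) ≤ |((r.det : ℤ) : ℝ)| := by
    have : (1 : ℤ) ≤ |r.det| := Int.one_le_abs h0
    exact_mod_cast this
  rw [← h5] at h6
  have h7 : |fr a b r 0 0 * fr a b r 1 1| ≤ (w * Z) ^ 2 := by
    rw [abs_mul, sq]
    exact mul_le_mul h1 h2 (abs_nonneg _) (by positivity)
  have h8 : |fr a b r 0 0 * fr a b r 1 1 - fr a b r 0 1 * fr a b r 1 0| ≤
      |fr a b r 0 0 * fr a b r 1 1| + |fr a b r 0 1 * fr a b r 1 0| := abs_sub _ _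
  rw [← abs_mul]
  linarith

/-- the determinant of a matrix of bounded gauge -/
lemma detb {Y w : ℝ} {a b : MR} {u : MZ} (hF : S_Frm) (ha : a.det = 1) (hb : b.det = 1) (_hw : 0 ≤ w)
    (hw1 : w ≤ 1) (hY : 0 ≤ Y) (h : Dg Y w a b u) : (u.det.natAbs : ℝ) ≤ 2 * Y ^ 2 := by
  obtain ⟨h1, h2, h3, h4⟩ := h
  have h5 := hF.2.2.2.2.2.1 a b u ha hb
  rw [Matrix.det_fin_two] at h5
  have h6 : (u.det.natAbs : ℝ) = |((u.det : ℤ) : ℝ)| := by
    rw [← Int.cast_abs, Int.abs_eq_natAbs]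
    simp
  rw [h6, ← h5]
  have h7 : |fr a b u 0 0 * fr a b u 1 1| ≤ Y ^ 2 := by
    rw [abs_mul, sq]
    exact mul_le_mul h1 h2 (abs_nonneg _) hY
  have h8 : |fr a b u 0 1 * fr a b u 1 0| ≤ Y ^ 2 := by
    rw [abs_mul, sq]
    have e : w * Y ≤ Y := by nlinarith
    exact mul_le_mul (h3.trans e) (h4.trans e) (abs_nonneg _) hY
  have h9 : |fr a b u 0 0 * fr a b u 1 1 - fr a b u 0 1 * fr a b u 1 0| ≤
      |fr a b u 0 0 * fr a b u 1 1| + |fr a b u 0 1 * fr a b u 1 0| := abs_sub _ _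
  linarith

/-- step (2): the cells for given `(u, H, i, j)` -/
lemma cell {ι : Type} (hF : S_Frm) (hC : S_Cov) (V : Finset ι) (g : ι → MR) (w B Z d : ℝ) (x : ι)
    (W : Finset ι) (hw : 0 < w) (hB : 0 ≤ B) (hZ : 1 ≤ Z) (hd : 0 < d) (hwZ : 16 * (w * Z ^ 2) ≤ 1)
    (hw1 : w ≤ 1) (hU : ∀ i ∈ V, (g i).det = 1) (hO : Ov w B V g) (hx : x ∈ V) (hW : W ⊆ V)
    (r1 γ : ι → MZ) (H : MZ) (i j : ℤ)
    (h : ∀ y ∈ W, Fl Z w (g x) (g y) (r1 y) ∧ (γ y).det = 1 ∧ γ y * r1 y = H ∧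
      d ≤ |fr (g x) (g y) (r1 y) 0 1| * |fr (g x) (g y) (r1 y) 1 0| ∧
      Int.log 2 |fr (g x) (g y) (r1 y) 0 1| = i ∧ Int.log 2 |fr (g x) (g y) (r1 y) 1 0| = j) :
    (W.card : ℝ) ≤ 32 * B * (Z ^ 2 / d) := by
  classical
  rcases W.eq_empty_or_nonempty with rfl | ⟨y0, hy0⟩
  · simp
    positivity
  have hZ0 : 0 < Z := by linarith
  have hwZ2 : 2 * (w * Z) ^ 2 ≤ 1 := by
    have : (w * Z) ^ 2 = w * (w * Z ^ 2) := by ring
    rw [this]
    nlinarith [mul_nonneg hw.le (sq_nonneg Z)]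
  -- bounds for the class
  have hlog : ∀ y ∈ W, (2 : ℝ) ^ i ≤ |fr (g x) (g y) (r1 y) 0 1| ∧
      |fr (g x) (g y) (r1 y) 0 1| ≤ 2 * (2 : ℝ) ^ i ∧
      (2 : ℝ) ^ j ≤ |fr (g x) (g y) (r1 y) 1 0| ∧
      |fr (g x) (g y) (r1 y) 1 0| ≤ 2 * (2 : ℝ) ^ j := by
    intro y hy
    obtain ⟨h1, h2, h3, h4, h5, h6⟩ := h y hy
    have hb := big hF (hU x hx) (hU y (hW hy)) hw.le hZ0.le hwZ2 h1
    have p1 : 0 < |fr (g x) (g y) (r1 y) 0 1| := by
      rcases (abs_nonneg (fr (g x) (g y) (r1 y) 0 1)).lt_or_eq with h7 | h7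
      · exact h7
      · rw [← h7, zero_mul] at hb
        norm_num at hb
    have p2 : 0 < |fr (g x) (g y) (r1 y) 1 0| := by
      rcases (abs_nonneg (fr (g x) (g y) (r1 y) 1 0)).lt_or_eq with h7 | h7
      · exact h7
      · rw [← h7, mul_zero] at hb
        norm_num at hb
    have q1 := Int.zpow_log_le_self (b := 2) (r := |fr (g x) (g y) (r1 y) 0 1|) (by norm_num) p1
    have q2 := Int.lt_zpow_succ_log_self (b := 2) (by norm_num) |fr (g x) (g y) (r1 y) 0 1|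
    have q3 := Int.zpow_log_le_self (b := 2) (r := |fr (g x) (g y) (r1 y) 1 0|) (by norm_num) p2
    have q4 := Int.lt_zpow_succ_log_self (b := 2) (by norm_num) |fr (g x) (g y) (r1 y) 1 0|
    rw [h5] at q1 q2
    rw [h6] at q3 q4
    rw [zpow_add₀ (by norm_num), zpow_one] at q2 q4
    refine ⟨by simpa using q1, ?_, by simpa using q3, ?_⟩
    · have := q2.le
      push_cast at this
      linarith
    · have := q4.le
      push_cast at this
      linarith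
  obtain ⟨k1, k2, k3, k4⟩ := hlog y0 hy0
  obtain ⟨g1, g2, g3, g4, -, -⟩ := h y0 hy0
  have hb0 := big hF (hU x hx) (hU y0 (hW hy0)) hw.le hZ0.le hwZ2 g1
  set A0 : ℝ := (2 : ℝ) ^ i with hA0
  set D0 : ℝ := (2 : ℝ) ^ j with hD0
  have hA : 0 < A0 := by positivity
  have hD : 0 < D0 := by positivity
  have hAZ : A0 ≤ Z := k1.trans g1.2.2.2.1
  have hDZ : D0 ≤ Z := k3.trans g1.2.2.2.2
  have hAD : d / 4 ≤ A0 * D0 := by
    have : |fr (g x) (g y0) (r1 y0) 0 1| * |fr (g x) (g y0) (r1 y0) 1 0| ≤ (2 * A0) * (2 * D0) :=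
      mul_le_mul k2 k4 (abs_nonneg _) (by positivity)
    linarith
  have hAl : 1 / (4 * Z) ≤ A0 := by
    rw [div_le_iff₀ (by positivity)]
    have : |fr (g x) (g y0) (r1 y0) 0 1| * |fr (g x) (g y0) (r1 y0) 1 0| ≤ (2 * A0) * Z :=
      mul_le_mul k2 g1.2.2.2.2 (abs_nonneg _) (by positivity)
    linarith
  have hDl : 1 / (4 * Z) ≤ D0 := by
    rw [div_le_iff₀ (by positivity)]
    have : |fr (g x) (g y0) (r1 y0) 0 1| * |fr (g x) (g y0) (r1 y0) 1 0| ≤ Z * (2 * D0) :=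
      mul_le_mul g1.2.2.2.1 k4 (abs_nonneg _) hZ0.le
    linarith
  have hwl : 2 * w * Z ≤ 1 / (4 * Z) := by
    rw [le_div_iff₀ (by positivity)]
    nlinarith
  have hH : H.det ≠ 0 := by
    rw [← g3, Matrix.det_mul, g2, one_mul]
    exact g1.1
  have hJ : ((g x) * J).det = 1 := by
    rw [Matrix.det_mul, hU x hx, one_mul]
    simp [J, Matrix.det_fin_two]
  have hT := hC ι V g w B Z A0 D0 ((g x) * J) H (W.image (fun y => (y, (γ y).adjugate))) hw hB hU hO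
    hJ hH hA hD hAZ hDZ (hwl.trans hAl) (hwl.trans hDl) (by
      intro t ht
      obtain ⟨y, hy, rfl⟩ := Finset.mem_image.1 ht
      obtain ⟨h1, h2, h3, h4, h5, h6⟩ := h y hy
      obtain ⟨l1, l2, l3, l4⟩ := hlog y hy
      have e1 : (γ y).adjugate * H = r1 y := by
        rw [← h3, ← Matrix.mul_assoc, adj_mul _ h2, Matrix.one_mul]
      obtain ⟨f1, f2, f3, f4⟩ := hF.1 (g x) (g y) (r1 y)
      refine ⟨hW hy, ?_, ?_⟩
      · rw [Matrix.det_adjugate, h2]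
        simp
      · simp only [e1]
        rw [f1, f2, f3, f4, abs_neg, abs_neg]
        exact ⟨l1, l2, l3, l4, h1.2.1, h1.2.2.1⟩)
  have hcard : (W.image (fun y => (y, (γ y).adjugate))).card = W.card := by
    refine Finset.card_image_of_injective _ ?_
    intro y y' hyy
    exact (Prod.mk.inj hyy).1
  rw [hcard] at hT
  refine hT.trans ?_
  have e2 : 8 * B * (Z / A0) * (Z / D0) = 8 * B * (Z ^ 2 / (A0 * D0)) := by
    field_simp
  have e3 : Z ^ 2 / (A0 * D0) ≤ 4 * (Z ^ 2 / d) := by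
    have : Z ^ 2 / (A0 * D0) ≤ Z ^ 2 / (d / 4) :=
      div_le_div_of_nonneg_left (by positivity) (by positivity) hAD
    refine this.trans (le_of_eq ?_)
    field_simp
  rw [e2]
  calc 8 * B * (Z ^ 2 / (A0 * D0)) ≤ 8 * B * (4 * (Z ^ 2 / d)) :=
        mul_le_mul_of_nonneg_left e3 (by positivity)
    _ = _ := by ring

/-- the matrices: sum over `u`, `H` and the classes -/
lemma count {ι : Type} (hF : S_Frm) (hDv : S_Div) (hC : S_Cov) (V : Finset ι) (g : ι → MR)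
    (R w B Z d : ℝ) (x z : ι)
    (W : Finset ι) (hw : 0 < w) (hB : 0 ≤ B) (hZ : 1 ≤ Z) (hd : 0 < d) (hwZ : 16 * (w * Z ^ 2) ≤ 1)
    (hw1 : w ≤ 1) (hU : Uni R V g) (hO : Ov w B V g) (hx : x ∈ V) (hz : z ∈ V) (hW : W ⊆ V)
    (r1 r2 : ι → MZ) (tb : ℝ) (_htb : 0 ≤ tb)
    (h1 : ∀ y ∈ W, Fl Z w (g x) (g y) (r1 y)) (h2 : ∀ y ∈ W, Fl Z w (g y) (g z) (r2 y))
    (h3 : ∀ y ∈ W, d ≤ |fr (g x) (g y) (r1 y) 0 1| * |fr (g x) (g y) (r1 y) 1 0|)
    (htau : ∀ n : ℕ, 1 ≤ n → (n : ℝ) ≤ 8 * Z ^ 4 → (n.divisors.card : ℝ) ≤ tb) (δ : ℝ) (hδ : 0 < δ) :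
    ∃ U : Finset MZ, (∀ u ∈ U, u ≠ 0 ∧ Dg (2 * Z ^ 2) w (g x) (g z) u) ∧
      (W.card : ℝ) ≤ 2 * tb ^ 2 * (∑ u ∈ U, (cont u : ℝ)) *
        ((2 * ((8 * Z ^ 2) ^ δ / δ)) ^ 2 * (32 * B * (Z ^ 2 / d))) := by
  classical
  have hZ0 : 0 < Z := by linarith
  have hwZ2 : 2 * (w * Z) ^ 2 ≤ 1 := by
    have : (w * Z) ^ 2 = w * (w * Z ^ 2) := by ring
    rw [this]
    nlinarith [mul_nonneg hw.le (sq_nonneg Z)]
  have hred : ∀ y ∈ W, ∃ γ : MZ, γ.det = 1 ∧ Red (γ * r1 y) := fun y hy =>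
    hDv.1 (r1 y) (h1 y hy).1
  choose! γ hγ1 hγ2 using hred
  set u : ι → MZ := fun y => r2 y * r1 y with hu
  set Hf : ι → MZ := fun y => γ y * r1 y with hHf
  have hDg : ∀ y ∈ W, (u y).det ≠ 0 ∧ Dg (2 * Z ^ 2) w (g x) (g z) (u y) := fun y hy =>
    hF.2.2.1 Z w (g x) (g y) (g z) (r1 y) (r2 y) (hU y (hW hy)).1 hw.le hw1 hZ0.le (h1 y hy) (h2 y hy)
  refine ⟨W.image u, ?_, ?_⟩
  · intro u0 hu0
    obtain ⟨y, hy, rfl⟩ := Finset.mem_image.1 hu0
    refine ⟨?_, (hDg y hy).2⟩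
    intro h0
    apply (hDg y hy).1
    rw [h0]
    simp
  set K0 : ℝ := 32 * B * (Z ^ 2 / d) with hK0
  have hK0p : 0 ≤ K0 := by positivity
  set L : ℝ := 2 * ((8 * Z ^ 2) ^ δ / δ) with hL
  have hLp : 0 ≤ L := by positivity
  -- classes
  set I : Finset ℤ := Finset.Icc (Int.log 2 (1 / (2 * Z))) (Int.log 2 Z) with hI
  have hIc : (I.card : ℝ) ≤ L := nI Z δ hZ hδ
  have hIm : ∀ y ∈ W, Int.log 2 |fr (g x) (g y) (r1 y) 0 1| ∈ I ∧
      Int.log 2 |fr (g x) (g y) (r1 y) 1 0| ∈ I := by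
    intro y hy
    have hb := big hF (hU x hx).1 (hU y (hW hy)).1 hw.le hZ0.le hwZ2 (h1 y hy)
    obtain ⟨-, -, -, m1, m2⟩ := h1 y hy
    have hq : 0 < 1 / (2 * Z) := by positivity
    have n1 : 1 / (2 * Z) ≤ |fr (g x) (g y) (r1 y) 0 1| := by
      rw [div_le_iff₀ (by positivity)]
      have := mul_le_mul_of_nonneg_left m2 (abs_nonneg (fr (g x) (g y) (r1 y) 0 1))
      linarith
    have n2 : 1 / (2 * Z) ≤ |fr (g x) (g y) (r1 y) 1 0| := by
      rw [div_le_iff₀ (by positivity)]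
      have := mul_le_mul_of_nonneg_right m1 (abs_nonneg (fr (g x) (g y) (r1 y) 1 0))
      linarith
    rw [hI, Finset.mem_Icc, Finset.mem_Icc]
    exact ⟨⟨Int.log_mono_right hq n1, Int.log_mono_right (hq.trans_le n1) m1⟩,
      ⟨Int.log_mono_right hq n2, Int.log_mono_right (hq.trans_le n2) m2⟩⟩
  -- for given u and H
  have hUH : ∀ (u0 H : MZ), (((W.filter (fun y => u y = u0)).filter (fun y => Hf y = H)).card : ℝ) ≤
      L * (L * K0) := by
    intro u0 H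
    set W2 := (W.filter (fun y => u y = u0)).filter (fun y => Hf y = H) with hW2
    have hs : ∀ y ∈ W2, y ∈ W ∧ Hf y = H := by
      intro y hy
      rw [hW2, Finset.mem_filter, Finset.mem_filter] at hy
      exact ⟨hy.1.1, hy.2⟩
    have a1 : (W2.card : ℝ) ≤ (I.card : ℝ) * (L * K0) := by
      refine fib W2 (fun y => Int.log 2 |fr (g x) (g y) (r1 y) 0 1|) I
        (fun y hy => (hIm y (hs y hy).1).1) (L * K0) ?_
      intro i _
      set W3 := W2.filter (fun y => Int.log 2 |fr (g x) (g y) (r1 y) 0 1| = i) with hW3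
      have a2 : (W3.card : ℝ) ≤ (I.card : ℝ) * K0 := by
        refine fib W3 (fun y => Int.log 2 |fr (g x) (g y) (r1 y) 1 0|) I ?_ K0 ?_
        · intro y hy
          exact (hIm y (hs y (Finset.mem_filter.1 hy).1).1).2
        · intro j _
          refine cell hF hC V g w B Z d x _ hw hB hZ hd hwZ hw1 (fun i hi => (hU i hi).1) hO hx ?_
            r1 γ H i j ?_
          · intro y hy
            have := (Finset.mem_filter.1 (Finset.mem_filter.1 hy).1).1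
            exact hW (hs y this).1
          · intro y hy
            have b1 := Finset.mem_filter.1 hy
            have b2 := Finset.mem_filter.1 b1.1
            have b3 := hs y b2.1
            exact ⟨h1 y b3.1, hγ1 y b3.1, b3.2, h3 y b3.1, b2.2, b1.2⟩
      exact a2.trans (mul_le_mul_of_nonneg_right hIc hK0p)
    exact a1.trans (mul_le_mul_of_nonneg_right hIc (by positivity))
  -- for given u
  have hUu : ∀ u0 ∈ W.image u, ((W.filter (fun y => u y = u0)).card : ℝ) ≤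
      (2 * tb ^ 2 * (cont u0 : ℝ)) * (L * (L * K0)) := by
    intro u0 hu0
    set W1 := W.filter (fun y => u y = u0) with hW1
    have a1 : (W1.card : ℝ) ≤ ((W1.image Hf).card : ℝ) * (L * (L * K0)) :=
      fib W1 Hf (W1.image Hf) (fun y hy => Finset.mem_image_of_mem _ hy) _ (fun H _ => hUH u0 H)
    obtain ⟨y0, hy0, hy0u⟩ := Finset.mem_image.1 hu0
    have hdet : u0.det ≠ 0 := by
      rw [← hy0u]
      exact (hDg y0 hy0).1
    have a2 := hDv.2 u0 (W1.image Hf) hdet (by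
      intro H hH
      obtain ⟨y, hy, rfl⟩ := Finset.mem_image.1 hH
      obtain ⟨hy1, hy2⟩ := Finset.mem_filter.1 hy
      refine ⟨hγ2 y hy1, r2 y * (γ y).adjugate, ?_⟩
      rw [← hy2]
      show r2 y * r1 y = r2 y * (γ y).adjugate * (γ y * r1 y)
      rw [Matrix.mul_assoc, ← Matrix.mul_assoc (γ y).adjugate, adj_mul _ (hγ1 y hy1), Matrix.one_mul])
    have a3 : ((W1.image Hf).card : ℝ) ≤ 2 * (u0.det.natAbs.divisors.card : ℝ) ^ 2 * (cont u0 : ℝ) := by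
      exact_mod_cast a2
    have hn1 : 1 ≤ u0.det.natAbs := Int.natAbs_pos.2 hdet
    have hn2 : (u0.det.natAbs : ℝ) ≤ 8 * Z ^ 4 := by
      have := detb hF (hU x hx).1 (hU z hz).1 hw.le hw1 (by positivity : (0 : ℝ) ≤ 2 * Z ^ 2)
        (hDg y0 hy0).2
      rw [hy0u] at this
      refine this.trans (le_of_eq ?_)
      ring
    have a4 := htau _ hn1 hn2
    have a5 : (u0.det.natAbs.divisors.card : ℝ) ^ 2 ≤ tb ^ 2 :=
      pow_le_pow_left₀ (Nat.cast_nonneg _) a4 2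
    have a6 : ((W1.image Hf).card : ℝ) ≤ 2 * tb ^ 2 * (cont u0 : ℝ) := by
      refine a3.trans ?_
      have hc : (0 : ℝ) ≤ (cont u0 : ℝ) := Nat.cast_nonneg _
      nlinarith [mul_le_mul_of_nonneg_right a5 hc]
    exact a1.trans (mul_le_mul_of_nonneg_right a6 (by positivity))
  have hfin := fibS W u (W.image u) (fun y hy => Finset.mem_image_of_mem _ hy) _ hUu
  refine hfin.trans (le_of_eq ?_)
  rw [← Finset.sum_mul, ← Finset.mul_sum]
  ring

end FTwoAux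

open FTwoAux in
theorem tTwo : S_Frm → S_Div → S_Cov → S_Wdg → S_Sum → S_Tau → S_Two := by
  intro hF hDv hC hWd hS hTau R ε hR hε
  obtain ⟨Ct, hCt, htau⟩ := hTau (ε / 16) (by positivity)
  have hR0 : 0 < R := by linarith
  set c1 : ℝ := (8 : ℝ) ^ (ε / 16) with hc1
  set c2 : ℝ := (8 : ℝ) ^ (ε / 32) with hc2
  set c3 : ℝ := 1 + (16 * R ^ 2) ^ (ε / 16) / (ε / 16) with hc3
  have hc1p : 0 < c1 := by positivity
  have hc2p : 0 < c2 := by positivity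
  have hc3p : 0 < c3 := by positivity
  set C0 : ℝ := 2 * (Ct * c1) ^ 2 * (144 * c3) * ((2 * (c2 / (ε / 32))) ^ 2 * 32) with hC0
  have hC0p : 0 ≤ C0 := by positivity
  refine ⟨max (200 * R ^ 2) C0, ?_, ?_⟩
  · refine le_trans ?_ (le_max_left _ _)
    nlinarith
  intro ι V g w B Z d lam x z W hw hw1 hB hZ hd hCw hU hO hx hz hW hfl hlam hlamZ hno
  have hZ0 : 0 < Z := by linarith
  have hd0 : 0 < d := by linarith
  have hwZ6 : 200 * R ^ 2 * (w * Z ^ 6) ≤ 1 := by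
    have h1 : 200 * R ^ 2 * (w * Z ^ 6) ≤ max (200 * R ^ 2) C0 * (w * Z ^ 6) :=
      mul_le_mul_of_nonneg_right (le_max_left _ _) (by positivity)
    linarith
  have hZ62 : Z ^ 2 ≤ Z ^ 6 := pow_le_pow_right₀ hZ (by norm_num)
  have hwZ : 16 * (w * Z ^ 2) ≤ 1 := by
    have h1 : w * Z ^ 2 ≤ w * Z ^ 6 := mul_le_mul_of_nonneg_left hZ62 hw.le
    have h2 : (1 : ℝ) ≤ R ^ 2 := one_le_pow₀ hR
    have h3 : 0 ≤ w * Z ^ 6 := by positivity
    nlinarith [mul_le_mul_of_nonneg_right h2 h3]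
  choose! r1 r2 h1 h2 h3 using hfl
  -- (3) divisor bound
  set tb : ℝ := Ct * c1 * Z ^ (ε / 4) with htb
  have htb0 : 0 ≤ tb := by positivity
  have htau' : ∀ n : ℕ, 1 ≤ n → (n : ℝ) ≤ 8 * Z ^ 4 → (n.divisors.card : ℝ) ≤ tb := by
    intro n hn hnZ
    refine (htau n hn).trans ?_
    have h4 : (n : ℝ) ^ (ε / 16) ≤ (8 * Z ^ 4) ^ (ε / 16) :=
      Real.rpow_le_rpow (Nat.cast_nonneg _) hnZ (by positivity)
    have h5 : (8 * Z ^ 4) ^ (ε / 16) = c1 * Z ^ (ε / 4) := by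
      rw [Real.mul_rpow (by norm_num) (by positivity), ← Real.rpow_natCast Z 4, ← Real.rpow_mul hZ0.le]
      congr 2
      push_cast
      ring
    rw [h5] at h4
    calc Ct * (n : ℝ) ^ (ε / 16) ≤ Ct * (c1 * Z ^ (ε / 4)) :=
          mul_le_mul_of_nonneg_left h4 (by linarith)
      _ = tb := by rw [htb]; ring
  obtain ⟨U, hU1, hU2⟩ := count hF hDv hC V g R w B Z d x z W hw hB hZ hd0 hwZ hw1 hU hO hx hz hW r1 r2
    tb htb0 h1 h2 h3 htau' (ε / 32) (by positivity)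
  -- (4) the sum of the contents
  set lam' : ℝ := max lam (1 / (8 * R ^ 2)) with hlam'
  have hl0 : 0 < lam' := lt_max_of_lt_left hlam
  have hlR : 1 / (8 * R ^ 2) ≤ lam' := le_max_right _ _
  have hlle : lam ≤ lam' := le_max_left _ _
  have h8R : 1 / (8 * R ^ 2) ≤ 2 * Z ^ 2 := by
    rw [div_le_iff₀ (by positivity)]
    have e1 : (1 : ℝ) ≤ R ^ 2 := one_le_pow₀ hR
    have e2 : (1 : ℝ) ≤ Z ^ 2 := one_le_pow₀ hZ
    nlinarith
  have hlZ : lam' ≤ 2 * Z ^ 2 := max_le hlamZ h8R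
  have hno' : ∀ u : MZ, u ≠ 0 → ¬ Dg lam' w (g x) (g z) u := by
    intro u hu
    rcases le_total (1 / (8 * R ^ 2)) lam with h | h
    · rw [hlam', max_eq_left h]
      exact hno u hu
    · rw [hlam', max_eq_right h]
      refine hF.2.2.2.2.1 R _ w (g x) (g z) u hR hw hw1 (hU x hx).1 (hU z hz).1 (hU x hx).2
        (hU z hz).2 hu ?_
      have : 4 * R ^ 2 * (1 / (8 * R ^ 2)) = 1 / 2 := by field_simp; norm_num
      rw [this]
      norm_num
  have hsum := hS (g x) (g z) w (2 * Z ^ 2) lam' U (hU x hx).1 (hU z hz).1 hw hl0 hlZ hU1 (by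
    intro u v t hu hv ht
    refine hWd (g x) (g z) R w (2 * Z ^ 2) u v t hR hw hw1 (by positivity) (hU x hx).1 (hU z hz).1
      (hU x hx).2 (hU z hz).2 ?_ hu hv ht
    have e1 : 24 * R ^ 2 * w * (2 * Z ^ 2) ^ 3 = 192 * (R ^ 2 * (w * Z ^ 6)) := by ring
    rw [e1]
    have e2 : 0 < R ^ 2 * (w * Z ^ 6) := by positivity
    nlinarith) hno'
  have hsum2 : ∑ u ∈ U, (cont u : ℝ) ≤ 144 * c3 * Z ^ (ε / 8) * (Z ^ 4 / lam ^ 2) := by
    refine hsum.trans ?_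
    have e1 : (2 * Z ^ 2 / lam') ^ 2 ≤ 4 * (Z ^ 4 / lam ^ 2) := by
      have e2 : (2 * Z ^ 2 / lam') ≤ 2 * Z ^ 2 / lam :=
        div_le_div_of_nonneg_left (by positivity) hlam hlle
      calc (2 * Z ^ 2 / lam') ^ 2 ≤ (2 * Z ^ 2 / lam) ^ 2 := pow_le_pow_left₀ (by positivity) e2 2
        _ = 4 * (Z ^ 4 / lam ^ 2) := by ring
    have e3 : 2 * Z ^ 2 / lam' ≤ 16 * R ^ 2 * Z ^ 2 := by
      rw [div_le_iff₀ hl0]
      have : 16 * R ^ 2 * Z ^ 2 * (1 / (8 * R ^ 2)) ≤ 16 * R ^ 2 * Z ^ 2 * lam' :=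
        mul_le_mul_of_nonneg_left hlR (by positivity)
      have e4 : 16 * R ^ 2 * Z ^ 2 * (1 / (8 * R ^ 2)) = 2 * Z ^ 2 := by field_simp; ring
      linarith
    have e5 : Real.log (2 * Z ^ 2 / lam') ≤ (16 * R ^ 2) ^ (ε / 16) / (ε / 16) * Z ^ (ε / 8) := by
      have f1 := Real.log_le_log (by positivity) e3
      have f2 : Real.log (16 * R ^ 2 * Z ^ 2) ≤ (16 * R ^ 2 * Z ^ 2) ^ (ε / 16) / (ε / 16) :=
        Real.log_le_rpow_div (by positivity) (by positivity)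
      have f3 : (16 * R ^ 2 * Z ^ 2) ^ (ε / 16) = (16 * R ^ 2) ^ (ε / 16) * Z ^ (ε / 8) := by
        rw [Real.mul_rpow (by positivity) (by positivity), ← Real.rpow_natCast Z 2,
          ← Real.rpow_mul hZ0.le]
        congr 2
        push_cast
        ring
      rw [f3] at f2
      refine f1.trans (f2.trans (le_of_eq ?_))
      ring
    have e6 : (1 : ℝ) ≤ Z ^ (ε / 8) := Real.one_le_rpow hZ (by positivity)
    have e7 : 1 + Real.log (2 * Z ^ 2 / lam') ≤ c3 * Z ^ (ε / 8) := by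
      rw [hc3, add_mul, one_mul]
      linarith
    have e8 : 0 ≤ c3 * Z ^ (ε / 8) := by positivity
    calc 36 * (2 * Z ^ 2 / lam') ^ 2 * (1 + Real.log (2 * Z ^ 2 / lam'))
        ≤ 36 * (2 * Z ^ 2 / lam') ^ 2 * (c3 * Z ^ (ε / 8)) :=
          mul_le_mul_of_nonneg_left e7 (by positivity)
      _ ≤ 36 * (4 * (Z ^ 4 / lam ^ 2)) * (c3 * Z ^ (ε / 8)) :=
          mul_le_mul_of_nonneg_right (mul_le_mul_of_nonneg_left e1 (by norm_num)) e8
      _ = _ := by ring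
  -- (5) total
  have h9 : (8 * Z ^ 2) ^ (ε / 32) = c2 * Z ^ (ε / 16) := by
    rw [Real.mul_rpow (by norm_num) (by positivity), ← Real.rpow_natCast Z 2, ← Real.rpow_mul hZ0.le]
    congr 2
    push_cast
    ring
  rw [h9] at hU2
  have hsp : 0 ≤ ∑ u ∈ U, (cont u : ℝ) := Finset.sum_nonneg fun _ _ => Nat.cast_nonneg _
  have hpow : (Z ^ (ε / 4)) ^ 2 * Z ^ (ε / 8) * (Z ^ (ε / 16)) ^ 2 ≤ Z ^ ε := by
    rw [← Real.rpow_natCast (Z ^ (ε / 4)) 2, ← Real.rpow_natCast (Z ^ (ε / 16)) 2,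
      ← Real.rpow_mul hZ0.le, ← Real.rpow_mul hZ0.le, ← Real.rpow_add hZ0, ← Real.rpow_add hZ0]
    refine Real.rpow_le_rpow_of_exponent_le hZ ?_
    push_cast
    linarith
  refine hU2.trans ?_
  calc 2 * tb ^ 2 * (∑ u ∈ U, (cont u : ℝ)) *
        ((2 * (c2 * Z ^ (ε / 16) / (ε / 32))) ^ 2 * (32 * B * (Z ^ 2 / d)))
      ≤ 2 * tb ^ 2 * (144 * c3 * Z ^ (ε / 8) * (Z ^ 4 / lam ^ 2)) *
        ((2 * (c2 * Z ^ (ε / 16) / (ε / 32))) ^ 2 * (32 * B * (Z ^ 2 / d))) := by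
        refine mul_le_mul_of_nonneg_right ?_ (by positivity)
        exact mul_le_mul_of_nonneg_left hsum2 (by positivity)
    _ = C0 * B * ((Z ^ (ε / 4)) ^ 2 * Z ^ (ε / 8) * (Z ^ (ε / 16)) ^ 2) * (Z ^ 2 / d) *
        (Z ^ 4 / lam ^ 2) := by
        rw [htb, hC0]
        ring
    _ ≤ max (200 * R ^ 2) C0 * B * Z ^ ε * (Z ^ 2 / d) * (Z ^ 4 / lam ^ 2) := by
        have g1 : (Z ^ (ε / 4)) ^ 2 * Z ^ (ε / 8) * (Z ^ (ε / 16)) ^ 2 ≤ Z ^ ε := hpow
        have g2 : C0 * B ≤ max (200 * R ^ 2) C0 * B :=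
          mul_le_mul_of_nonneg_right (le_max_right _ _) hB
        have g3 : C0 * B * ((Z ^ (ε / 4)) ^ 2 * Z ^ (ε / 8) * (Z ^ (ε / 16)) ^ 2) ≤
            max (200 * R ^ 2) C0 * B * Z ^ ε :=
          mul_le_mul g2 g1 (by positivity) (by positivity)
        exact mul_le_mul_of_nonneg_right (mul_le_mul_of_nonneg_right g3 (by positivity)) (by positivity)

end HSL.Flp
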