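import Pool.Agent.Lib.HS.Bd.SpecFlip

/-!
PROJECT H* (MP_a54f13_nt), FLIP LEMMA, module Wdg: three short vectors are dependent (helper87)
-/

set_option autoImplicit false

namespace HSL.Flp

open HSL Matrix

namespace FWdgAux

theorem nm_left (g u v t : MR) : nm (g * u) (g * v) (g * t) = g.det • (g * nm u v t) := by
  ext i j
  fin_cases i <;> fin_cases j <;> simp [nm, dt3, Matrix.mul_apply, Fin.sum_univ_two,
    Matrix.det_fin_two, Matrix.vecMul, dotProduct, Matrix.vecHead, Matrix.vecTail] <;> ring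

theorem nm_right (g u v t : MR) : nm (u * g) (v * g) (t * g) = g.det • (nm u v t * g) := by
  ext i j
  fin_cases i <;> fin_cases j <;> simp [nm, dt3, Matrix.mul_apply, Fin.sum_univ_two,
    Matrix.det_fin_two, Matrix.vecMul, dotProduct, Matrix.vecHead, Matrix.vecTail] <;> ring

theorem nm_toR (u v t : MZ) : toR (nm u v t) = nm (toR u) (toR v) (toR t) := by
  ext i j
  fin_cases i <;> fin_cases j <;> simp [toR, nm, dt3]

theorem nm_fr (a b : MR) (ha : a.det = 1) (hb : b.det = 1) (u v t : MZ) :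
    nm (fr a b u) (fr a b v) (fr a b t) = fr a b (nm u v t) := by
  have hb' : b.adjugate.det = 1 := by
    rw [Matrix.det_adjugate, hb, one_pow]
  unfold fr
  rw [Matrix.mul_assoc, Matrix.mul_assoc, Matrix.mul_assoc, nm_left, nm_right, hb', ha, one_smul,
    one_smul, ← nm_toR, Matrix.mul_assoc]

theorem dt3_bd (X1 X2 X3 a1 a2 a3 b1 b2 b3 c1 c2 c3 : ℝ) (h1 : 0 ≤ X1) (h2 : 0 ≤ X2)
    (ha1 : |a1| ≤ X1) (hb1 : |b1| ≤ X1) (hc1 : |c1| ≤ X1)
    (ha2 : |a2| ≤ X2) (hb2 : |b2| ≤ X2) (hc2 : |c2| ≤ X2)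
    (ha3 : |a3| ≤ X3) (hb3 : |b3| ≤ X3) (hc3 : |c3| ≤ X3) :
    |dt3 a1 a2 a3 b1 b2 b3 c1 c2 c3| ≤ 6 * (X1 * X2 * X3) := by
  have h3 : 0 ≤ X3 := (abs_nonneg _).trans ha3
  have key : ∀ x y z : ℝ, |x| ≤ X1 → |y| ≤ X2 → |z| ≤ X3 → |x * y * z| ≤ X1 * X2 * X3 := by
    intro x y z hx hy hz
    rw [abs_mul, abs_mul]
    exact mul_le_mul (mul_le_mul hx hy (abs_nonneg _) h1) hz (abs_nonneg _) (mul_nonneg h1 h2)
  have e : dt3 a1 a2 a3 b1 b2 b3 c1 c2 c3 = a1 * b2 * c3 + (-(a1 * c2 * b3)) + (-(b1 * a2 * c3)) +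
      c1 * a2 * b3 + b1 * c2 * a3 + (-(c1 * b2 * a3)) := by
    unfold dt3
    ring
  have k1 := key _ _ _ ha1 hb2 hc3
  have k2 := key _ _ _ ha1 hc2 hb3
  have k3 := key _ _ _ hb1 ha2 hc3
  have k4 := key _ _ _ hc1 ha2 hb3
  have k5 := key _ _ _ hb1 hc2 ha3
  have k6 := key _ _ _ hc1 hb2 ha3
  rw [e]
  rw [abs_le] at k1 k2 k3 k4 k5 k6 ⊢
  constructor <;> linarith [k1.1, k1.2, k2.1, k2.2, k3.1, k3.2, k4.1, k4.2, k5.1, k5.2, k6.1, k6.2]

theorem ent_bd (R m : ℝ) (a b F : MR) (hR : 0 ≤ R) (ha : ∀ i j, |a i j| ≤ R)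
    (hb : ∀ i j, |b i j| ≤ R) (hF : ∀ i j, |F i j| ≤ m) (i j : Fin 2) :
    |(b * F * a.adjugate) i j| ≤ 4 * R ^ 2 * m := by
  have hm : 0 ≤ m := (abs_nonneg _).trans (hF 0 0)
  have hadj : ∀ i j, |a.adjugate i j| ≤ R := by
    intro i j
    rw [Matrix.adjugate_fin_two]
    fin_cases i <;> fin_cases j <;> simp [ha]
  have hbF : ∀ i j, |(b * F) i j| ≤ 2 * (R * m) := by
    intro i j
    rw [Matrix.mul_apply, Fin.sum_univ_two]
    have h0 : |b i 0 * F 0 j| ≤ R * m := by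
      rw [abs_mul]
      exact mul_le_mul (hb _ _) (hF _ _) (abs_nonneg _) hR
    have h1 : |b i 1 * F 1 j| ≤ R * m := by
      rw [abs_mul]
      exact mul_le_mul (hb _ _) (hF _ _) (abs_nonneg _) hR
    exact (abs_add_le _ _).trans (by linarith)
  rw [Matrix.mul_apply, Fin.sum_univ_two]
  have h0 : |(b * F) i 0 * a.adjugate 0 j| ≤ 2 * (R * m) * R := by
    rw [abs_mul]
    exact mul_le_mul (hbF _ _) (hadj _ _) (abs_nonneg _) (by positivity)
  have h1 : |(b * F) i 1 * a.adjugate 1 j| ≤ 2 * (R * m) * R := by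
    rw [abs_mul]
    exact mul_le_mul (hbF _ _) (hadj _ _) (abs_nonneg _) (by positivity)
  refine (abs_add_le _ _).trans ?_
  have h2 : 4 * R ^ 2 * m = 2 * (R * m) * R + 2 * (R * m) * R := by ring
  linarith

end FWdgAux

open FWdgAux in
theorem tWdg : S_Frm → S_Wdg := by
  intro hFrm a b R w Y u v t hR hw hw1 hY ha hb haR hbR hsm hu hv ht
  obtain ⟨-, -, -, -, -, -, -, hrep⟩ := hFrm
  have hwY : 0 ≤ w * Y := by positivity
  obtain ⟨u00, u11, u01, u10⟩ := hu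
  obtain ⟨v00, v11, v01, v10⟩ := hv
  obtain ⟨t00, t11, t01, t10⟩ := ht
  have hY0 := hY.le
  have hww : w * Y ≤ Y := by nlinarith
  -- entries of the frame of the normal
  have hF : ∀ i j, |fr a b (nm u v t) i j| ≤ 6 * (w * Y ^ 3) := by
    rw [← nm_fr a b ha hb]
    have b1 : 6 * (Y * (w * Y) * (w * Y)) ≤ 6 * (w * Y ^ 3) := by
      have : Y * (w * Y) * (w * Y) ≤ Y * (w * Y) * Y :=
        mul_le_mul_of_nonneg_left hww (mul_nonneg hY0 hwY)
      nlinarith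
    have b2 : 6 * (Y * (w * Y) * Y) ≤ 6 * (w * Y ^ 3) := le_of_eq (by ring)
    have b3 : 6 * ((w * Y) * (w * Y) * Y) ≤ 6 * (w * Y ^ 3) := by
      have e : (w * Y) * (w * Y) * Y = Y * (w * Y) * (w * Y) := by ring
      rw [e]
      exact b1
    have b4 : 6 * (Y * (w * Y) * (Y)) ≤ 6 * (w * Y ^ 3) := b2
    intro i j
    fin_cases i <;> fin_cases j
    · exact (dt3_bd Y (w * Y) (w * Y) _ _ _ _ _ _ _ _ _ hY0 hwY u00 v00 t00 u01 v01 t01 u10 v10
        t10).trans b1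
    · exact (dt3_bd Y (w * Y) Y _ _ _ _ _ _ _ _ _ hY0 hwY u00 v00 t00 u01 v01 t01 u11 v11
        t11).trans b2
    · refine le_trans (le_of_eq (abs_neg _)) ?_
      exact (dt3_bd Y (w * Y) Y _ _ _ _ _ _ _ _ _ hY0 hwY u00 v00 t00 u10 v10 t10 u11 v11
        t11).trans b2
    · refine le_trans (le_of_eq (abs_neg _)) ?_
      exact (dt3_bd (w * Y) (w * Y) Y _ _ _ _ _ _ _ _ _ hwY hwY u01 v01 t01 u10 v10 t10 u11 v11
        t11).trans b3
  have hR0 : 0 ≤ R := by linarith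
  ext i j
  have h1 := ent_bd R _ a b _ hR0 haR hbR hF i j
  rw [← hrep a b (nm u v t) ha hb] at h1
  have h2 : |((nm u v t i j : ℤ) : ℝ)| < 1 := by
    have h3 : 4 * R ^ 2 * (6 * (w * Y ^ 3)) = 24 * R ^ 2 * w * Y ^ 3 := by ring
    rw [h3] at h1
    exact lt_of_le_of_lt h1 hsm
  have h4 : |nm u v t i j| < 1 := by exact_mod_cast h2
  exact Int.abs_lt_one_iff.1 h4

end HSL.Flp
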