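import Pool.Agent.Lib.HS.Bd.FFlip
import Pool.Agent.Lib.HS.Bd.FTau
import Pool.Agent.Lib.HS.Bd.FFrm
import Pool.Agent.Lib.HS.Bd.FRow
import Pool.Agent.Lib.HS.Bd.FCov
import Pool.Agent.Lib.HS.Bd.FDeg
import Pool.Agent.Lib.HS.Bd.FDiv
import Pool.Agent.Lib.HS.Bd.FWdg
import Pool.Agent.Lib.HS.Bd.FPck
import Pool.Agent.Lib.HS.Bd.FSum
import Pool.Agent.Lib.HS.Bd.FTwo
import Pool.Agent.Lib.HS.Bd.FCmb
import Pool.Agent.Lib.HS.Bd.FDyd

/-!
PROJECT H* (MP_a54f13_nt), high bands: the FLIP LEMMA, closed (helper5).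
-/

set_option autoImplicit false

namespace HSL.Flp

theorem pMat : S_Mat := tMat tRow

theorem pDeg : S_Deg := tDeg tFrm pMat tCov

theorem pWdg : S_Wdg := tWdg tFrm

theorem pSum : S_Sum := tSum tPck

theorem pTwo : S_Two := tTwo tFrm tDiv tCov pWdg pSum tTau

/-- **FLIP LEMMA** -/
theorem flip : StmtFlip := tFlip tFrm pDeg pTwo tCmb (tDyd tFrm)

end HSL.Flp
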