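import Pool.Agent.Lib.HS.Bd.SpecHigh

/-!
# Package `HS`, high bands: few returns between cells of the cusp set (`S_CUc`)
-/

set_option autoImplicit false

namespace HSB

open HSL Matrix

namespace HCUcAux

lemma bound {X w p q a0 a1 b0 b1 m00 m01 m10 m11 : ℝ} (hw : 0 ≤ w) (hX : 0 ≤ X) (hp : 0 ≤ p) (hq : 0 ≤ q)
    (ha0 : |a0| ≤ p) (ha1 : |a1| ≤ q) (hb0 : |b0| ≤ p) (hb1 : |b1| ≤ q)
    (h00 : |m00| ≤ X) (h11 : |m11| ≤ X) (h01 : |m01| ≤ w * X) (h10 : |m10| ≤ w * X) :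
    |b0 * (m10 * a0 + m11 * a1) - b1 * (m00 * a0 + m01 * a1)| ≤ X * (w * p ^ 2 + 2 * (p * q) + w * q ^ 2) := by
  have hwX : 0 ≤ w * X := mul_nonneg hw hX
  have e1 : |m10 * a0| ≤ w * X * p := by
    rw [abs_mul]; exact mul_le_mul h10 ha0 (abs_nonneg _) hwX
  have e2 : |m11 * a1| ≤ X * q := by
    rw [abs_mul]; exact mul_le_mul h11 ha1 (abs_nonneg _) hX
  have e3 : |m00 * a0| ≤ X * p := by
    rw [abs_mul]; exact mul_le_mul h00 ha0 (abs_nonneg _) hX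
  have e4 : |m01 * a1| ≤ w * X * q := by
    rw [abs_mul]; exact mul_le_mul h01 ha1 (abs_nonneg _) hwX
  have e5 : |m10 * a0 + m11 * a1| ≤ w * X * p + X * q := (abs_add_le _ _).trans (add_le_add e1 e2)
  have e6 : |m00 * a0 + m01 * a1| ≤ X * p + w * X * q := (abs_add_le _ _).trans (add_le_add e3 e4)
  have e7 : |b0 * (m10 * a0 + m11 * a1)| ≤ p * (w * X * p + X * q) := by
    rw [abs_mul]; exact mul_le_mul hb0 e5 (abs_nonneg _) hp
  have e8 : |b1 * (m00 * a0 + m01 * a1)| ≤ q * (X * p + w * X * q) := by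
    rw [abs_mul]; exact mul_le_mul hb1 e6 (abs_nonneg _) hq
  have e9 := abs_sub (b0 * (m10 * a0 + m11 * a1)) (b1 * (m00 * a0 + m01 * a1))
  have e10 : p * (w * X * p + X * q) + q * (X * p + w * X * q) = X * (w * p ^ 2 + 2 * (p * q) + w * q ^ 2) := by ring
  linarith

end HCUcAux

open HCUcAux

theorem tCUc (hCo : S_Co) (hSNq : S_SNq) : S_CUc := by
  intro R C B ε hR hC hB hε
  obtain ⟨C1, hC1, SN⟩ := hSNq R C B ε hR hC hB hε
  obtain ⟨-, Co2, -, -, -⟩ := hCo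
  refine ⟨max C1 (8 * C * B), hC1.trans (le_max_left _ _), ?_⟩
  intro w K ρ e a b H ha hb hw hw1 hK hwK he heρ hsmall hcu hH
  have hK0 : 0 < K := by linarith
  have hC0 : 0 < C := by linarith
  have hB0 : 0 < B := by linarith
  have hρ : 0 ≤ ρ := he.trans heρ
  have hC1' : C1 ≤ max C1 (8 * C * B) := le_max_left _ _
  have hwK' : C1 * w * K ≤ 1 := by
    refine le_trans ?_ hwK
    exact mul_le_mul_of_nonneg_right (mul_le_mul_of_nonneg_right hC1' hw.le) hK0.le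
  -- the key estimate
  have key : ∀ (qa qb : Fin 2 → ℤ) (p q : ℝ), 0 ≤ p → 0 ≤ q → w * p ^ 2 + 2 * (p * q) + w * q ^ 2 ≤ 2 * (ρ * e + w * ρ ^ 2) →
      |co a qa 0| ≤ p → |co a qa 1| ≤ q → |co b qb 0| ≤ p → |co b qb 1| ≤ q →
      ∀ h ∈ H, SqR C B w K a b h ∧ (h *ᵥ qa) 0 * qb 1 = (h *ᵥ qa) 1 * qb 0 := by
    intro qa qb p q hp hq hpq h1 h2 h3 h4 h hh
    refine ⟨hH h hh, ?_⟩
    obtain ⟨-, m, -, hm, -, hm0, n00, n11, n01, n10⟩ := hH h hh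
    have hX : C * (m : ℝ) ≤ C * B * K := by
      rw [mul_assoc]
      exact mul_le_mul_of_nonneg_left hm hC0.le
    have hwX : C * w * (m : ℝ) ≤ w * (C * B * K) := by
      calc C * w * (m : ℝ) = w * (C * (m : ℝ)) := by ring
        _ ≤ _ := mul_le_mul_of_nonneg_left hX hw.le
    have hb1 := bound (X := C * B * K) hw.le (by positivity) hp hq h1 h2 h3 h4 (n00.trans hX) (n11.trans hX)
      (n01.trans hwX) (n10.trans hwX)
    rw [← Co2 a b h qa qb ha.1 hb.1] at hb1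
    have hs2 : C * B * K * (w * p ^ 2 + 2 * (p * q) + w * q ^ 2) < 1 := by
      have hs3 : 8 * C * B * K * (ρ * e + w * ρ ^ 2) ≤ 1 := by
        refine le_trans ?_ hsmall
        have hnn : 0 ≤ ρ * e + w * ρ ^ 2 := by positivity
        exact mul_le_mul_of_nonneg_right (mul_le_mul_of_nonneg_right (le_max_right _ _) hK0.le) hnn
      have hs4 : C * B * K * (w * p ^ 2 + 2 * (p * q) + w * q ^ 2) ≤ C * B * K * (2 * (ρ * e + w * ρ ^ 2)) :=
        mul_le_mul_of_nonneg_left hpq (by positivity)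
      nlinarith
    have hlt := lt_of_le_of_lt hb1 hs2
    have hz : qb 0 * (h *ᵥ qa) 1 - qb 1 * (h *ᵥ qa) 0 = 0 := by
      have h5 : |((qb 0 * (h *ᵥ qa) 1 - qb 1 * (h *ᵥ qa) 0 : ℤ) : ℝ)| < 1 := hlt
      rw [← Int.cast_abs] at h5
      have h6 : |qb 0 * (h *ᵥ qa) 1 - qb 1 * (h *ᵥ qa) 0| < 1 := by exact_mod_cast h5
      exact Int.abs_lt_one_iff.1 h6
    linarith
  have fin : ∀ qa qb : Fin 2 → ℤ, qa ≠ 0 → qb ≠ 0 →
      (∀ h ∈ H, SqR C B w K a b h ∧ (h *ᵥ qa) 0 * qb 1 = (h *ᵥ qa) 1 * qb 0) →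
      (H.card : ℝ) ≤ max C1 (8 * C * B) * K ^ (1 + ε) := by
    intro qa qb hqa hqb h1
    refine (SN w K a b qa qb H hw hK hwK' ha hb hqa hqb h1).trans ?_
    exact mul_le_mul_of_nonneg_right hC1' (Real.rpow_nonneg hK0.le _)
  have hee : e ^ 2 ≤ ρ ^ 2 := pow_le_pow_left₀ he heρ 2
  have hwee : w * e ^ 2 ≤ w * ρ ^ 2 := mul_le_mul_of_nonneg_left hee hw.le
  rcases hcu with ⟨⟨qa, hqa, a0, a1⟩, ⟨qb, hqb, b0, b1⟩⟩ | ⟨⟨qa, hqa, a1, a0⟩, ⟨qb, hqb, b1, b0⟩⟩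
  · exact fin qa qb hqa hqb (key qa qb ρ e hρ he (by linarith) a0 a1 b0 b1)
  · refine fin qa qb hqa hqb (key qa qb e ρ he hρ ?_ a0 a1 b0 b1)
    have : e * ρ = ρ * e := mul_comm _ _
    rw [this]
    linarith

end HSB
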