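import Pool.Agent.Lib.HS.Bd.SpecHigh

/-!
# Package `HS`, high bands, module CUu (with CUr): the cusp set from singular vectors (helper92)
-/

set_option autoImplicit false

namespace HSB

open HSL Matrix

namespace HCUuAux

/-- `x ≤ 2 R (y x)` if `1 ≤ 2 R y` -/
lemma le_of_one {R x y z : ℝ} (hx : 0 ≤ x) (hR : 0 ≤ R) (h1 : 1 ≤ 2 * R * y) (h2 : y * x ≤ z) :
    x ≤ 2 * R * z := by
  have h3 : 1 * x ≤ 2 * R * y * x := mul_le_mul_of_nonneg_right h1 hx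
  have h4 : 2 * R * (y * x) ≤ 2 * R * z := mul_le_mul_of_nonneg_left h2 (by linarith)
  nlinarith

lemma one_of_small {R x y z : ℝ} (h1 : 1 ≤ 2 * R * max x y) (hR : 0 ≤ R) (hy : y ≤ 2 * R * z)
    (hz : 4 * R ^ 2 * z < 1) : 1 ≤ 2 * R * x := by
  rcases le_total x y with h | h
  · exfalso
    rw [max_eq_right h] at h1
    have h2 : 2 * R * y ≤ 2 * R * (2 * R * z) := mul_le_mul_of_nonneg_left hy (by linarith)
    nlinarith
  · rwa [max_eq_left h] at h1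

lemma sqrt_or {x y Z : ℝ} (hx : 0 ≤ x) (hy : 0 ≤ y) (h : x * y ≤ Z) : x ≤ √Z ∨ y ≤ √Z := by
  by_contra hc
  push Not at hc
  have h0 : 0 ≤ √Z := Real.sqrt_nonneg Z
  have hZ : 0 ≤ Z := (mul_nonneg hx hy).trans h
  have h1 : √Z * √Z < x * y := mul_lt_mul'' hc.1 hc.2 h0 h0
  rw [Real.mul_self_sqrt hZ] at h1
  linarith

lemma vec_ne {s : Fin 2 → ℤ} (hs : IsCoprime (s 0) (s 1)) : (![-s 1, s 0] : Fin 2 → ℤ) ≠ 0 := by
  intro h
  have h0 : -s 1 = 0 := congrFun h 0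
  have h1 : s 0 = 0 := congrFun h 1
  have h2 : s 1 = 0 := by linarith
  rw [h1, h2] at hs
  exact not_isCoprime_zero_zero hs

end HCUuAux

open HCUuAux

theorem tCUu (hCo : S_Co) : S_CUu := by
  obtain ⟨-, -, h3, h4, h5⟩ := hCo
  intro R w T a b u hR ha hb hw hT hu hdet hB
  obtain ⟨c, s, hc, hs, rfl⟩ := h5 u hu hdet
  have hR0 : 0 ≤ R := by linarith
  obtain ⟨e00, e01⟩ := h4 a b c s 0 ha.1 hb.1
  obtain ⟨e10, e11⟩ := h4 a b c s 1 ha.1 hb.1
  obtain ⟨b1, b2, b3, b4⟩ := hB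
  rw [e00, abs_mul] at b1
  rw [e11, abs_neg, abs_mul] at b2
  rw [e01, abs_neg, abs_mul] at b3
  rw [e10, abs_mul] at b4
  have hq := vec_ne hs
  have h6 := h3 R b c hR hb hc
  rcases le_total |co b c 0| |co b c 1| with h | h
  · rw [max_eq_right h] at h6
    exact Or.inl ⟨_, hq, le_of_one (abs_nonneg _) hR0 h6 b2, le_of_one (abs_nonneg _) hR0 h6 b4⟩
  · rw [max_eq_left h] at h6
    exact Or.inr ⟨_, hq, le_of_one (abs_nonneg _) hR0 h6 b1, le_of_one (abs_nonneg _) hR0 h6 b3⟩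

theorem tCUr (hCo : S_Co) : S_CUr := by
  obtain ⟨-, -, h3, h4, h5⟩ := hCo
  intro R w Z a b u hR ha hb hw hZ hsm hu hdet hB
  obtain ⟨c, s, hc, hs, rfl⟩ := h5 u hu hdet
  have hR0 : 0 ≤ R := by linarith
  obtain ⟨e00, e01⟩ := h4 a b c s 0 ha.1 hb.1
  obtain ⟨e10, e11⟩ := h4 a b c s 1 ha.1 hb.1
  obtain ⟨b1, b2, b3, b4⟩ := hB
  rw [e00, abs_mul] at b1
  rw [e11, abs_neg, abs_mul] at b2
  rw [e01, abs_neg, abs_mul] at b3
  rw [e10, abs_mul] at b4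
  have hq := vec_ne hs
  have h6 := h3 R b c hR hb hc
  have h7 := h3 R a _ hR ha hq
  rcases le_total |co b c 0| |co b c 1| with h | h
  · rw [max_eq_right h] at h6
    have k1 := le_of_one (abs_nonneg _) hR0 h6 b2
    rw [max_comm] at h7
    have k2 := one_of_small h7 hR0 k1 hsm
    have k3 := le_of_one (abs_nonneg _) hR0 k2 ((mul_comm _ _).trans_le b1)
    rcases sqrt_or (abs_nonneg _) (abs_nonneg _) b4 with k4 | k4
    · exact Or.inr (Or.inr ⟨_, hc, k4, k3⟩)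
    · exact Or.inl (Or.inr ⟨_, hq, k4, k1⟩)
  · rw [max_eq_left h] at h6
    have k1 := le_of_one (abs_nonneg _) hR0 h6 b1
    have k2 := one_of_small h7 hR0 k1 hsm
    have k3 := le_of_one (abs_nonneg _) hR0 k2 ((mul_comm _ _).trans_le b2)
    rcases sqrt_or (abs_nonneg _) (abs_nonneg _) b3 with k4 | k4
    · exact Or.inr (Or.inl ⟨_, hc, k4, k3⟩)
    · exact Or.inl (Or.inl ⟨_, hq, k4, k1⟩)

end HSB
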