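import Pool.Agent.Lib.HS.Bd.SpecHigh

/-!
# Package `HS`, high bands, module `HCo` (helper96)

`tCo : S_Co`: the coordinates `co a q = a⁻¹ q` of integral vectors, the area form, the frame of a
rank one matrix, and the factorization of a singular integral matrix with a primitive row.
-/

set_option autoImplicit false

namespace HSB

open HSL Matrix

namespace HCoAux

private lemma fr00 (a b : MR) (h : MZ) : fr a b h 0 0 =
    (b 1 1 * h 0 0 - b 0 1 * h 1 0) * a 0 0 + (b 1 1 * h 0 1 - b 0 1 * h 1 1) * a 1 0 := by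
  simp only [fr, toR, Matrix.adjugate_fin_two, Matrix.mul_apply, Fin.sum_univ_two,
    Matrix.map_apply, Matrix.of_apply, Matrix.cons_val_zero, Matrix.cons_val_one,
    Matrix.cons_val', Matrix.cons_val_fin_one]
  ring

private lemma fr01 (a b : MR) (h : MZ) : fr a b h 0 1 =
    (b 1 1 * h 0 0 - b 0 1 * h 1 0) * a 0 1 + (b 1 1 * h 0 1 - b 0 1 * h 1 1) * a 1 1 := by
  simp only [fr, toR, Matrix.adjugate_fin_two, Matrix.mul_apply, Fin.sum_univ_two,
    Matrix.map_apply, Matrix.of_apply, Matrix.cons_val_zero, Matrix.cons_val_one,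
    Matrix.cons_val', Matrix.cons_val_fin_one]
  ring

private lemma fr10 (a b : MR) (h : MZ) : fr a b h 1 0 =
    (b 0 0 * h 1 0 - b 1 0 * h 0 0) * a 0 0 + (b 0 0 * h 1 1 - b 1 0 * h 0 1) * a 1 0 := by
  simp only [fr, toR, Matrix.adjugate_fin_two, Matrix.mul_apply, Fin.sum_univ_two,
    Matrix.map_apply, Matrix.of_apply, Matrix.cons_val_zero, Matrix.cons_val_one,
    Matrix.cons_val', Matrix.cons_val_fin_one]
  ring

private lemma fr11 (a b : MR) (h : MZ) : fr a b h 1 1 =
    (b 0 0 * h 1 0 - b 1 0 * h 0 0) * a 0 1 + (b 0 0 * h 1 1 - b 1 0 * h 0 1) * a 1 1 := by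
  simp only [fr, toR, Matrix.adjugate_fin_two, Matrix.mul_apply, Fin.sum_univ_two,
    Matrix.map_apply, Matrix.of_apply, Matrix.cons_val_zero, Matrix.cons_val_one,
    Matrix.cons_val', Matrix.cons_val_fin_one]
  ring

private lemma co0 (a : MR) (q : Fin 2 → ℤ) : co a q 0 = a 1 1 * q 0 - a 0 1 * q 1 := by
  simp only [co, Matrix.adjugate_fin_two, Matrix.mulVec, dotProduct, Fin.sum_univ_two,
    Matrix.of_apply, Matrix.cons_val_zero, Matrix.cons_val_one, Matrix.cons_val',
    Matrix.cons_val_fin_one]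
  ring

private lemma co1 (a : MR) (q : Fin 2 → ℤ) : co a q 1 = a 0 0 * q 1 - a 1 0 * q 0 := by
  simp only [co, Matrix.adjugate_fin_two, Matrix.mulVec, dotProduct, Fin.sum_univ_two,
    Matrix.of_apply, Matrix.cons_val_zero, Matrix.cons_val_one, Matrix.cons_val',
    Matrix.cons_val_fin_one]
  ring

private lemma mv (h : MZ) (q : Fin 2 → ℤ) (i : Fin 2) : (h *ᵥ q) i = h i 0 * q 0 + h i 1 * q 1 := by
  simp only [Matrix.mulVec, dotProduct, Fin.sum_univ_two]

private lemma part1 (a b : MR) (h : MZ) (q : Fin 2 → ℤ) (ha : a.det = 1) :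
    (fr a b h) *ᵥ (co a q) = co b (h *ᵥ q) := by
  rw [Matrix.det_fin_two] at ha
  funext i
  have e : ((fr a b h) *ᵥ (co a q)) i = fr a b h i 0 * co a q 0 + fr a b h i 1 * co a q 1 := by
    simp only [Matrix.mulVec, dotProduct, Fin.sum_univ_two]
  rw [e]
  fin_cases i
  · simp only [Fin.zero_eta, Fin.isValue]
    rw [fr00, fr01, co0 a, co1 a, co0 b, mv, mv]
    push_cast
    linear_combination (b 1 1 * (h 0 0 * q 0 + h 0 1 * q 1) -
      b 0 1 * (h 1 0 * q 0 + h 1 1 * q 1)) * ha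
  · simp only [Fin.mk_one, Fin.isValue]
    rw [fr10, fr11, co0 a, co1 a, co1 b, mv, mv]
    push_cast
    linear_combination (b 0 0 * (h 1 0 * q 0 + h 1 1 * q 1) -
      b 1 0 * (h 0 0 * q 0 + h 0 1 * q 1)) * ha

private lemma part2 (a b : MR) (h : MZ) (q q' : Fin 2 → ℤ) (ha : a.det = 1) (hb : b.det = 1) :
    (((q' 0 * (h *ᵥ q) 1 - q' 1 * (h *ᵥ q) 0 : ℤ)) : ℝ) =
      co b q' 0 * (fr a b h 1 0 * co a q 0 + fr a b h 1 1 * co a q 1) -
      co b q' 1 * (fr a b h 0 0 * co a q 0 + fr a b h 0 1 * co a q 1) := by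
  have e : ∀ i, fr a b h i 0 * co a q 0 + fr a b h i 1 * co a q 1 = co b (h *ᵥ q) i := by
    intro i
    rw [← part1 a b h q ha]
    simp only [Matrix.mulVec, dotProduct, Fin.sum_univ_two]
  rw [e 0, e 1, co0, co0, co1, co1]
  rw [Matrix.det_fin_two] at hb
  push_cast
  linear_combination (-((q' 0 : ℝ) * ((h *ᵥ q) 1 : ℤ) - (q' 1 : ℝ) * ((h *ᵥ q) 0 : ℤ))) * hb

private lemma part3 (R : ℝ) (a : MR) (q : Fin 2 → ℤ) (hR : 1 ≤ R) (ha : Um R a) (hq : q ≠ 0) :
    1 ≤ 2 * R * max |co a q 0| |co a q 1| := by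
  obtain ⟨hd, hb⟩ := ha
  rw [Matrix.det_fin_two] at hd
  have e0 : (q 0 : ℝ) = a 0 0 * co a q 0 + a 0 1 * co a q 1 := by
    rw [co0, co1]
    linear_combination (-(q 0 : ℝ)) * hd
  have e1 : (q 1 : ℝ) = a 1 0 * co a q 0 + a 1 1 * co a q 1 := by
    rw [co0, co1]
    linear_combination (-(q 1 : ℝ)) * hd
  have key : ∀ x y : ℝ, |x| ≤ R → |y| ≤ R →
      |x * co a q 0 + y * co a q 1| ≤ 2 * R * max |co a q 0| |co a q 1| := by
    intro x y hx hy
    have m0 := le_max_left |co a q 0| |co a q 1|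
    have m1 := le_max_right |co a q 0| |co a q 1|
    have n0 := abs_nonneg (co a q 0)
    have n1 := abs_nonneg (co a q 1)
    have t1 : |x * co a q 0| ≤ R * max |co a q 0| |co a q 1| := by
      rw [abs_mul]; exact mul_le_mul hx m0 n0 (by linarith)
    have t2 : |y * co a q 1| ≤ R * max |co a q 0| |co a q 1| := by
      rw [abs_mul]; exact mul_le_mul hy m1 n1 (by linarith)
    have t3 := abs_add_le (x * co a q 0) (y * co a q 1)
    linarith
  have hi : q 0 ≠ 0 ∨ q 1 ≠ 0 := by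
    by_contra hc
    push Not at hc
    apply hq
    funext i
    fin_cases i
    · exact hc.1
    · exact hc.2
  rcases hi with h0 | h0
  · have h1 : (1 : ℝ) ≤ |(q 0 : ℝ)| := by
      rw [← Int.cast_abs]; exact_mod_cast Int.one_le_abs h0
    rw [e0] at h1
    exact h1.trans (key _ _ (hb 0 0) (hb 0 1))
  · have h1 : (1 : ℝ) ≤ |(q 1 : ℝ)| := by
      rw [← Int.cast_abs]; exact_mod_cast Int.one_le_abs h0
    rw [e1] at h1
    exact h1.trans (key _ _ (hb 1 0) (hb 1 1))

private lemma part4 (a b : MR) (c s : Fin 2 → ℤ) (i : Fin 2) :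
    fr a b (Matrix.of fun i j => c i * s j) i 0 = co b c i * co a ![-s 1, s 0] 1 ∧
    fr a b (Matrix.of fun i j => c i * s j) i 1 = - (co b c i * co a ![-s 1, s 0] 0) := by
  fin_cases i
  · simp only [Fin.zero_eta, Fin.isValue]
    rw [fr00, fr01, co0 b, co0 a, co1 a]
    simp only [Matrix.of_apply, Matrix.cons_val_zero, Matrix.cons_val_one]
    push_cast
    constructor <;> ring
  · simp only [Fin.mk_one, Fin.isValue]
    rw [fr10, fr11, co1 b, co0 a, co1 a]
    simp only [Matrix.of_apply, Matrix.cons_val_zero, Matrix.cons_val_one]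
    push_cast
    constructor <;> ring

private lemma part5 (r : MZ) (hr : r ≠ 0) (hd : r.det = 0) :
    ∃ c s : Fin 2 → ℤ, c ≠ 0 ∧ IsCoprime (s 0) (s 1) ∧ r = Matrix.of fun i j => c i * s j := by
  rw [Matrix.det_fin_two] at hd
  -- a primitive vector proportional to the rows
  have key : ∃ s : Fin 2 → ℤ, IsCoprime (s 0) (s 1) ∧ ∀ k : Fin 2, r k 0 * s 1 = r k 1 * s 0 := by
    have hi : ∃ i : Fin 2, r i 0 ≠ 0 ∨ r i 1 ≠ 0 := by
      by_contra hc
      push Not at hc
      apply hr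
      ext i j
      fin_cases j
      · exact (hc i).1
      · exact (hc i).2
    obtain ⟨i, hi⟩ := hi
    have hg : 0 < Int.gcd (r i 0) (r i 1) := Int.gcd_pos_iff.2 hi
    obtain ⟨x, y, hxy, hx, hy⟩ := Int.exists_gcd_one hg
    have hg' : ((Int.gcd (r i 0) (r i 1) : ℕ) : ℤ) ≠ 0 := by exact_mod_cast hg.ne'
    refine ⟨![x, y], ?_, ?_⟩
    · simp only [Matrix.cons_val_zero, Matrix.cons_val_one]
      exact Int.isCoprime_iff_gcd_eq_one.2 hxy
    · intro k
      simp only [Matrix.cons_val_zero, Matrix.cons_val_one]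
      have e : r k 0 * r i 1 = r k 1 * r i 0 := by
        fin_cases k <;> fin_cases i <;>
          simp only [Fin.zero_eta, Fin.mk_one, Fin.isValue] <;> linarith
      have e2 : ((Int.gcd (r i 0) (r i 1) : ℕ) : ℤ) * (r k 0 * y - r k 1 * x) = 0 := by
        linear_combination e - r k 0 * hy + r k 1 * hx
      rcases mul_eq_zero.1 e2 with h | h
      · exact absurd h hg'
      · linarith
  obtain ⟨s, hs, hk⟩ := key
  obtain ⟨u, v, huv⟩ := hs
  have er : r = Matrix.of fun i j => (u * r i 0 + v * r i 1) * s j := by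
    ext k j
    have hk' := hk k
    fin_cases j
    · simp only [Matrix.of_apply, Fin.zero_eta, Fin.isValue]
      linear_combination (-(r k 0)) * huv + v * hk'
    · simp only [Matrix.of_apply, Fin.mk_one, Fin.isValue]
      linear_combination (-(r k 1)) * huv - u * hk'
  refine ⟨fun i => u * r i 0 + v * r i 1, s, ?_, ⟨u, v, huv⟩, er⟩
  intro hc
  apply hr
  rw [er]
  ext k j
  have : u * r k 0 + v * r k 1 = 0 := congrFun hc k
  simp only [Matrix.of_apply, this, zero_mul, Matrix.zero_apply]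

end HCoAux

/-- **Co.** -/
theorem tCo : S_Co :=
  ⟨fun a b h q ha => HCoAux.part1 a b h q ha,
    fun a b h q q' ha hb => HCoAux.part2 a b h q q' ha hb,
    fun R a q hR ha hq => HCoAux.part3 R a q hR ha hq,
    fun a b c s i _ _ => HCoAux.part4 a b c s i,
    fun r hr hd => HCoAux.part5 r hr hd⟩

end HSB
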