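import Pool.Agent.Lib.HS.Bd.SpecHigh

/-!
Package `HS`, high bands: `tFbB`, the trivial bound for the number of returns.
-/

set_option autoImplicit false

namespace HSB

open HSL Matrix

namespace HFbBAux

theorem toR_eq (a b : MR) (ha : a.det = 1) (hb : b.det = 1) (h : MZ) :
    toR h = b * fr a b h * a.adjugate := by
  unfold fr
  have h1 : b * b.adjugate = 1 := by rw [mul_adjugate, hb, one_smul]
  have h2 : a * a.adjugate = 1 := by rw [mul_adjugate, ha, one_smul]
  calc toR h = 1 * toR h * 1 := by rw [Matrix.mul_one, Matrix.one_mul]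
    _ = (b * b.adjugate) * toR h * (a * a.adjugate) := by rw [h1, h2]
    _ = b * (b.adjugate * toR h * a) * a.adjugate := by simp only [Matrix.mul_assoc]

theorem conj_le {R Y : ℝ} (a b G : MR) (hR : 0 ≤ R) (hY : 0 ≤ Y) (ha : ∀ i j, |a i j| ≤ R)
    (hb : ∀ i j, |b i j| ≤ R) (hG : ∀ i j, |G i j| ≤ Y) (i j : Fin 2) :
    |(b * G * a.adjugate) i j| ≤ 4 * R ^ 2 * Y := by
  have hadj : ∀ p q, |a.adjugate p q| ≤ R := by
    intro p q
    fin_cases p <;> fin_cases q
    · simpa [adjugate_fin_two] using ha 1 1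
    · simpa [adjugate_fin_two] using ha 0 1
    · simpa [adjugate_fin_two] using ha 1 0
    · simpa [adjugate_fin_two] using ha 0 0
  have h3 : ∀ p q r t, |b p q * G q r * a.adjugate r t| ≤ R ^ 2 * Y := by
    intro p q r t
    rw [abs_mul, abs_mul]
    have e1 : |b p q| * |G q r| ≤ R * Y := mul_le_mul (hb p q) (hG q r) (abs_nonneg _) hR
    have e2 : |b p q| * |G q r| * |a.adjugate r t| ≤ R * Y * R :=
      mul_le_mul e1 (hadj r t) (abs_nonneg _) (mul_nonneg hR hY)
    calc _ ≤ R * Y * R := e2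
      _ = R ^ 2 * Y := by ring
  simp only [Matrix.mul_apply, Fin.sum_univ_two]
  have e := h3 i 0 0 j
  have e' := h3 i 1 0 j
  have e'' := h3 i 0 1 j
  have e''' := h3 i 1 1 j
  rw [add_mul, add_mul]
  refine (abs_add_le _ _).trans ?_
  refine (add_le_add (abs_add_le _ _) (abs_add_le _ _)).trans ?_
  linarith

/-- the box of matrices -/
def Box (Z : ℕ) : Finset MZ :=
  (Finset.univ : Finset (Fin 2 → Fin 2 → Fin (2 * Z + 1))).image
    (fun f => Matrix.of (fun i j => ((f i j : ℕ) : ℤ) - (Z : ℤ)))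

theorem card_Box (Z : ℕ) : (Box Z).card ≤ (2 * Z + 1) ^ 4 := by
  refine Finset.card_image_le.trans ?_
  rw [Finset.card_univ, Fintype.card_fun, Fintype.card_fun, Fintype.card_fin, Fintype.card_fin]
  exact le_of_eq (by ring)

theorem mem_Box (Z : ℕ) (h : MZ) (hh : ∀ i j, |h i j| ≤ (Z : ℤ)) : h ∈ Box Z := by
  unfold Box
  rw [Finset.mem_image]
  have hb : ∀ i j, -(Z : ℤ) ≤ h i j ∧ h i j ≤ Z := fun i j => abs_le.1 (hh i j)
  refine ⟨fun i j => ⟨(h i j + Z).toNat, ?_⟩, Finset.mem_univ _, ?_⟩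
  · have := hb i j
    omega
  · ext i j
    have := hb i j
    simp only [Matrix.of_apply]
    omega

end HFbBAux

open HFbBAux

theorem tFbB : S_FbB := by
  intro R C B hR hC hB
  refine ⟨(9 * R ^ 2 * C * B) ^ 4, ?_, ?_⟩
  · have h1 : 1 ≤ R ^ 2 := one_le_pow₀ hR
    have h2 : 1 ≤ R ^ 2 * C := one_le_mul_of_one_le_of_one_le h1 hC
    have h3 : 1 ≤ R ^ 2 * C * B := one_le_mul_of_one_le_of_one_le h2 hB
    exact one_le_pow₀ (by nlinarith)
  intro w K a b H ha hb hw hw1 hK hH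
  obtain ⟨hda, haR⟩ := ha
  obtain ⟨hdb, hbR⟩ := hb
  have hR0 : 0 ≤ R := by linarith
  set Y : ℝ := 4 * R ^ 2 * (C * (B * K)) with hY
  have hBK : 1 ≤ B * K := one_le_mul_of_one_le_of_one_le hB hK
  have hCBK : 1 ≤ C * (B * K) := one_le_mul_of_one_le_of_one_le hC hBK
  have hR2 : 1 ≤ R ^ 2 := one_le_pow₀ hR
  have hX1 : 1 ≤ R ^ 2 * (C * (B * K)) := one_le_mul_of_one_le_of_one_le hR2 hCBK
  set Z : ℕ := ⌊Y⌋₊ with hZ
  have hsub : H ⊆ Box Z := by
    intro h hh
    obtain ⟨-, m, -, hm, -, -, n1, n2, n3, n4⟩ := hH h hh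
    have hm0 : (0 : ℝ) ≤ m := Nat.cast_nonneg m
    have hG : ∀ i j, |fr a b h i j| ≤ C * (B * K) := by
      have e1 : C * (m : ℝ) ≤ C * (B * K) := mul_le_mul_of_nonneg_left hm (by linarith)
      have e2 : C * w * (m : ℝ) ≤ C * (B * K) := by
        have : C * w * (m : ℝ) ≤ C * (m : ℝ) := by
          refine mul_le_mul_of_nonneg_right ?_ hm0
          nlinarith
        linarith
      intro i j
      fin_cases i <;> fin_cases j
      · exact n1.trans e1
      · exact n3.trans e2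
      · exact n4.trans e2
      · exact n2.trans e1
    refine mem_Box Z h fun i j => ?_
    have e0 := conj_le a b (fr a b h) hR0 (by linarith : (0 : ℝ) ≤ C * (B * K)) haR hbR hG i j
    rw [← toR_eq a b hda hdb h] at e0
    have e1 : |((h i j : ℤ) : ℝ)| ≤ Y := e0
    have e3 : ((|h i j| : ℤ) : ℝ) ≤ Y := by
      push_cast
      exact e1
    have e4 : ((|h i j|).toNat : ℝ) ≤ Y := by
      have : (((|h i j|).toNat : ℤ) : ℝ) = ((|h i j| : ℤ) : ℝ) := by
        rw [Int.toNat_of_nonneg (abs_nonneg _)]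
      rw [← this] at e3
      exact_mod_cast e3
    have e5 : (|h i j|).toNat ≤ Z := Nat.le_floor e4
    have e6 : |h i j| = ((|h i j|).toNat : ℤ) := (Int.toNat_of_nonneg (abs_nonneg _)).symm
    rw [e6]
    exact_mod_cast e5
  have hc : (H.card : ℝ) ≤ (2 * (Z : ℝ) + 1) ^ 4 := by
    have := (Finset.card_le_card hsub).trans (card_Box Z)
    exact_mod_cast this
  have hZY : (Z : ℝ) ≤ Y := Nat.floor_le (by positivity)
  refine hc.trans ?_
  have e : (2 * (Z : ℝ) + 1) ≤ 9 * R ^ 2 * C * B * K := by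
    have : 9 * R ^ 2 * C * B * K = 2 * Y + R ^ 2 * (C * (B * K)) := by rw [hY]; ring
    rw [this]
    linarith
  calc (2 * (Z : ℝ) + 1) ^ 4 ≤ (9 * R ^ 2 * C * B * K) ^ 4 := pow_le_pow_left₀ (by positivity) e 4
    _ = (9 * R ^ 2 * C * B) ^ 4 * K ^ 4 := by ring

end HSB
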