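import Pool.Agent.Lib.HS.Bd.SpecHigh

/-!
# `HS/Bd/HNu1`: the statement `S_Nu1` of `HS/Bd/SpecHigh.lean`: numbers, part one (real powers)
-/

set_option autoImplicit false

namespace HSB

open HSL Matrix

namespace HNu1Aux

/-- a constant is below a small negative power -/
theorem small_const (D : ℝ) (hD : 1 ≤ D) (w : ℝ) (hw : 0 < w) (hw1 : w ≤ (6 * D) ^ (-(1000000 : ℝ))) :
    6 * D ≤ w ^ (-(1 / 1000000) : ℝ) := by
  have hD6 : (0 : ℝ) < 6 * D := by linarith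
  have h1 : ((6 * D) ^ (-(1000000 : ℝ))) ^ (-(1 / 1000000) : ℝ) ≤ w ^ (-(1 / 1000000) : ℝ) :=
    Real.rpow_le_rpow_of_nonpos hw hw1 (by norm_num)
  rw [← Real.rpow_mul hD6.le] at h1
  norm_num at h1
  norm_num
  exact h1

theorem mono {w a b : ℝ} (hw : 0 < w) (hw1 : w ≤ 1) (h : b ≤ a) : w ^ a ≤ w ^ b :=
  Real.rpow_le_rpow_of_exponent_ge hw hw1 h

end HNu1Aux

open HNu1Aux in
theorem tNu1 : S_Nu1 := by
  intro D hD
  have hD6 : (1 : ℝ) < 6 * D := by linarith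
  have hw₁lt : (6 * D) ^ (-(1000000 : ℝ)) < 1 := Real.rpow_lt_one_of_one_lt_of_neg hD6 (by norm_num)
  refine ⟨(6 * D) ^ (-(1000000 : ℝ)), Real.rpow_pos_of_pos (by linarith) _, hw₁lt.le, ?_⟩
  intro w A hw hww₁ hA1 hA2
  have hw1 : w < 1 := lt_of_le_of_lt hww₁ hw₁lt
  have hw1' : w ≤ 1 := hw1.le
  have hsm := small_const D hD w hw hww₁
  set η : ℝ := 1 / 1000000 with hη
  have hA : 0 < A := lt_of_lt_of_le (Real.rpow_pos_of_pos hw _) hA1
  have hlogw : Real.log w < 0 := Real.log_neg hw hw1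
  obtain ⟨α, hα⟩ : ∃ α : ℝ, A = w ^ α := by
    refine ⟨Real.log A / Real.log w, ?_⟩
    rw [Real.rpow_def_of_pos hw, mul_div_cancel₀ _ hlogw.ne, Real.exp_log hA]
  have hα1 : α ≤ 19 / 25 := by
    rw [hα] at hA1
    exact (Real.rpow_le_rpow_left_iff_of_base_lt_one hw hw1).1 hA1
  have hα2 : (2 / 3 - 1 / 1000 : ℝ) ≤ α := by
    rw [hα] at hA2
    exact (Real.rpow_le_rpow_left_iff_of_base_lt_one hw hw1).1 hA2
  have hK : KA w A = w ^ (α - 749 / 500 : ℝ) := by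
    unfold KA
    rw [hα, ← Real.rpow_add hw]
    congr 1
  have hDη : D ≤ w ^ (-η) := by
    have : D ≤ 6 * D := by linarith
    exact this.trans hsm
  have h6η : 6 ≤ w ^ (-η) := by
    have : (6 : ℝ) ≤ 6 * D := by linarith
    exact this.trans hsm
  have hD0 : 0 ≤ D := by linarith
  have hpos : ∀ a : ℝ, 0 < w ^ a := fun a => Real.rpow_pos_of_pos hw a
  have hN : KA w A ^ (2 - 1 / 10000 : ℝ) * A = w ^ ((α - 749 / 500) * (2 - 1 / 10000) + α : ℝ) := by
    rw [hK, ← Real.rpow_mul hw.le]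
    conv_lhs => rw [hα]
    rw [← Real.rpow_add hw]
  have hKe : KA w A ^ (1 / 10000 : ℝ) = w ^ ((α - 749 / 500) * (1 / 10000) : ℝ) := by
    rw [hK, ← Real.rpow_mul hw.le]
  have hK2 : KA w A ^ 2 = w ^ ((α - 749 / 500) * 2 : ℝ) := by
    rw [hK, ← Real.rpow_natCast, ← Real.rpow_mul hw.le]
    norm_num
  have hK3 : KA w A ^ 3 = w ^ ((α - 749 / 500) * 3 : ℝ) := by
    rw [hK, ← Real.rpow_natCast, ← Real.rpow_mul hw.le]
    norm_num
  have hK4 : KA w A ^ 4 = w ^ ((α - 749 / 500) * 4 : ℝ) := by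
    rw [hK, ← Real.rpow_natCast, ← Real.rpow_mul hw.le]
    norm_num
  refine ⟨⟨?_, ?_⟩, ⟨?_, ?_⟩, ?_, ?_, ?_⟩
  · rw [hK]
    have := mono hw hw1' (a := (0 : ℝ)) (b := α - 749 / 500) (by linarith)
    rwa [Real.rpow_zero] at this
  · rw [hK]
    exact mono hw hw1' (by linarith)
  · rw [hK]
    calc D * w ^ (α - 749 / 500 : ℝ) ≤ w ^ (-η) * w ^ (α - 749 / 500 : ℝ) :=
          mul_le_mul_of_nonneg_right hDη (hpos _).le
      _ = w ^ (-η + (α - 749 / 500)) := by rw [← Real.rpow_add hw]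
      _ ≤ w ^ (-(9 / 10) : ℝ) := mono hw hw1' (by rw [hη]; linarith)
  · rw [hK]
    calc D * w * w ^ (α - 749 / 500 : ℝ) ≤ w ^ (-η) * w * w ^ (α - 749 / 500 : ℝ) :=
          mul_le_mul_of_nonneg_right (mul_le_mul_of_nonneg_right hDη hw.le) (hpos _).le
      _ = w ^ (-η + 1 + (α - 749 / 500)) := by
          rw [Real.rpow_add hw, Real.rpow_add hw, Real.rpow_one]
      _ ≤ w ^ (0 : ℝ) := mono hw hw1' (by rw [hη]; linarith)
      _ = 1 := Real.rpow_zero _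
  · rw [hN, hKe, hK2, hK3]
    set κ : ℝ := α - 749 / 500 with hκ
    have hκ1 : κ ≤ -(738 / 1000) := by rw [hκ]; linarith
    have hκ2 : -(8324 / 10000) ≤ κ := by rw [hκ]; linarith
    have hακ : α = κ + 749 / 500 := by rw [hκ]; ring
    -- the factor in front
    have hfac : D * (D * w ^ (-(1 / 5000) : ℝ)) ^ 4 ≤ w ^ (-η * 5 - 4 / 5000 : ℝ) := by
      calc D * (D * w ^ (-(1 / 5000) : ℝ)) ^ 4 ≤ w ^ (-η) * (w ^ (-η) * w ^ (-(1 / 5000) : ℝ)) ^ 4 := by
            apply mul_le_mul hDη _ (by positivity) (hpos _).le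
            apply pow_le_pow_left₀ (mul_nonneg hD0 (hpos _).le)
            exact mul_le_mul_of_nonneg_right hDη (hpos _).le
        _ = w ^ (-η * 5 - 4 / 5000 : ℝ) := by
            rw [← Real.rpow_add hw, ← Real.rpow_natCast (w ^ (-η + -(1 / 5000))) 4, ← Real.rpow_mul hw.le,
              ← Real.rpow_add hw]
            congr 1
            push_cast
            ring
    have hterm : ∀ e : ℝ, (κ * (2 - 1 / 10000) + α) + η ≤ (-η * 5 - 4 / 5000) + κ * (1 / 10000) + e →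
        6 * (D * (D * w ^ (-(1 / 5000) : ℝ)) ^ 4 * w ^ (κ * (1 / 10000)) * w ^ e) ≤
          w ^ (κ * (2 - 1 / 10000) + α) := by
      intro e he
      calc 6 * (D * (D * w ^ (-(1 / 5000) : ℝ)) ^ 4 * w ^ (κ * (1 / 10000)) * w ^ e)
          ≤ w ^ (-η) * (w ^ (-η * 5 - 4 / 5000 : ℝ) * w ^ (κ * (1 / 10000)) * w ^ e) := by
            apply mul_le_mul h6η _ (by positivity) (hpos _).le
            exact mul_le_mul_of_nonneg_right (mul_le_mul_of_nonneg_right hfac (hpos _).le) (hpos _).le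
        _ = w ^ (-η + ((-η * 5 - 4 / 5000) + κ * (1 / 10000) + e)) := by
            rw [← Real.rpow_add hw, ← Real.rpow_add hw, ← Real.rpow_add hw]
        _ ≤ w ^ (κ * (2 - 1 / 10000) + α) := mono hw hw1' (by linarith)
    have t1 := hterm 0 (by rw [hακ, hη]; linarith)
    have t2 := hterm (1 + κ * 2) (by rw [hακ, hη]; linarith)
    have t3 := hterm (3 / 2 + κ * 3) (by rw [hακ, hη]; linarith)
    rw [Real.rpow_zero] at t1
    rw [Real.rpow_add hw, Real.rpow_one] at t2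
    rw [Real.rpow_add hw (3 / 2)] at t3
    nlinarith [t1, t2, t3]
  · rw [hN]
    have := mono hw hw1' (a := (0 : ℝ)) (b := (α - 749 / 500) * (2 - 1 / 10000) + α) (by linarith)
    rwa [Real.rpow_zero] at this
  · rw [hN, hK4]
    calc D * w ^ ((α - 749 / 500) * 4 : ℝ) ≤ w ^ (-η) * w ^ ((α - 749 / 500) * 4 : ℝ) :=
          mul_le_mul_of_nonneg_right hDη (hpos _).le
      _ = w ^ (-η + (α - 749 / 500) * 4) := by rw [← Real.rpow_add hw]
      _ ≤ w ^ (-4 + ((α - 749 / 500) * (2 - 1 / 10000) + α) : ℝ) := mono hw hw1' (by rw [hη]; linarith)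
      _ = w ^ (-4 : ℝ) * w ^ ((α - 749 / 500) * (2 - 1 / 10000) + α : ℝ) := by rw [← Real.rpow_add hw]

end HSB
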