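import Pool.Agent.Lib.HS.Bd.SpecHigh

/-!
PROJECT H*, high bands, counting part: S_Nu2 (numbers, part two).
-/

set_option autoImplicit false

namespace HSB

open HSL Matrix

namespace HNu2Aux

/-- constants are small powers -/
theorem small (D η : ℝ) (hD : 1 ≤ D) (hη : 0 < η) : ∃ w₁ : ℝ, 0 < w₁ ∧ w₁ ≤ 1 ∧
    ∀ w : ℝ, 0 < w → w ≤ w₁ → D ≤ w ^ (-η) := by
  have hD0 : 0 < D := by linarith
  refine ⟨D ^ (-(1 / η)), by positivity, ?_, ?_⟩
  · have h1 : 0 < 1 / η := by positivity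
    exact Real.rpow_le_one_of_one_le_of_nonpos hD (by linarith)
  · intro w hw hw1
    have h1 : (D ^ (-(1 / η))) ^ (-η) ≤ w ^ (-η) :=
      Real.rpow_le_rpow_of_nonpos hw hw1 (by linarith)
    rw [← Real.rpow_mul hD0.le] at h1
    have e : -(1 / η) * -η = 1 := by field_simp
    rw [e, Real.rpow_one] at h1
    exact h1

/-- comparison of powers of `w` -/
theorem cmp (w x y : ℝ) (hw : 0 < w) (hw1 : w ≤ 1) (h : y ≤ x) : w ^ x ≤ w ^ y :=
  Real.rpow_le_rpow_of_exponent_ge hw hw1 h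

end HNu2Aux

open HNu2Aux

theorem tNu2 : S_Nu2 := by
  intro D hD
  have hD3 : (1 : ℝ) ≤ 4 * D ^ 3 := by
    have := one_le_pow₀ hD (n := 3)
    linarith
  obtain ⟨w₁, hw₁, hw₁1, hsm⟩ := small (4 * D ^ 3) (1 / 4000) hD3 (by norm_num)
  refine ⟨w₁, hw₁, hw₁1, ?_⟩
  intro w A lam hw hww hA1 hA2 hlam
  have hw1 : w ≤ 1 := hww.trans hw₁1
  have hDw := hsm w hw hww
  have hD0 : 0 < D := by linarith
  have hA0 : 0 < A := lt_of_lt_of_le (by positivity) hA1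
  have hlam0 : 0 < lam := by linarith
  have hD2' : D ^ 2 ≤ 4 * D ^ 3 := by nlinarith [sq_nonneg D]
  have hD1' : 4 * D ≤ 4 * D ^ 3 := by nlinarith [sq_nonneg D, mul_nonneg hD0.le hD0.le]
  have hD3' : D ^ 3 ≤ 4 * D ^ 3 := by nlinarith [pow_pos hD0 3]
  set K := KA w A with hKdef
  have hK0 : 0 < K := by
    rw [hKdef, KA]
    positivity
  -- upper bound for K
  have hKu : K ≤ w ^ (-(21 / 25) : ℝ) := by
    rw [hKdef, KA]
    calc A * w ^ (-(749 / 500) : ℝ) ≤ w ^ (2 / 3 - 1 / 1000 : ℝ) * w ^ (-(749 / 500) : ℝ) :=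
          mul_le_mul_of_nonneg_right hA2 (by positivity)
      _ = w ^ ((2 / 3 - 1 / 1000 : ℝ) + (-(749 / 500) : ℝ)) := (Real.rpow_add hw _ _).symm
      _ ≤ w ^ (-(21 / 25) : ℝ) := cmp w _ _ hw hw1 (by norm_num)
  have hKe : K ^ (1 / 5000 : ℝ) ≤ w ^ (-(21 / 125000) : ℝ) := by
    have h := Real.rpow_le_rpow hK0.le hKu (by norm_num : (0 : ℝ) ≤ 1 / 5000)
    rw [← Real.rpow_mul hw.le] at h
    have e : (-(21 / 25) : ℝ) * (1 / 5000) = -(21 / 125000) := by norm_num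
    rwa [e] at h
  -- lower bound for K A
  have hKA : w ^ (11 / 500 : ℝ) ≤ K * A := by
    have h1 : w ^ (38 / 25 : ℝ) ≤ A * A := by
      have h2 : w ^ (38 / 25 : ℝ) = w ^ (19 / 25 : ℝ) * w ^ (19 / 25 : ℝ) := by
        rw [← Real.rpow_add hw]
        congr 1
        norm_num
      rw [h2]
      exact mul_le_mul hA1 hA1 (by positivity) hA0.le
    have h3 : K * A = A * A * w ^ (-(749 / 500) : ℝ) := by
      rw [hKdef, KA]
      ring
    rw [h3]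
    calc w ^ (11 / 500 : ℝ) = w ^ (38 / 25 : ℝ) * w ^ (-(749 / 500) : ℝ) := by
          rw [← Real.rpow_add hw]
          congr 1
          norm_num
      _ ≤ A * A * w ^ (-(749 / 500) : ℝ) := mul_le_mul_of_nonneg_right h1 (by positivity)
  have hKAinv : (K * A)⁻¹ ≤ w ^ (-(11 / 500) : ℝ) := by
    rw [Real.rpow_neg hw.le]
    exact inv_anti₀ (by positivity) hKA
  -- the two quotients
  have hP : 0 < K ^ (2 - 1 / 10000 : ℝ) := by positivity
  have e1 : K ^ (1 + 1 / 10000 : ℝ) * K = K ^ (2 - 1 / 10000 : ℝ) * K ^ (1 / 5000 : ℝ) := by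
    nth_rewrite 2 [← Real.rpow_one K]
    rw [← Real.rpow_add hK0, ← Real.rpow_add hK0]
    congr 1
    norm_num
  have e2 : K ^ (2 + 1 / 10000 : ℝ) = K ^ (2 - 1 / 10000 : ℝ) * K ^ (1 / 5000 : ℝ) := by
    rw [← Real.rpow_add hK0]
    congr 1
    norm_num
  refine ⟨?_, ?_, ?_⟩
  · have h1 : (D * w ^ (-(1 / 5000) : ℝ)) * (D * (D * w ^ (-(1 / 5000) : ℝ)) *
        K ^ (1 + 1 / 10000 : ℝ) / (lam * (K ^ (2 - 1 / 10000 : ℝ) * A))) =
        (D ^ 3 * (w ^ (-(1 / 5000) : ℝ) * w ^ (-(1 / 5000) : ℝ)) * K ^ (1 / 5000 : ℝ) *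
          (K * A)⁻¹) / lam := by
      have e3 : K ^ (1 + 1 / 10000 : ℝ) = K ^ (2 - 1 / 10000 : ℝ) * K ^ (1 / 5000 : ℝ) / K := by
        rw [eq_div_iff hK0.ne', e1]
      rw [e3]
      field_simp
    rw [h1]
    refine div_le_div_of_nonneg_right ?_ hlam0.le
    calc D ^ 3 * (w ^ (-(1 / 5000) : ℝ) * w ^ (-(1 / 5000) : ℝ)) * K ^ (1 / 5000 : ℝ) * (K * A)⁻¹
        ≤ w ^ (-(1 / 4000) : ℝ) * (w ^ (-(1 / 5000) : ℝ) * w ^ (-(1 / 5000) : ℝ)) *
            w ^ (-(21 / 125000) : ℝ) * w ^ (-(11 / 500) : ℝ) := by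
          gcongr
          exact hD3'.trans hDw
      _ = w ^ (-(1 / 4000) + (-(1 / 5000) + -(1 / 5000)) + -(21 / 125000) + -(11 / 500) : ℝ) := by
          rw [Real.rpow_add hw, Real.rpow_add hw, Real.rpow_add hw, Real.rpow_add hw]
      _ ≤ w ^ (-(23 / 1000) : ℝ) := cmp w _ _ hw hw1 (by norm_num)
  · have h1 : D * (D * w ^ (-(1 / 5000) : ℝ)) * K ^ (2 + 1 / 10000 : ℝ) /
        (lam * (K ^ (2 - 1 / 10000 : ℝ) * A)) =
        (D ^ 2 * w ^ (-(1 / 5000) : ℝ) * K ^ (1 / 5000 : ℝ)) * (lam * A)⁻¹ := by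
      rw [e2]
      field_simp
    rw [h1, Real.mul_rpow (by positivity) (by positivity), Real.inv_rpow (by positivity),
      ← Real.rpow_neg (by positivity), ← mul_assoc]
    refine mul_le_mul_of_nonneg_right ?_ (by positivity)
    have h2 : D ^ 2 * w ^ (-(1 / 5000) : ℝ) * K ^ (1 / 5000 : ℝ) ≤ w ^ (-(1 / 1500) : ℝ) := by
      calc D ^ 2 * w ^ (-(1 / 5000) : ℝ) * K ^ (1 / 5000 : ℝ)
          ≤ w ^ (-(1 / 4000) : ℝ) * w ^ (-(1 / 5000) : ℝ) * w ^ (-(21 / 125000) : ℝ) := by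
            gcongr
            exact hD2'.trans hDw
        _ = w ^ (-(1 / 4000) + -(1 / 5000) + -(21 / 125000) : ℝ) := by
            rw [Real.rpow_add hw, Real.rpow_add hw]
        _ ≤ w ^ (-(1 / 1500) : ℝ) := cmp w _ _ hw hw1 (by norm_num)
    have h3 := Real.rpow_le_rpow (by positivity) h2 (by norm_num : (0 : ℝ) ≤ 3 / 2)
    rw [← Real.rpow_mul hw.le] at h3
    calc w * (D ^ 2 * w ^ (-(1 / 5000) : ℝ) * K ^ (1 / 5000 : ℝ)) ^ (3 / 2 : ℝ)
        ≤ w * w ^ (-(1 / 1500) * (3 / 2) : ℝ) := mul_le_mul_of_nonneg_left h3 hw.le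
      _ = w ^ (999 / 1000 : ℝ) := by
          nth_rewrite 1 [← Real.rpow_one w]
          rw [← Real.rpow_add hw]
          congr 1
          norm_num
  · have h1 : (lam * A) ^ (-(3 / 2) : ℝ) ≤ 4 * w ^ (-(57 / 50) : ℝ) := by
      have h2 : (1 / 2) * w ^ (19 / 25 : ℝ) ≤ lam * A :=
        mul_le_mul hlam hA1 (by positivity) hlam0.le
      have h3 := Real.rpow_le_rpow_of_nonpos (by positivity) h2 (by norm_num : (-(3 / 2) : ℝ) ≤ 0)
      rw [Real.mul_rpow (x := 1 / 2) (by norm_num) (by positivity), ← Real.rpow_mul hw.le] at h3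
      have e4 : (19 / 25 : ℝ) * (-(3 / 2)) = -(57 / 50) := by norm_num
      rw [e4] at h3
      have h4 : ((1 / 2 : ℝ)) ^ (-(3 / 2) : ℝ) ≤ 4 := by
        have h5 : ((1 / 2 : ℝ)) ^ (-(3 / 2) : ℝ) ≤ (1 / 2 : ℝ) ^ (-2 : ℝ) :=
          Real.rpow_le_rpow_of_exponent_ge (by norm_num) (by norm_num) (by norm_num)
        refine h5.trans (le_of_eq ?_)
        rw [Real.rpow_neg (by norm_num), show (2 : ℝ) = ((2 : ℕ) : ℝ) by norm_num,
          Real.rpow_natCast]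
        norm_num
      exact h3.trans (mul_le_mul_of_nonneg_right h4 (by positivity))
    calc D * (w ^ (999 / 1000 : ℝ) * (lam * A) ^ (-(3 / 2) : ℝ))
        ≤ D * (w ^ (999 / 1000 : ℝ) * (4 * w ^ (-(57 / 50) : ℝ))) := by gcongr
      _ = 4 * D * (w ^ (999 / 1000 : ℝ) * w ^ (-(57 / 50) : ℝ)) := by ring
      _ ≤ w ^ (-(1 / 4000) : ℝ) * (w ^ (999 / 1000 : ℝ) * w ^ (-(57 / 50) : ℝ)) :=
          mul_le_mul_of_nonneg_right (hD1'.trans hDw) (by positivity)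
      _ = w ^ (-(1 / 4000) + (999 / 1000 + -(57 / 50)) : ℝ) := by
          rw [Real.rpow_add hw, Real.rpow_add hw]
      _ ≤ w ^ (-(71 / 500) : ℝ) := cmp w _ _ hw hw1 (by norm_num)

end HSB
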