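import Pool.Agent.Lib.HS.Bd.SpecHigh

/-!
PROJECT H* (MP_a54f13_nt), high bands: numbers, part three (`S_Nu3`), helper73.

Everything is a linear inequality between the logarithms `t = - log w`, `a = - log A`, `log lam`, `log N`, `log D` and
`log (1 + 4 t) ≤ t / 1800 + const`.
-/

set_option autoImplicit false

namespace HSB

open HSL Matrix

namespace HNu3Aux

lemma logL {t : ℝ} (ht : 0 ≤ t) : Real.log (1 + 4 * t) ≤ (1 + 4 * t) / 7200 - 1 + Real.log 7200 := by
  have h1 : 0 < 1 + 4 * t := by linarith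
  have h2 := Real.log_le_sub_one_of_pos (div_pos h1 (by norm_num : (0 : ℝ) < 7200))
  rw [Real.log_div h1.ne' (by norm_num)] at h2
  linarith

lemma logM {D w A lam : ℝ} (hD : 0 < D) (hw : 0 < w) (hA : 0 < A) (hl : 0 < lam) (a b c : ℝ) :
    Real.log (D * (D * (w ^ a * (lam * A) ^ b)) ^ c) =
      Real.log D + c * (Real.log D + (a * Real.log w + b * (Real.log lam + Real.log A))) := by
  have h1 : 0 < w ^ a := Real.rpow_pos_of_pos hw a
  have h2 : 0 < lam * A := mul_pos hl hA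
  have h3 : 0 < (lam * A) ^ b := Real.rpow_pos_of_pos h2 b
  have h4 : 0 < w ^ a * (lam * A) ^ b := mul_pos h1 h3
  have h5 : 0 < D * (w ^ a * (lam * A) ^ b) := mul_pos hD h4
  rw [Real.log_mul hD.ne' (Real.rpow_pos_of_pos h5 c).ne', Real.log_rpow h5, Real.log_mul hD.ne' h4.ne',
    Real.log_mul h1.ne' h3.ne', Real.log_rpow hw, Real.log_rpow h2, Real.log_mul hl.ne' hA.ne']

lemma logR {D L lam N : ℝ} (hD : 0 < D) (hL : 0 < L) (hl : 0 < lam) (hN : 0 < N) (k m : ℕ) :
    Real.log ((1 / (D * L * lam)) ^ k * N ^ m) =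
      - (k : ℝ) * (Real.log D + Real.log L + Real.log lam) + m * Real.log N := by
  have h1 : 0 < D * L * lam := mul_pos (mul_pos hD hL) hl
  have h2 : 0 < 1 / (D * L * lam) := one_div_pos.mpr h1
  rw [Real.log_mul (pow_pos h2 k).ne' (pow_pos hN m).ne', Real.log_pow, Real.log_pow, one_div, Real.log_inv,
    Real.log_mul (mul_pos hD hL).ne' hl.ne', Real.log_mul hD.ne' hL.ne']
  ring

end HNu3Aux

open HNu3Aux in
theorem tNu3 : S_Nu3 := by
  intro D hD
  have hD0 : 0 < D := by linarith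
  have hd : 0 ≤ Real.log D := Real.log_nonneg hD
  have h72 : 0 ≤ Real.log 7200 := Real.log_nonneg (by norm_num)
  set t₀ : ℝ := 200 * (31 * Real.log D + 9 * Real.log 7200 + 20) with ht₀
  have ht₀0 : 0 ≤ t₀ := by rw [ht₀]; positivity
  refine ⟨Real.exp (-t₀), Real.exp_pos _, Real.exp_le_one_iff.mpr (by linarith), ?_⟩
  intro w A lam N hw hw1 hA1 hA2 hlam hN
  -- logarithms
  have hlw : Real.log w ≤ -t₀ := by
    have := Real.log_le_log hw hw1
    rwa [Real.log_exp] at this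
  obtain ⟨t, ht⟩ : ∃ t : ℝ, t = - Real.log w := ⟨_, rfl⟩
  have hwt : Real.log w = - t := by rw [ht]; ring
  have htt : t₀ ≤ t := by rw [ht]; linarith
  have ht0 : 0 ≤ t := ht₀0.trans htt
  have hA0 : 0 < A := lt_of_lt_of_le (Real.rpow_pos_of_pos hw _) hA1
  have hl0 : 0 < lam := by linarith
  have hN0 : 0 < N := by
    have h1 : 0 < D * A ^ 2 * N := lt_of_lt_of_le (Real.rpow_pos_of_pos hw _) hN
    exact (mul_pos_iff_of_pos_left (by positivity)).mp h1
  have hLe : Real.log (w ^ (-4 : ℝ)) = 4 * t := by rw [Real.log_rpow hw, hwt]; ring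
  rw [hLe]
  have hL0 : 0 < 1 + 4 * t := by linarith
  have hL := logL ht0
  obtain ⟨Λ, hΛ⟩ : ∃ Λ : ℝ, Λ = Real.log (1 + 4 * t) := ⟨_, rfl⟩
  rw [← hΛ] at hL
  have hLam0 : 0 ≤ Λ := by rw [hΛ]; exact Real.log_nonneg (by linarith)
  -- small quantities
  have hsm : 31 * Real.log D + 9 * Λ + 17 ≤ t / 100 := by
    have : 200 * (31 * Real.log D + 9 * Real.log 7200 + 20) ≤ t := htt
    linarith
  -- the logarithm of A
  have ha1 : -(19 / 25 * t) ≤ Real.log A := by
    have := Real.log_le_log (Real.rpow_pos_of_pos hw _) hA1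
    rw [Real.log_rpow hw, hwt] at this
    linarith
  have ha2 : Real.log A ≤ -((2 / 3 - 1 / 1000) * t) := by
    have := Real.log_le_log hA0 hA2
    rw [Real.log_rpow hw, hwt] at this
    linarith
  -- the logarithm of lam
  have hl1 : -1 ≤ Real.log lam := by
    have h1 := Real.log_le_log (by norm_num : (0 : ℝ) < 1 / 2) hlam
    have h2 : Real.log (1 / 2) = - Real.log 2 := by rw [one_div, Real.log_inv]
    have h3 : Real.log 2 ≤ 1 := by
      have := Real.log_le_sub_one_of_pos (by norm_num : (0 : ℝ) < 2)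
      linarith
    linarith
  -- the logarithm of N
  have hn : -(1001 / 1000 * t) - Real.log D - 2 * Real.log A ≤ Real.log N := by
    have h1 := Real.log_le_log (Real.rpow_pos_of_pos hw _) hN
    rw [Real.log_rpow hw, hwt, Real.log_mul (by positivity) hN0.ne', Real.log_mul hD0.ne' (by positivity),
      Real.log_pow] at h1
    push_cast at h1
    linarith
  refine ⟨?_, ?_, ?_⟩
  · intro hlam2
    have h3 : Real.log lam ≤ Real.log D + 23 / 1000 * t := by
      have h1 := Real.log_le_log hl0 hlam2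
      rw [Real.log_mul hD0.ne' (Real.rpow_pos_of_pos hw _).ne', Real.log_rpow hw, hwt] at h1
      linarith
    have hpos : 0 < w ^ (-(1 / 10) : ℝ) := Real.rpow_pos_of_pos hw _
    rw [← Real.log_lt_log_iff (by positivity) hN0, Real.log_mul (by positivity) hpos.ne',
      Real.log_mul (by positivity) hl0.ne', Real.log_mul hD0.ne' hL0.ne', Real.log_rpow hw, hwt, ← hΛ]
    linarith
  · have hpos1 : 0 < D * (D * (w ^ (999 / 1000 : ℝ) * (lam * A) ^ (-(3 / 2) : ℝ))) ^ (16 + 1 / 10000 : ℝ) := by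
      have h1 : 0 < w ^ (999 / 1000 : ℝ) := Real.rpow_pos_of_pos hw _
      have h2 : 0 < (lam * A) ^ (-(3 / 2) : ℝ) := Real.rpow_pos_of_pos (mul_pos hl0 hA0) _
      have h3 : 0 < (D * (w ^ (999 / 1000 : ℝ) * (lam * A) ^ (-(3 / 2) : ℝ))) ^ (16 + 1 / 10000 : ℝ) :=
        Real.rpow_pos_of_pos (by positivity) _
      positivity
    have hpos2 : 0 < (1 / (D * (1 + 4 * t) * lam)) ^ 8 * N ^ 5 := by positivity
    rw [← Real.log_lt_log_iff hpos1 hpos2, logM hD0 hw hA0 hl0, logR hD0 hL0 hl0 hN0, hwt, ← hΛ]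
    push_cast
    nlinarith [hn, hl1, ha1, hsm, hd, hLam0, ht0]
  · have hpos1 : 0 < D * (D * (w ^ (999 / 1000 : ℝ) * (lam * A) ^ (-(3 / 2) : ℝ))) ^ (8 + 1 / 10000 : ℝ) := by
      have h1 : 0 < w ^ (999 / 1000 : ℝ) := Real.rpow_pos_of_pos hw _
      have h2 : 0 < (lam * A) ^ (-(3 / 2) : ℝ) := Real.rpow_pos_of_pos (mul_pos hl0 hA0) _
      have h3 : 0 < (D * (w ^ (999 / 1000 : ℝ) * (lam * A) ^ (-(3 / 2) : ℝ))) ^ (8 + 1 / 10000 : ℝ) :=
        Real.rpow_pos_of_pos (by positivity) _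
      positivity
    have hpos3 : 0 < w ^ (-(7 / 100) : ℝ) := Real.rpow_pos_of_pos hw _
    have hpos2 : 0 < (1 / (D * (1 + 4 * t) * lam)) ^ 3 * N ^ 2 := by positivity
    rw [← Real.log_lt_log_iff hpos1 (by positivity), logM hD0 hw hA0 hl0,
      Real.log_mul hpos2.ne' (by positivity), logR hD0 hL0 hl0 hN0, Real.log_pow, Real.log_rpow hw, hwt, ← hΛ]
    push_cast
    nlinarith [hn, hl1, ha1, hsm, hd, hLam0, ht0]

end HSB
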