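import Pool.Agent.Lib.HS.Bd.SpecHigh

set_option autoImplicit false

/-!
# Package `HS`, high bands: Nu4, numbers, part four (helper77)

`E = D + 231`, `w₁ = E^(-10000)`, so `D ≤ E ≤ w^(-1/10000)` for `w ≤ w₁`; all quantities are powers
of `w`, the exponents are compared.
-/

namespace HSB

open HSL Matrix

namespace HNu4Aux

lemma pow_rpow {w : ℝ} (hw : 0 < w) (a : ℝ) (n : ℕ) : (w ^ a) ^ n = w ^ (a * n) := by
  rw [Real.rpow_mul hw.le, Real.rpow_natCast]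

lemma E_le {w E : ℝ} (hE : 1 ≤ E) (hw : 0 < w) (hw1 : w ≤ E ^ (-10000 : ℝ)) :
    E ≤ w ^ (-(1 / 10000) : ℝ) := by
  have hE0 : (0 : ℝ) ≤ E := by linarith
  have h1 : (E ^ (-10000 : ℝ)) ^ (-(1 / 10000) : ℝ) = E := by
    rw [← Real.rpow_mul hE0]
    norm_num
  calc E = (E ^ (-10000 : ℝ)) ^ (-(1 / 10000) : ℝ) := h1.symm
    _ ≤ w ^ (-(1 / 10000) : ℝ) := Real.rpow_le_rpow_of_nonpos hw hw1 (by norm_num)

/-- the logarithm -/
lemma log_le {w D : ℝ} (hD : 1 ≤ D) (hw : 0 < w) (hw1 : w ≤ 1) :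
    1 + Real.log (D * w ^ (-(23 / 1000) : ℝ)) ≤ (D + 231) * w ^ (-(1 / 10000) : ℝ) := by
  have hD0 : (0 : ℝ) < D := by linarith
  have h1 : Real.log (D * w ^ (-(23 / 1000) : ℝ)) = Real.log D + (-(23 / 1000)) * Real.log w := by
    rw [Real.log_mul hD0.ne' (Real.rpow_pos_of_pos hw _).ne', Real.log_rpow hw]
  have h2 : Real.log D ≤ D := by
    have := Real.log_le_sub_one_of_pos hD0
    linarith
  have h3 : Real.log w⁻¹ ≤ (w⁻¹) ^ (1 / 10000 : ℝ) / (1 / 10000 : ℝ) :=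
    Real.log_le_rpow_div (inv_nonneg.2 hw.le) (by norm_num)
  rw [Real.log_inv, Real.inv_rpow hw.le, ← Real.rpow_neg hw.le] at h3
  have h4 : (1 : ℝ) ≤ w ^ (-(1 / 10000) : ℝ) :=
    Real.one_le_rpow_of_pos_of_le_one_of_nonpos hw hw1 (by norm_num)
  rw [h1]
  nlinarith

end HNu4Aux

open HNu4Aux in
theorem tNu4 : S_Nu4 := by
  intro D hD
  have hE1 : (1 : ℝ) ≤ D + 231 := by linarith
  have hE0 : (0 : ℝ) < D + 231 := by linarith
  refine ⟨(D + 231) ^ (-10000 : ℝ), Real.rpow_pos_of_pos hE0 _,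
    Real.rpow_le_one_of_one_le_of_nonpos hE1 (by norm_num), ?_⟩
  intro w hw hw1
  have hwle : w ≤ 1 := hw1.trans (Real.rpow_le_one_of_one_le_of_nonpos hE1 (by norm_num))
  have hE := E_le hE1 hw hw1
  have hD' : D ≤ w ^ (-(1 / 10000) : ℝ) := by linarith
  have hD0 : (0 : ℝ) < D := by linarith
  have hlog := log_le hD hw hwle
  -- comparison of exponents
  have cmp : ∀ a b : ℝ, b ≤ a → w ^ a ≤ w ^ b := fun a b h =>
    Real.rpow_le_rpow_of_exponent_ge hw hwle h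
  have pos : ∀ a : ℝ, 0 < w ^ a := fun a => Real.rpow_pos_of_pos hw a
  have add : ∀ a b : ℝ, w ^ a * w ^ b = w ^ (a + b) := fun a b => (Real.rpow_add hw a b).symm
  have one : w = w ^ (1 : ℝ) := (Real.rpow_one w).symm
  have key : ∀ a : ℝ, D * w ^ a ≤ w ^ (a - 1 / 10000) := by
    intro a
    calc D * w ^ a ≤ w ^ (-(1 / 10000) : ℝ) * w ^ a :=
          mul_le_mul_of_nonneg_right hD' (pos a).le
      _ = w ^ (a - 1 / 10000) := by rw [add]; congr 1; ring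
  have key0 : ∀ a : ℝ, 1 / 10000 ≤ a → D * w ^ a ≤ 1 := by
    intro a ha
    calc D * w ^ a ≤ w ^ (a - 1 / 10000) := key a
      _ ≤ w ^ (0 : ℝ) := cmp _ _ (by linarith)
      _ = 1 := Real.rpow_zero w
  have hx : D * w ^ (-(23 / 1000) : ℝ) ≤ w ^ (-(231 / 10000) : ℝ) := by
    refine (key _).trans (le_of_eq ?_)
    congr 1
    norm_num
  have hx1 : 1 ≤ D * w ^ (-(23 / 1000) : ℝ) := by
    have h4 : (1 : ℝ) ≤ w ^ (-(23 / 1000) : ℝ) :=
      Real.one_le_rpow_of_pos_of_le_one_of_nonpos hw hwle (by norm_num)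
    nlinarith
  have hx0 : 0 ≤ D * w ^ (-(23 / 1000) : ℝ) := by linarith
  refine ⟨?_, ?_, ?_, ?_, ?_, ?_, ?_⟩
  · rw [pow_rpow hw]
    calc D * w * w ^ (-(71 / 500) * ((6 : ℕ) : ℝ)) = D * (w ^ (1 : ℝ) * w ^ (-(71 / 500) * ((6 : ℕ) : ℝ))) := by
          rw [Real.rpow_one]; ring
      _ = D * w ^ (1 + -(71 / 500) * ((6 : ℕ) : ℝ)) := by rw [add]
      _ ≤ 1 := key0 _ (by norm_num)
  · calc D * w * (D * w ^ (-(23 / 1000) : ℝ)) ^ 2 ≤ D * w * (w ^ (-(231 / 10000) : ℝ)) ^ 2 := by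
          apply mul_le_mul_of_nonneg_left _ (by positivity)
          exact pow_le_pow_left₀ hx0 hx 2
      _ = D * (w ^ (1 : ℝ) * w ^ (-(231 / 10000) * ((2 : ℕ) : ℝ))) := by
          rw [pow_rpow hw, Real.rpow_one]; ring
      _ = D * w ^ (1 + -(231 / 10000) * ((2 : ℕ) : ℝ)) := by rw [add]
      _ ≤ 1 := key0 _ (by norm_num)
  · have hl0 : 0 ≤ 1 + Real.log (D * w ^ (-(23 / 1000) : ℝ)) := by
      have := Real.log_nonneg hx1
      linarith
    have hl : 1 + Real.log (D * w ^ (-(23 / 1000) : ℝ)) ≤ w ^ (-(2 / 10000) : ℝ) := by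
      refine hlog.trans ?_
      calc (D + 231) * w ^ (-(1 / 10000) : ℝ) ≤ w ^ (-(1 / 10000) : ℝ) * w ^ (-(1 / 10000) : ℝ) :=
            mul_le_mul_of_nonneg_right hE (pos _).le
        _ = w ^ (-(2 / 10000) : ℝ) := by rw [add]; congr 1; norm_num
    calc D * (D * w ^ (-(23 / 1000) : ℝ)) ^ 4 * (1 + Real.log (D * w ^ (-(23 / 1000) : ℝ))) ^ 2
        ≤ w ^ (-(1 / 10000) : ℝ) * (w ^ (-(231 / 10000) : ℝ)) ^ 4 * (w ^ (-(2 / 10000) : ℝ)) ^ 2 := by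
          apply mul_le_mul _ (pow_le_pow_left₀ hl0 hl 2) (by positivity) (by positivity)
          exact mul_le_mul hD' (pow_le_pow_left₀ hx0 hx 4) (by positivity) (pos _).le
      _ = w ^ (-(1 / 10000) + -(231 / 10000) * ((4 : ℕ) : ℝ) + -(2 / 10000) * ((2 : ℕ) : ℝ)) := by
          rw [pow_rpow hw, pow_rpow hw, add, add]
      _ ≤ w ^ (-(1 / 10) : ℝ) := cmp _ _ (by norm_num)
  · exact (key _).trans (cmp _ _ (by norm_num))
  · calc D * (w * w ^ (-(7 / 100) : ℝ)) = D * (w ^ (1 : ℝ) * w ^ (-(7 / 100) : ℝ)) := by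
          rw [Real.rpow_one]
      _ = D * w ^ (1 + -(7 / 100) : ℝ) := by rw [add]
      _ ≤ _ := (key _).trans (cmp _ _ (by norm_num))
  · calc D * (w * w ^ (-(71 / 500) : ℝ)) = D * (w ^ (1 : ℝ) * w ^ (-(71 / 500) : ℝ)) := by
          rw [Real.rpow_one]
      _ = D * w ^ (1 + -(71 / 500) : ℝ) := by rw [add]
      _ ≤ _ := (key _).trans (cmp _ _ (by norm_num))
  · rw [Real.sqrt_eq_rpow, ← Real.rpow_mul hw.le]
    exact cmp _ _ (by norm_num)

end HSB
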