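import Pool.Agent.Lib.HS.Bd.SpecHigh

/-!
# Package `HS`, high bands: dyadic pigeonhole (`S_Pig`)
-/

set_option autoImplicit false

namespace HSB

open HSL Matrix

namespace HPigAux

open Classical in
lemma card_le_sum {ι : Type} (V : Finset ι) (T : Finset (ι × ι × MZ)) (hT : ∀ t ∈ T, t.1 ∈ V ∧ t.2.1 ∈ V) :
    (T.card : ℝ) ≤ ∑ p ∈ V ×ˢ V, ((fb T p).card : ℝ) := by
  have h1 : T.card ≤ ∑ p ∈ V ×ˢ V, (fb T p).card := by
    have h2 : T ⊆ (V ×ˢ V).biUnion (fun p => (fb T p).image (fun h => (p.1, p.2, h))) := by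
      intro t ht
      rw [Finset.mem_biUnion]
      refine ⟨(t.1, t.2.1), Finset.mem_product.2 (hT t ht), ?_⟩
      rw [Finset.mem_image]
      refine ⟨t.2.2, ?_, rfl⟩
      unfold fb
      rw [Finset.mem_image]
      exact ⟨t, Finset.mem_filter.2 ⟨ht, rfl, rfl⟩, rfl⟩
    refine (Finset.card_le_card h2).trans (Finset.card_biUnion_le.trans ?_)
    exact Finset.sum_le_sum fun p _ => Finset.card_image_le
  exact_mod_cast h1

/-- abstract form -/
lemma pig {κ : Type} (G : Finset κ) (c : κ → ℝ) (N₀ X S : ℝ) (hN : 0 < N₀) (hX : 1 ≤ X)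
    (hlo : ∀ p ∈ G, N₀ / 2 ≤ c p) (hhi : ∀ p ∈ G, c p ≤ X * N₀) (hS : S ≤ ∑ p ∈ G, c p) :
    ∃ (lam : ℝ) (E : Finset κ), 1 / 2 ≤ lam ∧ (∀ p ∈ E, p ∈ G ∧ lam * N₀ ≤ c p) ∧
      S ≤ 4 * (1 + Real.log X) * lam * N₀ * (E.card : ℝ) := by
  classical
  have hex : ∀ p : κ, ∃ j : ℕ, p ∈ G → (2 : ℝ) ^ j ≤ 2 * c p / N₀ ∧ 2 * c p / N₀ < 2 ^ (j + 1) := by
    intro p
    by_cases hp : p ∈ G
    · have h1 : 1 ≤ 2 * c p / N₀ := by
        rw [le_div_iff₀ hN]
        have := hlo p hp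
        linarith
      obtain ⟨j, hj1, hj2⟩ := exists_nat_pow_near h1 (by norm_num : (1 : ℝ) < 2)
      exact ⟨j, fun _ => ⟨hj1, hj2⟩⟩
    · exact ⟨0, fun h => absurd h hp⟩
  choose J hJ using hex
  set n : ℕ := ⌊Real.logb 2 (2 * X)⌋₊ + 1 with hn
  have hlog2 : (1 : ℝ) / 2 < Real.log 2 := by
    have := Real.log_two_gt_d9
    linarith
  have hlogX : 0 ≤ Real.log X := Real.log_nonneg hX
  have hlb0 : 0 ≤ Real.logb 2 (2 * X) := Real.logb_nonneg (by norm_num) (by linarith)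
  have hnn : (n : ℝ) ≤ 2 * (1 + Real.log X) := by
    have h1 : ((⌊Real.logb 2 (2 * X)⌋₊ : ℕ) : ℝ) ≤ Real.logb 2 (2 * X) := Nat.floor_le hlb0
    have h2 : Real.logb 2 (2 * X) = 1 + Real.log X / Real.log 2 := by
      unfold Real.logb
      rw [Real.log_mul (by norm_num) (by linarith), add_div, div_self (by linarith)]
    have h3 : Real.log X / Real.log 2 ≤ 2 * Real.log X := by
      rw [div_le_iff₀ (by linarith)]
      nlinarith
    rw [hn]
    push_cast
    linarith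
  have hJn : ∀ p ∈ G, J p ∈ Finset.range n := by
    intro p hp
    rw [Finset.mem_range, hn, Nat.lt_succ_iff]
    refine Nat.le_floor ?_
    have h1 : (2 : ℝ) ^ (J p) ≤ 2 * X := by
      refine (hJ p hp).1.trans ?_
      rw [div_le_iff₀ hN]
      have := hhi p hp
      linarith
    rw [Real.le_logb_iff_rpow_le (by norm_num) (by linarith), Real.rpow_natCast]
    exact h1
  have hsum : ∑ p ∈ G, c p ≤ ∑ j ∈ Finset.range n, (2 : ℝ) ^ j * N₀ * ((G.filter (fun p => J p = j)).card : ℝ) := by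
    rw [← Finset.sum_fiberwise_of_maps_to hJn]
    refine Finset.sum_le_sum fun j _ => ?_
    calc ∑ p ∈ G.filter (fun p => J p = j), c p ≤ ∑ _p ∈ G.filter (fun p => J p = j), (2 : ℝ) ^ j * N₀ := by
          refine Finset.sum_le_sum fun p hp => ?_
          rw [Finset.mem_filter] at hp
          have h1 := (hJ p hp.1).2
          rw [hp.2, div_lt_iff₀ hN, pow_succ] at h1
          linarith
      _ = _ := by
          rw [Finset.sum_const, nsmul_eq_mul]
          ring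
  have hn0 : 0 < (n : ℝ) := by
    rw [hn]
    positivity
  have hne : (Finset.range n).Nonempty := by
    rw [Finset.nonempty_range_iff, hn]
    omega
  obtain ⟨j, -, hj⟩ := Finset.exists_le_of_sum_le (s := Finset.range n) (f := fun _ => S / n)
    (g := fun j => (2 : ℝ) ^ j * N₀ * ((G.filter (fun p => J p = j)).card : ℝ)) hne
    (by
      rw [Finset.sum_const, Finset.card_range, nsmul_eq_mul]
      have : (n : ℝ) * (S / n) = S := by field_simp
      rw [this]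
      exact hS.trans hsum)
  refine ⟨2 ^ j / 2, G.filter (fun p => J p = j), ?_, ?_, ?_⟩
  · have : (1 : ℝ) ≤ 2 ^ j := one_le_pow₀ (by norm_num)
    linarith
  · intro p hp
    rw [Finset.mem_filter] at hp
    refine ⟨hp.1, ?_⟩
    have h1 := (hJ p hp.1).1
    rw [hp.2, le_div_iff₀ hN] at h1
    linarith
  · rw [div_le_iff₀ hn0] at hj
    have hE0 : 0 ≤ (2 : ℝ) ^ j * N₀ * ((G.filter (fun p => J p = j)).card : ℝ) := by positivity
    calc S ≤ (2 : ℝ) ^ j * N₀ * ((G.filter (fun p => J p = j)).card : ℝ) * n := hj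
      _ ≤ (2 : ℝ) ^ j * N₀ * ((G.filter (fun p => J p = j)).card : ℝ) * (2 * (1 + Real.log X)) :=
          mul_le_mul_of_nonneg_left hnn hE0
      _ = _ := by ring

end HPigAux

open HPigAux

theorem tPig : S_Pig := by
  classical
  intro ι V T N₀ X hN hX hT hfb hTc
  have h1 := card_le_sum V T hT
  set G := (V ×ˢ V).filter (fun p => N₀ / 2 ≤ ((fb T p).card : ℝ)) with hG
  have h2 : ∑ p ∈ V ×ˢ V, ((fb T p).card : ℝ) =
      ∑ p ∈ G, ((fb T p).card : ℝ) + ∑ p ∈ (V ×ˢ V).filter (fun p => ¬ N₀ / 2 ≤ ((fb T p).card : ℝ)), ((fb T p).card : ℝ) :=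
    (Finset.sum_filter_add_sum_filter_not (V ×ˢ V) (fun p => N₀ / 2 ≤ ((fb T p).card : ℝ)) _).symm
  have h3 : ∑ p ∈ (V ×ˢ V).filter (fun p => ¬ N₀ / 2 ≤ ((fb T p).card : ℝ)), ((fb T p).card : ℝ) ≤
      N₀ / 2 * (V.card : ℝ) ^ 2 := by
    calc ∑ p ∈ (V ×ˢ V).filter (fun p => ¬ N₀ / 2 ≤ ((fb T p).card : ℝ)), ((fb T p).card : ℝ)
        ≤ ∑ _p ∈ (V ×ˢ V).filter (fun p => ¬ N₀ / 2 ≤ ((fb T p).card : ℝ)), N₀ / 2 := by
          refine Finset.sum_le_sum fun p hp => ?_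
          rw [Finset.mem_filter, not_le] at hp
          exact hp.2.le
      _ = (((V ×ˢ V).filter (fun p => ¬ N₀ / 2 ≤ ((fb T p).card : ℝ))).card : ℝ) * (N₀ / 2) := by
          rw [Finset.sum_const, nsmul_eq_mul]
      _ ≤ ((V ×ˢ V).card : ℝ) * (N₀ / 2) := by
          refine mul_le_mul_of_nonneg_right ?_ (by linarith)
          exact_mod_cast Finset.card_filter_le _ _
      _ = _ := by
          rw [Finset.card_product]
          push_cast
          ring
  obtain ⟨lam, E, hl, hE, hS⟩ := pig G (fun p => ((fb T p).card : ℝ)) N₀ X (N₀ / 2 * (V.card : ℝ) ^ 2) hN hX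
    (fun p hp => by
      rw [hG, Finset.mem_filter] at hp
      exact hp.2)
    (fun p hp => by
      rw [hG, Finset.mem_filter, Finset.mem_product] at hp
      exact hfb p.1 hp.1.1 p.2 hp.1.2) (by linarith)
  refine ⟨lam, E, hl, ?_, ?_⟩
  · intro p hp
    obtain ⟨h4, h5⟩ := hE p hp
    rw [hG, Finset.mem_filter, Finset.mem_product] at h4
    exact ⟨h4.1.1, h4.1.2, h5⟩
  · have h6 : N₀ / 2 * (V.card : ℝ) ^ 2 ≤ N₀ / 2 * (8 * (1 + Real.log X) * lam * (E.card : ℝ)) := by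
      refine hS.trans (le_of_eq ?_)
      ring
    exact le_of_mul_le_mul_left h6 (by linarith)

end HSB
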