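import Pool.Agent.Lib.HS.Bd.SpecHigh
import Pool.Agent.Lib.HS.Bd.C.Ty

/-!
# Package `HS`, high bands, module `HTyp` (helper75)

`tTyp : S_Typ`: types of cells (pigeonhole) and the type lemma.
-/

set_option autoImplicit false

namespace HSB

open HSL Matrix

namespace HTypM

/-- a small box contains no non-zero integral matrix -/
lemma none {R w T : ℝ} {a b : MR} (hR : 1 ≤ R) (ha : Um R a) (hb : Um R b) (hw : 0 < w) (hw1 : w ≤ 1)
    (hT : T ≤ 1 / (8 * R ^ 2)) {u : MZ} (hu : u ∈ Bx w T a b) : u = 0 := by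
  have hT0 : 0 ≤ T := (abs_nonneg _).trans hu.1
  have hwT : w * T ≤ T := mul_le_of_le_one_left hT0 hw1
  have hf : ∀ i j, |fr a b u i j| ≤ T := by
    intro i j
    fin_cases i <;> fin_cases j
    · exact hu.1
    · exact hu.2.2.1.trans hwT
    · exact hu.2.2.2.trans hwT
    · exact hu.2.1
  have hbb : b * b.adjugate = 1 := by rw [Matrix.mul_adjugate, hb.1, one_smul]
  have haa : a * a.adjugate = 1 := by rw [Matrix.mul_adjugate, ha.1, one_smul]
  have hrec : toR u = b * fr a b u * a.adjugate := by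
    have : b * fr a b u * a.adjugate = (b * b.adjugate) * toR u * (a * a.adjugate) := by
      simp only [fr, Matrix.mul_assoc]
    rw [this, hbb, haa, Matrix.one_mul, Matrix.mul_one]
  have hadj : ∀ i j, |a.adjugate i j| ≤ R := by
    intro i j
    fin_cases i <;> fin_cases j
    · show |a.adjugate 0 0| ≤ R
      rw [TyM.adj00]; exact ha.2 1 1
    · show |a.adjugate 0 1| ≤ R
      rw [TyM.adj01, abs_neg]; exact ha.2 0 1
    · show |a.adjugate 1 0| ≤ R
      rw [TyM.adj10, abs_neg]; exact ha.2 1 0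
    · show |a.adjugate 1 1| ≤ R
      rw [TyM.adj11]; exact ha.2 0 0
  have hR0 : 0 ≤ R := by linarith
  have hterm : ∀ i k l j, |b i k * fr a b u k l * a.adjugate l j| ≤ R * T * R := by
    intro i k l j
    rw [abs_mul, abs_mul]
    exact mul_le_mul (mul_le_mul (hb.2 i k) (hf k l) (abs_nonneg _) hR0) (hadj l j) (abs_nonneg _)
      (mul_nonneg hR0 hT0)
  have hsmall : 4 * (R * T * R) ≤ 1 / 2 := by
    have h1 : R ^ 2 * T ≤ R ^ 2 * (1 / (8 * R ^ 2)) := mul_le_mul_of_nonneg_left hT (by positivity)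
    have h2 : R ^ 2 * (1 / (8 * R ^ 2)) = 1 / 8 := by
      have : R ^ 2 ≠ 0 := by positivity
      field_simp
    have h3 : 4 * (R * T * R) = 4 * (R ^ 2 * T) := by ring
    rw [h3]
    linarith
  ext i j
  have he : ((u i j : ℤ) : ℝ) = b i 0 * fr a b u 0 0 * a.adjugate 0 j + b i 1 * fr a b u 1 0 * a.adjugate 0 j +
      (b i 0 * fr a b u 0 1 * a.adjugate 1 j + b i 1 * fr a b u 1 1 * a.adjugate 1 j) := by
    have := congrFun (congrFun hrec i) j
    simp only [toR, Matrix.map_apply, Matrix.mul_apply, Fin.sum_univ_two] at this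
    rw [this]
    ring
  have hlt : |((u i j : ℤ) : ℝ)| < 1 := by
    rw [he]
    have h1 := hterm i 0 0 j
    have h2 := hterm i 1 0 j
    have h3 := hterm i 0 1 j
    have h4 := hterm i 1 1 j
    refine lt_of_le_of_lt ((abs_add_le _ _).trans (add_le_add (abs_add_le _ _) (abs_add_le _ _))) ?_
    linarith
  have : |u i j| < 1 := by exact_mod_cast hlt
  simpa using Int.abs_lt_one_iff.1 this

end HTypM

open HTypM in
/-- **Typ** types of cells -/
theorem tTyp : S_Typ := by
  classical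
  intro R δ hR hδ
  obtain ⟨n, hn⟩ : ∃ n : ℕ, 4 ≤ (n : ℝ) * δ := by
    obtain ⟨n, hn⟩ := exists_nat_ge (4 / δ)
    refine ⟨n, ?_⟩
    rwa [div_le_iff₀ hδ] at hn
  have hA : 1 ≤ 20 * R ^ 2 := by
    have := one_le_pow₀ (n := 2) hR
    linarith
  have hA0 : 0 < 20 * R ^ 2 := by linarith
  obtain ⟨w1, hw1⟩ : ∃ w1, w1 = (20 * R ^ 2) ^ (-(1 / δ)) := ⟨_, rfl⟩
  have hw10 : 0 < w1 := hw1 ▸ Real.rpow_pos_of_pos hA0 _
  have hw1δ : w1 ^ δ = (20 * R ^ 2)⁻¹ := by
    rw [hw1, ← Real.rpow_mul hA0.le, ← Real.rpow_neg_one]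
    congr 1
    field_simp
  obtain ⟨N, hN⟩ : ∃ N : ℕ, N = Fintype.card (Finset (Fin 2 × Fin (n + 1) × Fin (n + 1))) := ⟨_, rfl⟩
  refine ⟨20 * R ^ 2 + N, min (1 / (20 * R ^ 2)) (w1 / (8 * R ^ 2)), by
    have : (0 : ℝ) ≤ N := Nat.cast_nonneg _
    linarith, lt_min (by positivity) (by positivity), ?_⟩
  intro ι V g w hw hwle hV
  obtain ⟨τ, hτ⟩ : ∃ τ : ι → Finset (Fin 2 × Fin (n + 1) × Fin (n + 1)),
      τ = fun x => Finset.univ.filter (fun t => TyS w δ t.1 t.2.1 t.2.2 (g x)) := ⟨_, rfl⟩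
  obtain ⟨y, -, hy⟩ := Finset.exists_max_image (Finset.univ : Finset (Finset (Fin 2 × Fin (n + 1) × Fin (n + 1))))
    (fun y => (V.filter (fun x => τ x = y)).card) Finset.univ_nonempty
  refine ⟨V.filter (fun x => τ x = y), Finset.filter_subset _ _, ?_, ?_⟩
  · have h1 : V.card = ∑ z, (V.filter (fun x => τ x = z)).card :=
      Finset.card_eq_sum_card_fiberwise (fun x _ => Finset.mem_univ _)
    have h2 : V.card ≤ N * (V.filter (fun x => τ x = y)).card := by
      rw [h1]
      refine (Finset.sum_le_card_nsmul _ _ _ (fun z _ => hy z (Finset.mem_univ _))).trans ?_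
      rw [smul_eq_mul, hN, Finset.card_univ]
    have h3 : (V.card : ℝ) ≤ N * ((V.filter (fun x => τ x = y)).card : ℝ) := by exact_mod_cast h2
    refine h3.trans (mul_le_mul_of_nonneg_right (by linarith) (Nat.cast_nonneg _))
  · intro i hi j hj T₀ hT₀ T hT hTT hex
    rw [Finset.mem_filter] at hi hj
    have hi' : Um R (g i) := hV i hi.1
    have hj' : Um R (g j) := hV j hj.1
    by_cases hsm : 20 * R ^ 2 * w ^ δ ≤ 1
    · have hsame : SameTy w δ n (g i) (g j) := by
        intro s e he f hf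
        have hmem : ∀ x : ι, ((s, (⟨e, by omega⟩ : Fin (n + 1)), (⟨f, by omega⟩ : Fin (n + 1))) ∈ τ x) ↔
            TyS w δ s e f (g x) := by
          intro x
          rw [hτ]
          simp
        rw [← hmem i, ← hmem j, hi.2, hj.2]
      have hTc : 20 * R ^ 2 * (w ^ (1 - δ) * T) ≤ 1 := by
        have h1 : w ^ (1 - δ) * T ≤ 1 / (20 * R ^ 2) :=
          (mul_le_mul_of_nonneg_left hTT (Real.rpow_nonneg hw.le _)).trans (hT₀.trans (min_le_left _ _))
        calc 20 * R ^ 2 * (w ^ (1 - δ) * T) ≤ 20 * R ^ 2 * (1 / (20 * R ^ 2)) :=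
              mul_le_mul_of_nonneg_left h1 hA0.le
          _ = 1 := by field_simp
      obtain ⟨u', hu', hu''⟩ := type_lemma hR hδ hn hw hsm hi' hj' hsame hTc hex
      refine ⟨u', hu', Bx_mono hw.le ?_ hu''⟩
      refine mul_le_mul_of_nonneg_right (mul_le_mul_of_nonneg_right ?_ (Real.rpow_nonneg hw.le _)) hT
      have : (0 : ℝ) ≤ N := Nat.cast_nonneg _
      linarith
    · exfalso
      obtain ⟨u, hu0, hu⟩ := hex
      apply hu0
      refine none hR hi' hj' hw hwle ?_ hu
      have hww : w1 ≤ w := by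
        by_contra hc
        push Not at hc
        apply hsm
        have h1 : w ^ δ ≤ w1 ^ δ := Real.rpow_le_rpow hw.le hc.le hδ.le
        rw [hw1δ] at h1
        calc 20 * R ^ 2 * w ^ δ ≤ 20 * R ^ 2 * (20 * R ^ 2)⁻¹ := mul_le_mul_of_nonneg_left h1 hA0.le
          _ = 1 := mul_inv_cancel₀ hA0.ne'
      have h1 : w * T ≤ w1 / (8 * R ^ 2) := by
        have e1 : w ≤ w ^ (1 - δ) := by
          have := Real.rpow_le_rpow_of_exponent_ge hw hwle (by linarith : 1 - δ ≤ 1)
          rwa [Real.rpow_one] at this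
        calc w * T ≤ w ^ (1 - δ) * T := mul_le_mul_of_nonneg_right e1 hT
          _ ≤ w ^ (1 - δ) * T₀ := mul_le_mul_of_nonneg_left hTT (Real.rpow_nonneg hw.le _)
          _ ≤ _ := hT₀.trans (min_le_right _ _)
      have h2 : w1 / (8 * R ^ 2) ≤ w * (1 / (8 * R ^ 2)) := by
        rw [mul_one_div]
        exact div_le_div_of_nonneg_right hww (by positivity)
      exact le_of_mul_le_mul_left (h1.trans h2) hw

end HSB
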