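import Pool.Agent.Lib.HS.Bd.HFin
import Pool.Agent.Lib.HS.Bd.HCUu
import Pool.Agent.Lib.HS.Bd.HCUc
import Pool.Agent.Lib.HS.Bd.HCo
import Pool.Agent.Lib.HS.Bd.HPig
import Pool.Agent.Lib.HS.Bd.HFbB
import Pool.Agent.Lib.HS.Bd.HTyp
import Pool.Agent.Lib.HS.Bd.HNu1
import Pool.Agent.Lib.HS.Bd.HNu2
import Pool.Agent.Lib.HS.Bd.HNu3
import Pool.Agent.Lib.HS.Bd.HNu4
import Pool.Agent.Lib.HS.Bd.Flip
import Pool.Agent.Lib.HS.Bd.C.All

/-!
# Package `HS`, high bands: the counting part without hypotheses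
-/

set_option autoImplicit false

namespace HSB

open HSL Matrix

theorem zCUc : S_CUc := tCUc tCo aSNq

theorem zTyp : S_Typ := tTyp

theorem zFin : S_Fin := tFin aPA Flp.pDeg Flp.flip Flp.tFrm (tCUu tCo) (tCUr tCo) tPig tFbB tNu1 tNu2 tNu3 tNu4

end HSB
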