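import Pool.Agent.Lib.HS.Bd.Defs
import Pool.Agent.Lib.HS.Bd.SpecFlip
import Pool.Agent.Lib.HS.Bd.C.Spec

/-!
# Package `HS`, high bands (`w^(19/25) ≤ A ≤ w^(2/3 - 1/1000)`), the counting part (helper66)

Every `S_...` is a statement with a COMPLETE proof in its docstring; the module for `S_X` is
`Pool/Agent/Lib/HS/Bd/H<X>.lean` with `theorem tX : ... → S_X` in namespace `HSB`.
`Um`, `Bx`, `Ab`, `pl`, `SqR`, `Ty`, `co`, `Cu`, `Cu'` are in `HS/Bd/Defs.lean`, `HSL.Flp.Uni`, `Ov`, `Dg`, `Fl`, `S_Frm`, `S_Deg`,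
`StmtFlip` in `HS/Bd/SpecFlip.lean`. `u ∈ Bx w T a b` and `Flp.Dg T w a b u` are the same; `r ∈ Ab w Z a b` with `det r ≠ 0` is
`Flp.Fl Z w a b r`.

TEXT. `K = A w^(-3/2 + s)`, `s = 1/500`. The amplifier gives `≥ N₀ N²` square returns of size `K` between the `N` cells,
`N₀ = K^(2-e) A`. Pigeonhole (S_Pig): pairs `E` with `≥ lam N₀` returns, `lam ≥ 1/2`, `#E ≥ N²/(lam log)`. By the pair
alternative (S_PA, helper51, HS/Bd/C/Spec.lean) such a pair has a short vector `u` (gauge `≤ w^(-small)/(lam K A)`), by `Ty` a nonsingular one: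
few pairs (S_Deg), or a primitive normal `r` of dual gauge `≤ w^(1-small) (lam A)^(-3/2)`: it is not singular (outside the
cusp set `Cu`, S_CUr), so it is a flip, and the FLIP LEMMA gives a contradiction.
-/

set_option autoImplicit false

namespace HSB

open HSL Matrix

/-- Typ (helper75). Types: a positive proportion of the cells has the property `Ty`. -/
def S_Typ : Prop :=
  ∀ R δ : ℝ, 1 ≤ R → 0 < δ → ∃ C c : ℝ, 1 ≤ C ∧ 0 < c ∧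
    ∀ (ι : Type) (V : Finset ι) (g : ι → MR) (w : ℝ), 0 < w → w ≤ 1 → Flp.Uni R V g →
      ∃ V' : Finset ι, V' ⊆ V ∧ (V.card : ℝ) ≤ C * (V'.card : ℝ) ∧
        ∀ i ∈ V', ∀ j ∈ V', ∀ T₀ : ℝ, w ^ (1 - δ) * T₀ ≤ c → Ty w (C * w ^ (-(2 * δ))) T₀ (g i) (g j)

/-- Co. Coordinates of vectors. PROOF. `a * adj a = det a • 1 = 1`. (1) `(b.adj * toR h * a) *ᵥ (a.adj *ᵥ q) = b.adj *ᵥ (toR h *ᵥ q)`.
(2) `det (b.adj) = det b = 1` and the area form of `b.adj *ᵥ q'`, `b.adj *ᵥ (h q)` is `det (b.adj)` times the one of `q'`, `h q`: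
`q'₀ (hq)₁ - q'₁ (hq)₀` is the left side; expand with `det b = b00 b11 - b01 b10 = 1` (linear_combination). (3) `q = a *ᵥ co a q`, so
`1 ≤ |q i| ≤ R (|co 0| + |co 1|)` for an `i` with `q i ≠ 0`. (4) the matrix `fr a b (c sᵀ)` is `co b c` times the row
`(γ, δ) = sᵀ a`, and `co a (s^⊥) = (-δ, γ)` for `s^⊥ = (-s₁, s₀)`: `a.adj = !![a11, -a01; -a10, a00]`, `a11 (-s1) - a01 s0 = -(s0 a01 + s1 a11) = -δ`,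
`a10 s1 + a00 s0 = γ`. (5) an integral matrix `r ≠ 0` with `det r = 0` is `c sᵀ` with `c ≠ 0`, `s ≠ 0`, `s` PRIMITIVE: if the row `i` of `r` is not zero let
`g = gcd` of its entries, `s = row i / g`; every row is a multiple of `s` (the rows are proportional to `s` over the rationals, `s` primitive). -/
def S_Co : Prop :=
  (∀ (a b : MR) (h : MZ) (q : Fin 2 → ℤ), a.det = 1 →
    (fr a b h) *ᵥ (co a q) = co b (h *ᵥ q)) ∧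
  (∀ (a b : MR) (h : MZ) (q q' : Fin 2 → ℤ), a.det = 1 → b.det = 1 →
    (((q' 0 * (h *ᵥ q) 1 - q' 1 * (h *ᵥ q) 0 : ℤ)) : ℝ) =
      co b q' 0 * (fr a b h 1 0 * co a q 0 + fr a b h 1 1 * co a q 1) -
      co b q' 1 * (fr a b h 0 0 * co a q 0 + fr a b h 0 1 * co a q 1)) ∧
  (∀ (R : ℝ) (a : MR) (q : Fin 2 → ℤ), 1 ≤ R → Um R a → q ≠ 0 → 1 ≤ 2 * R * max |co a q 0| |co a q 1|) ∧
  (∀ (a b : MR) (c s : Fin 2 → ℤ) (i : Fin 2), a.det = 1 → b.det = 1 →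
    fr a b (Matrix.of fun i j => c i * s j) i 0 = co b c i * co a ![-s 1, s 0] 1 ∧
    fr a b (Matrix.of fun i j => c i * s j) i 1 = - (co b c i * co a ![-s 1, s 0] 0)) ∧
  (∀ r : MZ, r ≠ 0 → r.det = 0 → ∃ c s : Fin 2 → ℤ, c ≠ 0 ∧ IsCoprime (s 0) (s 1) ∧ r = Matrix.of fun i j => c i * s j)

/-- CUu. A short singular vector gives a cusp at its source. PROOF. S_Co (5): `u = c sᵀ`. Put `(α, β) = co b c`, `q = (-s₁, s₀) ≠ 0`, `co a q = (-δ, γ)`.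
By S_Co (4) the frame is `(α γ, α δ; β γ, β δ)`. By S_Co (3) `2 R |α| ≥ 1` or `2 R |β| ≥ 1`. If `2 R |α| ≥ 1`: `|γ| ≤ 2 R |α γ| ≤ 2 R T`, `|δ| ≤ 2 R w T`: `Cu'`.
If `2 R |β| ≥ 1`: `|γ| ≤ 2 R w T`, `|δ| ≤ 2 R T`: `Cu`. -/
def S_CUu : Prop :=
  ∀ (R w T : ℝ) (a b : MR) (u : MZ), 1 ≤ R → Um R a → Um R b → 0 < w → 0 ≤ T → u ≠ 0 → u.det = 0 → u ∈ Bx w T a b →
    Cu (2 * R * T) (2 * R * (w * T)) a ∨ Cu' (2 * R * T) (2 * R * (w * T)) a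

/-- CUr. A short singular normal gives a cusp at one of its ends. PROOF. `r = c sᵀ`, `(α, β) = co b c`, `(γ, δ)` as in CUu: `|α γ|, |β δ| ≤ w Z`,
`|α δ|, |β γ| ≤ Z`. Case `2 R |α| ≥ 1`: `|γ| ≤ 2 R w Z < 1/(2 R)` (as `4 R² w Z < 1`), so by S_Co (3) `2 R |δ| ≥ 1` and `|β| ≤ 2 R w Z`. `|α| |δ| ≤ Z`, so
`|δ| ≤ √Z` (then `co a q = (-δ, γ)`: `Cu (√Z) (2 R w Z) a`) or `|α| ≤ √Z` (`Cu (√Z) (2 R w Z) b`). Case `2 R |β| ≥ 1`: the same with the coordinates exchanged: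
`|δ| ≤ 2 R w Z`, `2 R |γ| ≥ 1`, `|α| ≤ 2 R w Z`, `|γ| ≤ √Z` or `|β| ≤ √Z`: `Cu'`. -/
def S_CUr : Prop :=
  ∀ (R w Z : ℝ) (a b : MR) (r : MZ), 1 ≤ R → Um R a → Um R b → 0 < w → 0 ≤ Z → 4 * R ^ 2 * (w * Z) < 1 → r ≠ 0 → r.det = 0 →
    r ∈ Ab w Z a b →
    (Cu (√Z) (2 * R * (w * Z)) a ∨ Cu' (√Z) (2 * R * (w * Z)) a) ∨ (Cu (√Z) (2 * R * (w * Z)) b ∨ Cu' (√Z) (2 * R * (w * Z)) b)

/-- CUc. Few returns between cells in the cusp set. PROOF. `C₁` = the maximum of the constant of S_SN and `8 C B`. Case `Cu`: take `q_a`, `q_b`; dividing by the gcd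
(the coordinates only become smaller) we may assume `IsCoprime (q 0) (q 1)`. Let `h ∈ H`, level `m ≤ B K`: the diagonal entries of `M = fr a b h` are `≤ C B K`, the off-diagonal
ones `≤ C w B K`. By S_Co (2) the integer `n = q_b0 (h q_a)1 - q_b1 (h q_a)0` satisfies `|n| ≤ ρ (C w B K ρ + C B K e) + e (C B K ρ + C w B K e) ≤ 4 C B K (ρ e + w ρ²) < 1`
(`e ≤ ρ`), so `n = 0`. Let `r = !![-q_b0 q_a1, q_b0 q_a0; -q_b1 q_a1, q_b1 q_a0]` (`= q_b (q_a^⊥)ᵀ`): `det r = 0`, `pl h r = - n = 0` (expand), and `r` is primitive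
(an integer dividing all four entries divides `q_b0`, `q_b1` by Bezout for `q_a`, hence is a unit by Bezout for `q_b`). S_SN. Case `Cu'`: the same with the coordinates exchanged. -/
def S_CUc : Prop :=
  ∀ R C B ε : ℝ, 1 ≤ R → 1 ≤ C → 1 ≤ B → 0 < ε → ∃ C₁ : ℝ, 1 ≤ C₁ ∧
    ∀ (w K ρ e : ℝ) (a b : MR) (H : Finset MZ), Um R a → Um R b → 0 < w → w ≤ 1 → 1 ≤ K → C₁ * w * K ≤ 1 →
      0 ≤ e → e ≤ ρ → C₁ * K * (ρ * e + w * ρ ^ 2) ≤ 1 → ((Cu ρ e a ∧ Cu ρ e b) ∨ (Cu' ρ e a ∧ Cu' ρ e b)) →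
      (∀ h ∈ H, SqR C B w K a b h) → (H.card : ℝ) ≤ C₁ * K ^ (1 + ε)

open Classical in
/-- the returns of `T` from `p.1` to `p.2` -/
noncomputable def fb {ι : Type} (T : Finset (ι × ι × MZ)) (p : ι × ι) : Finset MZ :=
  (T.filter (fun t => t.1 = p.1 ∧ t.2.1 = p.2)).image (fun t => t.2.2)

/-- Pig. Dyadic pigeonhole. PROOF. `card T = ∑_(p ∈ V ×ˢ V) card (fb T p)` (fibres of `t ↦ (t.1, t.2.1)`; `t ↦ t.2.2` is injective on a fibre). The pairs with `card (fb T p) < N₀/2`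
contribute at most `N₀ (card V)²/2`. For the others let `j ∈ ℕ` with `2^j/2 ≤ card (fb T p)/N₀ < 2^j`; `2^j ≤ 2 X`, so `j < J` with `J ≤ 2 + log2 X ≤ 2 (1 + log X)` values.
For one of them `∑_(p ∈ E_j) card (fb T p) ≥ N₀ (card V)²/(2 J)`, and this sum is `≤ 2^j N₀ card E_j`. `lam = 2^j/2`: `(card V)² ≤ 2 J 2^j card E_j = 4 J lam card E_j ≤ 8 (1 + log X) lam card E_j`. -/
def S_Pig : Prop :=
  ∀ (ι : Type) (V : Finset ι) (T : Finset (ι × ι × MZ)) (N₀ X : ℝ), 0 < N₀ → 1 ≤ X →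
    (∀ t ∈ T, t.1 ∈ V ∧ t.2.1 ∈ V) → (∀ i ∈ V, ∀ j ∈ V, ((fb T (i, j)).card : ℝ) ≤ X * N₀) →
    N₀ * (V.card : ℝ) ^ 2 ≤ (T.card : ℝ) →
    ∃ (lam : ℝ) (E : Finset (ι × ι)), 1 / 2 ≤ lam ∧ (∀ p ∈ E, p.1 ∈ V ∧ p.2 ∈ V ∧ lam * N₀ ≤ ((fb T p).card : ℝ)) ∧
      (V.card : ℝ) ^ 2 ≤ 8 * (1 + Real.log X) * lam * (E.card : ℝ)

/-- FbB. Trivial bound for the number of returns. PROOF. `toR h = b * fr a b h * a.adj`, so `|h i j| ≤ 4 R² C B K` (`w ≤ 1`): `h` lies in the box of integral matrices with entries in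
`[-Y, Y]`, `Y = ⌊4 R² C B K⌋`: at most `(2 Y + 1)⁴ ≤ (9 R² C B K)⁴` matrices. `C₁ = (9 R² C B)⁴`. -/
def S_FbB : Prop :=
  ∀ R C B : ℝ, 1 ≤ R → 1 ≤ C → 1 ≤ B → ∃ C₁ : ℝ, 1 ≤ C₁ ∧
    ∀ (w K : ℝ) (a b : MR) (H : Finset MZ), Um R a → Um R b → 0 < w → w ≤ 1 → 1 ≤ K →
      (∀ h ∈ H, SqR C B w K a b h) → (H.card : ℝ) ≤ C₁ * K ^ 4

/-- the height of the returns -/
noncomputable def KA (w A : ℝ) : ℝ := A * w ^ (-(749 / 500) : ℝ)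

/-- Nu1. Numbers, part one. PROOF. `A = w^α` with `333/500 - 1/3000 ≤ 2/3 - 1/1000 ≤ α ≤ 19/25` (`α = log A/log w`). `K = w^(α - 749/500)`. Every constant is `≤ w^(-η)` for `w ≤ w₁(η)`; take `η` small (`10^(-6)`).
(1) `α - 749/500 ≤ -0.738`: `K ≥ 1`; `≥ -0.8324`: `K ≤ w^(-21/25)`. (2) `D K ≤ w^(-9/10)` and `D w K ≤ 1`. (3) `N₀ = K^(2 - 1/10000) A`. `w^(3/2) K³ = K² A · w^(3/2) K/A = K² A w^(1/500)`; `w K² = K² A (w/A)`, `w/A ≤ w^(6/25)`;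
`1 ≤ K² A w^(7/10)` (`2(α - 1.498) + α + 0.7 ≤ 0`). `K^(1/10000) ≤ w^(-0.000084)`, the factor `D (D w^(-1/5000))^4 K^(1/10000) · K^(1/10000) · 3 · w^(1/500) ≤ 1/2`. (4) `w ^ (-4) N₀ ≥ D K⁴` (`N₀ ≥ 1`, `K⁴ ≤ w^(-3.36)`). -/
def S_Nu1 : Prop :=
  ∀ D : ℝ, 1 ≤ D → ∃ w₁ : ℝ, 0 < w₁ ∧ w₁ ≤ 1 ∧ ∀ w A : ℝ, 0 < w → w ≤ w₁ → w ^ (19 / 25 : ℝ) ≤ A → A ≤ w ^ (2 / 3 - 1 / 1000 : ℝ) →
    (1 ≤ KA w A ∧ KA w A ≤ w ^ (-(21 / 25) : ℝ)) ∧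
    (D * KA w A ≤ w ^ (-(9 / 10) : ℝ) ∧ D * w * KA w A ≤ 1) ∧
    (D * (D * w ^ (-(1 / 5000) : ℝ)) ^ 4 * KA w A ^ (1 / 10000 : ℝ) * (1 + w * KA w A ^ 2 + w ^ (3 / 2 : ℝ) * KA w A ^ 3) ≤
      1 / 2 * (KA w A ^ (2 - 1 / 10000 : ℝ) * A)) ∧
    (1 ≤ KA w A ^ (2 - 1 / 10000 : ℝ) * A ∧ D * KA w A ^ 4 ≤ w ^ (-4 : ℝ) * (KA w A ^ (2 - 1 / 10000 : ℝ) * A))

/-- Nu2. Numbers, part two: the two sizes. `ρ = D w^(-1/5000)`, `N₀ = K^(2 - 1/10000) A`. PROOF (as Nu1). (1) the gauge of the short vector: `D ρ K^(1 + 1/10000)/(lam N₀) = D ρ K^(1/5000)/(lam K A)`,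
`1/(K A) = w^(749/500 - 2 α) ≤ w^(-11/500)`, and `ρ D K^(1/5000)` times another factor `ρ` is `≤ w^(-1/1000)`: `≤ w^(-23/1000)/lam`. (2) the height of the normal: `w (D ρ K^(1/5000)/(lam A))^(3/2) ≤ w^(1 - 1/1000) (lam A)^(-3/2)`
(`(D² w^(-1/5000) w^(-0.000168))^(3/2) ≤ w^(-1/1000)`). (3) `(lam A)^(-3/2) ≤ 2^(3/2) w^(-57/50)` for `lam ≥ 1/2`, so `4 R² w^(999/1000) (lam A)^(-3/2) ≤ w^(-71/500)`. -/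
def S_Nu2 : Prop :=
  ∀ D : ℝ, 1 ≤ D → ∃ w₁ : ℝ, 0 < w₁ ∧ w₁ ≤ 1 ∧ ∀ w A lam : ℝ, 0 < w → w ≤ w₁ → w ^ (19 / 25 : ℝ) ≤ A → A ≤ w ^ (2 / 3 - 1 / 1000 : ℝ) → 1 / 2 ≤ lam →
    (D * w ^ (-(1 / 5000) : ℝ)) * (D * (D * w ^ (-(1 / 5000) : ℝ)) * KA w A ^ (1 + 1 / 10000 : ℝ) / (lam * (KA w A ^ (2 - 1 / 10000 : ℝ) * A))) ≤
      w ^ (-(23 / 1000) : ℝ) / lam ∧
    w * (D * (D * w ^ (-(1 / 5000) : ℝ)) * KA w A ^ (2 + 1 / 10000 : ℝ) / (lam * (KA w A ^ (2 - 1 / 10000 : ℝ) * A))) ^ (3 / 2 : ℝ) ≤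
      w ^ (999 / 1000 : ℝ) * (lam * A) ^ (-(3 / 2) : ℝ) ∧
    D * (w ^ (999 / 1000 : ℝ) * (lam * A) ^ (-(3 / 2) : ℝ)) ≤ w ^ (-(71 / 500) : ℝ)

/-- Nu3. Numbers, part three: the contradictions. `L = 1 + log (w^(-4))`. PROOF (as Nu1; `L ≤ w^(-η)`). (1) `lam ≤ D w^(-23/1000)`, `N ≤ D L lam (w^(-23/1000)/lam + 1)^4 (1 + log ...)^2`: stated with `w^(-1/10)`: `D L lam w^(-1/10) < w^(1001/1000)/(D A²)` because the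
right side is `≥ w^(-329/1000)/D` (`1.001 - 2 α ≤ 1.001 - 2·0.66566 = -0.3303`). (2) first alternative: with `ρ_d = 1/(D L lam)`, `Z = D w^(999/1000) (lam A)^(-3/2) ≤ w^(-71/500)`, `N ≥ w^(1001/1000)/(D A²)`: `ρ_d⁸ N⁵ ≥ w^(5.005) A^(-10) (D L lam)^(-8) D^(-5)`,
`D Z^(16 + 1/10000) ≤ D^17 w^(-1/10000) w^(15.984) (lam A)^(-24)`; the quotient is `≥ w^(-10.98) A^14 lam^16/(const L^8) > 1` as `A^14 ≥ w^(10.64)`, `lam ≥ 1/2`. (3) second alternative with `lam0 = w^(-7/100)`: `ρ_d³ N² w^(-7/50) ≥ w^(2.002 - 0.14) A^(-4)/(const L³ lam³)`,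
`D Z^(8 + 1/10000) ≤ const w^(-1/10000) w^(7.992) (lam A)^(-12)`; the quotient is `≥ w^(-6.1298) A^8 lam^9/const > 1` as `A^8 ≥ w^(6.08)`. -/
def S_Nu3 : Prop :=
  ∀ D : ℝ, 1 ≤ D → ∃ w₁ : ℝ, 0 < w₁ ∧ w₁ ≤ 1 ∧ ∀ w A lam N : ℝ, 0 < w → w ≤ w₁ → w ^ (19 / 25 : ℝ) ≤ A → A ≤ w ^ (2 / 3 - 1 / 1000 : ℝ) → 1 / 2 ≤ lam →
    w ^ (1001 / 1000 : ℝ) ≤ D * A ^ 2 * N →
    (lam ≤ D * w ^ (-(23 / 1000) : ℝ) → D * (1 + Real.log (w ^ (-4 : ℝ))) * lam * w ^ (-(1 / 10) : ℝ) < N) ∧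
    D * (D * (w ^ (999 / 1000 : ℝ) * (lam * A) ^ (-(3 / 2) : ℝ))) ^ (16 + 1 / 10000 : ℝ) <
      (1 / (D * (1 + Real.log (w ^ (-4 : ℝ))) * lam)) ^ 8 * N ^ 5 ∧
    D * (D * (w ^ (999 / 1000 : ℝ) * (lam * A) ^ (-(3 / 2) : ℝ))) ^ (8 + 1 / 10000 : ℝ) <
      (1 / (D * (1 + Real.log (w ^ (-4 : ℝ))) * lam)) ^ 3 * N ^ 2 * (w ^ (-(7 / 100) : ℝ)) ^ 2

/-- Nu4. Numbers, part four: small powers. PROOF. `D ≤ w^(-η)`, `log (D w^(-23/1000)) ≤ w^(-η)` for `w ≤ w₁(η)`; compare exponents (`η = 10^(-4)`): `1 - 6·0.142 > 0`; `1 - 0.046 > 0`;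
`-4·0.023 = -0.092 > -0.1`; `-0.07 > -0.08`; `0.93 > 0.855`; `0.858 > 0.855`; `-0.071 > -0.08`. -/
def S_Nu4 : Prop :=
  ∀ D : ℝ, 1 ≤ D → ∃ w₁ : ℝ, 0 < w₁ ∧ w₁ ≤ 1 ∧ ∀ w : ℝ, 0 < w → w ≤ w₁ →
    D * w * (w ^ (-(71 / 500) : ℝ)) ^ 6 ≤ 1 ∧ D * w * (D * w ^ (-(23 / 1000) : ℝ)) ^ 2 ≤ 1 ∧
    D * (D * w ^ (-(23 / 1000) : ℝ)) ^ 4 * (1 + Real.log (D * w ^ (-(23 / 1000) : ℝ))) ^ 2 ≤ w ^ (-(1 / 10) : ℝ) ∧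
    D * w ^ (-(7 / 100) : ℝ) ≤ w ^ (-(2 / 25) : ℝ) ∧ D * (w * w ^ (-(7 / 100) : ℝ)) ≤ w ^ (171 / 200 : ℝ) ∧
    D * (w * w ^ (-(71 / 500) : ℝ)) ≤ w ^ (171 / 200 : ℝ) ∧ √(w ^ (-(71 / 500) : ℝ)) ≤ w ^ (-(2 / 25) : ℝ)

/-- **Fin** the contradiction for a family of cells. -/
def S_Fin : Prop :=
  ∀ R C B Bo D : ℝ, 1 ≤ R → 1 ≤ C → 1 ≤ B → 1 ≤ Bo → 1 ≤ D → ∃ w₁ : ℝ, 0 < w₁ ∧ w₁ ≤ 1 ∧
    ∀ (w A : ℝ) (ι : Type) (V : Finset ι) (g : ι → MR) (T : Finset (ι × ι × MZ)), 0 < w → w ≤ w₁ →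
      w ^ (19 / 25 : ℝ) ≤ A → A ≤ w ^ (2 / 3 - 1 / 1000 : ℝ) → Flp.Uni R V g → Flp.Ov w Bo V g →
      (∀ i ∈ V, ¬ Cu (w ^ (-(2 / 25) : ℝ)) (w ^ (171 / 200 : ℝ)) (g i) ∧
        ¬ Cu' (w ^ (-(2 / 25) : ℝ)) (w ^ (171 / 200 : ℝ)) (g i)) →
      (∀ i ∈ V, ∀ j ∈ V, Ty w (D * w ^ (-(1 / 5000) : ℝ)) (w ^ (-(9 / 10) : ℝ)) (g i) (g j)) →
      (∀ t ∈ T, t.1 ∈ V ∧ t.2.1 ∈ V ∧ SqR C B w (KA w A) (g t.1) (g t.2.1) t.2.2) →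
      KA w A ^ (2 - 1 / 10000 : ℝ) * A * (V.card : ℝ) ^ 2 ≤ (T.card : ℝ) →
      w ^ (1001 / 1000 : ℝ) ≤ D * A ^ 2 * (V.card : ℝ) → False

end HSB
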