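import Pool.Agent.Lib.HS.Bd.Top
import Pool.Agent.Lib.HS.Bd.SpecHigh
import Pool.Agent.Lib.HS.C.Ov

/-!
# Package `HS`, high band at the level of cells: `StmtBand (6/25) (1/3 + 1/1000)`

helper66. The cells near the cusps have small mass (`cuMass`, from the amplifier inequality at `K = w^(-77/100)`); the other
ones satisfy the hypotheses of `S_Fin` after the passage to one type.
-/

set_option autoImplicit false

namespace Pool.Agent.A54.HS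

open MeasureTheory Filter Topology Set
open scoped ContDiff ComplexConjugate UpperHalfPlane MatrixGroups ENNReal
open Pool.Agent.A54.Dyn (G fl base ze io mk4 dom)
open Pool.Agent.A54.Av (Mat NonSc)
open Pool.Agent.A54.Hp Pool.Agent.A54.Hp.Hk Pool.Agent.A54.Hp.A2M

noncomputable section

namespace HBandC

lemma small {E w : ℝ} (hE : 1 ≤ E) (hw : 0 < w) (h : w ≤ E ^ (-(1000 : ℝ))) : E ≤ w ^ (-(1 / 1000) : ℝ) := by
  have hE0 : 0 < E := by linarith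
  have h1 : (E ^ (-(1000 : ℝ))) ^ (-(1 / 1000) : ℝ) ≤ w ^ (-(1 / 1000) : ℝ) :=
    Real.rpow_le_rpow_of_nonpos hw h (by norm_num)
  rw [← Real.rpow_mul hE0.le] at h1
  have e : -(1000 : ℝ) * (-(1 / 1000) : ℝ) = 1 := by norm_num
  rwa [e, Real.rpow_one] at h1

/-- `E w^a ≤ w^b` -/
lemma mulpow {E w a b : ℝ} (hw : 0 < w) (hw1 : w ≤ 1) (h : E ≤ w ^ (-(1 / 1000) : ℝ)) (hab : b ≤ a - 1 / 1000) :
    E * w ^ a ≤ w ^ b := by
  calc E * w ^ a ≤ w ^ (-(1 / 1000) : ℝ) * w ^ a := mul_le_mul_of_nonneg_right h (Real.rpow_nonneg hw.le _)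
    _ = w ^ (-(1 / 1000) + a : ℝ) := (Real.rpow_add hw _ _).symm
    _ ≤ w ^ b := Real.rpow_le_rpow_of_exponent_ge hw hw1 (by linarith)

lemma KKw {w : ℝ} (hw : 0 < w) (R C : ℝ) (V : Finset (Fin 3 → ℤ)) : (sy R w C V).w = w := by
  have h1 : (sy R w C V).w = 1 / (KK w) ^ 2 := rfl
  rw [h1]
  unfold KK
  rw [← Real.rpow_natCast, ← Real.rpow_mul hw.le]
  have e : -(1 / 2 : ℝ) * ((2 : ℕ) : ℝ) = -1 := by norm_num
  rw [e, Real.rpow_neg_one, one_div, inv_inv]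

open Classical in
/-- the number of returns is at most the number of pairs times the bound for one pair -/
lemma card_le {ι : Type} (W : Finset ι) (T : Finset (ι × ι × HSL.MZ)) (X : ℝ) (hT : ∀ t ∈ T, t.1 ∈ W ∧ t.2.1 ∈ W)
    (h : ∀ p ∈ W ×ˢ W, ((HSB.fb T p).card : ℝ) ≤ X) : (T.card : ℝ) ≤ (W.card : ℝ) ^ 2 * X := by
  have h1 : T.card ≤ ∑ p ∈ W ×ˢ W, (HSB.fb T p).card := by
    have h2 : T ⊆ (W ×ˢ W).biUnion (fun p => (HSB.fb T p).image (fun h => (p.1, p.2, h))) := by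
      intro t ht
      rw [Finset.mem_biUnion]
      refine ⟨(t.1, t.2.1), Finset.mem_product.2 (hT t ht), ?_⟩
      rw [Finset.mem_image]
      refine ⟨t.2.2, ?_, rfl⟩
      unfold HSB.fb
      rw [Finset.mem_image]
      exact ⟨t, Finset.mem_filter.2 ⟨ht, rfl, rfl⟩, rfl⟩
    refine (Finset.card_le_card h2).trans (Finset.card_biUnion_le.trans ?_)
    exact Finset.sum_le_sum fun p _ => Finset.card_image_le
  calc (T.card : ℝ) ≤ ((∑ p ∈ W ×ˢ W, (HSB.fb T p).card : ℕ) : ℝ) := by exact_mod_cast h1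
    _ = ∑ p ∈ W ×ˢ W, ((HSB.fb T p).card : ℝ) := by push_cast; rfl
    _ ≤ ∑ _p ∈ W ×ˢ W, X := Finset.sum_le_sum h
    _ = (W.card : ℝ) ^ 2 * X := by
        rw [Finset.sum_const, Finset.card_product, nsmul_eq_mul]
        push_cast
        ring

/-- the amplifier inequality for the parameters of the high band -/
def AIC (R C B w₁ : ℝ) : Prop := ∀ (l : ℕ → ℝ) (Φ : G → ℂ), HE l Φ → ∀ w : ℝ, 0 < w → w ≤ w₁ → ¬ GdK 4 l w →
  ∀ K A : ℝ, w ^ (-(1 / 4) : ℝ) ≤ K → K ≤ w⁻¹ →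
  0 < A → ∀ W : Finset (Fin 3 → ℤ), CelM Φ R w A W → K ^ (-(1 / 2) + 1 / 10000 : ℝ) ≤ A * W.card →
  ∃ T : Finset ((Fin 3 → ℤ) × (Fin 3 → ℤ) × HSL.MZ),
    (∀ t ∈ T, t.1 ∈ W ∧ t.2.1 ∈ W ∧ HSL.Prim t.2.2 ∧ ∃ m : ℕ, K ≤ m ∧ (m : ℝ) ≤ B * K ∧
      HSL.Ret C w (rp R w t.1).1 (rp R w t.2.1).1 m t.2.2) ∧
    K ^ (2 - 1 / 10000 : ℝ) * A * (W.card : ℝ) ^ 2 ≤ T.card

open Classical in
/-- **the mass near the cusps** -/
lemma cuMass {R C B w₁ C1 : ℝ} (hAI : AIC R C B w₁) (hC1 : 1 ≤ C1)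
    (hcu : ∀ (w K ρ e : ℝ) (a b : HSL.MR) (H : Finset HSL.MZ), HSB.Um R a → HSB.Um R b → 0 < w → w ≤ 1 → 1 ≤ K → C1 * w * K ≤ 1 →
      0 ≤ e → e ≤ ρ → C1 * K * (ρ * e + w * ρ ^ 2) ≤ 1 → ((HSB.Cu ρ e a ∧ HSB.Cu ρ e b) ∨ (HSB.Cu' ρ e a ∧ HSB.Cu' ρ e b)) →
      (∀ h ∈ H, HSB.SqR C B w K a b h) → (H.card : ℝ) ≤ C1 * K ^ (1 + 1 / 10000 : ℝ))
    {l : ℕ → ℝ} {Φ : G → ℂ} (hE : HE l Φ) {w A : ℝ} (hw : 0 < w) (hw1 : w ≤ 1) (hww : w ≤ w₁) (hG : ¬ GdK 4 l w)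
    (hsm : 2 * C1 ≤ w ^ (-(1 / 1000) : ℝ)) (hA : w ^ (19 / 25 : ℝ) ≤ A) (W : Finset (Fin 3 → ℤ)) (hW : CelM Φ R w A W)
    (hc : (∀ z ∈ W, HSB.Cu (w ^ (-(2 / 25) : ℝ)) (w ^ (171 / 200 : ℝ)) (rp R w z).1) ∨
      (∀ z ∈ W, HSB.Cu' (w ^ (-(2 / 25) : ℝ)) (w ^ (171 / 200 : ℝ)) (rp R w z).1)) :
    A * (W.card : ℝ) ≤ w ^ (19 / 50 : ℝ) := by
  have hA0 : 0 < A := lt_of_lt_of_le (Real.rpow_pos_of_pos hw _) hA
  obtain ⟨K, hK⟩ : ∃ K : ℝ, K = w ^ (-(77 / 100) : ℝ) := ⟨_, rfl⟩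
  have hK1 : 1 ≤ K := by
    rw [hK]
    exact Real.one_le_rpow_of_pos_of_le_one_of_nonpos hw hw1 (by norm_num)
  have hK0 : 0 < K := by linarith
  by_contra hcon
  rw [not_le] at hcon
  have hWp : 0 < (W.card : ℝ) := by
    by_contra h0
    have h1 : (W.card : ℝ) = 0 := le_antisymm (not_lt.1 h0) (Nat.cast_nonneg _)
    rw [h1, mul_zero] at hcon
    exact absurd hcon (not_lt.2 (Real.rpow_nonneg hw.le _))
  obtain ⟨T, hT, hTc⟩ := hAI l Φ hE w hw hww hG K A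
    (by rw [hK]; exact Real.rpow_le_rpow_of_exponent_ge hw hw1 (by norm_num))
    (by
      rw [hK, ← Real.rpow_neg_one]
      exact Real.rpow_le_rpow_of_exponent_ge hw hw1 (by norm_num)) hA0 W hW
    (by
      refine le_trans ?_ hcon.le
      rw [hK, ← Real.rpow_mul hw.le]
      exact Real.rpow_le_rpow_of_exponent_ge hw hw1 (by norm_num))
  have hne := hW.ne hA0
  have hUm : ∀ z ∈ W, HSB.Um R (rp R w z).1 := fun z hz => sy_unim (C := 1) hne z hz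
  have n1 : C1 * w * K ≤ 1 := by
    have h1 : w * K = w ^ (23 / 100 : ℝ) := by
      have h2 : w = w ^ (1 : ℝ) := (Real.rpow_one w).symm
      rw [hK]
      nth_rw 1 [h2]
      rw [← Real.rpow_add hw]
      norm_num
    rw [mul_assoc, h1]
    have h3 := mulpow (E := 2 * C1) (a := 23 / 100) (b := 0) hw hw1 hsm (by norm_num)
    rw [Real.rpow_zero] at h3
    have h4 : 0 < w ^ (23 / 100 : ℝ) := Real.rpow_pos_of_pos hw _
    nlinarith
  have n2 : C1 * K * (w ^ (-(2 / 25) : ℝ) * w ^ (171 / 200 : ℝ) + w * (w ^ (-(2 / 25) : ℝ)) ^ 2) ≤ 1 := by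
    have h1 : K * (w ^ (-(2 / 25) : ℝ) * w ^ (171 / 200 : ℝ)) = w ^ (1 / 200 : ℝ) := by
      rw [hK, ← Real.rpow_add hw, ← Real.rpow_add hw]
      norm_num
    have h2 : K * (w * (w ^ (-(2 / 25) : ℝ)) ^ 2) = w ^ (7 / 100 : ℝ) := by
      have h3 : w = w ^ (1 : ℝ) := (Real.rpow_one w).symm
      rw [hK, ← Real.rpow_natCast (w ^ (-(2 / 25) : ℝ)) 2, ← Real.rpow_mul hw.le]
      nth_rw 2 [h3]
      rw [← Real.rpow_add hw, ← Real.rpow_add hw]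
      norm_num
    have h4 : w ^ (7 / 100 : ℝ) ≤ w ^ (1 / 200 : ℝ) := Real.rpow_le_rpow_of_exponent_ge hw hw1 (by norm_num)
    have h5 := mulpow (E := 2 * C1) (a := 1 / 200) (b := 0) hw hw1 hsm (by norm_num)
    rw [Real.rpow_zero] at h5
    calc C1 * K * (w ^ (-(2 / 25) : ℝ) * w ^ (171 / 200 : ℝ) + w * (w ^ (-(2 / 25) : ℝ)) ^ 2)
        = C1 * (K * (w ^ (-(2 / 25) : ℝ) * w ^ (171 / 200 : ℝ)) + K * (w * (w ^ (-(2 / 25) : ℝ)) ^ 2)) := by ring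
      _ = C1 * (w ^ (1 / 200 : ℝ) + w ^ (7 / 100 : ℝ)) := by rw [h1, h2]
      _ ≤ C1 * (w ^ (1 / 200 : ℝ) + w ^ (1 / 200 : ℝ)) := by
          refine mul_le_mul_of_nonneg_left ?_ (by linarith)
          linarith
      _ = 2 * C1 * w ^ (1 / 200 : ℝ) := by ring
      _ ≤ 1 := h5
  have hfb : ∀ p ∈ W ×ˢ W, ((HSB.fb T p).card : ℝ) ≤ C1 * K ^ (1 + 1 / 10000 : ℝ) := by
    intro p hp
    rw [Finset.mem_product] at hp
    refine hcu w K (w ^ (-(2 / 25) : ℝ)) (w ^ (171 / 200 : ℝ)) (rp R w p.1).1 (rp R w p.2).1 (HSB.fb T p)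
      (hUm _ hp.1) (hUm _ hp.2) hw hw1 hK1 n1 (Real.rpow_nonneg hw.le _)
      (Real.rpow_le_rpow_of_exponent_ge hw hw1 (by norm_num)) n2 ?_ ?_
    · rcases hc with hc | hc
      · exact Or.inl ⟨hc _ hp.1, hc _ hp.2⟩
      · exact Or.inr ⟨hc _ hp.1, hc _ hp.2⟩
    · intro h hh
      unfold HSB.fb at hh
      rw [Finset.mem_image] at hh
      obtain ⟨t, ht, rfl⟩ := hh
      obtain ⟨ht1, ht2, ht3⟩ := (@Finset.mem_filter _ _ (_) T t).1 ht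
      have h1 := (hT t ht1).2.2
      rw [ht2, ht3] at h1
      exact h1
  have h1 := card_le W T _ (fun t ht => ⟨(hT t ht).1, (hT t ht).2.1⟩) hfb
  have h2 : K ^ (2 - 1 / 10000 : ℝ) * A ≤ C1 * K ^ (1 + 1 / 10000 : ℝ) := by
    have h3 : K ^ (2 - 1 / 10000 : ℝ) * A * (W.card : ℝ) ^ 2 ≤ C1 * K ^ (1 + 1 / 10000 : ℝ) * (W.card : ℝ) ^ 2 := by
      refine hTc.trans (h1.trans (le_of_eq ?_))
      ring
    exact le_of_mul_le_mul_right h3 (by positivity)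
  -- the contradiction
  have h3 : K ^ (2 - 1 / 10000 : ℝ) = K ^ (1 - 1 / 5000 : ℝ) * K ^ (1 + 1 / 10000 : ℝ) := by
    rw [← Real.rpow_add hK0]
    norm_num
  have h4 : w ^ (-(1 / 1000) : ℝ) ≤ K ^ (1 - 1 / 5000 : ℝ) * A := by
    have h5 : K ^ (1 - 1 / 5000 : ℝ) = w ^ (-(77 / 100) * (1 - 1 / 5000) : ℝ) := by
      rw [hK, ← Real.rpow_mul hw.le]
    calc w ^ (-(1 / 1000) : ℝ) ≤ w ^ (-(77 / 100) * (1 - 1 / 5000) + 19 / 25 : ℝ) :=
          Real.rpow_le_rpow_of_exponent_ge hw hw1 (by norm_num)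
      _ = w ^ (-(77 / 100) * (1 - 1 / 5000) : ℝ) * w ^ (19 / 25 : ℝ) := Real.rpow_add hw _ _
      _ ≤ _ := by
          rw [h5]
          exact mul_le_mul_of_nonneg_left hA (Real.rpow_nonneg hw.le _)
  have h6 : K ^ (1 - 1 / 5000 : ℝ) * A ≤ C1 := by
    rw [h3] at h2
    have h7 : K ^ (1 - 1 / 5000 : ℝ) * A * K ^ (1 + 1 / 10000 : ℝ) ≤ C1 * K ^ (1 + 1 / 10000 : ℝ) := by
      refine le_trans (le_of_eq ?_) h2
      ring
    exact le_of_mul_le_mul_right h7 (Real.rpow_pos_of_pos hK0 _)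
  linarith

end HBandC

open HBandC

open Classical in
/-- **the high band** -/
theorem highBandH (hAIb : StmtAIb) (hOv : StmtOv) (hCUc : HSB.S_CUc) (hTyp : HSB.S_Typ) (hFin : HSB.S_Fin) :
    StmtBand (6 / 25) (1 / 3 + 1 / 1000) := by
  refine ⟨1 / 1000, 4, by norm_num, by norm_num, ?_⟩
  intro R hR
  obtain ⟨C, hC, hAI0⟩ := hAIb R hR
  obtain ⟨B, w₁, hB, hw₁0, hw₁1, hAI⟩ := hAI0 (1 / 10000) (by norm_num)
  obtain ⟨C1, hC1, hcu⟩ := hCUc R C B (1 / 10000) hR hC hB (by norm_num)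
  obtain ⟨Bo, hBo, hov⟩ := hOv R hR
  obtain ⟨Ct, ct, hCt, hct, htyp⟩ := hTyp R (1 / 10000) hR (by norm_num)
  obtain ⟨w₂, hw₂0, hw₂1, hfin⟩ := hFin R C B (Bo * 16 ^ 14) (2 * Ct) hR hC hB (by nlinarith) (by linarith)
  obtain ⟨E, hEd⟩ : ∃ E : ℝ, E = 2 * C1 + 2 * Ct + 1 / ct + 8 := ⟨_, rfl⟩
  have hct' : 0 < 1 / ct := by positivity
  have hE1 : 1 ≤ E := by linarith
  have hE0 : 0 < E := by linarith
  refine ⟨min (min w₁ w₂) (E ^ (-(1000 : ℝ))), by positivity, (min_le_left _ _).trans ((min_le_left _ _).trans hw₁1), ?_⟩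
  intro l Φ hE hcsp w hw hww hG A hA1 hA2 V hV
  have hw1 : w ≤ w₁ := hww.trans ((min_le_left _ _).trans (min_le_left _ _))
  have hw2 : w ≤ w₂ := hww.trans ((min_le_left _ _).trans (min_le_right _ _))
  have hwE : E ≤ w ^ (-(1 / 1000) : ℝ) := small hE1 hw (hww.trans (min_le_right _ _))
  have hwle : w ≤ 1 := hw1.trans hw₁1
  have e1 : (1 : ℝ) - 6 / 25 = 19 / 25 := by norm_num
  have e2 : (1 : ℝ) - (1 / 3 + 1 / 1000) = 2 / 3 - 1 / 1000 := by norm_num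
  rw [e1] at hA1
  rw [e2] at hA2
  have e3 : (1 : ℝ) + 1 / 1000 = 1001 / 1000 := by norm_num
  rw [e3]
  have hA0 : 0 < A := lt_of_lt_of_le (Real.rpow_pos_of_pos hw _) hA1
  by_contra hcon
  rw [not_le] at hcon
  -- the cusp part
  set P := V.filter (fun z => HSB.Cu (w ^ (-(2 / 25) : ℝ)) (w ^ (171 / 200 : ℝ)) (rp R w z).1) with hP
  set P' := V.filter (fun z => HSB.Cu' (w ^ (-(2 / 25) : ℝ)) (w ^ (171 / 200 : ℝ)) (rp R w z).1) with hP'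
  set V1 := V.filter (fun z => ¬ HSB.Cu (w ^ (-(2 / 25) : ℝ)) (w ^ (171 / 200 : ℝ)) (rp R w z).1 ∧
    ¬ HSB.Cu' (w ^ (-(2 / 25) : ℝ)) (w ^ (171 / 200 : ℝ)) (rp R w z).1) with hV1
  have hPm := cuMass hAI hC1 hcu hE hw hwle hw1 hG (by linarith) hA1 P (hV.mono (Finset.filter_subset _ _))
    (Or.inl fun z hz => (Finset.mem_filter.1 hz).2)
  have hPm' := cuMass hAI hC1 hcu hE hw hwle hw1 hG (by linarith) hA1 P' (hV.mono (Finset.filter_subset _ _))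
    (Or.inr fun z hz => (Finset.mem_filter.1 hz).2)
  have hcard : (V.card : ℝ) ≤ (V1.card : ℝ) + (P.card : ℝ) + (P'.card : ℝ) := by
    have h1 : V ⊆ V1 ∪ P ∪ P' := by
      intro z hz
      rw [hV1, hP, hP', Finset.mem_union, Finset.mem_union, Finset.mem_filter, Finset.mem_filter, Finset.mem_filter]
      by_cases a1 : HSB.Cu (w ^ (-(2 / 25) : ℝ)) (w ^ (171 / 200 : ℝ)) (rp R w z).1
      · exact Or.inl (Or.inr ⟨hz, a1⟩)
      · by_cases a2 : HSB.Cu' (w ^ (-(2 / 25) : ℝ)) (w ^ (171 / 200 : ℝ)) (rp R w z).1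
        · exact Or.inr ⟨hz, a2⟩
        · exact Or.inl (Or.inl ⟨hz, a1, a2⟩)
    have h2 : V.card ≤ V1.card + P.card + P'.card :=
      (Finset.card_le_card h1).trans ((Finset.card_union_le _ _).trans
        (Nat.add_le_add_right (Finset.card_union_le _ _) _))
    exact_mod_cast h2
  have hAP : A * (A * (P.card : ℝ)) ≤ 1 / 8 * w ^ (1001 / 1000 : ℝ) ∧ A * (A * (P'.card : ℝ)) ≤ 1 / 8 * w ^ (1001 / 1000 : ℝ) := by
    have h1 : ∀ x : ℝ, 0 ≤ x → x ≤ w ^ (19 / 50 : ℝ) → A * x ≤ 1 / 8 * w ^ (1001 / 1000 : ℝ) := by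
      intro x hx0 hx
      have h2 : A * x ≤ w ^ (2 / 3 - 1 / 1000 : ℝ) * w ^ (19 / 50 : ℝ) := mul_le_mul hA2 hx hx0 (Real.rpow_nonneg hw.le _)
      rw [← Real.rpow_add hw] at h2
      have h3 := mulpow (E := 8) (a := 2 / 3 - 1 / 1000 + 19 / 50) (b := 1001 / 1000) hw hwle (by linarith) (by norm_num)
      linarith
    exact ⟨h1 _ (by positivity) hPm, h1 _ (by positivity) hPm'⟩
  have hV1c : w ^ (1001 / 1000 : ℝ) ≤ 2 * A ^ 2 * (V1.card : ℝ) := by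
    have h1 : A ^ 2 * (V.card : ℝ) ≤ A ^ 2 * ((V1.card : ℝ) + (P.card : ℝ) + (P'.card : ℝ)) :=
      mul_le_mul_of_nonneg_left hcard (by positivity)
    have h2 : A ^ 2 * ((V1.card : ℝ) + (P.card : ℝ) + (P'.card : ℝ)) =
        A ^ 2 * (V1.card : ℝ) + A * (A * (P.card : ℝ)) + A * (A * (P'.card : ℝ)) := by ring
    rw [h2] at h1
    have h3 : 0 < w ^ (1001 / 1000 : ℝ) := Real.rpow_pos_of_pos hw _
    linarith [hAP.1, hAP.2]
  have hV1M : CelM Φ R w A V1 := hV.mono (Finset.filter_subset _ _)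
  have hU1 : HSL.Flp.Uni R V1 (fun z => (rp R w z).1) := fun z hz => sy_unim (C := 1) (hV1M.ne hA0) z hz
  -- one type
  obtain ⟨V2, hV2, hV2c, hTy⟩ := htyp (Fin 3 → ℤ) V1 (fun z => (rp R w z).1) w hw hwle hU1
  have hV2M : CelM Φ R w A V2 := hV1M.mono hV2
  have hbig : w ^ (1001 / 1000 : ℝ) ≤ 2 * Ct * A ^ 2 * (V2.card : ℝ) := by
    refine hV1c.trans ?_
    calc 2 * A ^ 2 * (V1.card : ℝ) ≤ 2 * A ^ 2 * (Ct * (V2.card : ℝ)) :=
          mul_le_mul_of_nonneg_left hV2c (by positivity)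
      _ = _ := by ring
  have hV2p : 0 < (V2.card : ℝ) := by
    by_contra h0
    have h1 : (V2.card : ℝ) = 0 := le_antisymm (not_lt.1 h0) (Nat.cast_nonneg _)
    rw [h1, mul_zero] at hbig
    exact absurd hbig (not_le.2 (Real.rpow_pos_of_pos hw _))
  -- the amplifier
  have hKlo : w ^ (-(369 / 500) : ℝ) ≤ HSB.KA w A := by
    unfold HSB.KA
    calc w ^ (-(369 / 500) : ℝ) = w ^ (19 / 25 + -(749 / 500) : ℝ) := by norm_num
      _ = w ^ (19 / 25 : ℝ) * w ^ (-(749 / 500) : ℝ) := Real.rpow_add hw _ _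
      _ ≤ _ := mul_le_mul_of_nonneg_right hA1 (Real.rpow_nonneg hw.le _)
  have hKhi : HSB.KA w A ≤ w⁻¹ := by
    unfold HSB.KA
    calc A * w ^ (-(749 / 500) : ℝ) ≤ w ^ (2 / 3 - 1 / 1000 : ℝ) * w ^ (-(749 / 500) : ℝ) :=
          mul_le_mul_of_nonneg_right hA2 (Real.rpow_nonneg hw.le _)
      _ = w ^ (2 / 3 - 1 / 1000 + -(749 / 500) : ℝ) := (Real.rpow_add hw _ _).symm
      _ ≤ w ^ (-1 : ℝ) := Real.rpow_le_rpow_of_exponent_ge hw hwle (by norm_num)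
      _ = w⁻¹ := Real.rpow_neg_one w
  have hKp : 0 < HSB.KA w A := lt_of_lt_of_le (Real.rpow_pos_of_pos hw _) hKlo
  obtain ⟨T, hT, hTc⟩ := hAI l Φ hE w hw hw1 hG (HSB.KA w A) A
    ((Real.rpow_le_rpow_of_exponent_ge hw hwle (by norm_num)).trans hKlo) hKhi hA0 V2 hV2M
    (by
      have h1 : HSB.KA w A ^ (-(1 / 2) + 1 / 10000 : ℝ) ≤ w ^ (-(369 / 500) * (-(1 / 2) + 1 / 10000) : ℝ) := by
        rw [Real.rpow_mul hw.le]
        exact Real.rpow_le_rpow_of_nonpos (Real.rpow_pos_of_pos hw _) hKlo (by norm_num)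
      have h2 : A * HSB.KA w A ^ (-(1 / 2) + 1 / 10000 : ℝ) ≤
          w ^ (2 / 3 - 1 / 1000 + -(369 / 500) * (-(1 / 2) + 1 / 10000) : ℝ) := by
        rw [Real.rpow_add hw]
        exact mul_le_mul hA2 h1 (Real.rpow_nonneg hKp.le _) (Real.rpow_nonneg hw.le _)
      have h3 := mulpow (E := 2 * Ct) (a := 2 / 3 - 1 / 1000 + -(369 / 500) * (-(1 / 2) + 1 / 10000)) (b := 1001 / 1000)
        hw hwle (by linarith) (by norm_num)
      have h4 : 2 * Ct * (A * HSB.KA w A ^ (-(1 / 2) + 1 / 10000 : ℝ)) ≤ 2 * Ct * A ^ 2 * (V2.card : ℝ) :=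
        (mul_le_mul_of_nonneg_left h2 (by linarith)).trans (h3.trans hbig)
      have h5 : 0 < 2 * Ct * A := by positivity
      have h6 : 2 * Ct * A * HSB.KA w A ^ (-(1 / 2) + 1 / 10000 : ℝ) ≤ 2 * Ct * A * (A * (V2.card : ℝ)) := by
        refine le_trans (le_of_eq ?_) (h4.trans (le_of_eq ?_)) <;> ring
      exact le_of_mul_le_mul_left h6 h5)
  have hne2 := hV2M.ne hA0
  refine hfin w A (Fin 3 → ℤ) V2 (fun z => (rp R w z).1) T hw hw2 hA1 hA2 (fun z hz => hU1 z (hV2 hz)) ?_ ?_ ?_ ?_ hTc hbig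
  · intro i hi S hS
    have h1 := hov w hw hwle C V2 hne2 16 (by norm_num) i hi 1 1 (by simp) one_pos S
      (by
        intro t ht
        obtain ⟨a1, a2, a3⟩ := hS t ht
        refine ⟨a1, a2, ?_, one_pos, ?_⟩
        · rw [mul_one, a2]
          simp
        · rw [mul_one, KKw hw]
          exact_mod_cast a3)
    exact h1
  · intro i hi
    exact (Finset.mem_filter.1 (hV2 hi)).2
  · intro i hi j hj
    have h1 := hTy i hi j hj (w ^ (-(9 / 10) : ℝ))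
      (by
        rw [← Real.rpow_add hw]
        have h2 := mulpow (E := E) (a := 1 - 1 / 10000 + -(9 / 10)) (b := 0) hw hwle hwE (by norm_num)
        rw [Real.rpow_zero] at h2
        have h3 : 1 / ct ≤ E := by linarith
        have h4 : 0 < w ^ (1 - 1 / 10000 + -(9 / 10) : ℝ) := Real.rpow_pos_of_pos hw _
        have h5 : 1 / ct * w ^ (1 - 1 / 10000 + -(9 / 10) : ℝ) ≤ 1 := (mul_le_mul_of_nonneg_right h3 h4.le).trans h2
        rw [one_div, inv_mul_le_iff₀ hct, mul_one] at h5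
        exact h5)
    intro T' hT0 hTT hu
    obtain ⟨u', hu1, hu2⟩ := h1 T' hT0 hTT hu
    refine ⟨u', hu1, HSB.Bx_mono hw.le ?_ hu2⟩
    refine mul_le_mul_of_nonneg_right ?_ hT0
    have e4 : (-(2 * (1 / 10000)) : ℝ) = -(1 / 5000) := by norm_num
    rw [e4]
    exact mul_le_mul_of_nonneg_right (by linarith) (Real.rpow_nonneg hw.le _)
  · intro t ht
    obtain ⟨a1, a2, a3, a4⟩ := hT t ht
    exact ⟨a1, a2, a3, a4⟩

end

end Pool.Agent.A54.HS
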