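import Pool.Agent.Lib.HS.Bd.SpecHigh

/-!
# Package `HS`, high bands: the contradiction for a family of cells (`S_Fin`)
-/

set_option autoImplicit false

namespace HSB

open HSL Matrix

namespace HFinAux

lemma Cu_mono {ρ ρ' e e' : ℝ} {a : MR} (h1 : ρ ≤ ρ') (h2 : e ≤ e') (h : Cu ρ e a) : Cu ρ' e' a := by
  obtain ⟨q, h0, h3, h4⟩ := h
  exact ⟨q, h0, h3.trans h1, h4.trans h2⟩

lemma Cu'_mono {ρ ρ' e e' : ℝ} {a : MR} (h1 : ρ ≤ ρ') (h2 : e ≤ e') (h : Cu' ρ e a) : Cu' ρ' e' a := by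
  obtain ⟨q, h0, h3, h4⟩ := h
  exact ⟨q, h0, h3.trans h1, h4.trans h2⟩

lemma Fl_mono {Z Z' w : ℝ} {a b : MR} {r : MZ} (hw : 0 ≤ w) (h : Z ≤ Z') (hr : Flp.Fl Z w a b r) :
    Flp.Fl Z' w a b r := by
  have h1 := mul_le_mul_of_nonneg_left h hw
  exact ⟨hr.1, hr.2.1.trans h1, hr.2.2.1.trans h1, hr.2.2.2.1.trans h, hr.2.2.2.2.trans h⟩

lemma J_ent {R : ℝ} {a : MR} (h : ∀ i j, |a i j| ≤ R) : ∀ i j, |(a * Flp.J) i j| ≤ R := by
  intro i j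
  have e : (a * Flp.J) i j = a i 0 * Flp.J 0 j + a i 1 * Flp.J 1 j := by
    rw [Matrix.mul_apply, Fin.sum_univ_two]
  rw [e]
  fin_cases j
  · simpa [Flp.J] using h i 1
  · simpa [Flp.J] using h i 0

lemma J_det {a : MR} (h : a.det = 1) : (a * Flp.J).det = 1 := by
  rw [Matrix.det_mul, h]
  simp [Flp.J, Matrix.det_fin_two]

/-- the conclusion of `S_Deg` for the constant `Cd` -/
def DegC (Cd : ℝ) : Prop :=
  ∀ (ι : Type) (V : Finset ι) (g : ι → MR) (R w B Y d : ℝ) (a : MR) (W : Finset ι),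
    1 ≤ R → 0 < w → 0 ≤ B → 1 ≤ Y → 0 ≤ d → 16 * w * Y ^ 2 ≤ 1 → Flp.Uni R V g → Flp.Ov w B V g → a.det = 1 → W ⊆ V →
    (∀ y ∈ W, ∃ u : MZ, u.det ≠ 0 ∧ Flp.Dg Y w a (g y) u ∧
      |fr a (g y) u 0 0| * |fr a (g y) u 1 1| ≤ d) →
    (W.card : ℝ) ≤ Cd * B * R ^ 4 * d * Y ^ 2 * (1 + Real.log Y) ^ 2

/-- short frames: an integral matrix with small gauge vanishes -/
def FrC : Prop := ∀ (R lam w : ℝ) (a b : MR) (u : MZ), 1 ≤ R → 0 < w → w ≤ 1 → a.det = 1 → b.det = 1 →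
    (∀ i j, |a i j| ≤ R) → (∀ i j, |b i j| ≤ R) → u ≠ 0 → 4 * R ^ 2 * lam < 1 → ¬ Flp.Dg lam w a b u

open Classical in
/-- the number of pairs -/
lemma card_pairs {ι : Type} (V : Finset ι) (E : Finset (ι × ι)) (x10 : ℝ) (hE : ∀ p ∈ E, p.1 ∈ V ∧ p.2 ∈ V)
    (hdeg : ∀ x ∈ V, (((V.filter (fun y => (x, y) ∈ E)).card : ℕ) : ℝ) ≤ x10) :
    (E.card : ℝ) ≤ (V.card : ℝ) * x10 := by
  have h1 : E.card ≤ ∑ x ∈ V, (V.filter (fun y => (x, y) ∈ E)).card := by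
    have h2 : E ⊆ V.biUnion (fun x => (V.filter (fun y => (x, y) ∈ E)).image (fun y => (x, y))) := by
      intro p hp
      obtain ⟨hp1, hp2⟩ := hE p hp
      rw [Finset.mem_biUnion]
      refine ⟨p.1, hp1, ?_⟩
      rw [Finset.mem_image]
      exact ⟨p.2, Finset.mem_filter.2 ⟨hp2, hp⟩, rfl⟩
    refine (Finset.card_le_card h2).trans (Finset.card_biUnion_le.trans ?_)
    exact Finset.sum_le_sum fun x _ => Finset.card_image_le
  calc (E.card : ℝ) ≤ ((∑ x ∈ V, (V.filter (fun y => (x, y) ∈ E)).card : ℕ) : ℝ) := by exact_mod_cast h1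
    _ = ∑ x ∈ V, (((V.filter (fun y => (x, y) ∈ E)).card : ℕ) : ℝ) := by push_cast; rfl
    _ ≤ ∑ _x ∈ V, x10 := Finset.sum_le_sum hdeg
    _ = (V.card : ℝ) * x10 := by rw [Finset.sum_const, nsmul_eq_mul]

open Classical in
/-- the case of short vectors -/
lemma caseA {Cd : ℝ} (Deg : DegC Cd) (Fr5 : FrC) {ι : Type} (V : Finset ι) (g : ι → MR) (E : Finset (ι × ι))
    (R w Bo D' lam L t x10 : ℝ) (hR : 1 ≤ R) (hw : 0 < w) (hwle : w ≤ 1) (hBo : 1 ≤ Bo)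
    (dCd : Cd * Bo * R ^ 4 ≤ D') (dR : 4 * R ^ 2 ≤ D') (d16 : 16 ≤ D') (ht : 1 ≤ t) (hl : 1 / 2 ≤ lam) (hL : 1 ≤ L)
    (hU : Flp.Uni R V g) (hOv : Flp.Ov w Bo V g)
    (hs : ∀ p ∈ E, p.1 ∈ V ∧ p.2 ∈ V ∧ ∃ u : MZ, u.det ≠ 0 ∧ u ∈ Bx w (t / lam) (g p.1) (g p.2))
    (k2 : D' * w * (D' * t) ^ 2 ≤ 1) (k3 : D' * (D' * t) ^ 4 * (1 + Real.log (D' * t)) ^ 2 ≤ x10)
    (hN : 0 < (V.card : ℝ)) (hx10 : 0 ≤ x10) (hNE : (V.card : ℝ) ^ 2 ≤ 16 * L * lam * (E.card : ℝ))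
    (n31 : lam ≤ D' * t → D' * L * lam * x10 < (V.card : ℝ)) : False := by
  have hl0 : 0 < lam := by linarith
  have hD0 : 0 < D' := by linarith
  have ht0 : 0 < t := by linarith
  have hne : E.Nonempty := by
    rw [Finset.nonempty_iff_ne_empty]
    rintro rfl
    rw [Finset.card_empty, Nat.cast_zero, mul_zero] at hNE
    have : 0 < (V.card : ℝ) ^ 2 := by positivity
    linarith
  have hlam : lam ≤ D' * t := by
    obtain ⟨p, hp⟩ := hne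
    obtain ⟨hp1, hp2, u, hu1, hu2⟩ := hs p hp
    by_contra h0
    rw [not_le] at h0
    have hu0 : u ≠ 0 := by
      rintro rfl
      simp at hu1
    refine Fr5 R (t / lam) w (g p.1) (g p.2) u hR hw hwle (hU _ hp1).1 (hU _ hp2).1
      (hU _ hp1).2 (hU _ hp2).2 hu0 ?_ hu2
    rw [← mul_div_assoc, div_lt_one hl0]
    exact lt_of_le_of_lt (mul_le_mul_of_nonneg_right dR ht0.le) h0
  have hY1 : 1 ≤ D' * t := by nlinarith
  have hYl : t / lam ≤ D' * t := by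
    rw [div_le_iff₀ hl0]
    have h1 : 1 ≤ D' * lam := by nlinarith
    nlinarith
  generalize hY : D' * t = Y at *
  have hY0 : 0 < Y := by linarith
  have hdeg : ∀ x ∈ V, (((V.filter (fun y => (x, y) ∈ E)).card : ℕ) : ℝ) ≤ x10 := by
    intro x hx
    have h1 := Deg ι V g R w Bo Y (Y ^ 2) (g x) (V.filter (fun y => (x, y) ∈ E)) hR hw (by linarith) hY1 (by positivity)
      (le_trans (mul_le_mul_of_nonneg_right (mul_le_mul_of_nonneg_right d16 hw.le) (by positivity)) k2) hU hOv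
      (hU x hx).1 (Finset.filter_subset _ _)
      (by
        intro y hy
        rw [Finset.mem_filter] at hy
        obtain ⟨-, -, u, hu1, hu2⟩ := hs _ hy.2
        have hu3 := Bx_mono hw.le hYl hu2
        refine ⟨u, hu1, hu3, ?_⟩
        calc |fr (g x) (g y) u 0 0| * |fr (g x) (g y) u 1 1| ≤ Y * Y :=
              mul_le_mul hu3.1 hu3.2.1 (abs_nonneg _) hY0.le
          _ = Y ^ 2 := by ring)
    refine h1.trans (le_trans ?_ k3)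
    have e : Cd * Bo * R ^ 4 * Y ^ 2 * Y ^ 2 * (1 + Real.log Y) ^ 2 = Cd * Bo * R ^ 4 * Y ^ 4 * (1 + Real.log Y) ^ 2 := by
      ring
    rw [e]
    refine mul_le_mul_of_nonneg_right ?_ (sq_nonneg _)
    exact mul_le_mul_of_nonneg_right dCd (by positivity)
  have hEaN := card_pairs V E x10 (fun p hp => ⟨(hs p hp).1, (hs p hp).2.1⟩) hdeg
  have hfin := n31 hlam
  have hLl : 0 < L * lam := by nlinarith
  have h5 : (V.card : ℝ) ^ 2 ≤ D' * L * lam * x10 * (V.card : ℝ) := by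
    calc (V.card : ℝ) ^ 2 ≤ 16 * L * lam * (E.card : ℝ) := hNE
      _ = 16 * ((L * lam) * (E.card : ℝ)) := by ring
      _ ≤ 16 * ((L * lam) * ((V.card : ℝ) * x10)) :=
          mul_le_mul_of_nonneg_left (mul_le_mul_of_nonneg_left hEaN hLl.le) (by norm_num)
      _ ≤ D' * ((L * lam) * ((V.card : ℝ) * x10)) := mul_le_mul_of_nonneg_right d16 (by positivity)
      _ = _ := by ring
  rw [pow_two] at h5
  have h6 := le_of_mul_le_mul_right h5 hN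
  linarith

open Classical in
/-- the case of flips -/
lemma caseB {Cf ε : ℝ} (hCf : 1 ≤ Cf)
    (R : ℝ) (Flip : ∀ (ι : Type) (V : Finset ι) (g : ι → MR) (w Z B lam0 ρ : ℝ) (E : Finset (ι × ι)),
      0 < w → w ≤ 1 → 1 ≤ Z → 1 ≤ B → 0 < lam0 → 0 < ρ → Cf * w * Z ^ 6 ≤ 1 → Flp.Uni R V g → Flp.Ov w B V g →
      (∀ i ∈ V, ∀ j ∈ V, ∀ u : MZ, u ≠ 0 → u.det = 0 → ¬ Flp.Dg lam0 w (g i) (g j) u) →
      (∀ t ∈ E, t.1 ∈ V ∧ t.2 ∈ V ∧ ∃ r : MZ, Flp.Fl Z w (g t.1) (g t.2) r) →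
      ρ * (V.card : ℝ) ^ 2 ≤ (E.card : ℝ) →
      ρ ^ 8 * (V.card : ℝ) ^ 5 ≤ Cf * B ^ 5 * Z ^ (16 + ε) ∨
      ρ ^ 3 * (V.card : ℝ) ^ 2 * lam0 ^ 2 ≤ Cf * B ^ 2 * Z ^ (8 + ε))
    (Fr2 : ∀ (Z w : ℝ) (a b : MR) (r : MZ), Flp.Fl Z w a b r → Flp.Dg Z w (a * Flp.J) b r) (Fr5 : FrC)
    (hCUu : S_CUu) (hCUr : S_CUr) {ι : Type} (V : Finset ι) (g : ι → MR) (E : Finset (ι × ι))
    (w Bo D' lam L zz t71 t7 s25 e855 : ℝ) (hR : 1 ≤ R) (hw : 0 < w) (hwle : w ≤ 1) (hBo : 1 ≤ Bo)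
    (dCf : Cf * Bo ^ 5 ≤ D') (dR : 4 * R ^ 2 ≤ D') (d16 : 16 ≤ D') (hl : 0 < lam) (hL : 1 ≤ L) (hzz : 0 < zz)
    (ht7 : 0 < t7) (h855 : e855 ≤ 1)
    (hU : Flp.Uni R V g) (hOv : Flp.Ov w Bo V g)
    (hCu : ∀ i ∈ V, ¬ Cu s25 e855 (g i) ∧ ¬ Cu' s25 e855 (g i))
    (hs : ∀ p ∈ E, p.1 ∈ V ∧ p.2 ∈ V ∧ ∃ r : MZ, Prim r ∧ r ∈ Ab w zz (g p.1) (g p.2))
    (hz1 : D' * zz ≤ t71) (k1 : D' * w * t71 ^ 6 ≤ 1) (k4 : D' * t7 ≤ s25) (k5 : D' * (w * t7) ≤ e855)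
    (k6 : D' * (w * t71) ≤ e855) (k7 : √t71 ≤ s25)
    (hN : 0 < (V.card : ℝ)) (hNE : (V.card : ℝ) ^ 2 ≤ 16 * L * lam * (E.card : ℝ))
    (n32 : D' * (D' * zz) ^ (16 + ε) < (1 / (D' * L * lam)) ^ 8 * (V.card : ℝ) ^ 5)
    (n33 : D' * (D' * zz) ^ (8 + ε) < (1 / (D' * L * lam)) ^ 3 * (V.card : ℝ) ^ 2 * t7 ^ 2) : False := by
  have hR0 : 0 < R := by linarith
  have hD0 : 0 < D' := by linarith
  have hD1 : 1 ≤ D' := by linarith
  have d2R : 2 * R ≤ D' := by nlinarith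
  have dCf1 : Cf ≤ D' := le_trans (le_mul_of_one_le_right (by linarith) (one_le_pow₀ hBo)) dCf
  have dCf2 : Cf * Bo ^ 2 ≤ D' :=
    le_trans (mul_le_mul_of_nonneg_left (pow_le_pow_right₀ hBo (by norm_num)) (by linarith)) dCf
  have hne : E.Nonempty := by
    rw [Finset.nonempty_iff_ne_empty]
    rintro rfl
    rw [Finset.card_empty, Nat.cast_zero, mul_zero] at hNE
    have : 0 < (V.card : ℝ) ^ 2 := by positivity
    linarith
  have hzle : zz ≤ D' * zz := le_mul_of_one_le_left hzz.le hD1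
  have hz2 : zz ≤ t71 := hzle.trans hz1
  have ht71 : 0 < t71 := by linarith
  have hwz : w * zz ≤ w * t71 := mul_le_mul_of_nonneg_left hz2 hw.le
  have h3 : 4 * R ^ 2 * (w * zz) < 1 := by
    have h4 : 4 * R ^ 2 * (w * zz) = w * (4 * R ^ 2 * zz) := by ring
    have h5 : 4 * R ^ 2 * zz ≤ D' * zz := mul_le_mul_of_nonneg_right dR hzz.le
    have h6 : w * (4 * R ^ 2 * zz) ≤ w * t71 := mul_le_mul_of_nonneg_left (h5.trans hz1) hw.le
    have h7 : 0 < w * t71 := by positivity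
    have h8 : 16 * (w * t71) ≤ D' * (w * t71) := mul_le_mul_of_nonneg_right d16 h7.le
    linarith
  have hss : √zz ≤ s25 := (Real.sqrt_le_sqrt hz2).trans k7
  have he : 2 * R * (w * zz) ≤ e855 := by
    refine le_trans ?_ k6
    exact mul_le_mul d2R hwz (by positivity) hD0.le
  have hflip : ∀ p ∈ E, p.1 ∈ V ∧ p.2 ∈ V ∧ ∃ r : MZ, Flp.Fl zz w (g p.1) (g p.2) r := by
    intro p hp
    obtain ⟨hp1, hp2, r, hr1, hr2⟩ := hs p hp
    refine ⟨hp1, hp2, r, ?_, hr2⟩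
    intro hdet
    have hr0 : r ≠ 0 := by
      rintro rfl
      have := hr1 2 (fun i j => by simp)
      rw [Int.isUnit_iff] at this
      omega
    rcases hCUr R w zz (g p.1) (g p.2) r hR (hU _ hp1) (hU _ hp2) hw hzz.le h3 hr0 hdet hr2 with
      (h | h) | (h | h)
    · exact (hCu _ hp1).1 (Cu_mono hss he h)
    · exact (hCu _ hp1).2 (Cu'_mono hss he h)
    · exact (hCu _ hp2).1 (Cu_mono hss he h)
    · exact (hCu _ hp2).2 (Cu'_mono hss he h)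
  have hZ1 : 1 ≤ D' * zz := by
    obtain ⟨p, hp⟩ := hne
    obtain ⟨hp1, hp2, r, hr⟩ := hflip p hp
    by_contra h0
    rw [not_le] at h0
    have hr0 : r ≠ 0 := by
      rintro rfl
      have := hr.1
      simp at this
    refine Fr5 R zz w (g p.1 * Flp.J) (g p.2) r hR hw hwle (J_det (hU _ hp1).1) (hU _ hp2).1
      (J_ent (hU _ hp1).2) (hU _ hp2).2 hr0 ?_ (Fr2 zz w (g p.1) (g p.2) r hr)
    exact lt_of_le_of_lt (mul_le_mul_of_nonneg_right dR hzz.le) h0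
  have hρd : 0 < 1 / (D' * L * lam) := by positivity
  have hflipL := Flip ι V g w (D' * zz) Bo t7 (1 / (D' * L * lam)) E hw hwle hZ1 hBo ht7 hρd
    (by
      refine le_trans ?_ k1
      exact mul_le_mul (mul_le_mul_of_nonneg_right dCf1 hw.le) (pow_le_pow_left₀ (by positivity) hz1 6)
        (by positivity) (by positivity)) hU hOv
    (by
      intro i hi j hj u hu0 hud hDg
      have he : 2 * R * (w * t7) ≤ e855 := le_trans (mul_le_mul_of_nonneg_right d2R (by positivity)) k5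
      have hs : 2 * R * t7 ≤ s25 := le_trans (mul_le_mul_of_nonneg_right d2R ht7.le) k4
      rcases hCUu R w t7 (g i) (g j) u hR (hU i hi) (hU j hj) hw ht7.le hu0 hud hDg with h | h
      · exact (hCu i hi).1 (Cu_mono hs he h)
      · exact (hCu i hi).2 (Cu'_mono hs he h))
    (by
      intro t ht
      obtain ⟨h1, h2, r, hr⟩ := hflip t ht
      exact ⟨h1, h2, r, Fl_mono hw.le hzle hr⟩)
    (by
      rw [one_div, inv_mul_le_iff₀ (by positivity)]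
      calc (V.card : ℝ) ^ 2 ≤ 16 * L * lam * (E.card : ℝ) := hNE
        _ = 16 * (L * lam * (E.card : ℝ)) := by ring
        _ ≤ D' * (L * lam * (E.card : ℝ)) := mul_le_mul_of_nonneg_right d16 (by positivity)
        _ = _ := by ring)
  rcases hflipL with h | h
  · have h1 : Cf * Bo ^ 5 * (D' * zz) ^ (16 + ε) ≤ D' * (D' * zz) ^ (16 + ε) :=
      mul_le_mul_of_nonneg_right dCf (by positivity)
    linarith
  · have h1 : Cf * Bo ^ 2 * (D' * zz) ^ (8 + ε) ≤ D' * (D' * zz) ^ (8 + ε) :=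
      mul_le_mul_of_nonneg_right dCf2 (by positivity)
    linarith

/-- the conclusion of `S_PA` for one pair -/
def PAC (R C B ε C1 : ℝ) : Prop := ∀ (w K ρ N : ℝ) (a b : MR) (H : Finset MZ),
    0 < w → 1 ≤ K → C1 * w * K ≤ 1 → 1 ≤ ρ → Um R a → Um R b → Ty w ρ (C1 * K) a b →
    (∀ h ∈ H, SqR C B w K a b h) →
    C1 * ρ ^ 4 * K ^ ε * (1 + w * K ^ 2 + w ^ (3 / 2 : ℝ) * K ^ 3) ≤ N → N ≤ (H.card : ℝ) →
    (∃ u : MZ, u ≠ 0 ∧ u ∈ Bx w (C1 * ρ * K ^ (1 + ε) / N) a b) ∨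
    (∃ r : MZ, Prim r ∧ r ∈ Ab w (w * (C1 * ρ * K ^ (2 + ε) / N) ^ (3 / 2 : ℝ)) a b ∧ ∀ h ∈ H, pl h r = 0)

/-- the pair alternative with the numbers inserted -/
lemma alt {R C B ε C1 : ℝ} (PA : PAC R C B ε C1) (hC1 : 1 ≤ C1) {w K ρ N0 D D' lam t9 t zz : ℝ} {a b : MR} {H : Finset MZ}
    (hw : 0 < w) (hK : 1 ≤ K) (dC1 : C1 ≤ D') (hDD : D * t ≤ ρ) (_ht : 0 ≤ t) (hρ : 1 ≤ ρ)
    (n21 : D' * K ≤ t9) (n22 : D' * w * K ≤ 1) (n3 : D' * ρ ^ 4 * K ^ ε * (1 + w * K ^ 2 + w ^ (3 / 2 : ℝ) * K ^ 3) ≤ 1 / 2 * N0)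
    (hN0 : 0 < N0) (hl : 1 / 2 ≤ lam) (ha : Um R a) (hb : Um R b)
    (hTy : Ty w (D * t) t9 a b) (hH : ∀ h ∈ H, SqR C B w K a b h) (hc : lam * N0 ≤ (H.card : ℝ))
    (m2 : w * (D' * ρ * K ^ (2 + ε) / (lam * N0)) ^ (3 / 2 : ℝ) ≤ zz)
    {t23 : ℝ} (m1 : ρ * (D' * ρ * K ^ (1 + ε) / (lam * N0)) ≤ t23 / lam) (h23 : t23 / lam ≤ t9) :
    (∃ u : MZ, u.det ≠ 0 ∧ u ∈ Bx w (t23 / lam) a b) ∨ (∃ r : MZ, Prim r ∧ r ∈ Ab w zz a b) := by
  have hK0 : 0 < K := by linarith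
  have hl0 : 0 < lam := by linarith
  have hρ0 : 0 < ρ := by linarith
  have hTy' : ∀ T₀ : ℝ, T₀ ≤ t9 → Ty w ρ T₀ a b := by
    intro T₀ hT₀ T hT0 hTT hu
    obtain ⟨u', hu1, hu2⟩ := hTy T hT0 (hTT.trans hT₀) hu
    exact ⟨u', hu1, Bx_mono hw.le (mul_le_mul_of_nonneg_right hDD hT0) hu2⟩
  have h1 := PA w K ρ (lam * N0) a b H hw hK
    (le_trans (mul_le_mul_of_nonneg_right (mul_le_mul_of_nonneg_right dC1 hw.le) hK0.le) n22) hρ ha hb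
    (hTy' _ (le_trans (mul_le_mul_of_nonneg_right dC1 hK0.le) n21)) hH
    (by
      have e0 : 0 ≤ 1 + w * K ^ 2 + w ^ (3 / 2 : ℝ) * K ^ 3 := by positivity
      have e1 : 0 ≤ K ^ ε := by positivity
      have h2 : C1 * ρ ^ 4 * K ^ ε * (1 + w * K ^ 2 + w ^ (3 / 2 : ℝ) * K ^ 3) ≤ 1 / 2 * N0 := by
        refine le_trans ?_ n3
        refine mul_le_mul_of_nonneg_right (mul_le_mul_of_nonneg_right ?_ e1) e0
        exact mul_le_mul_of_nonneg_right dC1 (by positivity)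
      exact h2.trans (mul_le_mul_of_nonneg_right hl hN0.le)) hc
  have e2 : ∀ x : ℝ, 0 ≤ x → C1 * ρ * x / (lam * N0) ≤ D' * ρ * x / (lam * N0) := by
    intro x hx
    refine div_le_div_of_nonneg_right ?_ (by positivity)
    exact mul_le_mul_of_nonneg_right (mul_le_mul_of_nonneg_right dC1 hρ0.le) hx
  rcases h1 with ⟨u, hu0, hu⟩ | ⟨r, hr1, hr2, -⟩
  · left
    have e3 := e2 (K ^ (1 + ε)) (by positivity)
    have e4 : 0 ≤ C1 * ρ * K ^ (1 + ε) / (lam * N0) := by positivity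
    have e5 : ρ * (C1 * ρ * K ^ (1 + ε) / (lam * N0)) ≤ t23 / lam := (mul_le_mul_of_nonneg_left e3 hρ0.le).trans m1
    have e6 : C1 * ρ * K ^ (1 + ε) / (lam * N0) ≤ t9 := (le_mul_of_one_le_left e4 hρ).trans (e5.trans h23)
    obtain ⟨u', hu1, hu2⟩ := hTy' t9 le_rfl _ e4 e6 ⟨u, hu0, hu⟩
    exact ⟨u', hu1, Bx_mono hw.le e5 hu2⟩
  · right
    refine ⟨r, hr1, Ab_mono hw.le ?_ hr2⟩
    refine le_trans ?_ m2
    refine mul_le_mul_of_nonneg_left ?_ hw.le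
    refine Real.rpow_le_rpow (by positivity) (e2 _ (by positivity)) (by norm_num)

end HFinAux

open HFinAux

open Classical in
theorem tFin (hPA : S_PA) (hDeg : Flp.S_Deg) (hFlip : Flp.StmtFlip) (hFrm : Flp.S_Frm) (hCUu : S_CUu) (hCUr : S_CUr)
    (hPig : S_Pig) (hFbB : S_FbB) (hNu1 : S_Nu1) (hNu2 : S_Nu2) (hNu3 : S_Nu3) (hNu4 : S_Nu4) : S_Fin := by
  intro R C B Bo D hR hC hB hBo hD
  have hε : (0 : ℝ) < 1 / 10000 := by norm_num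
  obtain ⟨C1, hC1, PA⟩ := hPA R C B (1 / 10000) hR hC hB hε
  obtain ⟨Cf, hCf, Flip⟩ := hFlip R (1 / 10000) hR hε
  obtain ⟨Cd, hCd, Deg⟩ := hDeg
  obtain ⟨Cb, hCb, FbB⟩ := hFbB R C B hR hC hB
  obtain ⟨-, Fr2, -, -, Fr5, -, -, -⟩ := hFrm
  have hR0 : 0 < R := by linarith
  have pos1 : 0 < Cf * Bo ^ 5 := by positivity
  have pos2 : 0 < Cd * Bo * R ^ 4 := by positivity
  have pos3 : 0 < 4 * R ^ 2 := by positivity
  obtain ⟨D', hD'⟩ : ∃ D' : ℝ, D' = D + C1 + Cf * Bo ^ 5 + Cd * Bo * R ^ 4 + Cb + 4 * R ^ 2 + 16 := ⟨_, rfl⟩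
  have dD : D ≤ D' := by linarith
  have dC1 : C1 ≤ D' := by linarith
  have dCf5 : Cf * Bo ^ 5 ≤ D' := by linarith
  have dCd : Cd * Bo * R ^ 4 ≤ D' := by linarith
  have dCb : Cb ≤ D' := by linarith
  have dR : 4 * R ^ 2 ≤ D' := by linarith
  have d16 : 16 ≤ D' := by linarith
  clear hD'
  have hD'1 : 1 ≤ D' := by linarith
  have hD'0 : 0 < D' := by linarith
  obtain ⟨w₁, hw₁0, hw₁1, N1⟩ := hNu1 D' hD'1
  obtain ⟨w₂, hw₂0, hw₂1, N2⟩ := hNu2 D' hD'1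
  obtain ⟨w₃, hw₃0, hw₃1, N3⟩ := hNu3 D' hD'1
  obtain ⟨w₄, hw₄0, hw₄1, N4⟩ := hNu4 D' hD'1
  refine ⟨min (min w₁ w₂) (min w₃ w₄), by positivity, (min_le_left _ _).trans ((min_le_left _ _).trans hw₁1), ?_⟩
  intro w A ι V g T hw hww hA1 hA2 hU hOv hCu hTy hT hTc hbig
  have w1 : w ≤ w₁ := hww.trans ((min_le_left _ _).trans (min_le_left _ _))
  have w2 : w ≤ w₂ := hww.trans ((min_le_left _ _).trans (min_le_right _ _))
  have w3 : w ≤ w₃ := hww.trans ((min_le_right _ _).trans (min_le_left _ _))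
  have w4 : w ≤ w₄ := hww.trans ((min_le_right _ _).trans (min_le_right _ _))
  have hwle : w ≤ 1 := w1.trans hw₁1
  have hA0 : 0 < A := lt_of_lt_of_le (Real.rpow_pos_of_pos hw _) hA1
  obtain ⟨⟨n11, n12⟩, ⟨n21, n22⟩, n3, n41, n42⟩ := N1 w A hw w1 hA1 hA2
  have hNpos : 0 < (V.card : ℝ) := by
    by_contra h0
    have h1 : (V.card : ℝ) = 0 := le_antisymm (not_lt.1 h0) (Nat.cast_nonneg _)
    rw [h1, mul_zero] at hbig
    exact absurd hbig (not_le.2 (Real.rpow_pos_of_pos hw _))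
  have hbig' : w ^ (1001 / 1000 : ℝ) ≤ D' * A ^ 2 * (V.card : ℝ) :=
    hbig.trans (mul_le_mul_of_nonneg_right (mul_le_mul_of_nonneg_right dD (by positivity)) hNpos.le)
  have h23K : 2 * w ^ (-(23 / 1000) : ℝ) ≤ D' * KA w A := by
    have h4 : w ^ (-(23 / 1000) : ℝ) ≤ KA w A := by
      unfold KA
      calc w ^ (-(23 / 1000) : ℝ) ≤ w ^ (19 / 25 + -(749 / 500) : ℝ) :=
            Real.rpow_le_rpow_of_exponent_ge hw hwle (by norm_num)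
        _ = w ^ (19 / 25 : ℝ) * w ^ (-(749 / 500) : ℝ) := Real.rpow_add hw _ _
        _ ≤ _ := mul_le_mul_of_nonneg_right hA1 (Real.rpow_nonneg hw.le _)
    have h6 : 0 < w ^ (-(23 / 1000) : ℝ) := Real.rpow_pos_of_pos hw _
    nlinarith
  generalize hK : KA w A = K at *
  generalize hN0 : K ^ (2 - 1 / 10000 : ℝ) * A = N0 at *
  have hN00 : 0 < N0 := by linarith
  have hX : (1 : ℝ) ≤ w ^ (-4 : ℝ) := Real.one_le_rpow_of_pos_of_le_one_of_nonpos hw hwle (by norm_num)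
  have fbS : ∀ p : ι × ι, ∀ h ∈ fb T p, (p.1 ∈ V ∧ p.2 ∈ V) ∧ SqR C B w K (g p.1) (g p.2) h := by
    intro p h hh
    unfold fb at hh
    rw [Finset.mem_image] at hh
    obtain ⟨t, ht, rfl⟩ := hh
    rw [Finset.mem_filter] at ht
    obtain ⟨ht1, ht2, ht3⟩ := ht
    have := hT t ht1
    rw [ht2, ht3] at this
    exact ⟨⟨this.1, this.2.1⟩, this.2.2⟩
  obtain ⟨lam, E, hl, hE, hNE⟩ := hPig ι V T N0 (w ^ (-4 : ℝ)) hN00 hX (fun t ht => ⟨(hT t ht).1, (hT t ht).2.1⟩)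
    (by
      intro i hi j hj
      refine (FbB w K (g i) (g j) (fb T (i, j)) (hU i hi) (hU j hj) hw hwle n11
        (fun h hh => (fbS (i, j) h hh).2)).trans (le_trans ?_ n42)
      exact mul_le_mul_of_nonneg_right dCb (by positivity)) hTc
  have hl0 : 0 < lam := by linarith
  obtain ⟨n31, n32, n33⟩ := N3 w A lam (V.card : ℝ) hw w3 hA1 hA2 hl hbig'
  obtain ⟨m1, m2, m3⟩ := N2 w A lam hw w2 hA1 hA2 hl
  obtain ⟨k1, k2, k3, k4, k5, k6, k7⟩ := N4 w hw w4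
  rw [hK, hN0] at m1 m2
  have hL1 : 1 ≤ 1 + Real.log (w ^ (-4 : ℝ)) := by
    have := Real.log_nonneg hX
    linarith
  generalize 1 + Real.log (w ^ (-4 : ℝ)) = L at *
  have hzz0 : 0 < w ^ (999 / 1000 : ℝ) * (lam * A) ^ (-(3 / 2) : ℝ) := by positivity
  generalize w ^ (999 / 1000 : ℝ) * (lam * A) ^ (-(3 / 2) : ℝ) = zz at *
  have ht5 : (1 : ℝ) ≤ w ^ (-(1 / 5000) : ℝ) :=
    Real.one_le_rpow_of_pos_of_le_one_of_nonpos hw hwle (by norm_num)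
  have ht23 : (1 : ℝ) ≤ w ^ (-(23 / 1000) : ℝ) :=
    Real.one_le_rpow_of_pos_of_le_one_of_nonpos hw hwle (by norm_num)
  have ht10 : (0 : ℝ) ≤ w ^ (-(1 / 10) : ℝ) := Real.rpow_nonneg hw.le _
  have ht7 : (0 : ℝ) < w ^ (-(7 / 100) : ℝ) := Real.rpow_pos_of_pos hw _
  have h855 : w ^ (171 / 200 : ℝ) ≤ 1 := Real.rpow_le_one hw.le hwle (by norm_num)
  generalize w ^ (-(1 / 5000) : ℝ) = t5 at *
  generalize w ^ (-(23 / 1000) : ℝ) = t23 at *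
  generalize w ^ (-(9 / 10) : ℝ) = t9 at *
  have hρ1 : 1 ≤ D' * t5 := by nlinarith
  have hDt : D * t5 ≤ D' * t5 := mul_le_mul_of_nonneg_right dD (by linarith)
  have h239 : t23 / lam ≤ t9 := by
    have h2 : t23 / lam ≤ 2 * t23 := by
      rw [div_le_iff₀ hl0]
      nlinarith
    linarith
  have halt : ∀ p ∈ E, (∃ u : MZ, u.det ≠ 0 ∧ u ∈ Bx w (t23 / lam) (g p.1) (g p.2)) ∨
      (∃ r : MZ, Prim r ∧ r ∈ Ab w zz (g p.1) (g p.2)) := by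
    intro p hp
    obtain ⟨hp1, hp2, hp3⟩ := hE p hp
    exact alt PA hC1 hw n11 dC1 hDt (by linarith) hρ1 n21 n22 n3 hN00 hl (hU _ hp1) (hU _ hp2) (hTy _ hp1 _ hp2)
      (fun h hh => (fbS p h hh).2) hp3 m2 m1 h239
  have hsum : ((E.filter (fun p => ∃ u : MZ, u.det ≠ 0 ∧ u ∈ Bx w (t23 / lam) (g p.1) (g p.2))).card : ℝ) +
      ((E.filter (fun p => ¬ ∃ u : MZ, u.det ≠ 0 ∧ u ∈ Bx w (t23 / lam) (g p.1) (g p.2))).card : ℝ) = (E.card : ℝ) := by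
    exact_mod_cast Finset.card_filter_add_card_filter_not (s := E) _
  have hLl : 0 < L * lam := by positivity
  rcases le_total (E.card : ℝ)
    (2 * ((E.filter (fun p => ∃ u : MZ, u.det ≠ 0 ∧ u ∈ Bx w (t23 / lam) (g p.1) (g p.2))).card : ℝ)) with hc | hc
  · refine caseA Deg Fr5 V g (E.filter (fun p => ∃ u : MZ, u.det ≠ 0 ∧ u ∈ Bx w (t23 / lam) (g p.1) (g p.2)))
      R w Bo D' lam L t23 (w ^ (-(1 / 10) : ℝ)) hR hw hwle hBo dCd dR d16 ht23 hl hL1 hU hOv ?_ k2 k3 hNpos ht10 ?_ n31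
    · intro p hp
      rw [Finset.mem_filter] at hp
      exact ⟨(hE p hp.1).1, (hE p hp.1).2.1, hp.2⟩
    · calc (V.card : ℝ) ^ 2 ≤ 8 * L * lam * (E.card : ℝ) := hNE
        _ ≤ 8 * L * lam * (2 * ((E.filter (fun p => ∃ u : MZ, u.det ≠ 0 ∧ u ∈ Bx w (t23 / lam) (g p.1) (g p.2))).card : ℝ)) :=
            mul_le_mul_of_nonneg_left hc (by positivity)
        _ = _ := by ring
  · refine caseB hCf R Flip Fr2 Fr5 hCUu hCUr V g
      (E.filter (fun p => ¬ ∃ u : MZ, u.det ≠ 0 ∧ u ∈ Bx w (t23 / lam) (g p.1) (g p.2)))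
      w Bo D' lam L zz (w ^ (-(71 / 500) : ℝ)) (w ^ (-(7 / 100) : ℝ)) (w ^ (-(2 / 25) : ℝ)) (w ^ (171 / 200 : ℝ))
      hR hw hwle hBo dCf5 dR d16 hl0 hL1 hzz0 ht7 h855 hU hOv hCu ?_ m3 k1 k4 k5 k6 k7 hNpos ?_ n32 n33
    · intro p hp
      rw [Finset.mem_filter] at hp
      refine ⟨(hE p hp.1).1, (hE p hp.1).2.1, ?_⟩
      exact (halt p hp.1).resolve_left hp.2
    · calc (V.card : ℝ) ^ 2 ≤ 8 * L * lam * (E.card : ℝ) := hNE
        _ ≤ 8 * L * lam * (2 * ((E.filter (fun p => ¬ ∃ u : MZ, u.det ≠ 0 ∧ u ∈ Bx w (t23 / lam) (g p.1) (g p.2))).card : ℝ)) :=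
            mul_le_mul_of_nonneg_left (by linarith) (by positivity)
        _ = _ := by ring

end HSB
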