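import Pool.Agent.Lib.HS.L.CL
import Pool.Agent.Lib.HS.L.CLD
import Pool.Agent.Lib.HS.L.Cor
import Pool.Agent.Lib.HS.L.CLAm
import Pool.Agent.Lib.HS.L.M2

/-!
# PROJECT H*, bands: pair count at one point, part 1

The count lemma (CL) of HS/L (helper44) for one source point `a`, with the width `w` and the constant `C'` free, in a
general form: a finite set `A` of pairs `(h1 t, h2 t)` whose loops `adj (h2 t) * h1 t` are near the diagonal in the
frame of `a`, and whose classes modulo simultaneous left multiplication by `SL2(Z)` have at most `B` elements.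
Proofs: copies of `HSL.mult`, `HSL.loop_props`, `HSL.count_CL`.
-/

set_option autoImplicit false

namespace HSL.PC

open Matrix MultM

/-- `A` is a set of pairs of primitive matrices of levels at most `L` with at most `2k` primes, with loops near the
diagonal of `a`; the classes modulo `SL2(Z)` have at most `B` elements -/
def Prs {τ : Type} (C' w : ℝ) (a : MR) (k : ℕ) (L B : ℝ) (A : Finset τ) (h1 h2 : τ → MZ) : Prop :=
  (∀ t ∈ A, Prim (h1 t) ∧ Prim (h2 t) ∧ ∃ m1 m2 : ℕ, 0 < m1 ∧ 0 < m2 ∧ (h1 t).det = (m1 : ℤ) ^ 2 ∧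
    (h2 t).det = (m2 : ℤ) ^ 2 ∧ (m1 : ℝ) ≤ L ∧ (m2 : ℝ) ≤ L ∧ m1.primeFactorsList.length ≤ 2 * k ∧
    m2.primeFactorsList.length ≤ 2 * k ∧ Near C' w ((m1 : ℝ) * m2) (fr a a ((h2 t).adjugate * h1 t))) ∧
  (∀ T : Finset τ, T ⊆ A → (∀ t ∈ T, ∀ t' ∈ T, ∃ g : MZ, g.det = 1 ∧ h1 t' = g * h1 t ∧ h2 t' = g * h2 t) →
    (T.card : ℝ) ≤ B)

theorem Prs.mono {τ : Type} {C' w : ℝ} {a : MR} {k : ℕ} {L B : ℝ} {A A' : Finset τ} {h1 h2 : τ → MZ}
    (h : Prs C' w a k L B A h1 h2) (hA : A' ⊆ A) : Prs C' w a k L B A' h1 h2 :=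
  ⟨fun t ht => h.1 t (hA ht), fun T hT => h.2 T (hT.trans hA)⟩

theorem det_adj_mul (x y : MZ) : (x.adjugate * y).det = x.det * y.det := by
  rw [Matrix.det_mul, Matrix.det_adjugate]; simp

/-- `adj` of a loop relation -/
theorem second_eq {h1 h2 h1' h2' g : MZ} (hg : g.det = 1) (h0 : h1.det ≠ 0) (e1 : h1' = g * h1)
    (e : h2'.adjugate * h1' = h2.adjugate * h1) : h2' = g * h2 := by
  have e2 : (h2'.adjugate * g) * h1 = h2.adjugate * h1 := by
    rw [Matrix.mul_assoc, ← e1]; exact e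
  have e3 : h1.det • (h2'.adjugate * g) = h1.det • h2.adjugate := by
    have := congrArg (fun X => X * h1.adjugate) e2
    simp only [Matrix.mul_assoc, Matrix.mul_adjugate, Matrix.mul_smul, Matrix.mul_one] at this
    exact this
  have e4 : h2'.adjugate * g = h2.adjugate := smul_right_injective _ h0 e3
  have e5 : g.adjugate * h2' = h2 := by
    have e6 := congrArg Matrix.adjugate e4
    rw [Matrix.adjugate_mul_distrib, Matrix.adjugate_adjugate', Matrix.adjugate_adjugate'] at e6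
    simpa using e6
  rw [← e5, ← Matrix.mul_assoc, Matrix.mul_adjugate, hg, one_smul, Matrix.one_mul]

/-- **multiplicity of a loop** -/
theorem mult {τ : Type} (C' w : ℝ) (a : MR) (k : ℕ) (L B : ℝ) (hB : 1 ≤ B) (A : Finset τ) (h1 h2 : τ → MZ)
    (hP : Prs C' w a k L B A h1 h2) (s : MZ) (hs : ∀ t ∈ A, (h2 t).adjugate * h1 t = s) :
    (A.card : ℝ) ≤ B * 2 ^ (8 * k) * ct s := by
  classical
  rcases A.eq_empty_or_nonempty with hemp | ⟨t₀, ht₀⟩
  · rw [hemp, Finset.card_empty]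
    push_cast
    positivity
  obtain ⟨hP1, hP2⟩ := hP
  choose! p1 p2 l1 l2 hl1 hl2 d1 d2 b1 b2 f1 f2 hn using hP1
  have hdets : ∀ t ∈ A, s.det = ((l1 t * l2 t : ℕ) : ℤ) ^ 2 := by
    intro t ht
    rw [← hs t ht, det_adj_mul, d1 t ht, d2 t ht]
    push_cast; ring
  set n : ℕ := l1 t₀ * l2 t₀ with hndef
  have hn0 : 0 < n := Nat.mul_pos (hl1 _ ht₀) (hl2 _ ht₀)
  have hs0 : s ≠ 0 := by
    intro h
    have h3 := hdets t₀ ht₀
    rw [h, Matrix.det_zero] at h3
    have h5 : (0 : ℤ) < ((l1 t₀ * l2 t₀ : ℕ) : ℤ) ^ 2 := pow_pos (by exact_mod_cast hn0) 2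
    exact h5.ne h3
  have hnl : ∀ t ∈ A, l1 t * l2 t = n := by
    intro t ht
    have h3 := hdets t ht
    rw [hdets t₀ ht₀] at h3
    have h4 : (n : ℕ) ^ 2 = (l1 t * l2 t) ^ 2 := by exact_mod_cast h3
    exact (Nat.pow_left_injective two_ne_zero h4).symm
  let rep : τ → MZ := fun t => (Quotient.mk eqv (h1 t)).out
  have hrep : ∀ t : τ, ∃ γ : MZ, γ.det = 1 ∧ h1 t = γ * rep t := fun t =>
    Quotient.exact (s := eqv) (Quotient.out_eq (Quotient.mk eqv (h1 t)))
  -- fibres of the level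
  have hfib : ∀ m ∈ A.image l1, ((A.filter (fun u => l1 u = m)).card : ℝ) ≤ B * (2 ^ (4 * k) * ct s) := by
    intro m hm
    obtain ⟨u₀, hu₀, hum⟩ := Finset.mem_image.1 hm
    set W := A.filter (fun u => l1 u = m) with hW
    have hWU : ∀ u ∈ W, u ∈ A ∧ l1 u = m := fun u hu => Finset.mem_filter.1 hu
    have hm0 : 0 < m := by
      rw [← hum]
      exact hl1 _ hu₀
    have hml : m.primeFactorsList.length ≤ 2 * k := by
      rw [← hum]
      exact f1 _ hu₀
    set T := W.image rep with hT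
    have hTc : T.card ≤ (m ^ 2).divisors.card * ct s := by
      refine hermite s hs0 (m ^ 2) (pow_pos hm0 2) T ?_ ?_
      · intro h hh
        obtain ⟨u, hu, rfl⟩ := Finset.mem_image.1 hh
        obtain ⟨γ, g1, g2⟩ := hrep u
        obtain ⟨hu1, hu2⟩ := hWU u hu
        refine ⟨?_, (h2 u).adjugate * γ, ?_⟩
        · have e1 := d1 u hu1
          rw [g2, Matrix.det_mul, g1, one_mul, hu2] at e1
          rw [e1]
          push_cast
          ring
        · rw [Matrix.mul_assoc, ← g2]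
          exact (hs u hu1).symm
      · intro h hh h' hh' γ hγ hγ'
        obtain ⟨u, hu, rfl⟩ := Finset.mem_image.1 hh
        obtain ⟨u', hu', rfl⟩ := Finset.mem_image.1 hh'
        have e1 : Quotient.mk eqv (rep u) = Quotient.mk eqv (rep u') :=
          Quotient.sound (s := eqv) ⟨γ, hγ, hγ'⟩
        have e2 : Quotient.mk eqv (rep u) = Quotient.mk eqv (h1 u) := Quotient.out_eq _
        have e3 : Quotient.mk eqv (rep u') = Quotient.mk eqv (h1 u') := Quotient.out_eq _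
        show (Quotient.mk eqv (h1 u)).out = (Quotient.mk eqv (h1 u')).out
        rw [← e2, ← e3, e1]
    have hTd : (T.card : ℝ) ≤ 2 ^ (4 * k) * ct s := by
      have q1 : (m ^ 2).divisors.card ≤ 2 ^ (4 * k) := by
        refine (card_divisors_le _ (pow_ne_zero _ hm0.ne')).trans ?_
        refine Nat.pow_le_pow_right (by norm_num) ?_
        rw [pow_two, length_mul hm0.ne' hm0.ne']
        omega
      have q2 : T.card ≤ 2 ^ (4 * k) * ct s := hTc.trans (Nat.mul_le_mul_right _ q1)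
      exact_mod_cast q2
    have hWT : (W.card : ℝ) ≤ (T.card : ℝ) * B := by
      have q1 : W.card = ∑ N ∈ T, (W.filter (fun u => rep u = N)).card :=
        Finset.card_eq_sum_card_fiberwise (fun u hu => Finset.mem_coe.2
          (Finset.mem_image_of_mem rep (Finset.mem_coe.1 hu)))
      rw [q1]
      push_cast
      have q2 : ∀ N ∈ T, ((W.filter (fun u => rep u = N)).card : ℝ) ≤ B := by
        intro N hN
        apply hP2 _ ((Finset.filter_subset _ _).trans (Finset.filter_subset _ _))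
        intro u hu u' hu'
        obtain ⟨hu1, hu2⟩ := Finset.mem_filter.1 hu
        obtain ⟨hu1', hu2'⟩ := Finset.mem_filter.1 hu'
        obtain ⟨γ, g1, g2⟩ := hrep u
        obtain ⟨γ', g1', g2'⟩ := hrep u'
        have hA1 := (hWU u hu1).1
        have hA2 := (hWU u' hu1').1
        rw [hu2] at g2
        rw [hu2'] at g2'
        have e0 : γ.adjugate * h1 u = N := by
          rw [g2, ← Matrix.mul_assoc, Matrix.adjugate_mul, g1, one_smul, Matrix.one_mul]
        have hd : (γ' * γ.adjugate).det = 1 := by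
          rw [Matrix.det_mul, Matrix.det_adjugate, g1, g1']; simp
        have e1 : h1 u' = (γ' * γ.adjugate) * h1 u := by
          rw [Matrix.mul_assoc, e0]; exact g2'
        have hne : (h1 u).det ≠ 0 := by
          rw [d1 u hA1]
          have := hl1 u hA1
          positivity
        exact ⟨γ' * γ.adjugate, hd, e1, second_eq hd hne e1 ((hs u' hA2).trans (hs u hA1).symm)⟩
      calc ∑ N ∈ T, ((W.filter (fun u => rep u = N)).card : ℝ) ≤ ∑ _N ∈ T, B := Finset.sum_le_sum q2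
        _ = (T.card : ℝ) * B := by rw [Finset.sum_const, nsmul_eq_mul]
    calc (W.card : ℝ) ≤ (T.card : ℝ) * B := hWT
      _ ≤ (2 ^ (4 * k) * ct s) * B := mul_le_mul_of_nonneg_right hTd (by linarith)
      _ = _ := by ring
  -- number of levels
  have hlevc : ((A.image l1).card : ℝ) ≤ 2 ^ (4 * k) := by
    have q1 : A.image l1 ⊆ n.divisors := by
      intro m hm
      obtain ⟨u, hu, rfl⟩ := Finset.mem_image.1 hm
      exact Nat.mem_divisors.2 ⟨⟨l2 u, (hnl u hu).symm⟩, hn0.ne'⟩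
    have q2 : (A.image l1).card ≤ 2 ^ (4 * k) := by
      refine (Finset.card_le_card q1).trans ((card_divisors_le n hn0.ne').trans ?_)
      refine Nat.pow_le_pow_right (by norm_num) ?_
      rw [hndef, length_mul (hl1 _ ht₀).ne' (hl2 _ ht₀).ne']
      have := f1 _ ht₀
      have := f2 _ ht₀
      omega
    exact_mod_cast q2
  have hUc : (A.card : ℝ) ≤ 2 ^ (4 * k) * (B * (2 ^ (4 * k) * ct s)) := by
    have q1 : A.card = ∑ m ∈ A.image l1, (A.filter (fun u => l1 u = m)).card :=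
      Finset.card_eq_sum_card_fiberwise (fun u hu => Finset.mem_coe.2
        (Finset.mem_image_of_mem l1 (Finset.mem_coe.1 hu)))
    rw [q1]
    push_cast
    calc ∑ m ∈ A.image l1, ((A.filter (fun u => l1 u = m)).card : ℝ)
        ≤ ∑ _m ∈ A.image l1, (B * (2 ^ (4 * k) * ct s)) := Finset.sum_le_sum hfib
      _ = ((A.image l1).card : ℝ) * (B * (2 ^ (4 * k) * ct s)) := by rw [Finset.sum_const, nsmul_eq_mul]
      _ ≤ _ := mul_le_mul_of_nonneg_right hlevc (by positivity)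
  calc (A.card : ℝ) ≤ 2 ^ (4 * k) * (B * (2 ^ (4 * k) * ct s)) := hUc
    _ = B * 2 ^ (8 * k) * ct s := by
        have : (2 : ℝ) ^ (8 * k) = 2 ^ (4 * k) * 2 ^ (4 * k) := by rw [← pow_add]; congr 1; ring
        rw [this]
        ring

/-- properties of the primitive part of a loop -/
def Qp (C' w L : ℝ) (a : MR) (s0 : MZ) : Prop :=
  Prim s0 ∧ 0 < lvl s0 ∧ s0.det = (lvl s0 : ℤ) ^ 2 ∧ (lvl s0 : ℝ) ≤ L ^ 2 ∧
    Near C' w (lvl s0 : ℝ) (fr a a s0)

theorem loop_props {τ : Type} {C' w : ℝ} {a : MR} {k : ℕ} {L B : ℝ} {A : Finset τ} {h1 h2 : τ → MZ}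
    (hP : Prs C' w a k L B A h1 h2) {t : τ} (ht : t ∈ A) :
    (h2 t).adjugate * h1 t ≠ 0 ∧ Qp C' w L a (pp ((h2 t).adjugate * h1 t)) ∧
      (ct ((h2 t).adjugate * h1 t) : ℝ) * lvl (pp ((h2 t).adjugate * h1 t)) ≤ L ^ 2 ∧
      ∃ ca cb : ℕ, 0 < ca ∧ 0 < cb ∧ ca ∣ lvl (pp ((h2 t).adjugate * h1 t)) ^ (4 * k) ∧
        ct ((h2 t).adjugate * h1 t) = ca * cb ^ 2 := by
  obtain ⟨p1, p2, m1, m2, q1, q2, d1, d2, b1, b2, l1, l2, hN⟩ := hP.1 t ht
  obtain ⟨hs0, n0, hn0, hd, hc, ca, cb, hca, hcb, hcd, hcc⟩ := shape p1 p2 d1 d2 q1 q2 l1 l2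
  have hlv : lvl (pp ((h2 t).adjugate * h1 t)) = n0 := lvl_eq hd
  have hn : (0 : ℝ) ≤ (ct ((h2 t).adjugate * h1 t) : ℝ) := Nat.cast_nonneg _
  have hct : (0 : ℝ) < (ct ((h2 t).adjugate * h1 t) : ℝ) := by exact_mod_cast ct_pos hs0
  have e1 : (ct ((h2 t).adjugate * h1 t) : ℝ) * n0 = (m1 : ℝ) * m2 := by exact_mod_cast hc
  have hb : (ct ((h2 t).adjugate * h1 t) : ℝ) * n0 ≤ L ^ 2 := by
    rw [e1, pow_two]
    exact mul_le_mul b1 b2 (Nat.cast_nonneg _) ((Nat.cast_nonneg _).trans b1)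
  refine ⟨hs0, ⟨pp_prim hs0, ?_, ?_, ?_, ?_⟩, ?_, ca, cb, hca, hcb, ?_, hcc⟩
  · rw [hlv]
    exact hn0
  · rw [hlv]
    exact hd
  · rw [hlv]
    refine le_trans ?_ hb
    have : (1 : ℝ) ≤ (ct ((h2 t).adjugate * h1 t) : ℝ) := by exact_mod_cast ct_pos hs0
    nlinarith [(Nat.cast_nonneg n0 : (0 : ℝ) ≤ n0)]
  · rw [hlv]
    have e0 : fr a a ((h2 t).adjugate * h1 t) =
        (ct ((h2 t).adjugate * h1 t) : ℝ) • fr a a (pp ((h2 t).adjugate * h1 t)) := by
      conv_lhs => rw [pp_eq ((h2 t).adjugate * h1 t)]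
      rw [fr_smul]
      push_cast
      rfl
    rw [e0, ← e1] at hN
    unfold Near at hN ⊢
    simp only [Matrix.smul_apply, smul_eq_mul, abs_mul, abs_of_nonneg hn] at hN
    obtain ⟨g1, g2, g3, g4⟩ := hN
    refine ⟨?_, ?_, ?_, ?_⟩
    · refine le_of_mul_le_mul_left (g1.trans (le_of_eq ?_)) hct
      ring
    · refine le_of_mul_le_mul_left (g2.trans (le_of_eq ?_)) hct
      ring
    · refine le_of_mul_le_mul_left (g3.trans (le_of_eq ?_)) hct
      ring
    · refine le_of_mul_le_mul_left (g4.trans (le_of_eq ?_)) hct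
      ring
  · rw [hlv]
    exact hb
  · rw [hlv]
    exact hcd

/-- **(CL)** -/
theorem count_CL {τ : Type} (C' w : ℝ) (a : MR) (k : ℕ) (L B : ℝ) (hB : 1 ≤ B) (A : Finset τ) (h1 h2 : τ → MZ)
    (hP : Prs C' w a k L B A h1 h2) :
    ∃ S0 : Finset MZ, (∀ s0 ∈ S0, Qp C' w L a s0 ∧
        ∃ t ∈ A, (h2 t).adjugate * h1 t = (ct ((h2 t).adjugate * h1 t) : ℤ) • s0 ∧
          0 < ct ((h2 t).adjugate * h1 t)) ∧
      (A.card : ℝ) ≤ B * 2 ^ (8 * k) *
        ∑ s0 ∈ S0, (((lvl s0) ^ (4 * k)).divisors.card : ℝ) * (L ^ 2 / lvl s0) ^ (3 / 2 : ℝ) := by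
  classical
  set lo : τ → MZ := fun t => (h2 t).adjugate * h1 t with hlo
  refine ⟨A.image (fun t => pp (lo t)), ?_, ?_⟩
  · intro s0 hs0
    obtain ⟨t, ht, rfl⟩ := Finset.mem_image.1 hs0
    obtain ⟨q1, q2, -⟩ := loop_props hP ht
    exact ⟨q2, t, ht, pp_eq (lo t), ct_pos q1⟩
  set S0 := A.image (fun t => pp (lo t)) with hS0
  set Sg := A.image lo with hSg
  have e1 : (A.card : ℝ) ≤ ∑ s ∈ Sg, B * 2 ^ (8 * k) * (ct s : ℝ) := by
    have q1 : A.card = ∑ s ∈ Sg, (A.filter (fun t => lo t = s)).card :=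
      Finset.card_eq_sum_card_fiberwise (fun t ht => Finset.mem_coe.2
        (Finset.mem_image_of_mem lo (Finset.mem_coe.1 ht)))
    rw [q1]
    push_cast
    refine Finset.sum_le_sum fun s _ => ?_
    exact mult C' w a k L B hB _ h1 h2 (hP.mono (Finset.filter_subset _ _)) s
      (fun t ht => (Finset.mem_filter.1 ht).2)
  have e2 : ∑ s ∈ Sg, (ct s : ℝ) = ∑ s0 ∈ S0, ∑ s ∈ Sg.filter (fun s => pp s = s0), (ct s : ℝ) := by
    refine (Finset.sum_fiberwise_of_maps_to ?_ _).symm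
    intro s hs
    obtain ⟨t, ht, rfl⟩ := Finset.mem_image.1 hs
    exact Finset.mem_image.2 ⟨t, ht, rfl⟩
  have e3 : ∀ s0 ∈ S0, ∑ s ∈ Sg.filter (fun s => pp s = s0), (ct s : ℝ) ≤
      (((lvl s0) ^ (4 * k)).divisors.card : ℝ) * (L ^ 2 / lvl s0) ^ (3 / 2 : ℝ) := by
    intro s0 hs0
    obtain ⟨t₀, ht₀, ht₁⟩ := Finset.mem_image.1 hs0
    obtain ⟨-, hPp, -⟩ := loop_props hP ht₀
    have ht₁' : pp ((h2 t₀).adjugate * h1 t₀) = s0 := ht₁
    rw [ht₁'] at hPp
    obtain ⟨-, hlpos, -, -, -⟩ := hPp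
    have hl0 : (0 : ℝ) < lvl s0 := by exact_mod_cast hlpos
    set X : ℝ := L ^ 2 / lvl s0 with hX
    have hX0 : 0 ≤ X := by positivity
    set F := Sg.filter (fun s => pp s = s0) with hF
    have hprop : ∀ s ∈ F, (ct s : ℝ) ≤ X ∧ s = (ct s : ℤ) • s0 ∧ ∃ ca cb : ℕ, 0 < ca ∧ 0 < cb ∧
        ca ∣ lvl s0 ^ (4 * k) ∧ ct s = ca * cb ^ 2 := by
      intro s hs
      obtain ⟨hs1, hs2⟩ := Finset.mem_filter.1 hs
      obtain ⟨t, ht, rfl⟩ := Finset.mem_image.1 hs1
      obtain ⟨-, -, h3, h4⟩ := loop_props hP ht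
      have hs2' : pp ((h2 t).adjugate * h1 t) = s0 := hs2
      rw [hs2'] at h3 h4
      refine ⟨?_, ?_, h4⟩
      · rw [hX, le_div_iff₀ hl0]
        exact h3
      · rw [← hs2]
        exact pp_eq _
    choose! ca cb q1 q2 q3 q4 using fun s hs => (hprop s hs).2.2
    have hcard : (F.card : ℝ) ≤ (((lvl s0) ^ (4 * k)).divisors.card : ℝ) * √X := by
      have g1 : F.card ≤ (((lvl s0) ^ (4 * k)).divisors ×ˢ Finset.Icc 1 ⌊√X⌋₊).card := by
        refine Finset.card_le_card_of_injOn (fun s => (ca s, cb s)) ?_ ?_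
        · intro s hs
          have hs' := Finset.mem_coe.1 hs
          rw [Finset.mem_coe, Finset.mem_product]
          refine ⟨Nat.mem_divisors.2 ⟨q3 s hs', (pow_pos hlpos _).ne'⟩, ?_⟩
          rw [Finset.mem_Icc]
          refine ⟨q2 s hs', ?_⟩
          refine Nat.le_floor (Real.le_sqrt_of_sq_le ?_)
          refine le_trans ?_ (hprop s hs').1
          have g2 : cb s ^ 2 ≤ ct s := by
            rw [q4 s hs']
            exact Nat.le_mul_of_pos_left _ (q1 s hs')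
          exact_mod_cast g2
        · intro s hs s' hs' hss
          have hs1 := Finset.mem_coe.1 hs
          have hs2 := Finset.mem_coe.1 hs'
          have g3 := (Prod.mk.inj hss).1
          have g4 := (Prod.mk.inj hss).2
          have g5 : ct s = ct s' := by
            rw [q4 s hs1, q4 s' hs2, g3, g4]
          rw [(hprop s hs1).2.1, (hprop s' hs2).2.1, g5]
      rw [Finset.card_product, Nat.card_Icc, Nat.add_sub_cancel] at g1
      calc (F.card : ℝ) ≤ (((lvl s0) ^ (4 * k)).divisors.card : ℝ) * (⌊√X⌋₊ : ℝ) := by exact_mod_cast g1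
        _ ≤ _ := mul_le_mul_of_nonneg_left (Nat.floor_le (Real.sqrt_nonneg _)) (Nat.cast_nonneg _)
    calc ∑ s ∈ F, (ct s : ℝ) ≤ ∑ _s ∈ F, X := Finset.sum_le_sum fun s hs => (hprop s hs).1
      _ = (F.card : ℝ) * X := by rw [Finset.sum_const, nsmul_eq_mul]
      _ ≤ ((((lvl s0) ^ (4 * k)).divisors.card : ℝ) * √X) * X := mul_le_mul_of_nonneg_right hcard hX0
      _ = (((lvl s0) ^ (4 * k)).divisors.card : ℝ) * X ^ (3 / 2 : ℝ) := by
          rw [mul_assoc]
          congr 1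
          rcases hX0.eq_or_lt with h0 | h0
          · rw [← h0]
            norm_num
          · rw [Real.sqrt_eq_rpow]
            nth_rewrite 2 [← Real.rpow_one X]
            rw [← Real.rpow_add h0]
            norm_num
  calc (A.card : ℝ) ≤ ∑ s ∈ Sg, B * 2 ^ (8 * k) * (ct s : ℝ) := e1
    _ = B * 2 ^ (8 * k) * ∑ s ∈ Sg, (ct s : ℝ) := by rw [Finset.mul_sum]
    _ ≤ _ := by
        rw [e2]
        exact mul_le_mul_of_nonneg_left (Finset.sum_le_sum e3) (by positivity)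

end HSL.PC
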