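import Pool.Agent.Lib.HS.Bd.Pc1

/-!
# PROJECT H*, bands: pair count at one point, part 2

The forms `CL`, `CLD`, `Cor` of HS/L/SpecCL.lean in the general form of part 1; `w = 1 / K^2`, `C'` free, level
`L ≤ K^3`.
-/

set_option autoImplicit false

namespace HSL.PC

open Matrix

/-- `r = (s0, n0)`: `s0` is the primitive part of a loop of `A`, `det s0 = n0^2` -/
def PPg {τ : Type} (C' w : ℝ) (a : MR) (A : Finset τ) (h1 h2 : τ → MZ) (L : ℝ) (r : MZ × ℕ) : Prop :=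
  Prim r.1 ∧ 0 < r.2 ∧ r.1.det = (r.2 : ℤ) ^ 2 ∧ (r.2 : ℝ) ≤ L ^ 2 ∧ Near C' w (r.2 : ℝ) (fr a a r.1) ∧
    ∃ t ∈ A, ∃ c : ℤ, c ≠ 0 ∧ (h2 t).adjugate * h1 t = c • r.1

/-- CL, general form -/
def S_CL : Prop :=
  ∀ (k : ℕ) (ε : ℝ), 1 ≤ k → 0 < ε → ∃ K0 : ℝ, ∀ (τ : Type) (C' K B L : ℝ) (a : MR) (A : Finset τ)
    (h1 h2 : τ → MZ), K0 ≤ K → 1 ≤ B → 1 ≤ L → L ≤ K ^ 3 → Prs C' (1 / K ^ 2) a k L B A h1 h2 →
      ∃ S0 : Finset (MZ × ℕ), (∀ r ∈ S0, PPg C' (1 / K ^ 2) a A h1 h2 L r) ∧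
        (A.card : ℝ) ≤ B * K ^ ε * ∑ r ∈ S0, (L ^ 2 / (r.2 : ℝ)) ^ (3 / 2 : ℝ)

/-- CLD, general form -/
def S_CLD : Prop :=
  ∀ (k : ℕ) (ε : ℝ), 1 ≤ k → 0 < ε → ∃ K0 : ℝ, ∀ (τ : Type) (C' K B L M : ℝ) (a : MR) (A : Finset τ)
    (h1 h2 : τ → MZ), K0 ≤ K → 1 ≤ B → 1 ≤ L → L ≤ K ^ 3 → 0 ≤ M → Prs C' (1 / K ^ 2) a k L B A h1 h2 →
      (∀ (T : ℝ) (S0 : Finset (MZ × ℕ)), 1 ≤ T → T ≤ L ^ 2 →
        (∀ r ∈ S0, PPg C' (1 / K ^ 2) a A h1 h2 L r ∧ (r.2 : ℝ) ≤ T) →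
          (S0.card : ℝ) ≤ M * T ^ (3 / 2 : ℝ)) →
      (A.card : ℝ) ≤ B * K ^ ε * L ^ 3 * M

/-- Cor, general form -/
def S_Cor : Prop :=
  ∀ (k : ℕ) (C' ε : ℝ), 1 ≤ k → 1 ≤ C' → 0 < ε → ∃ K0 : ℝ, ∀ (τ : Type) (K B L M : ℝ) (a : MR) (A : Finset τ)
    (h1 h2 : τ → MZ), K0 ≤ K → 1 ≤ B → 1 ≤ L → L ≤ K ^ 3 → 0 ≤ M → a.det = 1 →
      Prs C' (1 / K ^ 2) a k L B A h1 h2 → (∀ t ∈ A, dsc ((h2 t).adjugate * h1 t) ≠ 0) →
      (∀ (T : ℝ) (W : Finset MZ), 1 ≤ T → T ≤ L ^ 2 →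
        (∀ v ∈ W, v.det ≠ 0 ∧ v.trace = 0 ∧
          |fr a a v 0 0| ≤ 2 * C' * T ∧
          |fr a a v 0 1| ≤ 2 * C' * T / K ^ 2 ∧
          |fr a a v 1 0| ≤ 2 * C' * T / K ^ 2 ∧
          ∃ t ∈ A, ∃ (c : ℤ) (s0 : MZ), c ≠ 0 ∧ (h2 t).adjugate * h1 t = c • s0 ∧ tf s0 = v) →
        (W.card : ℝ) ≤ M * T ^ (3 / 2 : ℝ)) →
      (A.card : ℝ) ≤ B * K ^ ε * L ^ 3 * M

theorem tCL : S_CL := by
  classical
  intro k ε hk hε
  have hk0 : (0 : ℝ) < k := by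
    have : 0 < k := hk
    exact_mod_cast this
  obtain ⟨Cd, hCd, hdiv⟩ := Pool.Agent.Lib.MP_640417_ag.All.divisor_bound (ε / (48 * k)) (by positivity)
  refine ⟨max 1 ((1 + 2 ^ (8 * k) * Cd) ^ (1 / (ε / 2))), ?_⟩
  intro τ C' K B L a A h1 h2 hK hB hL hLK hP
  have hK1 : 1 ≤ K := (le_max_left _ _).trans hK
  have hK0 : 0 < K := by linarith
  have hKc : 1 + 2 ^ (8 * k) * Cd ≤ K ^ (ε / 2) :=
    M2M_large (by have : 0 < 2 ^ (8 * k) * Cd := by positivity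
                  linarith) (by linarith) ((le_max_right _ _).trans hK)
  obtain ⟨S0, g1, g2⟩ := count_CL C' (1 / K ^ 2) a k L B hB A h1 h2 hP
  refine ⟨S0.image (fun s0 => (s0, lvl s0)), ?_, ?_⟩
  · intro r hr
    obtain ⟨s0, hs0, rfl⟩ := Finset.mem_image.1 hr
    obtain ⟨⟨p1, p2, p3, p4, p5⟩, t, ht, e1, e2⟩ := g1 s0 hs0
    exact ⟨p1, p2, p3, p4, p5, t, ht, (ct ((h2 t).adjugate * h1 t) : ℤ), by exact_mod_cast e2.ne', e1⟩
  · have hsum : ∑ r ∈ S0.image (fun s0 => (s0, lvl s0)), (L ^ 2 / (r.2 : ℝ)) ^ (3 / 2 : ℝ) =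
        ∑ s0 ∈ S0, (L ^ 2 / (lvl s0 : ℝ)) ^ (3 / 2 : ℝ) := by
      rw [Finset.sum_image]
      intro x _ y _ hab
      exact (Prod.mk.inj hab).1
    rw [hsum]
    refine g2.trans ?_
    rw [mul_assoc B, mul_assoc B]
    refine mul_le_mul_of_nonneg_left ?_ (by linarith)
    rw [Finset.mul_sum, Finset.mul_sum]
    refine Finset.sum_le_sum fun s0 hs0 => ?_
    obtain ⟨⟨p1, p2, p3, p4, -⟩, -⟩ := g1 s0 hs0
    have hn : (0 : ℝ) < lvl s0 := by exact_mod_cast p2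
    have h3 : (((lvl s0) ^ (4 * k)).divisors.card : ℝ) ≤ Cd * K ^ (ε / 2) := by
      refine (hdiv _ (pow_pos p2 _)).trans (mul_le_mul_of_nonneg_left ?_ hCd.le)
      have h4 : (((lvl s0) ^ (4 * k) : ℕ) : ℝ) ≤ K ^ (24 * k : ℕ) := by
        push_cast
        calc (lvl s0 : ℝ) ^ (4 * k) ≤ ((K ^ 3) ^ 2) ^ (4 * k) := by
              refine pow_le_pow_left₀ hn.le (p4.trans ?_) _
              exact pow_le_pow_left₀ (by linarith) hLK 2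
          _ = K ^ (24 * k) := by rw [← pow_mul, ← pow_mul]; congr 1; ring
      calc (((lvl s0) ^ (4 * k) : ℕ) : ℝ) ^ (ε / (48 * k)) ≤ (K ^ (24 * k : ℕ)) ^ (ε / (48 * k)) :=
            Real.rpow_le_rpow (Nat.cast_nonneg _) h4 (by positivity)
        _ = K ^ (ε / 2) := by
            rw [← Real.rpow_natCast, ← Real.rpow_mul hK0.le]
            congr 1
            push_cast
            field_simp
            ring
    have h5 : (2 : ℝ) ^ (8 * k) * (((lvl s0) ^ (4 * k)).divisors.card : ℝ) ≤ K ^ ε := by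
      calc (2 : ℝ) ^ (8 * k) * (((lvl s0) ^ (4 * k)).divisors.card : ℝ)
          ≤ 2 ^ (8 * k) * (Cd * K ^ (ε / 2)) := mul_le_mul_of_nonneg_left h3 (by positivity)
        _ = (2 ^ (8 * k) * Cd) * K ^ (ε / 2) := by ring
        _ ≤ K ^ (ε / 2) * K ^ (ε / 2) :=
            mul_le_mul_of_nonneg_right (by linarith) (by positivity)
        _ = K ^ ε := by
            rw [← Real.rpow_add hK0]
            congr 1
            ring
    rw [← mul_assoc]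
    exact mul_le_mul_of_nonneg_right h5 (by positivity)

theorem dy_fib {τ : Type} (C' w : ℝ) (a : MR) (A : Finset τ) (h1 h2 : τ → MZ) (L M : ℝ) (hL : 1 ≤ L)
    (hM : 0 ≤ M) (h : ∀ (T : ℝ) (S0 : Finset (MZ × ℕ)), 1 ≤ T → T ≤ L ^ 2 →
        (∀ r ∈ S0, PPg C' w a A h1 h2 L r ∧ (r.2 : ℝ) ≤ T) → (S0.card : ℝ) ≤ M * T ^ (3 / 2 : ℝ))
    (j : ℕ) (S1 : Finset (MZ × ℕ)) (hS1 : ∀ r ∈ S1, PPg C' w a A h1 h2 L r ∧ Nat.log 2 r.2 = j) :
    ∑ r ∈ S1, (L ^ 2 / (r.2 : ℝ)) ^ (3 / 2 : ℝ) ≤ 3 * L ^ 3 * M := by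
  have hL0 : 0 < L := by linarith
  have hL2 : 1 ≤ L ^ 2 := by nlinarith
  have hj : (0 : ℝ) < 2 ^ j := by positivity
  have hcard : (S1.card : ℝ) ≤ M * (2 * 2 ^ j) ^ (3 / 2 : ℝ) := by
    refine (h (min (2 * 2 ^ j) (L ^ 2)) S1 (le_min ?_ hL2) (min_le_right _ _) ?_).trans ?_
    · have : (1 : ℝ) ≤ 2 ^ j := one_le_pow₀ (by norm_num)
      linarith
    · intro r hr
      obtain ⟨q1, q2⟩ := hS1 r hr
      refine ⟨q1, le_min ?_ q1.2.2.2.1⟩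
      have h3 : r.2 < 2 ^ (Nat.log 2 r.2).succ := Nat.lt_pow_succ_log_self (by norm_num) _
      rw [q2, Nat.pow_succ] at h3
      have h4 : (r.2 : ℝ) < 2 ^ j * 2 := by exact_mod_cast h3
      linarith
    · apply mul_le_mul_of_nonneg_left _ hM
      exact Real.rpow_le_rpow (le_min (by positivity) (by positivity)) (min_le_left _ _)
        (by norm_num)
  have hterm : ∀ r ∈ S1, (L ^ 2 / (r.2 : ℝ)) ^ (3 / 2 : ℝ) ≤ (L ^ 2 / 2 ^ j) ^ (3 / 2 : ℝ) := by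
    intro r hr
    obtain ⟨q1, q2⟩ := hS1 r hr
    have h3 : 2 ^ j ≤ r.2 := by
      rw [← q2]; exact Nat.pow_log_le_self 2 (Nat.pos_iff_ne_zero.1 q1.2.1)
    have h4 : (2 : ℝ) ^ j ≤ r.2 := by exact_mod_cast h3
    apply Real.rpow_le_rpow (by positivity) _ (by norm_num)
    exact div_le_div_of_nonneg_left (by positivity) hj h4
  calc ∑ r ∈ S1, (L ^ 2 / (r.2 : ℝ)) ^ (3 / 2 : ℝ)
      ≤ ∑ r ∈ S1, (L ^ 2 / 2 ^ j) ^ (3 / 2 : ℝ) := Finset.sum_le_sum hterm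
    _ = (S1.card : ℝ) * (L ^ 2 / 2 ^ j) ^ (3 / 2 : ℝ) := by rw [Finset.sum_const, nsmul_eq_mul]
    _ ≤ (M * (2 * 2 ^ j) ^ (3 / 2 : ℝ)) * (L ^ 2 / 2 ^ j) ^ (3 / 2 : ℝ) :=
        mul_le_mul_of_nonneg_right hcard (by positivity)
    _ = M * ((2 * 2 ^ j) * (L ^ 2 / 2 ^ j)) ^ (3 / 2 : ℝ) := by
        rw [Real.mul_rpow (x := (2 * 2 ^ j)) (by positivity) (by positivity)]; ring
    _ = M * (2 ^ (3 / 2 : ℝ) * L ^ 3) := by
        rw [show (2 * 2 ^ j) * (L ^ 2 / 2 ^ j) = 2 * L ^ 2 by field_simp,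
          Real.mul_rpow (by norm_num) (by positivity), rpow_thr L hL0.le]
    _ ≤ 3 * L ^ 3 * M := by
        have h2 : (2 : ℝ) ^ (3 / 2 : ℝ) ≤ 3 := by
          have h5 : (2 : ℝ) ^ (3 / 2 : ℝ) ≤ 9 ^ (1 / 2 : ℝ) := by
            rw [show (3 / 2 : ℝ) = 3 * (1 / 2) by norm_num, Real.rpow_mul (by norm_num)]
            exact Real.rpow_le_rpow (by positivity) (by norm_num) (by norm_num)
          have h6 : (9 : ℝ) ^ (1 / 2 : ℝ) = 3 := by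
            rw [← Real.sqrt_eq_rpow, show (9 : ℝ) = 3 ^ 2 by norm_num]
            exact Real.sqrt_sq (by norm_num)
          linarith
        have h3 : 0 ≤ M * L ^ 3 := by positivity
        nlinarith

theorem tCLD : S_CLD := by
  intro k ε hk hε
  obtain ⟨K0, hK0⟩ := tCL k (ε / 2) hk (by positivity)
  refine ⟨max K0 (max 1 ((144 / ε + 3) ^ (4 / ε))), ?_⟩
  intro τ C' K B L M a A h1 h2 hK hB hL hLK hM hP h
  have hK1 : K0 ≤ K := (le_max_left _ _).trans hK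
  have hK2 : 1 ≤ K := (le_max_left _ _).trans ((le_max_right _ _).trans hK)
  have hK3 : (144 / ε + 3) ^ (4 / ε) ≤ K := (le_max_right _ _).trans ((le_max_right _ _).trans hK)
  have hKp : 0 < K := by linarith
  obtain ⟨S0, hS0, hA0⟩ := hK0 τ C' K B L a A h1 h2 hK1 hB hL hLK hP
  classical
  have hsum : ∑ r ∈ S0, (L ^ 2 / (r.2 : ℝ)) ^ (3 / 2 : ℝ) ≤
      ((Nat.log 2 ⌊L ^ 2⌋₊ : ℝ) + 1) * (3 * L ^ 3 * M) := by
    have hmaps : ∀ r ∈ S0, Nat.log 2 r.2 ∈ Finset.range (Nat.log 2 ⌊L ^ 2⌋₊ + 1) := by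
      intro r hr
      rw [Finset.mem_range, Nat.lt_succ_iff]
      exact Nat.log_mono_right (Nat.le_floor (hS0 r hr).2.2.2.1)
    rw [← Finset.sum_fiberwise_of_maps_to hmaps]
    calc ∑ j ∈ Finset.range (Nat.log 2 ⌊L ^ 2⌋₊ + 1), ∑ r ∈ S0.filter (fun r => Nat.log 2 r.2 = j),
          (L ^ 2 / (r.2 : ℝ)) ^ (3 / 2 : ℝ)
        ≤ ∑ j ∈ Finset.range (Nat.log 2 ⌊L ^ 2⌋₊ + 1), 3 * L ^ 3 * M := by
          apply Finset.sum_le_sum
          intro j _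
          apply dy_fib C' (1 / K ^ 2) a A h1 h2 L M hL hM h j
          intro r hr
          rw [Finset.mem_filter] at hr
          exact ⟨hS0 r hr.1, hr.2⟩
      _ = _ := by rw [Finset.sum_const, Finset.card_range, nsmul_eq_mul]; push_cast; ring
  have hJ : (Nat.log 2 ⌊L ^ 2⌋₊ : ℝ) ≤ 12 * Real.log K := by
    have hfl : ⌊L ^ 2⌋₊ ≠ 0 := by
      have : 1 ≤ ⌊L ^ 2⌋₊ := Nat.le_floor (by push_cast; nlinarith)
      omega
    have q1 : ((2 ^ Nat.log 2 ⌊L ^ 2⌋₊ : ℕ) : ℝ) ≤ (⌊L ^ 2⌋₊ : ℝ) := by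
      exact_mod_cast Nat.pow_log_le_self 2 hfl
    have q2 : (⌊L ^ 2⌋₊ : ℝ) ≤ L ^ 2 := Nat.floor_le (by positivity)
    have h3 : L ^ 2 ≤ K ^ 6 := by
      calc L ^ 2 ≤ (K ^ 3) ^ 2 := pow_le_pow_left₀ (by linarith) hLK 2
        _ = K ^ 6 := by ring
    have h4 := Real.log_le_log (by positivity) (q1.trans (q2.trans h3))
    push_cast at h4
    rw [Real.log_pow, Real.log_pow] at h4
    have hl2 : (1 / 2 : ℝ) ≤ Real.log 2 := by
      have := Real.log_two_gt_d9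
      linarith
    have h5 : (0 : ℝ) ≤ (Nat.log 2 ⌊L ^ 2⌋₊ : ℝ) := Nat.cast_nonneg _
    push_cast at h4
    nlinarith
  have hlog : Real.log K ≤ K ^ (ε / 4) / (ε / 4) := Real.log_le_rpow_div hKp.le (by positivity)
  have hone : 1 ≤ K ^ (ε / 4) := Real.one_le_rpow hK2 (by positivity)
  have hc : 144 / ε + 3 ≤ K ^ (ε / 4) := by
    have q1 := Real.rpow_le_rpow (by positivity) hK3 (by positivity : (0 : ℝ) ≤ ε / 4)
    rw [← Real.rpow_mul (by positivity)] at q1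
    have q2 : 4 / ε * (ε / 4) = 1 := by field_simp
    rw [q2, Real.rpow_one] at q1
    exact q1
  have hfin : ((Nat.log 2 ⌊L ^ 2⌋₊ : ℝ) + 1) * 3 ≤ K ^ (ε / 2) := by
    have q1 : K ^ (ε / 2) = K ^ (ε / 4) * K ^ (ε / 4) := by
      rw [← Real.rpow_add hKp]; congr 1; ring
    have q2 : K ^ (ε / 4) / (ε / 4) = 4 / ε * K ^ (ε / 4) := by field_simp
    rw [q2] at hlog
    rw [q1]
    calc ((Nat.log 2 ⌊L ^ 2⌋₊ : ℝ) + 1) * 3 ≤ (12 * (4 / ε * K ^ (ε / 4)) + 1) * 3 := by linarith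
      _ ≤ (144 / ε + 3) * K ^ (ε / 4) := by
          have : 12 * (4 / ε * K ^ (ε / 4)) * 3 = 144 / ε * K ^ (ε / 4) := by ring
          nlinarith
      _ ≤ _ := mul_le_mul_of_nonneg_right hc (by positivity)
  have hLM : 0 ≤ L ^ 3 * M := by positivity
  calc (A.card : ℝ) ≤ B * K ^ (ε / 2) * ∑ r ∈ S0, (L ^ 2 / (r.2 : ℝ)) ^ (3 / 2 : ℝ) := hA0
    _ ≤ B * K ^ (ε / 2) * (((Nat.log 2 ⌊L ^ 2⌋₊ : ℝ) + 1) * (3 * L ^ 3 * M)) :=
        mul_le_mul_of_nonneg_left hsum (by positivity)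
    _ = B * K ^ (ε / 2) * ((((Nat.log 2 ⌊L ^ 2⌋₊ : ℝ) + 1) * 3) * (L ^ 3 * M)) := by ring
    _ ≤ B * K ^ (ε / 2) * (K ^ (ε / 2) * (L ^ 3 * M)) := by
        apply mul_le_mul_of_nonneg_left _ (by positivity)
        exact mul_le_mul_of_nonneg_right hfin hLM
    _ = B * K ^ ε * L ^ 3 * M := by
        have : K ^ ε = K ^ (ε / 2) * K ^ (ε / 2) := by
          rw [← Real.rpow_add hKp]; congr 1; ring
        rw [this]; ring

/-- frame of the traceless part -/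
theorem tf_frame {C' K n : ℝ} {a : MR} {s : MZ} (ha : a.det = 1) (h : Near C' (1 / K ^ 2) n (fr a a s)) :
    |fr a a (tf s) 0 0| ≤ 2 * C' * n ∧ |fr a a (tf s) 0 1| ≤ 2 * C' * n / K ^ 2 ∧
      |fr a a (tf s) 1 0| ≤ 2 * C' * n / K ^ 2 ∧ |((s.trace : ℤ) : ℝ)| ≤ 2 * C' * n := by
  obtain ⟨n1, n2, n3, n4⟩ := h
  obtain ⟨e1, e2, e3⟩ := fr_tf a s
  refine ⟨?_, ?_, ?_, ?_⟩
  · rw [e1]
    calc |fr a a s 0 0 - fr a a s 1 1| ≤ |fr a a s 0 0| + |fr a a s 1 1| := abs_sub _ _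
      _ ≤ _ := by linarith
  · rw [e2, abs_mul, abs_two]
    have : 2 * C' * n / K ^ 2 = 2 * (C' * (1 / K ^ 2) * n) := by ring
    rw [this]
    linarith
  · rw [e3, abs_mul, abs_two]
    have : 2 * C' * n / K ^ 2 = 2 * (C' * (1 / K ^ 2) * n) := by ring
    rw [this]
    linarith
  · rw [fr_trace a s ha]
    calc |fr a a s 0 0 + fr a a s 1 1| ≤ |fr a a s 0 0| + |fr a a s 1 1| := abs_add_le _ _
      _ ≤ _ := by linarith

theorem tCor : S_Cor := by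
  intro k C' ε hk hC'1 hε
  obtain ⟨K0, hK0⟩ := tCLD k (ε / 2) hk (by positivity)
  obtain ⟨CF, hCF, hF⟩ := tFbr (ε / 48) (by positivity)
  set X : ℝ := CF * (8 * C' ^ 2) ^ (ε / 48) with hX
  have hX0 : 0 ≤ X := by positivity
  refine ⟨max K0 (max 1 (X ^ (4 / ε))), ?_⟩
  intro τ K B L M a A h1 h2 hK hB hL hLK hM ha hP hdsc h
  have hK1 : K0 ≤ K := (le_max_left _ _).trans hK
  have hK2 : 1 ≤ K := (le_max_left _ _).trans ((le_max_right _ _).trans hK)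
  have hK3 : X ^ (4 / ε) ≤ K := (le_max_right _ _).trans ((le_max_right _ _).trans hK)
  have hKp : 0 < K := by linarith
  have hXK : X ≤ K ^ (ε / 4) := by
    have q1 := Real.rpow_le_rpow (by positivity) hK3 (by positivity : (0 : ℝ) ≤ ε / 4)
    rw [← Real.rpow_mul hX0] at q1
    have q2 : 4 / ε * (ε / 4) = 1 := by field_simp
    rw [q2, Real.rpow_one] at q1
    exact q1
  have hmain := hK0 τ C' K B L (K ^ (ε / 2) * M) a A h1 h2 hK1 hB hL hLK (by positivity) hP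
  refine (hmain ?_).trans (le_of_eq ?_)
  swap
  · have : K ^ ε = K ^ (ε / 2) * K ^ (ε / 2) := by
      rw [← Real.rpow_add hKp]; congr 1; ring
    rw [this]; ring
  intro T S0 hT hTL hS0
  classical
  set W : Finset MZ := S0.image (fun r => tf r.1) with hW
  -- frames
  have hfr : ∀ r ∈ S0, |fr a a (tf r.1) 0 0| ≤ 2 * C' * r.2 ∧
      |fr a a (tf r.1) 0 1| ≤ 2 * C' * r.2 / K ^ 2 ∧
      |fr a a (tf r.1) 1 0| ≤ 2 * C' * r.2 / K ^ 2 ∧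
      |((r.1.trace : ℤ) : ℝ)| ≤ 2 * C' * r.2 := by
    intro r hr
    exact tf_frame ha (hS0 r hr).1.2.2.2.2.1
  have hLK2 : L ^ 2 ≤ K ^ 6 := by
    calc L ^ 2 ≤ (K ^ 3) ^ 2 := pow_le_pow_left₀ (by linarith) hLK 2
      _ = K ^ 6 := by ring
  have hK6 : 1 ≤ K ^ 6 := one_le_pow₀ hK2
  have hC'2 : 1 ≤ C' ^ 2 := one_le_pow₀ hC'1
  have hds : ∀ r ∈ S0, dsc r.1 ≠ 0 := by
    intro r hr h0
    obtain ⟨-, -, -, -, -, t, htA, c, hc, hlp⟩ := (hS0 r hr).1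
    apply hdsc t htA
    rw [hlp, dsc_smul, h0, mul_zero]
  have hWcard : (W.card : ℝ) ≤ M * T ^ (3 / 2 : ℝ) := by
    apply h T W hT hTL
    intro v hv
    obtain ⟨r, hr, rfl⟩ := Finset.mem_image.1 hv
    obtain ⟨f1, f2, f3, -⟩ := hfr r hr
    have hrT : (r.2 : ℝ) ≤ T := (hS0 r hr).2
    have hm : 2 * C' * (r.2 : ℝ) ≤ 2 * C' * T := by
      apply mul_le_mul_of_nonneg_left hrT (by positivity)
    have hm2 : 2 * C' * (r.2 : ℝ) / K ^ 2 ≤ 2 * C' * T / K ^ 2 := by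
      apply div_le_div_of_nonneg_right hm (by positivity)
    refine ⟨?_, tf_trace _, f1.trans hm, f2.trans hm2, f3.trans hm2, ?_⟩
    · rw [tf_det]; exact neg_ne_zero.2 (hds r hr)
    · obtain ⟨-, -, -, -, -, t, htA, c, hc, hlp⟩ := (hS0 r hr).1
      exact ⟨t, htA, c, r.1, hc, hlp, rfl⟩
  -- fibres
  have hZ : 1 ≤ 8 * C' ^ 2 * K ^ 12 := by
    have : 1 ≤ K ^ 12 := one_le_pow₀ hK2
    nlinarith
  have hbd : ∀ r ∈ S0, 2 * C' * (r.2 : ℝ) ≤ 2 * C' * K ^ 6 := fun r hr =>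
    mul_le_mul_of_nonneg_left (((hS0 r hr).2.trans hTL).trans hLK2) (by positivity)
  have hfib : ∀ v ∈ W, ((S0.filter (fun r => tf r.1 = v)).card : ℝ) ≤ K ^ (ε / 2) := by
    intro v hv
    obtain ⟨r0, hr0, hr0v⟩ := Finset.mem_image.1 hv
    have hb := hF (8 * C' ^ 2 * K ^ 12) hZ v ?_ ?_ (S0.filter (fun r => tf r.1 = v)) ?_
    · refine hb.trans ?_
      rw [Real.mul_rpow (by positivity) (by positivity), ← Real.rpow_natCast K 12,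
        ← Real.rpow_mul hKp.le]
      have e1 : ((12 : ℕ) : ℝ) * (ε / 48) = ε / 4 := by push_cast; ring
      rw [e1, ← mul_assoc, ← hX]
      calc X * K ^ (ε / 4) ≤ K ^ (ε / 4) * K ^ (ε / 4) :=
            mul_le_mul_of_nonneg_right hXK (by positivity)
        _ = K ^ (ε / 2) := by rw [← Real.rpow_add hKp]; congr 1; ring
    · rw [← hr0v, tf_det]; exact neg_ne_zero.2 (hds r0 hr0)
    · rw [← hr0v]
      obtain ⟨f1, f2, f3, -⟩ := hfr r0 hr0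
      have hdet : (((tf r0.1).det : ℤ) : ℝ) = (fr a a (tf r0.1)).det :=
        (tFr.2.1 a a (tf r0.1) ha ha).symm
      have htr := fr_trace a (tf r0.1) ha
      rw [tf_trace] at htr
      have h11 : fr a a (tf r0.1) 1 1 = - fr a a (tf r0.1) 0 0 := by
        push_cast at htr; linarith
      rw [hdet, Matrix.det_fin_two, h11]
      have hq := hbd r0 hr0
      have g1 : |fr a a (tf r0.1) 0 0| ≤ 2 * C' * K ^ 6 := f1.trans hq
      have hd : 2 * C' * (r0.2 : ℝ) / K ^ 2 ≤ 2 * C' * (r0.2 : ℝ) :=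
        div_le_self (by positivity) (one_le_pow₀ hK2)
      have g2 := (f2.trans hd).trans hq
      have g3 := (f3.trans hd).trans hq
      calc |fr a a (tf r0.1) 0 0 * -fr a a (tf r0.1) 0 0 - fr a a (tf r0.1) 0 1 * fr a a (tf r0.1) 1 0|
          ≤ |fr a a (tf r0.1) 0 0 * -fr a a (tf r0.1) 0 0| +
            |fr a a (tf r0.1) 0 1 * fr a a (tf r0.1) 1 0| := abs_sub _ _
        _ = |fr a a (tf r0.1) 0 0| * |fr a a (tf r0.1) 0 0| +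
            |fr a a (tf r0.1) 0 1| * |fr a a (tf r0.1) 1 0| := by
            rw [abs_mul, abs_mul, abs_neg]
        _ ≤ (2 * C' * K ^ 6) * (2 * C' * K ^ 6) + (2 * C' * K ^ 6) * (2 * C' * K ^ 6) := by gcongr
        _ = 8 * C' ^ 2 * K ^ 12 := by ring
    · intro r hr
      rw [Finset.mem_filter] at hr
      obtain ⟨f1, f2, f3, f4⟩ := hfr r hr.1
      have hq := hbd r hr.1
      have hz : 2 * C' * K ^ 6 ≤ 8 * C' ^ 2 * K ^ 12 := by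
        have q1 : K ^ 6 ≤ K ^ 12 := pow_le_pow_right₀ hK2 (by norm_num)
        have q2 : C' ≤ C' ^ 2 := by nlinarith
        have q3 : C' * K ^ 6 ≤ C' ^ 2 * K ^ 12 := mul_le_mul q2 q1 (by positivity) (by positivity)
        have q4 : 0 ≤ C' ^ 2 * K ^ 12 := by positivity
        nlinarith
      refine ⟨hr.2, (hS0 r hr.1).1.2.2.1, f4.trans (hq.trans hz), ?_⟩
      have : 2 * (r.2 : ℝ) ≤ 2 * C' * (r.2 : ℝ) := by
        apply mul_le_mul_of_nonneg_right _ (Nat.cast_nonneg _)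
        linarith
      exact this.trans (hq.trans hz)
  have hsum : (S0.card : ℝ) = ∑ v ∈ W, ((S0.filter (fun r => tf r.1 = v)).card : ℝ) := by
    have h0 : S0.card = ∑ v ∈ W, (S0.filter (fun r => tf r.1 = v)).card :=
      Finset.card_eq_sum_card_fiberwise (fun r hr => Finset.mem_image_of_mem _ hr)
    rw [← Nat.cast_sum, ← h0]
  rw [hsum]
  calc ∑ v ∈ W, ((S0.filter (fun r => tf r.1 = v)).card : ℝ) ≤ ∑ v ∈ W, K ^ (ε / 2) :=
        Finset.sum_le_sum hfib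
    _ = K ^ (ε / 2) * (W.card : ℝ) := by rw [Finset.sum_const, nsmul_eq_mul]; ring
    _ ≤ K ^ (ε / 2) * (M * T ^ (3 / 2 : ℝ)) := mul_le_mul_of_nonneg_left hWcard (by positivity)
    _ = K ^ (ε / 2) * M * T ^ (3 / 2 : ℝ) := by ring

end HSL.PC
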