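import Pool.Agent.Lib.HS.Bd.Pc2

/-!
# PROJECT H*, bands: pair count at one point, part 3: the tube count

`lat_tube2` (copy of `lat_tube` with the multiple in `S`), `tub`: the number of traceless integral matrices in the
tube of length `T` and radius `T / K^2` seen from a bounded point, with a property `Q` stable under division, if no
such matrix has gauge less than `D`.
-/

set_option autoImplicit false

namespace HSL.PC

open Matrix Pool.Agent.A54.HSL Finset

theorem lat_tube2 (a : Fin 3 → Fin 3 → ℝ) {C T ρ : ℝ} (hC : ∀ i j, |a i j| ≤ C) (hdet : d3 (a 0) (a 1) (a 2) = 1)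
    (hρ : 0 ≤ ρ) (hρT : ρ ≤ T) (S : Finset (Fin 3 → ℤ))
    (h0 : ∀ v ∈ S, |∑ j, a 0 j * v j| ≤ T) (h1 : ∀ v ∈ S, |∑ j, a 1 j * v j| ≤ ρ)
    (h2 : ∀ v ∈ S, |∑ j, a 2 j * v j| ≤ ρ) :
    (S.card : ℝ) ≤ 162 * (T * ρ ^ 2) ∨ (S.card : ℝ) ≤ 486 * (C * (T * ρ)) ∨ S.card ≤ 1 ∨
      ∃ (k : ℕ) (e : Fin 3 → ℤ), 1 ≤ k ∧ e ≠ 0 ∧ (k : ℤ) • e ∈ S ∧ |∑ j, a 0 j * e j| ≤ T / k ∧ |∑ j, a 1 j * e j| ≤ ρ / k ∧
        |∑ j, a 2 j * e j| ≤ ρ / k ∧ S.card ≤ 2 * k + 1 := by
  have hT : 0 ≤ T := hρ.trans hρT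
  have hC0 : 0 ≤ C := (abs_nonneg _).trans (hC 0 0)
  set F : (Fin 3 → ℤ) → Fin 3 → ℝ := fun v i => ∑ j, a i j * v j with hF
  have eF : ∀ v i, F v i = a i 0 * v 0 + a i 1 * v 1 + a i 2 * v 2 := by
    intro v i; simp [hF, Fin.sum_univ_three]
  have g0 : ∀ v ∈ S, |F v 0| ≤ T := h0
  have g1 : ∀ v ∈ S, |F v 1| ≤ ρ := h1
  have g2 : ∀ v ∈ S, |F v 2| ≤ ρ := h2
  have hd : a 0 0 * (a 1 1 * a 2 2 - a 1 2 * a 2 1) - a 0 1 * (a 1 0 * a 2 2 - a 1 2 * a 2 0)
      + a 0 2 * (a 1 0 * a 2 1 - a 1 1 * a 2 0) = 1 := hdet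
  -- determinants
  have k3 : ∀ u ∈ S, ∀ v ∈ S, ∀ w ∈ S, |d3 u v w| ≤ ⌊6 * (T * ρ ^ 2)⌋ := by
    intro u hu v hv w hw
    rw [Int.le_floor]
    have e1 : ((|d3 u v w| : ℤ) : ℝ) = |d3 (F u) (F v) (F w)| := by
      rw [Int.cast_abs]
      congr 1
      have : d3 (F u) (F v) (F w) = (a 0 0 * (a 1 1 * a 2 2 - a 1 2 * a 2 1)
          - a 0 1 * (a 1 0 * a 2 2 - a 1 2 * a 2 0) + a 0 2 * (a 1 0 * a 2 1 - a 1 1 * a 2 0)) *
          ((d3 u v w : ℤ) : ℝ) := by
        simp only [d3, eF]; push_cast; ring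
      rw [this, hd, one_mul]
    rw [e1]
    have b1 := g0 u hu
    have b2 := g1 u hu
    have b3 := g2 u hu
    have b4 := g0 v hv
    have b5 := g1 v hv
    have b6 := g2 v hv
    have b7 := g0 w hw
    have b8 := g1 w hw
    have b9 := g2 w hw
    have tri : |d3 (F u) (F v) (F w)| ≤ |F u 0| * (|F v 1| * |F w 2| + |F v 2| * |F w 1|)
        + |F u 1| * (|F v 0| * |F w 2| + |F v 2| * |F w 0|)
        + |F u 2| * (|F v 0| * |F w 1| + |F v 1| * |F w 0|) := by
      simp only [d3]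
      refine (abs_add_le _ _).trans (add_le_add ((abs_sub _ _).trans (add_le_add ?_ ?_)) ?_)
      · rw [abs_mul]; gcongr; exact (abs_sub _ _).trans (by rw [abs_mul, abs_mul])
      · rw [abs_mul]; gcongr; exact (abs_sub _ _).trans (by rw [abs_mul, abs_mul])
      · rw [abs_mul]; gcongr; exact (abs_sub _ _).trans (by rw [abs_mul, abs_mul])
    refine tri.trans ?_
    calc |F u 0| * (|F v 1| * |F w 2| + |F v 2| * |F w 1|)
        + |F u 1| * (|F v 0| * |F w 2| + |F v 2| * |F w 0|)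
        + |F u 2| * (|F v 0| * |F w 1| + |F v 1| * |F w 0|)
        ≤ T * (ρ * ρ + ρ * ρ) + ρ * (T * ρ + ρ * T) + ρ * (T * ρ + ρ * T) := by gcongr
      _ = 6 * (T * ρ ^ 2) := by ring
  -- cross products
  have k2 : ∀ u ∈ S, ∀ v ∈ S, n1 (cr u v) ≤ ⌊18 * (C * (T * ρ))⌋ := by
    intro u hu v hv
    rw [Int.le_floor]
    set X : Fin 3 → ℝ := cr (F u) (F v) with hX
    have X0 : |X 0| ≤ 2 * (T * ρ) := by
      have : X 0 = F u 1 * F v 2 - F u 2 * F v 1 := by simp [hX, cr]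
      rw [this]
      refine (abs_sub _ _).trans ?_
      rw [abs_mul, abs_mul]
      calc |F u 1| * |F v 2| + |F u 2| * |F v 1| ≤ ρ * ρ + ρ * ρ := by
            gcongr
            · exact g1 u hu
            · exact g2 v hv
            · exact g2 u hu
            · exact g1 v hv
        _ ≤ T * ρ + T * ρ := by gcongr
        _ = 2 * (T * ρ) := by ring
    have X1 : |X 1| ≤ 2 * (T * ρ) := by
      have : X 1 = F u 2 * F v 0 - F u 0 * F v 2 := by simp [hX, cr]
      rw [this]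
      refine (abs_sub _ _).trans ?_
      rw [abs_mul, abs_mul]
      calc |F u 2| * |F v 0| + |F u 0| * |F v 2| ≤ ρ * T + T * ρ := by
            gcongr
            · exact g2 u hu
            · exact g0 v hv
            · exact g0 u hu
            · exact g2 v hv
        _ = 2 * (T * ρ) := by ring
    have X2 : |X 2| ≤ 2 * (T * ρ) := by
      have : X 2 = F u 0 * F v 1 - F u 1 * F v 0 := by simp [hX, cr]
      rw [this]
      refine (abs_sub _ _).trans ?_
      rw [abs_mul, abs_mul]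
      calc |F u 0| * |F v 1| + |F u 1| * |F v 0| ≤ T * ρ + ρ * T := by
            gcongr
            · exact g0 u hu
            · exact g1 v hv
            · exact g1 u hu
            · exact g0 v hv
        _ = 2 * (T * ρ) := by ring
    have comp : ∀ i, ((cr u v i : ℤ) : ℝ) = a 0 i * X 0 + a 1 i * X 1 + a 2 i * X 2 := by
      intro i
      have x0 : X 0 = F u 1 * F v 2 - F u 2 * F v 1 := by simp [hX, cr]
      have x1 : X 1 = F u 2 * F v 0 - F u 0 * F v 2 := by simp [hX, cr]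
      have x2 : X 2 = F u 0 * F v 1 - F u 1 * F v 0 := by simp [hX, cr]
      rw [x0, x1, x2]
      simp only [eF]
      fin_cases i
      · simp only [cr, Fin.zero_eta, Matrix.cons_val_zero]
        push_cast
        linear_combination (-((u 1 : ℝ) * v 2 - u 2 * v 1)) * hd
      · simp only [cr, Fin.mk_one, Matrix.cons_val_one, Matrix.cons_val]
        push_cast
        linear_combination (-((u 2 : ℝ) * v 0 - u 0 * v 2)) * hd
      · simp only [cr, Fin.reduceFinMk, Matrix.cons_val]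
        push_cast
        linear_combination (-((u 0 : ℝ) * v 1 - u 1 * v 0)) * hd
    have bound : ∀ i, |((cr u v i : ℤ) : ℝ)| ≤ 6 * (C * (T * ρ)) := by
      intro i
      rw [comp i]
      refine (abs_add_le _ _).trans ?_
      have q1 := abs_add_le (a 0 i * X 0) (a 1 i * X 1)
      rw [abs_mul, abs_mul] at q1
      rw [abs_mul (a 2 i)]
      have r0 : |a 0 i| * |X 0| ≤ C * (2 * (T * ρ)) := by gcongr; exact hC 0 i
      have r1 : |a 1 i| * |X 1| ≤ C * (2 * (T * ρ)) := by gcongr; exact hC 1 i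
      have r2 : |a 2 i| * |X 2| ≤ C * (2 * (T * ρ)) := by gcongr; exact hC 2 i
      linarith
    have b0 := bound 0
    have b1 := bound 1
    have b2 := bound 2
    unfold n1
    push_cast
    linarith
  rcases card_alt S k2 k3 with h | h | h | ⟨k, e, hk, he, hm, hcard⟩
  · left
    have h5 : (S.card : ℝ) ≤ 27 * (⌊6 * (T * ρ ^ 2)⌋ : ℝ) := by exact_mod_cast h
    have h6 := Int.floor_le (6 * (T * ρ ^ 2))
    linarith
  · right; left
    have h5 : (S.card : ℝ) ≤ 27 * (⌊18 * (C * (T * ρ))⌋ : ℝ) := by exact_mod_cast h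
    have h6 := Int.floor_le (18 * (C * (T * ρ)))
    linarith
  · right; right; left; exact h
  · right; right; right
    have hk0 : (0 : ℝ) < k := by exact_mod_cast hk
    have hsc : ∀ i, F ((k : ℤ) • e) i = k * F e i := by
      intro i; rw [eF, eF]; simp only [Pi.smul_apply, smul_eq_mul]; push_cast; ring
    refine ⟨k, e, hk, he, hm, ?_, ?_, ?_, hcard⟩
    · have h5 := g0 _ hm
      rw [hsc, abs_mul, abs_of_pos hk0] at h5
      rw [le_div_iff₀ hk0, mul_comm]; exact h5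
    · have h5 := g1 _ hm
      rw [hsc, abs_mul, abs_of_pos hk0] at h5
      rw [le_div_iff₀ hk0, mul_comm]; exact h5
    · have h5 := g2 _ hm
      rw [hsc, abs_mul, abs_of_pos hk0] at h5
      rw [le_div_iff₀ hk0, mul_comm]; exact h5


/-- `Dq Q a K D`: no non-zero traceless integral `v` with `Q v` has gauge less than `D` seen from `a` -/
def Dq (Q : MZ → Prop) (a : MR) (K D : ℝ) : Prop :=
  ∀ v : MZ, v ≠ 0 → v.trace = 0 → Q v → |fr a a v 0 0| < D → |fr a a v 0 1| < D / K ^ 2 →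
    |fr a a v 1 0| < D / K ^ 2 → False

theorem dq_le {Q : MZ → Prop} {a : MR} {K D T : ℝ} (hK : 1 ≤ K) (hD : Dq Q a K D) {v : MZ} (hv : v ≠ 0)
    (ht : v.trace = 0) (hQ : Q v) (h0 : |fr a a v 0 0| ≤ T) (h1 : |fr a a v 0 1| ≤ T / K ^ 2)
    (h2 : |fr a a v 1 0| ≤ T / K ^ 2) : D ≤ T := by
  by_contra hc
  push Not at hc
  have hKp : 0 < K := by linarith
  have h3 : T / K ^ 2 < D / K ^ 2 := div_lt_div_of_pos_right hc (by positivity)
  exact hD v hv ht hQ (h0.trans_lt hc) (h1.trans_lt h3) (h2.trans_lt h3)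

theorem mat_smul (k : ℤ) (e : Fin 3 → ℤ) : mat (k • e) = k • mat e := by
  ext i j
  fin_cases i <;> fin_cases j <;> simp [mat]

/-- **tube count at one point** -/
theorem tub (R : ℝ) (hR : 1 ≤ R) : ∃ C1 : ℝ, 1 ≤ C1 ∧ ∀ (Q : MZ → Prop) (a : MR) (K D T : ℝ) (W : Finset MZ),
    (∀ (k : ℤ) (v : MZ), Q (k • v) → Q v) → 1 ≤ K → a.det = 1 → (∀ i j, |a i j| ≤ R) → 0 < D →
    Dq Q a K D → 0 ≤ T →
    (∀ v ∈ W, v ≠ 0 ∧ v.trace = 0 ∧ Q v ∧ |fr a a v 0 0| ≤ T ∧ |fr a a v 0 1| ≤ T / K ^ 2 ∧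
      |fr a a v 1 0| ≤ T / K ^ 2) →
    (W.Nonempty → D ≤ T) ∧
    (W.card : ℝ) ≤ C1 * (T ^ 3 / K ^ 4 + T ^ 2 / K ^ 2 + T / D) ∧
    ((∀ v ∈ W, ∀ v' ∈ W, brk v v' = 0) → (W.card : ℝ) ≤ C1 * (T / D)) := by
  have hR2 : 1 ≤ R ^ 2 := by nlinarith
  refine ⟨972 * R ^ 2, by nlinarith, ?_⟩
  intro Q a K D T W hQ hK hdet hent hD0 hD hT hW
  classical
  have hKp : 0 < K := by linarith
  have hK2 : 1 ≤ K ^ 2 := by nlinarith
  have hne : W.Nonempty → D ≤ T := by
    rintro ⟨v, hv⟩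
    obtain ⟨a1, a2, a0, a3, a4, a5⟩ := hW v hv
    exact dq_le hK hD a1 a2 a0 a3 a4 a5
  have hinj : Set.InjOn vec (W : Set MZ) := by
    intro v hv v' hv' he
    rw [← mat_vec v (hW v hv).2.1, ← mat_vec v' (hW v' hv').2.1, he]
  have hcard : (W.image vec).card = W.card := Finset.card_image_of_injOn hinj
  have hone : W.card ≤ 1 → (W.card : ℝ) ≤ T / D := by
    intro h
    rcases W.eq_empty_or_nonempty with he | hn
    · rw [he]; simp; positivity
    · have h1 : (W.card : ℝ) ≤ 1 := by exact_mod_cast h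
      exact h1.trans ((one_le_div hD0).2 (hne hn))
  have hkth : ∀ (k : ℕ) (e : Fin 3 → ℤ), 1 ≤ k → e ≠ 0 → (k : ℤ) • e ∈ W.image vec →
      |∑ j, co a 0 j * (e j : ℝ)| ≤ T / k →
      |∑ j, co a 1 j * (e j : ℝ)| ≤ T / K ^ 2 / k →
      |∑ j, co a 2 j * (e j : ℝ)| ≤ T / K ^ 2 / k → W.card ≤ 2 * k + 1 →
      (W.card : ℝ) ≤ 3 * (T / D) := by
    intro k e hk he hmem b0 b1 b2 hc
    have hk0 : (0 : ℝ) < k := by exact_mod_cast hk
    have hk1 : (1 : ℝ) ≤ k := by exact_mod_cast hk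
    obtain ⟨v, hv, hve⟩ := Finset.mem_image.1 hmem
    have hQe : Q (mat e) := by
      apply hQ (k : ℤ)
      rw [← mat_smul, ← hve, mat_vec v (hW v hv).2.1]
      exact (hW v hv).2.2.1
    obtain ⟨c0, c1, c2⟩ := fr_vec a (mat e) (mat_trace e)
    rw [vec_mat] at c0 c1 c2
    have := dq_le (T := T / k) hK hD (mat_ne_zero he) (mat_trace e) hQe (by rw [c0]; exact b0)
      (by rw [c1, div_right_comm]; exact b1) (by rw [c2, div_right_comm]; exact b2)
    rw [le_div_iff₀ hk0] at this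
    have h3 : (k : ℝ) ≤ T / D := by
      rw [le_div_iff₀ hD0]; linarith
    have h4 : (W.card : ℝ) ≤ 2 * k + 1 := by exact_mod_cast hc
    linarith
  have hTP : 0 ≤ T / D := by positivity
  have hT3 : 0 ≤ T ^ 3 / K ^ 4 := by positivity
  have hT2 : 0 ≤ T ^ 2 / K ^ 2 := by positivity
  have q1 := mul_nonneg (by positivity : (0:ℝ) ≤ R ^ 2) hT3
  have q2 := mul_nonneg (by positivity : (0:ℝ) ≤ R ^ 2) hT2
  have q3 := mul_nonneg (by positivity : (0:ℝ) ≤ R ^ 2) hTP
  refine ⟨hne, ?_, ?_⟩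
  · have hmem : ∀ u ∈ W.image vec, |∑ j, co a 0 j * (u j : ℝ)| ≤ T ∧
        |∑ j, co a 1 j * (u j : ℝ)| ≤ T / K ^ 2 ∧
        |∑ j, co a 2 j * (u j : ℝ)| ≤ T / K ^ 2 := by
      intro u hu
      obtain ⟨v, hv, rfl⟩ := Finset.mem_image.1 hu
      obtain ⟨a1, a2, a0, a3, a4, a5⟩ := hW v hv
      obtain ⟨c0, c1, c2⟩ := fr_vec a v a2
      rw [← c0, ← c1, ← c2]
      exact ⟨a3, a4, a5⟩
    have hlat := lat_tube2 (co a) (C := 2 * R ^ 2) (T := T) (ρ := T / K ^ 2)
      (co_le a hR hent) (co_det a hdet) (by positivity) (div_le_self hT hK2)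
      (W.image vec) (fun u hu => (hmem u hu).1) (fun u hu => (hmem u hu).2.1)
      (fun u hu => (hmem u hu).2.2)
    rw [hcard] at hlat
    have e1 : T * (T / K ^ 2) ^ 2 = T ^ 3 / K ^ 4 := by field_simp
    have e2 : T * (T / K ^ 2) = T ^ 2 / K ^ 2 := by field_simp
    rw [e1, e2] at hlat
    rcases hlat with h | h | h | ⟨k, e, hk, he, hm, b0, b1, b2, hc⟩
    · nlinarith
    · nlinarith
    · have := hone h
      nlinarith
    · have := hkth k e hk he hm b0 b1 b2 hc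
      nlinarith
  · intro hcomm
    have hcr : ∀ u ∈ W.image vec, ∀ u' ∈ W.image vec, cr u u' = 0 := by
      intro u hu u' hu'
      obtain ⟨v, hv, rfl⟩ := Finset.mem_image.1 hu
      obtain ⟨v', hv', rfl⟩ := Finset.mem_image.1 hu'
      have h1 := hcomm v hv v' hv'
      have t1 := (hW v hv).2.1
      have t2 := (hW v' hv').2.1
      rw [Matrix.trace_fin_two] at t1 t2
      have h00 := congrFun (congrFun h1 0) 0
      have h01 := congrFun (congrFun h1 0) 1
      have h10 := congrFun (congrFun h1 1) 0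
      simp only [brk, Matrix.sub_apply, Matrix.mul_apply, Fin.sum_univ_two, Matrix.zero_apply]
        at h00 h01 h10
      have t1' : v 1 1 = - v 0 0 := by linarith
      have t2' : v' 1 1 = - v' 0 0 := by linarith
      rw [t1', t2'] at h01 h10
      funext j
      fin_cases j <;>
        simp only [cr, vec, Fin.zero_eta, Fin.mk_one, Fin.reduceFinMk, Fin.isValue,
          Matrix.cons_val_zero, Matrix.cons_val_one, Matrix.cons_val, Pi.zero_apply] <;> linarith
    rcases card1 (W.image vec) hcr with h | ⟨k, e, hk, he, hmem, hc⟩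
    · rw [hcard] at h
      have := hone h
      nlinarith
    · rw [hcard] at hc
      obtain ⟨v, hv, hve⟩ := Finset.mem_image.1 hmem
      obtain ⟨a1, a2, a0, a3, a4, a5⟩ := hW v hv
      obtain ⟨c0, c1, c2⟩ := fr_vec a v a2
      have hk0 : (0 : ℝ) < k := by exact_mod_cast hk
      have hsum : ∀ l : Fin 3, ∑ j, co a l j * (vec v j : ℝ) =
          k * ∑ j, co a l j * (e j : ℝ) := by
        intro l
        rw [hve, Finset.mul_sum]
        apply Finset.sum_congr rfl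
        intro j _
        simp only [Pi.smul_apply, smul_eq_mul]
        push_cast; ring
      have hdiv : ∀ (l : Fin 3) (X : ℝ), |∑ j, co a l j * (vec v j : ℝ)| ≤ X →
          |∑ j, co a l j * (e j : ℝ)| ≤ X / k := by
        intro l X h
        rw [hsum, abs_mul, abs_of_pos hk0] at h
        rw [le_div_iff₀ hk0]; linarith
      have := hkth k e hk he hmem (hdiv 0 _ (by rw [← c0]; exact a3))
        (hdiv 1 _ (by rw [← c1]; exact a4)) (hdiv 2 _ (by rw [← c2]; exact a5)) hc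
      nlinarith

end HSL.PC
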