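import Pool.Agent.Lib.HS.Bd.Pc3
import Pool.Agent.Lib.HS.L.Nil
import Pool.Agent.Lib.HS.L.CL0

/-!
# PROJECT H*, bands: pair count at one point, part 4

`pcQ`: pairs with `dsc ≠ 0` and a property `Q` of the traceless part of the primitive part; `pcOn`: commuting loops;
`pcNil`: nilpotent loops; `pcAll`: all non-scalar loops.
-/

set_option autoImplicit false

namespace HSL.PC

open Matrix

theorem K_large {c ε : ℝ} (hc : 0 ≤ c) (hε : 0 < ε) {K : ℝ} (hK : c ^ (1 / ε) ≤ K) : c ≤ K ^ ε := by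
  calc c = (c ^ (1 / ε)) ^ ε := by
        rw [← Real.rpow_mul hc, one_div, inv_mul_cancel₀ hε.ne', Real.rpow_one]
    _ ≤ K ^ ε := Real.rpow_le_rpow (by positivity) hK hε.le

/-- pairs with non-zero discriminant -/
theorem pcQ (k : ℕ) (C' R ε : ℝ) (hk : 1 ≤ k) (hC' : 1 ≤ C') (hR : 1 ≤ R) (hε : 0 < ε) :
    ∃ K0 : ℝ, ∀ (τ : Type) (Q : MZ → Prop) (K B L D : ℝ) (a : MR) (A : Finset τ) (h1 h2 : τ → MZ),
      K0 ≤ K → 1 ≤ B → 1 ≤ L → L ≤ K ^ 3 → 0 < D → a.det = 1 → (∀ i j, |a i j| ≤ R) →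
      (∀ (c : ℤ) (v : MZ), Q (c • v) → Q v) → Dq Q a K D → Prs C' (1 / K ^ 2) a k L B A h1 h2 →
      (∀ t ∈ A, dsc ((h2 t).adjugate * h1 t) ≠ 0) →
      (∀ t ∈ A, ∀ (c : ℤ) (s0 : MZ), c ≠ 0 → (h2 t).adjugate * h1 t = c • s0 → Q (tf s0)) →
      (A.card : ℝ) ≤ B * K ^ ε * (L ^ 6 / K ^ 4 + L ^ 4 / K ^ 2 + L ^ 3 / (D * √D)) := by
  obtain ⟨K0, hK0⟩ := tCor k C' (ε / 2) hk hC' (by positivity)
  obtain ⟨C1, hC1, hT1⟩ := tub R hR
  set D' : ℝ := 2 * C' with hD'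
  have hD'1 : 1 ≤ D' := by linarith
  set X : ℝ := C1 * D' ^ 3 with hX
  have hX0 : 0 ≤ X := by positivity
  refine ⟨max K0 (max 1 (X ^ (1 / (ε / 2)))), ?_⟩
  intro τ Q K B L D a A h1 h2 hK hB hL hLK hD0 ha hent hQ hDq hP hdsc hQA
  have hK1 : K0 ≤ K := (le_max_left _ _).trans hK
  have hK2 : 1 ≤ K := (le_max_left _ _).trans ((le_max_right _ _).trans hK)
  have hK3 : X ^ (1 / (ε / 2)) ≤ K := (le_max_right _ _).trans ((le_max_right _ _).trans hK)
  have hKp : 0 < K := by linarith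
  have hXK : X ≤ K ^ (ε / 2) := K_large hX0 (by positivity) hK3
  have hsD : 0 < D * √D := mul_pos hD0 (Real.sqrt_pos.2 hD0)
  set M : ℝ := C1 * (D' ^ 3 * L ^ 3 / K ^ 4 + D' ^ 2 * L / K ^ 2 + D' ^ 2 / (D * √D)) with hM
  have hM0 : 0 ≤ M := by positivity
  have hmain := hK0 τ K B L M a A h1 h2 hK1 hB hL hLK hM0 ha hP hdsc ?_
  · refine hmain.trans ?_
    set Y : ℝ := L ^ 6 / K ^ 4 + L ^ 4 / K ^ 2 + L ^ 3 / (D * √D) with hY
    have hLM : L ^ 3 * M ≤ X * Y := by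
      have e1 : L ^ 3 * (D' ^ 3 * L ^ 3 / K ^ 4) = D' ^ 3 * (L ^ 6 / K ^ 4) := by ring
      have e2 : L ^ 3 * (D' ^ 2 * L / K ^ 2) ≤ D' ^ 3 * (L ^ 4 / K ^ 2) := by
        have : L ^ 3 * (D' ^ 2 * L / K ^ 2) = D' ^ 2 * (L ^ 4 / K ^ 2) := by ring
        rw [this]
        exact mul_le_mul_of_nonneg_right (pow_le_pow_right₀ hD'1 (by norm_num)) (by positivity)
      have e3 : L ^ 3 * (D' ^ 2 / (D * √D)) ≤ D' ^ 3 * (L ^ 3 / (D * √D)) := by
        have : L ^ 3 * (D' ^ 2 / (D * √D)) = D' ^ 2 * (L ^ 3 / (D * √D)) := by ring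
        rw [this]
        exact mul_le_mul_of_nonneg_right (pow_le_pow_right₀ hD'1 (by norm_num)) (by positivity)
      calc L ^ 3 * M = C1 * (L ^ 3 * (D' ^ 3 * L ^ 3 / K ^ 4) + L ^ 3 * (D' ^ 2 * L / K ^ 2) +
            L ^ 3 * (D' ^ 2 / (D * √D))) := by rw [hM]; ring
        _ ≤ C1 * (D' ^ 3 * (L ^ 6 / K ^ 4) + D' ^ 3 * (L ^ 4 / K ^ 2) + D' ^ 3 * (L ^ 3 / (D * √D))) := by
            apply mul_le_mul_of_nonneg_left _ (by linarith)
            rw [e1]; linarith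
        _ = X * Y := by rw [hX, hY]; ring
    have hY0 : 0 ≤ Y := by positivity
    have e4 : K ^ ε = K ^ (ε / 2) * K ^ (ε / 2) := by
      rw [← Real.rpow_add hKp]; congr 1; ring
    calc B * K ^ (ε / 2) * L ^ 3 * M = B * K ^ (ε / 2) * (L ^ 3 * M) := by ring
      _ ≤ B * K ^ (ε / 2) * (X * Y) := mul_le_mul_of_nonneg_left hLM (by positivity)
      _ ≤ B * K ^ (ε / 2) * (K ^ (ε / 2) * Y) := by
          apply mul_le_mul_of_nonneg_left _ (by positivity)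
          exact mul_le_mul_of_nonneg_right hXK hY0
      _ = B * K ^ ε * Y := by rw [e4]; ring
  · intro T W hT hTL hW
    rcases W.eq_empty_or_nonempty with he | hne
    · rw [he]; simp only [Finset.card_empty, Nat.cast_zero]; positivity
    obtain ⟨t1, t2, -⟩ := hT1 Q a K D (D' * T) W hQ hK2 ha hent hD0 hDq (by positivity) (by
      intro v hv
      obtain ⟨a1, a2, a3, a4, a5, t, ht, c, s0, hc, hl, hs⟩ := hW v hv
      refine ⟨?_, a2, ?_, a3, a4, a5⟩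
      · rintro rfl
        apply a1
        simp
      · rw [← hs]; exact hQA t ht c s0 hc hl)
    exact t2.trans (tube_exp (by linarith) hD'1 hK2 hL hD0 hT hTL (t1 hne))

/-- commuting loops -/
theorem pcOn (k : ℕ) (C' R ε : ℝ) (hk : 1 ≤ k) (hC' : 1 ≤ C') (hR : 1 ≤ R) (hε : 0 < ε) :
    ∃ K0 : ℝ, ∀ (τ : Type) (Q : MZ → Prop) (K B L D : ℝ) (a : MR) (A : Finset τ) (h1 h2 : τ → MZ),
      K0 ≤ K → 1 ≤ B → 1 ≤ L → L ≤ K ^ 3 → 0 < D → a.det = 1 → (∀ i j, |a i j| ≤ R) →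
      (∀ (c : ℤ) (v : MZ), Q (c • v) → Q v) → Dq Q a K D → Prs C' (1 / K ^ 2) a k L B A h1 h2 →
      (∀ t ∈ A, dsc ((h2 t).adjugate * h1 t) ≠ 0) →
      (∀ t ∈ A, ∀ (c : ℤ) (s0 : MZ), c ≠ 0 → (h2 t).adjugate * h1 t = c • s0 → Q (tf s0)) →
      (∀ v v' : MZ, Q v → Q v' → brk v v' = 0) →
      (A.card : ℝ) ≤ B * K ^ ε * (L ^ 3 / (D * √D)) := by
  obtain ⟨K0, hK0⟩ := tCor k C' (ε / 2) hk hC' (by positivity)
  obtain ⟨C1, hC1, hT1⟩ := tub R hR
  set D' : ℝ := 2 * C' with hD'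
  have hD'1 : 1 ≤ D' := by linarith
  set X : ℝ := C1 * D' ^ 2 with hX
  have hX0 : 0 ≤ X := by positivity
  refine ⟨max K0 (max 1 (X ^ (1 / (ε / 2)))), ?_⟩
  intro τ Q K B L D a A h1 h2 hK hB hL hLK hD0 ha hent hQ hDq hP hdsc hQA hcomm
  have hK1 : K0 ≤ K := (le_max_left _ _).trans hK
  have hK2 : 1 ≤ K := (le_max_left _ _).trans ((le_max_right _ _).trans hK)
  have hK3 : X ^ (1 / (ε / 2)) ≤ K := (le_max_right _ _).trans ((le_max_right _ _).trans hK)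
  have hKp : 0 < K := by linarith
  have hXK : X ≤ K ^ (ε / 2) := K_large hX0 (by positivity) hK3
  have hsD : 0 < D * √D := mul_pos hD0 (Real.sqrt_pos.2 hD0)
  have hM0 : 0 ≤ C1 * (D' ^ 2 / (D * √D)) := by positivity
  have hmain := hK0 τ K B L (C1 * (D' ^ 2 / (D * √D))) a A h1 h2 hK1 hB hL hLK hM0 ha hP hdsc ?_
  · refine hmain.trans ?_
    have e4 : K ^ ε = K ^ (ε / 2) * K ^ (ε / 2) := by
      rw [← Real.rpow_add hKp]; congr 1; ring
    calc B * K ^ (ε / 2) * L ^ 3 * (C1 * (D' ^ 2 / (D * √D))) =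
        B * K ^ (ε / 2) * (X * (L ^ 3 / (D * √D))) := by rw [hX]; ring
      _ ≤ B * K ^ (ε / 2) * (K ^ (ε / 2) * (L ^ 3 / (D * √D))) := by
          apply mul_le_mul_of_nonneg_left _ (by positivity)
          exact mul_le_mul_of_nonneg_right hXK (by positivity)
      _ = _ := by rw [e4]; ring
  · intro T W hT hTL hW
    rcases W.eq_empty_or_nonempty with he | hne
    · rw [he]; simp only [Finset.card_empty, Nat.cast_zero]; positivity
    have hQW : ∀ v ∈ W, Q v := by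
      intro v hv
      obtain ⟨a1, a2, a3, a4, a5, t, ht, c, s0, hc, hl, hs⟩ := hW v hv
      rw [← hs]; exact hQA t ht c s0 hc hl
    obtain ⟨t1, -, t3⟩ := hT1 Q a K D (D' * T) W hQ hK2 ha hent hD0 hDq (by positivity) (by
      intro v hv
      obtain ⟨a1, a2, a3, a4, a5, -⟩ := hW v hv
      refine ⟨?_, a2, hQW v hv, a3, a4, a5⟩
      rintro rfl
      apply a1
      simp)
    have h3 := t3 (fun v hv v' hv' => hcomm v v' (hQW v hv) (hQW v' hv'))
    have h4 := tube_exp (C1 := C1) (D := D') (K := K) (L := L) (P := D) (T := T) (by linarith) hD'1 hK2 hL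
      hD0 hT hTL (t1 hne)
    -- the last part of tube_exp alone
    rw [rpow_three_half T (by linarith)]
    set s := √T with hs
    have hs0 : 0 ≤ s := Real.sqrt_nonneg _
    have hss : s * s = T := Real.mul_self_sqrt (by linarith)
    have hsP : √D ≤ D' * s := by
      rw [Real.sqrt_le_left (by positivity)]
      have : D' * T ≤ (D' * s) ^ 2 := by
        have h1 : (D' * s) ^ 2 = D' * (D' * T) := by rw [← hss]; ring
        rw [h1]
        have : 0 ≤ D' * T := by positivity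
        nlinarith
      exact (t1 hne).trans this
    have hsqP : 0 < √D := Real.sqrt_pos.2 hD0
    have e3 : D' * T / D ≤ D' ^ 2 / (D * √D) * s ^ 3 := by
      rw [div_mul_eq_mul_div, div_le_div_iff₀ hD0 (by positivity)]
      calc D' * T * (D * √D) = D' * T * D * √D := by ring
        _ ≤ D' * T * D * (D' * s) := by gcongr
        _ = D' ^ 2 * s ^ 3 * D := by rw [← hss]; ring
    calc (W.card : ℝ) ≤ C1 * (D' * T / D) := h3
      _ ≤ C1 * (D' ^ 2 / (D * √D) * s ^ 3) := mul_le_mul_of_nonneg_left e3 (by linarith)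
      _ = _ := by ring

end HSL.PC
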