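import Pool.Agent.Lib.HS.Bd.Pc4
import Pool.Agent.Lib.HS.SnA

/-!
# PROJECT H*, bands: pair count at one point, part 5: nilpotent loops and all loops
-/

set_option autoImplicit false

namespace HSL.PC

open Matrix

/-- the number of nilpotent integral matrices -/
theorem nil_card (ε : ℝ) (hε : 0 < ε) : ∃ C : ℝ, 1 ≤ C ∧ ∀ X : ℝ, 1 ≤ X → ∀ W : Finset MZ,
    (∀ v ∈ W, v.trace = 0 ∧ v.det = 0 ∧ ∀ i j, |((v i j : ℤ) : ℝ)| ≤ X) →
    (W.card : ℝ) ≤ C * (X * X ^ ε) := by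
  obtain ⟨C, hC, hp⟩ := Pool.Agent.A54.HSBd.pell_card (ε / 2) (by positivity)
  refine ⟨3 * (C * 4 ^ (ε / 2)) + 6, by nlinarith [Real.rpow_pos_of_pos (show (0:ℝ) < 4 by norm_num) (ε / 2)], ?_⟩
  intro X hX W hW
  classical
  have hX0 : 0 < X := by linarith
  set I : Finset ℤ := Finset.Icc (-⌊X⌋) ⌊X⌋ with hI
  have hmaps : ∀ v ∈ W, v 0 0 ∈ I := fun v hv =>
    Pool.Agent.A54.HS.SnA.mem_Icc_of ((hW v hv).2.2 0 0)
  have hIc : (I.card : ℝ) ≤ 3 * X := Pool.Agent.A54.HS.SnA.card_Icc_le hX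
  have h11 : ∀ v ∈ W, v 1 1 = - v 0 0 := by
    intro v hv
    have := (hW v hv).1
    rw [Matrix.trace_fin_two] at this
    linarith
  have hdet : ∀ v ∈ W, v 0 0 ^ 2 + v 0 1 * v 1 0 = 0 := by
    intro v hv
    have := (hW v hv).2.1
    rw [Matrix.det_fin_two, h11 v hv] at this
    linarith
  have hXe : 1 ≤ X ^ ε := Real.one_le_rpow hX hε.le
  have hfib : ∀ x ∈ I, ((W.filter (fun v => v 0 0 = x)).card : ℝ) ≤
      C * 4 ^ (ε / 2) * X ^ ε + (if x = 0 then 6 * X else 0) := by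
    intro x _
    by_cases hx : x = 0
    · rw [if_pos hx]
      have h1 : W.filter (fun v => v 0 0 = x) ⊆
          (I.image (fun y : ℤ => (!![0, y; 0, 0] : MZ))) ∪ (I.image (fun y : ℤ => (!![0, 0; y, 0] : MZ))) := by
        intro v hv
        rw [Finset.mem_filter] at hv
        have h0 : v 0 0 = 0 := by rw [hv.2, hx]
        have h3 := hdet v hv.1
        rw [h0] at h3
        have h4 : v 0 1 * v 1 0 = 0 := by linarith
        have h5 := h11 v hv.1
        rw [h0, neg_zero] at h5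
        rw [Finset.mem_union, Finset.mem_image, Finset.mem_image]
        rcases mul_eq_zero.1 h4 with h6 | h6
        · right
          refine ⟨v 1 0, Pool.Agent.A54.HS.SnA.mem_Icc_of ((hW v hv.1).2.2 1 0), ?_⟩
          ext i j
          fin_cases i <;> fin_cases j <;> simp [h0, h5, h6]
        · left
          refine ⟨v 0 1, Pool.Agent.A54.HS.SnA.mem_Icc_of ((hW v hv.1).2.2 0 1), ?_⟩
          ext i j
          fin_cases i <;> fin_cases j <;> simp [h0, h5, h6]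
      have h2 : (W.filter (fun v => v 0 0 = x)).card ≤ I.card + I.card :=
        (Finset.card_le_card h1).trans ((Finset.card_union_le _ _).trans
          (add_le_add Finset.card_image_le Finset.card_image_le))
      have h3 : ((W.filter (fun v => v 0 0 = x)).card : ℝ) ≤ (I.card : ℝ) + I.card := by
        exact_mod_cast h2
      have : 0 ≤ C * 4 ^ (ε / 2) * X ^ ε := by positivity
      linarith
    · rw [if_neg hx, add_zero]
      have hinj : Set.InjOn (fun v : MZ => (v 0 1 + v 1 0, v 0 1 - v 1 0))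
          ((W.filter (fun v => v 0 0 = x) : Finset MZ) : Set MZ) := by
        intro v hv v' hv' he
        rw [Finset.mem_coe, Finset.mem_filter] at hv hv'
        simp only [Prod.mk.injEq] at he
        have e1 := h11 v hv.1
        have e2 := h11 v' hv'.1
        have e3 := hv.2
        have e4 := hv'.2
        ext i j
        fin_cases i <;> fin_cases j <;> simp only [Fin.zero_eta, Fin.mk_one, Fin.isValue] <;> omega
      rw [← Finset.card_image_of_injOn hinj]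
      rcases (W.filter (fun v => v 0 0 = x)).eq_empty_or_nonempty with hem | ⟨v0, hv0⟩
      · rw [hem]; simp; positivity
      rw [Finset.mem_filter] at hv0
      have hxX : |(x : ℝ)| ≤ X := by rw [← hv0.2]; exact (hW v0 hv0.1).2.2 0 0
      have hx2 : (x : ℝ) ^ 2 ≤ X ^ 2 := by
        rw [← sq_abs]; exact pow_le_pow_left₀ (abs_nonneg _) hxX 2
      have h4X : 2 * X ≤ 4 * X ^ 2 := by nlinarith
      refine (hp (4 * X ^ 2) (by nlinarith) 1 (-(4 * x ^ 2)) one_ne_zero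
        (neg_ne_zero.2 (mul_ne_zero (by norm_num) (pow_ne_zero 2 hx))) ?_ _ ?_).trans (le_of_eq ?_)
      · push_cast
        rw [abs_neg, abs_of_nonneg (by positivity)]
        linarith
      · intro q hq
        obtain ⟨v, hv, rfl⟩ := Finset.mem_image.1 hq
        rw [Finset.mem_filter] at hv
        have h3 := hdet v hv.1
        rw [hv.2] at h3
        have b1 := (hW v hv.1).2.2 0 1
        have b2 := (hW v hv.1).2.2 1 0
        refine ⟨?_, ?_, ?_⟩
        · simp only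
          linear_combination 4 * h3
        · push_cast
          exact (abs_add_le _ _).trans (by linarith)
        · push_cast
          exact (abs_sub _ _).trans (by linarith)
      · rw [Real.mul_rpow (by norm_num) (by positivity), ← Real.rpow_natCast X 2, ← Real.rpow_mul hX0.le]
        have : ((2 : ℕ) : ℝ) * (ε / 2) = ε := by push_cast; ring
        rw [this]; ring
  have hsum : (W.card : ℝ) = ∑ x ∈ I, ((W.filter (fun v => v 0 0 = x)).card : ℝ) := by
    have h0 : W.card = ∑ x ∈ I, (W.filter (fun v => v 0 0 = x)).card :=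
      Finset.card_eq_sum_card_fiberwise hmaps
    rw [← Nat.cast_sum, ← h0]
  rw [hsum]
  calc ∑ x ∈ I, ((W.filter (fun v => v 0 0 = x)).card : ℝ)
      ≤ ∑ x ∈ I, (C * 4 ^ (ε / 2) * X ^ ε + (if x = 0 then 6 * X else 0)) := Finset.sum_le_sum hfib
    _ = (I.card : ℝ) * (C * 4 ^ (ε / 2) * X ^ ε) + ∑ x ∈ I, (if x = 0 then 6 * X else 0) := by
        rw [Finset.sum_add_distrib, Finset.sum_const, nsmul_eq_mul]
    _ ≤ (3 * X) * (C * 4 ^ (ε / 2) * X ^ ε) + 6 * X := by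
        apply add_le_add
        · exact mul_le_mul_of_nonneg_right hIc (by positivity)
        · rw [Finset.sum_ite_eq']
          split_ifs
          · exact le_rfl
          · positivity
    _ ≤ (3 * (C * 4 ^ (ε / 2)) + 6) * (X * X ^ ε) := by
        have : X ≤ X * X ^ ε := by nlinarith
        nlinarith

/-- the traceless part of a matrix with zero discriminant near the diagonal -/
theorem nil_entry {R C' K n : ℝ} {a : MR} {s : MZ} (hR : 0 ≤ R) (hC' : 0 ≤ C') (hn : 0 ≤ n) (ha : a.det = 1)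
    (hent : ∀ i j, |a i j| ≤ R) (h : Near C' (1 / K ^ 2) n (fr a a s)) (hd : dsc s = 0) (i j : Fin 2) :
    |((tf s i j : ℤ) : ℝ)| ≤ 4 * R ^ 2 * (2 * C' * n / K ^ 2) := by
  rw [Nil_aux.tf_conj a ha s i j]
  have hρ : 0 ≤ 2 * C' * n / K ^ 2 := by positivity
  apply Nil_aux.conj_le a _ hR hρ hent
  obtain ⟨n1, n2, n3, n4⟩ := h
  have e3 : 2 * |fr a a s 0 1| ≤ 2 * C' * n / K ^ 2 := by
    have : 2 * C' * n / K ^ 2 = 2 * (C' * (1 / K ^ 2) * n) := by ring
    rw [this]; linarith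
  have e4 : 2 * |fr a a s 1 0| ≤ 2 * C' * n / K ^ 2 := by
    have : 2 * C' * n / K ^ 2 = 2 * (C' * (1 / K ^ 2) * n) := by ring
    rw [this]; linarith
  have hdd : (fr a a s 0 0 - fr a a s 1 1) ^ 2 + 4 * (fr a a s 0 1 * fr a a s 1 0) = 0 := by
    have h1 := fr_trace a s ha
    have h2 := tFr.2.1 a a s ha ha
    rw [Matrix.det_fin_two] at h2
    have h3 : ((s.trace : ℤ) : ℝ) ^ 2 - 4 * ((s.det : ℤ) : ℝ) = 0 := by
      have h0 : s.trace ^ 2 - 4 * s.det = 0 := hd
      generalize s.det = d at h0 ⊢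
      generalize s.trace = u at h0 ⊢
      exact_mod_cast h0
    rw [h1, ← h2] at h3
    linarith
  have e1 : |fr a a s 0 0 - fr a a s 1 1| ≤ 2 * C' * n / K ^ 2 := by
    apply abs_le_of_sq_le_sq _ hρ
    have h1 : (fr a a s 0 0 - fr a a s 1 1) ^ 2 = -(4 * (fr a a s 0 1 * fr a a s 1 0)) := by linarith
    rw [h1]
    calc -(4 * (fr a a s 0 1 * fr a a s 1 0)) ≤ |4 * (fr a a s 0 1 * fr a a s 1 0)| := neg_le_abs _
      _ = (2 * |fr a a s 0 1|) * (2 * |fr a a s 1 0|) := by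
          rw [abs_mul, abs_mul, abs_of_pos (by norm_num : (0:ℝ) < 4)]; ring
      _ ≤ (2 * C' * n / K ^ 2) * (2 * C' * n / K ^ 2) := mul_le_mul e3 e4 (by positivity) hρ
      _ = _ := by ring
  intro p q
  fin_cases p <;> fin_cases q <;>
    simp only [Fin.zero_eta, Fin.mk_one, Fin.isValue, Matrix.of_apply, Matrix.cons_val', Matrix.cons_val_zero,
      Matrix.cons_val_one, Matrix.cons_val_fin_one]
  · exact e1
  · rw [abs_mul, abs_two]; exact e3
  · rw [abs_mul, abs_two]; exact e4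
  · rw [abs_sub_comm]; exact e1

/-- nilpotent loops -/
theorem pcNil (k : ℕ) (C' R ε : ℝ) (hk : 1 ≤ k) (hC' : 1 ≤ C') (hR : 1 ≤ R) (hε : 0 < ε) :
    ∃ K0 : ℝ, ∀ (τ : Type) (K B L : ℝ) (a : MR) (A : Finset τ) (h1 h2 : τ → MZ),
      K0 ≤ K → 1 ≤ B → 1 ≤ L → L ≤ K ^ 3 → a.det = 1 → (∀ i j, |a i j| ≤ R) →
      Prs C' (1 / K ^ 2) a k L B A h1 h2 →
      (∀ t ∈ A, dsc ((h2 t).adjugate * h1 t) = 0 ∧ tf ((h2 t).adjugate * h1 t) ≠ 0) →
      (A.card : ℝ) ≤ B * K ^ ε * (L ^ 4 / K ^ 2) := by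
  obtain ⟨K0, hK0⟩ := tCLD k (ε / 2) hk (by positivity)
  obtain ⟨Cn, hCn, hn⟩ := nil_card (ε / 16) (by positivity)
  set c0 : ℝ := 8 * R ^ 2 * C' with hc0
  have hc01 : 1 ≤ c0 := by
    have : 1 ≤ R ^ 2 := one_le_pow₀ hR
    nlinarith
  set X0 : ℝ := 6 * (Cn * (c0 * c0 ^ (ε / 16))) with hX0
  have hX00 : 0 ≤ X0 := by positivity
  refine ⟨max K0 (max 1 (X0 ^ (1 / (ε / 4)))), ?_⟩
  intro τ K B L a A h1 h2 hK hB hL hLK ha hent hP hA
  have hK1 : K0 ≤ K := (le_max_left _ _).trans hK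
  have hK2 : 1 ≤ K := (le_max_left _ _).trans ((le_max_right _ _).trans hK)
  have hK3 : X0 ^ (1 / (ε / 4)) ≤ K := (le_max_right _ _).trans ((le_max_right _ _).trans hK)
  have hKp : 0 < K := by linarith
  have hXK : X0 ≤ K ^ (ε / 4) := K_large hX00 (by positivity) hK3
  have hM0 : 0 ≤ K ^ (ε / 2) * (L / K ^ 2) := by positivity
  have hmain := hK0 τ C' K B L (K ^ (ε / 2) * (L / K ^ 2)) a A h1 h2 hK1 hB hL hLK hM0 hP ?_
  · refine hmain.trans (le_of_eq ?_)
    have e4 : K ^ ε = K ^ (ε / 2) * K ^ (ε / 2) := by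
      rw [← Real.rpow_add hKp]; congr 1; ring
    rw [e4]; ring
  intro T S0 hT hTL hS0
  classical
  set W : Finset MZ := S0.image (fun r => tf r.1) with hW
  set X : ℝ := c0 * (T / K ^ 2) with hX
  have hT0 : 0 ≤ T / K ^ 2 := by positivity
  have hds : ∀ r ∈ S0, dsc r.1 = 0 ∧ tf r.1 ≠ 0 := by
    intro r hr
    obtain ⟨-, -, -, -, -, t, htA, c, hc, hlp⟩ := (hS0 r hr).1
    obtain ⟨q1, q2⟩ := hA t htA
    rw [hlp, dsc_smul] at q1
    rw [hlp, tf_smul] at q2
    constructor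
    · rcases mul_eq_zero.1 q1 with h | h
      · exact absurd h (pow_ne_zero 2 hc)
      · exact h
    · intro h
      apply q2
      rw [h, smul_zero]
  have hent2 : ∀ r ∈ S0, ∀ i j, |((tf r.1 i j : ℤ) : ℝ)| ≤ X := by
    intro r hr i j
    have h3 := nil_entry (by linarith) (by linarith) (Nat.cast_nonneg _) ha hent
      (hS0 r hr).1.2.2.2.2.1 (hds r hr).1 i j
    refine h3.trans ?_
    have hrT : (r.2 : ℝ) ≤ T := (hS0 r hr).2
    have e : 4 * R ^ 2 * (2 * C' * (r.2 : ℝ) / K ^ 2) = c0 * ((r.2 : ℝ) / K ^ 2) := by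
      rw [hc0]; ring
    rw [e, hX]
    apply mul_le_mul_of_nonneg_left _ (by linarith)
    exact div_le_div_of_nonneg_right hrT (by positivity)
  rcases S0.eq_empty_or_nonempty with he | ⟨r0, hr0⟩
  · rw [he]; simp only [Finset.card_empty, Nat.cast_zero]; positivity
  have hX1 : 1 ≤ X := by
    have hne := (hds r0 hr0).2
    by_contra hc
    push Not at hc
    apply hne
    ext i j
    have h3 := (hent2 r0 hr0 i j).trans_lt hc
    have h4 : |tf r0.1 i j| < 1 := by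
      have : ((|tf r0.1 i j| : ℤ) : ℝ) < 1 := by rw [Int.cast_abs]; exact h3
      exact_mod_cast this
    have := Int.abs_lt_one_iff.1 h4
    rw [this]; rfl
  have hWcard : (W.card : ℝ) ≤ Cn * (X * X ^ (ε / 16)) := by
    apply hn X hX1
    intro v hv
    obtain ⟨r, hr, rfl⟩ := Finset.mem_image.1 hv
    refine ⟨tf_trace _, ?_, hent2 r hr⟩
    rw [tf_det, (hds r hr).1, neg_zero]
  have hfib : ∀ v ∈ W, ((S0.filter (fun r => tf r.1 = v)).card : ℝ) ≤ 6 * T := by
    intro v _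
    have hinj : Set.InjOn (fun r : MZ × ℕ => r.1.trace)
        ((S0.filter (fun r => tf r.1 = v) : Finset (MZ × ℕ)) : Set (MZ × ℕ)) := by
      intro r hr r' hr' he
      rw [Finset.mem_coe, Finset.mem_filter] at hr hr'
      have e1 : r.1 = r'.1 := ext_tf (hr.2.trans hr'.2.symm) he
      have e2 : (r.2 : ℤ) ^ 2 = (r'.2 : ℤ) ^ 2 := by
        rw [← (hS0 r hr.1).1.2.2.1, ← (hS0 r' hr'.1).1.2.2.1, e1]
      have e3 : r.2 ^ 2 = r'.2 ^ 2 := by exact_mod_cast e2
      exact Prod.ext e1 (Nat.pow_left_injective two_ne_zero e3)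
    rw [← Finset.card_image_of_injOn hinj]
    have hsub : (S0.filter (fun r => tf r.1 = v)).image (fun r : MZ × ℕ => r.1.trace) ⊆
        Finset.Icc (-⌊2 * T⌋) ⌊2 * T⌋ := by
      intro x hx
      obtain ⟨r, hr, rfl⟩ := Finset.mem_image.1 hx
      rw [Finset.mem_filter] at hr
      apply Pool.Agent.A54.HS.SnA.mem_Icc_of
      have h3 := (hds r hr.1).1
      rw [dsc, (hS0 r hr.1).1.2.2.1] at h3
      have h4 : (r.1.trace) ^ 2 = (2 * (r.2 : ℤ)) ^ 2 := by linarith
      have h5 : ((r.1.trace : ℤ) : ℝ) ^ 2 = (2 * (r.2 : ℝ)) ^ 2 := by exact_mod_cast h4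
      have h6 := (sq_eq_sq_iff_abs_eq_abs _ _).1 h5
      rw [h6, abs_of_nonneg (by positivity)]
      have := (hS0 r hr.1).2
      linarith
    have h7 : (((S0.filter (fun r => tf r.1 = v)).image (fun r : MZ × ℕ => r.1.trace)).card : ℝ) ≤
        ((Finset.Icc (-⌊2 * T⌋) ⌊2 * T⌋).card : ℝ) := by exact_mod_cast Finset.card_le_card hsub
    have h8 := Pool.Agent.A54.HS.SnA.card_Icc_le (H := 2 * T) (by linarith)
    linarith
  have hsum : (S0.card : ℝ) = ∑ v ∈ W, ((S0.filter (fun r => tf r.1 = v)).card : ℝ) := by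
    have h0 : S0.card = ∑ v ∈ W, (S0.filter (fun r => tf r.1 = v)).card :=
      Finset.card_eq_sum_card_fiberwise (fun r hr => Finset.mem_image_of_mem _ hr)
    rw [← Nat.cast_sum, ← h0]
  have hXe : X ^ (ε / 16) ≤ c0 ^ (ε / 16) * K ^ (ε / 4) := by
    rw [hX, Real.mul_rpow (by linarith) hT0]
    apply mul_le_mul_of_nonneg_left _ (by positivity)
    have h3 : T / K ^ 2 ≤ K ^ 4 := by
      rw [div_le_iff₀ (by positivity)]
      calc T ≤ L ^ 2 := hTL
        _ ≤ (K ^ 3) ^ 2 := pow_le_pow_left₀ (by linarith) hLK 2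
        _ = K ^ 4 * K ^ 2 := by ring
    calc (T / K ^ 2) ^ (ε / 16) ≤ (K ^ 4) ^ (ε / 16) := Real.rpow_le_rpow hT0 h3 (by positivity)
      _ = K ^ (ε / 4) := by
          rw [← Real.rpow_natCast K 4, ← Real.rpow_mul hKp.le]; congr 1; push_cast; ring
  rw [hsum, rpow_three_half T (by linarith)]
  set s := √T with hs
  have hs0 : 0 ≤ s := Real.sqrt_nonneg _
  have hss : s * s = T := Real.mul_self_sqrt (by linarith)
  have hsL : s ≤ L := by
    rw [hs, Real.sqrt_le_left (by linarith)]; exact hTL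
  have hX' : 0 ≤ X := by linarith
  calc ∑ v ∈ W, ((S0.filter (fun r => tf r.1 = v)).card : ℝ) ≤ ∑ v ∈ W, 6 * T := Finset.sum_le_sum hfib
    _ = (W.card : ℝ) * (6 * T) := by rw [Finset.sum_const, nsmul_eq_mul]
    _ ≤ (Cn * (X * X ^ (ε / 16))) * (6 * T) := mul_le_mul_of_nonneg_right hWcard (by linarith)
    _ ≤ (Cn * (X * (c0 ^ (ε / 16) * K ^ (ε / 4)))) * (6 * T) := by
        apply mul_le_mul_of_nonneg_right _ (by linarith)
        apply mul_le_mul_of_nonneg_left _ (by linarith)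
        exact mul_le_mul_of_nonneg_left hXe hX'
    _ = X0 * (K ^ (ε / 4) * (T * T / K ^ 2)) := by rw [hX0, hX]; ring
    _ ≤ K ^ (ε / 4) * (K ^ (ε / 4) * (T * T / K ^ 2)) :=
        mul_le_mul_of_nonneg_right hXK (by positivity)
    _ = K ^ (ε / 2) * (s * s ^ 3 / K ^ 2) := by
        have : K ^ (ε / 2) = K ^ (ε / 4) * K ^ (ε / 4) := by
          rw [← Real.rpow_add hKp]; congr 1; ring
        rw [this, ← hss]; ring
    _ ≤ K ^ (ε / 2) * (L * s ^ 3 / K ^ 2) := by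
        apply mul_le_mul_of_nonneg_left _ (by positivity)
        apply div_le_div_of_nonneg_right _ (by positivity)
        exact mul_le_mul_of_nonneg_right hsL (by positivity)
    _ = K ^ (ε / 2) * (L / K ^ 2) * s ^ 3 := by ring

/-- **all non-scalar loops** -/
theorem pcAll (k : ℕ) (C' R ε : ℝ) (hk : 1 ≤ k) (hC' : 1 ≤ C') (hR : 1 ≤ R) (hε : 0 < ε) :
    ∃ K0 : ℝ, ∀ (τ : Type) (K B L D : ℝ) (a : MR) (A : Finset τ) (h1 h2 : τ → MZ),
      K0 ≤ K → 1 ≤ B → 1 ≤ L → L ≤ K ^ 3 → 0 < D → a.det = 1 → (∀ i j, |a i j| ≤ R) →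
      Dq (fun _ => True) a K D → Prs C' (1 / K ^ 2) a k L B A h1 h2 →
      (∀ t ∈ A, tf ((h2 t).adjugate * h1 t) ≠ 0) →
      (A.card : ℝ) ≤ B * K ^ ε * (L ^ 6 / K ^ 4 + L ^ 4 / K ^ 2 + L ^ 3 / (D * √D)) := by
  obtain ⟨K1, hK1⟩ := pcQ k C' R (ε / 2) hk hC' hR (by positivity)
  obtain ⟨K2, hK2⟩ := pcNil k C' R (ε / 2) hk hC' hR (by positivity)
  refine ⟨max K1 (max K2 (max 1 ((2 : ℝ) ^ (1 / (ε / 2))))), ?_⟩
  intro τ K B L D a A h1 h2 hK hB hL hLK hD0 ha hent hDq hP hA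
  have e1 : K1 ≤ K := (le_max_left _ _).trans hK
  have e2 : K2 ≤ K := (le_max_left _ _).trans ((le_max_right _ _).trans hK)
  have e3 : 1 ≤ K := (le_max_left _ _).trans ((le_max_right _ _).trans ((le_max_right _ _).trans hK))
  have e4 : (2 : ℝ) ^ (1 / (ε / 2)) ≤ K :=
    (le_max_right _ _).trans ((le_max_right _ _).trans ((le_max_right _ _).trans hK))
  have hKp : 0 < K := by linarith
  have h2K : (2 : ℝ) ≤ K ^ (ε / 2) := K_large (by norm_num) (by positivity) e4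
  classical
  set A1 := A.filter (fun t => dsc ((h2 t).adjugate * h1 t) ≠ 0) with hA1
  set A2 := A.filter (fun t => ¬ dsc ((h2 t).adjugate * h1 t) ≠ 0) with hA2
  have hsplit : A.card = A1.card + A2.card := (Finset.card_filter_add_card_filter_not _).symm
  have c1 := hK1 τ (fun _ => True) K B L D a A1 h1 h2 e1 hB hL hLK hD0 ha hent (fun _ _ _ => trivial) hDq
    (hP.mono (Finset.filter_subset _ _)) (fun t ht => (Finset.mem_filter.1 ht).2)
    (fun _ _ _ _ _ _ => trivial)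
  have c2 := hK2 τ K B L a A2 h1 h2 e2 hB hL hLK ha hent (hP.mono (Finset.filter_subset _ _))
    (fun t ht => ⟨not_not.1 (Finset.mem_filter.1 ht).2, hA t (Finset.mem_filter.1 ht).1⟩)
  set Y : ℝ := L ^ 6 / K ^ 4 + L ^ 4 / K ^ 2 + L ^ 3 / (D * √D) with hY
  have hsD : 0 < D * √D := mul_pos hD0 (Real.sqrt_pos.2 hD0)
  have hY1 : L ^ 4 / K ^ 2 ≤ Y := by
    have q1 : 0 ≤ L ^ 6 / K ^ 4 := by positivity
    have q2 : 0 ≤ L ^ 3 / (D * √D) := by positivity
    rw [hY]; linarith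
  have hY0 : 0 ≤ Y := le_trans (by positivity) hY1
  have hcast : (A.card : ℝ) = (A1.card : ℝ) + (A2.card : ℝ) := by exact_mod_cast hsplit
  rw [hcast]
  have c3 : (A2.card : ℝ) ≤ B * K ^ (ε / 2) * Y := c2.trans (mul_le_mul_of_nonneg_left hY1 (by positivity))
  have e5 : K ^ ε = K ^ (ε / 2) * K ^ (ε / 2) := by
    rw [← Real.rpow_add hKp]; congr 1; ring
  have hBKY : 0 ≤ B * K ^ (ε / 2) * Y := by positivity
  calc (A1.card : ℝ) + (A2.card : ℝ) ≤ 2 * (B * K ^ (ε / 2) * Y) := by linarith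
    _ ≤ K ^ (ε / 2) * (B * K ^ (ε / 2) * Y) := mul_le_mul_of_nonneg_right h2K hBKY
    _ = B * K ^ ε * Y := by rw [e5]; ring

end HSL.PC
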