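import Pool.Agent.Lib.HS.SnB

/-!
# Package `HS`, bands: single tubes in the bad case, `K₀` independent of `R`

The proof is that of `stmtSnB` (helper44) with the quantifiers in another order.
-/

set_option autoImplicit false

namespace Pool.Agent.A54.HS

open MeasureTheory Filter Topology Set
open scoped ContDiff ComplexConjugate UpperHalfPlane MatrixGroups ENNReal
open Pool.Agent.A54.Dyn (G fl base ze io mk4 dom)
open Pool.Agent.A54.Av (Mat NonSc)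
open Pool.Agent.A54.Hp Pool.Agent.A54.Hp.Hk Pool.Agent.A54.Hp.A2M

noncomputable section

/-- **SnC** single tubes in the bad case -/
def StmtSnC : Prop := ∀ ε : ℝ, 0 < ε → ∃ K₀ : ℝ, 1 ≤ K₀ ∧ ∀ R : ℝ, 1 ≤ R → ∀ K : ℝ, K₀ ≤ K →
  ∃ w₁ : ℝ, 0 < w₁ ∧ w₁ ≤ 1 ∧ ∀ (l : ℕ → ℝ) (Φ : G → ℂ), HE l Φ → ∀ w : ℝ, 0 < w → w ≤ w₁ → ¬ GdK K l w →
    ∀ w' : ℝ, w ≤ w' → w' ≤ 1 → ∀ ζ : Fin 3 → ℝ,
      ms Φ (Tb R ζ w') ≤ ENNReal.ofReal (w' ^ (2 / 3 : ℝ) * w ^ (-ε))

open SnBM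

/-- **SnC** single tubes in the bad case, the constant `K₀` independent of `R` -/
theorem stmtSnC (hAI3 : StmtAI3) (hTot : StmtTot) (hDds : StmtDds) (hTub : StmtTub) : StmtSnC := by
  intro ε hε
  obtain ⟨δ, hδdef⟩ : ∃ δ : ℝ, δ = min (ε / 16) (1 / 16) := ⟨_, rfl⟩
  have hδ0 : 0 < δ := by
    rw [hδdef]
    exact lt_min (by linarith) (by norm_num)
  have hδ1 : δ ≤ 1 / 16 := by
    rw [hδdef]
    exact min_le_right _ _
  have hδε : 16 * δ ≤ ε := by
    have : δ ≤ ε / 16 := by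
      rw [hδdef]
      exact min_le_left _ _
    linarith
  refine ⟨max 1 (1 / δ), le_max_left _ _, ?_⟩
  intro R hR
  obtain ⟨Ct, hCt, hT⟩ := hTot R hR
  obtain ⟨Cs, hCs, hS⟩ := sum_le hDds hTub R δ hR hδ0
  obtain ⟨M₀, hM₀, hBd⟩ := stmtBd δ hδ0
  intro K hK
  have hK1 : 1 ≤ K := (le_max_left _ _).trans hK
  have hKδ : 1 / δ ≤ K := (le_max_right _ _).trans hK
  have hK0 : 0 < K := by linarith
  obtain ⟨θ, hθdef⟩ : ∃ θ : ℝ, θ = 1 / (1000 * K) := ⟨_, rfl⟩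
  have hθ0 : 0 < θ := by
    rw [hθdef]
    positivity
  have hθδ : θ ≤ δ := by
    rw [hθdef, div_le_iff₀ (by positivity)]
    have h1 : 1 ≤ K * δ := by
      rw [div_le_iff₀ hδ0] at hKδ
      exact hKδ
    nlinarith
  have hθ1 : θ ≤ 1 / 1000 := by
    rw [hθdef]
    exact one_div_le_one_div_of_le (by norm_num) (by linarith)
  choose CA hCA1 hCA using fun k : ℕ => hAI3 (k + 1) R (by omega) hR
  obtain ⟨m, hm⟩ : ∃ m : ℕ, 1 / θ ≤ (m : ℝ) := exists_nat_ge _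
  obtain ⟨Cm, hCm⟩ : ∃ Cm : ℝ, Cm = ∑ k ∈ Finset.range (m + 1), CA k := ⟨_, rfl⟩
  have hCmk : ∀ k ≤ m, CA k ≤ Cm := by
    intro k hk
    rw [hCm]
    exact Finset.single_le_sum (f := CA) (fun i _ => by have := hCA1 i; linarith)
      (Finset.mem_range.2 (by omega))
  have hCm1 : 1 ≤ Cm := (hCA1 0).trans (hCmk 0 (Nat.zero_le _))
  obtain ⟨D, hD⟩ : ∃ D : ℝ, D = Cs * (2 ^ (2 * (m + 1))) ^ (4 : ℕ) := ⟨_, rfl⟩
  have hB2 : (1 : ℝ) ≤ (2 ^ (2 * (m + 1))) ^ (4 : ℕ) := one_le_pow₀ (one_le_pow₀ (by norm_num))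
  have hD1 : 1 ≤ D := by
    rw [hD]
    exact one_le_mul_of_one_le_of_one_le hCs hB2
  have hCD1 : 1 ≤ Cm * D := one_le_mul_of_one_le_of_one_le hCm1 hD1
  refine ⟨min (1 / 2) (min ((Cm * D) ^ (-(1 / δ))) (M₀ ^ (-(1 / θ)))),
    lt_min (by norm_num) (lt_min (by positivity) (by positivity)),
    (min_le_left _ _).trans (by norm_num), ?_⟩
  intro l Φ hE w hw hww1 hG w' hww' hw'1 ζ
  have hw2 : w ≤ 1 / 2 := hww1.trans (min_le_left _ _)
  have hw1 : w ≤ 1 := by linarith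
  have hw'0 : 0 < w' := hw.trans_le hww'
  have hwC : w ≤ (Cm * D) ^ (-(1 / δ)) :=
    hww1.trans ((min_le_right _ _).trans (min_le_left _ _))
  have hwM : w ≤ M₀ ^ (-(1 / θ)) := hww1.trans ((min_le_right _ _).trans (min_le_right _ _))
  have inv_aux : ∀ a b : ℝ, 1 ≤ a → 0 < b → w ≤ a ^ (-(1 / b)) → a ≤ w ^ (-b) := by
    intro a b ha hb h
    have ha0 : 0 < a := by linarith
    have h1 : w ^ b ≤ a⁻¹ := by
      calc w ^ b ≤ (a ^ (-(1 / b))) ^ b := Real.rpow_le_rpow hw.le h hb.le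
        _ = a⁻¹ := by
          rw [← Real.rpow_mul ha0.le]
          have : -(1 / b) * b = -1 := by field_simp
          rw [this, Real.rpow_neg_one]
    rw [Real.rpow_neg hw.le]
    rw [le_inv_comm₀ ha0 (by positivity)]
    exact h1
  have hCD : Cm * D ≤ w ^ (-δ) := inv_aux _ _ hCD1 hδ0 hwC
  obtain ⟨M, hMdef⟩ : ∃ M : ℝ, M = w ^ (-θ) := ⟨_, rfl⟩
  have hM : M₀ ≤ M := by
    rw [hMdef]
    exact inv_aux _ _ hM₀ hθ0 hwM
  have hM1 : 1 ≤ M := hM₀.trans hM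
  have hM0 : 0 < M := by linarith
  have hMlt : 1 < M := by
    rw [hMdef]
    exact Real.one_lt_rpow_of_pos_of_lt_one_of_neg hw (by linarith) (by linarith)
  have hbad : ¬ GdC (1 / 10000) l M := by
    intro h
    refine hG ⟨M, ?_, ?_, h⟩
    · rw [hMdef, hθdef]
    · rw [hMdef]
      exact Real.rpow_le_rpow_of_exponent_ge hw hw1 (by linarith)
  obtain ⟨hQc, hQl⟩ := hBd l M hM hbad
  set Q := Bad l M with hQ
  have hQM : Q ⊆ Pm M := Finset.filter_subset _ _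
  have hQP : ∀ p ∈ Q, p.Prime ∧ M < (p : ℝ) ∧ (p : ℝ) ≤ 2 * M := by
    intro p hp
    have h1 := hQM hp
    unfold Pm at h1
    rw [Finset.mem_filter, Finset.mem_Ioc] at h1
    refine ⟨h1.2, (Nat.floor_lt hM0.le).1 h1.1.1, ?_⟩
    exact (Nat.le_floor_iff (by linarith)).1 h1.1.2
  -- the exponent
  have hz1 : 1 ≤ w' ^ (-(2 / 3) : ℝ) :=
    Real.one_le_rpow_of_pos_of_le_one_of_nonpos hw'0 hw'1 (by norm_num)
  obtain ⟨k, hk1, hk2⟩ := exists_nat_pow_near hz1 hMlt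
  have hkm : k ≤ m := by
    have h1 : M ^ k ≤ w ^ (-(2 / 3) : ℝ) := by
      refine hk1.trans ?_
      rw [Real.rpow_neg hw'0.le, Real.rpow_neg hw.le]
      exact inv_anti₀ (by positivity) (Real.rpow_le_rpow hw.le hww' (by norm_num))
    rw [hMdef, ← Real.rpow_natCast, ← Real.rpow_mul hw.le,
      Real.rpow_le_rpow_left_iff_of_base_lt_one hw (by linarith)] at h1
    have h2 : (k : ℝ) ≤ 1 / θ := by
      rw [le_div_iff₀ hθ0]
      nlinarith
    exact_mod_cast h2.trans hm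
  -- the mass
  have hms : MeasurableSet (Tb R ζ w') := SinN.meas_Tb R ζ w'
  have hsub : Tb R ζ w' ⊆ Om R := fun g hg => hg.1
  obtain ⟨X, hX⟩ : ∃ X : ℝ≥0∞, X = ms Φ (Tb R ζ w') := ⟨_, rfl⟩
  have hXtop : X ≠ ⊤ := by
    have h1 : X ≤ ENNReal.ofReal Ct := by
      rw [hX]
      refine le_trans ?_ (hT l Φ hE)
      exact lintegral_mono_set hsub
    exact ne_top_of_le_ne_top ENNReal.ofReal_ne_top h1
  obtain ⟨x, hx0, hxX⟩ : ∃ x : ℝ, 0 ≤ x ∧ X = ENNReal.ofReal x :=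
    ⟨X.toReal, ENNReal.toReal_nonneg, (ENNReal.ofReal_toReal hXtop).symm⟩
  have hqc : (Q.card : ℝ≥0∞) = ENNReal.ofReal (Q.card : ℝ) := (ENNReal.ofReal_natCast _).symm
  have hq0 : (0 : ℝ) ≤ (Q.card : ℝ) := Nat.cast_nonneg _
  have key : ((Q.card : ℝ)) ^ (k + 1) * x < Cm ∨ ((Q.card : ℝ)) ^ (2 * (k + 1)) * x ^ 2 ≤
      Cm / M ^ (2 * (k + 1)) * (D * ((M ^ (2 * (k + 1))) ^ (3 + δ) * w' ^ 2) * x) := by
    rcases lt_or_ge ((Q.card : ℝ) ^ (k + 1) * x) (CA k) with h1 | h1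
    · exact Or.inl (h1.trans_le (hCmk k hkm))
    · right
      have h2 := hCA k l Φ hE (Tb R ζ w') hms hsub M hM1 Q hQM hQl (by
        rw [← hX, hxX, hqc, ← ENNReal.ofReal_pow hq0, ← ENNReal.ofReal_mul (by positivity)]
        exact ENNReal.ofReal_le_ofReal h1)
      have hpos : 1 ≤ (2 * M) ^ (2 * (k + 1)) * w' := by
        have e1 : w' ^ (-(1 : ℝ)) ≤ (2 * M) ^ (2 * (k + 1)) := by
          calc w' ^ (-(1 : ℝ)) ≤ w' ^ (-(2 / 3) * 2 : ℝ) :=
                Real.rpow_le_rpow_of_exponent_ge hw'0 hw'1 (by norm_num)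
            _ = (w' ^ (-(2 / 3) : ℝ)) ^ 2 := by
                rw [← Real.rpow_natCast (w' ^ (-(2 / 3) : ℝ)) 2, ← Real.rpow_mul hw'0.le]
                norm_num
            _ ≤ (M ^ (k + 1)) ^ 2 := pow_le_pow_left₀ (by positivity) hk2.le 2
            _ = M ^ (2 * (k + 1)) := by ring
            _ ≤ (2 * M) ^ (2 * (k + 1)) := pow_le_pow_left₀ hM0.le (by linarith) _
        rw [Real.rpow_neg_one] at e1
        rw [← div_le_iff₀ hw'0, one_div]
        exact e1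
      have h3 := h2.trans (mul_le_mul_right (hS Φ hE.cont ζ w' M hw'0 hw'1 hM1 Q hQP
        (2 * (k + 1)) hpos) _)
      rw [← hX, hxX, hqc, ← ENNReal.ofReal_pow hq0, ← ENNReal.ofReal_pow hx0,
        ← ENNReal.ofReal_mul (by positivity), ← ENNReal.ofReal_mul (by positivity),
        ← ENNReal.ofReal_mul (by have := hCA1 k; positivity)] at h3
      have hCk0 : 0 ≤ CA k := by have := hCA1 k; linarith
      rw [ENNReal.ofReal_le_ofReal_iff (by positivity)] at h3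
      refine h3.trans ?_
      have e1 : ((2 * M) ^ (2 * (k + 1))) ^ (3 + δ) ≤
          (2 ^ (2 * (m + 1))) ^ (4 : ℕ) * (M ^ (2 * (k + 1))) ^ (3 + δ) := by
        rw [mul_pow, Real.mul_rpow (by positivity) (by positivity)]
        refine mul_le_mul_of_nonneg_right ?_ (by positivity)
        calc ((2 : ℝ) ^ (2 * (k + 1))) ^ (3 + δ) ≤ ((2 : ℝ) ^ (2 * (m + 1))) ^ (3 + δ) := by
              refine Real.rpow_le_rpow (by positivity) ?_ (by linarith)
              exact pow_le_pow_right₀ (by norm_num) (by omega)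
          _ ≤ ((2 : ℝ) ^ (2 * (m + 1))) ^ (4 : ℝ) := by
              refine Real.rpow_le_rpow_of_exponent_le (one_le_pow₀ (by norm_num)) (by linarith)
          _ = ((2 : ℝ) ^ (2 * (m + 1))) ^ (4 : ℕ) := by
              rw [← Real.rpow_natCast ((2 : ℝ) ^ (2 * (m + 1))) 4]
              norm_num
      refine mul_le_mul (div_le_div_of_nonneg_right (hCmk k hkm) (by positivity)) ?_
        (by positivity) (by positivity)
      refine mul_le_mul_of_nonneg_right ?_ hx0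
      rw [hD]
      calc Cs * (((2 * M) ^ (2 * (k + 1))) ^ (3 + δ) * w' ^ 2)
          ≤ Cs * (((2 ^ (2 * (m + 1))) ^ (4 : ℕ) * (M ^ (2 * (k + 1))) ^ (3 + δ)) * w' ^ 2) := by
            refine mul_le_mul_of_nonneg_left ?_ (by linarith)
            exact mul_le_mul_of_nonneg_right e1 (by positivity)
        _ = _ := by ring
  have hfin := real_part hw hww' hw'1 hθ0 hθδ hδ1 hMdef hCm1 hD1 hCD hx0 hQc hk1 hk2.le key
  rw [← hX, hxX]
  refine ENNReal.ofReal_le_ofReal (hfin.trans ?_)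
  refine mul_le_mul_of_nonneg_left ?_ (by positivity)
  exact Real.rpow_le_rpow_of_exponent_ge hw hw1 (by linarith)

end

end Pool.Agent.A54.HS
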