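import Mathlib
import Pool.Agent.Lib.HS.L.Defs

/-!
# PROJECT H* (MP_a54f13_nt), bands: the tree count (T1)

`tree_good`: a traceless integral matrix `v` with `2 det v` prime to `N` is mapped by at most `d(N)` classes
`Γ h` of primitive matrices of determinant `N` to `N` times an integral matrix (`N ∣ h v adj h`).
`eig`: the eigenvalue `la` modulo `N` on the image of `adj h`.
-/

set_option autoImplicit false

namespace Pool.Agent.A54.HSBd

open Matrix HSL

section ring

variable {R : Type*} [CommRing R]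

/-- the eigenvalue, in a commutative ring -/
theorem eig_ring {p q r s x y z c0 c1 c2 c3 : R} (hN : p * s - q * r = 0)
    (h00 : x * (p * s + q * r) + q * z * s - p * y * r = 0)
    (h01 : p ^ 2 * y - 2 * p * q * x - q ^ 2 * z = 0)
    (h10 : s ^ 2 * z + 2 * r * s * x - r ^ 2 * y = 0)
    (hb : c0 * s + c1 * q + c2 * r + c3 * p = 1) :
    ∃ la : R, x * s - y * r = la * s ∧ y * p - x * q = -(la * q) ∧ z * s + x * r = -(la * r) ∧
      -(z * q) - x * p = la * p ∧ la ^ 2 = x ^ 2 + y * z := by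
  refine ⟨c0 * (x * s - y * r) - c1 * (y * p - x * q) - c2 * (z * s + x * r) + c3 * (-(z * q) - x * p), ?_⟩
  set la := c0 * (x * s - y * r) - c1 * (y * p - x * q) - c2 * (z * s + x * r) + c3 * (-(z * q) - x * p) with hla
  have e1 : x * s - y * r = la * s := by
    rw [hla]
    linear_combination (-(x * s - y * r)) * hb + c1 * y * hN + c2 * h10 + c3 * (h00 + x * hN)
  have e2 : y * p - x * q = -(la * q) := by
    rw [hla]
    linear_combination (-(y * p - x * q)) * hb + c0 * y * hN + c2 * (x * hN - h00) + c3 * h01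
  have e3 : z * s + x * r = -(la * r) := by
    rw [hla]
    linear_combination (-(z * s + x * r)) * hb + c0 * h10 - c1 * (x * hN - h00) + c3 * z * hN
  have e4 : -(z * q) - x * p = la * p := by
    rw [hla]
    linear_combination (-(-(z * q) - x * p)) * hb - c0 * (h00 + x * hN) + c1 * h01 + c2 * z * hN
  refine ⟨e1, e2, e3, e4, ?_⟩
  -- (x^2 + y z - la^2) * (s, q, r, p) = 0
  have f1 : (x ^ 2 + y * z - la ^ 2) * s = 0 := by linear_combination (x + la) * e1 + y * e3
  have f2 : (x ^ 2 + y * z - la ^ 2) * q = 0 := by linear_combination (-(x + la)) * e2 - y * e4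
  have f3 : (x ^ 2 + y * z - la ^ 2) * r = 0 := by linear_combination z * e1 * (-1) * (-1) * (-1) + (x - la) * (-1) * e3 * (-1)
  have f4 : (x ^ 2 + y * z - la ^ 2) * p = 0 := by linear_combination z * e2 - (x - la) * e4
  linear_combination (x ^ 2 + y * z - la ^ 2) * hb - c0 * f1 - c1 * f2 - c2 * f3 - c3 * f4

/-- two matrices with the same eigenvalue: `2 la h2 adj h1 = 0` -/
theorem same_eig {p q r s x y z la p' q' r' s' : R}
    (a1 : x * s - y * r = la * s) (a2 : y * p - x * q = -(la * q)) (a3 : z * s + x * r = -(la * r))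
    (a4 : -(z * q) - x * p = la * p)
    (b1 : x * s' - y * r' = la * s') (b2 : y * p' - x * q' = -(la * q')) (b3 : z * s' + x * r' = -(la * r'))
    (b4 : -(z * q') - x * p' = la * p') :
    2 * la * (p' * s - q' * r) = 0 ∧ 2 * la * (q' * p - p' * q) = 0 ∧ 2 * la * (r' * s - s' * r) = 0 ∧
      2 * la * (s' * p - r' * q) = 0 := by
  refine ⟨?_, ?_, ?_, ?_⟩
  · linear_combination (-s) * b4 - r * b2 - p' * a1 - q' * a3
  · linear_combination q * b4 + p * b2 - p' * a2 - q' * a4
  · linear_combination s * b3 + r * b1 - r' * a1 - s' * a3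
  · linear_combination (-q) * b3 - p * b1 - r' * a2 - s' * a4

end ring

/-- the entries of a primitive matrix have a Bezout combination -/
theorem prim_bezout {h : MZ} (hh : Prim h) :
    ∃ c0 c1 c2 c3 : ℤ, c0 * h 1 1 + c1 * h 0 1 + c2 * h 1 0 + c3 * h 0 0 = 1 := by
  set g1 : ℤ := (Int.gcd (h 1 1) (h 0 1) : ℤ) with hg1
  set g2 : ℤ := (Int.gcd (h 1 0) (h 0 0) : ℤ) with hg2
  have e1 : g1 = h 1 1 * Int.gcdA (h 1 1) (h 0 1) + h 0 1 * Int.gcdB (h 1 1) (h 0 1) :=
    Int.gcd_eq_gcd_ab _ _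
  have e2 : g2 = h 1 0 * Int.gcdA (h 1 0) (h 0 0) + h 0 0 * Int.gcdB (h 1 0) (h 0 0) :=
    Int.gcd_eq_gcd_ab _ _
  have e3 : ((Int.gcd g1 g2 : ℕ) : ℤ) = g1 * Int.gcdA g1 g2 + g2 * Int.gcdB g1 g2 :=
    Int.gcd_eq_gcd_ab _ _
  have h1 : IsUnit ((Int.gcd g1 g2 : ℕ) : ℤ) := by
    apply hh
    have d1 : ((Int.gcd g1 g2 : ℕ) : ℤ) ∣ g1 := Int.gcd_dvd_left _ _
    have d2 : ((Int.gcd g1 g2 : ℕ) : ℤ) ∣ g2 := Int.gcd_dvd_right _ _
    intro i j
    fin_cases i <;> fin_cases j
    · exact d2.trans (Int.gcd_dvd_right _ _)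
    · exact d1.trans (Int.gcd_dvd_right _ _)
    · exact d2.trans (Int.gcd_dvd_left _ _)
    · exact d1.trans (Int.gcd_dvd_left _ _)
  have h2 : Int.gcd g1 g2 = 1 := by
    have := Int.isUnit_iff_natAbs_eq.1 h1
    simpa using this
  rw [h2] at e3
  refine ⟨Int.gcdA (h 1 1) (h 0 1) * Int.gcdA g1 g2, Int.gcdB (h 1 1) (h 0 1) * Int.gcdA g1 g2,
    Int.gcdA (h 1 0) (h 0 0) * Int.gcdB g1 g2, Int.gcdB (h 1 0) (h 0 0) * Int.gcdB g1 g2, ?_⟩
  push_cast at e3
  linear_combination (-Int.gcdA g1 g2) * e1 - Int.gcdB g1 g2 * e2 - e3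

/-- `la` is the eigenvalue of `v` on the image of `adj h` modulo `N` -/
def Eig (N : ℕ) (v h : MZ) (la : ℤ) : Prop :=
  (∀ i j, (N : ℤ) ∣ (v * h.adjugate) i j - la * h.adjugate i j) ∧ (N : ℤ) ∣ la ^ 2 + v.det

theorem exists_eig {N : ℕ} {v h : MZ} (hv : v.trace = 0) (hh : Prim h) (hd : h.det = N)
    (hdv : ∀ i j, (N : ℤ) ∣ (h * v * h.adjugate) i j) : ∃ la : ℤ, Eig N v h la := by
  obtain ⟨c0, c1, c2, c3, hb⟩ := prim_bezout hh
  have hv' : v 1 1 = -v 0 0 := by
    rw [Matrix.trace_fin_two] at hv; linarith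
  have hdet : h 0 0 * h 1 1 - h 0 1 * h 1 0 = N := by rw [← hd, Matrix.det_fin_two]
  have k00 := hdv 0 0
  have k01 := hdv 0 1
  have k10 := hdv 1 0
  simp only [Matrix.mul_apply, Fin.sum_univ_two, Matrix.adjugate_fin_two, Matrix.of_apply, Matrix.cons_val',
    Matrix.cons_val_zero, Matrix.cons_val_one, Matrix.cons_val_fin_one, hv'] at k00 k01 k10
  rw [← ZMod.intCast_zmod_eq_zero_iff_dvd] at k00 k01 k10
  push_cast at k00 k01 k10
  have hN : (((h 0 0 : ℤ) : ZMod N)) * (h 1 1 : ℤ) - (h 0 1 : ℤ) * (h 1 0 : ℤ) = 0 := by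
    have := congrArg (fun t : ℤ => (t : ZMod N)) hdet
    push_cast at this
    rw [this]
    simp
  have hb' : ((c0 : ℤ) : ZMod N) * (h 1 1 : ℤ) + (c1 : ℤ) * (h 0 1 : ℤ) + (c2 : ℤ) * (h 1 0 : ℤ) +
      (c3 : ℤ) * (h 0 0 : ℤ) = 1 := by
    exact_mod_cast congrArg (fun t : ℤ => (t : ZMod N)) hb
  obtain ⟨la, e1, e2, e3, e4, e5⟩ := eig_ring (R := ZMod N) (p := (h 0 0 : ℤ)) (q := (h 0 1 : ℤ)) (r := (h 1 0 : ℤ))
    (s := (h 1 1 : ℤ)) (x := (v 0 0 : ℤ)) (y := (v 0 1 : ℤ)) (z := (v 1 0 : ℤ)) hN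
    (by linear_combination k00) (by linear_combination k01) (by linear_combination k10) hb'
  obtain ⟨la', hla'⟩ := ZMod.intCast_surjective la
  refine ⟨la', ?_, ?_⟩
  · intro i j
    rw [← ZMod.intCast_zmod_eq_zero_iff_dvd]
    push_cast
    rw [hla']
    fin_cases i <;> fin_cases j <;>
      simp only [Matrix.mul_apply, Fin.sum_univ_two, Matrix.adjugate_fin_two, Matrix.of_apply, Matrix.cons_val',
        Matrix.cons_val_zero, Matrix.cons_val_one, Matrix.cons_val_fin_one, hv', Fin.zero_eta, Fin.mk_one, Fin.isValue] <;>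
      push_cast
    · linear_combination e1
    · linear_combination e2
    · linear_combination e3
    · linear_combination e4
  · rw [← ZMod.intCast_zmod_eq_zero_iff_dvd, Matrix.det_fin_two, hv']
    push_cast
    rw [hla']
    linear_combination e5

/-- two primitive matrices of determinant `N` with the same eigenvalue are equivalent -/
theorem eq_of_eig {N : ℕ} (hN0 : 0 < N) {v h h' : MZ} (hv : v.trace = 0) (hcop : IsCoprime (2 * v.det) (N : ℤ))
    (hd : h.det = N) (hd' : h'.det = N) {la : ℤ} (he : Eig N v h la) (he' : Eig N v h' la) :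
    ∃ g : MZ, g.det = 1 ∧ h' = g * h := by
  have hv' : v 1 1 = -v 0 0 := by
    rw [Matrix.trace_fin_two] at hv; linarith
  -- 2 la is a unit modulo N
  have hco : IsCoprime (2 * la) (N : ℤ) := by
    have h1 : IsCoprime (2 : ℤ) (N : ℤ) := hcop.of_mul_left_left
    have h2 : IsCoprime v.det (N : ℤ) := hcop.of_mul_left_right
    refine IsCoprime.mul_left h1 ?_
    obtain ⟨t, ht⟩ := he.2
    obtain ⟨a, b, hab⟩ := h2
    -- v.det = N t - la^2
    refine ⟨-(a * la), a * t + b, ?_⟩
    have : v.det = N * t - la ^ 2 := by linarith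
    rw [this] at hab
    linear_combination hab
  have key : ∀ i j, (N : ℤ) ∣ (h' * h.adjugate) i j := by
    have f : ∀ i j, ((2 * la * (h' * h.adjugate) i j : ℤ) : ZMod N) = 0 := by
      have g1 : ∀ i j, (((v * h.adjugate) i j : ℤ) : ZMod N) = ((la * h.adjugate i j : ℤ) : ZMod N) := by
        intro i j
        have := (ZMod.intCast_zmod_eq_zero_iff_dvd _ N).2 (he.1 i j)
        push_cast at this ⊢
        linear_combination this
      have g2 : ∀ i j, (((v * h'.adjugate) i j : ℤ) : ZMod N) = ((la * h'.adjugate i j : ℤ) : ZMod N) := by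
        intro i j
        have := (ZMod.intCast_zmod_eq_zero_iff_dvd _ N).2 (he'.1 i j)
        push_cast at this ⊢
        linear_combination this
      have a1 := g1 0 0
      have a2 := g1 0 1
      have a3 := g1 1 0
      have a4 := g1 1 1
      have b1 := g2 0 0
      have b2 := g2 0 1
      have b3 := g2 1 0
      have b4 := g2 1 1
      simp only [Matrix.mul_apply, Fin.sum_univ_two, Matrix.adjugate_fin_two, Matrix.of_apply, Matrix.cons_val',
        Matrix.cons_val_zero, Matrix.cons_val_one, Matrix.cons_val_fin_one, hv'] at a1 a2 a3 a4 b1 b2 b3 b4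
      push_cast at a1 a2 a3 a4 b1 b2 b3 b4
      obtain ⟨k1, k2, k3, k4⟩ := same_eig (R := ZMod N) (p := (h 0 0 : ℤ)) (q := (h 0 1 : ℤ)) (r := (h 1 0 : ℤ))
        (s := (h 1 1 : ℤ)) (x := (v 0 0 : ℤ)) (y := (v 0 1 : ℤ)) (z := (v 1 0 : ℤ)) (la := (la : ZMod N))
        (p' := (h' 0 0 : ℤ)) (q' := (h' 0 1 : ℤ)) (r' := (h' 1 0 : ℤ)) (s' := (h' 1 1 : ℤ))
        (by linear_combination a1) (by linear_combination a2) (by linear_combination a3) (by linear_combination a4)
        (by linear_combination b1) (by linear_combination b2) (by linear_combination b3) (by linear_combination b4)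
      intro i j
      fin_cases i <;> fin_cases j <;>
      simp only [Matrix.mul_apply, Fin.sum_univ_two, Matrix.adjugate_fin_two, Matrix.of_apply, Matrix.cons_val',
        Matrix.cons_val_zero, Matrix.cons_val_one, Matrix.cons_val_fin_one, Fin.zero_eta, Fin.mk_one, Fin.isValue] <;>
      push_cast
      · linear_combination k1
      · linear_combination k2
      · linear_combination k3
      · linear_combination k4
    intro i j
    have := (ZMod.intCast_zmod_eq_zero_iff_dvd _ N).1 (f i j)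
    exact hco.symm.dvd_of_dvd_mul_left this
  choose G hG using key
  have hNz : (N : ℤ) ≠ 0 := by exact_mod_cast hN0.ne'
  refine ⟨Matrix.of G, ?_, ?_⟩
  · have h1 : h' * h.adjugate = (N : ℤ) • Matrix.of G := by
      ext i j
      rw [hG i j]
      simp
    have h2 := congrArg Matrix.det h1
    rw [Matrix.det_mul, Matrix.det_adjugate, hd, hd', Matrix.det_smul] at h2
    simp only [Fintype.card_fin] at h2
    have h3 : (N : ℤ) ^ 2 * (Matrix.of G).det = (N : ℤ) ^ 2 * 1 := by
      rw [← h2]; ring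
    exact mul_left_cancel₀ (pow_ne_zero 2 hNz) h3
  · have h1 : h' * h.adjugate = (N : ℤ) • Matrix.of G := by
      ext i j
      rw [hG i j]
      simp
    have h2 : (N : ℤ) • h' = (N : ℤ) • (Matrix.of G * h) := by
      calc (N : ℤ) • h' = h' * (h.adjugate * h) := by
            rw [Matrix.adjugate_mul, hd, Matrix.mul_smul, Matrix.mul_one]
        _ = (h' * h.adjugate) * h := by rw [Matrix.mul_assoc]
        _ = (N : ℤ) • (Matrix.of G * h) := by rw [h1, Matrix.smul_mul]
    exact smul_right_injective _ hNz h2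

/-- square roots modulo `N` of a number prime to `N` (with `2` prime to `N`): at most `d(N)` -/
theorem roots_card {N : ℕ} (hN0 : 0 < N) {D : ℤ} (hcop : IsCoprime (2 * D) (N : ℤ)) (S : Finset ℤ)
    (hS : ∀ l ∈ S, (N : ℤ) ∣ l ^ 2 + D) (hinj : ∀ l ∈ S, ∀ l' ∈ S, (N : ℤ) ∣ l - l' → l = l') :
    S.card ≤ N.divisors.card := by
  rcases S.eq_empty_or_nonempty with rfl | ⟨l0, hl0⟩
  · simp
  have hNz : (N : ℤ) ≠ 0 := by exact_mod_cast hN0.ne'
  have hc0 : ∀ l ∈ S, IsCoprime (2 * l) (N : ℤ) := by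
    intro l hl
    have h1 : IsCoprime (2 : ℤ) (N : ℤ) := hcop.of_mul_left_left
    have h2 : IsCoprime D (N : ℤ) := hcop.of_mul_left_right
    refine IsCoprime.mul_left h1 ?_
    obtain ⟨t, ht⟩ := hS l hl
    obtain ⟨a, b, hab⟩ := h2
    refine ⟨-(a * l), a * t + b, ?_⟩
    have : D = N * t - l ^ 2 := by linarith
    rw [this] at hab
    linear_combination hab
  refine Finset.card_le_card_of_injOn (fun l => Int.gcd (l - l0) N) ?_ ?_
  · intro l _
    simp only [Finset.mem_coe, Nat.mem_divisors]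
    refine ⟨?_, hN0.ne'⟩
    have := Int.gcd_dvd_right (l - l0) (N : ℤ)
    exact_mod_cast this
  · intro l hl l' hl' hee
    simp only at hee
    have hl : l ∈ S := hl
    have hl' : l' ∈ S := hl'
    set e : ℕ := Int.gcd (l - l0) N with he
    have hepos : 0 < e := Int.gcd_pos_of_ne_zero_right _ hNz
    have he1 : (e : ℤ) ∣ l - l0 := Int.gcd_dvd_left _ _
    have he2 : (e : ℤ) ∣ l' - l0 := by rw [hee]; exact Int.gcd_dvd_left _ _
    have heN : (e : ℤ) ∣ N := Int.gcd_dvd_right _ _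
    obtain ⟨f, hf⟩ := heN
    have hstep : ∀ m ∈ S, Int.gcd (m - l0) N = e → f ∣ m + l0 := by
      intro m hm hme
      have h1 : (N : ℤ) ∣ (m - l0) * (m + l0) := by
        rw [show (m - l0) * (m + l0) = (m ^ 2 + D) - (l0 ^ 2 + D) by ring]
        exact dvd_sub (hS m hm) (hS l0 hl0)
      have h2 : ((Int.gcd (m - l0) N : ℕ) : ℤ) ∣ m - l0 := Int.gcd_dvd_left _ _
      rw [hme] at h2
      obtain ⟨a, ha⟩ := h2
      have h3 : IsCoprime f a := by
        have h4 : Int.gcd ((e : ℤ) * a) ((e : ℤ) * f) = e := by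
          rw [← ha, ← hf]; exact hme
        rw [Int.gcd_mul_left] at h4
        have h5 : Int.gcd a f = 1 := by
          have : e * Int.gcd a f = e * 1 := by simpa using h4
          exact Nat.eq_of_mul_eq_mul_left hepos this
        exact (Int.isCoprime_iff_gcd_eq_one.2 h5).symm
      rw [hf, ha] at h1
      have h6 : f ∣ a * (m + l0) := by
        have he0 : (e : ℤ) ≠ 0 := by exact_mod_cast hepos.ne'
        obtain ⟨t, ht⟩ := h1
        exact ⟨t, mul_left_cancel₀ he0 (by linear_combination ht)⟩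
      exact h3.dvd_of_dvd_mul_left h6
    have h1 : f ∣ l - l' := by
      rw [show l - l' = (l + l0) - (l' + l0) by ring]
      exact dvd_sub (hstep l hl rfl) (hstep l' hl' hee.symm)
    have h2 : (e : ℤ) ∣ l - l' := by
      rw [show l - l' = (l - l0) - (l' - l0) by ring]
      exact dvd_sub he1 he2
    have h3 : IsCoprime (e : ℤ) f := by
      -- a common divisor divides 2 l0
      rw [Int.isCoprime_iff_gcd_eq_one]
      by_contra hne
      have h4 : ((Int.gcd (e : ℤ) f : ℕ) : ℤ) ∣ 2 * l0 := by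
        have a1 : ((Int.gcd (e : ℤ) f : ℕ) : ℤ) ∣ l - l0 := (Int.gcd_dvd_left _ _).trans he1
        have a2 : ((Int.gcd (e : ℤ) f : ℕ) : ℤ) ∣ l + l0 := (Int.gcd_dvd_right _ _).trans (hstep l hl rfl)
        rw [show 2 * l0 = (l + l0) - (l - l0) by ring]
        exact dvd_sub a2 a1
      have h5 : ((Int.gcd (e : ℤ) f : ℕ) : ℤ) ∣ N := (Int.gcd_dvd_left _ _).trans (Int.gcd_dvd_right _ _)
      have h6 : IsUnit ((Int.gcd (e : ℤ) f : ℕ) : ℤ) := (hc0 l0 hl0).isUnit_of_dvd' h4 h5
      have := Int.isUnit_iff_natAbs_eq.1 h6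
      exact hne (by simpa using this)
    apply hinj l hl l' hl'
    rw [hf]
    exact h3.mul_dvd h2 h1

/-- **(T1)** the tree count -/
theorem tree_good {N : ℕ} (hN0 : 0 < N) {v : MZ} (hv : v.trace = 0) (hcop : IsCoprime (2 * v.det) (N : ℤ))
    (H : Finset MZ) (hP : ∀ h ∈ H, Prim h) (hd : ∀ h ∈ H, h.det = N)
    (hdv : ∀ h ∈ H, ∀ i j, (N : ℤ) ∣ (h * v * h.adjugate) i j)
    (hG : ∀ h ∈ H, ∀ h' ∈ H, ∀ g : MZ, g.det = 1 → h' = g * h → h = h') :
    H.card ≤ N.divisors.card := by
  classical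
  have h1 : ∀ h ∈ H, ∃ la : ℤ, Eig N v h la := fun h hh =>
    exists_eig hv (hP h hh) (hd h hh) (hdv h hh)
  -- normalised eigenvalue
  have h2 : ∀ h ∈ H, ∃ la : ℤ, Eig N v h la ∧ 0 ≤ la ∧ la < N := by
    intro h hh
    obtain ⟨la, hla⟩ := h1 h hh
    have hNz : (N : ℤ) ≠ 0 := by exact_mod_cast hN0.ne'
    refine ⟨la % N, ⟨?_, ?_⟩, Int.emod_nonneg _ hNz, Int.emod_lt_of_pos _ (by exact_mod_cast hN0)⟩
    · intro i j
      have e : (v * h.adjugate) i j - la % N * h.adjugate i j =
          ((v * h.adjugate) i j - la * h.adjugate i j) + N * (la / N * h.adjugate i j) := by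
        have := Int.emod_add_mul_ediv la N
        linear_combination (-h.adjugate i j) * this
      rw [e]
      exact dvd_add (hla.1 i j) (dvd_mul_right _ _)
    · have e : (la % N) ^ 2 + v.det = (la ^ 2 + v.det) + N * (-(la / N) * (la + la % N)) := by
        have := Int.emod_add_mul_ediv la N
        linear_combination (la + la % N) * this
      rw [e]
      exact dvd_add hla.2 (dvd_mul_right _ _)
  choose! f hf using h2
  have hinj : ∀ h ∈ H, ∀ h' ∈ H, f h = f h' → h = h' := by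
    intro h hh h' hh' hff
    obtain ⟨g, hg, hg'⟩ := eq_of_eig hN0 hv hcop (hd h hh) (hd h' hh') (hf h hh).1 (by rw [hff]; exact (hf h' hh').1)
    exact hG h hh h' hh' g hg hg'
  have h3 : (H.image f).card = H.card := Finset.card_image_of_injOn (fun a ha b hb => hinj a ha b hb)
  rw [← h3]
  apply roots_card hN0 (D := v.det) hcop
  · intro l hl
    obtain ⟨h, hh, rfl⟩ := Finset.mem_image.1 hl
    exact (hf h hh).1.2
  · intro l hl l' hl' hd
    obtain ⟨h, hh, rfl⟩ := Finset.mem_image.1 hl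
    obtain ⟨h', hh', rfl⟩ := Finset.mem_image.1 hl'
    obtain ⟨_, a1, a2⟩ := hf h hh
    obtain ⟨_, b1, b2⟩ := hf h' hh'
    obtain ⟨t, ht⟩ := hd
    have hNp : (0 : ℤ) < N := by exact_mod_cast hN0
    have : t = 0 := by
      by_contra hne
      rcases lt_or_gt_of_ne hne with h | h
      · nlinarith
      · nlinarith
    rw [this] at ht
    linarith

end Pool.Agent.A54.HSBd
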