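import Pool.Agent.Lib.HS.L.Tub
import Pool.Agent.Lib.HS.L.Fbr
import Pool.Agent.Lib.HS.L.Mult
import Pool.Agent.Lib.HS.Bd.SqLine
import Pool.Agent.Lib.HS.Bd.Tree

/-!
PROJECT H*, LOW BANDS (MP_a54f13_nt), part HS/Bd: architect helper41.
Every `S_...` is a statement with a COMPLETE proof in its docstring; the task for the module `x` is the
theorem `tX : ... → S_X` in `Pool/Agent/Lib/HS/Bd/<X>.lean` (namespace `HSLow`), hypotheses = the modules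
named under `uses`, in this order.

Notation: `K = S.K`, `w = K^-2`, `M' = fr a b h = b^-1 h a`. GAUGE of a frame: the smallest `D` with `Bx w D`.
The frame of a product is the product of the frames, `fr` of the adjugate is the adjugate.
All constants `C1` depend only on the listed parameters.
-/

set_option autoImplicit false

namespace HSLow

open Matrix HSL

noncomputable section

/-- box: diagonal entries at most `D`, the others at most `w D` -/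
def Bx (w D : ℝ) (M : MR) : Prop :=
  |M 0 0| ≤ D ∧ |M 1 1| ≤ D ∧ |M 0 1| ≤ w * D ∧ |M 1 0| ≤ w * D

/-- the traceless `v` is in the tube of gauge `τ` of the cell `i` -/
def Tub (S : Sys) (i : S.ι) (τ : ℝ) (v : MZ) : Prop :=
  v.trace = 0 ∧ Bx S.w τ (fr (S.g i) (S.g i) v)

/-- the tube of gauge `τ` has rank at most one -/
def R1 (S : Sys) (i : S.ι) (τ : ℝ) : Prop :=
  ∀ v v' : MZ, Tub S i τ v → Tub S i τ v' → brk v v' = 0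

/-- no non-zero vector in the tube of gauge `S0` -/
def Gd (S : Sys) (S0 : ℝ) (i : S.ι) : Prop := ∀ v : MZ, Tub S i S0 v → v = 0

/-- the cell `i` is planar with normal `n` -/
def Pln (S : Sys) (N : ℝ) (i : S.ι) (n : MZ) : Prop :=
  n.trace = 0 ∧ n ≠ 0 ∧ |fr (S.g i) (S.g i) n 0 0| ≤ S.w * N ∧
    |fr (S.g i) (S.g i) n 0 1| ≤ N ∧ |fr (S.g i) (S.g i) n 1 0| ≤ N

/-- levels: all prime factors in `Q`, exactly `j` of them -/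
def Lev (Q : Finset ℕ) (j m : ℕ) : Prop :=
  m ≠ 0 ∧ m.primeFactorsList.length = j ∧ ∀ p ∈ m.primeFactorsList, p ∈ Q

/-- a finite set of returns `(i, l, h)` inside `W` with `2 k` primes of `Q` -/
def Rs (S : Sys) (W : Finset S.ι) (Q : Finset ℕ) (k : ℕ) (T : Finset (S.ι × S.ι × MZ)) : Prop :=
  ∀ t ∈ T, t.1 ∈ W ∧ t.2.1 ∈ W ∧ Prim t.2.2 ∧
    ∃ m : ℕ, Lev Q (2 * k) m ∧ Ret S.C S.w (S.g t.1) (S.g t.2.1) m t.2.2

/-- the involution of the geodesic frame -/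
def Xf (g : MR) : MR := g * !![1, 0; 0, -1] * g.adjugate

/-- the cells are separated: at most `B (r/w)^3` of them in a ball of radius `r >= w` -/
def Sep (S : Sys) (B : ℝ) : Prop :=
  ∀ (ζ : MR) (r : ℝ), S.w ≤ r → ∀ F : Finset S.ι, F ⊆ S.V →
    (∀ i ∈ F, ∀ a b, |Xf (S.g i) a b - ζ a b| ≤ r) → (F.card : ℝ) ≤ B * (r / S.w) ^ 3

/-- `vx i` is a primitive traceless vector of minimal gauge for the cell `i` -/
def Mn (S : Sys) (vx : S.ι → MZ) : Prop :=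
  ∀ i ∈ S.V, (vx i).trace = 0 ∧ Prim (vx i) ∧
    ∀ (τ : ℝ) (v : MZ), v ≠ 0 → Tub S i τ v → Tub S i τ (vx i)

/-- the tube of the loops of level `<= Z` -/
def tau (C : ℝ) (k : ℕ) (Z : ℝ) : ℝ := 4 * ((2 * C) ^ k) ^ 2 * Z ^ 2

/-! ### Gauges -/

/-- Fb. PROOF. (1) entries of the product: `D D' + (w D)(w D') <= 2 D D'`, `D w D' + w D D' = w (2 D D')`.
(2) the adjugate permutes the entries up to sign. (3), (4) clear (`fr a b (c v) = c fr a b v`). (5) frame of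
`tf s` = `2 M' - tr(M') 1` (`tr s = tr M'`): diagonal `± (M'00 - M'11)`, off-diagonal `2 M'01`, `2 M'10`.
(6) definition of `Near`. (7) `toR h = b M' a^adj` (unimodular), two sums of two terms. (8) by (7) the
entries are integers of absolute value `< 1`. -/
def S_Fb : Prop :=
  (∀ (w D D' : ℝ) (M M' : MR), 0 ≤ w → w ≤ 1 → 0 ≤ D → 0 ≤ D' → Bx w D M → Bx w D' M' →
    Bx w (2 * D * D') (M * M')) ∧
  (∀ (w D : ℝ) (M : MR), Bx w D M → Bx w D M.adjugate) ∧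
  (∀ (w D D' : ℝ) (M : MR), 0 ≤ w → D ≤ D' → Bx w D M → Bx w D' M) ∧
  (∀ (w D : ℝ) (a b : MR) (c : ℤ) (v : MZ), c ≠ 0 →
    (Bx w (|(c : ℝ)| * D) (fr a b (c • v)) ↔ Bx w D (fr a b v))) ∧
  (∀ (w D : ℝ) (g : MR) (s : MZ), 0 ≤ w → g.det = 1 → Bx w D (fr g g s) →
    (tf s).trace = 0 ∧ Bx w (2 * D) (fr g g (tf s))) ∧
  (∀ (C w : ℝ) (a b : MR) (m : ℕ) (h : MZ), Ret C w a b m h → Bx w (C * m) (fr a b h)) ∧
  (∀ (R D : ℝ) (a b : MR) (h : MZ), a.det = 1 → b.det = 1 → (∀ i j, |a i j| ≤ R) →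
    (∀ i j, |b i j| ≤ R) → (∀ i j, |fr a b h i j| ≤ D) → ∀ i j, |((h i j : ℤ) : ℝ)| ≤ 4 * R ^ 2 * D) ∧
  (∀ (R D : ℝ) (a b : MR) (h : MZ), a.det = 1 → b.det = 1 → (∀ i j, |a i j| ≤ R) →
    (∀ i j, |b i j| ≤ R) → (∀ i j, |fr a b h i j| ≤ D) → 4 * R ^ 2 * D < 1 → h = 0)

/-- Par. Parallel traceless matrices. PROOF. For traceless `v = (a,b;c,-a)`, `v' = (a',b';c',-a')` the
bracket is `(bc'-b'c, 2(ab'-a'b); 2(ca'-c'a), -(bc'-b'c))`, i.e. the cross product of `(a,b,c)` and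
`(a',b',c')` up to factors 2, so `brk v v' = 0` iff the vectors are proportional. (1) `v` primitive:
a combination `x a + y b + z c = 1` gives `v' = (x a' + y b' + z c') v`. (2) divide by the gcd of the entries.
(3) proportionality is transitive through `v <> 0`. (4) the traceless `v` commutes with `s` iff with
`tf s = 2 s - tr s`. (5) `s v = v s` and `s' v = v s'`, ... : `n <> 0` traceless, `a`, `a'` both commuting with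
`n` or both anticommuting with `n` (`n a = e a n`, `n a' = e a' n`, `e = ± 1`): `adj(a) a'` commutes
with `n`; (for `e = -1` both are traceless? multiply: `a n = e n a` gives `n adj(a) = e adj(a) n` by taking
adjugates (`adj n = -n`); so `n adj(a) a' = e adj(a) n a' = e^2 adj(a) a' n`). -/
def S_Par : Prop :=
  (∀ v v' : MZ, v.trace = 0 → v'.trace = 0 → Prim v → brk v v' = 0 → ∃ c : ℤ, v' = c • v) ∧
  (∀ v : MZ, v ≠ 0 → ∃ (c : ℤ) (v0 : MZ), 0 < c ∧ Prim v0 ∧ v = c • v0) ∧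
  (∀ v a b : MZ, v ≠ 0 → v.trace = 0 → a.trace = 0 → b.trace = 0 → brk v a = 0 → brk v b = 0 →
    brk a b = 0) ∧
  (∀ v s : MZ, v * s = s * v ↔ brk v (tf s) = 0) ∧
  (∀ (n a a' : MZ) (e : ℤ), n.trace = 0 → (e = 1 ∨ e = -1) → n * a = e • (a * n) →
    n * a' = e • (a' * n) → n * (a.adjugate * a') = a.adjugate * a' * n)

/-- VX (uses Fb). PROOF. For given `i` the traceless non-zero integral matrices of gauge
`max(|fr00|, |fr01|/w, |fr10|/w) <= T` are finitely many (Fb (7)); take one of minimal gauge (`(1,0;0,-1)`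
shows that the set is not empty for some `T`). It is primitive: `v = c v0` with `|c| >= 2` gives a smaller
gauge for `v0`. -/
def S_VX : Prop := ∀ S : Sys, 1 ≤ S.K → S.Unim → ∃ vx : S.ι → MZ, Mn S vx

/-! ### Lattice counts -/

/-- R2. PROOF. Take `u1, u2 ∈ F` with `|q(u1,u2)| = J' ` maximal (`J' >= 1`), `q(u,v)` = the coefficient
(`brk u v = q(u,v) n0`, well defined as `n0 <> 0`). All vectors of `F` are in the rational plane of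
`u1, u2`: `tr(v brk(u1,u2)) = tr(u1 brk(u2,v)) = q(u2,v) tr(u1 n0)` and
`q(u1,u2) tr(u1 n0) = tr(u1 brk(u1,u2)) = 0`; `tr(v brk(u1,u2))` is ± 2 times the determinant of the vectors
`(v00, v01, v10)`, .... So `v = (q(v,u2) u1 + q(u1,v) u2)/q(u1,u2)`. Let `e` be the primitive normal
and `cr u1 u2 = g e` (`Lat.prim`: vector `a` with `d3 u1 u2 a = g`), `g <= J'` because `n0` is primitive (the
content of the cross product divides that of the bracket). `card27` with `u1, u2, a`: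
`|d3 v u2 a| , |d3 u1 v a| <= g` (they are `g q(v,u2)/q(u1,u2)`...), `d3 u1 u2 v = 0`: `card F <= 27 g`. (Or
refine `Lat.card2`: its proof gives exactly `27 g`.) -/
def S_R2 : Prop :=
  ∀ (J : ℕ) (n0 : MZ) (F : Finset MZ), Prim n0 → (∀ v ∈ F, v.trace = 0) →
    (∀ v ∈ F, ∀ v' ∈ F, ∃ q : ℤ, |q| ≤ (J : ℤ) ∧ brk v v' = q • n0) →
    (∃ v ∈ F, ∃ v' ∈ F, brk v v' ≠ 0) → F.card ≤ 27 * J

/-- LT (uses Fb, Par, R2). Tube of a nonplanar cell. PROOF. Case 1: three vectors of `F` with `d3 <> 0`: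
`card27` for a triple with maximal `|d3|`, and `|d3|` = `|d3|` of the frame coordinates (`co_det` of
`HS/L/Tub.lean`) `<= 6 τ (w τ)^2`: `card F <= 162 w^2 τ^3` (this is also the first alternative of
`lat_tube`). Case 2: all `d3 = 0`. Let `n0` be the primitive matrix of `brk u1 u2 <> 0`; `n0` is traceless and
all brackets are integral multiples `q n0` (they are orthogonal to the plane). The frame of `q n0` is the
commutator of the frames: `|00| <= 2 (w τ)^2`, `|01|, |10| <= 4 w τ^2`. `n0` does not satisfy `Pln`, so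
`|q| w N <= 2 w^2 τ^2` or `|q| N <= 4 w τ^2`: `|q| <= 4 w τ^2/N`. S_R2 with `J` = floor of this. -/
def S_LT : Prop :=
  ∃ C1 : ℝ, 1 ≤ C1 ∧ ∀ (S : Sys) (N τ : ℝ), 1 ≤ S.K → S.Unim → 1 ≤ N → 0 < τ → ∀ i ∈ S.V,
    (∀ n : MZ, ¬ Pln S N i n) → ∀ F : Finset MZ, (∀ v ∈ F, Tub S i τ v) →
    (∃ v ∈ F, ∃ v' ∈ F, brk v v' ≠ 0) →
    (F.card : ℝ) ≤ C1 * (S.w ^ 2 * τ ^ 3 + S.w * τ ^ 2 / N)

/-- T3 (uses Fb). Bad cells are few. PROOF. `v <> 0` in the tube `S0` of `i`: entries `<= 4 R^2 S0`, so at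
most `C S0^3` matrices `v`. Fix `v` and the sign of `a_i = fr_i(v) 00`. `a_i^2 = - det v - b_i c_i`,
`|b_i|, |c_i| <= w S0`; `|a_i| >= 1/(4 R^2)` (otherwise all entries of the frame are `< 1/(4R^2)` and `v = 0`,
as `4 R^2 w S0 < 1`). So `|a_i - a_l| <= 2 (w S0)^2/(2/(4R^2)) <= w S0` for two such cells with the same sign.
`v = a_i X_i + E_i`, `X_i = Xf (g i)`, `|E_i| <= 4 R^2 w S0`, so `|X_i - X_l| <= C w S0`. `Sep` with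
`ζ = X_l`, `r = C w S0`: at most `B (C S0)^3` cells. -/
def S_T3 : Prop :=
  ∀ R : ℝ, 1 ≤ R → ∃ C1 : ℝ, 1 ≤ C1 ∧ ∀ (S : Sys) (B S0 : ℝ), S.R = R → 1 ≤ S.K → 1 ≤ B →
    1 ≤ S0 → C1 * (S.w * S0) ≤ 1 → S.Unim → Sep S B → ∀ F : Finset S.ι, F ⊆ S.V →
    (∀ i ∈ F, ¬ Gd S S0 i) → (F.card : ℝ) ≤ C1 * B * S0 ^ 6

/-! ### Pairs of returns, nonplanar cells -/

/-- TA (uses Fb, Par, LT, S_Frm, S_Fbr; `HSL.mult`). Pairs of type A. PROOF. `C' = (2C)^k`, `t ∈ A`,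
`u = ct (lp t)`, `lp t = u s0`, `s0` primitive, `det s0 = n0^2`, `u n0 = m1 m2 <= Z^2`. S_Frm and Fb (5):
`tf s0` is in the tube `4 C'^2 n0 <= tau C k Z/u =: τ`. Given `u`: `F` = the `tf s0` together with two
non-parallel vectors of the tube `τ` (`not R1`): S_LT: `card F <= C (w^2 τ^3 + w τ^2/N)`. `det (tf s0) <> 0`:
otherwise its frame `(x, β; γ, -x)` has `x^2 = - β γ`, `|β|, |γ| <= w τ`, so all entries are `<= w τ < 1/(4R^2)`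
(here `C1 w Z^2 <= 1`) and `tf s0 = 0`. S_Fbr: each `tf s0` belongs to at most `C Z^(ε/2)` matrices `s0`
(`|det|, |tr|, 2 n0 <= C Z^4`). `HSL.mult`: each loop `s = u s0` to at most `B 2^(8k) u` pairs. Sum over
`u <= Z^2`: `sum_u u (w^2 Z^6/u^3 + w Z^4/(N u^2)) <= (2 + log Z^2)(w^2 Z^6 + w Z^4/N)`. -/
def S_TA : Prop :=
  ∀ (k : ℕ) (C R ε : ℝ), 1 ≤ k → 1 ≤ C → 1 ≤ R → 0 < ε → ∃ C1 : ℝ, 1 ≤ C1 ∧
    ∀ (S : Sys) (B N Z : ℝ), S.C = C → S.R = R → 1 ≤ S.K → 1 ≤ B → 1 ≤ N → 1 ≤ Z →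
    C1 * (S.w * Z ^ 2) ≤ 1 → S.Unim → S.Ovl ((2 * C) ^ k) B →
    ∀ i ∈ S.V, (∀ n : MZ, ¬ Pln S N i n) → ∀ H : Finset (S.ι × MZ), Hk S k Z i H →
    ∀ A : Finset ((S.ι × MZ) × (S.ι × MZ)), A ⊆ prs H →
      (∀ t ∈ A, tf (lp t) ≠ 0 ∧ ¬ R1 S i (tau C k Z / (ct (lp t) : ℝ))) →
      (A.card : ℝ) ≤ C1 * B * Z ^ ε * (S.w ^ 2 * Z ^ 6 + S.w * Z ^ 4 / N)

/-- PC (uses Fb, Par). A parallel return is divisible. PROOF. `h vx h^* = c vy` (traceless, parallel to the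
primitive `vy`), `c <> 0`, so `c^2 det vy = m^4 det vx`. Let `g = gcd(c, m^2)`, `c = g c'`, `m^2 = g m'`:
`c'^2 det vy = m'^2 det vx`, so `c'^2 | det vx`. Let `q` be a prime dividing `c'`. If `q | m` then
`q | det vx`, excluded. If `q` does not divide `m`: `q | c`, so `q` divides `h vx h^*` and
`h^* (h vx h^*) h = m^4 vx`, so `q | vx`, excluded. So `c' = ± 1`, `det vy = m'^2 det vx`. SIZES: the frame
`(a, b; c0, -a)` of `vx` has `|b c0| <= (w τ)^2`, `|a| >= 1/(4R^2)` (else `vx = 0`), so (`C1 = 16 R^2`)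
`|b c0| <= a^2/16`, `15/16 a_x^2 <= |det vx|`, and `|det vy| <= a_y^2 + (w τ)^2 <= 17/16 a_x^2`, so
`|det vy| < 4 |det vx|`, `m' = 1`, `m^2 | c`. -/
def S_PC : Prop :=
  ∀ R : ℝ, 1 ≤ R → ∃ C1 : ℝ, 1 ≤ C1 ∧ ∀ (S : Sys) (τ : ℝ), S.R = R → 1 ≤ S.K → 1 ≤ τ →
    C1 * (S.w * τ) ≤ 1 → S.Unim → ∀ x ∈ S.V, ∀ y ∈ S.V, ∀ (vx vy h : MZ) (m : ℕ),
    Prim vx → Prim vy → Tub S x τ vx → Tub S y τ vy → 0 < m → h.det = (m : ℤ) ^ 2 →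
    brk (h * vx * h.adjugate) vy = 0 →
    |fr (S.g y) (S.g y) vy 0 0| ≤ |fr (S.g x) (S.g x) vx 0 0| →
    (∀ p : ℕ, p.Prime → p ∣ m → ¬ (p : ℤ) ∣ vx.det) →
    ∀ a b, ((m : ℤ) ^ 2) ∣ (h * vx * h.adjugate) a b

/-- divisible return from `i` of level `m` with respect to `v` -/
def Dv (S : Sys) (k : ℕ) (Q : Finset ℕ) (i : S.ι) (v : MZ) (t : S.ι × MZ) (m : ℕ) : Prop :=
  t.1 ∈ S.V ∧ Prim t.2 ∧ Lev Q (2 * k) m ∧ Ret ((2 * S.C) ^ k) S.w (S.g i) (S.g t.1) m t.2 ∧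
    ∀ a b, ((m : ℤ) ^ 2) ∣ (t.2 * v * t.2.adjugate) a b

/-- C2 (uses nothing; `HSBd.tree_good`, `HSL.MultM.card_divisors_le`). Divisible returns with common prime. PROOF.
(1) Given the level `m`: a set of `SL2(Z)`-inequivalent matrices `h` among the divisible returns of level `m`
has at most `tau(m^2) <= 2^(4k)` elements (`tree_good`, `N = m^2`, `2 det v` is prime to `m`); for a
representative `h0` the pairs `(l, γ h0)` are at most `B` (`Ovl`). So at most `2^(4k) B` pairs `(l, h)` of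
level `m`. (2) the pairs of levels `(m, m')`, `m, m' <= Z`, with a common prime: for given `m` at most `2k`
primes `p >= M`, and `m'` is one of at most `Z/M` multiples of `p`: at most `2 k Z^2/M` pairs. -/
def S_C2 : Prop :=
  ∀ k : ℕ, 1 ≤ k → ∃ C1 : ℝ, 1 ≤ C1 ∧ ∀ (S : Sys) (Q : Finset ℕ) (B M Z : ℝ) (i : S.ι) (v : MZ),
    i ∈ S.V → 1 ≤ B → 1 ≤ M → (∀ p ∈ Q, p.Prime ∧ M ≤ (p : ℝ) ∧ ¬ (p : ℤ) ∣ 2 * v.det) →
    S.Ovl ((2 * S.C) ^ k) B → v.trace = 0 → ∀ A : Finset ((S.ι × MZ) × (S.ι × MZ)),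
    (∀ t ∈ A, ∃ m m' : ℕ, Dv S k Q i v t.1 m ∧ Dv S k Q i v t.2 m' ∧ (m : ℝ) ≤ Z ∧ (m' : ℝ) ≤ Z ∧
      1 < Nat.gcd m m') → (A.card : ℝ) ≤ C1 * B ^ 2 * (Z ^ 2 / M)

/-- C3 (uses Fb, Par, S_Frm, S_Fbr; `HSL.mult`). Primitive loops on the line of `v`. PROOF. `tf (lp t) = c v`, `c <> 0`
an integer (Par (1)); it is in the tube `tau C k Z` (S_Frm with `c = 1`, Fb (5)), so `v` is in the tube
`tau C k Z/|c|`, and `Gd` gives `tau C k Z/|c| > S0`: at most `2 tau/S0` values of `c`. `det (c v) <> 0` as in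
TA. S_Fbr: at most `C Z^ε` loops for each `c`; `HSL.mult` with `ct = 1`: at most `B 2^(8k)` pairs for each
loop. -/
def S_C3 : Prop :=
  ∀ (k : ℕ) (C R ε : ℝ), 1 ≤ k → 1 ≤ C → 1 ≤ R → 0 < ε → ∃ C1 : ℝ, 1 ≤ C1 ∧
    ∀ (S : Sys) (B S0 Z : ℝ), S.C = C → S.R = R → 1 ≤ S.K → 1 ≤ B → 1 ≤ Z → 0 < S0 →
    C1 * (S.w * Z ^ 2) ≤ 1 → S.Unim → S.Ovl ((2 * C) ^ k) B →
    ∀ i ∈ S.V, Gd S S0 i → ∀ H : Finset (S.ι × MZ), Hk S k Z i H →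
    ∀ v : MZ, Prim v → v.trace = 0 → ∀ A : Finset ((S.ι × MZ) × (S.ι × MZ)), A ⊆ prs H →
      (∀ t ∈ A, tf (lp t) ≠ 0 ∧ ct (lp t) = 1 ∧ brk (tf (lp t)) v = 0) →
      (A.card : ℝ) ≤ C1 * B * Z ^ ε * (Z ^ 2 / S0)

/-- Pa (uses nothing). Algebra of a pair. PROOF. (1) `h (2 h'^* h - t) h^* = 2 h h'^* det h - t det h`,
`t = tr(h'^* h) = tr(h h'^*)`. (2) `h' (2 h'^* h - t) h'^* = det h' (2 h h'^* - t)`. (3) the content is invariant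
under the adjugate, and `adj(h h'^*) = h' h^*`. (4) a prime `q` dividing all entries of `h'^* h` divides
`(m m')^2`; if `q | m'`, `q` does not divide `m`: `h'^* h h^* = m^2 h'^*`, so `q` divides `h'^*` and `h'`,
excluded; the same for `q | m`. (5) `h'^* h = c` scalar: `det h' h = c h'`; both primitive. -/
def S_Pa : Prop :=
  (∀ h h' : MZ, h * tf (h'.adjugate * h) * h.adjugate = h.det • tf (h * h'.adjugate)) ∧
  (∀ h h' : MZ, h' * tf (h'.adjugate * h) * h'.adjugate = h'.det • tf (h * h'.adjugate)) ∧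
  (∀ s : MZ, ct s.adjugate = ct s ∧ (tf s.adjugate = - tf s)) ∧
  (∀ (h h' : MZ) (m m' : ℕ), 0 < m → 0 < m' → Prim h → Prim h' → h.det = (m : ℤ) ^ 2 →
    h'.det = (m' : ℤ) ^ 2 → Nat.Coprime m m' → ct (h'.adjugate * h) = 1) ∧
  (∀ h h' : MZ, Prim h → Prim h' → 0 < h.det → 0 < h'.det → tf (h'.adjugate * h) = 0 →
    h = h' ∨ h = - h')

/-- Pq (uses Fb, Par, Pa, S_Frm). Algebra of a pair which is not of type A. PROOF. `s = h'^* h`, `s' = h h'^*`, `u = ct s`,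
`s = u s0`; `tf s0` is in the tube `tau C k Z/u` of `x` (S_Frm, Fb (5), `n0 <= Z^2/u`), non-zero, so `vx x` is in this tube
(Mn; so also in the tube `tau C k Z`, `u >= 1`) and `R1` gives `brk (tf s0) (vx x) = 0`, so `brk (tf s) (vx x) = 0`. The same for `s'` at
`y` (`adj s' = h' h^*` is the loop of the reversed pair; `tf (adj s') = - tf s'`, `ct` the same; `tf s' <> 0` because
`h tf(s) h^* = det h tf(s')` and `h` is invertible over the rationals): `brk (tf s') (vx y) = 0`. `tf s = c vx x` with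
`c <> 0` (Par (1)), so `c h (vx x) h^* = h tf(s) h^* = det h tf(s')` (Pa (1)) commutes with `vx y`: `brk (h vx h^*) (vx y) = 0`;
the same for `h'` with Pa (2). -/
def S_Pq : Prop :=
  ∀ (k : ℕ) (C R : ℝ), 1 ≤ k → 1 ≤ C → 1 ≤ R → ∃ C1 : ℝ, 1 ≤ C1 ∧
    ∀ (S : Sys) (Z : ℝ) (vx : S.ι → MZ), S.C = C → S.R = R → 1 ≤ S.K → 1 ≤ Z →
    C1 * (S.w * Z ^ 2) ≤ 1 → S.Unim → Mn S vx → ∀ x ∈ S.V, ∀ y ∈ S.V, ∀ (h h' : MZ) (m m' : ℕ),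
    Ret ((2 * C) ^ k) S.w (S.g x) (S.g y) m h → Ret ((2 * C) ^ k) S.w (S.g x) (S.g y) m' h' →
    (m : ℝ) ≤ Z → (m' : ℝ) ≤ Z → tf (h'.adjugate * h) ≠ 0 →
    R1 S x (tau C k Z / (ct (h'.adjugate * h) : ℝ)) → R1 S y (tau C k Z / (ct (h * h'.adjugate) : ℝ)) →
    Tub S x (tau C k Z) (vx x) ∧ Tub S y (tau C k Z) (vx y) ∧
    brk (tf (h'.adjugate * h)) (vx x) = 0 ∧ brk (h * vx x * h.adjugate) (vx y) = 0 ∧
    brk (h' * vx x * h'.adjugate) (vx y) = 0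

/-- Pd (uses PC, C2, C3, Pa). Parallel pairs from `x`, the gauge of the end not larger. PROOF. `Z = (2M)^(2k)`, all levels are `<= Z` (`Lev`,
`p <= 2M`) and have `2k` prime factors `>= M`, all in `Q`. PC with `τ = tau C k Z`: both members of the pair are divisible
for `v = vx x` (`Dv`). Pairs with `gcd(m, m') > 1`: C2. Coprime levels: `ct (lp t) = 1` (Pa (4)), C3 with `H` = the set of all
members of the pairs (`Hk S k Z x H`). -/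
def S_Pd : Prop :=
  ∀ (k : ℕ) (C R ε : ℝ), 1 ≤ k → 1 ≤ C → 1 ≤ R → 0 < ε → ∃ C1 : ℝ, 1 ≤ C1 ∧
    ∀ (S : Sys) (B S0 M : ℝ) (Q : Finset ℕ) (vx : S.ι → MZ), S.C = C → S.R = R → 1 ≤ S.K →
    1 ≤ B → 1 ≤ S0 → 1 ≤ M → C1 * (S.w * ((2 * M) ^ (2 * k)) ^ 2) ≤ 1 → S.Unim →
    S.Ovl ((2 * C) ^ k) B → Mn S vx → ∀ x ∈ S.V, Gd S S0 x →
    Tub S x (tau C k ((2 * M) ^ (2 * k))) (vx x) →
    (∀ p ∈ Q, p.Prime ∧ M ≤ (p : ℝ) ∧ (p : ℝ) ≤ 2 * M ∧ ¬ (p : ℤ) ∣ 2 * (vx x).det) →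
    ∀ A : Finset ((S.ι × MZ) × (S.ι × MZ)), (∀ t ∈ A, t.1.1 = t.2.1 ∧ t.1.1 ∈ S.V ∧
      Prim t.1.2 ∧ Prim t.2.2 ∧
      (∃ m : ℕ, Lev Q (2 * k) m ∧ Ret ((2 * C) ^ k) S.w (S.g x) (S.g t.1.1) m t.1.2) ∧
      (∃ m' : ℕ, Lev Q (2 * k) m' ∧ Ret ((2 * C) ^ k) S.w (S.g x) (S.g t.2.1) m' t.2.2) ∧
      tf (lp t) ≠ 0 ∧ brk (tf (lp t)) (vx x) = 0 ∧
      Tub S t.1.1 (tau C k ((2 * M) ^ (2 * k))) (vx t.1.1) ∧
      brk (t.1.2 * vx x * t.1.2.adjugate) (vx t.1.1) = 0 ∧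
      brk (t.2.2 * vx x * t.2.2.adjugate) (vx t.1.1) = 0 ∧
      |fr (S.g t.1.1) (S.g t.1.1) (vx t.1.1) 0 0| ≤ |fr (S.g x) (S.g x) (vx x) 0 0|) →
    (A.card : ℝ) ≤ C1 * B ^ 2 * ((2 * M) ^ (2 * k)) ^ ε *
      (((2 * M) ^ (2 * k)) ^ 2 / M + ((2 * M) ^ (2 * k)) ^ 2 / S0)

/-- NP (uses TA, Pq, Pd, Pa, S_Fr). NONPLANAR CELLS. PROOF. `Z = (2M)^(2k)`; every level is `<= Z` and has `2k` prime factors, so the
returns from `x` (pairs `(y, h)`) form a set as in `Hk S k Z x` (`Ret C <= Ret (2C)^k`, S_Fr (7)), and the adjugates (pairs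
`(x, h^*)`) one as in `Hk S k Z y` (S_Fr (6)). Cauchy-Schwarz over `(x, y)`: `(card T)^2 <= (card V)^2 card P`, `P` = the
pairs `(h, h')` of returns with the same ends `x`, `y`. `s = h'^* h`, `s' = h h'^*`; the loop of the reversed pair is
`adj s' = h' h^*`. (a) `tf s = 0`: `h' = ± h`, at most `2 card T` pairs (Pa (5)). (b) `tf s <> 0`, not
`R1 S x (tau/ct s)`: for each `x` TA. (c) `tf s <> 0` (then `tf s' <> 0`, by Pa (1) for `adj`: `h^* tf(s') h = det h tf(s)`), not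
`R1 S y (tau/ct s')`: TA for the reversed returns from `y` (Pa (3)). (d) otherwise Pq for `(x, y, h, h')` and for the reversed
`(y, x, h^*, h'^*)`; if `|fr(vx y) 00| <= |fr(vx x) 00|` Pd at `x`, otherwise Pd at `y` for the reversed pairs. In all `(b)`, `(c)`, `(d)`:
`<= 2 card V (TA + Pd)`. -/
def S_NP : Prop :=
  ∀ (k : ℕ) (C R ε : ℝ), 1 ≤ k → 1 ≤ C → 1 ≤ R → 0 < ε → ∃ C1 : ℝ, 1 ≤ C1 ∧
    ∀ (S : Sys) (B N S0 M : ℝ) (Q : Finset ℕ) (vx : S.ι → MZ), S.C = C → S.R = R → 1 ≤ S.K →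
    1 ≤ B → 1 ≤ N → 1 ≤ S0 → 1 ≤ M → C1 * (S.w * ((2 * M) ^ (2 * k)) ^ 2) ≤ 1 → S.Unim →
    S.Ovl ((2 * C) ^ k) B → Mn S vx → (∀ i ∈ S.V, (∀ n : MZ, ¬ Pln S N i n) ∧ Gd S S0 i) →
    (∀ p ∈ Q, p.Prime ∧ M ≤ (p : ℝ) ∧ (p : ℝ) ≤ 2 * M) →
    (∀ i ∈ S.V, Tub S i (tau C k ((2 * M) ^ (2 * k))) (vx i) →
      ∀ p ∈ Q, ¬ (p : ℤ) ∣ 2 * (vx i).det) →
    ∀ T : Finset (S.ι × S.ι × MZ), Rs S S.V Q k T →
      (T.card : ℝ) ^ 2 ≤ C1 * B ^ 2 * (S.V.card : ℝ) ^ 2 *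
        ((S.V.card : ℝ) * ((2 * M) ^ (2 * k)) ^ ε *
          (S.w ^ 2 * ((2 * M) ^ (2 * k)) ^ 6 + S.w * ((2 * M) ^ (2 * k)) ^ 4 / N +
            ((2 * M) ^ (2 * k)) ^ 2 / M + ((2 * M) ^ (2 * k)) ^ 2 / S0) + (T.card : ℝ))

/-! ### Planar cells -/

/-- the part commuting with `n`, times `2 det n` -/
def pa (n h : MZ) : MZ := n.det • h - n * h * n

/-- the part anticommuting with `n`, times `2 det n` -/
def pb (n h : MZ) : MZ := n.det • h + n * h * n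

/-- PA (uses Fb, S_Fr). PROOF. `n^2 = - det n`. (1) `n (D h - n h n) = D n h + D h n = (D h - n h n) n`. (2) the same
with signs. (3) clear. (4) `a = pa` commutes with `n`, `b = pb` anticommutes, `b` is traceless
(`tr b = tr(n b n^-1) = - tr b`; polynomial identity: all entries; or: (4) is a polynomial identity in the
entries of `n` (traceless) and `h`, `ring`). (5) frames: `n_l M n_i` with `|n 00| <= w N`, `|n 01|, |n 10| <= N`: `M n_i`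
has diagonal `<= 2 w D N`, off-diagonal `<= 2 D N`; then `n_l (M n_i)` is in `Bx (4 N^2 D)`;
`|det n| <= (w N)^2 + N^2 <= 2 N^2`. (6) `n a = e a n` gives `n_l A = e A n_i`; entry 01:
`x' A01 + y' A11 = e (A00 y - A01 x)`; `|y z| >= |det n| - x^2 >= 1/2`, `|z| <= N`, so `|y| >= 1/(2N)`:
`|A00| <= 2 N (N |A11| + 2 w N |A01|) <= 2 N^2 |A11| + 4 w^2 N^2 D`; the same with 00 and 11 exchanged (`y'`). (7)
`|n 01| >= 1/(2N)` for the frame of `n` at a planar cell. -/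
def S_PA : Prop :=
  (∀ n h : MZ, n.trace = 0 → n * pa n h = pa n h * n ∧ n * pb n h = -(pb n h * n) ∧
    pa n h + pb n h = (2 * n.det) • h ∧ (pa n h).det + (pb n h).det = 4 * n.det ^ 2 * h.det) ∧
  (∀ (S : Sys) (N D : ℝ) (i l : S.ι) (n h : MZ), 1 ≤ S.K → S.Unim → 1 ≤ N → S.w * N ≤ 1 → 0 ≤ D →
    i ∈ S.V → l ∈ S.V → Pln S N i n → Pln S N l n → Bx S.w D (fr (S.g i) (S.g l) h) →
    Bx S.w (8 * N ^ 2 * D) (fr (S.g i) (S.g l) (pa n h)) ∧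
    Bx S.w (8 * N ^ 2 * D) (fr (S.g i) (S.g l) (pb n h))) ∧
  (∀ (S : Sys) (N D : ℝ) (i l : S.ι) (n a : MZ) (e : ℤ), 1 ≤ S.K → S.Unim → 1 ≤ N →
    2 * (S.w * N) ^ 2 ≤ 1 → 0 ≤ D → i ∈ S.V → l ∈ S.V → Pln S N i n → Pln S N l n → n.det ≠ 0 →
    (e = 1 ∨ e = -1) → n * a = e • (a * n) → Bx S.w D (fr (S.g i) (S.g l) a) →
    |fr (S.g i) (S.g l) a 0 0| ≤ 2 * N ^ 2 * |fr (S.g i) (S.g l) a 1 1| + 4 * S.w ^ 2 * N ^ 2 * D ∧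
    |fr (S.g i) (S.g l) a 1 1| ≤ 2 * N ^ 2 * |fr (S.g i) (S.g l) a 0 0| + 4 * S.w ^ 2 * N ^ 2 * D) ∧
  (∀ (S : Sys) (N : ℝ) (i : S.ι) (n : MZ), 1 ≤ S.K → S.Unim → 1 ≤ N → 2 * (S.w * N) ^ 2 ≤ 1 →
    i ∈ S.V → Pln S N i n → n.det ≠ 0 → 1 ≤ 2 * N * |fr (S.g i) (S.g i) n 0 1| ∧
      1 ≤ 2 * N * |fr (S.g i) (S.g i) n 1 0|)

/-- PR (uses Fb, Par, PA, S_Fr). PROOF. `s = adj(a) a'` commutes with `n` (Par (5)), frame in `Bx (2 D^2)`; `tf s` is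
traceless and parallel to `n`; `n = c n0`, `n0` primitive, `tf s = q n0`. Off-diagonal entries of the frame of
`tf s`: `<= 4 w D^2`; `|n0 01| = |n 01|/|c| `: `tf s = (q/c) n`, so `|q/c| <= 8 N w D^2` (PA (7)) and the diagonal
entries are `<= |q/c| w N`, all entries `<= 8 N^2 w D^2 < 1/(4R^2)`: `tf s = 0`, `s = x` scalar, `2 s = tr s`; so
`det a a' = a s = x a` (`x` = the diagonal entry of `s`, an integer). `det a <> 0`: otherwise the frame `A` has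
`|A00 A11| = |A01 A10| <= (w D)^2`, so `min <= w D`, and by PA (6) `max <= 2 N^2 w D + 4 w^2 N^2 D <= 6 N^2 w D`;
all entries `< 1/(4R^2)`: `a = 0`. -/
def S_PR : Prop :=
  ∀ R : ℝ, 1 ≤ R → ∃ C1 : ℝ, 1 ≤ C1 ∧ ∀ (S : Sys) (N D : ℝ), S.R = R → 1 ≤ S.K → S.Unim →
    1 ≤ N → 1 ≤ D → C1 * (N ^ 2 * S.w * D ^ 2) ≤ 1 → ∀ i ∈ S.V, ∀ l ∈ S.V, ∀ (n a a' : MZ) (e : ℤ),
    n.det ≠ 0 → Pln S N i n → Pln S N l n → (e = 1 ∨ e = -1) → n * a = e • (a * n) →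
    n * a' = e • (a' * n) → a ≠ 0 → Bx S.w D (fr (S.g i) (S.g l) a) →
    Bx S.w D (fr (S.g i) (S.g l) a') → a.det ≠ 0 ∧ ∃ c : ℤ, a.det • a' = c • a

/-- the data of a pair `(i, l)` of planar cells -/
def Dat (S : Sys) (n : MZ) (Z E : ℝ) (i l : S.ι) (a0 b0 : MZ) : Prop :=
  Prim a0 ∧ Prim b0 ∧ a0.det ≠ 0 ∧ b0.det ≠ 0 ∧ n * a0 = a0 * n ∧ n * b0 = -(b0 * n) ∧
    Bx S.w E (fr (S.g i) (S.g l) a0) ∧ Bx S.w E (fr (S.g i) (S.g l) b0) ∧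
    ∃ (h0 : MZ) (m : ℕ) (t u : ℤ), Ret S.C S.w (S.g i) (S.g l) m h0 ∧ (m : ℝ) ≤ Z ∧ t ≠ 0 ∧ u ≠ 0 ∧
      pa n h0 = t • a0 ∧ pb n h0 = u • b0

/-- PE (uses Fb, Par, PA, PR). PROOF. `D = 8 N^2 C Z`; all `h`, `pa n h`, `pb n h` are in `Bx D` (Fb (6), PA (5)). At most two
`h ∈ H` have `pa n h = 0`: such `h` anticommute with `n` (`2 det n h = pb n h`), by PR two of them are
proportional and both are primitive: `h' = ± h`. The same for `pb`. So `H'`, the `h` with both `<> 0`, has at least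
`card H/2 >= 4` elements. By PR and Par (2): `pa n h = t_h a0`, `pb n h = u_h b0` with fixed primitive `a0`, `b0`,
`det <> 0` (all `pa n h` are rational multiples of one primitive matrix; integral multiples). `h` is
determined by `(t_h, u_h)` (PA (3)) and `t^2 det a0 + u^2 det b0 = (2 det n m)^2` (PA (4)). For given `t` there are
at most `C (N Z)^ε'` values of `u` (`pell_card`, `X^2 - det b0 u^2 = t^2 det a0 <> 0`, all numbers at most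
`(N Z)^C`). Let `t1 = max |t_h| >= 1` over `H'`: at most `3 t1` values of `t`, so `card H' <= 3 t1 C (N Z)^ε'`, and
`t1 a0` (up to sign) is in `Bx D`, so `a0` is in `Bx (D/t1)` (Fb (4)), `D/t1 <= 3 D C (N Z)^ε'/card H' <=
6 D C (N Z)^ε'/card H`. The same for `b0` (with `max |u_h|`). -/
def S_PE : Prop :=
  ∀ (C R ε : ℝ), 1 ≤ C → 1 ≤ R → 0 < ε → ∃ C1 : ℝ, 1 ≤ C1 ∧
    ∀ (S : Sys) (N Z : ℝ) (n : MZ), S.C = C → S.R = R → 1 ≤ S.K → S.Unim → 1 ≤ N → 1 ≤ Z →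
    C1 * (N ^ 6 * S.w * Z ^ 2) ≤ 1 → n.det ≠ 0 → ∀ i ∈ S.V, ∀ l ∈ S.V, Pln S N i n → Pln S N l n →
    ∀ H : Finset MZ, 8 ≤ H.card →
    (∀ h ∈ H, Prim h ∧ ∃ m : ℕ, Ret S.C S.w (S.g i) (S.g l) m h ∧ (m : ℝ) ≤ Z) →
    ∃ a0 b0 : MZ, Dat S n Z (C1 * (N * Z) ^ ε * N ^ 2 * Z / (H.card : ℝ)) i l a0 b0

/-- PM (uses Fb, Par, PA, S_Fr). PROOF. `γ = adj(a0) b0`. (1) Number of `a0`: `tf a0 = U n0` (`n = c n0`, `n0` primitive),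
`(tr a0)^2 + U^2 det n0 = 4 det a0`, and `det a0` divides `det γ <> 0`: `<= C (N Z)^ε'` values of `det a0` (with sign),
for each `<= C (N Z)^ε'` pairs `(tr a0, U)` (`pell_card`, `d = - det n0 <> 0`; sizes: entries of `a0` at most
`4 R^2 E`, `E <= C0 (N Z)^4`). `a0` determines `b0`: `det a0 b0 = a0 γ`. (2) Given `(a0, b0)` and `l` with the data `h0`,
`m`, `t`, `u`: frames `A`, `B'`, `H0` of `a0`, `b0`, `h0`: `|H0 00| >= m/(2C)` (`|H0 00 H0 11| >= m^2 - (C w m)^2 >= m^2/2`),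
`t A + u B' = 2 det n H0` (PA (3)), so `|t A00| >= m/(2C)` or `|u B'00| >= m/(2C)`. Say the first. `t a0 = pa n h0` is
in `Bx (8 N^2 C m)` (PA (5)): `|t A01|, |t A10| <= 8 N^2 C w m`. PA (6) for `t a0`, `D = 8 N^2 C m`:
`|t A00| <= 2 N^2 |t A11| + 32 w^2 N^4 C m`, so `|t A11| >= m/(8 C N^2)` (smallness: `C1 N^6 w Z^2 <= 1`). So
`|A01/A11|, |A10/A00|, ... <= C'' N^4 w`. With `J = (1,0;0,-1)`: `a0 X_i a0^-1 = g_l (A J A^-1) g_l^-1`,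
`A J A^-1 = (A00 A11 + A01 A10, - 2 A00 A01; 2 A10 A11, ..)/det A`, `|det A| >= |A00 A11|/2`, so
`|X_l - a0 X_i a0^-1| <= C'' N^4 w`. In the second case `|X_l - b0 X_i b0^-1| <= C'' N^4 w`. `Sep` with these two
centres (real matrices depending only on `i`, `a0`, `b0`) and `r = C'' N^4 w`: at most `2 B (C'' N^4)^3` cells `l`. -/
def S_PM : Prop :=
  ∀ (C R ε C0 : ℝ), 1 ≤ C → 1 ≤ R → 0 < ε → 1 ≤ C0 → ∃ C1 : ℝ, 1 ≤ C1 ∧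
    ∀ (S : Sys) (B N Z E : ℝ) (n : MZ), S.C = C → S.R = R → 1 ≤ S.K → S.Unim → Sep S B → 1 ≤ B →
    1 ≤ N → 1 ≤ Z → 0 ≤ E → E ≤ C0 * (N * Z) ^ 4 → C1 * (N ^ 6 * S.w * Z ^ 2) ≤ 1 → n.det ≠ 0 →
    ∀ i ∈ S.V, Pln S N i n → ∀ (γ : MZ) (F : Finset S.ι), F ⊆ S.V →
    (∀ l ∈ F, Pln S N l n ∧ ∃ a0 b0 : MZ, Dat S n Z E i l a0 b0 ∧ a0.adjugate * b0 = γ) →
    (F.card : ℝ) ≤ C1 * (N * Z) ^ ε * B * N ^ 12

/-- PG (uses Fb, Par, R2, PA). PROOF. All `γ` are traceless and orthogonal to `n`, so the brackets are multiples of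
`n`: `brk γ γ' = q n0`, `n = c n0`, `n0` primitive. Off-diagonal entries of the frame of `q n0`: `<= 4 w τ^2`;
`n0` is planar as well (`|n0 entries| <= |n entries|`) and `|n0 01 n0 10| >= |det n0| - (w N)^2 >= 1/2`, so one of
`|n0 01|, |n0 10|` is `>= 1/2`: `|q| <= 8 w τ^2`. If two `γ` are not parallel: S_R2: `<= 27 * 8 w τ^2`. Otherwise all are
non-zero multiples of one primitive `γ0` (Par) which is not in the tube `S0`: `|c| S0 < τ`, at most `2 τ/S0`. -/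
def S_PG : Prop :=
  ∃ C1 : ℝ, 1 ≤ C1 ∧ ∀ (S : Sys) (N S0 τ : ℝ) (n : MZ), 1 ≤ S.K → S.Unim → 1 ≤ N → 0 < S0 →
    0 < τ → 2 * (S.w * N) ^ 2 ≤ 1 → n.det ≠ 0 → ∀ i ∈ S.V, Pln S N i n → Gd S S0 i →
    ∀ F : Finset MZ, (∀ γ ∈ F, γ ≠ 0 ∧ Tub S i τ γ ∧ (γ * n).trace = 0) →
      (F.card : ℝ) ≤ C1 * (S.w * τ ^ 2 + τ / S0)

/-- PLc (uses Fb, PE, PM, PG). Planar cells with many returns from `i`. PROOF. `ε' = ε/16`. PE for `(i, l)` and `H` gives `a0, b0` with data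
`Dat S n Z E`, `E = C (N Z)^ε' N^2 Z/r0` (`r0 <= card H`, `Bx` monotone); `E <= C0 (N Z)^4`. `γ = adj(a0) b0` anticommutes with `n` (`adj(a0)`
commutes with `n`), so it is traceless and `tr(γ n) = 0` (`n γ n^-1 = - γ`; or: `tr γ det n = -tr(n γ n) = ...`), `det γ = det a0 det b0 <> 0`,
and its frame is in `Bx (2 E^2)` (S_Fb (1), (2)). PG with `τ = 2 E^2`: at most `C (4 w E^4 + 2 E^2/S0)` values of `γ`; PM: for each of them at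
most `C (N Z)^ε' B N^12` cells `l`. Product `<= C (N Z)^(5 ε') B N^12 (w N^8 Z^4/r0^4 + N^4 Z^2/(r0^2 S0))`, `N <= Z`. -/
def S_PLc : Prop :=
  ∀ (C R ε : ℝ), 1 ≤ C → 1 ≤ R → 0 < ε → ε ≤ 1 → ∃ C1 : ℝ, 1 ≤ C1 ∧
    ∀ (S : Sys) (B N S0 Z : ℝ) (n : MZ), S.C = C → S.R = R → 1 ≤ S.K →
    1 ≤ B → 1 ≤ N → 1 ≤ S0 → N ≤ Z → C1 * (N ^ 6 * S.w * Z ^ 2) ≤ 1 → S.Unim → Sep S B →
    n.det ≠ 0 → ∀ i ∈ S.V, Pln S N i n → Gd S S0 i → ∀ r0 : ℕ, 8 ≤ r0 → ∀ F : Finset S.ι, F ⊆ S.V →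
    (∀ l ∈ F, Pln S N l n ∧ ∃ H : Finset MZ, r0 ≤ H.card ∧ ∀ h ∈ H, Prim h ∧
      ∃ m : ℕ, Ret S.C S.w (S.g i) (S.g l) m h ∧ (m : ℝ) ≤ Z) →
    (F.card : ℝ) ≤ C1 * B * N ^ 24 * Z ^ ε *
      (S.w * Z ^ 4 / (r0 : ℝ) ^ 4 + Z ^ 2 / ((r0 : ℝ) ^ 2 * S0))

/-- Dy (uses nothing). Layers. PROOF. `T` = the sum, `rb = T/(card V)^2 >= 16`. The pairs with `r < rb/2` contribute at most `T/2`. Let
`ρ = ceil(rb/2) >= 8`. A pair with `r >= ρ` has `2^j ρ <= r < 2^(j+1) ρ` for one `j`; sum over `j`: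
`T/2 <= sum_j 2^(j+1) ρ card V (a/(2^j ρ)^4 + b/(2^j ρ)^2) <= card V (4 a/ρ^3 + 4 b/ρ) <= card V (32 a/rb^3 + 8 b/rb)`. -/
def S_Dy : Prop :=
  ∀ (ι : Type) (V : Finset ι) (r : ι → ι → ℕ) (a b T : ℝ), 0 ≤ a → 0 ≤ b →
    (∀ r0 : ℕ, 8 ≤ r0 → ∀ F : Finset (ι × ι), F ⊆ V ×ˢ V → (∀ t ∈ F, r0 ≤ r t.1 t.2) →
      (F.card : ℝ) ≤ (V.card : ℝ) * (a / (r0 : ℝ) ^ 4 + b / (r0 : ℝ) ^ 2)) →
    T = ∑ i ∈ V, ∑ l ∈ V, (r i l : ℝ) → 16 * (V.card : ℝ) ^ 2 ≤ T →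
    T ≤ 64 * (V.card : ℝ) * (a / (T / (V.card : ℝ) ^ 2) ^ 3 + b / (T / (V.card : ℝ) ^ 2))

/-- PL (uses PLc, Dy). PLANAR CELLS. PROOF. `Z = (2M)^(2k)`, the levels are `<= Z`. `r i l` = the number of `h` with `(i,l,h) ∈ T`; the
sum is `card T`. For `r0 >= 8` the pairs with `r >= r0`: for each `i` PLc (`H` = the set of these `h`): hypothesis of Dy with
`a = C1 B N^24 Z^ε w Z^4`, `b = C1 B N^24 Z^ε Z^2/S0`. -/
def S_PL : Prop :=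
  ∀ (k : ℕ) (C R ε : ℝ), 1 ≤ k → 1 ≤ C → 1 ≤ R → 0 < ε → ε ≤ 1 → ∃ C1 : ℝ, 1 ≤ C1 ∧
    ∀ (S : Sys) (B N S0 M : ℝ) (Q : Finset ℕ) (n : MZ), S.C = C → S.R = R → 1 ≤ S.K →
    1 ≤ B → 1 ≤ N → 1 ≤ S0 → 1 ≤ M → N ≤ (2 * M) ^ (2 * k) →
    C1 * (N ^ 6 * S.w * ((2 * M) ^ (2 * k)) ^ 2) ≤ 1 → S.Unim → Sep S B → n.det ≠ 0 →
    (∀ i ∈ S.V, Pln S N i n ∧ Gd S S0 i) →
    (∀ p ∈ Q, p.Prime ∧ M ≤ (p : ℝ) ∧ (p : ℝ) ≤ 2 * M) →
    ∀ T : Finset (S.ι × S.ι × MZ), Rs S S.V Q k T →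
      16 * (S.V.card : ℝ) ^ 2 ≤ (T.card : ℝ) →
      (T.card : ℝ) ≤ C1 * B * N ^ 30 * ((2 * M) ^ (2 * k)) ^ ε * (S.V.card : ℝ) *
        (S.w * ((2 * M) ^ (2 * k)) ^ 4 / ((T.card : ℝ) / (S.V.card : ℝ) ^ 2) ^ 3 +
          ((2 * M) ^ (2 * k)) ^ 2 / (((T.card : ℝ) / (S.V.card : ℝ) ^ 2) * S0))

/-! ### The theorem -/

/-- the block size -/
def Mk (k : ℕ) (κ K : ℝ) : ℝ := K ^ ((1 - 2 * κ) / (2 * (k : ℝ)))

/-- the hypotheses on the system; `σ = κ/1000` -/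
structure HL (S : Sys) (k : ℕ) (κ A B M : ℝ) (pool : Finset ℕ) : Prop where
  unim : S.Unim
  hB : 1 ≤ B
  hB' : B ≤ S.K ^ (κ / 1000)
  ovl : S.Ovl ((2 * S.C) ^ k) B
  sep : Sep S B
  hM : M = Mk k κ S.K
  prm : ∀ p ∈ pool, p.Prime ∧ M ≤ (p : ℝ) ∧ (p : ℝ) ≤ 2 * M
  big : 24 * k ≤ pool.card
  hA : 0 < A
  lo : S.K ^ (-2 - κ / 1000) ≤ A ^ 2 * (S.V.card : ℝ)
  up : A * (S.V.card : ℝ) ≤ S.K ^ (-(8 * κ))
  crd : S.K ^ (1 / 2 : ℝ) ≤ (S.V.card : ℝ)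
  cusp : ∀ i ∈ S.V, ∀ n : MZ, n ≠ 0 → n.trace = 0 → n.det = 0 →
    |fr (S.g i) (S.g i) n 0 1| ≤ S.K ^ κ → |fr (S.g i) (S.g i) n 1 0| ≤ S.K ^ κ →
    S.K ^ (-2 + κ) ≤ |fr (S.g i) (S.g i) n 0 0|
  ai : ∀ Q : Finset ℕ, Q ⊆ pool → pool.card ≤ 96 * k * Q.card → ∀ W : Finset S.ι, W ⊆ S.V →
    (S.V.card : ℝ) ≤ S.K ^ (κ / 5) * (W.card : ℝ) → ∃ T : Finset (S.ι × S.ι × MZ),
      Rs S W Q k T ∧ A * M ^ (4 * k) * (W.card : ℝ) ^ 2 ≤ S.K ^ (κ / 1000) * (T.card : ℝ)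

/-- Cls (uses Fb, VX, `HSL.S_Spl`). Choice of the sub-pool. PROOF. `S_Spl` with `24 k` for `k`: disjoint `Q j`,
`j < 24 k`, `pool.card <= 96 k card (Q j)`. For `i ∈ W` with `vx i` in the tube `tau C k Z`, `Z = (2M)^(2k)`:
`1 <= |det (vx i)| <= 2 tau^2 <= C' M^(8k)` (`det <> 0`: as in TA, `C1 w tau <= 1`), so at most `8 k + 1 <= 12 k` primes `p >= M`,
`p > 2`, divide `2 det (vx i)` (`M` large: `C' < M`), hence at most `12 k` of the `24 k` classes contain such a prime (for other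
`i` there is no condition). Counting pairs `(i, j)`: some `j` is good for at least half of `W`. -/
def S_Cls : Prop :=
  ∀ (k : ℕ) (C R : ℝ), 1 ≤ k → 1 ≤ C → 1 ≤ R → ∃ C1 : ℝ, 1 ≤ C1 ∧
    ∀ (S : Sys) (M : ℝ) (pool : Finset ℕ) (vx : S.ι → MZ), S.C = C → S.R = R → 1 ≤ S.K → C1 ≤ M →
    C1 * (S.w * ((2 * M) ^ (2 * k)) ^ 2) ≤ 1 → S.Unim → Mn S vx →
    (∀ p ∈ pool, p.Prime ∧ M ≤ (p : ℝ) ∧ (p : ℝ) ≤ 2 * M) → 24 * k ≤ pool.card →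
    ∀ W : Finset S.ι, W ⊆ S.V → ∃ (Q : Finset ℕ) (W' : Finset S.ι), Q ⊆ pool ∧
      pool.card ≤ 96 * k * Q.card ∧ W' ⊆ W ∧ W.card ≤ 2 * W'.card ∧
      ∀ i ∈ W', Tub S i (tau C k ((2 * M) ^ (2 * k))) (vx i) → ∀ p ∈ Q, ¬ (p : ℤ) ∣ 2 * (vx i).det

/-- PgN (uses Fb). Pigeonhole for the normals. PROOF. The entries of a normal are at most `4 R^2 N` (Fb (7)), so there are at
most `(8 R^2 N + 1)^3 <= C1 N^3` of them. -/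
def S_PgN : Prop :=
  ∀ R : ℝ, 1 ≤ R → ∃ C1 : ℝ, 1 ≤ C1 ∧ ∀ (S : Sys) (N : ℝ), S.R = R → 1 ≤ S.K → S.Unim → 1 ≤ N →
    ∀ W : Finset S.ι, W ⊆ S.V → W.Nonempty → (∀ i ∈ W, ∃ n : MZ, Pln S N i n) →
    ∃ (n : MZ) (W' : Finset S.ι), W' ⊆ W ∧ (∀ i ∈ W', Pln S N i n) ∧
      (W.card : ℝ) ≤ C1 * N ^ 3 * (W'.card : ℝ)

/-- the bound for the levels -/
def Zk (k : ℕ) (κ K : ℝ) : ℝ := (2 * Mk k κ K) ^ (2 * k)

/-- N0 (uses nothing). Smallness of powers. PROOF. `Zk = 4^k K^(1-2κ)` (as `2 k (1-2κ)/(2k) = 1-2κ`), `Mk = K^((1-2κ)/(2k))` with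
positive exponent; exponents: `-2 + 2(1-2κ) = -4κ`; `6κ/100 - 4κ < 0`; `-2 + 6κ < 0`; `κ/1000 + 36 κ < 1/2`;
`κ/100 < 1 - 2κ`; `-2 + κ/100 < -2 + κ`; `3κ/100 < κ/5`. Each inequality holds for large `K`. -/
def S_N0 : Prop :=
  ∀ (k : ℕ) (κ C1 : ℝ), 1 ≤ k → 0 < κ → κ ≤ 1 / (200 * (k : ℝ)) → 1 ≤ C1 → ∃ K0 : ℝ, 1 ≤ K0 ∧
    ∀ K : ℝ, K0 ≤ K → C1 ≤ Mk k κ K ∧ C1 * (1 / K ^ 2 * Zk k κ K ^ 2) ≤ 1 ∧
      C1 * ((K ^ (κ / 100)) ^ 6 * (1 / K ^ 2) * Zk k κ K ^ 2) ≤ 1 ∧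
      C1 * (1 / K ^ 2 * K ^ (6 * κ)) ≤ 1 ∧
      4 * (C1 * K ^ (κ / 1000) * (K ^ (6 * κ)) ^ 6) ≤ K ^ (1 / 2 : ℝ) ∧ K ^ (κ / 100) ≤ Zk k κ K ∧
      1 / K ^ 2 * K ^ (κ / 100) < K ^ (-2 + κ) ∧ K ^ (κ / 100) ≤ K ^ κ ∧ 8 ≤ K ^ (κ / 5) ∧
      2 * (C1 * (K ^ (κ / 100)) ^ 3) ≤ K ^ (κ / 5)

/-- Nn (uses nothing). Numbers, nonplanar case. PROOF. `s = κ/100`, `σ = κ/1000`; constants are `<= K^(σ/10)` for large `K`. `Mk^(4k) = K^(2-4κ)`, `Zk = 4^k K^(1-2κ)`,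
`Mk >= K^(50 κ)` because `(1-2κ)/(2k) >= 99 κ`. `A = A^2 V/(A V) >= K^(-2-σ+8κ)`, `T/W^2 >= A K^(2-4κ-σ) >= K^(4κ-2σ)`. The bound: either
`T^2 <= 2 C1 B^2 W^2 T`, so `T/W^2 <= 2 C1 K^(2σ)`: contradiction (`4κ > 5σ`); or `T^2 <= 2 C1 B^2 W^3 Zk^σ (..)`, and
`T^2 >= A^2 K^(4-8κ-2σ) W^4`, `A^2 W >= A^2 V/8 >= K^(-2-σ)/8`, so `K^(2-8κ-3σ)/8 <= 2 C1 K^(2σ) Zk^σ (..)` with
`(..) <= C (K^(2-12κ) + K^(2-8κ-s) + K^(2-4κ-50κ) + K^(2-10κ))`, `Zk^σ <= K^σ 4^k`: contradiction as `s = 10 σ > 6σ + 2 σ/10 ...`. -/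
def S_Nn : Prop :=
  ∀ (k : ℕ) (κ C1 : ℝ), 1 ≤ k → 0 < κ → κ ≤ 1 / (200 * (k : ℝ)) → 1 ≤ C1 → ∃ K0 : ℝ, 1 ≤ K0 ∧
    ∀ K A B V W T : ℝ, K0 ≤ K → 0 < A → 1 ≤ B → B ≤ K ^ (κ / 1000) →
      K ^ (-2 - κ / 1000) ≤ A ^ 2 * V → A * V ≤ K ^ (-(8 * κ)) → 0 < W → W ≤ V → V ≤ 8 * W →
      A * Mk k κ K ^ (4 * k) * W ^ 2 ≤ K ^ (κ / 1000) * T →
      T ^ 2 ≤ C1 * B ^ 2 * W ^ 2 * (W * Zk k κ K ^ (κ / 1000) *
        ((1 / K ^ 2) ^ 2 * Zk k κ K ^ 6 + 1 / K ^ 2 * Zk k κ K ^ 4 / K ^ (κ / 100) +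
          Zk k κ K ^ 2 / Mk k κ K + Zk k κ K ^ 2 / K ^ (6 * κ)) + T) → False

/-- Np (uses nothing). Numbers, planar case. PROOF. `W >= V/(2 C1 K^(3s)) >= V K^(-3s-σ)`. `rb = T/W^2 >= A K^(2-4κ-σ) >= K^(4κ-2σ) >= 16` (as in Nn). The second
claim: `T = rb W^2`. Either `rb^4 W <= 2 C1 B K^(30 s) Zk^σ K^-2 Zk^4 <= K^(2-8κ+30s+5σ)`, but `rb^4 W >= (A K^(2-4κ-σ))^2 (K^(4κ-2σ))^2 W = A^2 W K^(4-6σ) >=
K^(2-8σ-3s)`: contradiction, `8κ > 33 s + 13 σ`; or `rb^2 W <= 2 C1 B K^(30s) Zk^σ Zk^2/S0 <= K^(2-10κ+30s+5σ)`, but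
`rb^2 W >= A^2 W K^(4-8κ-2σ) >= K^(2-8κ-4σ-3s)`: contradiction, `2κ > 33 s + 9 σ`. -/
def S_Np : Prop :=
  ∀ (k : ℕ) (κ C1 : ℝ), 1 ≤ k → 0 < κ → κ ≤ 1 / (200 * (k : ℝ)) → 1 ≤ C1 → ∃ K0 : ℝ, 1 ≤ K0 ∧
    ∀ K A B V W T : ℝ, K0 ≤ K → 0 < A → 1 ≤ B → B ≤ K ^ (κ / 1000) →
      K ^ (-2 - κ / 1000) ≤ A ^ 2 * V → A * V ≤ K ^ (-(8 * κ)) → 0 < W → W ≤ V →
      V ≤ 2 * (C1 * (K ^ (κ / 100)) ^ 3) * W →
      A * Mk k κ K ^ (4 * k) * W ^ 2 ≤ K ^ (κ / 1000) * T →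
      16 * W ^ 2 ≤ T ∧
      (T ≤ C1 * B * (K ^ (κ / 100)) ^ 30 * Zk k κ K ^ (κ / 1000) * W *
        (1 / K ^ 2 * Zk k κ K ^ 4 / (T / W ^ 2) ^ 3 + Zk k κ K ^ 2 / ((T / W ^ 2) * K ^ (6 * κ))) →
        False)

/-- Low (uses Fb, VX, T3, NP, PL, Cls, PgN, N0, Nn, Np). THE THEOREM. PROOF. `N = K^(κ/100)`, `S0 = K^(6κ)`, `M = Mk k κ K`, `ε = κ/1000`, `C1` = the maximum of
the constants of the modules. Restricted systems `{S with V := W}` inherit Unim, Ovl, Sep, Mn, Rs. (1) T3: at most `C1 B S0^6 <= card V/4` cells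
are not `Gd S0` (N0, `crd`). (2) Suppose that at least `card V/4` of the cells with `Gd` are nonplanar (`∀ n, ¬ Pln S N i n`): VX and Cls give `Q` and
`W`, `card V <= 8 card W`; `ai` (`8 <= K^(κ/5)`) gives `T`; NP for the system restricted to `W`; Nn: contradiction. (3) Otherwise at least
half of the cells are `Gd` and planar; PgN: `n`, `W`, `card V <= 2 C1 N^3 card W`; `det n <> 0` by `cusp` (a cell `i ∈ W`: `|fr n 01|, |fr n 10| <= N <= K^κ`,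
`|fr n 00| <= w N < K^(-2+κ)`). `ai` with `Q = pool`: `T`. Np: `16 (card W)^2 <= card T`, and PL for the system restricted to `W`
gives a contradiction. -/
def S_Low : Prop :=
  ∀ (k : ℕ) (C R κ : ℝ), 1 ≤ k → 1 ≤ C → 1 ≤ R → 0 < κ → κ ≤ 1 / (200 * (k : ℝ)) → ∃ K0 : ℝ,
    ∀ (S : Sys) (A B M : ℝ) (pool : Finset ℕ), S.C = C → S.R = R → K0 ≤ S.K →
      HL S k κ A B M pool → False

end

end HSLow
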