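import Pool.Agent.Lib.HS.Bd.SpecLow
import Pool.Agent.Lib.HS.C.Spec
import Pool.Agent.Lib.HS.Cel2

/-!
PROJECT H*, LOW BANDS (MP_a54f13_nt), part HS/Bd: from the cells to the system of `SpecLow`. Architect helper41.
-/

set_option autoImplicit false

namespace Pool.Agent.A54.HS

open MeasureTheory Filter Topology Set
open scoped ContDiff ComplexConjugate UpperHalfPlane MatrixGroups ENNReal
open Pool.Agent.A54.Dyn (G fl base ze io mk4 dom)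
open Pool.Agent.A54.Av (Mat NonSc)
open Pool.Agent.A54.Hp Pool.Agent.A54.Hp.Hk Pool.Agent.A54.Hp.A2M

noncomputable section

/-- **Sp** the cells are separated (uses nothing). Proof. `x = rp R w z ∈ cel R w z` (`z ∈ V` nonempty), `HSLow.Xf x.1 = x (1,0;0,-1) x^-1` has the entries
`(00) = xi x 0`, `(01)`, `(10)` = `± xi x 1`, `± xi x 2` up to the normalisation of `xi` (see `HS/C/Cel.lean`: the coordinates of `x (1,0;0,-1) x^-1`), and `⌊xi x i / w⌋ = z i`.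
If all `|Xf - ζ| <= r`, `r >= w`, each coordinate `xi x i` lies in an interval of length `<= 2 c r` and `z i` takes at most `2 c r/w + 2 <= C r/w` values: at most `(C r/w)^3` cells `z`. -/
def StmtSp : Prop := ∀ R : ℝ, 1 ≤ R → ∃ B : ℝ, 1 ≤ B ∧ ∀ w : ℝ, 0 < w → w ≤ 1 →
  ∀ (C : ℝ) (V : Finset (Fin 3 → ℤ)), (∀ z ∈ V, (cel R w z).Nonempty) → HSLow.Sep (sy R w C V) B

/-- **Cz** cells near a cusp (uses nothing; `Hp.stmtTub`). Proof. As `Gz`. `x = rp R w z`, `n ≠ 0` integral, traceless, `det n = 0`: `n = c (q₀ q₁, -q₀²; q₁², -q₀ q₁)`-shaped, i.e. `n = c q (J q)^T` with `q` a nonzero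
integral vector (`q` primitive, `c ≠ 0` integer: rank one, `n² = 0`). With `(α, β) = x^-1 q` the frame is `c (±αβ, ∓α²; ±β², ∓αβ)`. So `|c| α², |c| β² ≤ K^κ` and `|c| |α β| < K^(-2+κ)`; `|α|, |β| ≤ K^(κ/2)`;
`1 ≤ |q| ≤ 2 R max(|α|, |β|)`, so the larger one is `≥ 1/(2R)` and the smaller one is `≤ 2 R K^(-2+κ)`. For `x' ∈ cel z`: `x'^-1 q = e^-1 (α, β)`, `e = x^-1 x'` with diagonal `≤ C`, off-diagonal `≤ C w = C K^(-2)` (`stmtTub`):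
the small coordinate is `≤ 2 R C K^(-2+κ) + C K^(-2) K^(κ/2) ≤ C' K^(-2+κ)`, the other one `≤ C' K^(κ/2)`. -/
def StmtCz : Prop := ∀ R : ℝ, 1 ≤ R → ∃ C : ℝ, 1 ≤ C ∧ ∀ w : ℝ, 0 < w → w ≤ 1 → ∀ κ : ℝ, 0 < κ → κ ≤ 1 →
  ∀ (C₁ : ℝ) (V : Finset (Fin 3 → ℤ)) (z : Fin 3 → ℤ), (cel R w z).Nonempty →
  ∀ n : HSL.MZ, n ≠ 0 → n.trace = 0 → n.det = 0 →
    |HSL.fr ((sy R w C₁ V).g z) ((sy R w C₁ V).g z) n 0 1| ≤ KK w ^ κ →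
    |HSL.fr ((sy R w C₁ V).g z) ((sy R w C₁ V).g z) n 1 0| ≤ KK w ^ κ →
    |HSL.fr ((sy R w C₁ V).g z) ((sy R w C₁ V).g z) n 0 0| < KK w ^ (-2 + κ) →
    cel R w z ⊆ Zc R (C * KK w ^ (-2 + κ)) (C * KK w ^ (κ / 2))

/-- **AIl** the amplifier inequality for the system (uses `ai3c` of `HS/Cel2.lean` in the form `StmtNuL`, `StmtAI3`; `StmtBd` of `HS/Che.lean`). `M = K^((1-2κ)/(2k))`. Proof. `Bd` with `κ' = κ/10^6`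
(`¬ GdC (1/10000) l M`, `M` large): `#Bad ≥ M^(1-κ')`, `|l p| ≤ 1/2` on `Bad`. `Q ⊆ Bad`, `#Bad ≤ 96 k #Q`: `#Q ≥ M^(1-κ')/(96 k)`. `ai3c` for `c = cel R w`, `W` (`CelF`: the cells are measurable, disjoint, in `Om R`), this `k`: the condition
`C ≤ #Q^k (A #W)`: `#Q^k ≥ K^((1-2κ)(1-κ')/2)/(96 k)^k`, `A #W ≥ K^(-κ/5) w^(49/200)/2 = K^(-49/100-κ/5)/2`, exponent `≥ 1/100 - 2κ > 0`. `T` = the finite set `Trp c W (Lv2 Q (2k))` (`Trp_finite`, `Cel1`): `M^(2k) #Q^(2k) A #W² ≤ C #T`;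
`M^(2k) #Q^(2k) ≥ M^(4k) M^(-2kκ')/(96k)^(2k)` and `M^(2kκ') ≤ K^κ'`, so `A M^(4k) #W² ≤ K^(κ/1000) #T` for small `w`. `Rs`: `s ∈ Lv2 Q (2k)`: `Pr s` gives `Prim s`, `sm Q (2k) n` gives `Lev` (`cardFactors`), `det s = n²`; `McC` gives `Ret`. -/
def StmtAIl : Prop := ∀ (k : ℕ) (R C κ : ℝ), 251 ≤ k → 1 ≤ R → 1 ≤ C → McC R C → 0 < κ → κ ≤ 1 / (200 * (k : ℝ)) →
  ∃ w₁ : ℝ, 0 < w₁ ∧ w₁ ≤ 1 ∧ ∀ (l : ℕ → ℝ) (Φ : G → ℂ), HE l Φ → ∀ w A : ℝ, 0 < w → w ≤ w₁ → 0 < A →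
  ∀ V : Finset (Fin 3 → ℤ),
  (∀ z ∈ V, ENNReal.ofReal A ≤ ms Φ (cel R w z) ∧ ms Φ (cel R w z) ≤ ENNReal.ofReal (2 * A)) →
  w ^ (49 / 200 : ℝ) / 2 ≤ A * (V.card : ℝ) → ∀ M : ℝ, M = KK w ^ ((1 - 2 * κ) / (2 * (k : ℝ))) →
  ¬ GdC (1 / 10000) l M →
    24 * k ≤ (Bad l M).card ∧ (∀ p ∈ Bad l M, p.Prime ∧ M ≤ (p : ℝ) ∧ (p : ℝ) ≤ 2 * M) ∧
    ∀ Q : Finset ℕ, Q ⊆ Bad l M → (Bad l M).card ≤ 96 * k * Q.card → ∀ W : Finset (Fin 3 → ℤ), W ⊆ V →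
      (V.card : ℝ) ≤ KK w ^ (κ / 5) * (W.card : ℝ) → ∃ T : Finset ((Fin 3 → ℤ) × (Fin 3 → ℤ) × HSL.MZ),
        HSLow.Rs (sy R w C V) W Q k T ∧
        A * M ^ (4 * k) * (W.card : ℝ) ^ 2 ≤ KK w ^ (κ / 1000) * (T.card : ℝ)

/-- **BdLow** THE LOW BANDS (uses `HSLow.S_Low`, `Mc`, `Ov`, `Sp`, `Cz`, `AIl`; `Hp.pIsU` for `StmtIsU`). Proof. `k = 251`, `κ = min (b₀/4) (1/(200 k))`, `c = κ/4000`. Suppose `A² #V > w^(1+c)`. `C` from `Mc`. Let `V'` be the cells `z ∈ V` without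
the matrix `n` of `Cz`. The others are disjoint cells in `Zc R (C' K^(-2+κ)) (C' K^(κ/2))`, of mass `≤ C'' (K^(-2+3κ/2))^(1/4) ≤ K^(-1/2+κ/2)` (`pIsU`), so `A #(V \ V') ≤ K^(-1/2+κ/2) ≤ w^(49/200)/2 ≤ A #V/2`. `S = sy R w C V'`,
`M = K^((1-2κ)/(2k)) = w^(-(1-2κ)/(4k))`, `1004 = 4 * 251`: in `[w^(-1/(1000 K₀)), w^(-1/1000)]`, so `¬ GdC (1/10000) l M` (`¬ GdK K₀ l w`). `HL S k κ A B M (Bad l M)`: `ovl`: `Ov` with `C' = (2C)^k`, `sep`: `Sp`, `B ≤ K^(κ/1000)`;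
`lo`: `A² #V' ≥ w^(1+c)/2 ≥ K^(-2-κ/1000)` (`w^(1+c) = K^(-2-κ/2000)`); `up`: `A #V' ≤ w^b₀ ≤ K^(-8κ)`; `crd`: `#V' ≥ (w^(49/200)/2)/w^(1/2) = K^(51/100)/2 ≥ K^(1/2)`; `cusp`: choice of `V'`; `ai`, `prm`, `big`: `AIl` for `V'`. `S_Low`: `False`. -/
def StmtBdLow : Prop := ∀ b₀ : ℝ, 0 < b₀ → b₀ ≤ 6 / 25 → ∃ c : ℝ, 0 < c ∧ c ≤ 1 / 1000 ∧ ∀ K₀ R : ℝ, 2 ≤ K₀ → 1 ≤ R →
  ∃ w₁ : ℝ, 0 < w₁ ∧ w₁ ≤ 1 ∧ ∀ (l : ℕ → ℝ) (Φ : G → ℂ), HE l Φ → Csp Φ → ∀ w : ℝ, 0 < w → w ≤ w₁ → ¬ GdK K₀ l w →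
  ∀ A : ℝ, 0 < A → A ≤ w ^ (1 / 2 : ℝ) → ∀ V : Finset (Fin 3 → ℤ),
  (∀ z ∈ V, ENNReal.ofReal A ≤ ms Φ (cel R w z) ∧ ms Φ (cel R w z) ≤ ENNReal.ofReal (2 * A)) →
  w ^ (49 / 200 : ℝ) ≤ A * (V.card : ℝ) → A * (V.card : ℝ) ≤ w ^ b₀ → A ^ 2 * (V.card : ℝ) ≤ w ^ (1 + c)

end

end Pool.Agent.A54.HS
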