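import Pool.Agent.Lib.HS.Bd.Aib
import Pool.Agent.Lib.HS.Bd.SpecLowC
import Pool.Agent.Lib.HS.C.Top
import Pool.Agent.Lib.HS.Bd.SnC

/-!
# Package `HS`, bands: composition of the bands

helper83. `StmtBand b₁ b₂`: no critical level with `w^(1-b₁) ≤ A ≤ w^(1-b₂)`. The low bands (`StmtBdLow`, helper41), the high band
`StmtBand (6/25) (1/3 + 1/1000)` (helper66) and the bound for single tubes (`stmtSnC`) give `StmtBands`.
-/

set_option autoImplicit false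

namespace Pool.Agent.A54.HS

open MeasureTheory Filter Topology Set
open scoped ContDiff ComplexConjugate UpperHalfPlane MatrixGroups ENNReal
open Pool.Agent.A54.Dyn (G fl base ze io mk4 dom)
open Pool.Agent.A54.Av (Mat NonSc)
open Pool.Agent.A54.Hp Pool.Agent.A54.Hp.Hk Pool.Agent.A54.Hp.A2M

noncomputable section

/-- **Band** no critical level with `w^(1-b₁) ≤ A ≤ w^(1-b₂)` -/
def StmtBand (b₁ b₂ : ℝ) : Prop := ∃ c K₀ : ℝ, 0 < c ∧ 1 ≤ K₀ ∧ ∀ R : ℝ, 1 ≤ R → ∃ w₁ : ℝ, 0 < w₁ ∧ w₁ ≤ 1 ∧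
  ∀ (l : ℕ → ℝ) (Φ : G → ℂ), HE l Φ → Csp Φ → ∀ w : ℝ, 0 < w → w ≤ w₁ → ¬ GdK K₀ l w →
  ∀ A : ℝ, w ^ (1 - b₁) ≤ A → A ≤ w ^ (1 - b₂) → ∀ V : Finset (Fin 3 → ℤ), CelM Φ R w A V →
    A ^ 2 * (V.card : ℝ) ≤ w ^ (1 + c)

lemma CelM.mono {Φ : G → ℂ} {R w A : ℝ} {V V' : Finset (Fin 3 → ℤ)} (h : CelM Φ R w A V) (hs : V' ⊆ V) :
    CelM Φ R w A V' := fun z hz => h z (hs hz)

/-- cells of positive mass are not empty -/
lemma CelM.ne {Φ : G → ℂ} {R w A : ℝ} (hA : 0 < A) {V : Finset (Fin 3 → ℤ)} (h : CelM Φ R w A V) :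
    ∀ z ∈ V, (cel R w z).Nonempty := by
  intro z hz
  rw [Set.nonempty_iff_ne_empty]
  intro he
  have h1 := (h z hz).1
  rw [he] at h1
  have h2 : ms Φ (∅ : Set G) = 0 := by simp [ms]
  rw [h2, nonpos_iff_eq_zero, ENNReal.ofReal_eq_zero] at h1
  linarith

/-- the representatives are unimodular and bounded -/
lemma sy_unim {R w C : ℝ} {V : Finset (Fin 3 → ℤ)} (h : ∀ z ∈ V, (cel R w z).Nonempty) : (sy R w C V).Unim := by
  intro z hz
  refine ⟨(rp R w z).2, ?_⟩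
  have h1 : rp R w z ∈ cel R w z := by
    unfold rp
    rw [dif_pos (h z hz)]
    exact (h z hz).some_mem
  exact h1.1

/-- the total mass of the cells -/
lemma CelM.tot {Φ : G → ℂ} {R w A C : ℝ} (hA : 0 ≤ A) (hC : 0 ≤ C) {V : Finset (Fin 3 → ℤ)} (h : CelM Φ R w A V)
    (hT : ms Φ (Om R) ≤ ENNReal.ofReal C) : A * (V.card : ℝ) ≤ C := by
  have h1 : ENNReal.ofReal (A * (V.card : ℝ)) ≤ ENNReal.ofReal C := by
    calc ENNReal.ofReal (A * (V.card : ℝ)) = ∑ _z ∈ V, ENNReal.ofReal A := by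
          rw [Finset.sum_const, nsmul_eq_mul, ENNReal.ofReal_mul hA, ENNReal.ofReal_natCast, mul_comm]
      _ ≤ ∑ z ∈ V, ms Φ (cel R w z) := Finset.sum_le_sum fun z hz => (h z hz).1
      _ = ms Φ (celU R w V) := (ms_celU Φ R w V).symm
      _ ≤ ms Φ (Om R) := ms_mono Φ (celU_sub R w V)
      _ ≤ _ := hT
  exact (ENNReal.ofReal_le_ofReal_iff hC).1 h1

/-- a larger constant `K₀` -/
lemma not_GdK {K K' : ℝ} {l : ℕ → ℝ} {w : ℝ} (hw : 0 < w) (hw1 : w ≤ 1) (hK : 0 < K) (h : K ≤ K') (hG : ¬ GdK K' l w) :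
    ¬ GdK K l w := fun h' => hG (AibM.GdK_mono hw hw1 hK h h')

/-- two adjacent bands -/
theorem StmtBand.trans {b₁ b₂ b₃ : ℝ} (h1 : StmtBand b₁ b₂) (h2 : StmtBand b₂ b₃) : StmtBand b₁ b₃ := by
  obtain ⟨c, K, hc, hK, h1⟩ := h1
  obtain ⟨c', K', hc', hK', h2⟩ := h2
  refine ⟨min c c', max K K', lt_min hc hc', hK.trans (le_max_left _ _), ?_⟩
  intro R hR
  obtain ⟨w₁, hw₁, hw₁1, h1⟩ := h1 R hR
  obtain ⟨w₂, hw₂, hw₂1, h2⟩ := h2 R hR
  refine ⟨min w₁ w₂, lt_min hw₁ hw₂, (min_le_left _ _).trans hw₁1, ?_⟩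
  intro l Φ hE hcsp w hw hww hG A hA1 hA2 V hV
  have hw1 : w ≤ 1 := hww.trans ((min_le_left _ _).trans hw₁1)
  rcases le_total A (w ^ (1 - b₂)) with h | h
  · refine (h1 l Φ hE hcsp w hw (hww.trans (min_le_left _ _)) (not_GdK hw hw1 (by linarith) (le_max_left _ _) hG) A hA1 h V hV).trans ?_
    exact Real.rpow_le_rpow_of_exponent_ge hw hw1 (by have := min_le_left c c'; linarith)
  · refine (h2 l Φ hE hcsp w hw (hww.trans (min_le_right _ _)) (not_GdK hw hw1 (by linarith) (le_max_right _ _) hG) A h hA2 V hV).trans ?_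
    exact Real.rpow_le_rpow_of_exponent_ge hw hw1 (by have := min_le_right c c'; linarith)

/-- a subset with `x < a² #V' ≤ x + a²` -/
lemma exists_sub {V : Finset (Fin 3 → ℤ)} {a x : ℝ} (hx : 0 ≤ x) (h : x < a * (V.card : ℝ)) :
    ∃ V' ⊆ V, x < a * (V'.card : ℝ) ∧ a * (V'.card : ℝ) ≤ x + a := by
  classical
  have hP : ∃ n : ℕ, x < a * (n : ℝ) := ⟨V.card, h⟩
  have hspec := Nat.find_spec hP
  have hmin := fun m (hm : m < Nat.find hP) => Nat.find_min hP hm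
  have hle : Nat.find hP ≤ V.card := Nat.find_le h
  obtain ⟨V', hV', hc⟩ := Finset.exists_subset_card_eq hle
  refine ⟨V', hV', by rw [hc]; exact hspec, ?_⟩
  rw [hc]
  have h0 : Nat.find hP ≠ 0 := by
    intro h0
    rw [h0] at hspec
    push_cast at hspec
    linarith
  obtain ⟨n, hn⟩ : ∃ n, Nat.find hP = n + 1 := ⟨Nat.find hP - 1, by omega⟩
  have h1 := hmin n (by omega)
  rw [not_lt] at h1
  rw [hn]
  push_cast
  linarith

/-- the low bands -/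
theorem lowBand (h : StmtBdLow) : ∀ b : ℝ, 0 < b → StmtBand b (6 / 25) := by
  intro b hb
  obtain ⟨b₀, hb₀d⟩ : ∃ b₀ : ℝ, b₀ = min b (6 / 25) := ⟨_, rfl⟩
  have hb₀ : 0 < b₀ := by rw [hb₀d]; exact lt_min hb (by norm_num)
  have hb₀b : b₀ ≤ b := by rw [hb₀d]; exact min_le_left _ _
  have hb₀1 : b₀ ≤ 6 / 25 := by rw [hb₀d]; exact min_le_right _ _
  obtain ⟨c, hc0, hc1, hc⟩ := h b₀ hb₀ hb₀1
  obtain ⟨c', hc'd⟩ : ∃ c' : ℝ, c' = c / 2 := ⟨_, rfl⟩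
  have hc'0 : 0 < c' := by rw [hc'd]; positivity
  have hc'1 : c' ≤ 1 / 2000 := by rw [hc'd]; linarith
  refine ⟨c', 2, hc'0, by norm_num, ?_⟩
  intro R hR
  obtain ⟨w₁, hw₁, hw₁1, hlow⟩ := hc 2 R le_rfl hR
  refine ⟨min w₁ (2 ^ (-(1 / c') : ℝ)), lt_min hw₁ (by positivity), (min_le_left _ _).trans hw₁1, ?_⟩
  intro l Φ hE hcsp w hw hww hG A hA1 hA2 V hV
  have hww1 : w ≤ w₁ := hww.trans (min_le_left _ _)
  have hw1 : w ≤ 1 := hww1.trans hw₁1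
  have hw2 : (2 : ℝ) * w ^ c' ≤ 1 := by
    have h1 : w ^ c' ≤ (2 ^ (-(1 / c') : ℝ)) ^ c' := Real.rpow_le_rpow hw.le (hww.trans (min_le_right _ _)) hc'0.le
    rw [← Real.rpow_mul (by norm_num)] at h1
    have h2 : -(1 / c') * c' = -1 := by field_simp
    rw [h2, Real.rpow_neg_one] at h1
    linarith
  by_contra hcon
  rw [not_le] at hcon
  have hA0 : 0 < A := lt_of_lt_of_le (Real.rpow_pos_of_pos hw _) hA1
  obtain ⟨V', hV', h1, h2⟩ := exists_sub (Real.rpow_pos_of_pos hw (1 + c')).le hcon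
  -- `A² ≤ w^(1+c')`
  have hAA : A ^ 2 ≤ w ^ (1 + c') := by
    have h3 : A ^ 2 ≤ (w ^ (1 - 6 / 25 : ℝ)) ^ 2 := pow_le_pow_left₀ hA0.le hA2 2
    rw [← Real.rpow_natCast (w ^ (1 - 6 / 25 : ℝ)) 2, ← Real.rpow_mul hw.le] at h3
    refine h3.trans (Real.rpow_le_rpow_of_exponent_ge hw hw1 ?_)
    push_cast
    linarith
  have h3 : A ^ 2 * (V'.card : ℝ) = A * (A * (V'.card : ℝ)) := by ring
  have hlo : w ^ (49 / 200 : ℝ) ≤ A * (V'.card : ℝ) := by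
    by_contra hlt
    rw [not_le] at hlt
    have h4 : A ^ 2 * (V'.card : ℝ) ≤ w ^ (1 - 6 / 25 : ℝ) * w ^ (49 / 200 : ℝ) := by
      rw [h3]
      exact mul_le_mul hA2 hlt.le (by positivity) (Real.rpow_pos_of_pos hw _).le
    rw [← Real.rpow_add hw] at h4
    have h5 : w ^ (1 - 6 / 25 + 49 / 200 : ℝ) ≤ w ^ (1 + c') :=
      Real.rpow_le_rpow_of_exponent_ge hw hw1 (by linarith)
    linarith
  have hup : A * (V'.card : ℝ) ≤ w ^ b₀ := by
    by_contra hlt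
    rw [not_le] at hlt
    have hA3 : w ^ (1 - b₀) ≤ A := by
      rcases le_total b (6 / 25) with h6 | h6
      · have : b₀ = b := by rw [hb₀d]; exact min_eq_left h6
        rw [this]
        exact hA1
      · have : b₀ = 6 / 25 := by rw [hb₀d]; exact min_eq_right h6
        rw [this]
        exact (Real.rpow_le_rpow_of_exponent_ge hw hw1 (by linarith)).trans hA1
    have i1 : w ^ (1 - b₀) * w ^ b₀ = w := by
      rw [← Real.rpow_add hw]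
      norm_num
    have i2 : w ^ (1 - b₀) * w ^ b₀ ≤ A * w ^ b₀ := mul_le_mul_of_nonneg_right hA3 (Real.rpow_pos_of_pos hw _).le
    have i3 : A * w ^ b₀ < A * (A * (V'.card : ℝ)) := mul_lt_mul_of_pos_left hlt hA0
    have i4 : w ^ (1 + c') = w * w ^ c' := by
      rw [Real.rpow_add hw, Real.rpow_one]
    have i5 : w * (2 * w ^ c') ≤ w * 1 := mul_le_mul_of_nonneg_left hw2 hw.le
    rw [h3] at h2
    linarith
  have h4 := hlow l Φ hE hcsp w hw hww1 hG A hA0 (hA2.trans (Real.rpow_le_rpow_of_exponent_ge hw hw1 (by norm_num))) V'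
    (hV.mono hV') hlo hup
  have h5 : w ^ (1 + c) ≤ w ^ (1 + c') := Real.rpow_le_rpow_of_exponent_ge hw hw1 (by rw [hc'd]; linarith)
  linarith

/-- above `w^(2/3 - ε)` there are no cells -/
theorem highBand {e : ℝ} (he : 0 < e) : ∃ K₀ : ℝ, 1 ≤ K₀ ∧ ∀ R : ℝ, 1 ≤ R → ∃ w₁ : ℝ, 0 < w₁ ∧ w₁ ≤ 1 ∧
    ∀ (l : ℕ → ℝ) (Φ : G → ℂ), HE l Φ → ∀ w : ℝ, 0 < w → w ≤ w₁ → ¬ GdK K₀ l w →
    ∀ A : ℝ, w ^ (2 / 3 - e : ℝ) ≤ A → ∀ V : Finset (Fin 3 → ℤ), CelM Φ R w A V → V = ∅ := by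
  obtain ⟨K₀, hK₀, hS⟩ := stmtSnC (stmtAI3 stmtNuL pUnf stmtNm pDds pTot) pTot pDds stmtTub (e / 2) (by linarith)
  refine ⟨K₀, hK₀, fun R hR => ?_⟩
  obtain ⟨w₁, hw₁, hw₁1, hS⟩ := hS R hR K₀ le_rfl
  refine ⟨min w₁ (1 / 2), lt_min hw₁ (by norm_num), (min_le_left _ _).trans hw₁1, ?_⟩
  intro l Φ hE w hw hww hG A hA V hV
  have hw2 : w < 1 := lt_of_le_of_lt (hww.trans (min_le_right _ _)) (by norm_num)
  rw [Finset.eq_empty_iff_forall_notMem]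
  intro z hz
  have hA0 : 0 < A := lt_of_lt_of_le (Real.rpow_pos_of_pos hw _) hA
  obtain ⟨g, hg⟩ := hV.ne hA0 z hz
  have h1 := (hV z hz).1.trans ((ms_mono Φ (cel_sub_Tb hw hg)).trans
    (hS l Φ hE w hw (hww.trans (min_le_left _ _)) hG w le_rfl hw2.le (xi g)))
  rw [ENNReal.ofReal_le_ofReal_iff (by positivity), ← Real.rpow_add hw] at h1
  have h2 : w ^ (2 / 3 + -(e / 2) : ℝ) < w ^ (2 / 3 - e : ℝ) :=
    Real.rpow_lt_rpow_of_exponent_gt hw hw2 (by linarith)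
  linarith

/-- **the bands** -/
theorem stmtBands (h1 : ∀ b : ℝ, 0 < b → StmtBand b (6 / 25)) (h2 : StmtBand (6 / 25) (1 / 3 + 1 / 1000)) :
    StmtBands := by
  intro b hb
  obtain ⟨c, K, hc, hK, hband⟩ := (h1 b hb).trans h2
  obtain ⟨K', hK', hhigh⟩ := highBand (e := 1 / 1000) (by norm_num)
  refine ⟨c, max K K', hc, hK.trans (le_max_left _ _), ?_⟩
  intro R hR
  obtain ⟨w₁, hw₁, hw₁1, h1⟩ := hband R hR
  obtain ⟨w₂, hw₂, hw₂1, h2⟩ := hhigh R hR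
  refine ⟨min w₁ w₂, lt_min hw₁ hw₂, (min_le_left _ _).trans hw₁1, ?_⟩
  intro l Φ hE hcsp w hw hww hG A hA V hV
  have hw1 : w ≤ 1 := hww.trans ((min_le_left _ _).trans hw₁1)
  rcases le_total A (w ^ (1 - (1 / 3 + 1 / 1000) : ℝ)) with h | h
  · exact h1 l Φ hE hcsp w hw (hww.trans (min_le_left _ _)) (not_GdK hw hw1 (by linarith) (le_max_left _ _) hG) A hA h V hV
  · have h3 : w ^ (2 / 3 - 1 / 1000 : ℝ) ≤ A := by
      refine le_trans (le_of_eq ?_) h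
      norm_num
    rw [h2 l Φ hE w hw (hww.trans (min_le_right _ _)) (not_GdK hw hw1 (by linarith) (le_max_right _ _) hG) A h3 V hV,
      Finset.card_empty]
    have := Real.rpow_pos_of_pos hw (1 + c)
    push_cast
    linarith

end

end Pool.Agent.A54.HS
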